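import Pool.Agent.Helper8.LG.Reduce

/-!
# QS-DER: a derivation over a subfield

`Ω` is a field of characteristic zero, `y` is transcendental over the subfield `B`: there is a
derivation of `Ω` over `B` which does not kill `y` (transcendence basis containing `y`, derivation
of the rational function field, unique extension to algebraic extensions; or: `Ω / B(y)` is formally
smooth / the Kaehler differential `dy` is not zero). See also `red_exists_der` of
`Helper8/LG/Reduce.lean`, where the extension is finite.
-/

set_option autoImplicit false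

namespace Pool.Agent.Helper6.QS

theorem exists_der {Ω : Type*} [Field Ω] [CharZero Ω] (B : Subfield Ω) (y : Ω)
    (hy : ¬ IsAlgebraic B y) :
    ∃ δ : Derivation ℤ Ω Ω, (∀ b ∈ B, δ b = 0) ∧ δ y ≠ 0 := by
  classical
  have h1 : AlgebraicIndepOn B id ({y} : Set Ω) := by
    have h2 : Transcendental B y := hy
    exact (algebraicIndependent_unique_type_iff
      (x := fun i : ({y} : Set Ω) => id i.1)).2 h2
  obtain ⟨t, hst, ht⟩ := exists_isTranscendenceBasis_superset h1
  have hyt : y ∈ t := hst rfl
  have ha := ht.isAlgebraic
  obtain ⟨D, hD⟩ := Pool.Agent.Helper8.LG.red_exists_der (k := B) (fun i : t => (i : Ω)) ht.1 ha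
    (fun i => if (i : Ω) = y then 1 else 0)
  refine ⟨D.restrictScalars ℤ, fun b hb => ?_, ?_⟩
  · exact D.map_algebraMap (⟨b, hb⟩ : B)
  · have h3 := hD ⟨y, hyt⟩
    rw [if_pos rfl] at h3
    change D y ≠ 0
    rw [h3]
    exact one_ne_zero

end Pool.Agent.Helper6.QS
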