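import Pool.Agent.Helper6.QS.UlFrame

/-!
# QS-STAGEONE: infinitely many of the points are bounded

Apply `KeyQ` in the ultrapower (`ul_exists L`, `ul_frame`) to the point `x = (Q (X m l))_l`
(`form` by `ul_Q_form`): all `x_l ∈ B`, so with a common denominator `Q g`, `Q g ≠ 0`,
`Q g * x_l = Q f_l`, all in one finite-dimensional `V`; so `g m ≠ 0` and `g m * X m l = f_l m ∈ V`
for almost all `m`, hence for infinitely many.
-/

set_option autoImplicit false

namespace Pool.Agent.Helper6.QS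

open scoped BigOperators
open MvPolynomial
open Pool.Agent.Helper8.LG
open Pool.Agent.Helper49.LN (cP mo hf pl)

universe u v

/-- a common denominator -/
theorem StageOne_den {k : Type v} {L : Type u} [Field k] [Field L] [Algebra k L] {Ω : Type u}
    [Field Ω] (Q : (ℕ → L) →+* Ω) {ι : Type} [DecidableEq ι] (x : ι → Ω)
    (hx : ∀ l, ∃ V : Submodule k L, FiniteDimensional k V ∧ ∃ f g : ℕ → L,
      (∀ m, f m ∈ V) ∧ (∀ m, g m ∈ V) ∧ Q g ≠ 0 ∧ x l * Q g = Q f) (s : Finset ι) :
    ∃ V : Submodule k L, FiniteDimensional k V ∧ ∃ (f : ι → ℕ → L) (g : ℕ → L),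
      (∀ l ∈ s, ∀ m, f l m ∈ V) ∧ (∀ m, g m ∈ V) ∧ Q g ≠ 0 ∧ ∀ l ∈ s, x l * Q g = Q (f l) := by
  induction s using Finset.induction_on with
  | empty =>
    refine ⟨Submodule.span k {1}, FiniteDimensional.span_singleton k 1, fun _ _ => 0, fun _ => 1,
      fun l hl => absurd hl (Finset.notMem_empty l), fun _ => Submodule.mem_span_singleton_self 1,
      ?_, fun l hl => absurd hl (Finset.notMem_empty l)⟩
    have : Q (fun _ => (1 : L)) = 1 := map_one Q
    rw [this]
    exact one_ne_zero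
  | insert l₀ s hl₀ ih =>
    obtain ⟨V, hV, f, g, hf, hg, hg0, hx1⟩ := ih
    obtain ⟨V₀, hV₀, f₀, g₀, hf₀, hg₀, hg₀0, hx₀⟩ := hx l₀
    refine ⟨V * V₀, ?_, fun l => if l = l₀ then g * f₀ else f l * g₀, g * g₀, ?_, ?_, ?_, ?_⟩
    · have h1 : V.FG := Module.Finite.iff_fg.1 hV
      have h2 : V₀.FG := Module.Finite.iff_fg.1 hV₀
      exact Module.Finite.iff_fg.2 (h1.mul h2)
    · intro l hl m
      by_cases h : l = l₀
      · simp only [h, if_true]
        exact Submodule.mul_mem_mul (hg m) (hf₀ m)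
      · simp only [h, if_false]
        exact Submodule.mul_mem_mul (hf l ((Finset.mem_insert.1 hl).resolve_left h) m) (hg₀ m)
    · exact fun m => Submodule.mul_mem_mul (hg m) (hg₀ m)
    · rw [map_mul]
      exact mul_ne_zero hg0 hg₀0
    · intro l hl
      by_cases h : l = l₀
      · subst h
        simp only [if_true]
        rw [map_mul, map_mul, ← hx₀]
        ring
      · simp only [h, if_false]
        rw [map_mul, map_mul, ← hx1 l ((Finset.mem_insert.1 hl).resolve_left h)]
        ring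

theorem stage_one {N q : ℕ} (hK : KeyQ.{u} N q) {k : Type v} {L : Type u} [Field k] [Field L]
    [CharZero L] [Algebra k L] (a : Sym (Fin (N + 1)) q → L) (hind : AlgebraicIndependent k a)
    (hfin : FiniteDimensional (IntermediateField.adjoin k (Set.range a)) L)
    (D : Sym (Fin (N + 1)) q → Derivation ℤ L L)
    (hD : ∀ I J, D J (a I) = if I = J then 1 else 0)
    (hDk : ∀ J (c : k), D J (algebraMap k L c) = 0)
    (X : ℕ → Fin (N + 1) → L) (h0 : ∀ m, X m 0 = 1) (hF : ∀ m, form a (X m) = 0) :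
    ∃ V : Submodule k L, FiniteDimensional k V ∧
      {m : ℕ | ∃ G : L, G ≠ 0 ∧ ∀ l, G * X m l ∈ V}.Infinite := by
  classical
  obtain ⟨Ω, instΩ, Q, hQ, hker⟩ := ul_exists L
  let algLΩ : Algebra L Ω := (Q.comp (Pi.constRingHom ℕ L)).toAlgebra
  have : CharZero Ω := charZero_of_injective_algebraMap (algebraMap L Ω).injective
  obtain ⟨B, hfr, hB⟩ := ul_frame Q hQ hker a hind hfin D hD hDk
  set x : Fin (N + 1) → Ω := fun l => Q fun m => X m l with hx
  have hx0 : x 0 = 1 := by
    rw [hx]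
    simp only [h0]
    exact map_one Q
  have hxF : form (fun J => Q fun _ => a J) x = 0 := by
    rw [hx, ← ul_Q_form]
    simp only [hF]
    exact map_zero Q
  have hxB := hK Ω _ _ B hfr x hx0 hxF
  obtain ⟨V, hV, f, g, hf, hg, hg0, hxg⟩ := StageOne_den (k := k) Q x (fun l => hB _ (hxB l))
    Finset.univ
  refine ⟨V, hV, ?_⟩
  have h1 : ∀ᶠ m in (Filter.hyperfilter ℕ : Filter ℕ), g m ≠ 0 := by
    have h2 : ¬ ∀ᶠ m in (Filter.hyperfilter ℕ : Filter ℕ), g m = 0 := fun h => hg0 ((hker g).2 h)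
    exact Ultrafilter.eventually_not.2 h2
  have h3 : ∀ᶠ m in (Filter.hyperfilter ℕ : Filter ℕ), ∀ l, g m * X m l = f l m := by
    rw [Filter.eventually_all]
    intro l
    have h4 : Q ((fun m => X m l) * g - f l) = 0 := by
      rw [map_sub, map_mul, ← hxg l (Finset.mem_univ l), sub_self]
    refine ((hker _).1 h4).mono fun m hm => ?_
    have h5 : X m l * g m - f l m = 0 := hm
    rw [mul_comm]
    exact sub_eq_zero.1 h5
  intro hfin'
  refine hfin'.notMem_hyperfilter ?_
  have h6 := h1.and h3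
  refine Filter.mem_of_superset h6 ?_
  rintro m ⟨hm1, hm2⟩
  exact ⟨g m, hm1, fun l => by rw [hm2 l]; exact hf l (Finset.mem_univ l) m⟩

end Pool.Agent.Helper6.QS
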