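import Pool.Agent.Helper6.QS.Rat
import Pool.Agent.Helper74.LN.BoundP
import Pool.Agent.Helper8.LG.Ultra

/-!
# QS-ULFRAME: the ultrapower is a frame

`L` is finite over `k(a)`, the `a_J` algebraically independent over `k`, `D_J` dual to them and zero
on `k`; `Ω` an ultrapower of `L` (`ul_exists`), with the derivations `ulDer`. `B` = quotients of
bounded elements `Q f`, `f m ∈ V` for all `m`, `V` a finite-dimensional `k`-subspace of `L` (a
subring: products of two such spaces). `ul_val`: ultraproducts of valuation rings.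
`rat`: let `s ⊆ B` be finite; with a common denominator `b (Q v) = Q f_b`, `v m, f_b m ∈ V₀`,
`v m ≠ 0` (change `v` on a null set). `y = Q Y`. For every direction `p` and every sign take
`Δ_p ∈ L` of `exists_bound` for `intCl (others p) (a_p)^(±1)` with `S` = a basis of `V₀` and `1`.
Claim: for almost all `m`: `(Δ_p^2 v_m)^M Y_m ∈ intCl`. Otherwise choose (`mem_of`) valuation rings
`O_m ⊇ intCl` with `(Δ_p^2 v_m)^M Y_m ∉ O_m` for almost all `m`; in the ultraproduct `O` the
element `Δ = Q (Δ_p^2 v_m)` satisfies `Bdd` (`bdd_of`) and `Δ b = Q (Δ_p^2 f_b) ∈ O`, so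
`Δ^M y ∈ O`, a contradiction. By `fd` with `Δ_p^(2 M)`: `v_m^M Y_m ∈ V₁` for almost all `m`, so
`y ∈ B`.
-/

set_option autoImplicit false

namespace Pool.Agent.Helper6.QS

open scoped BigOperators
open MvPolynomial
open Pool.Agent.Helper8.LG
open Pool.Agent.Helper49.LN (cP mo hf pl)

/-- the ultraproduct of valuation rings -/
theorem ul_val {L Ω : Type*} [Field L] [Field Ω] (Q : (ℕ → L) →+* Ω)
    (hQ : Function.Surjective Q)
    (hker : ∀ f, Q f = 0 ↔ ∀ᶠ m in (Filter.hyperfilter ℕ : Filter ℕ), f m = 0)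
    (Om : ℕ → ValuationSubring L) :
    ∃ O : ValuationSubring Ω, ∀ f : ℕ → L, Q f ∈ O ↔
      ∀ᶠ m in (Filter.hyperfilter ℕ : Filter ℕ), f m ∈ Om m := by
  have heq : ∀ (f g : ℕ → L), Q f = Q g → (∀ᶠ m in (Filter.hyperfilter ℕ : Filter ℕ), f m ∈ Om m) →
      ∀ᶠ m in (Filter.hyperfilter ℕ : Filter ℕ), g m ∈ Om m := by
    intro f g h hf
    rw [ul_eq Q hker] at h
    filter_upwards [h, hf] with m h1 h2
    rw [← h1]
    exact h2
  let O : ValuationSubring Ω :=
    { carrier := {z | ∃ f, Q f = z ∧ ∀ᶠ m in (Filter.hyperfilter ℕ : Filter ℕ), f m ∈ Om m}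
      mul_mem' := by
        rintro _ _ ⟨f, rfl, hf⟩ ⟨g, rfl, hg⟩
        refine ⟨f * g, map_mul Q f g, ?_⟩
        filter_upwards [hf, hg] with m h1 h2
        exact (Om m).mul_mem _ _ h1 h2
      one_mem' := ⟨1, map_one Q, Filter.Eventually.of_forall fun m => (Om m).one_mem⟩
      add_mem' := by
        rintro _ _ ⟨f, rfl, hf⟩ ⟨g, rfl, hg⟩
        refine ⟨f + g, map_add Q f g, ?_⟩
        filter_upwards [hf, hg] with m h1 h2
        exact (Om m).add_mem _ _ h1 h2
      zero_mem' := ⟨0, map_zero Q, Filter.Eventually.of_forall fun m => (Om m).zero_mem⟩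
      neg_mem' := by
        rintro _ ⟨f, rfl, hf⟩
        refine ⟨-f, map_neg Q f, ?_⟩
        filter_upwards [hf] with m h1
        exact (Om m).neg_mem _ h1
      mem_or_inv_mem' := by
        intro x
        obtain ⟨f, rfl⟩ := hQ x
        by_cases hf : ∀ᶠ m in (Filter.hyperfilter ℕ : Filter ℕ), f m ∈ Om m
        · exact Or.inl ⟨f, rfl, hf⟩
        · right
          have hf' : ∀ᶠ m in (Filter.hyperfilter ℕ : Filter ℕ), f m ∉ Om m :=
            Ultrafilter.eventually_not.2 hf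
          refine ⟨fun m => (f m)⁻¹, ?_, ?_⟩
          · have h1 : Q (fun m => (f m)⁻¹) * Q f = 1 := by
              rw [← map_mul, ← map_one Q, ul_eq Q hker]
              filter_upwards [hf'] with m hm
              have h0 : f m ≠ 0 := by
                intro h0
                rw [h0] at hm
                exact hm (Om m).zero_mem
              show (f m)⁻¹ * f m = 1
              exact inv_mul_cancel₀ h0
            exact eq_inv_of_mul_eq_one_left h1
          · filter_upwards [hf'] with m hm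
            exact ((Om m).mem_or_inv_mem (f m)).resolve_left hm }
  refine ⟨O, fun f => ⟨?_, fun h => ⟨f, rfl, h⟩⟩⟩
  rintro ⟨g, hg, h⟩
  exact heq g f hg h

/-- quotients of bounded elements -/
def UlFrameB (k : Type*) {L Ω : Type*} [Field k] [Field L] [Algebra k L] [Field Ω]
    (Q : (ℕ → L) →+* Ω) (y : Ω) : Prop :=
  ∃ V : Submodule k L, FiniteDimensional k V ∧ ∃ f g : ℕ → L,
    (∀ m, f m ∈ V) ∧ (∀ m, g m ∈ V) ∧ Q g ≠ 0 ∧ y * Q g = Q f

section

variable {k L Ω : Type*} [Field k] [Field L] [Algebra k L] [Field Ω] (Q : (ℕ → L) →+* Ω)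

theorem ulFrame_fdmul (V W : Submodule k L) (hV : FiniteDimensional k V)
    (hW : FiniteDimensional k W) : FiniteDimensional k ((V * W : Submodule k L)) :=
  Module.Finite.iff_fg.2 ((Module.Finite.iff_fg.1 hV).mul (Module.Finite.iff_fg.1 hW))

theorem ulFrame_fdpow (V : Submodule k L) (hV : FiniteDimensional k V) (n : ℕ) :
    FiniteDimensional k ((V ^ n : Submodule k L)) :=
  Module.Finite.iff_fg.2 ((Module.Finite.iff_fg.1 hV).pow n)

theorem ulFrame_fdone : FiniteDimensional k ((1 : Submodule k L)) := by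
  rw [Submodule.one_eq_span]
  exact FiniteDimensional.span_of_finite k (Set.toFinite _)

theorem ulFrame_one : UlFrameB k Q 1 := by
  refine ⟨1, ulFrame_fdone, fun _ => 1, fun _ => 1, fun _ => ?_, fun _ => ?_,
    ?_, ?_⟩
  · exact Submodule.one_le.1 le_rfl
  · exact Submodule.one_le.1 le_rfl
  · have : Q (fun _ => 1) = 1 := map_one Q
    rw [this]
    exact one_ne_zero
  · rw [one_mul]

theorem ulFrame_zero : UlFrameB k Q 0 := by
  obtain ⟨V, hV, f, g, hf, hg, hg0, -⟩ := ulFrame_one (k := k) Q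
  refine ⟨V, hV, fun _ => 0, g, fun _ => V.zero_mem, hg, hg0, ?_⟩
  have : Q (fun _ => 0) = 0 := map_zero Q
  rw [this, zero_mul]

theorem ulFrame_neg {y : Ω} (hy : UlFrameB k Q y) : UlFrameB k Q (-y) := by
  obtain ⟨V, hV, f, g, hf, hg, hg0, h⟩ := hy
  refine ⟨V, hV, -f, g, fun m => V.neg_mem (hf m), hg, hg0, ?_⟩
  rw [map_neg, ← h, neg_mul]

theorem ulFrame_inv {y : Ω} (hy : UlFrameB k Q y) : UlFrameB k Q y⁻¹ := by
  by_cases hy0 : y = 0
  · rw [hy0, inv_zero]
    exact ulFrame_zero Q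
  obtain ⟨V, hV, f, g, hf, hg, hg0, h⟩ := hy
  refine ⟨V, hV, g, f, hg, hf, ?_, ?_⟩
  · rw [← h]
    exact mul_ne_zero hy0 hg0
  · rw [← h, ← mul_assoc, inv_mul_cancel₀ hy0, one_mul]

theorem ulFrame_mul {y z : Ω} (hy : UlFrameB k Q y) (hz : UlFrameB k Q z) :
    UlFrameB k Q (y * z) := by
  obtain ⟨V, hV, f, g, hf, hg, hg0, h⟩ := hy
  obtain ⟨V', hV', f', g', hf', hg', hg0', h'⟩ := hz
  refine ⟨V * V', ulFrame_fdmul V V' hV hV', f * f', g * g', fun m => ?_, fun m => ?_, ?_, ?_⟩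
  · exact Submodule.mul_mem_mul (hf m) (hf' m)
  · exact Submodule.mul_mem_mul (hg m) (hg' m)
  · rw [map_mul]
    exact mul_ne_zero hg0 hg0'
  · rw [map_mul, map_mul, ← h, ← h']
    ring

theorem ulFrame_add {y z : Ω} (hy : UlFrameB k Q y) (hz : UlFrameB k Q z) :
    UlFrameB k Q (y + z) := by
  obtain ⟨V, hV, f, g, hf, hg, hg0, h⟩ := hy
  obtain ⟨V', hV', f', g', hf', hg', hg0', h'⟩ := hz
  refine ⟨V * V', ulFrame_fdmul V V' hV hV', f * g' + g * f', g * g', fun m => ?_, fun m => ?_,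
    ?_, ?_⟩
  · exact (V * V').add_mem (Submodule.mul_mem_mul (hf m) (hg' m))
      (Submodule.mul_mem_mul (hg m) (hf' m))
  · exact Submodule.mul_mem_mul (hg m) (hg' m)
  · rw [map_mul]
    exact mul_ne_zero hg0 hg0'
  · rw [map_add, map_mul, map_mul, map_mul, ← h, ← h']
    ring

theorem ulFrame_const (b : L) : UlFrameB k Q (Q fun _ => b) := by
  refine ⟨Submodule.span k {b, 1}, FiniteDimensional.span_of_finite k (Set.toFinite _),
    fun _ => b, fun _ => 1, fun _ => ?_, fun _ => ?_, ?_, ?_⟩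
  · exact Submodule.subset_span (Or.inl rfl)
  · exact Submodule.subset_span (Or.inr rfl)
  · have : Q (fun _ => 1) = 1 := map_one Q
    rw [this]
    exact one_ne_zero
  · have : Q (fun _ => 1) = 1 := map_one Q
    rw [this, mul_one]

/-- a common denominator -/
theorem ulFrame_denom (hker : ∀ f, Q f = 0 ↔ ∀ᶠ m in (Filter.hyperfilter ℕ : Filter ℕ), f m = 0)
    (s : Finset Ω) (hs : ∀ b ∈ s, UlFrameB k Q b) :
    ∃ V : Submodule k L, FiniteDimensional k V ∧ ∃ v : ℕ → L, (∀ m, v m ∈ V) ∧ (∀ m, v m ≠ 0) ∧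
      ∀ b ∈ s, ∃ f : ℕ → L, (∀ m, f m ∈ V) ∧ b * Q v = Q f := by
  classical
  induction s using Finset.induction_on with
  | empty =>
    refine ⟨1, ulFrame_fdone, fun _ => 1, fun _ => ?_,
      fun _ => one_ne_zero, fun b hb => ?_⟩
    · exact Submodule.one_le.1 le_rfl
    · exact absurd hb (Finset.notMem_empty b)
  | insert b₀ s hb₀ ih =>
    obtain ⟨V, hV, v, hv, hv0, h⟩ := ih fun b hb => hs b (Finset.mem_insert_of_mem hb)
    obtain ⟨V', hV', f', g', hf', hg', hg0', h'⟩ := hs b₀ (Finset.mem_insert_self b₀ s)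
    set g₁ : ℕ → L := fun m => if g' m = 0 then 1 else g' m with hg₁
    have hne : ∀ᶠ m in (Filter.hyperfilter ℕ : Filter ℕ), g' m ≠ 0 :=
      Ultrafilter.eventually_not.2 fun h0 => hg0' ((hker g').2 h0)
    have hQg : Q g₁ = Q g' := by
      rw [ul_eq Q hker]
      filter_upwards [hne] with m hm
      rw [hg₁]
      exact if_neg hm
    have h1 : FiniteDimensional k ((1 : Submodule k L)) :=
      ulFrame_fdone
    have h1m : (1 : L) ∈ (1 : Submodule k L) := Submodule.one_le.1 le_rfl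
    have hW : FiniteDimensional k ((V' ⊔ 1 : Submodule k L)) := inferInstance
    have hg₁m : ∀ m, g₁ m ∈ V' ⊔ 1 := by
      intro m
      show (if g' m = 0 then 1 else g' m) ∈ V' ⊔ 1
      split_ifs
      · exact Submodule.mem_sup_right h1m
      · exact Submodule.mem_sup_left (hg' m)
    refine ⟨V * (V' ⊔ 1), ulFrame_fdmul _ _ hV hW, v * g₁, fun m => ?_, fun m => ?_,
      fun b hb => ?_⟩
    · exact Submodule.mul_mem_mul (hv m) (hg₁m m)
    · refine mul_ne_zero (hv0 m) ?_
      show (if g' m = 0 then 1 else g' m) ≠ 0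
      split_ifs with h0
      · exact one_ne_zero
      · exact h0
    · rcases Finset.mem_insert.1 hb with rfl | hb
      · refine ⟨v * f', fun m => Submodule.mul_mem_mul (hv m) (Submodule.mem_sup_left (hf' m)), ?_⟩
        rw [map_mul, map_mul, hQg, ← h']
        ring
      · obtain ⟨f, hf, hfb⟩ := h b hb
        refine ⟨f * g₁, fun m => Submodule.mul_mem_mul (hf m) (hg₁m m), ?_⟩
        rw [map_mul, map_mul, ← hfb]
        ring

end

private theorem ulFrame_inv_der {L : Type*} [Field L] (D : Derivation ℤ L L) (f : L) :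
    D f⁻¹ = -(f⁻¹ ^ 2) * D f := by
  have h := Derivation.leibniz_inv D f
  rw [h, smul_eq_mul]

/-- one direction -/
theorem ulFrame_dir {k L Ω : Type*} [Field k] [Field L] [CharZero L] [Algebra k L] [Field Ω]
    (Q : (ℕ → L) →+* Ω) (hQ : Function.Surjective Q)
    (hker : ∀ f, Q f = 0 ↔ ∀ᶠ m in (Filter.hyperfilter ℕ : Filter ℕ), f m = 0)
    {P : Type*} [Finite P] (D : P → Derivation ℤ L L)
    (E₀ : Subfield L) (hk : ∀ c : k, algebraMap k L c ∈ E₀) (t : L) (ht : Transcendental E₀ t)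
    (hfin : FiniteDimensional (Subfield.closure ((E₀ : Set L) ∪ {t})) L)
    (hE₀ : ∀ p, ∀ f ∈ E₀, D p f ∈ E₀)
    (hDt : ∀ p, D p t ∈ Subring.closure ((E₀ : Set L) ∪ {t}))
    (V : Submodule k L) (hV : FiniteDimensional k V) (v : ℕ → L) (hv : ∀ m, v m ∈ V)
    (s : Finset Ω) (F : Ω → ℕ → L) (hF : ∀ b ∈ s, ∀ m, F b m ∈ V)
    (hFb : ∀ b ∈ s, b * Q v = Q (F b)) (Y : ℕ → L) (M : ℕ)
    (h : ∀ (O : ValuationSubring Ω) (Δ : Ω), Bdd (fun p => ulDer Q hQ hker (D p)) Δ O →
      (∀ b ∈ s, Δ * b ∈ O) → Δ ^ M * Q Y ∈ O) :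
    ∃ Δ : L, Δ ≠ 0 ∧ ∀ᶠ m in (Filter.hyperfilter ℕ : Filter ℕ),
      Δ ^ (2 * M) * (v m ^ M * Y m) ∈ intCl E₀ t := by
  classical
  obtain ⟨T, hT⟩ : V.FG := Module.Finite.iff_fg.1 hV
  obtain ⟨Δ, hΔc, hΔ0, hΔD, hΔS⟩ := exists_bound E₀ t ht hfin D hE₀ hDt (T : Set L)
    T.finite_toSet
  obtain ⟨hDed, hFrac⟩ := intCl_dedekind E₀ t ht hfin
  have hcl : Subring.closure ((E₀ : Set L) ∪ {t}) ≤ intCl E₀ t := by
    intro f hf
    exact isIntegral_algebraMap (R := Subring.closure ((E₀ : Set L) ∪ {t})) (x := ⟨f, hf⟩)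
  have hkR : ∀ c : k, algebraMap k L c ∈ intCl E₀ t := fun c =>
    hcl (Subring.subset_closure (Or.inl (hk c)))
  have hΔR : Δ ∈ intCl E₀ t := hcl hΔc
  have hVR : ∀ w ∈ V, Δ * w ∈ intCl E₀ t := by
    intro w hw
    rw [← hT] at hw
    induction hw using Submodule.span_induction with
    | mem w hw => exact hΔS w hw
    | zero => rw [mul_zero]; exact zero_mem _
    | add u w _ _ hu hw => rw [mul_add]; exact add_mem hu hw
    | smul c w _ hw =>
      rw [Algebra.smul_def, mul_left_comm]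
      exact mul_mem (hkR c) hw
  refine ⟨Δ, hΔ0, ?_⟩
  by_contra hcon
  have hcon' : ∀ᶠ m in (Filter.hyperfilter ℕ : Filter ℕ),
      Δ ^ (2 * M) * (v m ^ M * Y m) ∉ intCl E₀ t := Ultrafilter.eventually_not.2 hcon
  have hex : ∀ m, ∃ O : ValuationSubring L, intCl E₀ t ≤ O.toSubring ∧
      (Δ ^ (2 * M) * (v m ^ M * Y m) ∉ intCl E₀ t → Δ ^ (2 * M) * (v m ^ M * Y m) ∉ O) := by
    intro m
    by_cases hm : Δ ^ (2 * M) * (v m ^ M * Y m) ∈ intCl E₀ t
    · exact ⟨⊤, fun _ _ => ValuationSubring.mem_top _, fun h0 => absurd hm h0⟩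
    · by_contra h1
      push Not at h1
      refine hm (mem_of (intCl E₀ t) _ fun O hO => ?_)
      exact (h1 O hO).2
  choose Om hOm hOm' using hex
  obtain ⟨O, hO⟩ := ul_val Q hQ hker Om
  have hbdd : ∀ m, Bdd D Δ (Om m) := fun m =>
    bdd_of (intCl E₀ t) D Δ hΔR hΔD (Om m) (hOm m)
  have h1 := h O (Q fun m => Δ ^ 2 * v m) ⟨?_, ?_⟩ ?_
  · rw [← map_pow, ← map_mul, hO] at h1
    obtain ⟨m, hm, hm'⟩ := (hcon'.and h1).exists
    refine hOm' m hm ?_
    have h2 : (((fun m => Δ ^ 2 * v m) ^ M * Y : ℕ → L)) m = Δ ^ (2 * M) * (v m ^ M * Y m) := by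
      show (Δ ^ 2 * v m) ^ M * Y m = _
      rw [mul_pow, ← pow_mul, mul_assoc]
    rw [← h2]
    exact hm'
  · rw [hO]
    refine Filter.Eventually.of_forall fun m => hOm m ?_
    have h2 : Δ ^ 2 * v m = Δ * (Δ * v m) := by ring
    show Δ ^ 2 * v m ∈ intCl E₀ t
    rw [h2]
    exact mul_mem hΔR (hVR _ (hv m))
  · intro p z hz
    obtain ⟨g, rfl⟩ := hQ z
    rw [hO] at hz
    show _ * ulDer Q hQ hker (D p) (Q g) ∈ O
    rw [ulDer_apply, ← map_mul, hO]
    filter_upwards [hz] with m hm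
    have h2 : ((fun m => Δ ^ 2 * v m) * (fun m => D p (g m)) : ℕ → L) m =
        (Δ * v m) * (Δ * D p (g m)) := by
      show (Δ ^ 2 * v m) * D p (g m) = _
      ring
    rw [h2]
    exact (Om m).mul_mem _ _ (hOm m (hVR _ (hv m))) ((hbdd m).2 p _ hm)
  · intro b hb
    have h2 : (Q fun m => Δ ^ 2 * v m) * b = Q fun m => Δ ^ 2 * F b m := by
      have h3 : (fun m => Δ ^ 2 * v m) = (fun _ => Δ ^ 2) * v := rfl
      have h4 : (fun m => Δ ^ 2 * F b m) = (fun _ => Δ ^ 2) * F b := rfl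
      rw [h3, h4, map_mul, map_mul, ← hFb b hb]
      ring
    rw [h2, hO]
    refine Filter.Eventually.of_forall fun m => hOm m ?_
    have h5 : Δ ^ 2 * F b m = Δ * (Δ * F b m) := by ring
    show Δ ^ 2 * F b m ∈ intCl E₀ t
    rw [h5]
    exact mul_mem hΔR (hVR _ (hF b hb m))

theorem ul_frame {k L Ω : Type*} [Field k] [Field L] [CharZero L] [Algebra k L] [Field Ω]
    (Q : (ℕ → L) →+* Ω) (hQ : Function.Surjective Q)
    (hker : ∀ f, Q f = 0 ↔ ∀ᶠ m in (Filter.hyperfilter ℕ : Filter ℕ), f m = 0)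
    {σ : Type*} [Fintype σ] [DecidableEq σ] {q : ℕ} (a : Sym σ q → L)
    (hind : AlgebraicIndependent k a)
    (hfin : FiniteDimensional (IntermediateField.adjoin k (Set.range a)) L)
    (D : Sym σ q → Derivation ℤ L L) (hD : ∀ I J, D J (a I) = if I = J then 1 else 0)
    (hDk : ∀ J (c : k), D J (algebraMap k L c) = 0) :
    ∃ B : Subfield Ω, Frame (fun J => ulDer Q hQ hker (D J)) (fun J => Q fun _ => a J) B ∧
      ∀ y ∈ B, ∃ V : Submodule k L, FiniteDimensional k V ∧ ∃ f g : ℕ → L,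
        (∀ m, f m ∈ V) ∧ (∀ m, g m ∈ V) ∧ Q g ≠ 0 ∧ y * Q g = Q f := by
  classical
  let B : Subfield Ω :=
    { carrier := {y | UlFrameB k Q y}
      mul_mem' := fun hy hz => ulFrame_mul Q hy hz
      one_mem' := ulFrame_one Q
      add_mem' := fun hy hz => ulFrame_add Q hy hz
      zero_mem' := ulFrame_zero Q
      neg_mem' := fun hy => ulFrame_neg Q hy
      inv_mem' := fun _ hy => ulFrame_inv Q hy }
  refine ⟨B, ⟨?_, ?_, ?_⟩, fun y hy => hy⟩
  · intro I J
    show ulDer Q hQ hker (D J) (Q fun _ => a I) = _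
    rw [ulDer_apply]
    split_ifs with h
    · have h1 : (fun _ : ℕ => D J (a I)) = 1 := by
        funext m
        rw [hD, if_pos h]
        rfl
      rw [h1, map_one]
    · have h1 : (fun _ : ℕ => D J (a I)) = 0 := by
        funext m
        rw [hD, if_neg h]
        rfl
      rw [h1, map_zero]
  · intro J
    exact ulFrame_const Q (a J)
  · intro s hs y M h
    obtain ⟨V, hV, v, hv, hv0, hF⟩ := ulFrame_denom (k := k) Q hker s hs
    have hF' : ∀ b, ∃ f : ℕ → L, b ∈ s → (∀ m, f m ∈ V) ∧ b * Q v = Q f := by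
      intro b
      by_cases hb : b ∈ s
      · obtain ⟨f, hf⟩ := hF b hb
        exact ⟨f, fun _ => hf⟩
      · exact ⟨0, fun h0 => absurd h0 hb⟩
    choose F hF using hF'
    obtain ⟨Y, rfl⟩ := hQ y
    have htr := others_transcendental (k := k) a hind
    have hof := others_finite (k := k) a hfin
    have hk : ∀ (p : Sym σ q) (c : k), algebraMap k L c ∈ others (k := k) a p := fun p c =>
      IntermediateField.algebraMap_mem _ c
    have hst : ∀ (p J : Sym σ q), ∀ f ∈ others (k := k) a p, D J f ∈ others (k := k) a p := by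
      intro p J f hf
      have hf' : f ∈ IntermediateField.adjoin k (a '' {p}ᶜ) := hf
      show D J f ∈ IntermediateField.adjoin k (a '' {p}ᶜ)
      induction hf' using IntermediateField.adjoin_induction with
      | mem x hx =>
        obtain ⟨r, _, rfl⟩ := hx
        rw [hD]
        split_ifs
        · exact one_mem _
        · exact zero_mem _
      | algebraMap c =>
        rw [hDk J c]
        exact zero_mem _
      | add x y hx hy hx' hy' =>
        rw [map_add]
        exact add_mem (hx' hx) (hy' hy)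
      | inv x hx hx' =>
        rw [ulFrame_inv_der]
        exact mul_mem (neg_mem (pow_mem (inv_mem hx) 2)) (hx' hx)
      | mul x y hx hy hx' hy' =>
        rw [Derivation.leibniz, smul_eq_mul, smul_eq_mul]
        exact add_mem (mul_mem hx (hy' hy)) (mul_mem hy (hx' hx))
    have hvar : ∀ (p J : Sym σ q) (R : Subring L), D J (a p) ∈ R := by
      intro p J R
      rw [hD]
      split_ifs
      · exact one_mem _
      · exact zero_mem _
    have h1 : ∀ p : Sym σ q, ∃ Δ : L, Δ ≠ 0 ∧ ∀ᶠ m in (Filter.hyperfilter ℕ : Filter ℕ),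
        Δ ^ (2 * M) * (v m ^ M * Y m) ∈ intCl (others (k := k) a p) (a p) := fun p =>
      ulFrame_dir Q hQ hker D (others (k := k) a p) (hk p) (a p) (htr p).1 (hof p).1
        (fun J => hst p J) (fun J => hvar p J _) V hV v hv s F (fun b hb => (hF b hb).1)
        (fun b hb => (hF b hb).2) Y M h
    have h2 : ∀ p : Sym σ q, ∃ Δ : L, Δ ≠ 0 ∧ ∀ᶠ m in (Filter.hyperfilter ℕ : Filter ℕ),
        Δ ^ (2 * M) * (v m ^ M * Y m) ∈ intCl (others (k := k) a p) (a p)⁻¹ := fun p =>
      ulFrame_dir Q hQ hker D (others (k := k) a p) (hk p) (a p)⁻¹ (htr p).2 (hof p).2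
        (fun J => hst p J)
        (fun J => by
          have hinv : (a p)⁻¹ ∈ Subring.closure
              ((others (k := k) a p : Set L) ∪ {(a p)⁻¹}) :=
            Subring.subset_closure (Or.inr rfl)
          rw [ulFrame_inv_der]
          exact mul_mem (neg_mem (pow_mem hinv 2)) (hvar p J _))
        V hV v hv s F (fun b hb => (hF b hb).1) (fun b hb => (hF b hb).2) Y M h
    choose Δ hΔ0 hΔ using h1
    choose Δ' hΔ0' hΔ' using h2
    obtain ⟨V₁, hV₁, hfd⟩ := fd a hind hfin (fun p => Δ p ^ (2 * M)) (fun p => Δ' p ^ (2 * M))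
      (fun p => pow_ne_zero _ (hΔ0 p)) (fun p => pow_ne_zero _ (hΔ0' p))
    have h3 : ∀ᶠ m in (Filter.hyperfilter ℕ : Filter ℕ), v m ^ M * Y m ∈ V₁ := by
      have h4 := (Filter.eventually_all.2 hΔ).and (Filter.eventually_all.2 hΔ')
      filter_upwards [h4] with m hm
      exact hfd _ fun p => ⟨hm.1 p, hm.2 p⟩
    have hVM := ulFrame_fdpow V hV M
    refine ⟨V₁ ⊔ V ^ M, inferInstance, fun m => if v m ^ M * Y m ∈ V₁ then v m ^ M * Y m else 0,
      fun m => v m ^ M, fun m => ?_, fun m => ?_, ?_, ?_⟩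
    · show (if v m ^ M * Y m ∈ V₁ then v m ^ M * Y m else 0) ∈ V₁ ⊔ V ^ M
      split_ifs with hm
      · exact Submodule.mem_sup_left hm
      · exact Submodule.zero_mem _
    · exact Submodule.mem_sup_right (Submodule.pow_mem_pow V (hv m) M)
    · intro h0
      rw [hker] at h0
      obtain ⟨m, hm⟩ := h0.exists
      exact pow_ne_zero _ (hv0 m) hm
    · rw [← map_mul, ul_eq Q hker]
      filter_upwards [h3] with m hm
      rw [if_pos hm]
      show Y m * v m ^ M = _
      rw [mul_comm]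

end Pool.Agent.Helper6.QS
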