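import Pool.Agent.Helper6.QS.Rat
import Pool.Agent.Helper49.LV.GenLine

/-!
# QS-LINE: a point of the hypersurface on a rational line is rational

The Plücker coordinates `P_jl` of a line through `x` lie in `B`. Since `x_(i₀) = 1` there is `β`
with `P_(i₀ β) ≠ 0`; `u_l = P_lβ / P_(i₀ β)`, `v_l = P_(i₀ l) / P_(i₀ β)` lie in `B^σ` and
`x = u + x_β v`, `u_(i₀) = 1`, `u_β = 0`, `v_(i₀) = 0`, `v_β = 1`. `gen_line` (one form, no
corrections, `P = 1`) gives `n` with `F(u + n v) ≠ 0`, so `F(u + T v)` is a polynomial over `B`,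
not zero, with zero `x_β` (`lineP`, `lineP_eval`): `x_β` is algebraic over `B` (`rat_alg`).
-/

set_option autoImplicit false

namespace Pool.Agent.Helper6.QS

open scoped BigOperators
open MvPolynomial
open Pool.Agent.Helper8.LG (Bdd form mon)
open Pool.Agent.Helper49.LN (cP mo hf pl)

/-- the hypersurface does not contain the line through `u` and `v` -/
theorem line_gen {Ω : Type*} [Field Ω] [CharZero Ω] {σ : Type*} [Fintype σ] [DecidableEq σ]
    {q : ℕ} {D : Sym σ q → Derivation ℤ Ω Ω} {a : Sym σ q → Ω}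
    (hd : ∀ I J, D J (a I) = if I = J then 1 else 0) (hq : 2 * Fintype.card σ ≤ q + 4)
    (α β : σ) (hαβ : α ≠ β) (u v : σ → Ω) (huα : u α = 1) (huβ : u β = 0) (hvα : v α = 0)
    (hvβ : v β = 1) : ∃ n : ℕ, form a (fun l => u l + n * v l) ≠ 0 := by
  classical
  have key := Pool.Agent.Helper49.LV.gen_line (E := Ω) (σ := σ) (ι := Unit) (τ := Empty)
    (fun _ => q) (fun _ => 0) (fun _ => q) (fun _ => a) (fun _ _ => 0) (fun _ _ => 1) (fun _ => a)
    (fun s => D s.2) (fun t => t.elim) (fun t => t.elim) ?_ ?_ α β hαβ u v huα huβ hvα hvβ u ?_ ?_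
    ?_
  · obtain ⟨_, n, hn⟩ := key
    exact ⟨n, hn⟩
  · rintro ⟨⟨⟩, J⟩ ⟨⟨⟩, I⟩
    change D J (a I) = _
    rw [hd I J]
    simp only [Finset.univ_eq_empty, Finset.sum_empty, sub_zero]
    by_cases h : I = J
    · subst h
      simp
    · rw [if_neg h, if_neg]
      intro h'
      apply h
      simpa using h'.symm
  · refine ⟨⟨fun _ => (zero_add q).symm, ?_⟩, fun _ _ _ => map_zero _, fun _ _ _ =>
      Derivation.map_one_eq_zero _⟩
    rintro ⟨⟩ J
    rw [zero_add, Fintype.sum_unique, Finset.sum_eq_single J]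
    · rw [if_pos, one_mul]
      change (0 : Multiset σ) + _ = _
      rw [zero_add]
    · intro J'' _ hne
      rw [if_neg]
      intro h
      apply hne
      have h1 : (0 : Multiset σ) + (J'' : Multiset σ) = (J : Multiset σ) := h
      rw [zero_add] at h1
      exact Subtype.ext h1
    · intro h
      exact absurd (Finset.mem_univ _) h
  · intro l
    rw [huα, huβ, one_mul, zero_mul, add_zero]
  · rintro ⟨⟩
    unfold form
    rw [Fintype.sum_unique, one_mul]
    change (Multiset.map u 0).prod ≠ 0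
    simp
  · simp only [Finset.univ_unique, Finset.sum_const, Finset.card_singleton, Fintype.card_empty,
      one_smul]
    omega

theorem line_alg {Ω : Type*} [Field Ω] {σ : Type*} [Fintype σ] [DecidableEq σ]
    {q : ℕ} {a : Sym σ q → Ω} {B : Subfield Ω} (ha : ∀ J, a J ∈ B) (u v : σ → Ω)
    (hu : ∀ l, u l ∈ B) (hv : ∀ l, v l ∈ B) (n : ℕ) (hn : form a (fun l => u l + n * v l) ≠ 0)
    (z : Ω) (hz : form a (fun l => u l + z * v l) = 0) : IsAlgebraic B z := by
  classical
  let aB : Sym σ q → B := fun J => ⟨a J, ha J⟩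
  let uB : σ → B := fun l => ⟨u l, hu l⟩
  let vB : σ → B := fun l => ⟨v l, hv l⟩
  have key : ∀ w : Ω, Polynomial.aeval w (Pool.Agent.Helper49.LG.lineP aB uB vB) =
      form a fun l => u l + w * v l := by
    intro w
    have h := Pool.Agent.Helper49.LG.form_map (Polynomial.aeval (R := B) w).toRingHom
      (fun J => Polynomial.C (aB J))
      (fun l => Polynomial.C (uB l) + Polynomial.X * Polynomial.C (vB l))
    simp only [AlgHom.toRingHom_eq_coe, RingHom.coe_coe, map_add, map_mul, Polynomial.aeval_C,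
      Polynomial.aeval_X] at h
    exact h
  refine ⟨Pool.Agent.Helper49.LG.lineP aB uB vB, ?_, ?_⟩
  · intro h0
    apply hn
    rw [← key, h0, map_zero]
  · rw [key, hz]

theorem line_mem {Ω : Type*} [Field Ω] [CharZero Ω] {σ : Type*} [Fintype σ] [DecidableEq σ]
    {q : ℕ} {D : Sym σ q → Derivation ℤ Ω Ω} {a : Sym σ q → Ω} {B : Subfield Ω}
    (hB : Frame D a B) (hq : 2 * Fintype.card σ ≤ q + 4) (x : σ → Ω) (i₀ : σ) (hx : x i₀ = 1)
    (hF : form a x = 0) (y : σ → Ω) (hy : ∃ j l, pl x y j l ≠ 0)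
    (hyB : ∀ j l, pl x y j l ∈ B) : ∀ l, x l ∈ B := by
  obtain ⟨β, hβ⟩ : ∃ β, pl x y i₀ β ≠ 0 := by
    by_contra hcon
    push Not at hcon
    obtain ⟨j, l, hjl⟩ := hy
    apply hjl
    have h1 : ∀ l, y l = x l * y i₀ := fun l => by
      have h2 := hcon l
      unfold pl at h2
      rw [hx, one_mul] at h2
      exact sub_eq_zero.1 h2
    unfold pl
    rw [h1 j, h1 l]
    ring
  have hne : i₀ ≠ β := by
    rintro rfl
    apply hβ
    unfold pl
    ring
  set u : σ → Ω := fun l => pl x y l β / pl x y i₀ β with hu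
  set v : σ → Ω := fun l => pl x y i₀ l / pl x y i₀ β with hv
  have hxuv : ∀ l, x l = u l + x β * v l := by
    intro l
    rw [hu, hv]
    simp only
    field_simp
    unfold pl
    rw [hx]
    ring
  have hu1 : u i₀ = 1 := div_self hβ
  have hu0 : u β = 0 := by
    change pl x y β β / _ = 0
    unfold pl
    simp
  have hv0 : v i₀ = 0 := by
    change pl x y i₀ i₀ / _ = 0
    unfold pl
    simp
  have hv1 : v β = 1 := div_self hβ
  have huB : ∀ l, u l ∈ B := fun l => div_mem (hyB l β) (hyB i₀ β)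
  have hvB : ∀ l, v l ∈ B := fun l => div_mem (hyB i₀ l) (hyB i₀ β)
  obtain ⟨n, hn⟩ := line_gen hB.dual hq i₀ β hne u v hu1 hu0 hv0 hv1
  have hxβ : x β ∈ B := by
    refine rat_alg hB (x β) (line_alg hB.mem u v huB hvB n hn (x β) ?_)
    have h1 : (fun l => u l + x β * v l) = x := funext fun l => (hxuv l).symm
    rw [h1]
    exact hF
  intro l
  rw [hxuv l]
  exact add_mem (huB l) (mul_mem hxβ (hvB l))

/-- the same if the Plücker coordinates are bounded after multiplication by `G` -/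
theorem line_mem_G {Ω : Type*} [Field Ω] [CharZero Ω] {σ : Type*} [Fintype σ] [DecidableEq σ]
    {q : ℕ} {D : Sym σ q → Derivation ℤ Ω Ω} {a : Sym σ q → Ω} {B : Subfield Ω}
    (hB : Frame D a B) (hq : 2 * Fintype.card σ ≤ q + 4) (x : σ → Ω) (i₀ : σ) (hx : x i₀ = 1)
    (hF : form a x = 0) (y : σ → Ω) (hy : ∃ j l, pl x y j l ≠ 0) (G : Ω) (hG : G ≠ 0) (M : ℕ)
    (h : ∀ (O : ValuationSubring Ω) (Δ : Ω), Bdd D Δ O →
      ∀ m, x m ≠ 0 → (∀ l, x l / x m ∈ O) → ∀ j l, Δ ^ M * (G * pl x y j l) ∈ O) :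
    ∀ l, x l ∈ B := by
  have hpl : ∀ j l, pl x (fun l => G * y l) j l = G * pl x y j l := by
    intro j l
    unfold pl
    ring
  refine line_mem hB hq x i₀ hx hF (fun l => G * y l) ?_ fun j l => ?_
  · obtain ⟨j, l, hjl⟩ := hy
    exact ⟨j, l, by rw [hpl]; exact mul_ne_zero hG hjl⟩
  · rw [hpl]
    exact rat_max hB x i₀ hx ∅ (fun b hb => absurd hb (Finset.notMem_empty b)) _ M
      fun O Δ hO _ m hm hl => h O Δ hO m hm hl j l

/-- the same for two rational planes in `P^3` -/
theorem line_mem_two {Ω : Type*} [Field Ω] [CharZero Ω] {q : ℕ}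
    {D : Sym (Fin 4) q → Derivation ℤ Ω Ω} {a : Sym (Fin 4) q → Ω} {B : Subfield Ω}
    (hB : Frame D a B) (hq : 4 ≤ q) (x : Fin 4 → Ω) (hx : x 0 = 1) (hF : form a x = 0)
    (h h' : Fin 4 → Ω) (hh : ∀ l, h l ∈ B) (hh' : ∀ l, h' l ∈ B)
    (hlin : LinearIndependent Ω ![h, h']) (h1 : dt h x = 0) (h2 : dt h' x = 0) :
    ∀ l, x l ∈ B := by
  unfold dt at h1 h2
  rw [Fin.sum_univ_four, hx, mul_one] at h1 h2
  have e1 : h 0 = -(h 1 * x 1 + h 2 * x 2 + h 3 * x 3) := by linear_combination h1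
  have e2 : h' 0 = -(h' 1 * x 1 + h' 2 * x 2 + h' 3 * x 3) := by linear_combination h2
  let mn : Fin 4 → Fin 4 → Ω := fun j l => h j * h' l - h l * h' j
  have hmn : ∀ j l, mn j l ∈ B := fun j l =>
    sub_mem (mul_mem (hh j) (hh' l)) (mul_mem (hh l) (hh' j))
  let P : Fin 4 → Fin 4 → Ω := ![![0, mn 2 3, -mn 1 3, mn 1 2], ![-mn 2 3, 0, mn 0 3, -mn 0 2],
    ![mn 1 3, -mn 0 3, 0, mn 0 1], ![-mn 1 2, mn 0 2, -mn 0 1, 0]]
  let y : Fin 4 → Ω := ![0, mn 2 3, -mn 1 3, mn 1 2]
  have hP : ∀ j l, pl x y j l = P j l := by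
    intro j l
    fin_cases j <;> fin_cases l <;> simp [pl, P, y, mn, hx, e1, e2] <;> ring
  have hPB : ∀ j l, P j l ∈ B := by
    intro j l
    fin_cases j <;> fin_cases l <;> simp [P, hmn]
  refine line_mem hB (by rw [Fintype.card_fin]; omega) x 0 hx hF y ?_ fun j l => by
    rw [hP]
    exact hPB j l
  by_contra hcon
  push Not at hcon
  have hz : ∀ j l, mn j l = 0 := by
    have z01 : mn 0 1 = 0 := by have := hcon 2 3; rw [hP] at this; exact this
    have z02 : mn 0 2 = 0 := by have := hcon 3 1; rw [hP] at this; exact this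
    have z03 : mn 0 3 = 0 := by have := hcon 1 2; rw [hP] at this; exact this
    have z12 : mn 1 2 = 0 := by have := hcon 0 3; rw [hP] at this; exact this
    have z13 : mn 1 3 = 0 := by have := hcon 2 0; rw [hP] at this; exact this
    have z23 : mn 2 3 = 0 := by have := hcon 0 1; rw [hP] at this; exact this
    have hs : ∀ j l, mn l j = -mn j l := fun j l => by simp only [mn]; ring
    have hd : ∀ j, mn j j = 0 := fun j => by simp only [mn]; ring
    intro j l
    fin_cases j <;> fin_cases l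
    · exact hd 0
    · exact z01
    · exact z02
    · exact z03
    · exact (hs 0 1).trans (by rw [z01, neg_zero])
    · exact hd 1
    · exact z12
    · exact z13
    · exact (hs 0 2).trans (by rw [z02, neg_zero])
    · exact (hs 1 2).trans (by rw [z12, neg_zero])
    · exact hd 2
    · exact z23
    · exact (hs 0 3).trans (by rw [z03, neg_zero])
    · exact (hs 1 3).trans (by rw [z13, neg_zero])
    · exact (hs 2 3).trans (by rw [z23, neg_zero])
    · exact hd 3
  rw [LinearIndependent.pair_iff] at hlin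
  by_cases h0 : h = 0
  · have := hlin 1 0 (by rw [h0, smul_zero, zero_smul, add_zero])
    exact one_ne_zero this.1
  · obtain ⟨l, hl⟩ : ∃ l, h l ≠ 0 := by
      by_contra hc
      push Not at hc
      exact h0 (funext hc)
    have h3 := hlin (h' l) (-h l) (by
      funext j
      have h4 := hz j l
      simp only [mn] at h4
      simp only [Pi.add_apply, Pi.smul_apply, smul_eq_mul, Pi.zero_apply]
      linear_combination h4)
    exact hl (neg_eq_zero.1 h3.2)

end Pool.Agent.Helper6.QS
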