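import Pool.Agent.Helper6.QS.EngQ
import Pool.Agent.Helper74.LN.EngN

/-!
# QS-FINKEY: finiteness in terms of polynomials

`i₀ = 0`: `reduce` (`Helper8/LG/Reduce.lean`, `ι` = one element, `c = 0`, so `T` = everything) gives
`k` and `D`; `fin_zero`; `form (cf q F) x = eval x F` (`form_cf`, `adjoin_poly`, `card_Ix` as in
`Helper74/LN/EngN.lean`). General `i₀`: permute the variables (`rename (Equiv.swap 0 i₀)`).
-/

set_option autoImplicit false

namespace Pool.Agent.Helper6.QS

open scoped BigOperators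
open MvPolynomial
open Pool.Agent.Helper8.LG
open Pool.Agent.Helper49.LN (cP mo hf pl)

universe u v

/-- the case `i₀ = 0` -/
theorem finKey_zero {N q : ℕ} (hK : KeyQ.{u} N q) {k₀ : Type v} {L : Type u} [Field k₀]
    [Field L] [CharZero L] [Algebra k₀ L] (hfg : (⊤ : IntermediateField k₀ L).FG)
    (F : MvPolynomial (Fin (N + 1)) L) (hF : F.IsHomogeneous q)
    (hcoef : ((N + q).choose N : Cardinal) ≤
      Algebra.trdeg k₀ (IntermediateField.adjoin k₀ {z | ∃ J, z = coeff J F})) :
    {x : Fin (N + 1) → L | x 0 = 1 ∧ eval x F = 0}.Finite := by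
  classical
  have e1 : ({z | ∃ J, z = coeff J F} : Set L) = {z | ∃ (_ : Fin 1) (J : Fin (N + 1) →₀ ℕ),
      z = coeff J F} := by
    ext z
    constructor
    · intro h
      exact ⟨0, h⟩
    · rintro ⟨-, h⟩
      exact h
  have hc : (Fintype.card (Ix (Fin (N + 1)) fun _ : Fin 1 => q) : Cardinal) ≤ Algebra.trdeg k₀
      (IntermediateField.adjoin k₀ (Set.range fun p : Ix (Fin (N + 1)) fun _ : Fin 1 => q =>
        cf q F p.2)) + (0 : ℕ) := by
    have h1 := Pool.Agent.Helper8.LV.adjoin_poly k₀ (fun _ : Fin 1 => q) (fun _ => F)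
      (fun _ => hF)
    rw [card_Ix, ← h1, Fin.sum_univ_one, ← e1, Nat.cast_zero, add_zero]
    exact hcoef
  obtain ⟨T, k, hT, hind, hfin, D, θ, hD, hDk⟩ := reduce hfg (fun _ : Fin 1 => q)
    (fun _ => cf q F) 0 hc
  have hall : ∀ p : Ix (Fin (N + 1)) fun _ : Fin 1 => q, p ∈ T := by
    intro p
    by_contra hp
    have h1 : Fintype.card {p : Ix (Fin (N + 1)) (fun _ : Fin 1 => q) // p ∉ T} = 0 := by omega
    rw [Fintype.card_eq_zero_iff] at h1
    exact h1.false ⟨p, hp⟩
  have hempty : IsEmpty {p : Ix (Fin (N + 1)) (fun _ : Fin 1 => q) // p ∉ T} :=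
    ⟨fun p => p.2 (hall p.1)⟩
  have hinj : Function.Injective
      (fun J : Sym (Fin (N + 1)) q => (⟨⟨0, J⟩, hall _⟩ : T)) := by
    intro J J' h
    have h1 := congrArg (fun p : T => p.1) h
    simp only [Sigma.mk.injEq, heq_eq_eq, true_and] at h1
    exact h1
  have hind1 := hind.comp (fun J : Sym (Fin (N + 1)) q => (⟨⟨0, J⟩, hall _⟩ : T)) hinj
  have hfun : ((fun p : T => cf q F p.1.2) ∘ fun J : Sym (Fin (N + 1)) q =>
      (⟨⟨0, J⟩, hall _⟩ : T)) = cf q F := rfl
  have hind' : AlgebraicIndependent k (cf q F) := by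
    rw [← hfun]
    exact hind1
  have hrange : (Set.range fun p : T => cf q F p.1.2) = Set.range (cf q F) := by
    ext z
    constructor
    · rintro ⟨p, rfl⟩
      exact ⟨p.1.2, rfl⟩
    · rintro ⟨J, rfl⟩
      exact ⟨⟨⟨0, J⟩, hall _⟩, rfl⟩
  rw [hrange] at hfin
  have hD' : ∀ I J : Sym (Fin (N + 1)) q, D ⟨0, J⟩ (cf q F I) = if I = J then 1 else 0 := by
    intro I J
    have h1 := hD ⟨0, J⟩ ⟨0, I⟩
    rw [Fintype.sum_empty, sub_zero] at h1
    rw [h1]
    refine if_congr ?_ rfl rfl
    constructor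
    · intro h
      simp only [Sigma.mk.injEq, heq_eq_eq, true_and] at h
      exact h.symm
    · intro h
      rw [h]
  have h := fin_zero hK (cf q F) hind' hfin (fun J => D ⟨0, J⟩) hD' (fun J c => hDk _ c)
  refine h.subset ?_
  rintro x ⟨h1, h2⟩
  exact ⟨h1, by rw [form_cf F hF, h2]⟩

/-- the coefficients of a polynomial after a permutation of the variables -/
theorem finKey_coeff {N : ℕ} {L : Type u} [Field L] (e : Fin (N + 1) → Fin (N + 1))
    (he : Function.Injective e) (F : MvPolynomial (Fin (N + 1)) L) :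
    ({z | ∃ J, z = coeff J F} : Set L) ⊆ {z | ∃ J, z = coeff J (rename e F)} := by
  rintro z ⟨J, rfl⟩
  exact ⟨J.mapDomain e, (coeff_rename_mapDomain e he F J).symm⟩

theorem fin_key {N q : ℕ} (hq : 0 < q) (hK : KeyQ.{u} N q) {k₀ : Type v} {L : Type u} [Field k₀]
    [Field L] [CharZero L] [Algebra k₀ L] (hfg : (⊤ : IntermediateField k₀ L).FG)
    (F : MvPolynomial (Fin (N + 1)) L) (hF : F.IsHomogeneous q)
    (hcoef : ((N + q).choose N : Cardinal) ≤
      Algebra.trdeg k₀ (IntermediateField.adjoin k₀ {z | ∃ J, z = coeff J F}))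
    (i₀ : Fin (N + 1)) : {x : Fin (N + 1) → L | x i₀ = 1 ∧ eval x F = 0}.Finite := by
  classical
  set e : Fin (N + 1) → Fin (N + 1) := fun i => Equiv.swap 0 i₀ i with he
  have hinj : Function.Injective e := (Equiv.swap 0 i₀).injective
  have hee : e ∘ e = id := by
    funext i
    exact Equiv.swap_apply_self 0 i₀ i
  have hset : ({z | ∃ J, z = coeff J F} : Set L) = {z | ∃ J, z = coeff J (rename e F)} := by
    refine Set.Subset.antisymm (finKey_coeff e hinj F) ?_
    have h1 := finKey_coeff e hinj (rename e F)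
    rw [rename_rename, hee, rename_id_apply] at h1
    exact h1
  rw [hset] at hcoef
  have hfin := finKey_zero hK hfg (rename e F) (hF.rename_isHomogeneous) hcoef
  refine Set.Finite.of_finite_image (f := fun x => x ∘ e) (hfin.subset ?_) ?_
  · rintro _ ⟨x, ⟨h1, h2⟩, rfl⟩
    refine ⟨?_, ?_⟩
    · change x (e 0) = 1
      have h3 : e 0 = i₀ := Equiv.swap_apply_left 0 i₀
      rw [h3]
      exact h1
    · rw [eval_rename, Function.comp_assoc, hee, Function.comp_id]
      exact h2
  · intro x _ y _ hxy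
    have h1 := congrArg (fun z : Fin (N + 1) → L => z ∘ e) hxy
    simp only [Function.comp_assoc, hee, Function.comp_id] at h1
    exact h1

end Pool.Agent.Helper6.QS
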