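import Pool.Agent.Helper6.QS.DefsQ

/-!
# QS-RAT: basic properties of frames

`rat_alg`: `B` is relatively algebraically closed (`b_n y` is integral over the ring generated by
the coefficients `b_i / b_n`). `rat_der`: `B` is stable under the derivations
(`D b = D (Δ b) / Δ - b D Δ / Δ`). `rat_max`, `rat_pt`: use `exists_max_coord` of `Helper74.LG`.
-/

set_option autoImplicit false

namespace Pool.Agent.Helper6.QS

open scoped BigOperators
open MvPolynomial
open Pool.Agent.Helper8.LG (Bdd form mon)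
open Pool.Agent.Helper49.LN (cP mo hf pl)

variable {Ω : Type*} [Field Ω] {σ : Type*} [Fintype σ] [DecidableEq σ] {q : ℕ}
  {D : Sym σ q → Derivation ℤ Ω Ω} {a : Sym σ q → Ω} {B : Subfield Ω}

/-- If `y` is a zero of the monic polynomial `P` and `Δ` times the coefficients of `P` lie in `O`,
then `Δ y` lies in `O`. -/
theorem Rat_int {O : ValuationSubring Ω} {Δ y : Ω} (hΔ : Δ ∈ O) {P : Polynomial Ω}
    (hP : P.Monic) (hy : P.eval y = 0) (hc : ∀ i, i < P.natDegree → Δ * P.coeff i ∈ O) :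
    Δ * y ∈ O := by
  have hco : ∀ i, (P.scaleRoots Δ).coeff i ∈ O.toSubring := by
    intro i
    rw [Polynomial.coeff_scaleRoots]
    rcases lt_trichotomy i P.natDegree with h | h | h
    · obtain ⟨n, hn⟩ : ∃ n, P.natDegree - i = n + 1 := ⟨P.natDegree - i - 1, by omega⟩
      have h1 : P.coeff i * Δ ^ (P.natDegree - i) = Δ * P.coeff i * Δ ^ n := by
        rw [hn, pow_succ]
        ring
      rw [h1]
      exact O.mul_mem _ _ (hc i h) (O.toSubring.pow_mem hΔ n)
    · rw [h, Nat.sub_self, pow_zero, mul_one, hP.coeff_natDegree]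
      exact O.one_mem
    · rw [Polynomial.coeff_eq_zero_of_natDegree_lt h, zero_mul]
      exact O.zero_mem
  have hmon : (P.scaleRoots Δ).Monic := (Polynomial.monic_scaleRoots_iff Δ).2 hP
  have hsub : (↑(P.scaleRoots Δ).coeffs : Set Ω) ⊆ O.toSubring := by
    intro c hc
    obtain ⟨i, -, rfl⟩ := Polynomial.mem_coeffs_iff.1 (Finset.mem_coe.1 hc)
    exact hco i
  have hint : IsIntegral O (Δ * y) := by
    refine ⟨(P.scaleRoots Δ).toSubring O.toSubring hsub,
      (Polynomial.monic_toSubring _ _ _).2 hmon, ?_⟩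
    have h1 : ((P.scaleRoots Δ).toSubring O.toSubring hsub).map (algebraMap O Ω) =
        P.scaleRoots Δ := by
      ext i
      rw [Polynomial.coeff_map]
      exact Polynomial.coeff_toSubring _ _ _
    rw [← Polynomial.eval_map, h1]
    have h2 := Polynomial.scaleRoots_eval₂_eq_zero (p := P) (RingHom.id Ω) (r := y) (s := Δ)
      (by rw [Polynomial.eval₂_id]; exact hy)
    rw [Polynomial.eval₂_id] at h2
    exact h2
  obtain ⟨z, hz⟩ := IsIntegrallyClosed.algebraMap_eq_of_integral hint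
  rw [← hz]
  exact z.2

theorem rat_alg (hB : Frame D a B) (y : Ω) (hy : IsAlgebraic B y) : y ∈ B := by
  classical
  have hy' : IsIntegral B y := hy.isIntegral
  set P : Polynomial B := minpoly B y with hP
  have hmon : P.Monic := minpoly.monic hy'
  set s : Finset Ω := (Finset.range P.natDegree).image fun i => (P.coeff i : Ω) with hs
  refine hB.rat s ?_ y 1 ?_
  · intro b hb
    rw [hs, Finset.mem_image] at hb
    obtain ⟨i, -, rfl⟩ := hb
    exact (P.coeff i).2
  · intro O Δ hΔ hsO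
    rw [pow_one]
    have hdeg : (P.map (algebraMap B Ω)).natDegree = P.natDegree :=
      Polynomial.natDegree_map _
    refine Rat_int hΔ.1 (P := P.map (algebraMap B Ω)) (hmon.map _) ?_ ?_
    · rw [Polynomial.eval_map, ← Polynomial.aeval_def]
      exact minpoly.aeval B y
    · intro i hi
      rw [hdeg] at hi
      rw [Polynomial.coeff_map]
      exact hsO _ (Finset.mem_image.2 ⟨i, Finset.mem_range.2 hi, rfl⟩)

theorem rat_der (hB : Frame D a B) (J : Sym σ q) (b : Ω) (hb : b ∈ B) : D J b ∈ B := by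
  classical
  refine hB.rat {b} (by simpa using hb) _ 3 ?_
  intro O Δ hΔ hsO
  have hb1 : Δ * b ∈ O := hsO b (Finset.mem_singleton_self b)
  have h1 : Δ * D J (Δ * b) ∈ O := hΔ.2 J _ hb1
  have h2 : Δ * D J Δ ∈ O := hΔ.2 J _ hΔ.1
  have h3 : Δ ^ 3 * D J b = Δ * (Δ * D J (Δ * b)) - (Δ * b) * (Δ * D J Δ) := by
    rw [Derivation.leibniz]
    simp only [smul_eq_mul]
    ring
  rw [h3]
  exact O.toSubring.sub_mem (O.mul_mem _ _ hΔ.1 h1) (O.mul_mem _ _ hb1 h2)

/-- at each valuation ring one may use a maximal coordinate of the point -/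
theorem rat_max (hB : Frame D a B) (x : σ → Ω) (i₀ : σ) (hx : x i₀ = 1) (s : Finset Ω)
    (hs : ∀ b ∈ s, b ∈ B) (y : Ω) (M : ℕ)
    (h : ∀ (O : ValuationSubring Ω) (Δ : Ω), Bdd D Δ O → (∀ b ∈ s, Δ * b ∈ O) →
      ∀ m, x m ≠ 0 → (∀ l, x l / x m ∈ O) → Δ ^ M * y ∈ O) : y ∈ B := by
  refine hB.rat s hs y M fun O Δ hΔ hsO => ?_
  obtain ⟨m, hm, hmax⟩ := Pool.Agent.Helper74.LG.exists_max_coord O x i₀
    (by rw [hx]; exact one_ne_zero)
  exact h O Δ hΔ hsO m hm hmax

/-- a function of weight `-1` bounds the point -/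
theorem rat_pt (hB : Frame D a B) (x : σ → Ω) (i₀ : σ) (hx : x i₀ = 1) (s : Finset Ω)
    (hs : ∀ b ∈ s, b ∈ B) (G : Ω) (hG : G ≠ 0) (M : ℕ)
    (h : ∀ (O : ValuationSubring Ω) (Δ : Ω), Bdd D Δ O → (∀ b ∈ s, Δ * b ∈ O) →
      ∀ m, x m ≠ 0 → (∀ l, x l / x m ∈ O) → Δ ^ M * (G * x m) ∈ O) : ∀ l, x l ∈ B := by
  have key : ∀ l, G * x l ∈ B := by
    intro l
    refine rat_max hB x i₀ hx s hs (G * x l) M fun O Δ hΔ hsO m hm hmax => ?_
    have h1 : Δ ^ M * (G * x l) = Δ ^ M * (G * x m) * (x l / x m) := by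
      field_simp
    rw [h1]
    exact O.mul_mem _ _ (h O Δ hΔ hsO m hm hmax) (hmax l)
  have hGB : G ∈ B := by
    have h1 := key i₀
    rwa [hx, mul_one] at h1
  intro l
  have h1 : x l = G⁻¹ * (G * x l) := by
    rw [← mul_assoc, inv_mul_cancel₀ hG, one_mul]
  rw [h1]
  exact B.mul_mem (B.inv_mem hGB) (key l)

end Pool.Agent.Helper6.QS
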