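import Pool.Agent.Helper6.QS.Bas

/-!
# QS-CONICCOUNT: a generic quintic surface contains no plane conic

`F = ∑ a_J X^J`, `D_J a_I = δ_IJ`. Suppose `F = h A + Q C`, `deg A = 4`, `deg C = 3`, `deg Q = 2`,
`h ≠ 0` linear. Apply `D_J` to the coefficients (a derivation of the polynomial ring):
`X^J = D_J F = (D_J h) A + h (D_J A) + (D_J Q) C + Q (D_J C)`. Restrict to the plane `h = 0`
(substitute a parametrisation `Ω^3 → h^⊥`; the substitution maps the forms of degree 5 in 4
variables onto those in 3 variables): all forms of degree 5 in 3 variables (dimension 21) are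
combinations `M A' + N C' + Q' E`, `M` linear (dimension 3), `N` quadratic (6), `E` cubic (10):
`3 + 6 + 10 = 19 < 21`, a contradiction.
-/

set_option autoImplicit false

namespace Pool.Agent.Helper6.QS

open scoped BigOperators
open MvPolynomial

section CC

variable {Ω : Type*} [Field Ω] {σ : Type*}

/-- a derivation applied to the coefficients -/
noncomputable def cc_der (δ : Derivation ℤ Ω Ω) (p : MvPolynomial σ Ω) : MvPolynomial σ Ω :=
  ∑ m ∈ p.support, monomial m (δ (coeff m p))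

theorem cc_coeff (δ : Derivation ℤ Ω Ω) (p : MvPolynomial σ Ω) (m : σ →₀ ℕ) :
    coeff m (cc_der δ p) = δ (coeff m p) := by
  classical
  unfold cc_der
  rw [coeff_sum]
  simp only [coeff_monomial]
  rw [Finset.sum_ite_eq']
  split_ifs with h
  · rfl
  · rw [notMem_support_iff.1 h, map_zero]

theorem cc_mul (δ : Derivation ℤ Ω Ω) (p q : MvPolynomial σ Ω) :
    cc_der δ (p * q) = cc_der δ p * q + p * cc_der δ q := by
  classical
  ext m
  rw [cc_coeff, coeff_mul, coeff_add, coeff_mul, coeff_mul, map_sum, ← Finset.sum_add_distrib]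
  refine Finset.sum_congr rfl fun x _ => ?_
  rw [Derivation.leibniz, cc_coeff, cc_coeff, smul_eq_mul, smul_eq_mul]
  ring

theorem cc_add (δ : Derivation ℤ Ω Ω) (p q : MvPolynomial σ Ω) :
    cc_der δ (p + q) = cc_der δ p + cc_der δ q := by
  ext m
  rw [cc_coeff, coeff_add, coeff_add, map_add, cc_coeff, cc_coeff]

theorem cc_hom (δ : Derivation ℤ Ω Ω) {p : MvPolynomial σ Ω} {n : ℕ} (hp : p.IsHomogeneous n) :
    (cc_der δ p).IsHomogeneous n := by
  intro m hm
  apply hp
  intro h
  apply hm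
  rw [cc_coeff, h, map_zero]

variable [Fintype σ] [DecidableEq σ]

theorem cc_coeff_mo {q : ℕ} (I : Sym σ q) (m : σ →₀ ℕ) :
    coeff m (Pool.Agent.Helper49.LN.mo Ω (I : Multiset σ)) =
      if Multiset.toFinsupp (I : Multiset σ) = m then 1 else 0 := by
  rw [Pool.Agent.Helper49.LN.mo_eq, coeff_monomial]

theorem cc_form {q : ℕ} (D : Sym σ q → Derivation ℤ Ω Ω) (a : Sym σ q → Ω)
    (hD : ∀ I J, D J (a I) = if I = J then 1 else 0) (J : Sym σ q) :
    cc_der (D J) (∑ I : Sym σ q, a I • Pool.Agent.Helper49.LN.mo Ω (I : Multiset σ)) =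
      Pool.Agent.Helper49.LN.mo Ω (J : Multiset σ) := by
  ext m
  rw [cc_coeff, coeff_sum, map_sum, Finset.sum_eq_single J]
  · rw [coeff_smul, cc_coeff_mo, smul_eq_mul]
    split_ifs
    · rw [mul_one, hD, if_pos rfl]
    · rw [mul_zero, map_zero]
  · intro I _ hI
    rw [coeff_smul, cc_coeff_mo, smul_eq_mul]
    split_ifs
    · rw [mul_one, hD, if_neg hI]
    · rw [mul_zero, map_zero]
  · intro h
    exact absurd (Finset.mem_univ J) h

/-- a form is a combination of the monomials of its degree -/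
theorem cc_sum {n : ℕ} {f : MvPolynomial σ Ω} (hf : f.IsHomogeneous n) :
    ∑ J : Sym σ n, coeff (Multiset.toFinsupp (J : Multiset σ)) f •
      Pool.Agent.Helper49.LN.mo Ω (J : Multiset σ) = f := by
  ext m
  rw [coeff_sum]
  simp only [coeff_smul, cc_coeff_mo, smul_eq_mul, mul_ite, mul_one, mul_zero]
  by_cases hm : m.degree = n
  · have hc : Multiset.card (Finsupp.toMultiset m) = n := by
      rw [← Pool.Agent.Helper49.LN.toFinsupp_degree, Finsupp.toMultiset_toFinsupp, hm]
    rw [Finset.sum_eq_single (Sym.mk _ hc)]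
    · rw [Sym.coe_mk, Finsupp.toMultiset_toFinsupp, if_pos rfl]
    · intro J _ hJ
      rw [if_neg]
      intro h
      apply hJ
      apply Sym.coe_injective
      rw [Sym.coe_mk, ← h, Multiset.toFinsupp_toMultiset]
    · intro h
      exact absurd (Finset.mem_univ _) h
  · rw [hf.coeff_eq_zero hm]
    refine Finset.sum_eq_zero fun J _ => ?_
    rw [if_neg]
    intro h
    apply hm
    rw [← h, Pool.Agent.Helper49.LN.toFinsupp_degree, Sym.card_coe]

theorem cc_indep (n : ℕ) :
    LinearIndependent Ω (fun J : Sym σ n => Pool.Agent.Helper49.LN.mo Ω (J : Multiset σ)) := by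
  rw [Fintype.linearIndependent_iff]
  intro g hg J
  have h1 := congrArg (coeff (Multiset.toFinsupp (J : Multiset σ))) hg
  rw [coeff_sum, coeff_zero, Finset.sum_eq_single J] at h1
  · rwa [coeff_smul, cc_coeff_mo, if_pos rfl, smul_eq_mul, mul_one] at h1
  · intro I _ hI
    rw [coeff_smul, cc_coeff_mo, if_neg, smul_zero]
    intro h
    exact hI (Sym.coe_injective (Multiset.toFinsupp.injective h))
  · intro h
    exact absurd (Finset.mem_univ J) h

end CC

section CP

variable {Ω : Type*} [Field Ω]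

/-- the restriction to the plane `h = 0` -/
noncomputable def cc_phi (h : Fin 4 → Ω) (i : Fin 4) :
    MvPolynomial (Fin 4) Ω →ₐ[Ω] MvPolynomial (Fin 3) Ω :=
  aeval (i.insertNth (α := fun _ => MvPolynomial (Fin 3) Ω)
    (-∑ j, (h (i.succAbove j) / h i) • X j) (fun j => X j))

theorem cc_phi_same (h : Fin 4 → Ω) (i : Fin 4) :
    cc_phi h i (X i) = -∑ j, (h (i.succAbove j) / h i) • X j := by
  rw [cc_phi, aeval_X, Fin.insertNth_apply_same]

theorem cc_phi_above (h : Fin 4 → Ω) (i : Fin 4) (j : Fin 3) :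
    cc_phi h i (X (i.succAbove j)) = X j := by
  rw [cc_phi, aeval_X, Fin.insertNth_apply_succAbove]

theorem cc_phi_lf (h : Fin 4 → Ω) (i : Fin 4) (hi : h i ≠ 0) : cc_phi h i (lf h) = 0 := by
  rw [lf, map_sum, Fin.sum_univ_succAbove _ i, map_smul, cc_phi_same]
  simp only [map_smul, cc_phi_above]
  rw [smul_neg, Finset.smul_sum, neg_add_eq_zero]
  refine Finset.sum_congr rfl fun j _ => ?_
  rw [smul_smul, mul_div_cancel₀ _ hi]

theorem cc_phi_hom (h : Fin 4 → Ω) (i : Fin 4) {p : MvPolynomial (Fin 4) Ω} {n : ℕ}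
    (hp : p.IsHomogeneous n) : (cc_phi h i p).IsHomogeneous n := by
  have h1 : ∀ k, (i.insertNth (α := fun _ => MvPolynomial (Fin 3) Ω)
      (-∑ j, (h (i.succAbove j) / h i) • X j) (fun j => X j) k).IsHomogeneous 1 := by
    intro k
    refine Fin.succAboveCases i ?_ (fun j => ?_) k
    · rw [Fin.insertNth_apply_same]
      refine IsHomogeneous.neg (IsHomogeneous.sum _ _ _ fun j _ => ?_)
      rw [smul_eq_C_mul]
      simpa using (isHomogeneous_C (Fin 3) (h (i.succAbove j) / h i)).mul (isHomogeneous_X Ω j)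
    · rw [Fin.insertNth_apply_succAbove]
      exact isHomogeneous_X Ω j
  have h2 := hp.aeval _ h1
  rwa [one_mul] at h2

theorem cc_phi_mo (h : Fin 4 → Ω) (i : Fin 4) {n : ℕ} (J : Sym (Fin 3) n) :
    cc_phi h i (Pool.Agent.Helper49.LN.mo Ω ((Sym.map i.succAbove J : Sym (Fin 4) n) :
      Multiset (Fin 4))) = Pool.Agent.Helper49.LN.mo Ω (J : Multiset (Fin 3)) := by
  rw [Sym.coe_map, Pool.Agent.Helper49.LN.mo, Pool.Agent.Helper49.LN.mo, map_multiset_prod,
    Multiset.map_map, Multiset.map_map]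
  congr 1
  refine Multiset.map_congr rfl fun j _ => ?_
  exact cc_phi_above h i j

/-- the combinations `M A + N C + Q E` -/
noncomputable def cc_psi (A C Q : MvPolynomial (Fin 3) Ω) :
    ((Sym (Fin 3) 1 → Ω) × (Sym (Fin 3) 2 → Ω) × (Sym (Fin 3) 3 → Ω)) →ₗ[Ω]
      MvPolynomial (Fin 3) Ω where
  toFun w := (∑ J, w.1 J • Pool.Agent.Helper49.LN.mo Ω (J : Multiset (Fin 3))) * A +
    (∑ J, w.2.1 J • Pool.Agent.Helper49.LN.mo Ω (J : Multiset (Fin 3))) * C +
    Q * ∑ J, w.2.2 J • Pool.Agent.Helper49.LN.mo Ω (J : Multiset (Fin 3))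
  map_add' w w' := by
    simp only [Prod.fst_add, Prod.snd_add, Pi.add_apply, add_smul, Finset.sum_add_distrib]
    ring
  map_smul' t w := by
    simp only [Prod.smul_fst, Prod.smul_snd, Pi.smul_apply, smul_eq_mul, mul_smul,
      ← Finset.smul_sum, RingHom.id_apply, smul_add, smul_mul_assoc, mul_smul_comm]

end CP

theorem conic_count {Ω : Type*} [Field Ω] (D : Sym (Fin 4) 5 → Derivation ℤ Ω Ω)
    (a : Sym (Fin 4) 5 → Ω) (hD : ∀ I J, D J (a I) = if I = J then 1 else 0) (h : Fin 4 → Ω)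
    (h0 : h ≠ 0) (Q A C : MvPolynomial (Fin 4) Ω) (hQ : Q.IsHomogeneous 2)
    (hA : A.IsHomogeneous 4) (hC : C.IsHomogeneous 3)
    (hF : ∑ J : Sym (Fin 4) 5, a J • Pool.Agent.Helper49.LN.mo Ω (J : Multiset (Fin 4)) =
      lf h * A + Q * C) : False := by
  obtain ⟨i, hi⟩ := Function.ne_iff.1 h0
  rw [Pi.zero_apply] at hi
  have hlf : (lf h).IsHomogeneous 1 := by
    rw [lf]
    refine IsHomogeneous.sum _ _ _ fun j _ => ?_
    rw [smul_eq_C_mul]
    simpa using (isHomogeneous_C (Fin 4) (h j)).mul (isHomogeneous_X Ω j)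
  have key : ∀ J : Sym (Fin 3) 5, ∃ w, cc_psi (cc_phi h i A) (cc_phi h i C) (cc_phi h i Q) w =
      Pool.Agent.Helper49.LN.mo Ω (J : Multiset (Fin 3)) := by
    intro J
    have h1 := cc_form D a hD (Sym.map i.succAbove J)
    rw [hF, cc_add, cc_mul, cc_mul] at h1
    have h2 := congrArg (cc_phi h i) h1
    rw [cc_phi_mo, map_add, map_add, map_add, map_mul, map_mul, map_mul, map_mul,
      cc_phi_lf h i hi, zero_mul, add_zero] at h2
    refine ⟨(fun I => coeff (Multiset.toFinsupp (I : Multiset (Fin 3)))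
        (cc_phi h i (cc_der (D (Sym.map i.succAbove J)) (lf h))),
      fun I => coeff (Multiset.toFinsupp (I : Multiset (Fin 3)))
        (cc_phi h i (cc_der (D (Sym.map i.succAbove J)) Q)),
      fun I => coeff (Multiset.toFinsupp (I : Multiset (Fin 3)))
        (cc_phi h i (cc_der (D (Sym.map i.succAbove J)) C))), ?_⟩
    rw [← h2, cc_psi]
    simp only [LinearMap.coe_mk, AddHom.coe_mk]
    rw [cc_sum (cc_phi_hom h i (cc_hom (D (Sym.map i.succAbove J)) hlf)),
      cc_sum (cc_phi_hom h i (cc_hom (D (Sym.map i.succAbove J)) hQ)),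
      cc_sum (cc_phi_hom h i (cc_hom (D (Sym.map i.succAbove J)) hC)), add_assoc]
  choose w hw using key
  have hli : LinearIndependent Ω w := by
    refine LinearIndependent.of_comp
      (cc_psi (cc_phi h i A) (cc_phi h i C) (cc_phi h i Q)) ?_
    have h3 : (cc_psi (cc_phi h i A) (cc_phi h i C) (cc_phi h i Q)) ∘ w =
        fun J : Sym (Fin 3) 5 => Pool.Agent.Helper49.LN.mo Ω (J : Multiset (Fin 3)) :=
      funext hw
    rw [h3]
    exact cc_indep 5
  have h4 := hli.fintype_card_le_finrank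
  rw [Module.finrank_prod, Module.finrank_prod, Module.finrank_fintype_fun_eq_card,
    Module.finrank_fintype_fun_eq_card, Module.finrank_fintype_fun_eq_card,
    Sym.card_sym_eq_choose, Sym.card_sym_eq_choose, Sym.card_sym_eq_choose,
    Sym.card_sym_eq_choose, Fintype.card_fin] at h4
  norm_num [Nat.choose] at h4

end Pool.Agent.Helper6.QS
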