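import Pool.Agent.Helper6.QS.HPar

/-!
# QS-RATQ: a rational quadratic form

`g(P, C Q) = 0` for all `P`, `C` by `pln_g` (`C Q l = (C l) Q`). `Q` does not vanish identically on
the rational plane `h = 0`, so `Q(y1) ≠ 0` for a rational `y1` with `h . y1 = 0` (write the plane as
the image of `B^3`; a polynomial vanishing on `B^3` is zero, `B` is infinite). Choose a `B`-linear
map `λ : Ω → B` with `λ(Q(y1)) ≠ 0` and `Q1 = λ(Q)` (coefficientwise): `Q1(y1) = λ(Q(y1)) ≠ 0`, and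
`g(P, C Q1) = λ(g(P, C Q)) = 0` for rational `P`, `C`, hence for all.
-/

set_option autoImplicit false

namespace Pool.Agent.Helper6.QS

open scoped BigOperators
open MvPolynomial
open Pool.Agent.Helper8.LG (Bdd form mon)
open Pool.Agent.Helper49.LN (cP mo hf pl)

theorem ratQ_mono {Ω : Type*} [Field Ω] {σ : Type*} (φ : MvPolynomial σ Ω →ₗ[Ω] Ω) (m : σ →₀ ℕ)
    (c : Ω) : φ (monomial m c) = c * φ (monomial m 1) := by
  rw [← smul_eq_mul, ← map_smul, smul_monomial, smul_eq_mul, mul_one]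

/-- a functional with values in `B` on the monomials commutes with `λ` -/
theorem ratQ_lin {Ω : Type*} [Field Ω] {σ : Type*} {B : Subfield Ω} (μ : Ω →ₗ[B] Ω)
    (Q : MvPolynomial σ Ω) (φ : MvPolynomial σ Ω →ₗ[Ω] Ω) (hφ : ∀ m, φ (monomial m 1) ∈ B) :
    φ (∑ m ∈ Q.support, monomial m (μ (coeff m Q))) = μ (φ Q) := by
  rw [map_sum]
  conv_rhs => rw [Q.as_sum, map_sum, map_sum]
  refine Finset.sum_congr rfl fun m _ => ?_
  rw [ratQ_mono, ratQ_mono φ m (coeff m Q)]
  have h1 : coeff m Q * φ (monomial m 1) = (⟨φ (monomial m 1), hφ m⟩ : B) • coeff m Q := by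
    rw [Subfield.smul_def, smul_eq_mul, mul_comm]
  rw [h1, map_smul, Subfield.smul_def, smul_eq_mul, mul_comm]

theorem ratQ_coeff {Ω : Type*} [Field Ω] {σ : Type*} {B : Subfield Ω} (μ : Ω →ₗ[B] Ω)
    (Q : MvPolynomial σ Ω) (n : σ →₀ ℕ) :
    coeff n (∑ m ∈ Q.support, monomial m (μ (coeff m Q))) = μ (coeff n Q) := by
  classical
  rw [coeff_sum]
  simp only [coeff_monomial]
  rw [Finset.sum_ite_eq' Q.support n fun m => μ (coeff m Q)]
  split_ifs with h
  · rfl
  · rw [notMem_support_iff.1 h, map_zero]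

theorem ratQ_ratP {Ω : Type*} [Field Ω] {σ : Type*} {B : Subfield Ω} (m : σ →₀ ℕ) :
    RatP B (monomial m (1 : Ω)) := by
  classical
  intro n
  rw [coeff_monomial]
  split_ifs
  · exact one_mem B
  · exact zero_mem B

/-- a rational point of the plane `h = 0` at which `Q` does not vanish -/
theorem ratQ_pt {Ω : Type*} [Field Ω] [CharZero Ω] {B : Subfield Ω} {σ : Type*} [Fintype σ]
    [DecidableEq σ] (h : σ → Ω) (hB : ∀ l, h l ∈ B) (h0 : h ≠ 0) (Q : MvPolynomial σ Ω)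
    (hy : ∃ y, dt h y = 0 ∧ eval y Q ≠ 0) :
    ∃ y : σ → Ω, (∀ i, y i ∈ B) ∧ dt h y = 0 ∧ eval y Q ≠ 0 := by
  obtain ⟨i₀, hi₀⟩ : ∃ i, h i ≠ 0 := by
    by_contra hcon
    push Not at hcon
    exact h0 (funext hcon)
  have hi₀' : h i₀ ≠ 0 := hi₀
  set Y : (σ → Ω) → σ → Ω := fun t i => t i - (if i = i₀ then dt h t / h i₀ else 0) with hY
  have hYdt : ∀ t, dt h (Y t) = 0 := by
    intro t
    simp only [hY, dt, mul_sub, Finset.sum_sub_distrib, mul_ite, mul_zero, Finset.sum_ite_eq',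
      Finset.mem_univ, if_true]
    rw [mul_div_cancel₀ _ hi₀', sub_self]
  have hYid : ∀ t, dt h t = 0 → Y t = t := by
    intro t ht
    funext i
    simp only [hY, ht, zero_div, ite_self, sub_zero]
  have hYB : ∀ t : σ → Ω, (∀ i, t i ∈ B) → ∀ i, Y t i ∈ B := by
    intro t ht i
    simp only [hY]
    refine sub_mem (ht i) ?_
    split_ifs
    · exact div_mem (sum_mem fun j _ => mul_mem (hB j) (ht j)) (hB i₀)
    · exact zero_mem B
  let R : MvPolynomial σ Ω :=
    bind₁ (fun i => X i - (if i = i₀ then lf h * C (h i₀)⁻¹ else 0)) Q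
  have hR : ∀ t, eval t R = eval (Y t) Q := by
    intro t
    have h1 : eval t R = eval₂Hom (RingHom.id Ω) t
        (bind₁ (fun i => X i - (if i = i₀ then lf h * C (h i₀)⁻¹ else 0)) Q) := rfl
    rw [h1, eval₂Hom_bind₁]
    have h2 : (fun i => eval₂Hom (RingHom.id Ω) t
        (X i - (if i = i₀ then lf h * C (h i₀)⁻¹ else 0))) = Y t := by
      funext i
      by_cases hi : i = i₀
      · simp [hY, hi, lf, dt, div_eq_mul_inv]
      · simp [hY, hi]
    rw [h2]
    rfl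
  obtain ⟨y, hy1, hy2⟩ := hy
  have hR0 : R ≠ 0 := by
    intro h
    have := hR y
    rw [h, map_zero, hYid y hy1] at this
    exact hy2 this.symm
  by_contra hcon
  push Not at hcon
  apply hR0
  refine MvPolynomial.funext_set (fun _ => (B : Set Ω)) ?_ ?_
  · intro _
    exact Set.infinite_of_injective_forall_mem (f := fun n : ℕ => (n : Ω)) Nat.cast_injective
      fun n => natCast_mem B n
  · intro t ht
    rw [hR, map_zero]
    exact hcon (Y t) (hYB t fun i => ht i (Set.mem_univ i)) (hYdt t)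

theorem rat_Q {Ω : Type*} [Field Ω] [CharZero Ω] {D : Sym (Fin 4) 5 → Derivation ℤ Ω Ω}
    {a : Sym (Fin 4) 5 → Ω} {B : Subfield Ω} {x h n : Fin 4 → Ω}
    {g : MvPolynomial (Fin 4) Ω →ₗ[Ω] MvPolynomial (Fin 4) Ω →ₗ[Ω] Ω}
    (hp : Pln D a B x h n g) (Q : MvPolynomial (Fin 4) Ω) (hQ : Q.IsHomogeneous 2)
    (hy : ∃ y, dt h y = 0 ∧ eval y Q ≠ 0) (hpar : ∀ C, Par x (dv D x (C * Q))) :
    ∃ Q1 : MvPolynomial (Fin 4) Ω, RatP B Q1 ∧ Q1.IsHomogeneous 2 ∧
      (∃ y, dt h y = 0 ∧ eval y Q1 ≠ 0) ∧ ∀ P C, g P (C * Q1) = 0 := by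
  have hg : ∀ P C, g P (C * Q) = 0 := by
    intro P C
    refine pln_g hp P (C * Q) fun l _ => ?_
    have : C * Q * lf l = C * lf l * Q := by ring
    rw [this]
    exact hpar _
  obtain ⟨y, hyB, hy1, hy2⟩ := ratQ_pt h hp.hB hp.h0 Q hy
  obtain ⟨φ, hφ⟩ : ∃ φ : Module.Dual B Ω, φ (eval y Q) ≠ 0 := by
    by_contra hcon
    push Not at hcon
    exact hy2 ((Module.forall_dual_apply_eq_zero_iff B (eval y Q)).1 hcon)
  obtain ⟨μ, hμB, hμ⟩ : ∃ μ : Ω →ₗ[B] Ω, (∀ b, μ b ∈ B) ∧ μ (eval y Q) ≠ 0 :=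
    ⟨(Algebra.linearMap B Ω) ∘ₗ φ, fun b => (φ b).2, fun h => hφ (Subtype.ext h)⟩
  have hae : ∀ f : MvPolynomial (Fin 4) Ω, aeval y f = eval y f := fun f => by
    rw [← coe_aeval_eq_eval]
    rfl
  refine ⟨∑ m ∈ Q.support, monomial m (μ (coeff m Q)), ?_, ?_, ⟨y, hy1, ?_⟩, ?_⟩
  · intro m
    rw [ratQ_coeff]
    exact hμB _
  · intro m hm
    rw [ratQ_coeff] at hm
    exact hQ fun h => hm (by rw [h, map_zero])
  · have hmem : ∀ m, (aeval y : MvPolynomial (Fin 4) Ω →ₐ[Ω] Ω).toLinearMap (monomial m 1) ∈ B := by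
      intro m
      rw [AlgHom.toLinearMap_apply, aeval_monomial, map_one, one_mul]
      exact prod_mem fun i _ => pow_mem (hyB i) _
    have h1 := ratQ_lin μ Q (aeval y : MvPolynomial (Fin 4) Ω →ₐ[Ω] Ω).toLinearMap hmem
    rw [AlgHom.toLinearMap_apply, AlgHom.toLinearMap_apply, hae, hae] at h1
    intro h2
    exact hμ (h1.symm.trans h2)
  · intro P C
    have hmon : ∀ p c : Fin 4 →₀ ℕ, g (monomial p 1)
        (monomial c 1 * ∑ m ∈ Q.support, monomial m (μ (coeff m Q))) = 0 := by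
      intro p c
      have hmem : ∀ m, ((g (monomial p 1)) ∘ₗ LinearMap.mulLeft Ω
          (monomial c (1 : Ω) : MvPolynomial (Fin 4) Ω)) (monomial m 1) ∈ B := by
        intro m
        rw [LinearMap.comp_apply, LinearMap.mulLeft_apply, monomial_mul, one_mul]
        exact hp.gB _ _ (ratQ_ratP p) (ratQ_ratP _)
      have h1 := ratQ_lin μ Q _ hmem
      rw [LinearMap.comp_apply, LinearMap.mulLeft_apply, LinearMap.comp_apply,
        LinearMap.mulLeft_apply, hg, map_zero] at h1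
      exact h1
    generalize (∑ m ∈ Q.support, monomial m (μ (coeff m Q))) = Q1 at hmon ⊢
    have h2 : ∀ p, g (monomial p 1) (C * Q1) = 0 := by
      intro p
      rw [C.as_sum, Finset.sum_mul, map_sum]
      refine Finset.sum_eq_zero fun c _ => ?_
      have h3 : monomial c (coeff c C) = coeff c C • monomial c (1 : Ω) := by
        rw [smul_monomial, smul_eq_mul, mul_one]
      rw [h3, smul_mul_assoc, map_smul, hmon, smul_zero]
    rw [P.as_sum, map_sum, LinearMap.sum_apply]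
    refine Finset.sum_eq_zero fun p _ => ?_
    have h3 : monomial p (coeff p P) = coeff p P • monomial p (1 : Ω) := by
      rw [smul_monomial, smul_eq_mul, mul_one]
    rw [h3, map_smul, LinearMap.smul_apply, h2, smul_zero]

end Pool.Agent.Helper6.QS
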