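import Pool.Agent.Helper6.QS.Rat
import Pool.Agent.Helper74.LN.RigidP

/-!
# QS-STAGETWO: rigidity

Copy of `rp_alg` (`Helper74/LN/RigidP.lean`), without forms. For `b ∈ Bs` let
`E₀ = L(c_(Bs - b))` and `B` = the elements of `E` algebraic over `E₀`. `Frame D a B`: for `rat`
take, on both sides `t = c_b` and `t = 1 / c_b`, the valuation rings `O ⊇ intCl E₀ t` and `Δ = 1`:
`Bdd D 1 O` (`intCl_stable`, `bdd_of`), elements of `B` lie in `intCl E₀ t` (algebraic over the
field `E₀`), so `y ∈ O` for all these `O`, `y ∈ intCl E₀ t` (`mem_of`), and `algebraic_of_mem`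
gives `y ∈ B`. So by `KeyQ` the `x_l` are algebraic over all these `E₀`; `exchange`, as in `rp_alg`.
-/

set_option autoImplicit false

namespace Pool.Agent.Helper6.QS

open scoped BigOperators
open MvPolynomial
open Pool.Agent.Helper8.LG
open Pool.Agent.Helper49.LN (cP mo hf pl)

universe u v w

theorem stage_two {N q : ℕ} (hK : KeyQ.{u} N q) {k : Type v} {L : Type w} {E : Type u} [Field k]
    [Field L] [Field E] [CharZero E] [Algebra k L] [Algebra L E] [Algebra k E]
    [IsScalarTower k L E] {n : ℕ} (c : Fin n → E)
    (hgen : IntermediateField.adjoin L (Set.range c) = ⊤) (Bs : Set (Fin n))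
    (hB : AlgebraicIndependent L (fun b : Bs => c b))
    (halg : ∀ r, IsAlgebraic (IntermediateField.adjoin k (c '' Bs)) (c r))
    (a : Sym (Fin (N + 1)) q → L) (D : Sym (Fin (N + 1)) q → Derivation ℤ E E)
    (hD : ∀ I J, D J (algebraMap L E (a I)) = if I = J then 1 else 0)
    (hDL : ∀ p b, ∃ b', D p (algebraMap L E b) = algebraMap L E b')
    (hDk : ∀ p (b : k), D p (algebraMap k E b) = 0) (hDc : ∀ p r, D p (c r) = 0)
    (x : Fin (N + 1) → E) (hx : x 0 = 1) (hF : form (fun J => algebraMap L E (a J)) x = 0) :
    ∀ l, IsAlgebraic L (x l) := by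
  classical
  -- the field `F = E₀(t)`
  have hrange : (Set.range fun b : Bs => c b) = c '' Bs := by
    ext z
    constructor
    · rintro ⟨b, rfl⟩
      exact ⟨b, b.2, rfl⟩
    · rintro ⟨b, hb, rfl⟩
      exact ⟨⟨b, hb⟩, rfl⟩
  have halgF : ∀ (F : Subfield E), (∀ b : k, algebraMap k E b ∈ F) → (∀ b ∈ Bs, c b ∈ F) →
      ∀ r, IsAlgebraic F (c r) := by
    intro F hkF hBF r
    refine rg_alg (R₁ := IntermediateField.adjoin k (c '' Bs)) (fun s => ?_) (halg r)
    have h1 : (IntermediateField.adjoin k (c '' Bs)).toSubfield ≤ F := by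
      rw [IntermediateField.adjoin_toSubfield, Subfield.closure_le]
      rintro z (⟨b, rfl⟩ | ⟨b, hb, rfl⟩)
      · exact hkF b
      · exact hBF b hb
    exact ⟨⟨s, h1 s.2⟩, rfl⟩
  have hfinF : ∀ (F : Subfield E), (∀ b : L, algebraMap L E b ∈ F) → (∀ b ∈ Bs, c b ∈ F) →
      FiniteDimensional F E := by
    intro F hLF hBF
    have hkF : ∀ b : k, algebraMap k E b ∈ F := fun b => by
      rw [IsScalarTower.algebraMap_apply k L E]
      exact hLF _
    have h1 : FiniteDimensional F (IntermediateField.adjoin F (Set.range c)) :=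
      IntermediateField.finiteDimensional_adjoin (by
        rintro z ⟨r, rfl⟩
        exact (halgF F hkF hBF r).isIntegral)
    have h2 : IntermediateField.adjoin F (Set.range c) = ⊤ := by
      rw [eq_top_iff]
      intro z _
      have hz : z ∈ IntermediateField.adjoin L (Set.range c) := by rw [hgen]; trivial
      have h3 : (IntermediateField.adjoin L (Set.range c)).toSubfield ≤
          (IntermediateField.adjoin F (Set.range c)).toSubfield := by
        rw [IntermediateField.adjoin_toSubfield, Subfield.closure_le]
        rintro z (⟨b, rfl⟩ | hz)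
        · exact (IntermediateField.adjoin F (Set.range c)).algebraMap_mem ⟨_, hLF b⟩
        · exact IntermediateField.subset_adjoin F _ hz
      exact h3 hz
    rw [h2] at h1
    exact Module.Finite.equiv (IntermediateField.topEquiv (F := F) (E := E)).toLinearEquiv
  intro l₀
  obtain ⟨v, hv⟩ : ∃ v, v = x l₀ := ⟨_, rfl⟩
  rw [← hv]
  refine exchange (fun b : Bs => c b) hB v ?_ fun b => ?_
  · -- algebraic over `L(c_B)`
    have h1 := hfinF (IntermediateField.adjoin L (Set.range fun b : Bs => c b)).toSubfield
      (fun b => (IntermediateField.adjoin L (Set.range fun b : Bs => c b)).algebraMap_mem b)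
      (fun b hb => IntermediateField.subset_adjoin L _ ⟨⟨b, hb⟩, rfl⟩)
    have h2 : IsAlgebraic (IntermediateField.adjoin L (Set.range fun b : Bs => c b)).toSubfield
        v := Algebra.IsAlgebraic.isAlgebraic _
    exact rg_alg (fun s => ⟨⟨s, s.2⟩, rfl⟩) h2
  · -- algebraic over `L(c_(B - b))`
    set S₀ : Set E := (fun b : Bs => c b) '' {b}ᶜ with hS₀
    set E₀ : Subfield E := (IntermediateField.adjoin L S₀).toSubfield with hE₀
    have hE₀cl : E₀ = Subfield.closure (Set.range (algebraMap L E) ∪ S₀) :=
      IntermediateField.adjoin_toSubfield L S₀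
    have hLE₀ : ∀ z : L, algebraMap L E z ∈ E₀ := fun z =>
      (IntermediateField.adjoin L S₀).algebraMap_mem z
    have hSE₀ : ∀ z ∈ S₀, z ∈ E₀ := fun z hz => IntermediateField.subset_adjoin L _ hz
    have hcE₀ : ∀ b' ∈ Bs, b' ≠ b → c b' ∈ E₀ := fun b' hb' hne => by
      refine hSE₀ _ ⟨⟨b', hb'⟩, ?_, rfl⟩
      intro h
      apply hne
      rw [Set.mem_singleton_iff] at h
      rw [← h]
    have htr : Transcendental E₀ (c b) := by
      have h1 : Transcendental (Algebra.adjoin L S₀) (c b) :=
        hB.transcendental_adjoin (s := {b}ᶜ) (i := b) (fun h => h rfl)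
      have h2 := (IntermediateField.transcendental_adjoin_iff (F := L) (s := S₀)).2 h1
      intro h3
      exact h2 (rg_alg (fun s => ⟨⟨s, s.2⟩, rfl⟩) h3)
    -- the derivations
    have hDE₀ : ∀ p, ∀ f ∈ E₀, D p f ∈ E₀ := by
      intro p
      rw [hE₀cl]
      apply rg_stable
      rintro f (⟨z, rfl⟩ | hf)
      · obtain ⟨z', hz'⟩ := hDL p z
        rw [hz']
        exact Subfield.subset_closure (Or.inl ⟨z', rfl⟩)
      · obtain ⟨b', -, rfl⟩ := hf
        show D p (c b') ∈ _
        rw [hDc]
        exact zero_mem _
    set k₀ : Subfield E := (IntermediateField.adjoin k S₀).toSubfield with hk₀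
    have hk₀cl : k₀ = Subfield.closure (Set.range (algebraMap k E) ∪ S₀) :=
      IntermediateField.adjoin_toSubfield k S₀
    have hk₀E₀ : k₀ ≤ E₀ := by
      rw [hk₀cl, Subfield.closure_le]
      rintro z (⟨z, rfl⟩ | hz)
      · rw [IsScalarTower.algebraMap_apply k L E]
        exact hLE₀ _
      · exact hSE₀ z hz
    have hDk₀ : ∀ p, ∀ f ∈ k₀, D p f = 0 := by
      intro p
      rw [hk₀cl]
      apply rg_kill
      rintro f (⟨z, rfl⟩ | hf)
      · exact hDk p z
      · obtain ⟨b', -, rfl⟩ := hf
        exact hDc p b'
    -- both sides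
    have hside : ∀ t : E, (t = c b ∨ t = (c b)⁻¹) → Transcendental E₀ t ∧
        FiniteDimensional (Subfield.closure ((E₀ : Set E) ∪ {t})) E ∧
        ∀ p, ∀ f ∈ intCl E₀ t, D p f ∈ intCl E₀ t := by
      intro t ht
      have htc : c b ∈ Subfield.closure ({t} : Set E) := by
        rcases ht with h | h
        · rw [← h]
          exact Subfield.subset_closure rfl
        · have h1 : c b = t⁻¹ := by rw [h, inv_inv]
          rw [h1]
          exact inv_mem (Subfield.subset_closure rfl)
      have htt : Transcendental E₀ t := by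
        rcases ht with h | h
        · rw [h]
          exact htr
        · rw [h]
          intro h1
          exact htr (by simpa using h1.inv)
      have hF1 : ∀ z : L, algebraMap L E z ∈ Subfield.closure ((E₀ : Set E) ∪ {t}) := fun z =>
        Subfield.subset_closure (Or.inl (hLE₀ z))
      have hF2 : ∀ b' ∈ Bs, c b' ∈ Subfield.closure ((E₀ : Set E) ∪ {t}) := by
        intro b' hb'
        by_cases hne : b' = b
        · rw [hne]
          exact Subfield.closure_mono (Set.subset_union_right) htc
        · exact Subfield.subset_closure (Or.inl (hcE₀ b' hb' hne))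
      have hfin := hfinF _ hF1 hF2
      refine ⟨htt, hfin, ?_⟩
      have hDt : ∀ p, D p t = 0 := by
        intro p
        rcases ht with h | h
        · rw [h]
          exact hDc p b
        · rw [h, (D p).leibniz_inv, hDc, smul_zero]
      have hstab := intCl_stable E₀ t D hDE₀ hDt k₀ hk₀E₀ hDk₀ (Set.range c)
        (Set.finite_range c) (by rintro p z ⟨r, rfl⟩; exact hDc p r) (by
          rintro z ⟨r, rfl⟩
          refine halgF _ (fun z => ?_) (fun b' hb' => ?_) r
          · exact Subfield.subset_closure
              (Or.inl ((IntermediateField.adjoin k S₀).algebraMap_mem z))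
          · by_cases hne : b' = b
            · rw [hne]
              exact Subfield.closure_mono (Set.subset_union_right) htc
            · refine Subfield.subset_closure (Or.inl ?_)
              refine IntermediateField.subset_adjoin k S₀ ⟨⟨b', hb'⟩, ?_, rfl⟩
              intro h
              apply hne
              rw [Set.mem_singleton_iff] at h
              rw [← h]) (by
          rw [eq_top_iff]
          intro z _
          have hz : z ∈ (IntermediateField.adjoin L (Set.range c)).toSubfield := by
            rw [hgen]; trivial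
          rw [IntermediateField.adjoin_toSubfield] at hz
          refine Subfield.closure_mono ?_ hz
          rintro z (⟨z, rfl⟩ | hz)
          · exact Or.inl (Or.inl (hLE₀ z))
          · exact Or.inr hz)
      exact hstab
    have hfrm : Frame D (fun J => algebraMap L E (a J)) (algebraicClosure E₀ E).toSubfield := by
      refine ⟨hD, fun J => ?_, fun s hs y M hM => ?_⟩
      · exact (mem_algebraicClosure_iff).2
          (isAlgebraic_algebraMap (A := E) (⟨algebraMap L E (a J), hLE₀ _⟩ : E₀))
      · have hone : ∀ t : E, (t = c b ∨ t = (c b)⁻¹) → y ∈ intCl E₀ t := by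
          intro t ht
          obtain ⟨htt, hfin, hstab⟩ := hside t ht
          obtain ⟨g1, g2⟩ := intCl_dedekind E₀ t htt hfin
          have := g1
          have := g2
          apply mem_of (intCl E₀ t)
          intro O hO
          have hbdd : Bdd D 1 O := bdd_of (intCl E₀ t) D 1 (one_mem _)
            (fun p f hf => by rw [one_mul]; exact hstab p f hf) O hO
          have h5 := hM O 1 hbdd fun b' hb' => by
            rw [one_mul]
            refine hO ((ring_mem_intCl E₀ t b').2 ?_)
            have h6 : IsAlgebraic E₀ b' := (mem_algebraicClosure_iff).1 (hs b' hb')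
            exact h6.isIntegral.tower_top
          rwa [one_pow, one_mul] at h5
        obtain ⟨ht1, hfin1, -⟩ := hside (c b) (Or.inl rfl)
        exact (mem_algebraicClosure_iff).2 (algebraic_of_mem E₀ (c b) ht1 hfin1 _
          (hone _ (Or.inl rfl)) (hone _ (Or.inr rfl)))
    have hP : IsAlgebraic E₀ v := by
      rw [hv]
      exact (mem_algebraicClosure_iff).1 (hK E D _ _ hfrm x hx hF l₀)
    exact rg_alg (fun s => ⟨⟨s, s.2⟩, rfl⟩) hP

end Pool.Agent.Helper6.QS
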