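import Pool.Agent.Helper6.QS.G1sj
import Pool.Agent.Helper6.QS.Ev
import Pool.Agent.Helper6.QS.Line
import Pool.Agent.Helper74.LN.K2

/-!
# QS: the dichotomy for `(N, q) = (3, 5), (4, 7), (6, 10)`

Copy of `key_abs` with the additional cases: one single column and exponent 0 (a rational line), and
the blocks of quintic surfaces.
-/

set_option autoImplicit false

namespace Pool.Agent.Helper6.QS

open scoped BigOperators
open MvPolynomial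
open Pool.Agent.Helper8.LG (Bdd form mon col)
open Pool.Agent.Helper49.LN hiding dt
open Pool.Agent.Helper74.LN (Moves KeyL)

section

variable {Ω : Type*} [Field Ω] {σ : Type*} [Fintype σ] [DecidableEq σ] {n : ℕ}

/-- the extra rows: none -/
abbrev K0 := Fin 0 ⊕ Fin 0

def g0 (n : ℕ) (σ Ω : Type*) : Sym σ (n + 1) → K0 → Ω := fun _ s => Sum.elim Fin.elim0 Fin.elim0 s

def ε0 (Ω : Type*) : K0 → Ω := fun s => Sum.elim Fin.elim0 Fin.elim0 s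

theorem locG0 {O : ValuationSubring Ω} {Δ : Ω} {D : Sym σ (n + 1) → Derivation ℤ Ω Ω}
    (hΔ : Bdd D Δ O) (x : σ → Ω) (m : σ) : LocG O Δ D x m (g0 n σ Ω) (g0 n σ Ω) (ε0 Ω) :=
  ⟨hΔ, fun J => funext fun k => by rcases k with k | k <;> exact k.elim0,
    fun J k => by rcases k with k | k <;> exact k.elim0,
    fun k => by rcases k with k | k <;> exact k.elim0⟩

/-- the monomials modulo the ideal of the point -/
theorem mo_mod (x : σ → Ω) (i₀ : σ) (hx : x i₀ = 1) (K : Multiset σ) :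
    mo Ω K - (K.map x).prod • (X i₀ : MvPolynomial σ Ω) ^ Multiset.card K ∈ Ipt x := by
  induction K using Multiset.induction_on with
  | empty =>
    have h : mo Ω (0 : Multiset σ) = 1 := by
      unfold mo
      simp
    rw [h]
    simp
  | cons a K ih =>
    have h1 : mo Ω (a ::ₘ K) = X a * mo Ω K := by
      unfold mo
      rw [Multiset.map_cons, Multiset.prod_cons]
    rw [h1, Multiset.map_cons, Multiset.prod_cons, Multiset.card_cons]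
    have h2 : (X a : MvPolynomial σ Ω) * mo Ω K -
        (x a * (K.map x).prod) • X i₀ ^ (Multiset.card K + 1) =
        X a * (mo Ω K - (K.map x).prod • (X i₀ : MvPolynomial σ Ω) ^ Multiset.card K) +
        ((K.map x).prod • (X i₀ : MvPolynomial σ Ω) ^ Multiset.card K) * hf x i₀ a := by
      unfold hf
      rw [hx, one_smul]
      simp only [smul_eq_C_mul, map_mul]
      ring
    rw [h2]
    exact add_mem (Ideal.mul_mem_left _ _ ih)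
      (Ideal.mul_mem_left _ _ (Ideal.subset_span ⟨(i₀, a), rfl⟩))

/-- the rank is the number of columns -/
theorem kd_rank (D : Sym σ (n + 1) → Derivation ℤ Ω Ω) (x : σ → Ω) (i₀ : σ) (hx : x i₀ = 1)
    {A : Type*} [Fintype A] (v : A → σ ⊕ K0 → Ω)
    (h1 : ∀ g ∈ Ipt x, cP (pv D x (g0 n σ Ω)) g ∈ Submodule.span Ω (Set.range v))
    (h2 : pe x (ε0 Ω) ∈ Submodule.span Ω (Set.range v)) :
    Module.finrank Ω (Submodule.span Ω (Set.range (col D x))) ≤ Fintype.card A + 1 := by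
  classical
  obtain ⟨u, hu⟩ : ∃ u, u = la (E := Ω) (pv D x (g0 n σ Ω)) i₀ := ⟨_, rfl⟩
  obtain ⟨p, hp⟩ : ∃ p : (σ ⊕ K0 → Ω) →ₗ[Ω] (σ → Ω), p = LinearMap.funLeft Ω Ω Sum.inl :=
    ⟨_, rfl⟩
  have h3 : Submodule.span Ω (Set.range (col D x)) ≤
      (Submodule.span Ω (Set.range (Sum.elim v fun _ : Fin 1 => u))).map p := by
    rw [Submodule.span_le]
    have h4 : Submodule.span Ω (Set.range v) ≤
        Submodule.span Ω (Set.range (Sum.elim v fun _ : Fin 1 => u)) := by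
      refine Submodule.span_mono ?_
      rintro _ ⟨a, rfl⟩
      exact ⟨Sum.inl a, rfl⟩
    rintro _ ⟨_ | J, rfl⟩
    · refine ⟨pe x (ε0 Ω), h4 h2, ?_⟩
      rw [hp]
      rfl
    · refine ⟨pv D x (g0 n σ Ω) J, ?_, ?_⟩
      · have h5 := mo_mod x i₀ hx (J : Multiset σ)
        rw [Sym.card_coe] at h5
        have h6 := h1 _ h5
        rw [map_sub, map_smul, cP_mo] at h6
        have h7 : pv D x (g0 n σ Ω) J = (pv D x (g0 n σ Ω) J -
            ((J : Multiset σ).map x).prod • cP (pv D x (g0 n σ Ω))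
              ((X i₀ : MvPolynomial σ Ω) ^ (n + 1))) +
            ((J : Multiset σ).map x).prod • u := by
          rw [hu]
          unfold la
          abel
        rw [h7]
        exact add_mem (h4 h6) (Submodule.smul_mem _ _ (Submodule.subset_span ⟨Sum.inr 0, rfl⟩))
      · rw [hp]
        rfl
  refine (Submodule.finrank_mono h3).trans ((Submodule.finrank_map_le _ _).trans ?_)
  refine (finrank_range_le_card _).trans ?_
  rw [Fintype.card_sum, Fintype.card_fin]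

/-- the point is bounded by a function of weight `-1` -/
theorem kd_mem {D : Sym σ (n + 1) → Derivation ℤ Ω Ω} {a : Sym σ (n + 1) → Ω} {B : Subfield Ω}
    (hB : Frame D a B) (x : σ → Ω) (i₀ : σ) (hx : x i₀ = 1) (G : Ω) (hG : G ≠ 0) (M : ℕ)
    (h : ∀ (O : ValuationSubring Ω) (Δ : Ω) (m : σ), Bdd D Δ O → x m ≠ 0 →
      (∀ l, xt x m l ∈ O) → Δ ^ M * (G * x m) ∈ O) : ∀ l, x l ∈ B :=
  rat_pt hB x i₀ hx ∅ (fun b hb => absurd hb (Finset.notMem_empty b)) G hG M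
    fun O Δ hΔ _ m hm hxm => h O Δ m hΔ hm hxm

/-- the determinant as a function of the single column -/
theorem kd_lin {R : Type*} {i p u : ℕ}
    (rr : TT (Fin 1) (Fin i) (Fin 1) (Fin 0) (Fin 1 ⊕ Fin p) (Fin u) → R) (v0 : Fin 1 → R → Ω)
    (vb : Fin i × Fin 2 → R → Ω) (v2 : Fin 0 → R → Ω) (v3 : Fin 1 ⊕ Fin p → R → Ω)
    (v4 : Fin u → R → Ω) (c c' : Ω) (w w' : R → Ω) :
    Pool.Agent.Helper49.LN.dt rr (vv v0 vb (fun _ => c • w - c' • w') v2 v3 v4) =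
      c * Pool.Agent.Helper49.LN.dt rr (vv v0 vb (fun _ => w) v2 v3 v4) -
        c' * Pool.Agent.Helper49.LN.dt rr (vv v0 vb (fun _ => w') v2 v3 v4) := by
  obtain ⟨t0, ht0⟩ : ∃ t0 : TT (Fin 1) (Fin i) (Fin 1) (Fin 0) (Fin 1 ⊕ Fin p) (Fin u),
    t0 = Sum.inl (Sum.inl (Sum.inl (Sum.inr 0))) := ⟨_, rfl⟩
  have key : ∀ u : R → Ω, (Matrix.of fun s t => vv v0 vb (fun _ => u) v2 v3 v4 t (rr s)) =
      (Matrix.of fun s t => vv v0 vb (fun _ : Fin 1 => w) v2 v3 v4 t (rr s)).updateCol t0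
        fun s => u (rr s) := by
    intro u
    ext s t
    rw [Matrix.updateCol_apply]
    by_cases h : t = t0
    · rw [if_pos h, h, ht0]
      rfl
    · rw [if_neg h]
      rcases t with ((((t | t) | t) | t) | t) | t
      · rfl
      · rfl
      · exfalso
        apply h
        rw [ht0, Subsingleton.elim t 0]
      · rfl
      · rfl
      · rfl
  unfold Pool.Agent.Helper49.LN.dt
  rw [key (c • w - c' • w'), key w']
  have h1 : (fun s => (c • w - c' • w') (rr s)) =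
      (c • fun s => w (rr s)) + (-c') • fun s => w' (rr s) := by
    funext s
    simp only [Pi.sub_apply, Pi.smul_apply, smul_eq_mul, Pi.add_apply]
    ring
  rw [h1, Matrix.det_updateCol_add, Matrix.det_updateCol_smul, Matrix.det_updateCol_smul]
  have h2 : (Matrix.of fun s t => vv v0 vb (fun _ : Fin 1 => w) v2 v3 v4 t (rr s)).updateCol t0
      (fun s => w (rr s)) = Matrix.of fun s t => vv v0 vb (fun _ : Fin 1 => w) v2 v3 v4 t (rr s) :=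
    (key w).symm
  rw [h2]
  ring

theorem hf_comb (x : σ → Ω) (i₀ : σ) (hx : x i₀ = 1) (j l : σ) :
    hf x j l = x j • hf x i₀ l - x l • hf x i₀ j := by
  unfold hf
  rw [hx]
  simp only [smul_eq_C_mul, map_one, one_mul]
  ring

/-- one single column and exponent 0: a rational line -/
theorem kd_t1 [CharZero Ω] {D : Sym σ (n + 1) → Derivation ℤ Ω Ω} {a : Sym σ (n + 1) → Ω}
    {B : Subfield Ω} (hB : Frame D a B) (hq : 2 * Fintype.card σ ≤ n + 1 + 4) (x : σ → Ω) (i₀ : σ)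
    (hx : x i₀ = 1) (hF : form a x = 0) {i p u : ℕ}
    (β : Fin i → (Sym σ n × Sym σ n) × (σ × σ)) (f : Fin 1 → Sym σ n × σ) (e : Fin p → σ)
    (f' : Fin u → σ ⊕ K0)
    (rr : TT (Fin 1) (Fin i) (Fin 1) (Fin 0) (Fin 1 ⊕ Fin p) (Fin u) ≃ σ ⊕ K0)
    (hdt : Pool.Agent.Helper49.LN.dt rr (vv (fun _ => pe x (ε0 Ω))
      (fun p => bl (pv D x (g0 n σ Ω)) x i₀ (β p.1) p.2)
      (fun s => sg (pv D x (g0 n σ Ω)) x i₀ (f s)) Fin.elim0
      (Sum.elim (fun _ => la (E := Ω) (pv D x (g0 n σ Ω)) i₀) fun s => uv (Sum.inl (e s)))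
      fun s => uv (f' s)) ≠ 0)
    (hspan : ∀ g ∈ Ipt x, cP (pv D x (g0 n σ Ω)) g ∈ Submodule.span Ω (Set.range (Sum.elim
        (Sum.elim (fun _ : Fin 1 => pe x (ε0 Ω))
          (fun p : Fin i × Fin 2 => bl (pv D x (g0 n σ Ω)) x i₀ (β p.1) p.2))
        (fun s => sg (pv D x (g0 n σ Ω)) x i₀ (f s)))))
    (hnum : Fintype.card σ + i + 1 ≤ n + 1 + p) : ∀ l, x l ∈ B := by
  classical
  obtain ⟨V, hV⟩ : ∃ V, V = pv D x (g0 n σ Ω) := ⟨_, rfl⟩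
  obtain ⟨T, hT⟩ : ∃ T : (σ ⊕ K0 → Ω) → Ω, T = fun w => Pool.Agent.Helper49.LN.dt rr
      (vv (fun _ => pe x (ε0 Ω)) (fun p => bl (pv D x (g0 n σ Ω)) x i₀ (β p.1) p.2)
      (fun _ => w) Fin.elim0
      (Sum.elim (fun _ => la (E := Ω) (pv D x (g0 n σ Ω)) i₀) fun s => uv (Sum.inl (e s)))
      fun s => uv (f' s)) := ⟨_, rfl⟩
  have hTl : ∀ (c c' : Ω) w w', T (c • w - c' • w') = c * T w - c' * T w' := by
    intro c c' w w'
    rw [hT]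
    exact kd_lin rr _ _ _ _ _ c c' w w'
  obtain ⟨I₀, hI⟩ : ∃ I₀, I₀ = (f 0).1 := ⟨_, rfl⟩
  obtain ⟨l₀, hl₀⟩ : ∃ l₀, l₀ = (f 0).2 := ⟨_, rfl⟩
  have hf0 : f = fun _ => (I₀, l₀) := by
    funext s
    rw [Subsingleton.elim s 0, hI, hl₀]
  have hpl : ∀ j l, pl x (fun l => T (sg V x i₀ (I₀, l))) j l = T (sg V x j (I₀, l)) := by
    intro j l
    unfold pl
    rw [← hTl]
    congr 1
    simp only [sg]
    rw [hf_comb x i₀ hx j l, mul_sub, map_sub, mul_smul_comm, mul_smul_comm, map_smul, map_smul]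
  have hne : T (sg V x i₀ (I₀, l₀)) ≠ 0 := by
    rw [hT, hV]
    rw [hf0] at hdt
    exact hdt
  refine line_mem_G hB hq x i₀ hx hF (fun l => T (sg V x i₀ (I₀, l))) ⟨i₀, l₀, ?_⟩ 1
    one_ne_zero (Fintype.card (σ ⊕ K0)) ?_
  · rw [hpl]
    exact hne
  intro O Δ hΔ m hm hxm j l
  rw [one_mul, hpl]
  by_cases h0 : T (sg V x j (I₀, l)) = 0
  · rw [h0, mul_zero]
    exact zero_mem O
  -- the span
  have hli : LinearIndependent Ω (Sum.elim (Sum.elim (fun _ : Fin 1 => pe x (ε0 Ω))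
          (fun p : Fin i × Fin 2 => bl V x i₀ (β p.1) p.2))
        (fun _ : Fin 1 => sg V x j (I₀, l))) := by
    have h1 : T (sg V x j (I₀, l)) ≠ 0 := h0
    rw [hT, hV] at h1
    have h2 := Matrix.linearIndependent_cols_of_det_ne_zero h1
    have h3 : LinearIndependent Ω (vv (T3 := Fin 1 ⊕ Fin p) (fun _ : Fin 1 => pe x (ε0 Ω))
        (fun p => bl (pv D x (g0 n σ Ω)) x i₀ (β p.1) p.2)
        (fun _ : Fin 1 => sg (pv D x (g0 n σ Ω)) x j (I₀, l)) Fin.elim0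
        (Sum.elim (fun _ => la (E := Ω) (pv D x (g0 n σ Ω)) i₀) fun s => uv (Sum.inl (e s)))
        fun s => uv (f' s)) := by
      refine LinearIndependent.of_comp (LinearMap.funLeft Ω Ω rr) ?_
      exact h2
    have h4 := h3.comp (fun s : (Fin 1 ⊕ (Fin i × Fin 2)) ⊕ Fin 1 =>
      (Sum.inl (Sum.inl (Sum.inl s)) : TT (Fin 1) (Fin i) (Fin 1) (Fin 0) (Fin 1 ⊕ Fin p)
        (Fin u))) (fun s s' h => Sum.inl.inj (Sum.inl.inj (Sum.inl.inj h)))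
    rw [hV]
    exact h4
  have hle : Submodule.span Ω (Set.range (Sum.elim (Sum.elim (fun _ : Fin 1 => pe x (ε0 Ω))
          (fun p : Fin i × Fin 2 => bl V x i₀ (β p.1) p.2))
        (fun _ : Fin 1 => sg V x j (I₀, l)))) ≤
      Submodule.span Ω (Set.range (Sum.elim (Sum.elim (fun _ : Fin 1 => pe x (ε0 Ω))
          (fun p : Fin i × Fin 2 => bl V x i₀ (β p.1) p.2))
        (fun _ : Fin 1 => sg V x i₀ (I₀, l₀)))) := by
    rw [Submodule.span_le]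
    rintro _ ⟨s | s, rfl⟩
    · exact Submodule.subset_span ⟨Sum.inl s, rfl⟩
    · have h5 := hspan (mo Ω (I₀ : Multiset σ) * hf x j l)
        (Ideal.mul_mem_left _ _ (Ideal.subset_span ⟨(j, l), rfl⟩))
      rw [hf0, ← hV] at h5
      exact h5
  have heq := Submodule.eq_of_le_of_finrank_le hle (by
    rw [finrank_span_eq_card hli]
    refine (finrank_range_le_card _).trans ?_
    exact le_rfl)
  have hJ : ∀ g ∈ Ipt x, cP (pv D x (g0 n σ Ω)) g ∈ Submodule.span Ω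
        ((Set.range fun _ : Fin 1 => pe x (ε0 Ω)) ∪
        (Set.range fun p : Fin i × Fin 2 => bl (pv D x (g0 n σ Ω)) x i₀ (β p.1) p.2) ∪
        Set.range fun _ : Fin 1 => sg (pv D x (g0 n σ Ω)) x j (I₀, l)) := by
    intro g hg
    have h5 := hspan g hg
    rw [hf0, ← hV, ← heq, hV] at h5
    rwa [Set.Sum.elim_range, Set.Sum.elim_range] at h5
  obtain ⟨N, hN, eq⟩ := g1_sj (locG0 (n := n) hΔ x m) hm hxm hx β (fun _ => j)
    (fun _ : Fin 1 => (I₀, l)) e f' rr hJ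
  have hxi : (x m)⁻¹ ∈ O := by
    have h1 := hxm i₀
    rw [hx, one_div] at h1
    exact h1
  obtain ⟨r, hr⟩ : ∃ r, n + 1 + p = r + (Fintype.card σ + i + 1) :=
    ⟨n + 1 + p - (Fintype.card σ + i + 1), by omega⟩
  have h6 : Δ ^ Fintype.card (σ ⊕ K0) * T (sg V x j (I₀, l)) = (x m)⁻¹ ^ r * N := by
    have h7 : x m ^ (n + 1 + p) ≠ 0 := pow_ne_zero _ hm
    refine mul_right_cancel₀ h7 ?_
    have h8 : Δ ^ Fintype.card (σ ⊕ K0) * T (sg V x j (I₀, l)) * x m ^ (n + 1 + p) =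
        x m ^ (Fintype.card σ + i + 1) * N := by
      rw [hT, hV]
      exact eq
    rw [h8, hr, pow_add (x m) r]
    have h9 : (x m)⁻¹ ^ r * x m ^ r = 1 := by
      rw [← mul_pow, inv_mul_cancel₀ hm, one_pow]
    calc x m ^ (Fintype.card σ + i + 1) * N = 1 * (x m ^ (Fintype.card σ + i + 1) * N) := by ring
      _ = ((x m)⁻¹ ^ r * x m ^ r) * (x m ^ (Fintype.card σ + i + 1) * N) := by rw [h9]
      _ = _ := by ring
  rw [h6]
  exact mul_mem (pow_mem hxi _) hN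

theorem cP_dv (D : Sym σ (n + 1) → Derivation ℤ Ω Ω) (x : σ → Ω) (f : MvPolynomial σ Ω) (l : σ) :
    cP (pv D x (g0 n σ Ω)) f (Sum.inl l) = dv D x f l := by
  have h1 := ka_comp (pv D x (g0 n σ Ω)) (LinearMap.funLeft Ω Ω (Sum.inl : σ → σ ⊕ K0)) f
  exact congrFun h1 l

theorem ev_ipt (x : σ → Ω) (f : MvPolynomial σ Ω) (hf : f ∈ Ipt x) : ev (n + 1) x f = 0 := by
  have h1 : ev (n + 1) x f ∈ (⊥ : Submodule Ω Ω) := by
    refine cP_ideal_mem _ _ n 1 rfl (fun p : σ × σ => Pool.Agent.Helper49.LN.hf x p.1 p.2)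
      (fun p => hf_hom x p.1 p.2) (fun p I => ?_) f hf
    rw [Submodule.mem_bot]
    have h2 := ev_mul n 1 x (mo Ω (I : Multiset σ)) _ (hf_hom x p.1 p.2)
    refine Eq.trans h2 ?_
    have h3 : eval x (Pool.Agent.Helper49.LN.hf x p.1 p.2) = 0 := by
      unfold Pool.Agent.Helper49.LN.hf
      simp only [smul_eq_C_mul, map_sub, map_mul, eval_C, eval_X]
      ring
    rw [h3, mul_zero]
  exact (Submodule.mem_bot Ω).1 h1

/-- two blocks -/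
theorem kd_two (D : Sym σ (n + 1) → Derivation ℤ Ω Ω) (x : σ → Ω) (i₀ : σ) {i t : ℕ}
    (hi : 2 ≤ i) (β : Fin i → (Sym σ n × Sym σ n) × (σ × σ)) (v : Fin t → σ ⊕ K0 → Ω)
    (hlin : LinearIndependent Ω (Sum.elim (Sum.elim (fun _ : Fin 1 => pe x (ε0 Ω))
      (fun p : Fin i × Fin 2 => bl (pv D x (g0 n σ Ω)) x i₀ (β p.1) p.2)) v)) :
    LinearIndependent Ω ![x,
      dv D x ((mo Ω ((β ⟨0, by omega⟩).1.1 : Multiset σ) +
        mo Ω ((β ⟨0, by omega⟩).1.2 : Multiset σ)) *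
        Pool.Agent.Helper49.LN.hf x i₀ (β ⟨0, by omega⟩).2.1),
      dv D x ((mo Ω ((β ⟨0, by omega⟩).1.1 : Multiset σ) +
        mo Ω ((β ⟨0, by omega⟩).1.2 : Multiset σ)) *
        Pool.Agent.Helper49.LN.hf x i₀ (β ⟨0, by omega⟩).2.2),
      dv D x ((mo Ω ((β ⟨1, by omega⟩).1.1 : Multiset σ) +
        mo Ω ((β ⟨1, by omega⟩).1.2 : Multiset σ)) *
        Pool.Agent.Helper49.LN.hf x i₀ (β ⟨1, by omega⟩).2.1),
      dv D x ((mo Ω ((β ⟨1, by omega⟩).1.1 : Multiset σ) +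
        mo Ω ((β ⟨1, by omega⟩).1.2 : Multiset σ)) *
        Pool.Agent.Helper49.LN.hf x i₀ (β ⟨1, by omega⟩).2.2)] := by
  obtain ⟨z, hz⟩ : ∃ z : Fin i, z = ⟨0, by omega⟩ := ⟨_, rfl⟩
  obtain ⟨z', hz'⟩ : ∃ z : Fin i, z = ⟨1, by omega⟩ := ⟨_, rfl⟩
  rw [← hz, ← hz']
  have hne : z ≠ z' := by
    rw [hz, hz']
    intro h
    exact absurd (congrArg Fin.val h) (by norm_num)
  have h1 := hlin.comp (fun s : Fin 5 => (![Sum.inl (Sum.inl 0), Sum.inl (Sum.inr (z, 0)),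
      Sum.inl (Sum.inr (z, 1)), Sum.inl (Sum.inr (z', 0)), Sum.inl (Sum.inr (z', 1))] s :
        (Fin 1 ⊕ (Fin i × Fin 2)) ⊕ Fin t)) (by
      intro s s' h
      have hne' : z' ≠ z := hne.symm
      fin_cases s <;> fin_cases s' <;> simp_all)
  have h2 : LinearMap.ker (LinearMap.funLeft Ω Ω (Sum.inl : σ → σ ⊕ K0)) = ⊥ := by
    rw [LinearMap.ker_eq_bot']
    intro v hv
    funext r
    rcases r with r | (r | r)
    · exact congrFun hv r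
    · exact r.elim0
    · exact r.elim0
  have h3 := h1.map' _ h2
  have h4 : (LinearMap.funLeft Ω Ω (Sum.inl : σ → σ ⊕ K0)) ∘
      (Sum.elim (Sum.elim (fun _ : Fin 1 => pe x (ε0 Ω))
        (fun p : Fin i × Fin 2 => bl (pv D x (g0 n σ Ω)) x i₀ (β p.1) p.2)) v ∘
      fun s : Fin 5 => (![Sum.inl (Sum.inl 0), Sum.inl (Sum.inr (z, 0)),
      Sum.inl (Sum.inr (z, 1)), Sum.inl (Sum.inr (z', 0)), Sum.inl (Sum.inr (z', 1))] s :
        (Fin 1 ⊕ (Fin i × Fin 2)) ⊕ Fin t)) =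
      ![x, dv D x ((mo Ω ((β z).1.1 : Multiset σ) + mo Ω ((β z).1.2 : Multiset σ)) *
        Pool.Agent.Helper49.LN.hf x i₀ (β z).2.1),
        dv D x ((mo Ω ((β z).1.1 : Multiset σ) + mo Ω ((β z).1.2 : Multiset σ)) *
        Pool.Agent.Helper49.LN.hf x i₀ (β z).2.2),
        dv D x ((mo Ω ((β z').1.1 : Multiset σ) + mo Ω ((β z').1.2 : Multiset σ)) *
        Pool.Agent.Helper49.LN.hf x i₀ (β z').2.1),
        dv D x ((mo Ω ((β z').1.1 : Multiset σ) + mo Ω ((β z').1.2 : Multiset σ)) *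
        Pool.Agent.Helper49.LN.hf x i₀ (β z').2.2)] := by
    funext s l
    fin_cases s
    · rfl
    · exact cP_dv D x _ l
    · exact cP_dv D x _ l
    · exact cP_dv D x _ l
    · exact cP_dv D x _ l
  rw [← h4]
  exact h3

/-- the remaining cases -/
theorem kd_cases (K q kw i t r : ℕ) (hnum : (K = 4 ∧ q = 5) ∨ (K = 5 ∧ q = 7) ∨
      (K = 6 ∧ q = 8) ∨ (K = 7 ∧ q = 10))
    (hit : 2 * i + t + 2 = kw) (hK : kw ≤ K) (hA : ¬ kw + i + t + 1 ≤ q) (hi1 : ¬ (K = 4 ∧ 1 ≤ i))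
    (hi2 : ¬ (K = 6 ∧ 2 ≤ i)) (ht : 2 ≤ t)
    (hT : ¬ ((K = 4 ∧ 4 ≤ r) ∨ (K = 5 ∧ 5 ≤ r) ∨ (K = 6 ∧ 6 ≤ r) ∨ (K = 7 ∧ 8 ≤ r)))
    (h3 : ¬ (K = 4 ∧ r = 3)) :
    (K = 4 ∧ q = 5 ∧ kw = 4 ∧ i = 0 ∧ t = 2 ∧ r ≤ 2) ∨
      (K = 5 ∧ q = 7 ∧ kw = 5 ∧ i = 0 ∧ t = 3 ∧ r ≤ 4) ∨
      (K = 6 ∧ q = 8 ∧ ((kw = 6 ∧ i = 0 ∧ t = 4) ∨ (kw = 6 ∧ i = 1 ∧ t = 2) ∨
        (kw = 5 ∧ i = 0 ∧ t = 3)) ∧ r ≤ 5) ∨
      (K = 7 ∧ q = 10 ∧ ((kw = 7 ∧ i = 1 ∧ t = 3) ∨ (kw = 7 ∧ i = 0 ∧ t = 5) ∨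
        (kw = 6 ∧ i = 0 ∧ t = 4)) ∧ r ≤ 7) := by
  rcases hnum with ⟨rfl, rfl⟩ | ⟨rfl, rfl⟩ | ⟨rfl, rfl⟩ | ⟨rfl, rfl⟩
  · have h0 : i = 0 := by
      by_contra h
      exact hi1 ⟨rfl, by omega⟩
    have h1 : r < 4 := by
      by_contra h
      exact hT (Or.inl ⟨rfl, by omega⟩)
    have h2 : r ≠ 3 := fun h => h3 ⟨rfl, h⟩
    exact Or.inl ⟨rfl, rfl, by omega, h0, by omega, by omega⟩
  · have h1 : r < 5 := by
      by_contra h
      exact hT (Or.inr (Or.inl ⟨rfl, by omega⟩))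
    exact Or.inr (Or.inl ⟨rfl, rfl, by omega, by omega, by omega, by omega⟩)
  · have h0 : i < 2 := by
      by_contra h
      exact hi2 ⟨rfl, by omega⟩
    have h1 : r < 6 := by
      by_contra h
      exact hT (Or.inr (Or.inr (Or.inl ⟨rfl, by omega⟩)))
    refine Or.inr (Or.inr (Or.inl ⟨rfl, rfl, ?_, by omega⟩))
    clear hT h3 hi1 hi2
    have h3 : 5 ≤ kw := by omega
    interval_cases kw <;> interval_cases i <;> omega
  · have h1 : r < 8 := by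
      by_contra h
      exact hT (Or.inr (Or.inr (Or.inr ⟨rfl, by omega⟩)))
    refine Or.inr (Or.inr (Or.inr ⟨rfl, rfl, ?_, by omega⟩))
    clear hT h3 hi1 hi2
    have h2 : i ≤ 1 := by omega
    have h3 : 6 ≤ kw := by omega
    interval_cases kw <;> interval_cases i <;> omega

theorem kd_ar1 (b T r : ℕ) (h : T ≤ r) : 3 + b + (T + 0 + 1) ≤ 3 + b + r + 1 := by omega

theorem kd_ar2 (b kw K : ℕ) (h : b + 3 + 4 ≤ kw + K) (h1 : kw ≤ K) (h2 : K = 4) : b ≤ 1 := by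
  omega

theorem kd_ar3 (K q : ℕ) (hnum : (K = 4 ∧ q = 5) ∨ (K = 5 ∧ q = 7) ∨ (K = 6 ∧ q = 8) ∨
    (K = 7 ∧ q = 10)) (h : K = 4) : q = 5 := by omega

theorem kd_ar4 (K q i p fr : ℕ) (hnum : (K = 4 ∧ q = 5) ∨ (K = 5 ∧ q = 7) ∨ (K = 6 ∧ q = 8) ∨
    (K = 7 ∧ q = 10)) (hi1 : ¬ (K = 4 ∧ 1 ≤ i)) (hit : 2 * i + 1 + 2 = fr) (hp : p + fr = K) :
    K + i + 1 ≤ q + p := by
  rcases hnum with ⟨rfl, rfl⟩ | ⟨rfl, rfl⟩ | ⟨rfl, rfl⟩ | ⟨rfl, rfl⟩ <;> omega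

theorem kd_ar5 (K q : ℕ) (hnum : (K = 4 ∧ q = 5) ∨ (K = 5 ∧ q = 7) ∨ (K = 6 ∧ q = 8) ∨
    (K = 7 ∧ q = 10)) : 2 * K ≤ q + 4 := by omega

/-- **The dichotomy.** -/
theorem key_dich [CharZero Ω] {D : Sym σ (n + 1) → Derivation ℤ Ω Ω} {a : Sym σ (n + 1) → Ω}
    {B : Subfield Ω} (hB : Frame D a B) (x : σ → Ω) (i₀ : σ)
    (hx : x i₀ = 1) (hF : form a x = 0)
    (hnum : (Fintype.card σ = 4 ∧ n + 1 = 5) ∨ (Fintype.card σ = 5 ∧ n + 1 = 7) ∨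
      (Fintype.card σ = 6 ∧ n + 1 = 8) ∨ (Fintype.card σ = 7 ∧ n + 1 = 10)) :
    (∀ l, x l ∈ B) ∨ (Fintype.card σ = 4 ∧ ∃ (I I' : Sym σ n) (j l : σ),
      LinearIndependent Ω ![x, dv D x ((mo Ω (I : Multiset σ) + mo Ω (I' : Multiset σ)) *
        Pool.Agent.Helper49.LN.hf x i₀ j), dv D x ((mo Ω (I : Multiset σ) +
          mo Ω (I' : Multiset σ)) * Pool.Agent.Helper49.LN.hf x i₀ l)]) ∨
      (Fintype.card σ = 6 ∧ ∃ (I I' J J' : Sym σ n) (j l j' l' : σ),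
      LinearIndependent Ω ![x, dv D x ((mo Ω (I : Multiset σ) + mo Ω (I' : Multiset σ)) *
        Pool.Agent.Helper49.LN.hf x i₀ j), dv D x ((mo Ω (I : Multiset σ) +
          mo Ω (I' : Multiset σ)) * Pool.Agent.Helper49.LN.hf x i₀ l),
        dv D x ((mo Ω (J : Multiset σ) + mo Ω (J' : Multiset σ)) *
        Pool.Agent.Helper49.LN.hf x i₀ j'), dv D x ((mo Ω (J : Multiset σ) +
          mo Ω (J' : Multiset σ)) * Pool.Agent.Helper49.LN.hf x i₀ l')]) := by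
  classical
  have hq4 : 2 * Fintype.card σ ≤ n + 1 + 4 := kd_ar5 _ _ hnum
  have hK0 : Fintype.card K0 = 0 := rfl
  obtain ⟨nn, hn1, hn2⟩ := dv_normal D a hB.dual (Nat.succ_pos n) x hF
  obtain ⟨lam, hlam⟩ : ∃ lam : (σ ⊕ K0 → Ω) →ₗ[Ω] Ω,
      lam = ∑ l, nn l • (LinearMap.proj (Sum.inl l) : (σ ⊕ K0 → Ω) →ₗ[Ω] Ω) := ⟨_, rfl⟩
  have hlam' : ∀ v, lam v = ∑ l, nn l * v (Sum.inl l) := by
    intro v
    rw [hlam, LinearMap.sum_apply]
    rfl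
  have hl0 : lam (pe x (ε0 Ω)) = 0 := by
    rw [hlam']
    exact hn1
  have hlc : ∀ f, lam (cP (pv D x (g0 n σ Ω)) f) = - ev (n + 1) x f := by
    intro f
    rw [hlam', ← hn2 f]
    unfold dt
    exact Finset.sum_congr rfl fun l _ => by rw [cP_dv]
  have hl1 : ∀ f ∈ Ipt x, lam (cP (pv D x (g0 n σ Ω)) f) = 0 := by
    intro f hf
    rw [hlc, ev_ipt x f hf, neg_zero]
  have hu : lam (la (E := Ω) (pv D x (g0 n σ Ω)) i₀) ≠ 0 := by
    unfold la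
    rw [hlc, neg_ne_zero]
    have h1 : ev (n + 1) x (X i₀ ^ (n + 1)) = eval x (X i₀ ^ (n + 1)) :=
      ev_hom _ _ _ (by
        have h2 := (isHomogeneous_X Ω i₀).pow (n + 1)
        rwa [one_mul] at h2)
    rw [h1, map_pow, eval_X, hx, one_pow]
    exact one_ne_zero
  have he0 : pe x (ε0 Ω) ≠ 0 := by
    intro h
    have h1 : pe x (ε0 Ω) (Sum.inl i₀) = 0 := by rw [h]; rfl
    have h2 : pe x (ε0 Ω) (Sum.inl i₀) = x i₀ := rfl
    rw [h2, hx] at h1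
    exact one_ne_zero h1
  obtain ⟨S, hSd⟩ : ∃ S, S = Submodule.span Ω (Set.range (col D x)) := ⟨_, rfl⟩
  have hS0 : (fun l => pe x (ε0 Ω) (Sum.inl l)) ∈ S := by
    rw [hSd]
    exact Submodule.subset_span ⟨none, rfl⟩
  have hSV : ∀ J, (fun l => pv D x (g0 n σ Ω) J (Sum.inl l)) ∈ S := by
    intro J
    rw [hSd]
    exact Submodule.subset_span ⟨some J, rfl⟩
  obtain ⟨i, t, β, f, hlin, hspan, hline⟩ := ex_point (pv D x (g0 n σ Ω)) (pe x (ε0 Ω)) he0 x i₀ hx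
  have hlin' := indep_right _ hlin (Fin.elim0 : Fin 0 → σ ⊕ K0 → Ω)
  obtain ⟨p, u, e, f', rr, hp, hdt⟩ := point_complete (pv D x (g0 n σ Ω)) (pe x (ε0 Ω)) x i₀ lam
    hl0 hl1 hu S hS0 hSV β _ (fun s => ⟨_, sg_mem x i₀ (f s), rfl⟩) _ (fun s => s.elim0) hlin'
  have hcard := Fintype.card_congr rr
  simp only [Fintype.card_sum, Fintype.card_prod, Fintype.card_fin] at hcard
  have hrank := kd_rank D x i₀ hx _ hspan (Submodule.subset_span ⟨Sum.inl (Sum.inl 0), rfl⟩)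
  simp only [Fintype.card_sum, Fintype.card_prod, Fintype.card_fin] at hrank
  rw [← hSd] at hrank
  have hit : 2 * i + t + 2 = Module.finrank Ω S := by omega
  have hSK : Module.finrank Ω S ≤ Fintype.card σ := by omega
  obtain ⟨kw, hkw⟩ : ∃ kw, kw = Module.finrank Ω S := ⟨_, rfl⟩
  have hxi : ∀ (O : ValuationSubring Ω) (m : σ), (∀ l, xt x m l ∈ O) → (x m)⁻¹ ∈ O := by
    intro O m hxm
    have h1 := hxm i₀
    unfold xt at h1
    rwa [hx, one_div] at h1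
  by_cases hA : kw + i + t + 1 ≤ n + 1
  · left
    refine kd_mem hB x i₀ hx _ hdt (Fintype.card (σ ⊕ K0)) ?_
    intro O Δ m hΔ hm hxm
    have hl := hxi O m hxm
    obtain ⟨N, hN, eq⟩ := g1_det (locG0 (n := n) hΔ x m) hm hxm hx β f e f' rr (by
      intro q hq
      have h1 := hspan q hq
      rw [Set.Sum.elim_range, Set.Sum.elim_range] at h1
      exact h1)
    rw [add_assoc (Fintype.card σ) i t] at eq
    have h2 := ka_w _ _ _ hm (n + 1) p (Fintype.card σ) (Module.finrank Ω S) kw (i + t) eq hp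
      hkw.ge
    rw [← add_assoc] at h2
    have h3 := ka_easy O _ (x m) Δ kw i t (n + 1) _ hA hm hl
      ⟨_, mul_mem (pow_mem hl _) hN, h2⟩
    rw [← mul_assoc]
    exact h3
  by_cases hi1 : Fintype.card σ = 4 ∧ 1 ≤ i
  · -- blocks of quintic surfaces
    right; left
    refine ⟨hi1.1, (β ⟨0, hi1.2⟩).1.1, (β ⟨0, hi1.2⟩).1.2, (β ⟨0, hi1.2⟩).2.1,
      (β ⟨0, hi1.2⟩).2.2, ?_⟩
    have h1 := hlin.comp (fun s : Fin 3 => (![Sum.inl (Sum.inl 0), Sum.inl (Sum.inr (⟨0, hi1.2⟩, 0)),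
      Sum.inl (Sum.inr (⟨0, hi1.2⟩, 1))] s : (Fin 1 ⊕ (Fin i × Fin 2)) ⊕ Fin t)) (by
      intro s s' h
      fin_cases s <;> fin_cases s' <;> simp_all)
    have h2 : LinearMap.ker (LinearMap.funLeft Ω Ω (Sum.inl : σ → σ ⊕ K0)) = ⊥ := by
      rw [LinearMap.ker_eq_bot']
      intro v hv
      funext r
      rcases r with r | (r | r)
      · exact congrFun hv r
      · exact r.elim0
      · exact r.elim0
    have h3 := h1.map' _ h2
    have h4 : (LinearMap.funLeft Ω Ω (Sum.inl : σ → σ ⊕ K0)) ∘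
        (Sum.elim (Sum.elim (fun _ : Fin 1 => pe x (ε0 Ω))
          (fun p : Fin i × Fin 2 => bl (pv D x (g0 n σ Ω)) x i₀ (β p.1) p.2))
          (fun s => sg (pv D x (g0 n σ Ω)) x i₀ (f s)) ∘
        fun s : Fin 3 => (![Sum.inl (Sum.inl 0), Sum.inl (Sum.inr (⟨0, hi1.2⟩, 0)),
          Sum.inl (Sum.inr (⟨0, hi1.2⟩, 1))] s : (Fin 1 ⊕ (Fin i × Fin 2)) ⊕ Fin t)) =
        ![x, dv D x ((mo Ω ((β ⟨0, hi1.2⟩).1.1 : Multiset σ) +
          mo Ω ((β ⟨0, hi1.2⟩).1.2 : Multiset σ)) *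
          Pool.Agent.Helper49.LN.hf x i₀ (β ⟨0, hi1.2⟩).2.1),
          dv D x ((mo Ω ((β ⟨0, hi1.2⟩).1.1 : Multiset σ) +
          mo Ω ((β ⟨0, hi1.2⟩).1.2 : Multiset σ)) *
          Pool.Agent.Helper49.LN.hf x i₀ (β ⟨0, hi1.2⟩).2.2)] := by
      funext s l
      fin_cases s
      · rfl
      · exact cP_dv D x _ l
      · exact cP_dv D x _ l
    rw [← h4]
    exact h3
  by_cases hi2 : Fintype.card σ = 6 ∧ 2 ≤ i
  · -- blocks of octic fourfolds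
    right; right
    exact ⟨hi2.1, _, _, _, _, _, _, _, _, kd_two D x i₀ hi2.2 β _ hlin⟩
  left
  by_cases ht1 : t = 1
  · subst ht1
    exact kd_t1 hB hq4 x i₀ hx hF β f e f' rr hdt hspan
      (kd_ar4 _ _ i p _ hnum hi1 hit hp)
  have ht : 2 ≤ t := by omega
  obtain ⟨y, b₀, ha, hI⟩ := hline ht
  -- the fan
  obtain ⟨K, hK, -, hlinK, hspanK⟩ := ex_fan (pv D x (g0 n σ Ω)) _ f x y i₀ b₀ hx ha hlin hspan hI
  have hlinK' := indep_mid _ _ hlinK (Fin.elim0 : Fin 0 → σ ⊕ K0 → Ω)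
  obtain ⟨p₁, u₁, e₁, f₁, rr₁, hp₁, hdt₁⟩ := point_complete (pv D x (g0 n σ Ω)) (pe x (ε0 Ω)) x i₀
    lam hl0 hl1 hu S hS0 hSV β _ (fun s => s.elim0) _ (fun s => ⟨_, fn_mem x i₀ b₀ (K s), rfl⟩)
    hlinK'
  -- the flag
  have hcomp : ∀ q : MvPolynomial σ Ω, fp (cP (fv D x y (g0 n σ Ω)) q) =
      cP (pv D x (g0 n σ Ω)) q := by
    intro q
    have h1 : (fun J => fp (fv D x y (g0 n σ Ω) J)) = pv D x (g0 n σ Ω) :=
      funext fun J => fp_fv D x y (g0 n σ Ω) J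
    rw [ka_comp, h1]
  obtain ⟨b, r, t', f₂, K₂, f₂', rr₂, hK₂, -, hdt₂, hI₂, hJ₂, hd1, hd2, hd3, hc2⟩ :=
    ex_flag (fv D x y (g0 n σ Ω)) x y (ε0 Ω) i₀ b₀ hx ha (lam.comp fp) (by
      intro s
      fin_cases s
      · show lam (fp (tr 0 x 0)) = 0
        rw [fp_tr]
        have : (Sum.elim (0 : σ → Ω) (0 : K0 → Ω)) = 0 := by
          funext r
          rcases r with l | k <;> rfl
        rw [this, map_zero]
      · show lam (fp (tr x 0 (ε0 Ω))) = 0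
        rw [fp_tr]
        exact hl0
      · show lam (fp (tr 0 y 0)) = 0
        rw [fp_tr]
        have : (Sum.elim (0 : σ → Ω) (0 : K0 → Ω)) = 0 := by
          funext r
          rcases r with l | k <;> rfl
        rw [this, map_zero]) (by
      intro q hq
      show lam (fp (cP (fv D x y (g0 n σ Ω)) q)) = 0
      rw [hcomp]
      exact hl1 q hq) (by
      show lam (fp (cP (fv D x y (g0 n σ Ω)) _)) ≠ 0
      rw [hcomp]
      exact hu)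
  have hrk := rk4 D x y (g0 n σ Ω) (ε0 Ω)
  rw [← hSd, hK0] at hrk
  have hbr : b + r + 4 ≤ kw + Fintype.card σ := by omega
  -- the line moves
  by_cases hT : (Fintype.card σ = 4 ∧ 4 ≤ r) ∨ (Fintype.card σ = 5 ∧ 5 ≤ r) ∨
      (Fintype.card σ = 6 ∧ 6 ≤ r) ∨ (Fintype.card σ = 7 ∧ 8 ≤ r)
  · obtain ⟨T, hT1, hT2⟩ : ∃ T, T ≤ r ∧ 6 * Fintype.card σ + 2 * Fintype.card (Fin 0) ≤
        T * (T + 1) + 6 := by
      rw [Fintype.card_fin]
      rcases hT with ⟨h1, h2⟩ | ⟨h1, h2⟩ | ⟨h1, h2⟩ | ⟨h1, h2⟩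
      · exact ⟨4, h2, by rw [h1]; norm_num⟩
      · exact ⟨5, h2, by rw [h1]; norm_num⟩
      · exact ⟨6, h2, by rw [h1]; norm_num⟩
      · exact ⟨8, h2, by rw [h1]; norm_num⟩
    have hmv : Moves T D (fun (j : Fin 0) _ => j.elim0) ![x, y] := by
      refine moves_of_flag (z := Fin 0) T D (fun (j : Fin 0) _ => j.elim0) x y (g0 n σ Ω)
        (fun _ j => j.elim0) (ε0 Ω) (fun j => j.elim0) ?_
      rw [hd1, Fintype.card_fin]
      exact (kd_ar1 b T r hT1).trans hd3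
    obtain ⟨G, hG, hKL⟩ := Pool.Agent.Helper74.LN.k2 D (fun (j : Fin 0) _ => j.elim0) ![x, y]
      ⟨i₀, b₀, ha⟩ T hmv hT2
    exact line_mem_G hB hq4 x i₀ hx hF y ⟨i₀, b₀, ha⟩ G hG _ fun O Δ hΔ m _ _ j l =>
      hKL O Δ hΔ (fun j => j.elim0) j l
  by_cases h3 : Fintype.card σ = 4 ∧ r = 3
  · -- the special case
    obtain ⟨h31, rfl⟩ := h3
    obtain ⟨G₂, hG₂⟩ : ∃ G₂, G₂ = Pool.Agent.Helper49.LN.dt rr₂ (vv (b3 x y (ε0 Ω)) (vb0 _)
        (fun s => lv (fv D x y (g0 n σ Ω)) (pl x y) (f₂ s))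
        (fun s => fn (fv D x y (g0 n σ Ω)) x i₀ b₀ (K₂ s))
        (fun _ => la (E := Ω) (fv D x y (g0 n σ Ω)) i₀) fun s => kv x y (f₂' s)) := ⟨_, rfl⟩
    rw [← hG₂] at hdt₂
    refine line_mem_G hB hq4 x i₀ hx hF y ⟨i₀, b₀, ha⟩
      (G₂ / pl x y i₀ b₀ ^ (4 + b))
      (div_ne_zero hdt₂ (pow_ne_zero _ ha)) (Fintype.card ((σ ⊕ σ) ⊕ K0)) ?_
    intro O Δ hΔ m hm hxm j' l'
    obtain ⟨j, hL⟩ := exists_j O x y i₀ b₀ ha m hm hxm
    have hδ : pl x y i₀ b₀ / pl x y m j = pl (xt x m) (yt x y m j) i₀ b₀ := by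
      rw [hL.pl_eq i₀ b₀, mul_div_cancel_left₀ _ hL.hρ]
    have hδ' : pl x y j' l' / pl x y m j = pl (xt x m) (yt x y m j) j' l' := by
      rw [hL.pl_eq j' l', mul_div_cancel_left₀ _ hL.hρ]
    obtain ⟨N₂, hN₂, eq₂⟩ := g2_det (locG0 (n := n) hΔ x m) hL i₀ b₀ hx ha f₂ K₂ hK₂ f₂' rr₂
      hI₂ hJ₂
    rw [← hG₂] at eq₂
    refine kd_ln b (kd_ar2 b kw _ hbr (by rw [hkw]; exact hSK) h31) O _ (x m) (pl x y m j) Δ (pl x y i₀ b₀) (pl x y j' l') _ hm hL.hρ ha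
      (by rw [hδ]; exact hL.pl_mem i₀ b₀) (by rw [hδ']; exact hL.pl_mem j' l') ⟨N₂, hN₂, ?_⟩
    rw [hδ]
    have h4 : n + 1 = 5 := kd_ar3 _ _ hnum h31
    rw [h31, h4] at eq₂
    rw [mul_assoc (Δ ^ _ * _)]
    exact eq₂
  -- the numbers
  obtain ⟨B', C, m', s, e1, e2, e3⟩ := kd_num (Fintype.card σ) kw (n + 1) i t b r
    (kd_cases _ _ kw i t r hnum (by rw [hit, hkw]) (by rw [hkw]; exact hSK) hA hi1 hi2 ht hT h3) hbr
  obtain ⟨G₂, hG₂⟩ : ∃ G₂, G₂ = Pool.Agent.Helper49.LN.dt rr₂ (vv (b3 x y (ε0 Ω)) (vb0 _)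
      (fun s => lv (fv D x y (g0 n σ Ω)) (pl x y) (f₂ s))
      (fun s => fn (fv D x y (g0 n σ Ω)) x i₀ b₀ (K₂ s))
      (fun _ => la (E := Ω) (fv D x y (g0 n σ Ω)) i₀) fun s => kv x y (f₂' s)) := ⟨_, rfl⟩
  obtain ⟨G₁, hG₁⟩ : ∃ G₁, G₁ = Pool.Agent.Helper49.LN.dt rr₁ (vv (fun _ => pe x (ε0 Ω))
      (fun p => bl (pv D x (g0 n σ Ω)) x i₀ (β p.1) p.2) Fin.elim0
      (fun s => fn (pv D x (g0 n σ Ω)) x i₀ b₀ (K s))
      (Sum.elim (fun _ => la (E := Ω) (pv D x (g0 n σ Ω)) i₀) fun s => uv (Sum.inl (e₁ s)))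
      fun s => uv (f₁ s)) := ⟨_, rfl⟩
  have hdt₁' : G₁ ≠ 0 := by
    rw [hG₁]
    exact hdt₁
  rw [← hG₂] at hdt₂
  refine kd_mem hB x i₀ hx (G₁ ^ B' * G₂ ^ C / pl x y i₀ b₀ ^ m')
    (div_ne_zero (mul_ne_zero (pow_ne_zero _ hdt₁') (pow_ne_zero _ hdt₂)) (pow_ne_zero _ ha))
    (B' * Fintype.card (σ ⊕ K0) + C * Fintype.card ((σ ⊕ σ) ⊕ K0)) ?_
  intro O Δ m hΔ hm hxm
  have hl := hxi O m hxm
  obtain ⟨j, hL⟩ := exists_j O x y i₀ b₀ ha m hm hxm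
  have hδ : pl x y i₀ b₀ / pl x y m j = pl (xt x m) (yt x y m j) i₀ b₀ := by
    rw [hL.pl_eq i₀ b₀, mul_div_cancel_left₀ _ hL.hρ]
  obtain ⟨N₁, hN₁, eq₁⟩ := g1_fan (locG0 (n := n) hΔ x m) hL hx ha β K hK e₁ f₁ rr₁ (by
    intro q hq
    have h1 := hI q hq
    rw [Set.Sum.elim_range] at h1
    exact h1) (by
    intro q hq
    have h1 := hspanK q hq
    rw [Set.Sum.elim_range, Set.Sum.elim_range] at h1
    exact h1)
  obtain ⟨N₂, hN₂, eq₂⟩ := g2_det (locG0 (n := n) hΔ x m) hL i₀ b₀ hx ha f₂ K₂ hK₂ f₂' rr₂ hI₂ hJ₂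
  rw [← hG₁, add_assoc (Fintype.card σ) i t, mul_assoc (x m ^ _)] at eq₁
  rw [← hG₂] at eq₂
  have h2 := ka_w _ _ _ hm (n + 1) p₁ (Fintype.card σ) (Module.finrank Ω S) kw (i + t)
    eq₁ hp₁ hkw.ge
  rw [← add_assoc] at h2
  have h6 : Δ ^ Fintype.card (σ ⊕ K0) * G₁ * x m ^ (n + 1) = x m ^ (kw + i + t) *
      (pl x y i₀ b₀ / pl x y m j) ^ (t * (t + 1) / 2) *
        ((x m)⁻¹ ^ (kw - Module.finrank Ω S) * N₁) := by
    rw [h2, hδ]
    ring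
  have h7 : Δ ^ Fintype.card ((σ ⊕ σ) ⊕ K0) * G₂ * x m ^ (n + 1) * pl x y m j =
      x m ^ (2 + r) * pl x y m j ^ (Fintype.card σ + b) *
        (pl x y i₀ b₀ / pl x y m j) ^ (r * (r + 1) / 2) * N₂ := by
    rw [hδ, ← eq₂]
    ring
  have h8 := kd_pt (Fintype.card σ) kw (n + 1) i t b r B' C m' s e1 e2 e3 O G₁ G₂ (x m)
    (pl x y m j) Δ (pl x y i₀ b₀) (Fintype.card (σ ⊕ K0)) (Fintype.card ((σ ⊕ σ) ⊕ K0)) hm hL.hρ
    ha (by rw [hδ]; exact hL.pl_mem i₀ b₀) hl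
    ⟨_, mul_mem (pow_mem hl _) hN₁, h6⟩ ⟨_, hN₂, h7⟩
  rw [← mul_assoc]
  exact h8

end

end Pool.Agent.Helper6.QS
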