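import Pool.Agent.Helper6.QS.Bas

/-!
# QS-PT3: a second rational point

`z` is rational and not proportional to `x`, and `θ(D_f x) = 0` for all `f` vanishing at `x` and `z`,
`θ . x = 0`, `θ` not proportional to `n`. For such `f` the vector `D_f x` lies in the two-dimensional
space `Y = n^⊥ ∩ θ^⊥`, which contains `x`. Let `m_jl` be one of the linear forms
`t ↦ det of (x, z, t) in the rows a, b, c`; they span the linear forms vanishing at `x` and `z`, so
for some rows and some monomial `P` of degree 4 the vector `D_(m P) x` is not proportional to `x`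
(from `hne`). For `f0` vanishing at `z`, not at `x`,
`w = x ∧ D_(m P) x ∧ D_(f0) x / f0(x)` (3 x 3 minors) does not depend on `f0` (if `f0, f0'` are two
such forms, `f0(x) f0' - f0'(x) f0` vanishes at `x` and `z`, so its derivative is in `Y`), and is
not zero (`n . D_(f0) x = - f0(x) ≠ 0`). It has weight `-1`: at a valuation ring with maximal
coordinate `m`, `x' = x / x_m`, let `p = x'_j z_l - x'_l z_j` be the maximal Plücker coordinate; use
`f0 = (x_j... )` i.e. `f0 = (z_l X_j - z_j X_l) X_m^4`, `f0(x) = x_m^5 p`, and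
`m_abc = x_m p m''` with `m''` integral (up to `Δ`): `w = x_m^(3 + 1 - 5) x' ∧ D_(m'' P) x' ∧
D_(f0) x'`. So `Δ^M w x_m ∈ O` and `rat_pt` applies to a nonzero coordinate of `w`.
-/

set_option autoImplicit false

namespace Pool.Agent.Helper6.QS

open scoped BigOperators
open MvPolynomial
open Pool.Agent.Helper8.LG (Bdd form mon)
open Pool.Agent.Helper49.LN (cP mo hf pl)

section

variable {Ω : Type*} [Field Ω]

/-- the `3 x 3` minors of three vectors -/
def pt3M (u v w : Fin 4 → Ω) (a b c : Fin 4) : Ω :=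
  u a * (v b * w c - v c * w b) - u b * (v a * w c - v c * w a) + u c * (v a * w b - v b * w a)

/-- the coefficients of the linear forms of the line through `x` and `z` -/
def pt3e (x z : Fin 4 → Ω) (a b c : Fin 4) (i : Fin 4) : Ω :=
  pl x z a b * (if i = c then 1 else 0) - pl x z a c * (if i = b then 1 else 0) +
    pl x z b c * (if i = a then 1 else 0)

/-- the coefficients of the linear form `z_l X_j - z_j X_l` -/
def pt3r (z : Fin 4 → Ω) (j l : Fin 4) (i : Fin 4) : Ω :=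
  z l * (if i = j then 1 else 0) - z j * (if i = l then 1 else 0)

theorem pt3_dt4 (u v : Fin 4 → Ω) :
    dt u v = u 0 * v 0 + u 1 * v 1 + u 2 * v 2 + u 3 * v 3 := by
  unfold dt
  rw [Fin.sum_univ_four]

theorem pt3_dt_e (x z t : Fin 4 → Ω) (a b c : Fin 4) : dt (pt3e x z a b c) t =
    pt3M x z t a b c := by
  have h : ∀ (c : Fin 4) (r : Ω), ∑ i, r * (if i = c then (1 : Ω) else 0) * t i = r * t c := by
    intro c r
    rw [Finset.sum_eq_single c]
    · rw [if_pos rfl, mul_one]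
    · intro i _ hi
      rw [if_neg hi, mul_zero, zero_mul]
    · intro hc
      exact absurd (Finset.mem_univ c) hc
  unfold dt pt3e
  simp only [add_mul, sub_mul, Finset.sum_add_distrib, Finset.sum_sub_distrib, h]
  unfold pt3M pl
  ring

theorem pt3_dt_r (z t : Fin 4 → Ω) (j l : Fin 4) : dt (pt3r z j l) t = pl t z j l := by
  have h : ∀ (c : Fin 4) (r : Ω), ∑ i, r * (if i = c then (1 : Ω) else 0) * t i = r * t c := by
    intro c r
    rw [Finset.sum_eq_single c]
    · rw [if_pos rfl, mul_one]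
    · intro i _ hi
      rw [if_neg hi, mul_zero, zero_mul]
    · intro hc
      exact absurd (Finset.mem_univ c) hc
  unfold dt pt3r
  simp only [sub_mul, Finset.sum_sub_distrib, h]
  unfold pl
  ring

/-- contraction -/
theorem pt3_contr (x y t n : Fin 4 → Ω) (a b : Fin 4) (h1 : dt n x = 0) (h2 : dt n y = 0) :
    n 0 * pt3M x y t a b 0 + n 1 * pt3M x y t a b 1 + n 2 * pt3M x y t a b 2 +
      n 3 * pt3M x y t a b 3 = dt n t * pl x y a b := by
  rw [pt3_dt4] at h1 h2 ⊢
  unfold pt3M pl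
  linear_combination (y a * t b - y b * t a) * h1 - (x a * t b - x b * t a) * h2

/-- three vectors orthogonal to two independent vectors -/
theorem pt3_zero (x y t n θ : Fin 4 → Ω) (h1 : dt n x = 0) (h2 : dt n y = 0) (h3 : dt n t = 0)
    (k1 : dt θ x = 0) (k2 : dt θ y = 0) (k3 : dt θ t = 0) (hn : n ≠ 0)
    (hθ : ¬ ∃ c : Ω, θ = c • n) (a b c : Fin 4) : pt3M x y t a b c = 0 := by
  -- the cross product
  obtain ⟨w, hw⟩ : ∃ w : Fin 4 → Ω, w = ![pt3M x y t 1 2 3, - pt3M x y t 0 2 3,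
    pt3M x y t 0 1 3, - pt3M x y t 0 1 2] := ⟨_, rfl⟩
  have w0 : w 0 = pt3M x y t 1 2 3 := by rw [hw]; rfl
  have w1 : w 1 = - pt3M x y t 0 2 3 := by rw [hw]; rfl
  have w2 : w 2 = pt3M x y t 0 1 3 := by rw [hw]; rfl
  have w3 : w 3 = - pt3M x y t 0 1 2 := by rw [hw]; rfl
  have key : ∀ m : Fin 4 → Ω, dt m x = 0 → dt m y = 0 → dt m t = 0 →
      ∀ i j, m i * w j = m j * w i := by
    intro m e1 e2 e3
    have c01 := pt3_contr x y t m 0 1 e1 e2
    have c02 := pt3_contr x y t m 0 2 e1 e2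
    have c03 := pt3_contr x y t m 0 3 e1 e2
    have c12 := pt3_contr x y t m 1 2 e1 e2
    have c13 := pt3_contr x y t m 1 3 e1 e2
    have c23 := pt3_contr x y t m 2 3 e1 e2
    rw [e3, zero_mul] at c01 c02 c03 c12 c13 c23
    have d01 : m 2 * w 3 = m 3 * w 2 := by
      rw [w2, w3]
      unfold pt3M at c01 ⊢
      linear_combination - c01
    have d02 : m 1 * w 3 = m 3 * w 1 := by
      rw [w1, w3]
      unfold pt3M at c02 ⊢
      linear_combination c02
    have d03 : m 1 * w 2 = m 2 * w 1 := by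
      rw [w1, w2]
      unfold pt3M at c03 ⊢
      linear_combination - c03
    have d12 : m 0 * w 3 = m 3 * w 0 := by
      rw [w0, w3]
      unfold pt3M at c12 ⊢
      linear_combination - c12
    have d13 : m 0 * w 2 = m 2 * w 0 := by
      rw [w0, w2]
      unfold pt3M at c13 ⊢
      linear_combination c13
    have d23 : m 0 * w 1 = m 1 * w 0 := by
      rw [w0, w1]
      unfold pt3M at c23 ⊢
      linear_combination - c23
    intro i j
    fin_cases i <;> fin_cases j
    · rfl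
    · exact d23
    · exact d13
    · exact d12
    · exact d23.symm
    · rfl
    · exact d03
    · exact d02
    · exact d13.symm
    · exact d03.symm
    · rfl
    · exact d01
    · exact d12.symm
    · exact d02.symm
    · exact d01.symm
    · rfl
  have hw0 : ∀ k, w k = 0 := by
    by_contra hcon
    push Not at hcon
    obtain ⟨k, hk⟩ := hcon
    have en : ∀ i, n i = n k / w k * w i := by
      intro i
      rw [div_mul_eq_mul_div, eq_div_iff hk]
      exact key n h1 h2 h3 i k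
    have eθ : ∀ i, θ i = θ k / w k * w i := by
      intro i
      rw [div_mul_eq_mul_div, eq_div_iff hk]
      exact key θ k1 k2 k3 i k
    have hnk : n k ≠ 0 := by
      intro h
      apply hn
      funext i
      rw [en i, h, zero_div, zero_mul]
      rfl
    apply hθ
    refine ⟨θ k / n k, ?_⟩
    funext i
    rw [Pi.smul_apply, smul_eq_mul, en i, eθ i]
    field_simp
  have m0 : pt3M x y t 1 2 3 = 0 := by rw [← w0]; exact hw0 0
  have m1 : pt3M x y t 0 2 3 = 0 := by rw [← neg_eq_zero, ← w1]; exact hw0 1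
  have m2 : pt3M x y t 0 1 3 = 0 := by rw [← w2]; exact hw0 2
  have m3 : pt3M x y t 0 1 2 = 0 := by rw [← neg_eq_zero, ← w3]; exact hw0 3
  have perm : ∀ a b c, pt3M x y t a b c = 0 → pt3M x y t a c b = 0 ∧ pt3M x y t b a c = 0 ∧
      pt3M x y t b c a = 0 ∧ pt3M x y t c a b = 0 ∧ pt3M x y t c b a = 0 := by
    intro a b c h
    unfold pt3M at h ⊢
    refine ⟨?_, ?_, ?_, ?_, ?_⟩
    · linear_combination - h
    · linear_combination - h
    · linear_combination h
    · linear_combination h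
    · linear_combination - h
  have z1 : ∀ a b, pt3M x y t a a b = 0 := by
    intro a b
    unfold pt3M
    ring
  have z2 : ∀ a b, pt3M x y t b a a = 0 := by
    intro a b
    unfold pt3M
    ring
  have z3 : ∀ a b, pt3M x y t a b a = 0 := by
    intro a b
    unfold pt3M
    ring
  obtain ⟨p0, q0, r0, s0, t0⟩ := perm _ _ _ m0
  obtain ⟨p1, q1, r1, s1, t1⟩ := perm _ _ _ m1
  obtain ⟨p2, q2, r2, s2, t2⟩ := perm _ _ _ m2
  obtain ⟨p3, q3, r3, s3, t3⟩ := perm _ _ _ m3
  generalize pt3M x y t = M at *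
  fin_cases a <;> fin_cases b <;> fin_cases c <;>
    simp only [Fin.zero_eta, Fin.mk_one, Fin.reduceFinMk] <;>
    first
    | assumption
    | exact z1 _ _
    | exact z2 _ _
    | exact z3 _ _

/-- a vector outside of the hyperplane -/
theorem pt3_ne (x y t n : Fin 4 → Ω) (hx : x 0 = 1) (h1 : dt n x = 0) (h2 : dt n y = 0)
    (h3 : dt n t ≠ 0) (hy : ¬ Par x y) : ∃ a b c, pt3M x y t a b c ≠ 0 := by
  by_contra hcon
  push Not at hcon
  apply hy
  have h4 : ∀ a b, pl x y a b = 0 := by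
    intro a b
    have h5 := pt3_contr x y t n a b h1 h2
    rw [hcon, hcon, hcon, hcon] at h5
    simp only [mul_zero, add_zero] at h5
    exact (mul_eq_zero.1 h5.symm).resolve_left h3
  refine ⟨y 0, ?_⟩
  funext i
  have h5 := h4 0 i
  unfold pl at h5
  rw [hx] at h5
  rw [Pi.smul_apply, smul_eq_mul]
  linear_combination h5

theorem pt3_M_smul (u v w : Fin 4 → Ω) (r s : Ω) (a b c : Fin 4) :
    pt3M u (r • v) (s • w) a b c = r * s * pt3M u v w a b c := by
  unfold pt3M
  simp only [Pi.smul_apply, smul_eq_mul]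
  ring

theorem pt3_M_scale (x v w : Fin 4 → Ω) (m : Fin 4) (hm : x m ≠ 0) (r s : Ω) (a b c : Fin 4) :
    pt3M x (x m • v + r • x) (x m • w + s • x) a b c =
      x m ^ 3 * pt3M (fun l => x l / x m) v w a b c := by
  have h : ∀ l, x l = x m * (x l / x m) := fun l => by
    rw [mul_comm, div_mul_cancel₀ _ hm]
  have e : pt3M (fun l => x l / x m) v w a b c =
      x a / x m * (v b * w c - v c * w b) - x b / x m * (v a * w c - v c * w a) +
        x c / x m * (v a * w b - v b * w a) := rfl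
  rw [e]
  unfold pt3M
  simp only [Pi.smul_apply, Pi.add_apply, smul_eq_mul]
  field_simp
  ring

theorem pt3_lf_smul (c : Ω) (l : Fin 4 → Ω) : lf (c • l) = c • lf l := by
  unfold lf
  rw [Finset.smul_sum]
  refine Finset.sum_congr rfl fun i _ => ?_
  rw [Pi.smul_apply, smul_eq_mul, mul_smul]

theorem pt3_lf_add (l l' : Fin 4 → Ω) : lf (l + l') = lf l + lf l' := by
  unfold lf
  rw [← Finset.sum_add_distrib]
  refine Finset.sum_congr rfl fun i _ => ?_
  rw [Pi.add_apply, add_smul]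

theorem pt3_par_add {x u v : Fin 4 → Ω} (hu : Par x u) (hv : Par x v) : Par x (u + v) := by
  obtain ⟨c, rfl⟩ := hu
  obtain ⟨d, rfl⟩ := hv
  exact ⟨c + d, (add_smul _ _ _).symm⟩

theorem pt3_par_smul {x u : Fin 4 → Ω} (hu : Par x u) (r : Ω) : Par x (r • u) := by
  obtain ⟨c, rfl⟩ := hu
  exact ⟨r * c, (smul_smul _ _ _)⟩

theorem pt3_par_sum {ι : Type*} (s : Finset ι) {x : Fin 4 → Ω} (u : ι → Fin 4 → Ω)
    (hu : ∀ i ∈ s, Par x (u i)) : Par x (∑ i ∈ s, u i) := by
  classical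
  induction s using Finset.induction_on with
  | empty => exact ⟨0, by simp⟩
  | insert a s ha ih =>
    rw [Finset.sum_insert ha]
    exact pt3_par_add (hu a (Finset.mem_insert_self _ _))
      (ih fun i hi => hu i (Finset.mem_insert_of_mem hi))

/-- a linear form vanishing on the line as a combination of the `pt3e` -/
theorem pt3_span (x z m : Fin 4 → Ω) (a b : Fin 4) (h1 : dt m x = 0) (h2 : dt m z = 0) :
    pl x z a b • m = m 0 • pt3e x z a b 0 + m 1 • pt3e x z a b 1 + m 2 • pt3e x z a b 2 +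
      m 3 • pt3e x z a b 3 := by
  have hs : ∀ (u : Fin 4 → Ω) (i : Fin 4), dt u (Pi.single i 1) = u i := by
    intro u i
    unfold dt
    rw [Finset.sum_eq_single i]
    · rw [Pi.single_eq_same, mul_one]
    · intro j _ hj
      rw [Pi.single_eq_of_ne hj, mul_zero]
    · intro hc
      exact absurd (Finset.mem_univ i) hc
  funext i
  have h3 := pt3_contr x z (Pi.single i 1) m a b h1 h2
  rw [← pt3_dt_e, ← pt3_dt_e, ← pt3_dt_e, ← pt3_dt_e, hs, hs, hs, hs, hs] at h3
  simp only [Pi.smul_apply, Pi.add_apply, smul_eq_mul]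
  linear_combination - h3

theorem pt3_int_lf (O : ValuationSubring Ω) (k : Ω) (l : Fin 4 → Ω) (hl : ∀ i, k * l i ∈ O) :
    ∀ m, k * coeff m (lf l) ∈ O := by
  classical
  intro m
  unfold lf
  rw [coeff_sum, Finset.mul_sum]
  refine sum_mem fun i _ => ?_
  rw [coeff_smul, smul_eq_mul, ← mul_assoc]
  refine mul_mem (hl i) ?_
  rw [coeff_X]
  split_ifs
  · exact one_mem O
  · exact zero_mem O

theorem pt3_int_mul (O : ValuationSubring Ω) (k : Ω) (f g : MvPolynomial (Fin 4) Ω)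
    (hf : ∀ m, coeff m f ∈ O) (hg : ∀ m, k * coeff m g ∈ O) : ∀ m, k * coeff m (f * g) ∈ O := by
  classical
  intro m
  rw [coeff_mul, Finset.mul_sum]
  refine sum_mem fun p _ => ?_
  rw [mul_left_comm]
  exact mul_mem (hf _) (hg _)

theorem pt3_int_mono (O : ValuationSubring Ω) (s m : Fin 4 →₀ ℕ) :
    coeff m (monomial s (1 : Ω)) ∈ O := by
  classical
  rw [coeff_monomial]
  split_ifs
  · exact one_mem O
  · exact zero_mem O

end

theorem pt3_mono {Ω : Type*} [Field Ω] (L : MvPolynomial (Fin 4) Ω →ₗ[Ω] (Fin 4 → Ω))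
    (x : Fin 4 → Ω) (P g : MvPolynomial (Fin 4) Ω) (h : ¬ Par x (L (P * g))) :
    ∃ Q : MvPolynomial (Fin 4) Ω, (∀ O : ValuationSubring Ω, ∀ m, coeff m Q ∈ O) ∧
      ¬ Par x (L (Q * g)) := by
  by_contra hcon
  push Not at hcon
  apply h
  have e : P * g = ∑ s ∈ P.support, coeff s P • (monomial s (1 : Ω) * g) := by
    conv_lhs => rw [P.as_sum]
    rw [Finset.sum_mul]
    refine Finset.sum_congr rfl fun s _ => ?_
    rw [← smul_mul_assoc, smul_monomial, smul_eq_mul, mul_one]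
  rw [e, map_sum]
  refine pt3_par_sum _ _ fun s _ => ?_
  rw [map_smul]
  exact pt3_par_smul (hcon _ fun O m => pt3_int_mono O s m) _

theorem pt3_ev5 {Ω : Type*} [Field Ω] (x l : Fin 4 → Ω) (P : MvPolynomial (Fin 4) Ω) :
    ev 5 x (P * lf l) = ev 4 x P * dt l x := by
  have h := ev_lf 4 x l P
  rw [show (4 + 1 : ℕ) = 5 from rfl] at h
  exact h

theorem pt3_ev {Ω : Type*} [Field Ω] (x r : Fin 4 → Ω) (m : Fin 4) :
    ev 5 x (X m ^ 4 * lf r) = x m ^ 4 * dt r x := by
  rw [pt3_ev5, ev_hom 4 x (X m ^ 4) (by simpa using (isHomogeneous_X Ω m).pow 4), map_pow, eval_X]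

theorem pt3 {Ω : Type*} [Field Ω] [CharZero Ω] {D : Sym (Fin 4) 5 → Derivation ℤ Ω Ω}
    {a : Sym (Fin 4) 5 → Ω} {B : Subfield Ω} (hB : Frame D a B) (x : Fin 4 → Ω) (hx : x 0 = 1)
    (hF : form a x = 0) (n : Fin 4 → Ω) (nx : dt n x = 0)
    (nf : ∀ f, dt n (dv D x f) = - ev 5 x f) (z : Fin 4 → Ω) (hz : ∀ i, z i ∈ B)
    (hzx : ∃ j l, pl x z j l ≠ 0) (θ : Fin 4 → Ω) (hθ : dt θ x = 0)
    (hθn : ¬ ∃ c : Ω, θ = c • n)
    (hvan : ∀ f, ev 5 x f = 0 → ev 5 z f = 0 → dt θ (dv D x f) = 0)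
    (hne : ∃ (P : MvPolynomial (Fin 4) Ω) (m : Fin 4 → Ω), dt m x = 0 ∧ dt m z = 0 ∧
      ¬ Par x (dv D x (P * lf m))) : ∀ i, x i ∈ B := by
  classical
  obtain ⟨j₀, l₀, hjl⟩ := hzx
  obtain ⟨P, m₀, hm0x, hm0z, hnp⟩ := hne
  -- the choice of the rows and of the monomial
  have h1 : ∃ c, ¬ Par x (dv D x (P * lf (pt3e x z j₀ l₀ c))) := by
    by_contra hcon
    push Not at hcon
    apply hnp
    have hs := pt3_span x z m₀ j₀ l₀ hm0x hm0z
    have e : dv D x (P * lf m₀) = (pl x z j₀ l₀)⁻¹ •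
        (m₀ 0 • dv D x (P * lf (pt3e x z j₀ l₀ 0)) + m₀ 1 • dv D x (P * lf (pt3e x z j₀ l₀ 1)) +
        m₀ 2 • dv D x (P * lf (pt3e x z j₀ l₀ 2)) +
        m₀ 3 • dv D x (P * lf (pt3e x z j₀ l₀ 3))) := by
      rw [eq_inv_smul_iff₀ hjl, ← map_smul, ← mul_smul_comm, ← pt3_lf_smul, hs]
      simp only [pt3_lf_add, pt3_lf_smul, mul_add, mul_smul_comm, map_add, map_smul]
    rw [e]
    exact pt3_par_smul (pt3_par_add (pt3_par_add (pt3_par_add (pt3_par_smul (hcon 0) _)
      (pt3_par_smul (hcon 1) _)) (pt3_par_smul (hcon 2) _)) (pt3_par_smul (hcon 3) _)) _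
  obtain ⟨c, hc⟩ := h1
  obtain ⟨Q, hQ, hs⟩ := pt3_mono (dv D x) x P _ hc
  obtain ⟨y, hy⟩ : ∃ y, y = dv D x (Q * lf (pt3e x z j₀ l₀ c)) := ⟨_, rfl⟩
  rw [← hy] at hs
  have evy : ev 5 x (Q * lf (pt3e x z j₀ l₀ c)) = 0 := by
    have h0 : pt3M x z x j₀ l₀ c = 0 := by
      unfold pt3M
      ring
    rw [pt3_ev5, pt3_dt_e, h0, mul_zero]
  have evz : ev 5 z (Q * lf (pt3e x z j₀ l₀ c)) = 0 := by
    have h0 : pt3M x z z j₀ l₀ c = 0 := by
      unfold pt3M
      ring
    rw [pt3_ev5, pt3_dt_e, h0, mul_zero]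
  have ny : dt n y = 0 := by rw [hy, nf, evy, neg_zero]
  have ty : dt θ y = 0 := by
    rw [hy]
    exact hvan _ evy evz
  -- the reference form
  obtain ⟨f, hf⟩ : ∃ f : MvPolynomial (Fin 4) Ω, f = X 0 ^ 4 * lf (pt3r z j₀ l₀) := ⟨_, rfl⟩
  have evf : ev 5 x f = pl x z j₀ l₀ := by
    rw [hf, pt3_ev, hx, one_pow, one_mul, pt3_dt_r]
  have evfz : ev 5 z f = 0 := by
    rw [hf, pt3_ev, pt3_dt_r]
    unfold pl
    ring
  have hf0 : ev 5 x f ≠ 0 := by rw [evf]; exact hjl
  have hnf : dt n (dv D x f) ≠ 0 := by rw [nf]; exact neg_ne_zero.2 hf0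
  have hn0 : n ≠ 0 := by
    rintro rfl
    apply hnf
    unfold dt
    simp
  obtain ⟨a', b', c', hM⟩ := pt3_ne x y (dv D x f) n hx nx ny hnf hs
  -- independence of the form
  have indep : ∀ g, ev 5 z g = 0 → pt3M x y (dv D x g) a' b' c' * ev 5 x f =
      ev 5 x g * pt3M x y (dv D x f) a' b' c' := by
    intro g hg
    have e1 : ev 5 x (ev 5 x f • g - ev 5 x g • f) = 0 := by
      rw [map_sub, map_smul, map_smul, smul_eq_mul, smul_eq_mul]
      ring
    have e2 : ev 5 z (ev 5 x f • g - ev 5 x g • f) = 0 := by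
      rw [map_sub, map_smul, map_smul, hg, evfz, smul_zero, smul_zero, sub_zero]
    have h := pt3_zero x y (dv D x (ev 5 x f • g - ev 5 x g • f)) n θ nx ny
      (by rw [nf, e1, neg_zero]) hθ ty (hvan _ e1 e2) hn0 hθn a' b' c'
    rw [map_sub, map_smul, map_smul] at h
    unfold pt3M at h ⊢
    simp only [Pi.sub_apply, Pi.smul_apply, smul_eq_mul] at h
    linear_combination h
  -- the end
  refine rat_pt hB x 0 hx (Finset.univ.image z) ?_
    (pt3M x y (dv D x f) a' b' c' / ev 5 x f) (div_ne_zero hM hf0) 3 ?_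
  · intro b hb
    obtain ⟨i, -, rfl⟩ := Finset.mem_image.1 hb
    exact hz i
  intro O Δ hΔ hzO m hm hxm
  obtain ⟨⟨j, l⟩, hp, hmax⟩ := Pool.Agent.Helper74.LG.exists_max_coord O
    (fun q : Fin 4 × Fin 4 => pl x z q.1 q.2) (j₀, l₀) hjl
  simp only at hp hmax
  have hmax' : ∀ a b, pl x z a b / pl x z j l ∈ O := fun a b => hmax (a, b)
  obtain ⟨p, hpd⟩ : ∃ p, p = pl x z j l := ⟨_, rfl⟩
  rw [← hpd] at hp hmax'
  obtain ⟨e, he⟩ : ∃ e : Fin 4 → Ω, e = fun i => pt3e x z j₀ l₀ c i / p := ⟨_, rfl⟩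
  have hep : pt3e x z j₀ l₀ c = p • e := by
    funext i
    rw [Pi.smul_apply, smul_eq_mul, he, mul_div_cancel₀ _ hp]
  have heO : ∀ i, e i ∈ O := by
    intro i
    have h : e i = pl x z j₀ l₀ / p * (if i = c then 1 else 0) -
        pl x z j₀ c / p * (if i = l₀ then 1 else 0) +
        pl x z l₀ c / p * (if i = j₀ then 1 else 0) := by
      rw [he]
      simp only [pt3e]
      ring
    have h01 : ∀ q : Prop, ∀ [Decidable q], (if q then (1 : Ω) else 0) ∈ O := by
      intro q _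
      split_ifs
      · exact one_mem O
      · exact zero_mem O
    rw [h]
    exact add_mem (sub_mem (mul_mem (hmax' _ _) (h01 _)) (mul_mem (hmax' _ _) (h01 _)))
      (mul_mem (hmax' _ _) (h01 _))
  obtain ⟨g, hg⟩ : ∃ g : MvPolynomial (Fin 4) Ω, g = X m ^ 4 * lf (pt3r z j l) := ⟨_, rfl⟩
  have evg : ev 5 x g = x m ^ 4 * p := by rw [hg, pt3_ev, pt3_dt_r, hpd]
  have evgz : ev 5 z g = 0 := by
    rw [hg, pt3_ev, pt3_dt_r]
    unfold pl
    ring
  obtain ⟨x', hx'⟩ : ∃ x' : Fin 4 → Ω, x' = fun l => x l / x m := ⟨_, rfl⟩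
  obtain ⟨c1, hc1⟩ := dv_scale D x m hm (Q * lf e)
  obtain ⟨c2, hc2⟩ := dv_scale D x m hm g
  rw [← hx'] at hc1 hc2
  have hye : y = p • (x m • dv D x' (Q * lf e) + c1 • x) := by
    rw [hy, hep, pt3_lf_smul, mul_smul_comm, map_smul, hc1]
  have key : pt3M x y (dv D x g) a' b' c' =
      p * (x m ^ 3 * pt3M x' (dv D x' (Q * lf e)) (dv D x' g) a' b' c') := by
    have h3 := pt3_M_smul x (x m • dv D x' (Q * lf e) + c1 • x) (x m • dv D x' g + c2 • x) p 1
      a' b' c'
    rw [one_smul, mul_one] at h3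
    rw [hye, hc2, h3, pt3_M_scale x _ _ m hm, ← hx']
  have hGm : pt3M x y (dv D x f) a' b' c' / ev 5 x f * x m =
      pt3M x' (dv D x' (Q * lf e)) (dv D x' g) a' b' c' := by
    have h3 := indep g evgz
    rw [key, evg] at h3
    have hne : p * x m ^ 3 ≠ 0 := mul_ne_zero hp (pow_ne_zero _ hm)
    rw [div_mul_eq_mul_div, div_eq_iff hf0]
    apply mul_left_cancel₀ hne
    linear_combination - h3
  rw [hGm]
  -- bounds
  have hx'O : ∀ l, x' l ∈ O := by
    intro l
    rw [hx']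
    exact hxm l
  have b1 : ∀ l, Δ * dv D x' (Q * lf e) l ∈ O := by
    intro l
    have h := dv_bdd D x' O Δ hΔ hx'O (Q * lf e) 0 (by
      rw [pow_zero]
      refine pt3_int_mul O 1 Q (lf e) ?_ (pt3_int_lf O 1 e ?_)
      · exact hQ O
      · intro i
        rw [one_mul]
        exact heO i) l
    rwa [zero_add, pow_one] at h
  have b2 : ∀ i, Δ ^ 2 * dv D x' g i ∈ O := by
    intro i
    have h := dv_bdd D x' O Δ hΔ hx'O g 1 (by
      rw [pow_one, hg]
      refine pt3_int_mul O Δ _ _ ?_ (pt3_int_lf O Δ _ ?_)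
      · rw [X_pow_eq_monomial]
        exact pt3_int_mono O _
      · intro i
        have h01 : ∀ q : Prop, ∀ [Decidable q], (if q then (1 : Ω) else 0) ∈ O := by
          intro q _
          split_ifs
          · exact one_mem O
          · exact zero_mem O
        unfold pt3r
        rw [mul_sub, ← mul_assoc, ← mul_assoc]
        exact sub_mem (mul_mem (hzO _ (Finset.mem_image_of_mem z (Finset.mem_univ l))) (h01 _))
          (mul_mem (hzO _ (Finset.mem_image_of_mem z (Finset.mem_univ j))) (h01 _))) i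
    exact h
  have b3 : Δ ^ 3 * pt3M x' (dv D x' (Q * lf e)) (dv D x' g) a' b' c' =
      x' a' * ((Δ * dv D x' (Q * lf e) b') * (Δ ^ 2 * dv D x' g c') -
        (Δ * dv D x' (Q * lf e) c') * (Δ ^ 2 * dv D x' g b')) -
      x' b' * ((Δ * dv D x' (Q * lf e) a') * (Δ ^ 2 * dv D x' g c') -
        (Δ * dv D x' (Q * lf e) c') * (Δ ^ 2 * dv D x' g a')) +
      x' c' * ((Δ * dv D x' (Q * lf e) a') * (Δ ^ 2 * dv D x' g b') -
        (Δ * dv D x' (Q * lf e) b') * (Δ ^ 2 * dv D x' g a')) := by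
    unfold pt3M
    ring
  rw [b3]
  have b4 : ∀ u v w, x' u * ((Δ * dv D x' (Q * lf e) v) * (Δ ^ 2 * dv D x' g w) -
      (Δ * dv D x' (Q * lf e) w) * (Δ ^ 2 * dv D x' g v)) ∈ O := fun u v w =>
    mul_mem (hx'O u) (sub_mem (mul_mem (b1 v) (b2 w)) (mul_mem (b1 w) (b2 v)))
  exact add_mem (sub_mem (b4 _ _ _) (b4 _ _ _)) (b4 _ _ _)

end Pool.Agent.Helper6.QS
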