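import Pool.Agent.Helper6.QS.Plane

/-!
# QS-LIE: infinitesimal similitudes of the determinant

`lie_full`: `u` onto the 2 x 2 matrices, `pol(v(P), u(P')) + pol(u(P), v(P')) = ν pol(u(P), u(P'))`.
If `u(P) = 0` then `pol(v(P), A) = 0` for all `A`, so `v(P) = 0`; hence `v = Λ ∘ u`, `Λ` linear, and
`pol(Λ A, A') + pol(A, Λ A') = ν pol(A, A')`. With `Λ(E_kl) = (Λ_ij,kl)_ij` this gives
`Λ_22,11 = Λ_11,22 = Λ_21,12 = Λ_12,21 = 0`, `Λ_11,11 + Λ_22,22 = ν = Λ_12,12 + Λ_21,21`,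
`Λ_21,11 = Λ_22,12 (= X21)`, `Λ_11,21 = Λ_12,22 (= X12)`, `Λ_12,11 = Λ_22,21 (= Y12)`,
`Λ_11,12 = Λ_21,22 (= Y21)`; `Y22 = 0`, `X11 = Λ_12,12`, `Y11 = Λ_11,11 - X11`,
`X22 = Λ_21,21 - Y11`.
`lie_sym`: `u` onto the symmetric matrices, `v(P)` symmetric: the same with the basis `E11, E22,
S = E12 + E21`; `X11 = Λ_11(E11) / 2`, `X22 = Λ_22(E22) / 2`, `X12 = Λ_12(E22) = Λ_11(S) / 2`,
`X21 = Λ_12(E11) = Λ_22(S) / 2`, `Y = X^T`.
-/

set_option autoImplicit false

namespace Pool.Agent.Helper6.QS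

open scoped BigOperators

section

variable {Ω : Type*} [Field Ω]

theorem lie_pol_zero_left (A : Matrix (Fin 2) (Fin 2) Ω) :
    pol (0 : Matrix (Fin 2) (Fin 2) Ω) A = 0 := by
  simp [pol]

omit [Field Ω] in
theorem lie_ext {A B : Matrix (Fin 2) (Fin 2) Ω} (h00 : A 0 0 = B 0 0) (h01 : A 0 1 = B 0 1)
    (h10 : A 1 0 = B 1 0) (h11 : A 1 1 = B 1 1) : A = B := by
  ext i j
  fin_cases i <;> fin_cases j <;> assumption

end

theorem lie_full {Ω : Type*} [Field Ω] [CharZero Ω] {M : Type*} [AddCommGroup M] [Module Ω M]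
    (u v : M →ₗ[Ω] Matrix (Fin 2) (Fin 2) Ω) (hu : Function.Surjective u) (ν : Ω)
    (h : ∀ P P', pol (v P) (u P') + pol (u P) (v P') = ν * pol (u P) (u P')) :
    ∃ X Y : Matrix (Fin 2) (Fin 2) Ω, ∀ P, v P = X * u P + u P * Y := by
  obtain ⟨p, hp⟩ := hu !![1, 0; 0, 0]
  obtain ⟨q, hq⟩ := hu !![0, 1; 0, 0]
  obtain ⟨r, hr⟩ := hu !![0, 0; 1, 0]
  obtain ⟨s, hs⟩ := hu !![0, 0; 0, 1]
  have two : (2 : Ω) ≠ 0 := two_ne_zero
  have hpp := h p p
  have hpq := h p q
  have hpr := h p r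
  have hps := h p s
  have hqq := h q q
  have hqr := h q r
  have hqs := h q s
  have hrr := h r r
  have hrs := h r s
  have hss := h s s
  simp only [hp, hq, hr, hs, pol, Matrix.of_apply, Matrix.cons_val', Matrix.cons_val_zero,
    Matrix.cons_val_one, Matrix.cons_val_fin_one, mul_one, mul_zero, one_mul, zero_mul, add_zero,
    zero_add, sub_zero, zero_sub] at hpp hpq hpr hps hqq hqr hqs hrr hrs hss
  have key : ∀ R, u R = 0 → v R = 0 := by
    intro R hR
    have e0 := h R p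
    have e1 := h R q
    have e2 := h R r
    have e3 := h R s
    rw [hR, lie_pol_zero_left, lie_pol_zero_left, mul_zero, add_zero] at e0 e1 e2 e3
    simp only [hp, hq, hr, hs, pol, Matrix.of_apply, Matrix.cons_val', Matrix.cons_val_zero,
      Matrix.cons_val_one, Matrix.cons_val_fin_one, mul_one, mul_zero, one_mul, zero_mul, add_zero,
      zero_add, sub_zero, zero_sub, neg_eq_zero] at e0 e1 e2 e3
    exact lie_ext e3 e2 e1 e0
  have lin : ∀ P, v P = u P 0 0 • v p + u P 0 1 • v q + u P 1 0 • v r + u P 1 1 • v s := by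
    intro P
    have h1 := key (P - (u P 0 0 • p + u P 0 1 • q + u P 1 0 • r + u P 1 1 • s)) (by
      rw [map_sub, map_add, map_add, map_add, map_smul, map_smul, map_smul, map_smul, hp, hq, hr,
        hs]
      refine lie_ext ?_ ?_ ?_ ?_ <;> simp)
    rw [map_sub, map_add, map_add, map_add, map_smul, map_smul, map_smul, map_smul,
      sub_eq_zero] at h1
    exact h1
  refine ⟨!![v q 0 1, v s 0 1; v p 1 0, v s 1 1], !![v p 0 0 - v q 0 1, v p 0 1; v s 1 0, 0],
    fun P => ?_⟩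
  rw [lin P]
  refine lie_ext ?_ ?_ ?_ ?_ <;>
    simp only [Matrix.add_apply, Matrix.smul_apply, smul_eq_mul, Matrix.mul_apply,
      Fin.sum_univ_two, Matrix.of_apply, Matrix.cons_val', Matrix.cons_val_zero,
      Matrix.cons_val_one, Matrix.cons_val_fin_one]
  · linear_combination u P 0 1 * hqs + u P 1 0 * hrs + (u P 1 1 / 2) * hss
  · linear_combination -(u P 1 0 / 2) * hrr
  · linear_combination -(u P 0 1 / 2) * hqq - u P 1 0 * hqr - u P 1 0 * hps
  · linear_combination (u P 0 0 / 2) * hpp + u P 0 1 * hpq + u P 1 0 * hpr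

theorem lie_sym {Ω : Type*} [Field Ω] [CharZero Ω] {M : Type*} [AddCommGroup M] [Module Ω M]
    (u v : M →ₗ[Ω] Matrix (Fin 2) (Fin 2) Ω) (hus : ∀ P, u P 0 1 = u P 1 0)
    (hvs : ∀ P, v P 0 1 = v P 1 0)
    (hu : ∀ S : Matrix (Fin 2) (Fin 2) Ω, S 0 1 = S 1 0 → ∃ P, u P = S) (ν : Ω)
    (h : ∀ P P', pol (v P) (u P') + pol (u P) (v P') = ν * pol (u P) (u P')) :
    ∃ X Y : Matrix (Fin 2) (Fin 2) Ω, ∀ P, v P = X * u P + u P * Y := by
  obtain ⟨p, hp⟩ := hu !![1, 0; 0, 0] rfl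
  obtain ⟨q, hq⟩ := hu !![0, 1; 1, 0] rfl
  obtain ⟨s, hs⟩ := hu !![0, 0; 0, 1] rfl
  have two : (2 : Ω) ≠ 0 := two_ne_zero
  have hpp := h p p
  have hpq := h p q
  have hps := h p s
  have hqq := h q q
  have hqs := h q s
  have hss := h s s
  simp only [hp, hq, hs, pol, Matrix.of_apply, Matrix.cons_val', Matrix.cons_val_zero,
    Matrix.cons_val_one, Matrix.cons_val_fin_one, mul_one, mul_zero, one_mul, zero_mul, add_zero,
    zero_add, sub_zero, zero_sub] at hpp hpq hps hqq hqs hss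
  have vp := hvs p
  have vq := hvs q
  have vs := hvs s
  have key : ∀ R, u R = 0 → v R = 0 := by
    intro R hR
    have e0 := h R p
    have e1 := h R q
    have e3 := h R s
    rw [hR, lie_pol_zero_left, lie_pol_zero_left, mul_zero, add_zero] at e0 e1 e3
    simp only [hp, hq, hs, pol, Matrix.of_apply, Matrix.cons_val', Matrix.cons_val_zero,
      Matrix.cons_val_one, Matrix.cons_val_fin_one, mul_one, mul_zero, one_mul, zero_mul, add_zero,
      zero_add, sub_zero, zero_sub, neg_eq_zero] at e0 e1 e3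
    have vR := hvs R
    have e2 : v R 0 1 = 0 := by
      have : (2 : Ω) * v R 0 1 = 0 := by linear_combination vR - e1
      exact (mul_eq_zero.1 this).resolve_left two
    exact lie_ext e3 e2 (vR ▸ e2) e0
  have lin : ∀ P, v P = u P 0 0 • v p + u P 0 1 • v q + u P 1 1 • v s := by
    intro P
    have h1 := key (P - (u P 0 0 • p + u P 0 1 • q + u P 1 1 • s)) (by
      rw [map_sub, map_add, map_add, map_smul, map_smul, map_smul, hp, hq, hs]
      have := hus P
      refine lie_ext ?_ ?_ ?_ ?_ <;> simp [this])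
    rw [map_sub, map_add, map_add, map_smul, map_smul, map_smul, sub_eq_zero] at h1
    exact h1
  refine ⟨!![v p 0 0 / 2, v s 0 1; v p 1 0, v s 1 1 / 2],
    !![v p 0 0 / 2, v p 1 0; v s 0 1, v s 1 1 / 2], fun P => ?_⟩
  rw [lin P]
  have := hus P
  refine lie_ext ?_ ?_ ?_ ?_ <;>
    simp only [Matrix.add_apply, Matrix.smul_apply, smul_eq_mul, Matrix.mul_apply,
      Fin.sum_univ_two, Matrix.of_apply, Matrix.cons_val', Matrix.cons_val_zero,
      Matrix.cons_val_one, Matrix.cons_val_fin_one]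
  · linear_combination u P 0 1 * hqs + (u P 1 1 / 2) * hss + v s 0 1 * this - u P 0 1 * vs
  · linear_combination u P 0 0 * vp + u P 0 1 * (-(1 / 4) * hqq + (1 / 2) * vq - (1 / 2) * hps)
  · linear_combination u P 0 1 * (-(1 / 4) * hqq - (1 / 2) * vq - (1 / 2) * hps) +
      ((v p 0 0 + v s 1 1) / 2) * this - u P 1 1 * vs
  · linear_combination (u P 0 0 / 2) * hpp + u P 0 1 * hpq + u P 0 1 * vp + v p 1 0 * this

end Pool.Agent.Helper6.QS
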