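import Pool.Agent.Helper6.QS.DeltaQ
import Pool.Agent.Helper6.QS.DetK
import Pool.Agent.Helper6.QS.Lie
import Pool.Agent.Helper6.QS.Der

/-!
# QS-CASEB: the plane case without pure tensors: a quadratic form

`x` is not rational: some `x_i` is transcendental over `B` (`rat_alg`), take `δ` of `exists_der`.
Choose bases `h, l_0, l_1` and `θ_0, θ_1, n` of `R` (`bas_ex`). Let
`K = {c | ∑ c_ij u(P)_ij = 0 for all P}`. If `K = 0`, `u` is surjective: `star_rel`, `lie_full`,
`delta_Q`. If `K` contains two independent matrices: `det_K`. If `K = Ω c`, `c ≠ 0`: `c` has rank 2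
(otherwise `c_ij = s_i t_j` and `l = ∑ s_i l_i`, `θ = ∑ t_j θ_j` contradict `NoPure`); replace the
basis by `θ'_1 = ∑_j c_0j θ_j`, `θ'_0 = - ∑_j c_1j θ_j` (`vol3` is multiplied by `det c` up to sign):
the relation becomes `u'_01 = u'_10`, and these are all the relations, so `u'` is onto the symmetric
matrices; `dfun δ u'` is symmetric on monomials, so everywhere; `lie_sym`, `delta_Q`.
-/

set_option autoImplicit false

namespace Pool.Agent.Helper6.QS

open scoped BigOperators
open MvPolynomial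
open Pool.Agent.Helper8.LG (Bdd form mon)
open Pool.Agent.Helper49.LN (cP mo hf pl)

section

variable {Ω : Type*} [Field Ω]

/-- a linear map to a coordinate space is onto if its components are independent -/
theorem caseB_surj {M ι : Type*} [AddCommGroup M] [Module Ω M] [Fintype ι] [DecidableEq ι]
    (L : M →ₗ[Ω] (ι → Ω)) (h : ∀ d : ι → Ω, (∀ P, ∑ i, d i * L P i = 0) → d = 0) :
    Function.Surjective L := by
  rw [← LinearMap.range_eq_top]
  by_contra hne
  obtain ⟨φ, hφ0, hφ⟩ := Submodule.exists_le_ker_of_lt_top (LinearMap.range L)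
    (lt_top_iff_ne_top.2 hne)
  have key : ∀ v : ι → Ω, φ v = ∑ i, φ (Pi.single i 1) * v i := by
    intro v
    conv_lhs => rw [← Finset.univ_sum_single v]
    rw [map_sum]
    refine Finset.sum_congr rfl fun i _ => ?_
    have : (Pi.single i (v i) : ι → Ω) = v i • Pi.single i 1 := by
      rw [← Pi.single_smul]
      simp
    rw [this, map_smul, smul_eq_mul, mul_comm]
  apply hφ0
  have hd := h (fun i => φ (Pi.single i 1)) (fun P => by
    rw [← key (L P)]
    exact hφ ⟨P, rfl⟩)
  ext i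
  simpa using congrFun hd i

theorem caseB_full {M : Type*} [AddCommGroup M] [Module Ω M]
    (u : M →ₗ[Ω] Matrix (Fin 2) (Fin 2) Ω)
    (h : ∀ c : Matrix (Fin 2) (Fin 2) Ω, (∀ P, ∑ i, ∑ j, c i j * u P i j = 0) → c = 0) :
    Function.Surjective u := by
  let L : M →ₗ[Ω] (Fin 2 × Fin 2 → Ω) :=
    { toFun := fun P ij => u P ij.1 ij.2
      map_add' := fun P P' => by
        funext ij
        simp
      map_smul' := fun c P => by
        funext ij
        simp }
  have hL : Function.Surjective L := by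
    refine caseB_surj L (fun d hd => ?_)
    have h0 := h (Matrix.of fun i j => d (i, j)) (fun P => by
      have := hd P
      rw [Fintype.sum_prod_type] at this
      exact this)
    funext ij
    have := congrFun (congrFun h0 ij.1) ij.2
    simpa using this
  intro A
  obtain ⟨P, hP⟩ := hL (fun ij => A ij.1 ij.2)
  refine ⟨P, ?_⟩
  ext i j
  exact congrFun hP (i, j)

theorem caseB_onto {M : Type*} [AddCommGroup M] [Module Ω M]
    (u : M →ₗ[Ω] Matrix (Fin 2) (Fin 2) Ω) (hus : ∀ P, u P 0 1 = u P 1 0)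
    (h : ∀ d : Fin 3 → Ω, (∀ P, d 0 * u P 0 0 + d 1 * u P 0 1 + d 2 * u P 1 1 = 0) → d = 0) :
    ∀ S : Matrix (Fin 2) (Fin 2) Ω, S 0 1 = S 1 0 → ∃ P, u P = S := by
  let L : M →ₗ[Ω] (Fin 3 → Ω) :=
    { toFun := fun P => ![u P 0 0, u P 0 1, u P 1 1]
      map_add' := fun P P' => by
        funext i
        fin_cases i <;> simp
      map_smul' := fun c P => by
        funext i
        fin_cases i <;> simp }
  have hL : Function.Surjective L := by
    refine caseB_surj L (fun d hd => h d (fun P => ?_))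
    have := hd P
    rw [Fin.sum_univ_three] at this
    exact this
  intro S hS
  obtain ⟨P, hP⟩ := hL ![S 0 0, S 0 1, S 1 1]
  have p0 := congrFun hP 0
  have p1 := congrFun hP 1
  have p2 := congrFun hP 2
  change u P 0 0 = S 0 0 at p0
  change u P 0 1 = S 0 1 at p1
  change u P 1 1 = S 1 1 at p2
  refine ⟨P, ?_⟩
  ext i j
  fin_cases i <;> fin_cases j
  · exact p0
  · exact p1
  · show u P 1 0 = S 1 0
    rw [← hus, ← hS]
    exact p1
  · exact p2

theorem caseB_vol_cyc (u v w : Fin 4 → Ω) : vol3 v w u = vol3 u v w := by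
  simp only [vol3]
  ring

theorem caseB_ne (h l0 l1 : Fin 4 → Ω) (hv : vol3 h l0 l1 ≠ 0) (s0 s1 c : Ω)
    (hs : s0 • l0 + s1 • l1 = c • h) : s0 = 0 ∧ s1 = 0 := by
  have e : ∀ i, s0 * l0 i + s1 * l1 i = c * h i := fun i => by
    have := congrFun hs i
    simpa using this
  have h1 := e 1
  have h2 := e 2
  have h3 := e 3
  constructor
  · have : s0 * vol3 h l0 l1 = 0 := by
      simp only [vol3]
      linear_combination (-(h 2 * l1 3 - h 3 * l1 2)) * h1 + (h 1 * l1 3 - h 3 * l1 1) * h2 -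
        (h 1 * l1 2 - h 2 * l1 1) * h3
    exact (mul_eq_zero.1 this).resolve_right hv
  · have : s1 * vol3 h l0 l1 = 0 := by
      simp only [vol3]
      linear_combination (h 2 * l0 3 - h 3 * l0 2) * h1 - (h 1 * l0 3 - h 3 * l0 1) * h2 +
        (h 1 * l0 2 - h 2 * l0 1) * h3
    exact (mul_eq_zero.1 this).resolve_right hv

/-- a 2 x 2 matrix of determinant zero is a pure tensor -/
theorem caseB_rank (c : Matrix (Fin 2) (Fin 2) Ω) (hdet : c 0 0 * c 1 1 - c 0 1 * c 1 0 = 0)
    (hc : c ≠ 0) : ∃ s t : Fin 2 → Ω, s ≠ 0 ∧ t ≠ 0 ∧ ∀ i j, c i j = s i * t j := by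
  by_cases h0 : c 0 0 = 0 ∧ c 0 1 = 0
  · refine ⟨![0, 1], ![c 1 0, c 1 1], ?_, ?_, ?_⟩
    · intro h
      have := congrFun h 1
      simp at this
    · intro h
      apply hc
      have e0 := congrFun h 0
      have e1 := congrFun h 1
      simp only [Matrix.cons_val_zero, Matrix.cons_val_one, Pi.zero_apply] at e0 e1
      ext i j
      fin_cases i <;> fin_cases j <;> simp [h0.1, h0.2, e0, e1]
    · intro i j
      fin_cases i <;> fin_cases j <;> simp [h0.1, h0.2]
  · by_cases h00 : c 0 0 = 0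
    · have h01 : c 0 1 ≠ 0 := fun h => h0 ⟨h00, h⟩
      have h10 : c 1 0 = 0 := by
        rw [h00, zero_mul, zero_sub, neg_eq_zero, mul_eq_zero] at hdet
        exact hdet.resolve_left h01
      refine ⟨![1, c 1 1 / c 0 1], ![0, c 0 1], ?_, ?_, ?_⟩
      · intro h
        have := congrFun h 0
        simp at this
      · intro h
        have := congrFun h 1
        exact h01 (by simpa using this)
      · intro i j
        fin_cases i <;> fin_cases j <;> simp [h00, h10, h01]
    · refine ⟨![1, c 1 0 / c 0 0], ![c 0 0, c 0 1], ?_, ?_, ?_⟩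
      · intro h
        have := congrFun h 0
        simp at this
      · intro h
        have := congrFun h 0
        exact h00 (by simpa using this)
      · intro i j
        have e : c 1 1 = c 1 0 / c 0 0 * c 0 1 := by
          field_simp
          linear_combination hdet
        fin_cases i <;> fin_cases j <;> simp [h00, ← e]

end

theorem caseB {Ω : Type*} [Field Ω] [CharZero Ω] {D : Sym (Fin 4) 5 → Derivation ℤ Ω Ω}
    {a : Sym (Fin 4) 5 → Ω} {B : Subfield Ω} {x h n : Fin 4 → Ω}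
    {g : MvPolynomial (Fin 4) Ω →ₗ[Ω] MvPolynomial (Fin 4) Ω →ₗ[Ω] Ω}
    (hp : Pln D a B x h n g) (hA : NoPure D x h n) (hx : ¬ ∀ i, x i ∈ B) :
    ∃ Q : MvPolynomial (Fin 4) Ω, Q.IsHomogeneous 2 ∧ (∃ y, dt h y = 0 ∧ eval y Q ≠ 0) ∧
      ∀ C, Par x (dv D x (C * Q)) := by
  push Not at hx
  obtain ⟨i0, hi0⟩ := hx
  obtain ⟨δ, hδ, hδi⟩ := exists_der B (x i0) (fun h => hi0 (rat_alg hp.frame _ h))
  obtain ⟨l0, l1, hl0, hl1, hlv⟩ := bas_ex x h hp.one hp.hx hp.h0
  obtain ⟨t0, t1, ht0, ht1, htv⟩ := bas_ex x n hp.one hp.nx (pln_n0 hp)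
  rw [← caseB_vol_cyc] at htv
  set l : Fin 2 → Fin 4 → Ω := ![l0, l1] with hl
  set θ : Fin 2 → Fin 4 → Ω := ![t0, t1] with hθ
  have hlx : ∀ i, dt (l i) x = 0 := by
    intro i
    fin_cases i
    · exact hl0
    · exact hl1
  have hθx : ∀ j, dt (θ j) x = 0 := by
    intro i
    fin_cases i
    · exact ht0
    · exact ht1
  have h1 : vol3 h (l 0) (l 1) ≠ 0 := hlv
  have h2 : vol3 (θ 0) (θ 1) n ≠ 0 := htv
  by_cases hK : ∃ c : Matrix (Fin 2) (Fin 2) Ω, c ≠ 0 ∧ ∀ P, ∑ i, ∑ j, c i j * uM D x l θ P i j = 0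
  swap
  · -- `u` is surjective
    have hsurj : Function.Surjective (uM D x l θ) := by
      refine caseB_full _ (fun c hc => ?_)
      by_contra hc0
      exact hK ⟨c, hc0, hc⟩
    obtain ⟨X, Y, hXY⟩ := lie_full (uM D x l θ) (dfun δ (uM D x l θ)) hsurj _
      (star_rel hp δ hδ l θ hlx hθx h1 h2)
    exact delta_Q hp δ hδ ⟨i0, hδi⟩ l θ hlx hθx h1 h2 X Y hXY
  obtain ⟨c, hc0, hc⟩ := hK
  by_cases hK2 : ∃ c' : Matrix (Fin 2) (Fin 2) Ω, LinearIndependent Ω ![c, c'] ∧
      ∀ P, ∑ i, ∑ j, c' i j * uM D x l θ P i j = 0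
  · obtain ⟨c', hlin, hc'⟩ := hK2
    exact det_K hp hA l θ hlx hθx h1 h2 c c' hlin hc hc'
  have hmul : ∀ c' : Matrix (Fin 2) (Fin 2) Ω, (∀ P, ∑ i, ∑ j, c' i j * uM D x l θ P i j = 0) →
      ∃ μ : Ω, c' = μ • c := by
    intro c' hc'
    by_contra hcon
    refine hK2 ⟨c', ?_, hc'⟩
    rw [LinearIndependent.pair_iff' hc0]
    intro μ hμ
    exact hcon ⟨μ, hμ.symm⟩
  -- the determinant of `c` is not zero
  have hdet : c 0 0 * c 1 1 - c 0 1 * c 1 0 ≠ 0 := by
    intro hd
    obtain ⟨s, t, hs, ht, hst⟩ := caseB_rank c hd hc0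
    have hlin : ∀ P, dt (t 0 • t0 + t 1 • t1) (dv D x (P * lf (s 0 • l0 + s 1 • l1))) = 0 := by
      intro P
      have := hc P
      simp only [Fin.sum_univ_two, hst, uM, LinearMap.coe_mk, AddHom.coe_mk, Matrix.of_apply] at this
      rw [lf_add, lf_smul, lf_smul, mul_add, mul_smul_comm, mul_smul_comm, map_add, map_smul,
        map_smul, dt_comm, dt_add, dt_smul, dt_smul, dt_comm _ t0, dt_comm _ t1, dt_add, dt_add,
        dt_smul, dt_smul, dt_smul, dt_smul]
      simp only [hl, hθ, Matrix.cons_val_zero, Matrix.cons_val_one] at this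
      linear_combination this
    have hlx' : dt (s 0 • l0 + s 1 • l1) x = 0 := by
      rw [dt_comm, dt_add, dt_smul, dt_smul, dt_comm x l0, dt_comm x l1, hl0, hl1]
      ring
    have hθx' : dt (t 0 • t0 + t 1 • t1) x = 0 := by
      rw [dt_comm, dt_add, dt_smul, dt_smul, dt_comm x t0, dt_comm x t1, ht0, ht1]
      ring
    rcases hA _ _ hlx' hθx' hlin with ⟨μ, hμ⟩ | ⟨μ, hμ⟩
    · obtain ⟨e0, e1⟩ := caseB_ne h l0 l1 hlv _ _ _ hμ
      apply hs
      funext i
      fin_cases i
      · exact e0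
      · exact e1
    · have htv' : vol3 n t0 t1 ≠ 0 := by
        rw [← caseB_vol_cyc]
        exact htv
      obtain ⟨e0, e1⟩ := caseB_ne n t0 t1 htv' _ _ _ hμ
      apply ht
      funext i
      fin_cases i
      · exact e0
      · exact e1
  -- the new basis
  set θ' : Fin 2 → Fin 4 → Ω := ![-(c 1 0 • t0 + c 1 1 • t1), c 0 0 • t0 + c 0 1 • t1] with hθ'
  have hdt0 : ∀ y : Fin 4 → Ω, dt (θ' 0) y = -(c 1 0 * dt t0 y + c 1 1 * dt t1 y) := by
    intro y
    simp only [hθ', Matrix.cons_val_zero, dt, Pi.neg_apply, Pi.add_apply, Pi.smul_apply,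
      smul_eq_mul, Fin.sum_univ_four]
    ring
  have hdt1 : ∀ y : Fin 4 → Ω, dt (θ' 1) y = c 0 0 * dt t0 y + c 0 1 * dt t1 y := by
    intro y
    simp only [hθ', Matrix.cons_val_one, Matrix.cons_val_zero, dt, Pi.add_apply, Pi.smul_apply,
      smul_eq_mul, Fin.sum_univ_four]
    ring
  have hθx' : ∀ j, dt (θ' j) x = 0 := by
    intro j
    fin_cases j
    · show dt (θ' 0) x = 0
      rw [hdt0, ht0, ht1]
      ring
    · show dt (θ' 1) x = 0
      rw [hdt1, ht0, ht1]
      ring
  have h2' : vol3 (θ' 0) (θ' 1) n ≠ 0 := by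
    have : vol3 (θ' 0) (θ' 1) n = (c 0 0 * c 1 1 - c 0 1 * c 1 0) * vol3 t0 t1 n := by
      simp only [hθ', Matrix.cons_val_zero, Matrix.cons_val_one, vol3, Pi.neg_apply, Pi.add_apply,
        Pi.smul_apply, smul_eq_mul]
      ring
    rw [this]
    exact mul_ne_zero hdet htv
  have hu : ∀ P i, uM D x l θ' P i 0 = -(c 1 0 * uM D x l θ P i 0 + c 1 1 * uM D x l θ P i 1) ∧
      uM D x l θ' P i 1 = c 0 0 * uM D x l θ P i 0 + c 0 1 * uM D x l θ P i 1 := by
    intro P i
    constructor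
    · exact hdt0 _
    · exact hdt1 _
  have hus : ∀ P, uM D x l θ' P 0 1 = uM D x l θ' P 1 0 := by
    intro P
    have := hc P
    simp only [Fin.sum_univ_two] at this
    rw [(hu P 0).2, (hu P 1).1]
    linear_combination this
  have hvs : ∀ P, dfun δ (uM D x l θ') P 0 1 = dfun δ (uM D x l θ') P 1 0 := by
    let F : Fin 2 → Fin 2 → MvPolynomial (Fin 4) Ω →ₗ[Ω] Ω := fun i j =>
      { toFun := fun P => dfun δ (uM D x l θ') P i j
        map_add' := fun P P' => by simp
        map_smul' := fun c P => by simp }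
    have hF : F 0 1 = F 1 0 := by
      refine (MvPolynomial.basisMonomials (Fin 4) Ω).ext fun m => ?_
      show dfun δ (uM D x l θ') _ 0 1 = dfun δ (uM D x l θ') _ 1 0
      rw [dfun, Module.Basis.constr_basis]
      simp only [Matrix.map_apply]
      rw [hus]
    intro P
    exact congrArg (fun f : MvPolynomial (Fin 4) Ω →ₗ[Ω] Ω => f P) hF
  have honto : ∀ S : Matrix (Fin 2) (Fin 2) Ω, S 0 1 = S 1 0 → ∃ P, uM D x l θ' P = S := by
    refine caseB_onto _ hus (fun d hd => ?_)
    obtain ⟨μ, hμ⟩ := hmul (Matrix.of ![![-(d 0) * c 1 0 + d 1 * c 0 0, -(d 0) * c 1 1 + d 1 * c 0 1],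
      ![d 2 * c 0 0, d 2 * c 0 1]]) (fun P => by
        have := hd P
        rw [(hu P 0).1, (hu P 0).2, (hu P 1).2] at this
        simp only [Fin.sum_univ_two, Matrix.of_apply, Matrix.cons_val_zero, Matrix.cons_val_one]
        linear_combination this)
    have m00 := congrFun (congrFun hμ 0) 0
    have m01 := congrFun (congrFun hμ 0) 1
    have m10 := congrFun (congrFun hμ 1) 0
    have m11 := congrFun (congrFun hμ 1) 1
    simp only [Matrix.of_apply, Matrix.cons_val_zero, Matrix.cons_val_one, Matrix.smul_apply,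
      smul_eq_mul] at m00 m01 m10 m11
    have d2 : d 2 = 0 := by
      have : d 2 * (c 0 0 * c 1 1 - c 0 1 * c 1 0) = 0 := by
        linear_combination c 1 1 * m10 - c 1 0 * m11
      exact (mul_eq_zero.1 this).resolve_right hdet
    have hμ0 : μ = 0 := by
      have : μ * (c 0 0 * c 1 1 - c 0 1 * c 1 0) = 0 := by
        linear_combination c 0 1 * m10 - c 0 0 * m11
      exact (mul_eq_zero.1 this).resolve_right hdet
    have d0 : d 0 = 0 := by
      have : d 0 * (c 0 0 * c 1 1 - c 0 1 * c 1 0) = 0 := by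
        rw [hμ0] at m00 m01
        linear_combination c 0 1 * m00 - c 0 0 * m01
      exact (mul_eq_zero.1 this).resolve_right hdet
    have d1 : d 1 = 0 := by
      have : d 1 * (c 0 0 * c 1 1 - c 0 1 * c 1 0) = 0 := by
        rw [hμ0] at m00 m01
        linear_combination c 1 1 * m00 - c 1 0 * m01
      exact (mul_eq_zero.1 this).resolve_right hdet
    funext i
    fin_cases i
    · exact d0
    · exact d1
    · exact d2
  obtain ⟨X, Y, hXY⟩ := lie_sym (uM D x l θ') (dfun δ (uM D x l θ')) hus hvs honto _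
    (star_rel hp δ hδ l θ' hlx hθx' h1 h2')
  exact delta_Q hp δ hδ ⟨i0, hδi⟩ l θ' hlx hθx' h1 h2' X Y hXY

end Pool.Agent.Helper6.QS
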