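import Pool.Agent.Helper6.QS.PlnMk
import Pool.Agent.Helper6.QS.CaseA
import Pool.Agent.Helper6.QS.CaseB
import Pool.Agent.Helper6.QS.RatQ
import Pool.Agent.Helper6.QS.FinQ
import Pool.Agent.Helper6.QS.ConicDiv
import Pool.Agent.Helper6.QS.ConicCount

/-!
# QS-KEYBLK: quintic surfaces, the block case (assembly)
-/

set_option autoImplicit false

namespace Pool.Agent.Helper6.QS

open scoped BigOperators
open MvPolynomial
open Pool.Agent.Helper8.LG (Bdd form mon)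
open Pool.Agent.Helper49.LN (cP mo hf pl)

theorem eval_mo {Ω σ : Type*} [Field Ω] {n : ℕ} (x : σ → Ω) (J : Sym σ n) :
    eval x (mo Ω (J : Multiset σ)) = mon x J := by
  unfold mo mon
  rw [map_multiset_prod, Multiset.map_map]
  congr 1
  exact Multiset.map_congr rfl fun i _ => eval_X i

theorem eval_sum_mo {Ω σ : Type*} [Field Ω] [Fintype σ] [DecidableEq σ] {n : ℕ} (x : σ → Ω)
    (a : Sym σ n → Ω) : eval x (∑ J : Sym σ n, a J • mo Ω (J : Multiset σ)) = form a x := by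
  rw [map_sum]
  unfold form
  refine Finset.sum_congr rfl fun J _ => ?_
  rw [smul_eval, eval_mo]

theorem key_blk {Ω : Type*} [Field Ω] [CharZero Ω] {D : Sym (Fin 4) 5 → Derivation ℤ Ω Ω}
    {a : Sym (Fin 4) 5 → Ω} {B : Subfield Ω} (hB : Frame D a B) (x : Fin 4 → Ω) (hx : x 0 = 1)
    (hF : form a x = 0) (P0 : MvPolynomial (Fin 4) Ω) (hP0 : RatP B P0) (l l' : Fin 4 → Ω)
    (hl : dt l x = 0) (hl' : dt l' x = 0)
    (hlin : LinearIndependent Ω ![x, dv D x (P0 * lf l), dv D x (P0 * lf l')]) :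
    ∀ i, x i ∈ B := by
  rcases pln_mk hB x hx hF P0 hP0 l l' hl hl' hlin with h1 | ⟨h, n, g, hp⟩
  · exact h1
  by_contra hcon
  by_cases hA : NoPure D x h n
  swap
  · exact hcon (caseA hp hA)
  obtain ⟨Q, hQ2, hQy, hQpar⟩ := caseB hp hA hcon
  obtain ⟨Q1, hQ1, hQ12, hQ1y, hg⟩ := rat_Q hp Q hQ2 hQy hQpar
  have h2 : ∀ C l, dt l x = 0 → Par x (dv D x (C * Q1 * lf l)) := fun C l hl =>
    pln_nondeg hp hA (C * Q1) (fun P => hg P C) l hl
  rcases fin_Q hp Q1 hQ1 hQ12 h2 with h3 | h3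
  · exact hcon h3
  obtain ⟨F, hFdef⟩ : ∃ F, F = ∑ J : Sym (Fin 4) 5, a J • mo Ω (J : Multiset (Fin 4)) := ⟨_, rfl⟩
  have hFhom : F.IsHomogeneous (3 + 2) := by
    rw [hFdef]
    refine IsHomogeneous.sum _ _ _ fun J _ => ?_
    have h4 := Pool.Agent.Helper49.LN.mo_hom (E := Ω) (J : Multiset (Fin 4))
    rw [Sym.card_coe] at h4
    rw [smul_eq_C_mul]
    have h5 := (isHomogeneous_C (Fin 4) (a J)).mul h4
    rwa [zero_add] at h5
  have hFx : eval x F = 0 := by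
    rw [hFdef, eval_sum_mo]
    exact hF
  have hFB : RatP B F := by
    intro m
    rw [hFdef, coeff_sum]
    refine sum_mem fun J _ => ?_
    rw [coeff_smul, smul_eq_mul, Pool.Agent.Helper49.LN.mo_eq, coeff_monomial]
    refine mul_mem (hB.mem J) ?_
    split_ifs
    · exact one_mem B
    · exact zero_mem B
  rcases conic_div (rat_alg hB) x hx h hp.hB hp.h0 hp.hx Q1 F hQ1 hFB 3 hQ12 hFhom hQ1y h3 hFx with
    h4 | ⟨h', h5, h6, h7⟩ | ⟨A, C, h5, h6, h7⟩
  · exact hcon h4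
  · exact hcon (line_mem_two hB (by norm_num) x hx hF h h' hp.hB h5 h6 hp.hx h7)
  · exact conic_count D a hB.dual h hp.h0 Q1 A C hQ12 h5 h6 (hFdef ▸ h7)

end Pool.Agent.Helper6.QS
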