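import Pool.Agent.Helper6.QS.KeyDich
import Pool.Agent.Helper6.QS.KeyBlk

/-!
# QS: the key statement for `(3, 5)`, `(4, 7)`, `(6, 10)`
-/

set_option autoImplicit false

namespace Pool.Agent.Helper6.QS

open scoped BigOperators
open MvPolynomial
open Pool.Agent.Helper8.LG (Bdd form mon)
open Pool.Agent.Helper49.LN (cP mo hf pl)

theorem hf_lf {Ω σ : Type*} [Field Ω] [Fintype σ] [DecidableEq σ] (x : σ → Ω) (i j : σ) :
    hf x i j = lf (Pi.single j (x i) - Pi.single i (x j)) := by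
  unfold Pool.Agent.Helper49.LN.hf lf
  simp only [Pi.sub_apply, sub_smul, Finset.sum_sub_distrib]
  congr 1
  · rw [Finset.sum_eq_single j]
    · rw [Pi.single_eq_same]
    · intro b _ hb
      rw [Pi.single_eq_of_ne hb, zero_smul]
    · intro h
      exact absurd (Finset.mem_univ _) h
  · rw [Finset.sum_eq_single i]
    · rw [Pi.single_eq_same]
    · intro b _ hb
      rw [Pi.single_eq_of_ne hb, zero_smul]
    · intro h
      exact absurd (Finset.mem_univ _) h

theorem dt_hf {Ω σ : Type*} [Field Ω] [Fintype σ] [DecidableEq σ] (x : σ → Ω) (i j : σ) :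
    dt (Pi.single j (x i) - Pi.single i (x j)) x = 0 := by
  unfold dt
  simp only [Pi.sub_apply, sub_mul, Finset.sum_sub_distrib]
  rw [Finset.sum_eq_single j, Finset.sum_eq_single i, Pi.single_eq_same, Pi.single_eq_same]
  · ring
  · intro b _ hb
    rw [Pi.single_eq_of_ne hb, zero_mul]
  · intro h
    exact absurd (Finset.mem_univ _) h
  · intro b _ hb
    rw [Pi.single_eq_of_ne hb, zero_mul]
  · intro h
    exact absurd (Finset.mem_univ _) h

theorem ratP_mo {Ω σ : Type*} [Field Ω] [DecidableEq σ] (B : Subfield Ω) (K : Multiset σ) :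
    RatP B (mo Ω K) := by
  intro m
  rw [Pool.Agent.Helper49.LN.mo_eq, coeff_monomial]
  split_ifs
  · exact one_mem B
  · exact zero_mem B

universe u

theorem key35 {Ω : Type*} [Field Ω] [CharZero Ω] {D : Sym (Fin 4) 5 → Derivation ℤ Ω Ω}
    {a : Sym (Fin 4) 5 → Ω} {B : Subfield Ω} (hB : Frame D a B) (x : Fin 4 → Ω) (hx : x 0 = 1)
    (hF : form a x = 0) : ∀ l, x l ∈ B := by
  have h0 := key_dich (n := 4) hB x 0 hx hF (Or.inl ⟨Fintype.card_fin _, rfl⟩)
  have e : @dv Ω _ (Fin 4) _ _ (4 + 1) D x = @dv Ω _ (Fin 4) _ _ 5 D x := rfl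
  rw [e] at h0
  rcases h0 with h | ⟨_, I, I', j, l, hlin⟩ | h
  · exact h
  · rw [hf_lf, hf_lf] at hlin
    exact key_blk hB x hx hF _ (fun m => by
        rw [coeff_add]
        exact add_mem (ratP_mo B _ m) (ratP_mo B _ m)) _ _ (dt_hf x 0 j) (dt_hf x 0 l) hlin
  · exact absurd h.1 (by rw [Fintype.card_fin]; norm_num)

theorem keyQ35 : KeyQ.{u} 3 5 := by
  intro Ω _ _ D a B hB x hx hF
  exact key35 hB x hx hF

theorem keyQ47 : KeyQ.{u} 4 7 := by
  intro Ω _ _ D a B hB x hx hF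
  have hc : Fintype.card (Fin (4 + 1)) = 5 := Fintype.card_fin _
  rcases key_dich (n := 6) hB x 0 hx hF (Or.inr (Or.inl ⟨hc, rfl⟩)) with h | h | h
  · exact h
  · exact absurd h.1 (by rw [hc]; norm_num)
  · exact absurd h.1 (by rw [hc]; norm_num)

theorem keyQ610 : KeyQ.{u} 6 10 := by
  intro Ω _ _ D a B hB x hx hF
  have hc : Fintype.card (Fin (6 + 1)) = 7 := Fintype.card_fin _
  rcases key_dich (n := 9) hB x 0 hx hF (Or.inr (Or.inr (Or.inr ⟨hc, rfl⟩))) with h | h | h
  · exact h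
  · exact absurd h.1 (by rw [hc]; norm_num)
  · exact absurd h.1 (by rw [hc]; norm_num)

/-- **The key statement in the three cases.** -/
theorem keyQ_all (N q : ℕ) (h : (N = 3 ∧ q = 5) ∨ (N = 4 ∧ q = 7) ∨ (N = 6 ∧ q = 10)) :
    KeyQ.{u} N q := by
  rcases h with ⟨rfl, rfl⟩ | ⟨rfl, rfl⟩ | ⟨rfl, rfl⟩
  · exact keyQ35
  · exact keyQ47
  · exact keyQ610

end Pool.Agent.Helper6.QS
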