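import Pool.Agent.Helper6.QS.Defs

/-! QS-8: the block matrix and its characteristic polynomial. -/

set_option autoImplicit false
open Polynomial Quaternion
namespace Helper6.QS

/-- The determinant of a bordered matrix. -/
theorem h28_detA {ι κ : Type} [Fintype ι] [DecidableEq ι] [Fintype κ] [DecidableEq κ]
    {R : Type} [CommRing R] (s Q g : R) (Cm Z : Matrix κ ι R) (Y : Matrix κ κ R)
    (hYZ : Y * Z = Q • Cm) (hCZ : Cm.transpose * Z = g • (1 : Matrix ι ι R)) :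
    (Matrix.fromBlocks (s • (1 : Matrix ι ι R)) (-Cm.transpose) (-Cm) Y).det *
      Q ^ (Fintype.card ι) = (s * Q - g) ^ (Fintype.card ι) * Y.det := by
  have h : Matrix.fromBlocks (s • (1 : Matrix ι ι R)) (-Cm.transpose) (-Cm) Y *
      Matrix.fromBlocks (Q • (1 : Matrix ι ι R)) 0 Z 1 =
      Matrix.fromBlocks ((s * Q - g) • (1 : Matrix ι ι R)) (-Cm.transpose) 0 Y := by
    rw [Matrix.fromBlocks_multiply]
    congr 1
    · rw [Matrix.neg_mul, hCZ, Matrix.smul_mul, Matrix.one_mul, smul_smul, sub_smul,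
        ← sub_eq_add_neg]
    · simp
    · rw [hYZ]; simp
    · simp
  have h2 := congrArg Matrix.det h
  rw [Matrix.det_mul, Matrix.det_fromBlocks_zero₁₂, Matrix.det_fromBlocks_zero₂₁,
    Matrix.det_one, mul_one, Matrix.det_smul, Matrix.det_smul, Matrix.det_one, mul_one,
    mul_one] at h2
  exact h2

/-- The determinant of a matrix with two diagonal scalar blocks. -/
theorem h28_detB {ι : Type} [Fintype ι] [DecidableEq ι] {R : Type} [CommRing R] [IsDomain R]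
    (s t N q : R) (ht : t ≠ 0) (Lm : Matrix ι ι R) (h : Lm * Lm.transpose = N • (1 : Matrix ι ι R))
    (hq : s * t - N = q) :
    (Matrix.fromBlocks (s • (1 : Matrix ι ι R)) (-Lm) (-Lm.transpose)
      (t • (1 : Matrix ι ι R))).det = q ^ (Fintype.card ι) := by
  have h1 := h28_detA s t N Lm.transpose Lm.transpose (t • (1 : Matrix ι ι R)) (by simp) (by
    rw [Matrix.transpose_transpose, h])
  rw [Matrix.transpose_transpose, hq, Matrix.det_smul, Matrix.det_one, mul_one] at h1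
  exact mul_right_cancel₀ (pow_ne_zero _ ht) h1

/-- The determinant of the whole matrix. -/
theorem h28_detM {ι κ : Type} [Fintype ι] [DecidableEq ι] [Fintype κ] [DecidableEq κ]
    {R : Type} [CommRing R] [IsDomain R] (s q1 q2 g1 g2 P : R) (hq1 : q1 ≠ 0) (hq2 : q2 ≠ 0)
    (C1 C2 : Matrix κ ι R) (Y1 Y2 D1 D2 : Matrix κ κ R)
    (hY1 : Y1 * D1 = q1 • (1 : Matrix κ κ R)) (hY2 : Y2 * D2 = q2 • (1 : Matrix κ κ R))
    (hA1 : C1.transpose * (D1 * C1) = g1 • (1 : Matrix ι ι R))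
    (hA2 : C2.transpose * (D2 * C2) = g2 • (1 : Matrix ι ι R))
    (hd1 : Y1.det = q1 ^ (Fintype.card ι)) (hd2 : Y2.det = q2 ^ (Fintype.card ι))
    (hP : P = s * q1 * q2 - g1 * q2 - g2 * q1) :
    (Matrix.fromBlocks (s • (1 : Matrix ι ι R)) (-(Matrix.fromRows C1 C2).transpose)
      (-(Matrix.fromRows C1 C2)) (Matrix.fromBlocks Y1 0 0 Y2)).det = P ^ (Fintype.card ι) := by
  have h := h28_detA s (q1 * q2) (g1 * q2 + g2 * q1) (Matrix.fromRows C1 C2)
    (Matrix.fromRows (q2 • (D1 * C1)) (q1 • (D2 * C2))) (Matrix.fromBlocks Y1 0 0 Y2) (by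
      rw [Matrix.fromBlocks_mul_fromRows]
      rw [Matrix.zero_mul, Matrix.zero_mul, add_zero, zero_add, Matrix.mul_smul, Matrix.mul_smul,
        ← Matrix.mul_assoc, ← Matrix.mul_assoc, hY1, hY2, Matrix.smul_mul, Matrix.smul_mul,
        Matrix.one_mul, Matrix.one_mul, smul_smul, smul_smul]
      ext i j : 1
      rcases i with i | i
      · simp only [Matrix.fromRows_apply_inl, Matrix.smul_apply, smul_eq_mul]
        ring
      · simp only [Matrix.fromRows_apply_inr, Matrix.smul_apply, smul_eq_mul]) (by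
      rw [Matrix.transpose_fromRows, Matrix.fromCols_mul_fromRows, Matrix.mul_smul,
        Matrix.mul_smul, hA1, hA2, smul_smul, smul_smul, ← add_smul]
      congr 1
      ring)
  have hdet : (Matrix.fromBlocks Y1 0 0 Y2).det =
      q1 ^ (Fintype.card ι) * q2 ^ (Fintype.card ι) := by
    rw [Matrix.det_fromBlocks_zero₂₁, hd1, hd2]
  rw [hdet, ← mul_pow] at h
  have hne : (q1 * q2) ^ (Fintype.card ι) ≠ 0 := pow_ne_zero _ (mul_ne_zero hq1 hq2)
  apply mul_right_cancel₀ hne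
  rw [h, hP]
  congr 2
  ring

/-- The matrix of the left multiplication by a quaternion. -/
def h28_L (x : ℍ[ℤ]) : Matrix (Fin 4) (Fin 4) ℤ :=
  !![x.re, -x.imI, -x.imJ, -x.imK; x.imI, x.re, -x.imK, x.imJ;
    x.imJ, x.imK, x.re, -x.imI; x.imK, -x.imJ, x.imI, x.re]

theorem h28_L_mul (x y : ℍ[ℤ]) : h28_L x * h28_L y = h28_L (x * y) := by
  unfold h28_L
  ext i j
  fin_cases i <;> fin_cases j <;>
    simp [Matrix.mul_apply, Fin.sum_univ_four, Quaternion.re_mul, Quaternion.imI_mul,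
      Quaternion.imJ_mul, Quaternion.imK_mul] <;> ring

theorem h28_L_star (x : ℍ[ℤ]) : h28_L (star x) = (h28_L x).transpose := by
  unfold h28_L
  ext i j
  fin_cases i <;> fin_cases j <;> simp

theorem h28_L_add_tr (x : ℍ[ℤ]) :
    h28_L x + (h28_L x).transpose = (2 * x.re) • (1 : Matrix (Fin 4) (Fin 4) ℤ) := by
  unfold h28_L
  ext i j
  fin_cases i <;> fin_cases j <;> simp <;> ring

theorem h28_L_real (r : ℤ) : h28_L (r : ℍ[ℤ]) = r • (1 : Matrix (Fin 4) (Fin 4) ℤ) := by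
  unfold h28_L
  ext i j
  fin_cases i <;> fin_cases j <;> simp

theorem h28_L_mul_tr (x : ℍ[ℤ]) :
    h28_L x * (h28_L x).transpose = (normSq x) • (1 : Matrix (Fin 4) (Fin 4) ℤ) := by
  unfold h28_L
  ext i j
  fin_cases i <;> fin_cases j <;>
    simp [Matrix.mul_apply, Fin.sum_univ_four, Quaternion.normSq_def'] <;> ring

theorem h28_L_tr_mul (x : ℍ[ℤ]) :
    (h28_L x).transpose * h28_L x = (normSq x) • (1 : Matrix (Fin 4) (Fin 4) ℤ) := by
  unfold h28_L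
  ext i j
  fin_cases i <;> fin_cases j <;>
    simp [Matrix.mul_apply, Fin.sum_univ_four, Quaternion.normSq_def'] <;> ring

theorem h28_cross (c z e : ℍ[ℤ]) :
    (h28_L c).transpose * (h28_L z * h28_L e) +
      (h28_L e).transpose * ((h28_L z).transpose * h28_L c) =
      (2 * (star c * z * e).re) • (1 : Matrix (Fin 4) (Fin 4) ℤ) := by
  have h1 : (h28_L c).transpose * (h28_L z * h28_L e) = h28_L (star c * z * e) := by
    rw [← h28_L_star, h28_L_mul, h28_L_mul, mul_assoc]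
  have h2 : (h28_L e).transpose * ((h28_L z).transpose * h28_L c) =
      (h28_L (star c * z * e)).transpose := by
    rw [← h1]
    simp [Matrix.transpose_mul, Matrix.mul_assoc]
  rw [h1, h2, h28_L_add_tr]

/-- The 8 x 8 block. -/
def h28_B (a b : ℤ) (z : ℍ[ℤ]) : Matrix (Fin 4 ⊕ Fin 4) (Fin 4 ⊕ Fin 4) ℤ :=
  Matrix.fromBlocks (a • (1 : Matrix (Fin 4) (Fin 4) ℤ)) (h28_L z) (h28_L z).transpose
    (b • (1 : Matrix (Fin 4) (Fin 4) ℤ))

/-- The 8 x 4 block. -/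
def h28_C (c e : ℍ[ℤ]) : Matrix (Fin 4 ⊕ Fin 4) (Fin 4) ℤ :=
  Matrix.fromRows (h28_L c) (h28_L e)

theorem h28_fromBlocks_sub {ι κ R : Type} [Ring R] (A A' : Matrix ι ι R)
    (B B' : Matrix ι κ R) (D D' : Matrix κ ι R) (E E' : Matrix κ κ R) :
    Matrix.fromBlocks A B D E - Matrix.fromBlocks A' B' D' E' =
      Matrix.fromBlocks (A - A') (B - B') (D - D') (E - E') := by
  ext i j : 1
  rcases i with i | i <;> rcases j with j | j <;> simp

theorem h28_B_sq (u v a b : ℤ) (z : ℍ[ℤ]) (h1 : a + b = -u) (h2 : a * b - normSq z = v) :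
    h28_B a b z * h28_B a b z = -(u • h28_B a b z) - v • 1 := by
  have hu : u = -(a + b) := by rw [h1]; ring
  subst hu
  subst h2
  unfold h28_B
  rw [Matrix.fromBlocks_multiply, h28_L_mul_tr, h28_L_tr_mul, ← Matrix.fromBlocks_one,
    Matrix.fromBlocks_smul, Matrix.fromBlocks_smul, Matrix.fromBlocks_neg,
    h28_fromBlocks_sub]
  congr 1
  · simp only [Matrix.smul_mul, Matrix.one_mul, smul_smul, ← add_smul, ← neg_smul, ← sub_smul]
    congr 1
    ring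
  · simp only [Matrix.smul_mul, Matrix.mul_smul, Matrix.one_mul, Matrix.mul_one, smul_zero,
      sub_zero, ← add_smul, ← neg_smul, neg_neg]
  · simp only [Matrix.smul_mul, Matrix.mul_smul, Matrix.one_mul, Matrix.mul_one, smul_zero,
      sub_zero, ← add_smul, ← neg_smul, neg_neg]
  · simp only [Matrix.smul_mul, Matrix.one_mul, smul_smul, ← add_smul, ← neg_smul, ← sub_smul]
    congr 1
    ring

theorem h28_CC (c e : ℍ[ℤ]) :
    (h28_C c e).transpose * h28_C c e =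
      (normSq c + normSq e) • (1 : Matrix (Fin 4) (Fin 4) ℤ) := by
  unfold h28_C
  rw [Matrix.transpose_fromRows, Matrix.fromCols_mul_fromRows, h28_L_tr_mul, h28_L_tr_mul,
    ← add_smul]

theorem h28_CBC (a b : ℤ) (z c e : ℍ[ℤ]) :
    (h28_C c e).transpose * (h28_B a b z * h28_C c e) =
      (a * normSq c + b * normSq e + 2 * (star c * z * e).re) •
        (1 : Matrix (Fin 4) (Fin 4) ℤ) := by
  unfold h28_C h28_B
  rw [Matrix.fromBlocks_mul_fromRows, Matrix.transpose_fromRows, Matrix.fromCols_mul_fromRows]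
  rw [Matrix.mul_add, Matrix.mul_add, Matrix.smul_mul, Matrix.smul_mul, Matrix.one_mul,
    Matrix.one_mul, Matrix.mul_smul, Matrix.mul_smul, h28_L_tr_mul, h28_L_tr_mul, add_smul,
    add_smul, ← h28_cross]
  simp only [smul_smul]
  abel

/-- The block of the characteristic matrix. -/
noncomputable def h28_Y (a b : ℤ) (z : ℍ[ℤ]) :
    Matrix (Fin 4 ⊕ Fin 4) (Fin 4 ⊕ Fin 4) ℤ[X] :=
  (X : ℤ[X]) • (1 : Matrix (Fin 4 ⊕ Fin 4) (Fin 4 ⊕ Fin 4) ℤ[X]) - (h28_B a b z).map C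

theorem h28_map_smul_one {ι : Type} [Fintype ι] [DecidableEq ι] (r : ℤ) :
    (r • (1 : Matrix ι ι ℤ)).map (C : ℤ →+* ℤ[X]) = (C r : ℤ[X]) • (1 : Matrix ι ι ℤ[X]) := by
  ext i j : 1
  rw [Matrix.map_apply, Matrix.smul_apply, Matrix.smul_apply, Matrix.one_apply, Matrix.one_apply]
  split_ifs <;> simp

theorem h28_map_smul {ι κ : Type} (r : ℤ) (M : Matrix ι κ ℤ) :
    (r • M).map (C : ℤ →+* ℤ[X]) = (C r : ℤ[X]) • M.map C := by
  ext i j : 1
  rw [Matrix.map_apply, Matrix.smul_apply, Matrix.smul_apply, Matrix.map_apply, smul_eq_mul,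
    smul_eq_mul, map_mul]

theorem h28_map_neg {ι κ : Type} (M : Matrix ι κ ℤ) :
    (-M).map (C : ℤ →+* ℤ[X]) = - M.map C := by
  ext i j : 1
  rw [Matrix.map_apply, Matrix.neg_apply, Matrix.neg_apply, Matrix.map_apply, map_neg]

theorem h28_map_sub {ι κ : Type} (M N : Matrix ι κ ℤ) :
    (M - N).map (C : ℤ →+* ℤ[X]) = M.map C - N.map C := by
  ext i j : 1
  rw [Matrix.map_apply, Matrix.sub_apply, Matrix.sub_apply, Matrix.map_apply, Matrix.map_apply,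
    map_sub]

theorem h28_Y_adj (u v a b : ℤ) (z : ℍ[ℤ]) (h1 : a + b = -u) (h2 : a * b - normSq z = v) :
    h28_Y a b z * ((X + C u : ℤ[X]) • (1 : Matrix (Fin 4 ⊕ Fin 4) (Fin 4 ⊕ Fin 4) ℤ[X]) +
      (h28_B a b z).map C) =
      quad u v • (1 : Matrix (Fin 4 ⊕ Fin 4) (Fin 4 ⊕ Fin 4) ℤ[X]) := by
  have hB : (h28_B a b z).map (C : ℤ →+* ℤ[X]) * (h28_B a b z).map (C : ℤ →+* ℤ[X]) =
      -((C u : ℤ[X]) • (h28_B a b z).map C) - (C v : ℤ[X]) • 1 := by
    rw [← Matrix.map_mul, h28_B_sq u v a b z h1 h2, h28_map_sub, h28_map_neg, h28_map_smul,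
      h28_map_smul_one]
  unfold h28_Y quad
  rw [Matrix.sub_mul, Matrix.mul_add, Matrix.mul_add, hB]
  simp only [Matrix.smul_mul, Matrix.mul_smul, Matrix.one_mul, Matrix.mul_one]
  module

theorem h28_CAC (u m n a b : ℤ) (z c e : ℍ[ℤ]) (h3 : normSq c + normSq e = m)
    (h4 : a * normSq c + b * normSq e + 2 * (star c * z * e).re = n - u * m) :
    ((h28_C c e).map (C : ℤ →+* ℤ[X])).transpose *
      (((X + C u : ℤ[X]) • (1 : Matrix (Fin 4 ⊕ Fin 4) (Fin 4 ⊕ Fin 4) ℤ[X]) +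
      (h28_B a b z).map C) * (h28_C c e).map C) =
      lin m n • (1 : Matrix (Fin 4) (Fin 4) ℤ[X]) := by
  have hC : ((h28_C c e).map (C : ℤ →+* ℤ[X])).transpose * (h28_C c e).map (C : ℤ →+* ℤ[X]) =
      (C m : ℤ[X]) • 1 := by
    rw [← Matrix.transpose_map, ← Matrix.map_mul, h28_CC, h3, h28_map_smul_one]
  have hB : ((h28_C c e).map (C : ℤ →+* ℤ[X])).transpose *
      ((h28_B a b z).map (C : ℤ →+* ℤ[X]) * (h28_C c e).map (C : ℤ →+* ℤ[X])) =
      (C (n - u * m) : ℤ[X]) • 1 := by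
    rw [← Matrix.transpose_map, ← Matrix.map_mul, ← Matrix.map_mul, h28_CBC, h4,
      h28_map_smul_one]
  rw [Matrix.add_mul, Matrix.mul_add, hB, Matrix.smul_mul, Matrix.one_mul, Matrix.mul_smul, hC,
    smul_smul, ← add_smul]
  congr 1
  unfold lin
  simp only [map_sub, map_mul]
  ring

theorem h28_quad_ne (u v : ℤ) : quad u v ≠ 0 := by
  have : (quad u v).Monic := by
    unfold quad
    monicity!
  exact this.ne_zero

theorem h28_det_Y (u v a b : ℤ) (z : ℍ[ℤ]) (h1 : a + b = -u) (h2 : a * b - normSq z = v) :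
    (h28_Y a b z).det = quad u v ^ 4 := by
  have hY : h28_Y a b z = Matrix.fromBlocks ((X - C a : ℤ[X]) • (1 : Matrix (Fin 4) (Fin 4) ℤ[X]))
      (-((h28_L z).map (C : ℤ →+* ℤ[X])))
      (-((h28_L z).map (C : ℤ →+* ℤ[X])).transpose)
      ((X - C b : ℤ[X]) • (1 : Matrix (Fin 4) (Fin 4) ℤ[X])) := by
    unfold h28_Y h28_B
    rw [← Matrix.fromBlocks_one, Matrix.fromBlocks_smul, Matrix.fromBlocks_map,
      h28_fromBlocks_sub]
    congr 1
    · rw [h28_map_smul_one, sub_smul]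
    · rw [smul_zero, zero_sub]
    · rw [smul_zero, zero_sub, Matrix.transpose_map]
    · rw [h28_map_smul_one, sub_smul]
  have hq : (X - C a : ℤ[X]) * (X - C b) - C (normSq z) = quad u v := by
    have hu : u = -(a + b) := by rw [h1]; ring
    subst hu
    subst h2
    unfold quad
    simp only [map_sub, map_mul, map_neg, map_add]
    ring
  have h := h28_detB (X - C a : ℤ[X]) (X - C b) (C (normSq z)) (quad u v) (X_sub_C_ne_zero b)
    ((h28_L z).map (C : ℤ →+* ℤ[X])) (by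
      rw [← Matrix.transpose_map, ← Matrix.map_mul, h28_L_mul_tr,
        h28_map_smul_one]) hq
  rw [hY, h, Fintype.card_fin]

/-- The matrix. -/
def h28_A (d a1 b1 a2 b2 : ℤ) (z1 c1 e1 z2 c2 e2 : ℍ[ℤ]) :
    Matrix (Fin 4 ⊕ ((Fin 4 ⊕ Fin 4) ⊕ (Fin 4 ⊕ Fin 4)))
      (Fin 4 ⊕ ((Fin 4 ⊕ Fin 4) ⊕ (Fin 4 ⊕ Fin 4))) ℤ :=
  Matrix.fromBlocks (d • (1 : Matrix (Fin 4) (Fin 4) ℤ))
    (Matrix.fromRows (h28_C c1 e1) (h28_C c2 e2)).transpose
    (Matrix.fromRows (h28_C c1 e1) (h28_C c2 e2))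
    (Matrix.fromBlocks (h28_B a1 b1 z1) 0 0 (h28_B a2 b2 z2))

theorem h28_B_symm (a b : ℤ) (z : ℍ[ℤ]) : (h28_B a b z).IsSymm := by
  unfold h28_B Matrix.IsSymm
  rw [Matrix.fromBlocks_transpose]
  simp

theorem h28_A_symm (d a1 b1 a2 b2 : ℤ) (z1 c1 e1 z2 c2 e2 : ℍ[ℤ]) :
    (h28_A d a1 b1 a2 b2 z1 c1 e1 z2 c2 e2).IsSymm := by
  unfold h28_A Matrix.IsSymm
  rw [Matrix.fromBlocks_transpose, Matrix.fromBlocks_transpose]
  have h1 := h28_B_symm a1 b1 z1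
  have h2 := h28_B_symm a2 b2 z2
  unfold Matrix.IsSymm at h1 h2
  rw [h1, h2]
  simp

theorem h28_A_charmatrix (d a1 b1 a2 b2 : ℤ) (z1 c1 e1 z2 c2 e2 : ℍ[ℤ]) :
    (h28_A d a1 b1 a2 b2 z1 c1 e1 z2 c2 e2).charmatrix =
      Matrix.fromBlocks ((X - C d : ℤ[X]) • (1 : Matrix (Fin 4) (Fin 4) ℤ[X]))
      (-(Matrix.fromRows ((h28_C c1 e1).map (C : ℤ →+* ℤ[X]))
        ((h28_C c2 e2).map (C : ℤ →+* ℤ[X]))).transpose)
      (-(Matrix.fromRows ((h28_C c1 e1).map (C : ℤ →+* ℤ[X]))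
        ((h28_C c2 e2).map (C : ℤ →+* ℤ[X]))))
      (Matrix.fromBlocks (h28_Y a1 b1 z1) 0 0 (h28_Y a2 b2 z2)) := by
  unfold h28_A
  rw [Matrix.charmatrix_fromBlocks, Matrix.charmatrix_fromBlocks]
  have hcm : ∀ (ι : Type) [Fintype ι] [DecidableEq ι] (M : Matrix ι ι ℤ),
      M.charmatrix = (X : ℤ[X]) • (1 : Matrix ι ι ℤ[X]) - M.map C := by
    intro ι _ _ M
    ext i j : 1
    by_cases h : i = j
    · subst h
      simp
    · simp [Matrix.charmatrix_apply_ne, h]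
  congr 1
  · rw [hcm, h28_map_smul_one, sub_smul]
  · ext i j : 1
    rcases j with j | j <;> simp
  · ext i j : 1
    rcases i with i | i <;> simp
  · rw [hcm, hcm]
    unfold h28_Y
    congr 1 <;> (ext i j : 1; simp)

theorem h28_A_charpoly (u1 v1 u2 v2 d m1 n1 m2 n2 a1 b1 a2 b2 : ℤ) (z1 c1 e1 z2 c2 e2 : ℍ[ℤ])
    (h1 : a1 + b1 = -u1) (h2 : a1 * b1 - normSq z1 = v1) (h3 : normSq c1 + normSq e1 = m1)
    (h4 : a1 * normSq c1 + b1 * normSq e1 + 2 * (star c1 * z1 * e1).re = n1 - u1 * m1)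
    (k1 : a2 + b2 = -u2) (k2 : a2 * b2 - normSq z2 = v2) (k3 : normSq c2 + normSq e2 = m2)
    (k4 : a2 * normSq c2 + b2 * normSq e2 + 2 * (star c2 * z2 * e2).re = n2 - u2 * m2) :
    (h28_A d a1 b1 a2 b2 z1 c1 e1 z2 c2 e2).charpoly =
      ((X - C d) * quad u1 v1 * quad u2 v2 - lin m1 n1 * quad u2 v2
        - lin m2 n2 * quad u1 v1) ^ 4 := by
  have h := h28_detM (X - C d : ℤ[X]) (quad u1 v1) (quad u2 v2) (lin m1 n1) (lin m2 n2)
    ((X - C d) * quad u1 v1 * quad u2 v2 - lin m1 n1 * quad u2 v2 - lin m2 n2 * quad u1 v1)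
    (h28_quad_ne u1 v1) (h28_quad_ne u2 v2)
    ((h28_C c1 e1).map (C : ℤ →+* ℤ[X])) ((h28_C c2 e2).map (C : ℤ →+* ℤ[X]))
    (h28_Y a1 b1 z1) (h28_Y a2 b2 z2) _ _
    (h28_Y_adj u1 v1 a1 b1 z1 h1 h2) (h28_Y_adj u2 v2 a2 b2 z2 k1 k2)
    (h28_CAC u1 m1 n1 a1 b1 z1 c1 e1 h3 h4) (h28_CAC u2 m2 n2 a2 b2 z2 c2 e2 k3 k4)
    (by rw [h28_det_Y u1 v1 a1 b1 z1 h1 h2, Fintype.card_fin])
    (by rw [h28_det_Y u2 v2 a2 b2 z2 k1 k2, Fintype.card_fin]) rfl
  rw [Fintype.card_fin] at h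
  rw [Matrix.charpoly, h28_A_charmatrix]
  exact h

theorem exists_block_matrix (u1 v1 u2 v2 d m1 n1 m2 n2 a1 b1 a2 b2 : ℤ) (z1 c1 e1 z2 c2 e2 : ℍ[ℤ])
    (h1 : a1 + b1 = -u1) (h2 : a1 * b1 - normSq z1 = v1) (h3 : normSq c1 + normSq e1 = m1)
    (h4 : a1 * normSq c1 + b1 * normSq e1 + 2 * (star c1 * z1 * e1).re = n1 - u1 * m1)
    (k1 : a2 + b2 = -u2) (k2 : a2 * b2 - normSq z2 = v2) (k3 : normSq c2 + normSq e2 = m2)
    (k4 : a2 * normSq c2 + b2 * normSq e2 + 2 * (star c2 * z2 * e2).re = n2 - u2 * m2) :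
    ∃ A : Matrix (Fin 5 × Fin 4) (Fin 5 × Fin 4) ℤ, A.IsSymm ∧
      A.charpoly = ((X - C d) * quad u1 v1 * quad u2 v2 - lin m1 n1 * quad u2 v2
        - lin m2 n2 * quad u1 v1) ^ 4 := by
  have hcard : Fintype.card (Fin 4 ⊕ ((Fin 4 ⊕ Fin 4) ⊕ (Fin 4 ⊕ Fin 4))) =
      Fintype.card (Fin 5 × Fin 4) := by simp
  let e := Fintype.equivOfCardEq hcard
  refine ⟨Matrix.reindex e e (h28_A d a1 b1 a2 b2 z1 c1 e1 z2 c2 e2), ?_, ?_⟩
  · have h := h28_A_symm d a1 b1 a2 b2 z1 c1 e1 z2 c2 e2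
    exact h.submatrix _
  · rw [Matrix.charpoly_reindex]
    exact h28_A_charpoly u1 v1 u2 v2 d m1 n1 m2 n2 a1 b1 a2 b2 z1 c1 e1 z2 c2 e2 h1 h2 h3 h4
      k1 k2 k3 k4

end Helper6.QS
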