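import Pool.Agent.Helper6.QS.Defs

/-! QS-11: two congruences with different `X`: upper bound by averaging over residue classes. -/

set_option autoImplicit false
namespace Helper6.QS

/-- reduction modulo the sublattice generated by `(2D', -X D')` and `(2D, -X' D)` -/
theorem box_two_red (D D' X X' : ℤ) (hD : 0 < D) (hD' : 0 < D') (hX : 0 < X) (hX' : 0 < X')
    (hne : X ≠ X') (x y : ℤ) :
    ∃ x' y' : ℤ, |x'| ≤ 2 * (D + D') ∧ |y'| ≤ X * D' + X' * D ∧
      D ∣ (x' - x) * X + 2 * (y' - y) ∧ D' ∣ (x' - x) * X' + 2 * (y' - y) := by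
  set Δ : ℤ := 2 * D * D' * (X - X') with hΔ
  have hΔ0 : Δ ≠ 0 := by
    rw [hΔ]
    have : X - X' ≠ 0 := sub_ne_zero.mpr hne
    positivity
  set nα : ℤ := -(x * X' * D + 2 * y * D) with hnα
  set nβ : ℤ := 2 * D' * y + x * X * D' with hnβ
  have hα := Int.emod_add_mul_ediv nα Δ
  have hβ := Int.emod_add_mul_ediv nβ Δ
  have hα0 := Int.emod_nonneg nα hΔ0
  have hβ0 := Int.emod_nonneg nβ hΔ0
  have hα1 := Int.emod_lt_abs nα hΔ0
  have hβ1 := Int.emod_lt_abs nβ hΔ0
  set a : ℤ := nα / Δ with ha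
  set b : ℤ := nβ / Δ with hb
  set r : ℤ := nα % Δ with hr
  set t : ℤ := nβ % Δ with ht
  have hΔp : 0 < |Δ| := abs_pos.mpr hΔ0
  refine ⟨x - a * (2 * D') - b * (2 * D), y + a * (X * D') + b * (X' * D), ?_, ?_, ?_, ?_⟩
  · have h1 : Δ * (x - a * (2 * D') - b * (2 * D)) = r * (2 * D') + t * (2 * D) := by
      have e1 : r = nα - Δ * a := by linarith
      have e2 : t = nβ - Δ * b := by linarith
      rw [e1, e2, hnα, hnβ, hΔ]; ring
    have h2 : |Δ| * |x - a * (2 * D') - b * (2 * D)| ≤ |Δ| * (2 * (D + D')) := by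
      rw [← abs_mul, h1, abs_of_nonneg (by positivity)]
      nlinarith
    exact le_of_mul_le_mul_left h2 hΔp
  · have h1 : Δ * (y + a * (X * D') + b * (X' * D)) = -(r * (X * D') + t * (X' * D)) := by
      have e1 : r = nα - Δ * a := by linarith
      have e2 : t = nβ - Δ * b := by linarith
      rw [e1, e2, hnα, hnβ, hΔ]; ring
    have h2 : |Δ| * |y + a * (X * D') + b * (X' * D)| ≤ |Δ| * (X * D' + X' * D) := by
      rw [← abs_mul, h1, abs_neg, abs_of_nonneg (by positivity)]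
      have p1 : 0 < X * D' := by positivity
      have p2 : 0 < X' * D := by positivity
      nlinarith
    exact le_of_mul_le_mul_left h2 hΔp
  · refine ⟨-(2 * b * X) + 2 * b * X', ?_⟩
    ring
  · refine ⟨-(2 * a * X') + 2 * a * X, ?_⟩
    ring

theorem box_two (D D' X X' s s' B4 B5 : ℤ) (L4 L5 : ℕ) (hD : 0 < D) (hD' : 0 < D') (hoD : Odd D)
    (hoD' : Odd D') (hX : 0 < X) (hX' : 0 < X') (hne : X ≠ X') :
    D * D' * ((((bx B4 B5 L4 L5).filter (fun a => D ∣ 16 * a.1 * X + 32 * a.2 + s ∧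
      D' ∣ 16 * a.1 * X' + 32 * a.2 + s')).card : ℕ) : ℤ)
      ≤ (L4 + 4 * (D + D')) * (L5 + 2 * (X * D' + X' * D)) * (Int.gcd D (Int.gcd D' (X - X')) : ℤ) := by
  classical
  set e : ℕ := Int.gcd D (Int.gcd D' (X - X')) with he
  have hedD : (e : ℤ) ∣ D := Int.gcd_dvd_left ..
  have hedG : (e : ℤ) ∣ (Int.gcd D' (X - X') : ℤ) := Int.gcd_dvd_right ..
  have hedD' : (e : ℤ) ∣ D' := hedG.trans (Int.gcd_dvd_left ..)
  have he0 : (0 : ℤ) < e := by
    have : 0 < e := Int.gcd_pos_of_ne_zero_left _ hD.ne'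
    exact_mod_cast this
  -- Bezout
  obtain ⟨j0, k0, l0, hbez⟩ : ∃ j0 k0 l0 : ℤ, (e : ℤ) = j0 * (X' - X) + k0 * D + l0 * D' := by
    have h1 := Int.gcd_eq_gcd_ab D (Int.gcd D' (X - X') : ℤ)
    have h2 := Int.gcd_eq_gcd_ab D' (X - X')
    refine ⟨-(D'.gcdB (X - X') * D.gcdB (Int.gcd D' (X - X') : ℤ)), D.gcdA (Int.gcd D' (X - X') : ℤ),
      D'.gcdA (X - X') * D.gcdB (Int.gcd D' (X - X') : ℤ), ?_⟩
    rw [he, h1]
    nth_rewrite 2 [h2]
    ring
  obtain ⟨q, hq⟩ := hedD'
  have hq0 : 0 < q := by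
    by_contra hcon
    push Not at hcon
    nlinarith
  have hoq : Odd q := by
    rw [hq] at hoD'
    exact (Int.odd_mul.mp hoD').2
  have hcop2D : IsCoprime (2 : ℤ) D := by
    obtain ⟨k, hk⟩ := hoD
    exact ⟨-k, 1, by rw [hk]; ring⟩
  have hcop2q : IsCoprime (2 : ℤ) q := by
    obtain ⟨k, hk⟩ := hoq
    exact ⟨-k, 1, by rw [hk]; ring⟩
  have hcop2D' : IsCoprime (2 : ℤ) D' := by
    obtain ⟨k, hk⟩ := hoD'
    exact ⟨-k, 1, by rw [hk]; ring⟩
  have h16 : (16 : ℤ) = 2 ^ 4 := by norm_num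
  have hc16D : IsCoprime (16 : ℤ) D := by rw [h16]; exact hcop2D.pow_left
  have hc16D' : IsCoprime (16 : ℤ) D' := by rw [h16]; exact hcop2D'.pow_left
  choose fx fy hf1 hf2 hf3 hf4 using box_two_red D D' X X' hD hD' hX hX' hne
  -- the points p(i,l)
  let px : ℤ × ℤ → ℤ := fun c => 2 * j0 * c.2
  let py : ℤ × ℤ → ℤ := fun c => c.1 + c.2 * (-(X * j0) + D * k0)
  set S := (bx B4 B5 L4 L5).filter (fun a => D ∣ 16 * a.1 * X + 32 * a.2 + s ∧
      D' ∣ 16 * a.1 * X' + 32 * a.2 + s') with hS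
  set R : Finset (ℤ × ℤ) := Finset.Ico 0 D ×ˢ Finset.Ico 0 q with hR
  set E : Finset (ℤ × ℤ) := Finset.Ico (B4 - 2 * (D + D')) (B4 + L4 + 2 * (D + D')) ×ˢ
    Finset.Ico (B5 - (X * D' + X' * D)) (B5 + L5 + (X * D' + X' * D)) with hE
  let F : (ℤ × ℤ) × (ℤ × ℤ) → ℤ × ℤ := fun p =>
    (p.1.1 + fx (px p.2) (py p.2), p.1.2 + fy (px p.2) (py p.2))
  have hmaps : Set.MapsTo F (S ×ˢ R : Finset _) E := by
    rintro ⟨a, c⟩ hac
    rw [Finset.mem_coe, Finset.mem_product] at hac
    have ha := (Finset.mem_filter.mp hac.1).1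
    rw [bx, Finset.mem_product, Finset.mem_Ico, Finset.mem_Ico] at ha
    have g1 := abs_le.mp (hf1 (px c) (py c))
    have g2 := abs_le.mp (hf2 (px c) (py c))
    rw [Finset.mem_coe, hE, Finset.mem_product, Finset.mem_Ico, Finset.mem_Ico]
    simp only [F] at *
    obtain ⟨⟨a1, a2⟩, a3, a4⟩ := ha
    refine ⟨⟨?_, ?_⟩, ?_, ?_⟩ <;> linarith [g1.1, g1.2, g2.1, g2.2]
  have hinj : Set.InjOn F (S ×ˢ R : Finset _) := by
    rintro ⟨a, c⟩ hac ⟨a', c'⟩ hac' hF
    rw [Finset.mem_coe, Finset.mem_product] at hac hac'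
    have ha := (Finset.mem_filter.mp hac.1).2
    have ha' := (Finset.mem_filter.mp hac'.1).2
    have hc := hac.2
    have hc' := hac'.2
    rw [hR, Finset.mem_product, Finset.mem_Ico, Finset.mem_Ico] at hc hc'
    simp only at ha ha' hc hc'
    simp only [F, Prod.mk.injEq] at hF
    obtain ⟨hF1, hF2⟩ := hF
    have u1 : D ∣ (a.1 - a'.1) * X + 2 * (a.2 - a'.2) := by
      have := dvd_sub ha.1 ha'.1
      have h2 : 16 * a.1 * X + 32 * a.2 + s - (16 * a'.1 * X + 32 * a'.2 + s)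
        = 16 * ((a.1 - a'.1) * X + 2 * (a.2 - a'.2)) := by ring
      rw [h2] at this
      exact hc16D.symm.dvd_of_dvd_mul_left this
    have u2 : D' ∣ (a.1 - a'.1) * X' + 2 * (a.2 - a'.2) := by
      have := dvd_sub ha.2 ha'.2
      have h2 : 16 * a.1 * X' + 32 * a.2 + s' - (16 * a'.1 * X' + 32 * a'.2 + s')
        = 16 * ((a.1 - a'.1) * X' + 2 * (a.2 - a'.2)) := by ring
      rw [h2] at this
      exact hc16D'.symm.dvd_of_dvd_mul_left this
    have v1 := hf3 (px c) (py c)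
    have v1' := hf3 (px c') (py c')
    have v2 := hf4 (px c) (py c)
    have v2' := hf4 (px c') (py c')
    -- the difference of the p's
    have w1 : D ∣ (px c - px c') * X + 2 * (py c - py c') := by
      have : (px c - px c') * X + 2 * (py c - py c') =
        -((fx (px c) (py c) - px c) * X + 2 * (fy (px c) (py c) - py c))
        + ((fx (px c') (py c') - px c') * X + 2 * (fy (px c') (py c') - py c'))
        - ((a.1 - a'.1) * X + 2 * (a.2 - a'.2)) := by
        have e1 : fx (px c) (py c) = a'.1 + fx (px c') (py c') - a.1 := by linarith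
        have e2 : fy (px c) (py c) = a'.2 + fy (px c') (py c') - a.2 := by linarith
        rw [e1, e2]; ring
      rw [this]
      exact dvd_sub (dvd_add ((dvd_neg).mpr v1) v1') u1
    have w2 : D' ∣ (px c - px c') * X' + 2 * (py c - py c') := by
      have : (px c - px c') * X' + 2 * (py c - py c') =
        -((fx (px c) (py c) - px c) * X' + 2 * (fy (px c) (py c) - py c))
        + ((fx (px c') (py c') - px c') * X' + 2 * (fy (px c') (py c') - py c'))
        - ((a.1 - a'.1) * X' + 2 * (a.2 - a'.2)) := by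
        have e1 : fx (px c) (py c) = a'.1 + fx (px c') (py c') - a.1 := by linarith
        have e2 : fy (px c) (py c) = a'.2 + fy (px c') (py c') - a.2 := by linarith
        rw [e1, e2]; ring
      rw [this]
      exact dvd_sub (dvd_add ((dvd_neg).mpr v2) v2') u2
    simp only [px, py] at w1 w2
    -- first coordinate
    have z1 : c.1 = c'.1 := by
      have h3 : (2 * j0 * c.2 - 2 * j0 * c'.2) * X + 2 * (c.1 + c.2 * (-(X * j0) + D * k0) -
        (c'.1 + c'.2 * (-(X * j0) + D * k0))) = 2 * (c.1 - c'.1) + D * (2 * k0 * (c.2 - c'.2)) := by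
        ring
      rw [h3] at w1
      have h4 : D ∣ 2 * (c.1 - c'.1) := (dvd_add_left (dvd_mul_right _ _)).mp w1
      have h5 : D ∣ c.1 - c'.1 := hcop2D.symm.dvd_of_dvd_mul_left h4
      have h6 : |c.1 - c'.1| < D := by rw [abs_lt]; constructor <;> linarith [hc.1.1, hc.1.2, hc'.1.1, hc'.1.2]
      have := Int.eq_zero_of_abs_lt_dvd h5 h6
      linarith
    have z2 : c.2 = c'.2 := by
      have h3 : (2 * j0 * c.2 - 2 * j0 * c'.2) * X' + 2 * (c.1 + c.2 * (-(X * j0) + D * k0) -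
        (c'.1 + c'.2 * (-(X * j0) + D * k0))) = 2 * (c.2 - c'.2) * (j0 * (X' - X) + k0 * D) := by
        rw [z1]; ring
      rw [h3] at w2
      have h4 : j0 * (X' - X) + k0 * D = e - l0 * D' := by linarith
      rw [h4] at w2
      have h5 : 2 * (c.2 - c'.2) * (e - l0 * D') = e * (2 * (c.2 - c'.2)) - D' * (2 * (c.2 - c'.2) * l0) := by ring
      rw [h5] at w2
      have h6 : D' ∣ e * (2 * (c.2 - c'.2)) := (dvd_sub_left (dvd_mul_right _ _)).mp w2
      rw [hq] at h6
      have h7 : q ∣ 2 * (c.2 - c'.2) := Int.dvd_of_mul_dvd_mul_left he0.ne' h6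
      have h8 : q ∣ c.2 - c'.2 := hcop2q.symm.dvd_of_dvd_mul_left h7
      have h9 : |c.2 - c'.2| < q := by rw [abs_lt]; constructor <;> linarith [hc.2.1, hc.2.2, hc'.2.1, hc'.2.2]
      have := Int.eq_zero_of_abs_lt_dvd h8 h9
      linarith
    have z3 : c = c' := Prod.ext z1 z2
    subst z3
    have z4 : a = a' := Prod.ext (by linarith) (by linarith)
    rw [z4]
  have hcard := Finset.card_le_card_of_injOn F hmaps hinj
  rw [Finset.card_product] at hcard
  have hRc : (R.card : ℤ) = D * q := by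
    rw [hR, Finset.card_product, Int.card_Ico, Int.card_Ico]
    push_cast
    rw [Int.toNat_of_nonneg (by linarith), Int.toNat_of_nonneg (by linarith)]
    ring
  have hEc : (E.card : ℤ) = (L4 + 4 * (D + D')) * (L5 + 2 * (X * D' + X' * D)) := by
    rw [hE, Finset.card_product, Int.card_Ico, Int.card_Ico]
    have p1 : 0 < X * D' := by positivity
    have p2 : 0 < X' * D := by positivity
    push_cast
    rw [Int.toNat_of_nonneg (by linarith [Int.natCast_nonneg L4]), Int.toNat_of_nonneg (by linarith [Int.natCast_nonneg L5])]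
    ring
  have hfin : (S.card : ℤ) * (D * q) ≤ (L4 + 4 * (D + D')) * (L5 + 2 * (X * D' + X' * D)) := by
    rw [← hRc, ← hEc]
    exact_mod_cast hcard
  have : D * D' * (S.card : ℤ) = ((S.card : ℤ) * (D * q)) * e := by
    rw [hq]; ring
  rw [this]
  exact mul_le_mul_of_nonneg_right hfin he0.le

end Helper6.QS
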