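import Pool.Agent.Helper6.QS.Defs

/-! QS-12: one congruence, and two congruences with the same `X`. -/

set_option autoImplicit false
namespace Helper6.QS

namespace BoxAux

/-- The number of integers of a residue class in an interval. -/
theorem cnt_modEq (D : ℤ) (hD : 0 < D) (r B : ℤ) (L : ℕ) :
    (L : ℝ) / D - 1 ≤ (((Finset.Ico B (B + L)).filter (fun x => x ≡ r [ZMOD D])).card : ℝ) ∧
      (((Finset.Ico B (B + L)).filter (fun x => x ≡ r [ZMOD D])).card : ℝ) ≤ L / D + 1 := by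
  have h1 := Int.Ico_filter_modEq_card B (B + L) hD r
  have hD' : (0 : ℚ) < D := by exact_mod_cast hD
  set x : ℚ := (((B + L : ℤ) : ℚ) - r) / D with hx
  set y : ℚ := ((B : ℚ) - r) / D with hy
  have hxy : x - y = L / D := by
    rw [hx, hy]
    push_cast
    field_simp
    ring
  have h0 : (0 : ℚ) ≤ L / D := by positivity
  have h2 : (⌈x⌉ : ℚ) - ⌈y⌉ < x - y + 1 := by
    have := Int.ceil_lt_add_one x
    have := Int.le_ceil y
    linarith
  have h3 : x - y - 1 < (⌈x⌉ : ℚ) - ⌈y⌉ := by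
    have := Int.ceil_lt_add_one y
    have := Int.le_ceil x
    linarith
  have h4 : (((Finset.Ico B (B + L)).filter (fun x => x ≡ r [ZMOD D])).card : ℚ) =
      max ((⌈x⌉ : ℚ) - ⌈y⌉) 0 := by
    have h5 := congrArg (Int.cast : ℤ → ℚ) h1
    rw [Int.cast_natCast] at h5
    rw [h5]
    push_cast
    rfl
  set N := ((Finset.Ico B (B + L)).filter (fun x => x ≡ r [ZMOD D])).card
  have h5 : (L : ℚ) / D - 1 ≤ (N : ℚ) := by
    rw [h4]
    exact le_max_of_le_left (by linarith)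
  have h6 : (N : ℚ) ≤ (L : ℚ) / D + 1 := by
    rw [h4]
    exact max_le (by linarith) (by linarith)
  constructor
  · exact_mod_cast h5
  · exact_mod_cast h6

theorem solve_lin {c D : ℤ} (h : IsCoprime c D) (t : ℤ) :
    ∃ r : ℤ, ∀ a : ℤ, D ∣ c * a + t ↔ a ≡ r [ZMOD D] := by
  obtain ⟨p, w, hpw⟩ := h
  refine ⟨-(t * p), fun a => ?_⟩
  constructor
  · rintro ⟨k, hk⟩
    apply Int.ModEq.symm
    rw [Int.modEq_iff_dvd]
    refine ⟨p * k + w * a, ?_⟩
    linear_combination p * hk - a * hpw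
  · intro h1
    have h2 := h1.symm
    rw [Int.modEq_iff_dvd] at h2
    obtain ⟨k, hk⟩ := h2
    refine ⟨c * k + t * w, ?_⟩
    linear_combination c * hk - t * hpw

theorem coprime_pow_two {D : ℤ} (h : Odd D) (n : ℕ) : IsCoprime ((2 : ℤ) ^ n) D := by
  apply IsCoprime.pow_left
  obtain ⟨k, hk⟩ := h
  exact ⟨-k, 1, by rw [hk]; ring⟩

theorem card_box (P : ℤ × ℤ → Prop) [DecidablePred P] (B4 B5 : ℤ) (L4 L5 : ℕ) :
    ((bx B4 B5 L4 L5).filter P).card =
      ∑ a ∈ Finset.Ico B4 (B4 + L4), ((Finset.Ico B5 (B5 + L5)).filter (fun b => P (a, b))).card := by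
  simp only [Finset.card_filter, bx]
  rw [Finset.sum_product]

end BoxAux

open BoxAux

theorem box_one_lower (D X s B4 B5 : ℤ) (L4 L5 : ℕ) (hD : 0 < D) (hoD : Odd D) :
    (L4 : ℝ) * (L5 / D - 1) ≤
      (((bx B4 B5 L4 L5).filter (fun a => D ∣ 16 * a.1 * X + 32 * a.2 + s)).card : ℝ) := by
  rw [card_box]
  push_cast
  have h1 : ∀ a ∈ Finset.Ico B4 (B4 + L4), (L5 : ℝ) / D - 1 ≤
      (((Finset.Ico B5 (B5 + L5)).filter (fun b => D ∣ 16 * a * X + 32 * b + s)).card : ℝ) := by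
    intro a _
    obtain ⟨r, hr⟩ := solve_lin (c := 32) (D := D) (coprime_pow_two hoD 5) (16 * a * X + s)
    have h2 : (Finset.Ico B5 (B5 + L5)).filter (fun b => D ∣ 16 * a * X + 32 * b + s) =
        (Finset.Ico B5 (B5 + L5)).filter (fun b => b ≡ r [ZMOD D]) := by
      apply Finset.filter_congr
      intro b _
      rw [← hr b]
      have : 16 * a * X + 32 * b + s = 32 * b + (16 * a * X + s) := by ring
      rw [this]
    rw [h2]
    exact (cnt_modEq D hD r B5 L5).1
  have h2 := Finset.sum_le_sum h1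
  rw [Finset.sum_const, nsmul_eq_mul, Int.card_Ico] at h2
  simpa using h2

theorem box_one_upper (D X s B4 B5 : ℤ) (L4 L5 : ℕ) (hD : 0 < D) (hoD : Odd D) :
    (((bx B4 B5 L4 L5).filter (fun a => D ∣ 16 * a.1 * X + 32 * a.2 + s)).card : ℝ)
      ≤ (L4 : ℝ) * (L5 / D + 1) := by
  rw [card_box]
  push_cast
  have h1 : ∀ a ∈ Finset.Ico B4 (B4 + L4),
      (((Finset.Ico B5 (B5 + L5)).filter (fun b => D ∣ 16 * a * X + 32 * b + s)).card : ℝ) ≤
      (L5 : ℝ) / D + 1 := by
    intro a _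
    obtain ⟨r, hr⟩ := solve_lin (c := 32) (D := D) (coprime_pow_two hoD 5) (16 * a * X + s)
    have h2 : (Finset.Ico B5 (B5 + L5)).filter (fun b => D ∣ 16 * a * X + 32 * b + s) =
        (Finset.Ico B5 (B5 + L5)).filter (fun b => b ≡ r [ZMOD D]) := by
      apply Finset.filter_congr
      intro b _
      rw [← hr b]
      have : 16 * a * X + 32 * b + s = 32 * b + (16 * a * X + s) := by ring
      rw [this]
    rw [h2]
    exact (cnt_modEq D hD r B5 L5).2
  have h2 := Finset.sum_le_sum h1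
  rw [Finset.sum_const, nsmul_eq_mul, Int.card_Ico] at h2
  simpa using h2

theorem box_same (D D' X s B4 B5 : ℤ) (L4 L5 : ℕ) (hD : 0 < D) (hD' : 0 < D') (hoD : Odd D)
    (hoD' : Odd D') (hX : 0 < X) (hoX : Odd X) :
    (((bx B4 B5 L4 L5).filter (fun a => D ∣ 16 * a.1 * X + 32 * a.2 + s ∧
      D' ∣ 16 * a.1 * X + 32 * a.2 + s)).card : ℝ)
      ≤ ((X * L4 + 2 * L5) * (Int.gcd D D' : ℝ) / (D * D') + 1) * (L5 / X + 1) := by
  classical
  set S := (bx B4 B5 L4 L5).filter (fun a => D ∣ 16 * a.1 * X + 32 * a.2 + s ∧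
      D' ∣ 16 * a.1 * X + 32 * a.2 + s) with hS
  let f : ℤ × ℤ → ℤ := fun a => a.1 * X + 2 * a.2
  have hXr : (0 : ℝ) < X := by exact_mod_cast hX
  -- the fibres
  have hfib : ∀ σ ∈ S.image f, ((S.filter (fun a => f a = σ)).card : ℝ) ≤ L5 / X + 1 := by
    intro σ _
    obtain ⟨r, hr⟩ := solve_lin (c := 2) (D := X)
      (by simpa using coprime_pow_two hoX 1) (-σ)
    refine le_trans ?_ (cnt_modEq X hX r B5 L5).2
    have h1 : (S.filter (fun a => f a = σ)).card ≤
        ((Finset.Ico B5 (B5 + L5)).filter (fun b => b ≡ r [ZMOD X])).card := by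
      apply Finset.card_le_card_of_injOn (fun a => a.2)
      · intro a ha
        rw [Finset.mem_coe, Finset.mem_filter, hS, Finset.mem_filter, bx, Finset.mem_product] at ha
        rw [Finset.mem_coe, Finset.mem_filter]
        refine ⟨ha.1.1.2, ?_⟩
        rw [← hr]
        exact ⟨-a.1, by
          have h2 : a.1 * X + 2 * a.2 = σ := ha.2
          linear_combination h2⟩
      · intro a ha b hb hab
        rw [Finset.mem_coe, Finset.mem_filter] at ha hb
        have h2 : a.1 * X + 2 * a.2 = σ := ha.2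
        have h3 : b.1 * X + 2 * b.2 = σ := hb.2
        have hab' : a.2 = b.2 := hab
        have h4 : (a.1 - b.1) * X = 0 := by
          rw [hab'] at h2
          linear_combination h2 - h3
        have h5 : a.1 - b.1 = 0 := (mul_eq_zero.mp h4).resolve_right hX.ne'
        exact Prod.ext (by linarith) hab'
    exact_mod_cast h1
  -- the values
  have hlo : Odd ((Int.lcm D D' : ℕ) : ℤ) := by
    rw [← Int.not_even_iff_odd]
    intro h
    rw [even_iff_two_dvd] at h
    have h1 : (2 : ℤ) ∣ D * D' := h.trans (by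
      rw [Int.coe_lcm_dvd_iff]
      exact ⟨dvd_mul_right _ _, dvd_mul_left _ _⟩)
    have h2 : Odd (D * D') := hoD.mul hoD'
    rw [← even_iff_two_dvd] at h1
    exact (Int.not_even_iff_odd.mpr h2) h1
  have hlpos : 0 < ((Int.lcm D D' : ℕ) : ℤ) := by
    have := Int.lcm_pos hD.ne' hD'.ne'
    exact_mod_cast this
  obtain ⟨r, hr⟩ := solve_lin (c := 16) (D := ((Int.lcm D D' : ℕ) : ℤ))
    (coprime_pow_two hlo 4) s
  have hval : ((S.image f).card : ℝ) ≤
      (X * L4 + 2 * L5) * (Int.gcd D D' : ℝ) / (D * D') + 1 := by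
    obtain ⟨L, hL⟩ : ∃ L : ℕ, (L : ℤ) = X * L4 + 2 * L5 :=
      ⟨(X * L4 + 2 * L5).toNat, Int.toNat_of_nonneg (by positivity)⟩
    have h1 := (cnt_modEq ((Int.lcm D D' : ℕ) : ℤ) hlpos r (B4 * X + 2 * B5) L).2
    have h2 : S.image f ⊆ (Finset.Ico (B4 * X + 2 * B5) (B4 * X + 2 * B5 + L)).filter
        (fun x => x ≡ r [ZMOD ((Int.lcm D D' : ℕ) : ℤ)]) := by
      intro σ hσ
      rw [Finset.mem_image] at hσ
      obtain ⟨a, ha, rfl⟩ := hσ
      rw [hS, Finset.mem_filter, bx, Finset.mem_product, Finset.mem_Ico, Finset.mem_Ico] at ha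
      obtain ⟨⟨⟨h3, h4⟩, h5, h6⟩, h7, h8⟩ := ha
      rw [Finset.mem_filter, Finset.mem_Ico]
      refine ⟨⟨?_, ?_⟩, ?_⟩
      · change B4 * X + 2 * B5 ≤ a.1 * X + 2 * a.2
        nlinarith
      · change a.1 * X + 2 * a.2 < _
        rw [hL]
        nlinarith
      · rw [← hr, Int.coe_lcm_dvd_iff]
        have h9 : 16 * f a + s = 16 * a.1 * X + 32 * a.2 + s := by
          change 16 * (a.1 * X + 2 * a.2) + s = _
          ring
        rw [h9]
        exact ⟨h7, h8⟩
    have h3 : ((S.image f).card : ℝ) ≤ (L : ℝ) / (((Int.lcm D D' : ℕ) : ℤ) : ℝ) + 1 :=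
      le_trans (by exact_mod_cast Finset.card_le_card h2) h1
    refine h3.trans (le_of_eq ?_)
    congr 1
    have hL' : (L : ℝ) = X * L4 + 2 * L5 := by exact_mod_cast hL
    have hg : ((Int.gcd D D' : ℕ) : ℝ) * ((Int.lcm D D' : ℕ) : ℝ) = D * D' := by
      have h4 := Int.gcd_mul_lcm D D'
      have h5 : ((Int.gcd D D' * Int.lcm D D' : ℕ) : ℤ) = D * D' := by
        rw [h4, Nat.cast_mul, Int.natCast_natAbs, Int.natCast_natAbs, abs_of_pos hD, abs_of_pos hD']
      exact_mod_cast h5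
    have hl : (0 : ℝ) < ((Int.lcm D D' : ℕ) : ℝ) := by exact_mod_cast hlpos
    have hDD : (0 : ℝ) < (D : ℝ) * D' := by exact_mod_cast mul_pos hD hD'
    rw [hL', Int.cast_natCast, div_eq_div_iff hl.ne' hDD.ne', ← hg]
    ring
  have h1 : (S.card : ℝ) = ∑ σ ∈ S.image f, ((S.filter (fun a => f a = σ)).card : ℝ) := by
    rw [Finset.card_eq_sum_card_image f S]
    push_cast
    rfl
  rw [h1]
  refine (Finset.sum_le_sum hfib).trans ?_
  rw [Finset.sum_const, nsmul_eq_mul]
  exact mul_le_mul_of_nonneg_right hval (by positivity)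

end Helper6.QS
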