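import Pool.Agent.Helper6.QS.CN2

/-! QS-16: the counting theorem. -/

set_option autoImplicit false
namespace Helper6.QS

/-- Cauchy-Schwarz: first and second moment bound the number of zeros. -/
theorem few_zeros {α : Type*} (S : Finset α) (f : α → ℝ) (A c δ : ℝ) (hA : (S.card : ℝ) = A) (hc : 0 < c)
    (hδ : 0 < δ) (hδ1 : δ ≤ 1 / 8) (hA0 : 0 < A)
    (h1 : (1 - δ) * A * c ≤ ∑ x ∈ S, f x) (h2 : ∑ x ∈ S, f x ^ 2 ≤ (1 + 6 * δ) * A * c ^ 2) :
    ((S.filter (fun x => f x = 0)).card : ℝ) ≤ 8 * δ * A := by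
  classical
  have hsum : ∑ x ∈ S, f x = ∑ x ∈ S.filter (fun x => f x ≠ 0), f x := by
    rw [Finset.sum_filter_ne_zero]
  have hcs : (∑ x ∈ S.filter (fun x => f x ≠ 0), f x) ^ 2 ≤
      ((S.filter (fun x => f x ≠ 0)).card : ℝ) * ∑ x ∈ S.filter (fun x => f x ≠ 0), f x ^ 2 :=
    sq_sum_le_card_mul_sum_sq
  have hle : ∑ x ∈ S.filter (fun x => f x ≠ 0), f x ^ 2 ≤ ∑ x ∈ S, f x ^ 2 :=
    Finset.sum_le_sum_of_subset_of_nonneg (Finset.filter_subset _ _) (fun _ _ _ => sq_nonneg _)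
  have hcard : ((S.filter (fun x => f x = 0)).card : ℝ) + ((S.filter (fun x => f x ≠ 0)).card : ℝ) = A := by
    rw [← hA]
    exact_mod_cast Finset.card_filter_add_card_filter_not (s := S) (fun x => f x = 0)
  set n := ((S.filter (fun x => f x ≠ 0)).card : ℝ) with hn
  have hn0 : 0 ≤ n := by positivity
  have h3 : ((1 - δ) * A * c) ^ 2 ≤ n * ((1 + 6 * δ) * A * c ^ 2) := by
    calc ((1 - δ) * A * c) ^ 2 ≤ (∑ x ∈ S, f x) ^ 2 := by
          apply pow_le_pow_left₀ _ h1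
          have : 0 ≤ 1 - δ := by linarith
          positivity
      _ ≤ n * ∑ x ∈ S.filter (fun x => f x ≠ 0), f x ^ 2 := by rw [hsum]; exact hcs
      _ ≤ n * ((1 + 6 * δ) * A * c ^ 2) := by
          apply mul_le_mul_of_nonneg_left (hle.trans h2) hn0
  have h4 : (1 - δ) ^ 2 * A ≤ n * (1 + 6 * δ) := by
    have hp : 0 < A * c ^ 2 := by positivity
    have : ((1 - δ) ^ 2 * A) * (A * c ^ 2) ≤ (n * (1 + 6 * δ)) * (A * c ^ 2) := by
      nlinarith [h3]
    exact le_of_mul_le_mul_right this hp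
  have h5 : (1 - 8 * δ) * A ≤ n := by
    have h6 : (1 - 8 * δ) * (1 + 6 * δ) ≤ (1 - δ) ^ 2 := by nlinarith
    have h7 : (1 - 8 * δ) * A * (1 + 6 * δ) ≤ n * (1 + 6 * δ) := by
      calc (1 - 8 * δ) * A * (1 + 6 * δ) = (1 - 8 * δ) * (1 + 6 * δ) * A := by ring
        _ ≤ (1 - δ) ^ 2 * A := mul_le_mul_of_nonneg_right h6 hA0.le
        _ ≤ _ := h4
    exact le_of_mul_le_mul_right h7 (by linarith)
  linarith

theorem Qs_card_lower {K H W : ℕ} {A2 A4 : ℤ} (hoW : Odd W) (hW : 10 * W ≤ K) (hKH : K ^ 4 ≤ H) :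
    9 * ((K : ℝ) ^ 2 * H) / W ^ 2 ≤ ((Qs K H W A2 A4).card : ℝ) := by
  have hW0 : 0 < W := hoW.pos
  have hWR : (0 : ℝ) < W := by exact_mod_cast hW0
  unfold Qs
  rw [Finset.card_sigma]
  push_cast
  have hU := (Us_card (A2 := A2) (A4 := A4) hW0 hoW hW).1
  calc 9 * ((K : ℝ) ^ 2 * H) / W ^ 2 ≤ (K : ℝ) / (2 * W) * (19 * (K * H : ℝ) / W) := by
        rw [div_mul_div_comm, div_le_div_iff₀ (by positivity) (by positivity)]
        have : (0 : ℝ) ≤ (K : ℝ) ^ 2 * H * W ^ 2 := by positivity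
        nlinarith
    _ ≤ ((Us K W A2 A4).card : ℝ) * (19 * (K * H : ℝ) / W) :=
        mul_le_mul_of_nonneg_right hU (by positivity)
    _ ≤ ∑ u ∈ Us K W A2 A4, ((Vs K H W A2 u).card : ℝ) := by
        rw [← nsmul_eq_mul]
        apply Finset.card_nsmul_le_sum
        intro u _
        exact (Vs_card hW0 hW hKH u).1

/-- purely numerical part -/
theorem numerics (κ δ k h w z xs q l4 l5 n : ℝ) (hκ : 0 < κ) (hκ1 : κ ≤ 1) (hδ : 0 < δ) (hδ1 : δ ≤ 1 / 8)
    (hw : 1 ≤ w) (hk : 1 ≤ k) (hkδ : 10 ^ 9 * w ^ 5 ≤ κ ^ 2 * (δ * k)) (hh : k ^ 4 ≤ h) (hz : 0 < z)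
    (hzδ : 40 / z ≤ δ)
    (hxs : 40 * (k * h) / w ≤ xs) (hq : 9 * (k ^ 2 * h) / w ^ 2 ≤ q)
    (h4 : κ * k * h ^ 3 / 2 ≤ l4)
    (h5 : κ * k * h ^ 4 / 2 ≤ l5) (h5' : l5 ≤ κ * k * h ^ 4) (hn : n = 1000 * k ^ 2 * h) :
    50000 * k ^ 2 * h ^ 2 ≤ δ * l5 ∧
    (xs * q) * (2 * l4 * l5 * (50000 * k ^ 2 * h ^ 2)) +
      ((200 * k * h * l4 + 2 * l5) * (xs * (8 * n ^ 2 * Real.sqrt n)) +
        (50000 * k ^ 2 * h ^ 2) ^ 2 * (xs * q ^ 2)) * (l5 / (100 * k * h) + 1) +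
      (l4 + 8 * (50000 * k ^ 2 * h ^ 2)) * (l5 + 4 * (200 * k * h) * (50000 * k ^ 2 * h ^ 2)) *
        ((1 + 40 / z) * (xs * q) ^ 2) ≤ (1 + 6 * δ) * (l4 * l5) * (xs * q) ^ 2 := by
  have hk0 : 0 < k := by linarith
  have hw0 : 0 < w := by linarith
  have hh1 : 1 ≤ h := le_trans (one_le_pow₀ hk) hh
  have hh0 : 0 < h := by linarith
  have hw5 : 1 ≤ w ^ 5 := one_le_pow₀ hw
  -- δ κ² k ≥ 10^9 w^5
  have hκ2 : κ ^ 2 ≤ κ := by nlinarith
  have hdk : 10 ^ 9 * w ^ 5 ≤ κ * (δ * k) := by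
    have : 0 < δ * k := by positivity
    nlinarith
  have hdk1 : 10 ^ 9 * w ^ 5 ≤ δ * k := by
    have : 0 < δ * k := by positivity
    nlinarith
  have hl4 : 0 < l4 := lt_of_lt_of_le (by positivity) h4
  have hl5 : 0 < l5 := lt_of_lt_of_le (by positivity) h5
  have hxs0 : 0 < xs := lt_of_lt_of_le (by positivity) hxs
  have hq0 : 0 < q := lt_of_lt_of_le (by positivity) hq
  have hkh : k ≤ h := le_trans (by nlinarith [one_le_pow₀ hk (n := 3)] : k ≤ k ^ 4) hh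
  have hk2h : k ^ 2 * k ^ 2 ≤ h := by nlinarith
  -- M0 ≤ δ l5
  have hM5 : 50000 * k ^ 2 * h ^ 2 ≤ δ * l5 := by
    have e1 : 100000 ≤ δ * κ * k := by nlinarith
    have e2 : 50000 * k ^ 2 * h ^ 2 ≤ (δ * κ * k) * (k * h ^ 4) / 2 / k := by
      rw [div_div, le_div_iff₀ (by positivity)]
      have : k ^ 2 ≤ h ^ 2 := by nlinarith
      have h3 : 50000 * k ^ 2 * h ^ 2 * (2 * k) ≤ 100000 * (k * h ^ 4) := by
        have : k ^ 2 * h ^ 2 * k ≤ k * h ^ 4 := by nlinarith [mul_le_mul_of_nonneg_left this (by positivity : 0 ≤ k * h ^ 2)]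
        nlinarith
      have : 100000 * (k * h ^ 4) ≤ (δ * κ * k) * (k * h ^ 4) :=
        mul_le_mul_of_nonneg_right e1 (by positivity)
      linarith
    have e3 : (δ * κ * k) * (k * h ^ 4) / 2 / k = δ * (κ * k * h ^ 4 / 2) := by
      field_simp
    rw [e3] at e2
    exact e2.trans (mul_le_mul_of_nonneg_left h5 hδ.le)
  refine ⟨hM5, ?_⟩
  -- term 1
  have t1 : (xs * q) * (2 * l4 * l5 * (50000 * k ^ 2 * h ^ 2)) ≤ δ * (l4 * l5) * (xs * q) ^ 2 := by
    have e1 : 360 * (k ^ 3 * h ^ 2) / w ^ 3 ≤ xs * q := by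
      calc 360 * (k ^ 3 * h ^ 2) / w ^ 3 = 40 * (k * h) / w * (9 * (k ^ 2 * h) / w ^ 2) := by
            field_simp; ring
        _ ≤ xs * q := mul_le_mul hxs hq (by positivity) hxs0.le
    have e2 : 2 * (50000 * k ^ 2 * h ^ 2) ≤ δ * (xs * q) := by
      refine le_trans ?_ (mul_le_mul_of_nonneg_left e1 hδ.le)
      rw [← mul_div_assoc, le_div_iff₀ (by positivity)]
      have hw35 : w ^ 3 ≤ w ^ 5 := pow_le_pow_right₀ hw (by norm_num)
      have : 100000 * w ^ 3 ≤ 360 * (δ * k) := by nlinarith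
      calc 2 * (50000 * k ^ 2 * h ^ 2) * w ^ 3 = (100000 * w ^ 3) * (k ^ 2 * h ^ 2) := by ring
        _ ≤ (360 * (δ * k)) * (k ^ 2 * h ^ 2) := mul_le_mul_of_nonneg_right this (by positivity)
        _ = _ := by ring
    calc (xs * q) * (2 * l4 * l5 * (50000 * k ^ 2 * h ^ 2))
        = (xs * q * (l4 * l5)) * (2 * (50000 * k ^ 2 * h ^ 2)) := by ring
      _ ≤ (xs * q * (l4 * l5)) * (δ * (xs * q)) := mul_le_mul_of_nonneg_left e2 (by positivity)
      _ = _ := by ring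
  -- term 2
  have hl5x : l5 / (100 * k * h) + 1 ≤ l5 / (50 * k * h) := by
    have e1 : 100 * k * h ≤ l5 := by
      refine le_trans ?_ h5
      have : 200 ≤ κ * h ^ 3 := by
        have e2 : 200 ≤ κ * k := by
          have : δ * k ≤ k := by nlinarith
          nlinarith
        have e3 : κ * k ≤ κ * h ^ 3 := by
          apply mul_le_mul_of_nonneg_left _ hκ.le
          nlinarith [one_le_pow₀ hh1 (n := 2)]
        linarith
      have : 200 * (k * h) ≤ (κ * h ^ 3) * (k * h) := mul_le_mul_of_nonneg_right this (by positivity)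
      nlinarith
    have e2 : l5 / (50 * k * h) = l5 / (100 * k * h) + l5 / (100 * k * h) := by
      field_simp; ring
    rw [e2]
    have : 1 ≤ l5 / (100 * k * h) := by
      rw [le_div_iff₀ (by positivity)]; linarith
    linarith
  have hsum : 200 * k * h * l4 + 2 * l5 ≤ 204 * (k * h * l4) := by
    have e1 : l5 ≤ 2 * h * l4 := by
      calc l5 ≤ κ * k * h ^ 4 := h5'
        _ = 2 * h * (κ * k * h ^ 3 / 2) := by ring
        _ ≤ 2 * h * l4 := mul_le_mul_of_nonneg_left h4 (by positivity)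
    have e2 : h * l4 ≤ k * h * l4 := by
      have : 0 ≤ h * l4 := by positivity
      nlinarith
    nlinarith
  have hn0 : 0 < n := by rw [hn]; positivity
  have t2a : (200 * k * h * l4 + 2 * l5) * (xs * (8 * n ^ 2 * Real.sqrt n)) * (l5 / (50 * k * h)) ≤
      δ * (l4 * l5) * (xs * q) ^ 2 := by
    have e0 : (200 * k * h * l4 + 2 * l5) * (xs * (8 * n ^ 2 * Real.sqrt n)) * (l5 / (50 * k * h)) ≤
        204 * (k * h * l4) * (xs * (8 * n ^ 2 * Real.sqrt n)) * (l5 / (50 * k * h)) := by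
      apply mul_le_mul_of_nonneg_right _ (by positivity)
      exact mul_le_mul_of_nonneg_right hsum (by positivity)
    refine e0.trans ?_
    have e1 : 204 * (k * h * l4) * (xs * (8 * n ^ 2 * Real.sqrt n)) * (l5 / (50 * k * h)) =
        (l4 * l5 * xs) * (204 * 8 / 50 * (n ^ 2 * Real.sqrt n)) := by
      field_simp
    rw [e1]
    have e2 : 204 * 8 / 50 * (n ^ 2 * Real.sqrt n) ≤ δ * (xs * q ^ 2) := by
      have s1 : Real.sqrt n ≤ 32 * k * Real.sqrt h := by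
        rw [hn]
        apply Real.sqrt_le_iff.2
        refine ⟨by positivity, ?_⟩
        have : (32 * k * Real.sqrt h) ^ 2 = 1024 * k ^ 2 * h := by
          rw [mul_pow, mul_pow, Real.sq_sqrt hh0.le]; norm_num
        rw [this]
        have : 0 ≤ k ^ 2 * h := by positivity
        nlinarith
      have s2 : n ^ 2 * Real.sqrt n ≤ 32 * 10 ^ 6 * (k ^ 5 * h ^ 2 * Real.sqrt h) := by
        calc n ^ 2 * Real.sqrt n ≤ n ^ 2 * (32 * k * Real.sqrt h) :=
              mul_le_mul_of_nonneg_left s1 (by positivity)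
          _ = _ := by rw [hn]; ring
      have s3 : 3240 * (k ^ 5 * h ^ 3) / w ^ 5 ≤ xs * q ^ 2 := by
        calc 3240 * (k ^ 5 * h ^ 3) / w ^ 5 = 40 * (k * h) / w * (9 * (k ^ 2 * h) / w ^ 2) ^ 2 := by
              field_simp; ring
          _ ≤ xs * q ^ 2 := mul_le_mul hxs (pow_le_pow_left₀ (by positivity) hq 2) (by positivity) hxs0.le
      have s4 : k ≤ Real.sqrt h := by
        apply Real.le_sqrt_of_sq_le
        nlinarith [one_le_pow₀ hk (n := 2)]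
      have s5 : 10 ^ 9 * w ^ 5 ≤ δ * Real.sqrt h := by
        have : δ * k ≤ δ * Real.sqrt h := mul_le_mul_of_nonneg_left s4 hδ.le
        linarith
      have s6 : (204 * 8 / 50 * (32 * 10 ^ 6)) * (k ^ 5 * h ^ 2 * Real.sqrt h) ≤
          δ * (3240 * (k ^ 5 * h ^ 3) / w ^ 5) := by
        rw [← mul_div_assoc, le_div_iff₀ (by positivity)]
        have hs : Real.sqrt h * Real.sqrt h = h := Real.mul_self_sqrt hh0.le
        have : δ * (3240 * (k ^ 5 * h ^ 3)) = 3240 * (k ^ 5 * h ^ 2 * Real.sqrt h) * (δ * Real.sqrt h) := by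
          calc δ * (3240 * (k ^ 5 * h ^ 3)) = 3240 * (k ^ 5 * h ^ 2) * δ * h := by ring
            _ = 3240 * (k ^ 5 * h ^ 2) * δ * (Real.sqrt h * Real.sqrt h) := by rw [hs]
            _ = _ := by ring
        rw [this]
        calc 204 * 8 / 50 * (32 * 10 ^ 6) * (k ^ 5 * h ^ 2 * Real.sqrt h) * w ^ 5
            = (3240 * (k ^ 5 * h ^ 2 * Real.sqrt h)) * ((204 * 8 / 50 * (32 * 10 ^ 6) / 3240) * w ^ 5) := by
              ring
          _ ≤ (3240 * (k ^ 5 * h ^ 2 * Real.sqrt h)) * (δ * Real.sqrt h) := by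
              apply mul_le_mul_of_nonneg_left _ (by positivity)
              refine le_trans ?_ s5
              apply mul_le_mul_of_nonneg_right _ (by positivity)
              norm_num
      calc 204 * 8 / 50 * (n ^ 2 * Real.sqrt n) ≤ 204 * 8 / 50 * (32 * 10 ^ 6 * (k ^ 5 * h ^ 2 * Real.sqrt h)) :=
            mul_le_mul_of_nonneg_left s2 (by norm_num)
        _ = (204 * 8 / 50 * (32 * 10 ^ 6)) * (k ^ 5 * h ^ 2 * Real.sqrt h) := by ring
        _ ≤ δ * (3240 * (k ^ 5 * h ^ 3) / w ^ 5) := s6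
        _ ≤ _ := mul_le_mul_of_nonneg_left s3 hδ.le
    calc (l4 * l5 * xs) * (204 * 8 / 50 * (n ^ 2 * Real.sqrt n)) ≤ (l4 * l5 * xs) * (δ * (xs * q ^ 2)) :=
          mul_le_mul_of_nonneg_left e2 (by positivity)
      _ = _ := by ring
  have t2b : (50000 * k ^ 2 * h ^ 2) ^ 2 * (xs * q ^ 2) * (l5 / (50 * k * h)) ≤ δ * (l4 * l5) * (xs * q) ^ 2 := by
    have e1 : (50000 * k ^ 2 * h ^ 2) ^ 2 ≤ δ * (50 * k * h * (l4 * xs)) := by
      have s1 : 20 * κ * (k ^ 2 * h ^ 4) / w ≤ l4 * xs := by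
        calc 20 * κ * (k ^ 2 * h ^ 4) / w = κ * k * h ^ 3 / 2 * (40 * (k * h) / w) := by
              field_simp; ring
          _ ≤ l4 * xs := mul_le_mul h4 hxs (by positivity) hl4.le
      have s2 : (50000 * k ^ 2 * h ^ 2) ^ 2 ≤ δ * (50 * k * h * (20 * κ * (k ^ 2 * h ^ 4) / w)) := by
        have : δ * (50 * k * h * (20 * κ * (k ^ 2 * h ^ 4) / w)) = (1000 * (κ * (δ * k)) * (k ^ 2 * h ^ 5)) / w := by
          field_simp; ring
        rw [this, le_div_iff₀ hw0]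
        have hw1 : w ≤ w ^ 5 := by
          calc w = w ^ 1 := (pow_one w).symm
            _ ≤ w ^ 5 := pow_le_pow_right₀ hw (by norm_num)
        have h6 : k ^ 4 * h ^ 4 ≤ k ^ 2 * h ^ 5 := by
          have : k ^ 4 ≤ k ^ 2 * h := by nlinarith [one_le_pow₀ hk (n := 2)]
          calc k ^ 4 * h ^ 4 ≤ k ^ 2 * h * h ^ 4 := mul_le_mul_of_nonneg_right this (by positivity)
            _ = _ := by ring
        calc (50000 * k ^ 2 * h ^ 2) ^ 2 * w = (2500000000 * w) * (k ^ 4 * h ^ 4) := by ring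
          _ ≤ (1000 * (κ * (δ * k))) * (k ^ 4 * h ^ 4) := by
              apply mul_le_mul_of_nonneg_right _ (by positivity)
              nlinarith
          _ ≤ (1000 * (κ * (δ * k))) * (k ^ 2 * h ^ 5) := mul_le_mul_of_nonneg_left h6 (by positivity)
      refine s2.trans ?_
      apply mul_le_mul_of_nonneg_left _ hδ.le
      apply mul_le_mul_of_nonneg_left s1 (by positivity)
    calc (50000 * k ^ 2 * h ^ 2) ^ 2 * (xs * q ^ 2) * (l5 / (50 * k * h))
        = (50000 * k ^ 2 * h ^ 2) ^ 2 * (xs * q ^ 2 * (l5 / (50 * k * h))) := by ring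
      _ ≤ (δ * (50 * k * h * (l4 * xs))) * (xs * q ^ 2 * (l5 / (50 * k * h))) :=
          mul_le_mul_of_nonneg_right e1 (by positivity)
      _ = _ := by field_simp
  have t2 : ((200 * k * h * l4 + 2 * l5) * (xs * (8 * n ^ 2 * Real.sqrt n)) +
        (50000 * k ^ 2 * h ^ 2) ^ 2 * (xs * q ^ 2)) * (l5 / (100 * k * h) + 1) ≤
        2 * δ * (l4 * l5) * (xs * q) ^ 2 := by
    calc _ ≤ ((200 * k * h * l4 + 2 * l5) * (xs * (8 * n ^ 2 * Real.sqrt n)) +
        (50000 * k ^ 2 * h ^ 2) ^ 2 * (xs * q ^ 2)) * (l5 / (50 * k * h)) :=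
          mul_le_mul_of_nonneg_left hl5x (by positivity)
      _ ≤ _ := by rw [add_mul]; linarith
  -- term 3
  have t3 : (l4 + 8 * (50000 * k ^ 2 * h ^ 2)) * (l5 + 4 * (200 * k * h) * (50000 * k ^ 2 * h ^ 2)) *
        ((1 + 40 / z) * (xs * q) ^ 2) ≤ (1 + 3 * δ) * (l4 * l5) * (xs * q) ^ 2 := by
    have e1 : 8 * (50000 * k ^ 2 * h ^ 2) ≤ δ / 4 * l4 := by
      refine le_trans ?_ (mul_le_mul_of_nonneg_left h4 (by positivity))
      have : δ / 4 * (κ * k * h ^ 3 / 2) = (κ * (δ * k)) * h ^ 3 / 8 := by ring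
      rw [this]
      have h6 : k ^ 2 * h ^ 2 ≤ h ^ 3 := by
        have : k ^ 2 ≤ h := by nlinarith [one_le_pow₀ hk (n := 2)]
        calc k ^ 2 * h ^ 2 ≤ h * h ^ 2 := mul_le_mul_of_nonneg_right this (by positivity)
          _ = _ := by ring
      have h7 : 10 ^ 9 * h ^ 3 ≤ (κ * (δ * k)) * h ^ 3 := by
        apply mul_le_mul_of_nonneg_right _ (by positivity)
        nlinarith
      nlinarith
    have e2 : 4 * (200 * k * h) * (50000 * k ^ 2 * h ^ 2) ≤ δ / 4 * l5 := by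
      refine le_trans ?_ (mul_le_mul_of_nonneg_left h5 (by positivity))
      have : δ / 4 * (κ * k * h ^ 4 / 2) = (κ * (δ * k)) * h ^ 4 / 8 := by ring
      rw [this]
      have h6 : k ^ 3 * h ^ 3 ≤ h ^ 4 := by
        have : k ^ 3 ≤ h := by nlinarith [one_le_pow₀ hk (n := 3)]
        calc k ^ 3 * h ^ 3 ≤ h * h ^ 3 := mul_le_mul_of_nonneg_right this (by positivity)
          _ = _ := by ring
      have h7 : 10 ^ 9 * h ^ 4 ≤ (κ * (δ * k)) * h ^ 4 := by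
        apply mul_le_mul_of_nonneg_right _ (by positivity)
        nlinarith
      nlinarith
    have e3 : (l4 + 8 * (50000 * k ^ 2 * h ^ 2)) * (l5 + 4 * (200 * k * h) * (50000 * k ^ 2 * h ^ 2)) ≤
        ((1 + δ / 4) * l4) * ((1 + δ / 4) * l5) := by
      apply mul_le_mul
      · linarith
      · linarith
      · positivity
      · positivity
    calc _ ≤ ((1 + δ / 4) * l4) * ((1 + δ / 4) * l5) * ((1 + δ) * (xs * q) ^ 2) := by
          apply mul_le_mul e3 _ (by positivity) (by positivity)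
          apply mul_le_mul_of_nonneg_right _ (by positivity)
          linarith
      _ = ((1 + δ / 4) ^ 2 * (1 + δ)) * ((l4 * l5) * (xs * q) ^ 2) := by ring
      _ ≤ (1 + 3 * δ) * ((l4 * l5) * (xs * q) ^ 2) := by
          apply mul_le_mul_of_nonneg_right _ (by positivity)
          have w1 : (1 + δ / 4) ^ 2 ≤ 1 + δ := by nlinarith
          have w2 : (1 + δ) * (1 + δ) ≤ 1 + 3 * δ := by nlinarith
          exact (mul_le_mul_of_nonneg_right w1 (by positivity)).trans w2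
      _ = _ := by ring
  calc _ ≤ δ * (l4 * l5) * (xs * q) ^ 2 + 2 * δ * (l4 * l5) * (xs * q) ^ 2 +
        (1 + 3 * δ) * (l4 * l5) * (xs * q) ^ 2 := add_le_add (add_le_add t1 t2) t3
    _ = _ := by ring

open scoped Classical in
theorem counting (κ ε : ℝ) (hκ : 0 < κ) (hκ1 : κ ≤ 1) (hε : 0 < ε) :
    ∃ K0 : ℕ, ∀ K H : ℕ, K0 ≤ K → K ^ 4 ≤ H → ∀ A2 A4 : ℤ, |A2| ≤ H → |A4| ≤ H →
    ∀ s : ℤ → ℤ, ∀ B4 B5 : ℤ,
    (((bx B4 B5 ⌊κ * K * H ^ 3⌋₊ ⌊κ * K * H ^ 4⌋₊).filter (fun a : ℤ × ℤ => ∀ X u v : ℤ,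
      InFam K H A2 A4 X u v → ¬ (Dd X u v ∣ 16 * a.1 * X + 32 * a.2 + s X))).card : ℝ)
      ≤ ε * (κ * K * H ^ 3) * (κ * K * H ^ 4) := by
  -- parameters
  set δ : ℝ := min ε 1 / 8 with hδdef
  have hδ : 0 < δ := by
    have : 0 < min ε 1 := lt_min hε one_pos
    positivity
  have hδ1 : δ ≤ 1 / 8 := by
    have : min ε 1 ≤ 1 := min_le_right _ _
    rw [hδdef]; linarith
  have hδε : 8 * δ ≤ ε := by
    have : min ε 1 ≤ ε := min_le_left _ _
    rw [hδdef]; linarith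
  set z : ℕ := ⌈40 / δ⌉₊ + 2 with hz
  have hzR : 40 / δ ≤ (z : ℝ) := by
    have := Nat.le_ceil (40 / δ)
    rw [hz]; push_cast; linarith
  have hz0 : (0 : ℝ) < z := by rw [hz]; positivity
  have hzδ : 40 / (z : ℝ) ≤ δ := by
    rw [div_le_iff₀ hz0]
    rw [div_le_iff₀ hδ] at hzR
    linarith
  set W : ℕ := ∏ p ∈ (Finset.range z).filter (fun p => p.Prime ∧ p ≠ 2), p with hWdef
  have hoW : Odd W := by
    rw [hWdef]
    apply Finset.prod_induction _ Odd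
    · intro a b ha hb; exact ha.mul hb
    · exact odd_one
    · intro p hp
      rw [Finset.mem_filter] at hp
      exact hp.2.1.odd_of_ne_two hp.2.2
  have hWz : ∀ p : ℕ, p.Prime → p ≠ 2 → p < z → p ∣ W := by
    intro p hp h2 hpz
    exact Finset.dvd_prod_of_mem _ (Finset.mem_filter.2 ⟨Finset.mem_range.2 hpz, hp, h2⟩)
  have hW0 : 0 < W := hoW.pos
  have hW1 : (1 : ℝ) ≤ W := by exact_mod_cast hW0
  refine ⟨max (10 * W) ⌈10 ^ 9 * (W : ℝ) ^ 5 / (κ ^ 2 * δ)⌉₊, ?_⟩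
  intro K H hK0 hKH A2 A4 h2 h4 s B4 B5
  have hWK : 10 * W ≤ K := le_trans (le_max_left _ _) hK0
  have hKb : 10 ^ 9 * (W : ℝ) ^ 5 / (κ ^ 2 * δ) ≤ K := by
    refine (Nat.le_ceil _).trans ?_
    exact_mod_cast le_trans (le_max_right _ _) hK0
  have hkδ : 10 ^ 9 * (W : ℝ) ^ 5 ≤ κ ^ 2 * (δ * K) := by
    rw [div_le_iff₀ (by positivity)] at hKb
    linarith
  have hK2 : 2 ≤ K := by omega
  have hk1 : (1 : ℝ) ≤ K := by exact_mod_cast (by omega : 1 ≤ K)
  have hhR : (K : ℝ) ^ 4 ≤ H := by exact_mod_cast hKH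
  have hh1 : (1 : ℝ) ≤ H := le_trans (one_le_pow₀ hk1) hhR
  have hW5 : (1 : ℝ) ≤ (W : ℝ) ^ 5 := one_le_pow₀ hW1
  have hκK : 2 ≤ κ * K := by
    have e1 : κ ^ 2 * (δ * K) ≤ κ * K := by
      have : κ * δ ≤ 1 := by nlinarith
      calc κ ^ 2 * (δ * K) = (κ * δ) * (κ * K) := by ring
        _ ≤ 1 * (κ * K) := mul_le_mul_of_nonneg_right this (by positivity)
        _ = _ := one_mul _
    nlinarith
  set L4 : ℕ := ⌊κ * K * H ^ 3⌋₊ with hL4
  set L5 : ℕ := ⌊κ * K * H ^ 4⌋₊ with hL5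
  have hL4u : (L4 : ℝ) ≤ κ * K * H ^ 3 := Nat.floor_le (by positivity)
  have hL5u : (L5 : ℝ) ≤ κ * K * H ^ 4 := Nat.floor_le (by positivity)
  have hL4l : κ * K * H ^ 3 / 2 ≤ L4 := by
    have e1 := Nat.lt_floor_add_one (κ * K * H ^ 3)
    rw [← hL4] at e1
    have e2 : 2 ≤ κ * K * H ^ 3 := by nlinarith [one_le_pow₀ hh1 (n := 3)]
    linarith
  have hL5l : κ * K * H ^ 4 / 2 ≤ L5 := by
    have e1 := Nat.lt_floor_add_one (κ * K * H ^ 4)
    rw [← hL5] at e1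
    have e2 : 2 ≤ κ * K * H ^ 4 := by nlinarith [one_le_pow₀ hh1 (n := 4)]
    linarith
  have hL4p : (0 : ℝ) < L4 := lt_of_lt_of_le (by positivity) hL4l
  have hL5p : (0 : ℝ) < L5 := lt_of_lt_of_le (by positivity) hL5l
  -- sizes
  have hxs := (Xs_card (W := W) hW0 hWK hKH).1
  have hq := Qs_card_lower (A2 := A2) (A4 := A4) hoW hWK hKH
  have hTc : ((Ts K H W A2 A4).card : ℝ) = ((Xs K H W).card : ℝ) * ((Qs K H W A2 A4).card : ℝ) := by
    unfold Ts
    rw [Finset.card_product]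
    push_cast
    ring
  have hnum := numerics κ δ K H W z ((Xs K H W).card : ℝ) ((Qs K H W A2 A4).card : ℝ) L4 L5
    (1000 * (K : ℝ) ^ 2 * H) hκ hκ1 hδ hδ1 hW1 hk1 hkδ hhR hz0 hzδ hxs hq hL4l hL5l hL5u rfl
  obtain ⟨hM, hnum2⟩ := hnum
  have hML : 50000 * (K : ℝ) ^ 2 * H ^ 2 ≤ L5 := by nlinarith
  have hbd : ∀ t ∈ Ts K H W A2 A4, 0 < Dt t ∧ (Dt t : ℝ) ≤ 50000 * (K : ℝ) ^ 2 * H ^ 2 ∧ Odd (Dt t) := by
    intro t ht
    have h5 := Dt_bounds hK2 hKH h2 h4 ht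
    have h6 := (Dt_mod hoW ht).1
    have hH : 0 < H := by exact_mod_cast (lt_of_lt_of_le one_pos hh1)
    refine ⟨lt_of_lt_of_le (by positivity) h5.1, ?_, h6⟩
    have := (Int.cast_le (R := ℝ)).2 h5.2
    push_cast at this
    exact this
  have hfm := first_moment s (Ts K H W A2 A4) (50000 * (K : ℝ) ^ 2 * H ^ 2) hbd B4 B5 L4 L5
  have hsm := second_moment K H W A2 A4 z (by omega) hoW hWK hKH hWz h2 h4 s B4 B5 L4 L5 hML
  have hcard : ((bx B4 B5 L4 L5).card : ℝ) = L4 * L5 := by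
    unfold bx
    rw [Finset.card_product]
    simp
  have hxp : (0 : ℝ) < (Xs K H W).card := lt_of_lt_of_le (by positivity) hxs
  have hqp : (0 : ℝ) < (Qs K H W A2 A4).card := lt_of_lt_of_le (by positivity) hq
  have hz2 := few_zeros (bx B4 B5 L4 L5) (FF s (Ts K H W A2 A4)) (L4 * L5)
    (((Xs K H W).card : ℝ) * ((Qs K H W A2 A4).card : ℝ)) δ hcard (by positivity) hδ hδ1 (by positivity)
    (by
      refine le_trans ?_ hfm
      rw [hTc]
      have e1 : (1 - δ) * (L5 : ℝ) ≤ L5 - 50000 * (K : ℝ) ^ 2 * H ^ 2 := by linarith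
      calc (1 - δ) * (L4 * L5 : ℝ) * (((Xs K H W).card : ℝ) * ((Qs K H W A2 A4).card : ℝ))
          = (((Xs K H W).card : ℝ) * ((Qs K H W A2 A4).card : ℝ)) * (L4 * ((1 - δ) * (L5 : ℝ))) := by ring
        _ ≤ _ := by
          apply mul_le_mul_of_nonneg_left _ (by positivity)
          exact mul_le_mul_of_nonneg_left e1 hL4p.le)
    (by
      refine hsm.trans ?_
      rw [hTc]
      push_cast
      exact hnum2)
  have hsub : (bx B4 B5 L4 L5).filter (fun a : ℤ × ℤ => ∀ X u v : ℤ,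
      InFam K H A2 A4 X u v → ¬ (Dd X u v ∣ 16 * a.1 * X + 32 * a.2 + s X)) ⊆
      (bx B4 B5 L4 L5).filter (fun a => FF s (Ts K H W A2 A4) a = 0) := by
    intro a ha
    rw [Finset.mem_filter] at ha ⊢
    refine ⟨ha.1, ?_⟩
    unfold FF
    apply Finset.sum_eq_zero
    intro t ht
    rw [if_neg]
    exact ha.2 t.1 t.2.1 t.2.2 (mem_Ts_inFam hoW ht)
  have hc1 : (((bx B4 B5 L4 L5).filter (fun a : ℤ × ℤ => ∀ X u v : ℤ,
      InFam K H A2 A4 X u v → ¬ (Dd X u v ∣ 16 * a.1 * X + 32 * a.2 + s X))).card : ℝ) ≤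
      (((bx B4 B5 L4 L5).filter (fun a => FF s (Ts K H W A2 A4) a = 0)).card : ℝ) := by
    exact_mod_cast Finset.card_le_card hsub
  calc _ ≤ 8 * δ * (L4 * L5 : ℝ) := hc1.trans hz2
    _ ≤ ε * ((κ * K * H ^ 3) * (κ * K * H ^ 4)) := by
        apply mul_le_mul hδε (mul_le_mul hL4u hL5u hL5p.le (by positivity)) (by positivity) hε.le
    _ = _ := by ring

end Helper6.QS
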