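import Pool.Agent.Helper6.QS.Defs

/-! QS-13: sums of greatest common divisors over an interval. -/

set_option autoImplicit false
namespace Helper6.QS

/-- The number of divisors is at most twice the square root. -/
private theorem h71_card_divisors_le (h : ℕ) : h.divisors.card ≤ 2 * Nat.sqrt h := by
  rcases Nat.eq_zero_or_pos h with rfl | hpos
  · simp
  set s := Nat.sqrt h with hs
  have h1 : (h.divisors.filter (fun d => d ≤ s)).card ≤ s := by
    have : h.divisors.filter (fun d => d ≤ s) ⊆ Finset.Icc 1 s := by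
      intro d hd
      rw [Finset.mem_filter] at hd
      exact Finset.mem_Icc.2 ⟨Nat.pos_of_mem_divisors hd.1, hd.2⟩
    calc _ ≤ (Finset.Icc 1 s).card := Finset.card_le_card this
      _ = s := by rw [Nat.card_Icc, Nat.add_sub_cancel]
  have h2 : (h.divisors.filter (fun d => ¬ d ≤ s)).card ≤ s := by
    have : (h.divisors.filter (fun d => ¬ d ≤ s)).card ≤ (Finset.Icc 1 s).card := by
      apply Finset.card_le_card_of_injOn (fun d => h / d)
      · intro d hd
        have hd' := Finset.mem_filter.1 hd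
        have hdvd := Nat.dvd_of_mem_divisors hd'.1
        have hdpos := Nat.pos_of_mem_divisors hd'.1
        have hmul : h / d * d = h := Nat.div_mul_cancel hdvd
        rw [Finset.mem_coe, Finset.mem_Icc]
        refine ⟨Nat.div_pos (Nat.le_of_dvd hpos hdvd) hdpos, ?_⟩
        by_contra hc
        have hc1 : s + 1 ≤ h / d := Nat.lt_of_not_le hc
        have hc2 : s + 1 ≤ d := Nat.lt_of_not_le hd'.2
        have hc3 : (s + 1) * (s + 1) ≤ h := by
          calc (s + 1) * (s + 1) ≤ h / d * d := Nat.mul_le_mul hc1 hc2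
            _ = h := hmul
        have hc4 : h < (s + 1) * (s + 1) := Nat.lt_succ_sqrt h
        omega
      · intro d hd d' hd' hdd
        have e1 := Nat.dvd_of_mem_divisors (Finset.mem_filter.1 hd).1
        have e2 := Nat.dvd_of_mem_divisors (Finset.mem_filter.1 hd').1
        have e3 : h / (h / d) = h / (h / d') := by rw [show h / d = h / d' from hdd]
        rwa [Nat.div_div_self e1 hpos.ne', Nat.div_div_self e2 hpos.ne'] at e3
    rwa [Nat.card_Icc, Nat.add_sub_cancel] at this
  have h3 := Finset.card_filter_add_card_filter_not (s := h.divisors) (fun d => d ≤ s)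
  omega

/-- The number of multiples of `g` in an interval of length `N`. -/
private theorem h71_card_mult (S : Finset ℤ) (M : ℤ) (N g : ℕ) (hg : 0 < g)
    (h : ∀ D ∈ S, M ≤ D ∧ D ≤ M + N) :
    g * (S.filter (fun D => (g : ℤ) ∣ D)).card ≤ N + g := by
  have hg' : (0 : ℤ) < g := by exact_mod_cast hg
  have h1 : (S.filter (fun D => (g : ℤ) ∣ D)).card ≤ (Finset.range (N / g + 1)).card := by
    apply Finset.card_le_card_of_injOn (fun D => ((D - M) / g).toNat)
    · intro D hD
      have hD' := Finset.mem_filter.1 hD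
      obtain ⟨a, b⟩ := h D hD'.1
      rw [Finset.mem_coe, Finset.mem_range, Nat.lt_succ_iff]
      have e1 : (D - M) / g ≤ ((N / g : ℕ) : ℤ) := by
        rw [Int.natCast_div]
        exact Int.ediv_le_ediv hg' (by linarith)
      exact Int.toNat_le.2 e1
    · intro D hD D' hD' hdd
      have hD1 := Finset.mem_filter.1 hD
      have hD2 := Finset.mem_filter.1 hD'
      obtain ⟨a, b⟩ := h D hD1.1
      obtain ⟨a', b'⟩ := h D' hD2.1
      have n1 : 0 ≤ (D - M) / g := Int.ediv_nonneg (by linarith) hg'.le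
      have n2 : 0 ≤ (D' - M) / g := Int.ediv_nonneg (by linarith) hg'.le
      have e1 : (D - M) / g = (D' - M) / g := by
        have := congrArg (fun x : ℕ => (x : ℤ)) hdd
        simp only [Int.toNat_of_nonneg n1, Int.toNat_of_nonneg n2] at this
        exact this
      have r1 := Int.emod_add_mul_ediv (D - M) g
      have r2 := Int.emod_add_mul_ediv (D' - M) g
      have m1 := Int.emod_nonneg (D - M) hg'.ne'
      have m2 := Int.emod_nonneg (D' - M) hg'.ne'
      have m3 := Int.emod_lt_of_pos (D - M) hg'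
      have m4 := Int.emod_lt_of_pos (D' - M) hg'
      have hsub : (g : ℤ) ∣ D - D' := dvd_sub hD1.2 hD2.2
      have habs : |D - D'| < g := by
        rw [abs_lt]
        rw [e1] at r1
        constructor <;> linarith
      have := Int.eq_zero_of_abs_lt_dvd hsub habs
      linarith
  rw [Finset.card_range] at h1
  calc g * (S.filter (fun D => (g : ℤ) ∣ D)).card ≤ g * (N / g + 1) := Nat.mul_le_mul_left g h1
    _ = g * (N / g) + g := by ring
    _ ≤ N + g := by
      have := Nat.mul_div_le N g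
      omega

/-- The sum of `gcd(D, h)` over an interval of length `N`. -/
private theorem h71_sum_one (S : Finset ℤ) (M : ℤ) (N h : ℕ) (hh : 0 < h) (hhN : h ≤ N)
    (hS : ∀ D ∈ S, M ≤ D ∧ D ≤ M + N) :
    ∑ D ∈ S, Int.gcd D h ≤ 2 * N * (2 * Nat.sqrt N) := by
  have h1 : ∀ D ∈ S, Int.gcd D h ≤ ∑ g ∈ h.divisors, if (g : ℤ) ∣ D then g else 0 := by
    intro D _
    have hmem : Int.gcd D h ∈ h.divisors := by
      rw [Nat.mem_divisors]
      refine ⟨?_, hh.ne'⟩
      exact_mod_cast Int.gcd_dvd_right D h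
    have hle := Finset.single_le_sum (f := fun g : ℕ => if (g : ℤ) ∣ D then g else 0)
      (fun g _ => Nat.zero_le _) hmem
    have e : (if ((Int.gcd D h : ℕ) : ℤ) ∣ D then Int.gcd D h else 0) = Int.gcd D h :=
      if_pos (Int.gcd_dvd_left D h)
    simp only [e] at hle
    exact hle
  calc ∑ D ∈ S, Int.gcd D h ≤ ∑ D ∈ S, ∑ g ∈ h.divisors, (if (g : ℤ) ∣ D then g else 0) :=
        Finset.sum_le_sum h1
    _ = ∑ g ∈ h.divisors, ∑ D ∈ S, (if (g : ℤ) ∣ D then g else 0) := Finset.sum_comm
    _ = ∑ g ∈ h.divisors, g * (S.filter (fun D => (g : ℤ) ∣ D)).card := by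
      apply Finset.sum_congr rfl
      intro g _
      rw [← Finset.sum_filter, Finset.sum_const, smul_eq_mul, mul_comm]
    _ ≤ ∑ g ∈ h.divisors, 2 * N := by
      apply Finset.sum_le_sum
      intro g hg
      have hgpos := Nat.pos_of_mem_divisors hg
      have hgh : g ≤ h := Nat.le_of_dvd hh (Nat.dvd_of_mem_divisors hg)
      have := h71_card_mult S M N g hgpos hS
      omega
    _ = h.divisors.card * (2 * N) := by rw [Finset.sum_const, smul_eq_mul]
    _ ≤ (2 * Nat.sqrt N) * (2 * N) := by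
      apply Nat.mul_le_mul_right
      exact (h71_card_divisors_le h).trans (Nat.mul_le_mul_left 2 (Nat.sqrt_le_sqrt hhN))
    _ = 2 * N * (2 * Nat.sqrt N) := by ring

theorem sum_gcd_le (S : Finset ℤ) (M : ℤ) (N : ℕ) (h : ∀ D ∈ S, M ≤ D ∧ D ≤ M + N) (h0 : ∀ D ∈ S, 0 < D) :
    ((∑ D ∈ S, ∑ D' ∈ S.erase D, Int.gcd D D' : ℕ) : ℝ) ≤ 8 * (N : ℝ) ^ 2 * Real.sqrt N := by
  have key : ∑ D ∈ S, ∑ D' ∈ S.erase D, Int.gcd D D' ≤ 8 * N ^ 2 * Nat.sqrt N := by
    have h1 : ∀ D ∈ S, ∑ D' ∈ S.erase D, Int.gcd D D' ≤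
        ∑ k ∈ Finset.Icc 1 N, 2 * Int.gcd D k := by
      intro D hD
      obtain ⟨a, b⟩ := h D hD
      have hmaps : ∀ D' ∈ S.erase D, (D' - D).natAbs ∈ Finset.Icc 1 N := by
        intro D' hD'
        obtain ⟨hne, hD'S⟩ := Finset.mem_erase.1 hD'
        obtain ⟨a', b'⟩ := h D' hD'S
        rw [Finset.mem_Icc]
        constructor
        · rw [Nat.one_le_iff_ne_zero, Ne, Int.natAbs_eq_zero]
          intro hc
          exact hne (by linarith)
        · omega
      rw [← Finset.sum_fiberwise_of_maps_to hmaps]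
      apply Finset.sum_le_sum
      intro k _
      have hg : ∀ D' ∈ (S.erase D).filter (fun D' => (D' - D).natAbs = k),
          Int.gcd D D' = Int.gcd D k := by
        intro D' hD'
        have hk := (Finset.mem_filter.1 hD').2
        have e1 : Int.gcd D D' = Int.gcd D (D' - D) := by
          exact (Int.gcd_sub_self_right D D').symm
        rw [e1, ← hk]
        rfl
      rw [Finset.sum_congr rfl hg, Finset.sum_const, smul_eq_mul]
      apply Nat.mul_le_mul_right
      have hsub : (S.erase D).filter (fun D' => (D' - D).natAbs = k) ⊆ {D + k, D - k} := by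
        intro D' hD'
        have hk := (Finset.mem_filter.1 hD').2
        rw [Finset.mem_insert, Finset.mem_singleton]
        omega
      exact (Finset.card_le_card hsub).trans Finset.card_le_two
    calc ∑ D ∈ S, ∑ D' ∈ S.erase D, Int.gcd D D'
        ≤ ∑ D ∈ S, ∑ k ∈ Finset.Icc 1 N, 2 * Int.gcd D k := Finset.sum_le_sum h1
      _ = ∑ k ∈ Finset.Icc 1 N, ∑ D ∈ S, 2 * Int.gcd D k := Finset.sum_comm
      _ ≤ ∑ k ∈ Finset.Icc 1 N, 2 * (2 * N * (2 * Nat.sqrt N)) := by
        apply Finset.sum_le_sum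
        intro k hk
        obtain ⟨k1, k2⟩ := Finset.mem_Icc.1 hk
        rw [← Finset.mul_sum]
        exact Nat.mul_le_mul_left 2 (h71_sum_one S M N k k1 k2 h)
      _ = 8 * N ^ 2 * Nat.sqrt N := by
        rw [Finset.sum_const, Nat.card_Icc, Nat.add_sub_cancel, smul_eq_mul]
        ring
  have h2 : ((Nat.sqrt N : ℕ) : ℝ) ≤ Real.sqrt N := Real.nat_sqrt_le_real_sqrt
  calc ((∑ D ∈ S, ∑ D' ∈ S.erase D, Int.gcd D D' : ℕ) : ℝ) ≤ ((8 * N ^ 2 * Nat.sqrt N : ℕ) : ℝ) := by
        exact_mod_cast key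
    _ = 8 * (N : ℝ) ^ 2 * (Nat.sqrt N : ℝ) := by push_cast; ring
    _ ≤ 8 * (N : ℝ) ^ 2 * Real.sqrt N := mul_le_mul_of_nonneg_left h2 (by positivity)

end Helper6.QS
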