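import Pool.Agent.Helper6.QS.ESum
import Pool.Agent.Helper6.QS.Box
import Pool.Agent.Helper6.QS.Box1
import Pool.Agent.Helper6.QS.Gcd

/-! QS-16a: the first and the second moment. -/

set_option autoImplicit false
namespace Helper6.QS

open Finset

/-- condition -/
def cnd (s : ℤ → ℤ) (t : ℤ × (Σ _ : ℤ, ℤ)) (a : ℤ × ℤ) : Prop :=
  Dt t ∣ 16 * a.1 * t.1 + 32 * a.2 + s t.1

instance (s : ℤ → ℤ) (t : ℤ × (Σ _ : ℤ, ℤ)) (a : ℤ × ℤ) : Decidable (cnd s t a) := by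
  unfold cnd; infer_instance

/-- weighted count of the solutions -/
noncomputable def FF (s : ℤ → ℤ) (T : Finset (ℤ × (Σ _ : ℤ, ℤ))) (a : ℤ × ℤ) : ℝ :=
  ∑ t ∈ T, if cnd s t a then (Dt t : ℝ) else 0

theorem first_moment (s : ℤ → ℤ) (T : Finset (ℤ × (Σ _ : ℤ, ℤ))) (M0 : ℝ)
    (h0 : ∀ t ∈ T, 0 < Dt t ∧ (Dt t : ℝ) ≤ M0 ∧ Odd (Dt t)) (B4 B5 : ℤ) (L4 L5 : ℕ) :
    (T.card : ℝ) * (L4 * (L5 - M0)) ≤ ∑ a ∈ bx B4 B5 L4 L5, FF s T a := by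
  unfold FF
  rw [Finset.sum_comm, ← nsmul_eq_mul]
  apply Finset.card_nsmul_le_sum
  intro t ht
  obtain ⟨hp, hM, ho⟩ := h0 t ht
  rw [← Finset.sum_filter, Finset.sum_const, nsmul_eq_mul]
  have h1 := box_one_lower (Dt t) t.1 (s t.1) B4 B5 L4 L5 hp ho
  have hpR : (0 : ℝ) < Dt t := by exact_mod_cast hp
  have h2 : (L4 : ℝ) * (L5 / Dt t - 1) * Dt t ≤
      (((bx B4 B5 L4 L5).filter (fun a => cnd s t a)).card : ℝ) * Dt t := by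
    apply mul_le_mul_of_nonneg_right _ hpR.le
    exact h1
  refine le_trans ?_ h2
  have h3 : (L4 : ℝ) * (L5 / Dt t - 1) * Dt t = L4 * (L5 - Dt t) := by
    field_simp
  rw [h3]
  have : (0 : ℝ) ≤ L4 := by positivity
  nlinarith

/-- joint count -/
noncomputable def nn (s : ℤ → ℤ) (S : Finset (ℤ × ℤ)) (t t' : ℤ × (Σ _ : ℤ, ℤ)) : ℝ :=
  ((S.filter (fun a => cnd s t a ∧ cnd s t' a)).card : ℝ)

theorem second_moment_eq (s : ℤ → ℤ) (T : Finset (ℤ × (Σ _ : ℤ, ℤ))) (S : Finset (ℤ × ℤ)) :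
    ∑ a ∈ S, FF s T a ^ 2 = ∑ t ∈ T, ∑ t' ∈ T, (Dt t : ℝ) * Dt t' * nn s S t t' := by
  unfold FF nn
  simp_rw [sq, Finset.sum_mul_sum]
  rw [Finset.sum_comm]
  apply Finset.sum_congr rfl
  intro t _
  rw [Finset.sum_comm]
  apply Finset.sum_congr rfl
  intro t' _
  have : ∀ a : ℤ × ℤ, (if cnd s t a then (Dt t : ℝ) else 0) * (if cnd s t' a then (Dt t' : ℝ) else 0)
      = if (cnd s t a ∧ cnd s t' a) then (Dt t : ℝ) * Dt t' else 0 := by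
    intro a
    by_cases h1 : cnd s t a <;> by_cases h2 : cnd s t' a <;> simp [h1, h2]
  simp_rw [this]
  rw [← Finset.sum_filter, Finset.sum_const, nsmul_eq_mul, mul_comm]

theorem diag_bound (s : ℤ → ℤ) (t : ℤ × (Σ _ : ℤ, ℤ)) (M0 : ℝ)
    (h0 : 0 < Dt t ∧ (Dt t : ℝ) ≤ M0 ∧ Odd (Dt t)) (B4 B5 : ℤ) (L4 L5 : ℕ) (hM : M0 ≤ L5) :
    (Dt t : ℝ) * Dt t * nn s (bx B4 B5 L4 L5) t t ≤ 2 * L4 * L5 * M0 := by
  obtain ⟨hp, hM', ho⟩ := h0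
  have hpR : (0 : ℝ) < Dt t := by exact_mod_cast hp
  have h1 := box_one_upper (Dt t) t.1 (s t.1) B4 B5 L4 L5 hp ho
  have h2 : nn s (bx B4 B5 L4 L5) t t ≤ (L4 : ℝ) * (L5 / Dt t + 1) := by
    unfold nn
    simp only [and_self]
    exact h1
  calc (Dt t : ℝ) * Dt t * nn s (bx B4 B5 L4 L5) t t ≤ Dt t * Dt t * (L4 * (L5 / Dt t + 1)) :=
        mul_le_mul_of_nonneg_left h2 (by positivity)
    _ = L4 * (L5 * Dt t + Dt t * Dt t) := by field_simp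
    _ ≤ L4 * (L5 * M0 + L5 * M0) := by
        apply mul_le_mul_of_nonneg_left _ (by positivity)
        have hL5 : (0 : ℝ) ≤ L5 := by positivity
        have : (Dt t : ℝ) * Dt t ≤ L5 * M0 := mul_le_mul (hM'.trans hM) hM' hpR.le hL5
        nlinarith
    _ = _ := by ring

theorem diff_bound (s : ℤ → ℤ) (t t' : ℤ × (Σ _ : ℤ, ℤ)) (M0 X1 : ℝ)
    (h0 : 0 < Dt t ∧ (Dt t : ℝ) ≤ M0 ∧ Odd (Dt t)) (h0' : 0 < Dt t' ∧ (Dt t' : ℝ) ≤ M0 ∧ Odd (Dt t'))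
    (hX : 0 < t.1 ∧ (t.1 : ℝ) ≤ X1) (hX' : 0 < t'.1 ∧ (t'.1 : ℝ) ≤ X1) (hne : t.1 ≠ t'.1)
    (B4 B5 : ℤ) (L4 L5 : ℕ) :
    (Dt t : ℝ) * Dt t' * nn s (bx B4 B5 L4 L5) t t' ≤
      (L4 + 8 * M0) * (L5 + 4 * X1 * M0) * (Int.gcd (Dt t) (Int.gcd (Dt t') (t.1 - t'.1)) : ℝ) := by
  obtain ⟨hp, hM, ho⟩ := h0
  obtain ⟨hp', hM', ho'⟩ := h0'
  have h1 := box_two (Dt t) (Dt t') t.1 t'.1 (s t.1) (s t'.1) B4 B5 L4 L5 hp hp' ho ho' hX.1 hX'.1 hne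
  have h1R : (Dt t : ℝ) * Dt t' * nn s (bx B4 B5 L4 L5) t t' ≤
      (L4 + 4 * ((Dt t : ℝ) + Dt t')) * (L5 + 2 * ((t.1 : ℝ) * Dt t' + t'.1 * Dt t)) *
        (Int.gcd (Dt t) (Int.gcd (Dt t') (t.1 - t'.1)) : ℝ) := by
    have := (Int.cast_le (R := ℝ)).2 h1
    push_cast at this
    exact this
  refine h1R.trans ?_
  apply mul_le_mul_of_nonneg_right _ (by positivity)
  have hpR : (0 : ℝ) < Dt t := by exact_mod_cast hp
  have hpR' : (0 : ℝ) < Dt t' := by exact_mod_cast hp'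
  have hXR : (0 : ℝ) < t.1 := by exact_mod_cast hX.1
  have hXR' : (0 : ℝ) < t'.1 := by exact_mod_cast hX'.1
  have ha : (t.1 : ℝ) * Dt t' ≤ X1 * M0 := mul_le_mul hX.2 hM' hpR'.le (hXR.le.trans hX.2)
  have hb : (t'.1 : ℝ) * Dt t ≤ X1 * M0 := mul_le_mul hX'.2 hM hpR.le (hXR'.le.trans hX'.2)
  apply mul_le_mul
  · linarith
  · linarith
  · positivity
  · have : (0 : ℝ) ≤ M0 := hpR.le.trans hM
    positivity

theorem same_bound (s : ℤ → ℤ) (t t' : ℤ × (Σ _ : ℤ, ℤ)) (M0 X0 X1 : ℝ)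
    (h0 : 0 < Dt t ∧ (Dt t : ℝ) ≤ M0 ∧ Odd (Dt t)) (h0' : 0 < Dt t' ∧ (Dt t' : ℝ) ≤ M0 ∧ Odd (Dt t'))
    (hX0 : 0 < X0) (hX : X0 ≤ (t.1 : ℝ) ∧ (t.1 : ℝ) ≤ X1) (hoX : Odd t.1) (he : t'.1 = t.1)
    (B4 B5 : ℤ) (L4 L5 : ℕ) :
    (Dt t : ℝ) * Dt t' * nn s (bx B4 B5 L4 L5) t t' ≤
      ((X1 * L4 + 2 * L5) * (Int.gcd (Dt t) (Dt t') : ℝ) + M0 * M0) * (L5 / X0 + 1) := by
  obtain ⟨hp, hM, ho⟩ := h0
  obtain ⟨hp', hM', ho'⟩ := h0'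
  have hXR : (0 : ℝ) < t.1 := hX0.trans_le hX.1
  have hXi : 0 < t.1 := by exact_mod_cast hXR
  have h1 := box_same (Dt t) (Dt t') t.1 (s t.1) B4 B5 L4 L5 hp hp' ho ho' hXi hoX
  have hpR : (0 : ℝ) < Dt t := by exact_mod_cast hp
  have hpR' : (0 : ℝ) < Dt t' := by exact_mod_cast hp'
  have h2 : nn s (bx B4 B5 L4 L5) t t' ≤ ((t.1 * L4 + 2 * L5) * (Int.gcd (Dt t) (Dt t') : ℝ) /
      (Dt t * Dt t') + 1) * (L5 / t.1 + 1) := by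
    have hfe : (bx B4 B5 L4 L5).filter (fun a => cnd s t a ∧ cnd s t' a) =
        (bx B4 B5 L4 L5).filter (fun a => Dt t ∣ 16 * a.1 * t.1 + 32 * a.2 + s t.1 ∧
          Dt t' ∣ 16 * a.1 * t.1 + 32 * a.2 + s t.1) := by
      apply Finset.filter_congr
      intro a _
      unfold cnd
      rw [he]
    unfold nn
    rw [hfe]
    exact h1
  calc (Dt t : ℝ) * Dt t' * nn s (bx B4 B5 L4 L5) t t'
      ≤ Dt t * Dt t' * (((t.1 * L4 + 2 * L5) * (Int.gcd (Dt t) (Dt t') : ℝ) /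
      (Dt t * Dt t') + 1) * (L5 / t.1 + 1)) := mul_le_mul_of_nonneg_left h2 (by positivity)
    _ = ((t.1 * L4 + 2 * L5) * (Int.gcd (Dt t) (Dt t') : ℝ) + Dt t * Dt t') * (L5 / t.1 + 1) := by
        field_simp
    _ ≤ _ := by
        have hM0 : (0 : ℝ) ≤ M0 := hpR.le.trans hM
        have hX10 : (0 : ℝ) ≤ X1 := hXR.le.trans hX.2
        apply mul_le_mul
        · apply add_le_add
          · apply mul_le_mul_of_nonneg_right _ (by positivity)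
            have : (t.1 : ℝ) * L4 ≤ X1 * L4 := mul_le_mul_of_nonneg_right hX.2 (by positivity)
            linarith
          · exact mul_le_mul hM hM' hpR'.le hM0
        · have : (L5 : ℝ) / t.1 ≤ L5 / X0 := div_le_div_of_nonneg_left (by positivity) hX0 hX.1
          linarith
        · positivity
        · positivity

end Helper6.QS
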