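import Pool.Agent.Helper6.QS.CN1

/-! QS-16b: the second moment of the family. -/

set_option autoImplicit false
namespace Helper6.QS

open Finset

theorem same_sum {α β : Type*} [DecidableEq α] [DecidableEq β] (A : Finset α) (B : Finset β)
    (g : α × β → α × β → ℝ) :
    ∑ t ∈ A ×ˢ B, ∑ t' ∈ (A ×ˢ B).filter (fun t' => t'.1 = t.1 ∧ t' ≠ t), g t t'
      = ∑ X ∈ A, ∑ p ∈ B, ∑ q ∈ B.erase p, g (X, p) (X, q) := by
  rw [Finset.sum_product]
  apply Finset.sum_congr rfl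
  intro X hX
  apply Finset.sum_congr rfl
  intro p hp
  symm
  apply Finset.sum_bij (fun q _ => (X, q))
  · intro q hq
    rw [Finset.mem_erase] at hq
    simp only [Finset.mem_filter, Finset.mem_product]
    refine ⟨⟨hX, hq.2⟩, trivial, ?_⟩
    intro h
    exact hq.1 (congrArg Prod.snd h)
  · intro q _ q' _ h
    exact congrArg Prod.snd h
  · intro b hb
    simp only [Finset.mem_filter, Finset.mem_product] at hb
    obtain ⟨⟨h1, h2⟩, h3, h4⟩ := hb
    refine ⟨b.2, ?_, ?_⟩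
    · rw [Finset.mem_erase]
      refine ⟨?_, h2⟩
      intro h
      apply h4
      exact Prod.ext h3 h
    · exact Prod.ext h3.symm rfl
  · intro q _
    rfl

theorem gcd_sum_same (K H W : ℕ) (A2 A4 : ℤ) (hoW : Odd W) (hK : 2 ≤ K) (hKH : K ^ 4 ≤ H)
    (h2 : |A2| ≤ H) (h4 : |A4| ≤ H) {X : ℤ} (hX : X ∈ Xs K H W) :
    ∑ p ∈ Qs K H W A2 A4, ∑ q ∈ (Qs K H W A2 A4).erase p,
      (Int.gcd (Dd X p.1 p.2) (Dd X q.1 q.2) : ℝ)
      ≤ 8 * ((1000 * K ^ 2 * H : ℕ) : ℝ) ^ 2 * Real.sqrt ((1000 * K ^ 2 * H : ℕ) : ℝ) := by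
  classical
  obtain ⟨M, hM⟩ := Dt_window (A4 := A4) hK hKH h2 hX
  set Q := Qs K H W A2 A4 with hQ
  set F : (Σ _ : ℤ, ℤ) → ℤ := fun p => Dd X p.1 p.2 with hF
  have hinj : Set.InjOn F Q := by
    intro p hp q hq h
    exact Dt_inj hoW hK hKH h2 hX hp hq h
  have h := sum_gcd_le (Q.image F) M (1000 * K ^ 2 * H) (by
    intro D hD
    rw [Finset.mem_image] at hD
    obtain ⟨p, hp, rfl⟩ := hD
    exact hM p hp) (by
    intro D hD
    rw [Finset.mem_image] at hD
    obtain ⟨p, hp, rfl⟩ := hD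
    have hm : ((X, p) : ℤ × (Σ _ : ℤ, ℤ)) ∈ Ts K H W A2 A4 := by
      unfold Ts
      exact Finset.mem_product.2 ⟨hX, hp⟩
    have := (Dt_bounds hK hKH h2 h4 hm).1
    have h5 : Dt (X, p) = F p := rfl
    rw [h5] at this
    have hH : 0 < H := lt_of_lt_of_le (by positivity) hKH
    have : 0 < 5000 * (K : ℤ) ^ 2 * H ^ 2 := by positivity
    linarith)
  refine le_trans (le_of_eq ?_) h
  push_cast
  rw [Finset.sum_image hinj]
  apply Finset.sum_congr rfl
  intro p hp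
  have : (Q.image F).erase (F p) = (Q.erase p).image F := by
    ext D
    simp only [Finset.mem_erase, Finset.mem_image]
    constructor
    · rintro ⟨h1, q, hq, rfl⟩
      refine ⟨q, ⟨?_, hq⟩, rfl⟩
      intro h
      exact h1 (by rw [h])
    · rintro ⟨q, ⟨hne, hq⟩, rfl⟩
      refine ⟨?_, q, hq, rfl⟩
      intro h
      exact hne (hinj hq hp h)
  rw [this, Finset.sum_image]
  intro q hq q' hq' h
  exact hinj (Finset.mem_of_mem_erase hq) (Finset.mem_of_mem_erase hq') h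

theorem split_sum {α β : Type*} [DecidableEq α] [DecidableEq β] (A : Finset α) (B : Finset β)
    (g : α × β → α × β → ℝ) :
    ∑ t ∈ A ×ˢ B, ∑ t' ∈ A ×ˢ B, g t t' = ∑ t ∈ A ×ˢ B, g t t +
      ∑ t ∈ A ×ˢ B, ∑ t' ∈ (A ×ˢ B).filter (fun t' => t'.1 = t.1 ∧ t' ≠ t), g t t' +
      ∑ t ∈ A ×ˢ B, ∑ t' ∈ (A ×ˢ B).filter (fun t' => t'.1 ≠ t.1), g t t' := by
  rw [← Finset.sum_add_distrib, ← Finset.sum_add_distrib]
  apply Finset.sum_congr rfl
  intro t ht
  rw [← Finset.sum_filter_add_sum_filter_not (A ×ˢ B) (fun t' => t'.1 = t.1)]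
  congr 1
  have h1 : (A ×ˢ B).filter (fun t' => t'.1 = t.1) =
      insert t ((A ×ˢ B).filter (fun t' => t'.1 = t.1 ∧ t' ≠ t)) := by
    ext x
    simp only [Finset.mem_insert, Finset.mem_filter]
    constructor
    · rintro ⟨hx, h⟩
      by_cases hxt : x = t
      · exact Or.inl hxt
      · exact Or.inr ⟨hx, h, hxt⟩
    · rintro (rfl | ⟨hx, h, _⟩)
      · exact ⟨ht, rfl⟩
      · exact ⟨hx, h⟩
  rw [h1, Finset.sum_insert]
  simp

theorem second_moment (K H W : ℕ) (A2 A4 : ℤ) (z : ℕ) (hz : 2 ≤ z) (hoW : Odd W) (hW : 10 * W ≤ K)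
    (hKH : K ^ 4 ≤ H) (hWz : ∀ p : ℕ, p.Prime → p ≠ 2 → p < z → p ∣ W) (h2 : |A2| ≤ H) (h4 : |A4| ≤ H)
    (s : ℤ → ℤ) (B4 B5 : ℤ) (L4 L5 : ℕ) (hM : 50000 * (K : ℝ) ^ 2 * H ^ 2 ≤ L5) :
    ∑ a ∈ bx B4 B5 L4 L5, FF s (Ts K H W A2 A4) a ^ 2 ≤
      ((Ts K H W A2 A4).card : ℝ) * (2 * L4 * L5 * (50000 * (K : ℝ) ^ 2 * H ^ 2)) +
      ((200 * K * H * L4 + 2 * L5) * (((Xs K H W).card : ℝ) *
        (8 * ((1000 * K ^ 2 * H : ℕ) : ℝ) ^ 2 * Real.sqrt ((1000 * K ^ 2 * H : ℕ) : ℝ))) +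
        (50000 * (K : ℝ) ^ 2 * H ^ 2) ^ 2 * (((Xs K H W).card : ℝ) * ((Qs K H W A2 A4).card : ℝ) ^ 2)) *
        (L5 / (100 * K * H) + 1) +
      (L4 + 8 * (50000 * (K : ℝ) ^ 2 * H ^ 2)) * (L5 + 4 * (200 * K * H) * (50000 * (K : ℝ) ^ 2 * H ^ 2)) *
        ((1 + 40 / z) * ((Ts K H W A2 A4).card : ℝ) ^ 2) := by
  classical
  have hW0 : 0 < W := hoW.pos
  have hK : 2 ≤ K := by omega
  have hH : 0 < H := lt_of_lt_of_le (by positivity) hKH
  have hK0 : (0 : ℝ) < K := by exact_mod_cast (by omega : 0 < K)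
  have hH0 : (0 : ℝ) < H := by exact_mod_cast hH
  set M0 : ℝ := 50000 * (K : ℝ) ^ 2 * H ^ 2 with hM0
  set T := Ts K H W A2 A4 with hT
  have hbd : ∀ t ∈ T, 0 < Dt t ∧ (Dt t : ℝ) ≤ M0 ∧ Odd (Dt t) := by
    intro t ht
    have h5 := Dt_bounds hK hKH h2 h4 ht
    have h6 := (Dt_mod hoW ht).1
    refine ⟨lt_of_lt_of_le (by positivity) h5.1, ?_, h6⟩
    have := (Int.cast_le (R := ℝ)).2 h5.2
    push_cast at this
    exact this
  have hXb : ∀ t ∈ T, (100 * K * H : ℝ) ≤ (t.1 : ℝ) ∧ (t.1 : ℝ) ≤ 200 * K * H ∧ Odd t.1 := by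
    intro t ht
    have h5 := mem_Ts_inFam hoW ht
    refine ⟨?_, ?_, h5.1⟩
    · have := (Int.cast_le (R := ℝ)).2 h5.2.1
      push_cast at this
      exact this
    · have := (Int.cast_le (R := ℝ)).2 h5.2.2.1.le
      push_cast at this
      exact this
  have hX0 : (0 : ℝ) < 100 * K * H := by positivity
  rw [second_moment_eq]
  have hTs : T = Xs K H W ×ˢ Qs K H W A2 A4 := rfl
  rw [hTs, split_sum, ← hTs]
  apply add_le_add (add_le_add _ _)
  · -- different X
    calc ∑ t ∈ T, ∑ t' ∈ T.filter (fun t' => t'.1 ≠ t.1), (Dt t : ℝ) * Dt t' * nn s (bx B4 B5 L4 L5) t t'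
        ≤ ∑ t ∈ T, ∑ t' ∈ T.filter (fun t' => t'.1 ≠ t.1),
          (L4 + 8 * M0) * (L5 + 4 * (200 * K * H) * M0) *
            (Int.gcd (Dt t) (Int.gcd (Dt t') (t.1 - t'.1)) : ℝ) := by
          apply Finset.sum_le_sum
          intro t ht
          apply Finset.sum_le_sum
          intro t' ht'
          rw [Finset.mem_filter] at ht'
          have hx := hXb t ht
          have hx' := hXb t' ht'.1
          refine diff_bound s t t' M0 (200 * K * H) (hbd t ht) (hbd t' ht'.1) ⟨?_, hx.2.1⟩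
            ⟨?_, hx'.2.1⟩ (fun h => ht'.2 h.symm) B4 B5 L4 L5
          · exact_mod_cast hX0.trans_le hx.1
          · exact_mod_cast hX0.trans_le hx'.1
      _ = (L4 + 8 * M0) * (L5 + 4 * (200 * K * H) * M0) *
          ∑ t ∈ T, ∑ t' ∈ T.filter (fun t' => t'.1 ≠ t.1),
            (Int.gcd (Dt t) (Int.gcd (Dt t') (t.1 - t'.1)) : ℝ) := by
          rw [Finset.mul_sum]
          apply Finset.sum_congr rfl
          intro t _
          rw [Finset.mul_sum]
      _ ≤ _ := by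
          apply mul_le_mul_of_nonneg_left _ (by positivity)
          exact esum K H W z A2 A4 hz hoW hW hKH hWz
  · -- diagonal
    rw [← nsmul_eq_mul]
    apply Finset.sum_le_card_nsmul
    intro t ht
    exact diag_bound s t M0 (hbd t ht) B4 B5 L4 L5 hM
  · -- same X
    calc ∑ t ∈ T, ∑ t' ∈ T.filter (fun t' => t'.1 = t.1 ∧ t' ≠ t),
          (Dt t : ℝ) * Dt t' * nn s (bx B4 B5 L4 L5) t t'
        ≤ ∑ t ∈ T, ∑ t' ∈ T.filter (fun t' => t'.1 = t.1 ∧ t' ≠ t),
          ((200 * K * H * L4 + 2 * L5) * (Int.gcd (Dt t) (Dt t') : ℝ) + M0 * M0) *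
            (L5 / (100 * K * H) + 1) := by
          apply Finset.sum_le_sum
          intro t ht
          apply Finset.sum_le_sum
          intro t' ht'
          rw [Finset.mem_filter] at ht'
          have hx := hXb t ht
          exact same_bound s t t' M0 (100 * K * H) (200 * K * H) (hbd t ht) (hbd t' ht'.1) hX0
            ⟨hx.1, hx.2.1⟩ hx.2.2 ht'.2.1 B4 B5 L4 L5
      _ = ((200 * K * H * L4 + 2 * L5) * (∑ t ∈ T, ∑ t' ∈ T.filter (fun t' => t'.1 = t.1 ∧ t' ≠ t),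
            (Int.gcd (Dt t) (Dt t') : ℝ)) + M0 ^ 2 * (∑ t ∈ T, ∑ t' ∈ T.filter
              (fun t' => t'.1 = t.1 ∧ t' ≠ t), (1 : ℝ))) * (L5 / (100 * K * H) + 1) := by
          rw [Finset.mul_sum, Finset.mul_sum, ← Finset.sum_add_distrib, Finset.sum_mul]
          apply Finset.sum_congr rfl
          intro t _
          rw [Finset.mul_sum, Finset.mul_sum, ← Finset.sum_add_distrib, Finset.sum_mul]
          apply Finset.sum_congr rfl
          intro t' _
          ring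
      _ ≤ _ := by
          apply mul_le_mul_of_nonneg_right _ (by positivity)
          apply add_le_add
          · apply mul_le_mul_of_nonneg_left _ (by positivity)
            rw [hTs, same_sum, ← nsmul_eq_mul]
            apply Finset.sum_le_card_nsmul
            intro X hX
            exact gcd_sum_same K H W A2 A4 hoW hK hKH h2 h4 hX
          · apply mul_le_mul_of_nonneg_left _ (by positivity)
            rw [hTs, same_sum, ← nsmul_eq_mul]
            apply Finset.sum_le_card_nsmul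
            intro X hX
            rw [sq, ← nsmul_eq_mul]
            apply Finset.sum_le_card_nsmul
            intro p hp
            rw [Finset.sum_const, nsmul_eq_mul, mul_one]
            exact_mod_cast Finset.card_le_card (Finset.erase_subset _ _)

end Helper6.QS
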