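import Mathlib

/-! Project QS (MP_1f08eb_nt): almost every totally real integer quintic is the minimal polynomial of a
symmetric integer matrix.  Definitions. -/

set_option autoImplicit false

open Polynomial Quaternion

namespace Helper6.QS

noncomputable section

/-- the monic integer quadratic `x² + u x + v` -/
def quad (u v : ℤ) : ℤ[X] := X ^ 2 + C u * X + C v

/-- the integer linear polynomial `m x + n` -/
def lin (m n : ℤ) : ℤ[X] := C m * X + C n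

/-- the monic integer quintic `x⁵ + a₀ x⁴ + a₁ x³ + a₂ x² + a₃ x + a₄` -/
def quint (a : Fin 5 → ℤ) : ℤ[X] :=
  X ^ 5 + C (a 0) * X ^ 4 + C (a 1) * X ^ 3 + C (a 2) * X ^ 2 + C (a 3) * X + C (a 4)

/-- `P` is the minimal polynomial of a symmetric integer matrix of size 20 -/
def IsMP (P : ℤ[X]) : Prop :=
  ∃ A : Matrix (Fin 20) (Fin 20) ℤ, A.IsSymm ∧
    minpoly ℚ (A.map (Int.cast : ℤ → ℚ)) = P.map (Int.castRingHom ℚ)

/-- `P = (x - d) q₁ q₂ - g₁ q₂ - g₂ q₁` with monic integer quadratics `q_i = x² + u_i x + v_i`, `u_i` odd,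
and integer linear `g_i = m_i x + n_i`, `m_i > 0`, `q_i(-n_i/m_i) < 0`. -/
def Good (P : ℤ[X]) : Prop :=
  ∃ u1 v1 u2 v2 d m1 n1 m2 n2 : ℤ, Odd u1 ∧ Odd u2 ∧ 0 < m1 ∧ 0 < m2 ∧
    n1 ^ 2 - u1 * n1 * m1 + v1 * m1 ^ 2 < 0 ∧ n2 ^ 2 - u2 * n2 * m2 + v2 * m2 ^ 2 < 0 ∧
    P = (X - C d) * quad u1 v1 * quad u2 v2 - lin m1 n1 * quad u2 v2 - lin m2 n2 * quad u1 v1

/-! ### Hurwitz quaternions and lattices -/

/-- Hurwitz quaternions: all coordinates integers or all coordinates half of odd integers -/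
def IsHur (x : ℍ[ℚ]) : Prop :=
  ∃ a b c d : ℤ, Even (a + b) ∧ Even (a + c) ∧ Even (a + d) ∧
    x = ⟨(a : ℚ) / 2, (b : ℚ) / 2, (c : ℚ) / 2, (d : ℚ) / 2⟩

/-- the Hurwitz quaternion `1 + i` -/
def oneI : ℍ[ℚ] := ⟨1, 1, 0, 0⟩

/-- the hermitian form on `ℍ[ℚ]²` with integer Gram matrix `[[m, m'], [m', m'']]` -/
def hf (m m' m'' : ℤ) (x y : ℍ[ℚ] × ℍ[ℚ]) : ℍ[ℚ] :=
  (m : ℍ[ℚ]) * (star x.1 * y.1) + (m' : ℍ[ℚ]) * (star x.1 * y.2 + star x.2 * y.1) +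
    (m'' : ℍ[ℚ]) * (star x.2 * y.2)

/-- multiplication by the companion matrix of `x² + u x + v` -/
def Km (u v : ℤ) (x : ℍ[ℚ] × ℍ[ℚ]) : ℍ[ℚ] × ℍ[ℚ] :=
  (-((v : ℍ[ℚ]) * x.2), x.1 - (u : ℍ[ℚ]) * x.2)

/-- integral, `Km`-stable right Hurwitz lattices containing `(1,0)`; Gram matrix `[[m,m'],[m',-u m'-v m]]` -/
structure IsLat (u v m m' : ℤ) (L : AddSubgroup (ℍ[ℚ] × ℍ[ℚ])) : Prop where
  e1 : ((1 : ℍ[ℚ]), (0 : ℍ[ℚ])) ∈ L
  mul : ∀ x ∈ L, ∀ y : ℍ[ℚ], IsHur y → (x.1 * y, x.2 * y) ∈ L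
  K : ∀ x ∈ L, Km u v x ∈ L
  int : ∀ x ∈ L, ∀ y ∈ L, IsHur (hf m m' (-u * m' - v * m) x y)

/-- maximal among such lattices -/
def IsMaxLat (u v m m' : ℤ) (L : AddSubgroup (ℍ[ℚ] × ℍ[ℚ])) : Prop :=
  IsLat u v m m' L ∧ ∀ L', IsLat u v m m' L' → L ≤ L' → L' = L

/-- self-dual lattices -/
def SelfDual (u v m m' : ℤ) (L : AddSubgroup (ℍ[ℚ] × ℍ[ℚ])) : Prop :=
  ∀ y : ℍ[ℚ] × ℍ[ℚ], (∀ x ∈ L, IsHur (hf m m' (-u * m' - v * m) x y)) → y ∈ L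

/-! ### the family of pairs of quadratics `x² + u x + v`, `x² + (u+2) x + (v-X)` -/

/-- the resultant of the two quadratics -/
def Dd (X u v : ℤ) : ℤ := X ^ 2 + 2 * u * X + 4 * v

/-- membership in the family attached to the approximate roots `A2`, `A4` -/
def InFam (K H : ℕ) (A2 A4 X u v : ℤ) : Prop :=
  Odd X ∧ 100 * K * H ≤ X ∧ X < 200 * K * H ∧ Odd u ∧ |u + A2 + A4| ≤ K ∧
    30 * K * H ≤ A2 ^ 2 + u * A2 + v ∧ A2 ^ 2 + u * A2 + v ≤ 50 * K * H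

/-- the values of `X` used (with an auxiliary odd modulus `W`) -/
def Xs (K H W : ℕ) : Finset ℤ :=
  (Finset.Ico (100 * K * H : ℤ) (200 * K * H)).filter (fun X => X % (2 * W) = 1)

/-- the values of `u` used -/
def Us (K W : ℕ) (A2 A4 : ℤ) : Finset ℤ :=
  (Finset.Icc (-A2 - A4 - K) (-A2 - A4 + K)).filter (fun u => u % (2 * W) = W)

/-- the values of `v` used for a given `u` -/
def Vs (K H W : ℕ) (A2 u : ℤ) : Finset ℤ :=
  (Finset.Icc (30 * K * H - A2 ^ 2 - u * A2) (50 * K * H - A2 ^ 2 - u * A2)).filter (fun v => (W : ℤ) ∣ v)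

/-- the pairs `(u,v)` used -/
def Qs (K H W : ℕ) (A2 A4 : ℤ) : Finset (Σ _ : ℤ, ℤ) :=
  (Us K W A2 A4).sigma (fun u => Vs K H W A2 u)

/-- the triples `(X,(u,v))` used -/
def Ts (K H W : ℕ) (A2 A4 : ℤ) : Finset (ℤ × (Σ _ : ℤ, ℤ)) :=
  Xs K H W ×ˢ Qs K H W A2 A4

/-- the modulus of a triple -/
def Dt (t : ℤ × (Σ _ : ℤ, ℤ)) : ℤ := Dd t.1 t.2.1 t.2.2

/-- boxes of last two coefficients -/
def bx (B4 B5 : ℤ) (L4 L5 : ℕ) : Finset (ℤ × ℤ) :=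
  Finset.Ico B4 (B4 + L4) ×ˢ Finset.Ico B5 (B5 + L5)

/-! ### the totally real quintics -/

/-- `a` is the coefficient vector of a quintic with roots `α` -/
def HasRts (a : Fin 5 → ℤ) (α : Fin 5 → ℝ) : Prop :=
  ∀ x : ℝ, x ^ 5 + a 0 * x ^ 4 + a 1 * x ^ 3 + a 2 * x ^ 2 + a 3 * x + a 4 = ∏ i, (x - α i)

/-- coefficient vectors of the monic integer quintics with five distinct real roots, all in `[-H,H]` -/
def TR (H : ℕ) : Set (Fin 5 → ℤ) :=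
  {a | ∃ α : Fin 5 → ℝ, StrictMono α ∧ (∀ i, |α i| ≤ H) ∧ HasRts a α}

/-- those with all consecutive gaps between roots at least `c H` -/
def TG (c : ℝ) (H : ℕ) : Set (Fin 5 → ℤ) :=
  {a | ∃ α : Fin 5 → ℝ, (∀ i j : Fin 5, i < j → c * H ≤ α j - α i) ∧ StrictMono α ∧
    (∀ i, |α i| ≤ H) ∧ HasRts a α}

end

end Helper6.QS
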