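import Pool.Agent.Helper49.LN.KeyAbs

/-!
# QS: generic hypersurfaces of degree `q` in `P^N`, `(N, q) = (3, 5), (4, 7), (6, 10)`

`Frame D a B`: a field with derivations `D_J` dual to the coefficients `a_J` of the form of degree
`q`, and a subfield `B` which contains the `a_J` and everything which is bounded, up to a power of
`Δ`, at all valuation rings where `Δ` bounds the derivations and finitely many elements of `B`.
The goal `KeyQ`: every point `x` of the hypersurface with `x_0 = 1` has coordinates in `B`.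
-/

set_option autoImplicit false

namespace Pool.Agent.Helper6.QS

open scoped BigOperators
open MvPolynomial
open Pool.Agent.Helper8.LG (Bdd form mon)
open Pool.Agent.Helper49.LN (cP mo hf pl)

section

variable {Ω : Type*} [Field Ω] {σ : Type*} [Fintype σ] [DecidableEq σ] {q : ℕ}

/-- the frame -/
structure Frame (D : Sym σ q → Derivation ℤ Ω Ω) (a : Sym σ q → Ω) (B : Subfield Ω) : Prop where
  dual : ∀ I J, D J (a I) = if I = J then 1 else 0
  mem : ∀ J, a J ∈ B
  rat : ∀ (s : Finset Ω), (∀ b ∈ s, b ∈ B) → ∀ (y : Ω) (M : ℕ),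
    (∀ (O : ValuationSubring Ω) (Δ : Ω), Bdd D Δ O → (∀ b ∈ s, Δ * b ∈ O) → Δ ^ M * y ∈ O) →
    y ∈ B

/-- the derivative `∑_J f_J D_J x` of the point `x` in the direction of (the part of degree `q` of)
the polynomial `f` -/
noncomputable def dv (D : Sym σ q → Derivation ℤ Ω Ω) (x : σ → Ω) :
    MvPolynomial σ Ω →ₗ[Ω] (σ → Ω) := cP fun J l => D J (x l)

/-- the value at `x` of the part of degree `n` -/
noncomputable def ev (n : ℕ) (x : σ → Ω) : MvPolynomial σ Ω →ₗ[Ω] Ω :=
  cP fun J : Sym σ n => mon x J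

/-- the linear form with coefficients `l` -/
noncomputable def lf (l : σ → Ω) : MvPolynomial σ Ω := ∑ i, l i • X i

/-- the dot product -/
def dt (u v : σ → Ω) : Ω := ∑ i, u i * v i

/-- `v` is a multiple of `x` -/
def Par (x v : σ → Ω) : Prop := ∃ c : Ω, v = c • x

/-- the coefficients lie in `B` -/
def RatP (B : Subfield Ω) (f : MvPolynomial σ Ω) : Prop := ∀ m, coeff m f ∈ B

end

universe u

/-- **The key statement** for `(N, q)`. -/
def KeyQ (N q : ℕ) : Prop :=
  ∀ (Ω : Type u) [Field Ω] [CharZero Ω] (D : Sym (Fin (N + 1)) q → Derivation ℤ Ω Ω)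
    (a : Sym (Fin (N + 1)) q → Ω) (B : Subfield Ω), Frame D a B →
    ∀ x : Fin (N + 1) → Ω, x 0 = 1 → form a x = 0 → ∀ l, x l ∈ B

end Pool.Agent.Helper6.QS
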