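import Pool.Agent.Helper6.QS.Defs

/-! QS-17: coefficient bounds; few quintics have a small gap between roots; lower bound for `TR H`. -/

set_option autoImplicit false
namespace Helper6.QS

/-- Vieta's formulas -/
theorem vieta {a : Fin 5 → ℤ} {α : Fin 5 → ℝ} (h : HasRts a α) :
    (a 0 : ℝ) = -(α 0 + α 1 + α 2 + α 3 + α 4) ∧
    (a 1 : ℝ) = α 0 * α 1 + α 0 * α 2 + α 0 * α 3 + α 0 * α 4 + α 1 * α 2 + α 1 * α 3 + α 1 * α 4 +
      α 2 * α 3 + α 2 * α 4 + α 3 * α 4 ∧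
    (a 2 : ℝ) = -(α 0 * α 1 * α 2 + α 0 * α 1 * α 3 + α 0 * α 1 * α 4 + α 0 * α 2 * α 3 +
      α 0 * α 2 * α 4 + α 0 * α 3 * α 4 + α 1 * α 2 * α 3 + α 1 * α 2 * α 4 + α 1 * α 3 * α 4 +
      α 2 * α 3 * α 4) ∧
    (a 3 : ℝ) = α 0 * α 1 * α 2 * α 3 + α 0 * α 1 * α 2 * α 4 + α 0 * α 1 * α 3 * α 4 +
      α 0 * α 2 * α 3 * α 4 + α 1 * α 2 * α 3 * α 4 ∧
    (a 4 : ℝ) = -(α 0 * α 1 * α 2 * α 3 * α 4) := by
  have h0 := h 0
  have h1 := h 1
  have h2 := h (-1)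
  have h3 := h 2
  have h4 := h (-2)
  rw [Fin.prod_univ_five] at h0 h1 h2 h3 h4
  refine ⟨?_, ?_, ?_, ?_, ?_⟩
  · linear_combination (1 / 4 : ℝ) * h0 - (1 / 6 : ℝ) * h1 - (1 / 6 : ℝ) * h2 +
      (1 / 24 : ℝ) * h3 + (1 / 24 : ℝ) * h4
  · linear_combination (-(1 / 6) : ℝ) * h1 + (1 / 6 : ℝ) * h2 +
      (1 / 12 : ℝ) * h3 - (1 / 12 : ℝ) * h4
  · linear_combination (-(5 / 4) : ℝ) * h0 + (2 / 3 : ℝ) * h1 + (2 / 3 : ℝ) * h2 -
      (1 / 24 : ℝ) * h3 - (1 / 24 : ℝ) * h4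
  · linear_combination (2 / 3 : ℝ) * h1 - (2 / 3 : ℝ) * h2 -
      (1 / 12 : ℝ) * h3 + (1 / 12 : ℝ) * h4
  · linear_combination h0

theorem abs_mul_bd {x y A B : ℝ} (hx : |x| ≤ A) (hy : |y| ≤ B) : |x * y| ≤ A * B := by
  rw [abs_mul]
  exact mul_le_mul hx hy (abs_nonneg _) ((abs_nonneg _).trans hx)

theorem TR_bounds {H : ℕ} {a : Fin 5 → ℤ} (h : a ∈ TR H) :
    |a 0| ≤ 5 * (H : ℤ) ∧ |a 1| ≤ 10 * (H : ℤ) ^ 2 ∧ |a 2| ≤ 10 * (H : ℤ) ^ 3 ∧ |a 3| ≤ 5 * (H : ℤ) ^ 4 ∧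
      |a 4| ≤ (H : ℤ) ^ 5 := by
  obtain ⟨α, _, hb, hr⟩ := h
  obtain ⟨v0, v1, v2, v3, v4⟩ := vieta hr
  have p2 : ∀ i j, |α i * α j| ≤ (H : ℝ) ^ 2 := fun i j =>
    (abs_mul_bd (hb i) (hb j)).trans_eq (by ring)
  have p3 : ∀ i j k, |α i * α j * α k| ≤ (H : ℝ) ^ 3 := fun i j k =>
    (abs_mul_bd (p2 i j) (hb k)).trans_eq (by ring)
  have p4 : ∀ i j k l, |α i * α j * α k * α l| ≤ (H : ℝ) ^ 4 := fun i j k l =>
    (abs_mul_bd (p3 i j k) (hb l)).trans_eq (by ring)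
  have p5 : |α 0 * α 1 * α 2 * α 3 * α 4| ≤ (H : ℝ) ^ 5 :=
    (abs_mul_bd (p4 0 1 2 3) (hb 4)).trans_eq (by ring)
  have b0 : |(a 0 : ℝ)| ≤ 5 * (H : ℝ) := by
    rw [v0, abs_le]
    have q0 := abs_le.mp (hb 0)
    have q1 := abs_le.mp (hb 1)
    have q2 := abs_le.mp (hb 2)
    have q3 := abs_le.mp (hb 3)
    have q4 := abs_le.mp (hb 4)
    constructor <;> linarith [q0.1, q0.2, q1.1, q1.2, q2.1, q2.2, q3.1, q3.2, q4.1, q4.2]
  have b1 : |(a 1 : ℝ)| ≤ 10 * (H : ℝ) ^ 2 := by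
    rw [v1, abs_le]
    have q0 := abs_le.mp (p2 0 1)
    have q1 := abs_le.mp (p2 0 2)
    have q2 := abs_le.mp (p2 0 3)
    have q3 := abs_le.mp (p2 0 4)
    have q4 := abs_le.mp (p2 1 2)
    have q5 := abs_le.mp (p2 1 3)
    have q6 := abs_le.mp (p2 1 4)
    have q7 := abs_le.mp (p2 2 3)
    have q8 := abs_le.mp (p2 2 4)
    have q9 := abs_le.mp (p2 3 4)
    constructor <;> linarith [q0.1, q0.2, q1.1, q1.2, q2.1, q2.2, q3.1, q3.2, q4.1, q4.2,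
      q5.1, q5.2, q6.1, q6.2, q7.1, q7.2, q8.1, q8.2, q9.1, q9.2]
  have b2 : |(a 2 : ℝ)| ≤ 10 * (H : ℝ) ^ 3 := by
    rw [v2, abs_le]
    have q0 := abs_le.mp (p3 0 1 2)
    have q1 := abs_le.mp (p3 0 1 3)
    have q2 := abs_le.mp (p3 0 1 4)
    have q3 := abs_le.mp (p3 0 2 3)
    have q4 := abs_le.mp (p3 0 2 4)
    have q5 := abs_le.mp (p3 0 3 4)
    have q6 := abs_le.mp (p3 1 2 3)
    have q7 := abs_le.mp (p3 1 2 4)
    have q8 := abs_le.mp (p3 1 3 4)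
    have q9 := abs_le.mp (p3 2 3 4)
    constructor <;> linarith [q0.1, q0.2, q1.1, q1.2, q2.1, q2.2, q3.1, q3.2, q4.1, q4.2,
      q5.1, q5.2, q6.1, q6.2, q7.1, q7.2, q8.1, q8.2, q9.1, q9.2]
  have b3 : |(a 3 : ℝ)| ≤ 5 * (H : ℝ) ^ 4 := by
    rw [v3, abs_le]
    have q0 := abs_le.mp (p4 0 1 2 3)
    have q1 := abs_le.mp (p4 0 1 2 4)
    have q2 := abs_le.mp (p4 0 1 3 4)
    have q3 := abs_le.mp (p4 0 2 3 4)
    have q4 := abs_le.mp (p4 1 2 3 4)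
    constructor <;> linarith [q0.1, q0.2, q1.1, q1.2, q2.1, q2.2, q3.1, q3.2, q4.1, q4.2]
  have b4 : |(a 4 : ℝ)| ≤ (H : ℝ) ^ 5 := by rw [v4, abs_neg]; exact p5
  exact ⟨by exact_mod_cast b0, by exact_mod_cast b1, by exact_mod_cast b2,
    by exact_mod_cast b3, by exact_mod_cast b4⟩

theorem TR_finite (H : ℕ) : (TR H).Finite := by
  apply Set.Finite.subset (Set.finite_Icc (fun _ : Fin 5 => -(10 * ((H : ℤ) + 1) ^ 5))
    (fun _ : Fin 5 => 10 * ((H : ℤ) + 1) ^ 5))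
  intro a ha
  obtain ⟨h0, h1, h2, h3, h4⟩ := TR_bounds ha
  have hH : (0 : ℤ) ≤ H := Int.natCast_nonneg H
  have e1 : (H : ℤ) ≤ (H + 1) ^ 5 := by nlinarith [pow_nonneg hH 2, pow_nonneg hH 3, pow_nonneg hH 4, pow_nonneg hH 5]
  have e2 : (H : ℤ) ^ 2 ≤ (H + 1) ^ 5 := by nlinarith [pow_nonneg hH 2, pow_nonneg hH 3, pow_nonneg hH 4, pow_nonneg hH 5]
  have e3 : (H : ℤ) ^ 3 ≤ (H + 1) ^ 5 := by nlinarith [pow_nonneg hH 2, pow_nonneg hH 3, pow_nonneg hH 4, pow_nonneg hH 5]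
  have e4 : (H : ℤ) ^ 4 ≤ (H + 1) ^ 5 := by nlinarith [pow_nonneg hH 2, pow_nonneg hH 3, pow_nonneg hH 4, pow_nonneg hH 5]
  have e5 : (H : ℤ) ^ 5 ≤ (H + 1) ^ 5 := by nlinarith [pow_nonneg hH 2, pow_nonneg hH 3, pow_nonneg hH 4, pow_nonneg hH 5]
  have e6 : (0 : ℤ) ≤ (H + 1) ^ 5 := by positivity
  have key : ∀ i, |a i| ≤ 10 * ((H : ℤ) + 1) ^ 5 := by
    intro i
    fin_cases i
    · exact h0.trans (by linarith)
    · exact h1.trans (by linarith)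
    · exact h2.trans (by linarith)
    · exact h3.trans (by linarith)
    · exact h4.trans (by linarith)
  exact ⟨fun i => (abs_le.mp (key i)).1, fun i => (abs_le.mp (key i)).2⟩

theorem card_int (g R : ℝ) (hR : 0 ≤ R) :
    ((Finset.Icc ⌈-g - R⌉ ⌊-g + R⌋).card : ℝ) ≤ 2 * R + 1 := by
  rw [Int.card_Icc]
  have h1 : ((⌊-g + R⌋ + 1 - ⌈-g - R⌉ : ℤ) : ℝ) ≤ 2 * R + 1 := by
    push_cast
    have := Int.floor_le (-g + R)
    have := Int.le_ceil (-g - R)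
    linarith
  rcases le_total 0 (⌊-g + R⌋ + 1 - ⌈-g - R⌉) with h | h
  · have h2 : (((⌊-g + R⌋ + 1 - ⌈-g - R⌉).toNat : ℤ) : ℝ) = ((⌊-g + R⌋ + 1 - ⌈-g - R⌉ : ℤ) : ℝ) := by
      rw [Int.toNat_of_nonneg h]
    rw [Int.cast_natCast] at h2
    rw [h2]
    exact h1
  · rw [Int.toNat_of_nonpos h]
    push_cast
    linarith

theorem mem_int {g R : ℝ} {z : ℤ} (h : |g + z| ≤ R) : z ∈ Finset.Icc ⌈-g - R⌉ ⌊-g + R⌋ := by
  rw [abs_le] at h
  rw [Finset.mem_Icc, Int.ceil_le, Int.le_floor]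
  constructor <;> linarith [h.1, h.2]

/-- the derivative of the quintic -/
theorem deriv_eq {a : Fin 5 → ℤ} {α : Fin 5 → ℝ} (h : HasRts a α) (x : ℝ) :
    5 * x ^ 4 + 4 * a 0 * x ^ 3 + 3 * a 1 * x ^ 2 + 2 * a 2 * x + a 3 =
      ∑ i, ∏ j ∈ Finset.univ.erase i, (x - α j) := by
  obtain ⟨v0, v1, v2, v3, v4⟩ := vieta h
  have hp : (Finset.univ : Finset (Fin 5)).erase 0 = {1, 2, 3, 4} := by decide
  have hp1 : (Finset.univ : Finset (Fin 5)).erase 1 = {0, 2, 3, 4} := by decide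
  have hp2 : (Finset.univ : Finset (Fin 5)).erase 2 = {0, 1, 3, 4} := by decide
  have hp3 : (Finset.univ : Finset (Fin 5)).erase 3 = {0, 1, 2, 4} := by decide
  have hp4 : (Finset.univ : Finset (Fin 5)).erase 4 = {0, 1, 2, 3} := by decide
  rw [Fin.sum_univ_five, hp, hp1, hp2, hp3, hp4]
  rw [Finset.prod_insert (by decide), Finset.prod_insert (by decide),
    Finset.prod_insert (by decide), Finset.prod_singleton,
    Finset.prod_insert (by decide), Finset.prod_insert (by decide),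
    Finset.prod_insert (by decide), Finset.prod_singleton,
    Finset.prod_insert (by decide), Finset.prod_insert (by decide),
    Finset.prod_insert (by decide), Finset.prod_singleton,
    Finset.prod_insert (by decide), Finset.prod_insert (by decide),
    Finset.prod_insert (by decide), Finset.prod_singleton,
    Finset.prod_insert (by decide), Finset.prod_insert (by decide),
    Finset.prod_insert (by decide), Finset.prod_singleton, v0, v1, v2, v3]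
  ring

/-- products of four factors one of which is small -/
theorem prod_erase_le {α : Fin 5 → ℝ} {x A B : ℝ} (hA : ∀ l, |x - α l| ≤ A) {i j : Fin 5}
    (hij : i ≠ j) (hi : |x - α i| ≤ B) (hj : |x - α j| ≤ B) (k : Fin 5) :
    |∏ l ∈ Finset.univ.erase k, (x - α l)| ≤ B * A ^ 3 := by
  have key : ∀ m : Fin 5, m ≠ k → |x - α m| ≤ B →
      |∏ l ∈ Finset.univ.erase k, (x - α l)| ≤ B * A ^ 3 := by
    intro m hm hB
    have hmem : m ∈ Finset.univ.erase k := Finset.mem_erase.mpr ⟨hm, Finset.mem_univ _⟩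
    rw [← Finset.mul_prod_erase _ _ hmem]
    apply abs_mul_bd hB
    rw [Finset.abs_prod]
    have hc : ((Finset.univ.erase k).erase m).card = 3 := by
      rw [Finset.card_erase_of_mem hmem, Finset.card_erase_of_mem (Finset.mem_univ _)]
      rfl
    rw [← hc, ← Finset.prod_const]
    exact Finset.prod_le_prod (fun l _ => abs_nonneg _) (fun l _ => hA l)
  by_cases h : i = k
  · exact key j (fun h' => hij (h.trans h'.symm)) hj
  · exact key i h hi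

theorem prod_le {α : Fin 5 → ℝ} {x A B : ℝ} (hA : ∀ l, |x - α l| ≤ A) {i j : Fin 5}
    (hij : i ≠ j) (hi : |x - α i| ≤ B) (hj : |x - α j| ≤ B) :
    |∏ l, (x - α l)| ≤ B * (B * A ^ 3) := by
  rw [← Finset.mul_prod_erase _ _ (Finset.mem_univ i)]
  apply abs_mul_bd hi
  have hmem : j ∈ Finset.univ.erase i := Finset.mem_erase.mpr ⟨hij.symm, Finset.mem_univ _⟩
  rw [← Finset.mul_prod_erase _ _ hmem]
  apply abs_mul_bd hj
  rw [Finset.abs_prod]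
  have hc : ((Finset.univ.erase i).erase j).card = 3 := by
    rw [Finset.card_erase_of_mem hmem, Finset.card_erase_of_mem (Finset.mem_univ _)]
    rfl
  rw [← hc, ← Finset.prod_const]
  exact Finset.prod_le_prod (fun l _ => abs_nonneg _) (fun l _ => hA l)

/-- the base of the count -/
noncomputable def bse (c : ℝ) (H : ℕ) : Finset (ℤ × ℤ × ℤ × ℤ) :=
  Finset.Icc ⌈-0 - (1 / c + 1)⌉ ⌊-0 + (1 / c + 1)⌋ ×ˢ
    Finset.Icc (-(5 * (H : ℤ))) (5 * (H : ℤ)) ×ˢ Finset.Icc (-(10 * (H : ℤ) ^ 2)) (10 * (H : ℤ) ^ 2) ×ˢ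
      Finset.Icc (-(10 * (H : ℤ) ^ 3)) (10 * (H : ℤ) ^ 3)

/-- the value of the derivative without its constant term -/
noncomputable def gg (c : ℝ) (H : ℕ) (p : ℤ × ℤ × ℤ × ℤ) : ℝ :=
  5 * (c * H * p.1) ^ 4 + 4 * p.2.1 * (c * H * p.1) ^ 3 + 3 * p.2.2.1 * (c * H * p.1) ^ 2 +
    2 * p.2.2.2 * (c * H * p.1)

/-- the value without its constant term -/
noncomputable def hh (c : ℝ) (H : ℕ) (p : ℤ × ℤ × ℤ × ℤ) (z : ℤ) : ℝ :=
  (c * H * p.1) ^ 5 + p.2.1 * (c * H * p.1) ^ 4 + p.2.2.1 * (c * H * p.1) ^ 3 +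
    p.2.2.2 * (c * H * p.1) ^ 2 + z * (c * H * p.1)

/-- the covering set -/
noncomputable def cov (c : ℝ) (H : ℕ) : Finset (Σ _ : (Σ _ : ℤ × ℤ × ℤ × ℤ, ℤ), ℤ) :=
  ((bse c H).sigma (fun p => Finset.Icc ⌈-(gg c H p) - 270 * c * (H : ℝ) ^ 4⌉
    ⌊-(gg c H p) + 270 * c * (H : ℝ) ^ 4⌋)).sigma (fun q =>
      Finset.Icc ⌈-(hh c H q.1 q.2) - 108 * c ^ 2 * (H : ℝ) ^ 5⌉
        ⌊-(hh c H q.1 q.2) + 108 * c ^ 2 * (H : ℝ) ^ 5⌋)

theorem card_bse (c : ℝ) (hc : 0 < c) (hc1 : c ≤ 1) (H : ℕ) (hH : 1 ≤ H) :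
    ((bse c H).card : ℝ) ≤ 5 / c * (11 * H) * (21 * (H : ℝ) ^ 2) * (21 * (H : ℝ) ^ 3) := by
  have hHr : (1 : ℝ) ≤ H := by exact_mod_cast hH
  rw [bse, Finset.card_product, Finset.card_product, Finset.card_product]
  push_cast
  have h1 := card_int 0 (1 / c + 1) (by positivity)
  have h1' : 2 * (1 / c + 1) + 1 ≤ 5 / c := by
    have : 1 ≤ 1 / c := by rw [le_div_iff₀ hc]; linarith
    have e : 5 / c = 5 * (1 / c) := by ring
    rw [e]; linarith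
  have hi : ∀ n : ℕ, ((Finset.Icc (-(n : ℤ)) (n : ℤ)).card : ℝ) = 2 * n + 1 := by
    intro n
    rw [Int.card_Icc]
    have : ((n : ℤ) + 1 - -(n : ℤ)) = ((2 * n + 1 : ℕ) : ℤ) := by push_cast; ring
    rw [this, Int.toNat_natCast]
    push_cast; ring
  have h2 : ((Finset.Icc (-(5 * (H : ℤ))) (5 * (H : ℤ))).card : ℝ) ≤ 11 * H := by
    have := hi (5 * H)
    push_cast at this
    rw [this]; linarith
  have h3 : ((Finset.Icc (-(10 * (H : ℤ) ^ 2)) (10 * (H : ℤ) ^ 2)).card : ℝ) ≤ 21 * (H : ℝ) ^ 2 := by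
    have := hi (10 * H ^ 2)
    push_cast at this
    rw [this]
    nlinarith [one_le_pow₀ hHr (n := 2)]
  have h4 : ((Finset.Icc (-(10 * (H : ℤ) ^ 3)) (10 * (H : ℤ) ^ 3)).card : ℝ) ≤ 21 * (H : ℝ) ^ 3 := by
    have := hi (10 * H ^ 3)
    push_cast at this
    rw [this]
    nlinarith [one_le_pow₀ hHr (n := 3)]
  have h1'' := h1.trans h1'
  calc _ ≤ 5 / c * ((11 * H) * ((21 * (H : ℝ) ^ 2) * (21 * (H : ℝ) ^ 3))) := by
        gcongr
    _ = _ := by ring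

theorem card_cov (c : ℝ) (hc : 0 < c) (hc1 : c ≤ 1) (H : ℕ) (hH : 1 / c ≤ H) :
    ((cov c H).card : ℝ) ≤ (5 * 11 * 21 * 21 * 541 * 217) * c * (H : ℝ) ^ 15 := by
  have hcH : 1 ≤ c * H := by
    rw [div_le_iff₀ hc] at hH
    linarith
  have hHr : (1 : ℝ) ≤ H := by nlinarith [(Nat.cast_nonneg H : (0 : ℝ) ≤ H)]
  have hH1 : 1 ≤ H := by exact_mod_cast hHr
  have hH0 : (0 : ℝ) < H := by linarith
  have hb := card_bse c hc hc1 H hH1
  set L1 : ℝ := 541 * c * (H : ℝ) ^ 4 with hL1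
  set L2 : ℝ := 217 * c ^ 2 * (H : ℝ) ^ 5 with hL2
  have e1 : 1 ≤ c * (H : ℝ) ^ 4 := by
    calc (1 : ℝ) ≤ c * H := hcH
      _ = c * (H : ℝ) ^ 1 := by ring
      _ ≤ c * (H : ℝ) ^ 4 := by
          apply mul_le_mul_of_nonneg_left _ hc.le
          exact pow_le_pow_right₀ hHr (by norm_num)
  have e2 : 1 ≤ c ^ 2 * (H : ℝ) ^ 5 := by
    calc (1 : ℝ) ≤ (c * H) ^ 2 := one_le_pow₀ hcH
      _ = c ^ 2 * (H : ℝ) ^ 2 := by ring
      _ ≤ c ^ 2 * (H : ℝ) ^ 5 := by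
          apply mul_le_mul_of_nonneg_left _ (by positivity)
          exact pow_le_pow_right₀ hHr (by norm_num)
  rw [cov, Finset.card_sigma]
  push_cast
  have hs : ∀ q : (Σ _ : ℤ × ℤ × ℤ × ℤ, ℤ),
      ((Finset.Icc ⌈-(hh c H q.1 q.2) - 108 * c ^ 2 * (H : ℝ) ^ 5⌉
        ⌊-(hh c H q.1 q.2) + 108 * c ^ 2 * (H : ℝ) ^ 5⌋).card : ℝ) ≤ L2 := by
    intro q
    refine (card_int _ _ (by positivity)).trans ?_
    rw [hL2]
    linarith
  refine (Finset.sum_le_sum (fun q _ => hs q)).trans ?_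
  rw [Finset.sum_const, nsmul_eq_mul, Finset.card_sigma]
  push_cast
  have ht : ∀ p : ℤ × ℤ × ℤ × ℤ, ((Finset.Icc ⌈-(gg c H p) - 270 * c * (H : ℝ) ^ 4⌉
    ⌊-(gg c H p) + 270 * c * (H : ℝ) ^ 4⌋).card : ℝ) ≤ L1 := by
    intro p
    refine (card_int _ _ (by positivity)).trans ?_
    rw [hL1]
    linarith
  have ht' : ∑ p ∈ bse c H, ((Finset.Icc ⌈-(gg c H p) - 270 * c * (H : ℝ) ^ 4⌉
    ⌊-(gg c H p) + 270 * c * (H : ℝ) ^ 4⌋).card : ℝ) ≤ (bse c H).card * L1 := by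
    refine (Finset.sum_le_sum (fun p _ => ht p)).trans ?_
    rw [Finset.sum_const, nsmul_eq_mul]
  have hL2' : 0 ≤ L2 := by positivity
  have hL1' : 0 ≤ L1 := by positivity
  calc _ ≤ ((bse c H).card * L1) * L2 := mul_le_mul_of_nonneg_right ht' hL2'
    _ ≤ ((5 / c * (11 * H) * (21 * (H : ℝ) ^ 2) * (21 * (H : ℝ) ^ 3)) * L1) * L2 := by
        gcongr
    _ = (5 * 11 * 21 * 21 * 541 * 217) * (c ^ 2) * (H : ℝ) ^ 15 := by
        rw [hL1, hL2]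
        field_simp
    _ ≤ _ := by
        have : c ^ 2 ≤ c := by nlinarith
        gcongr

/-- few members of `TR H` have a gap smaller than `c H` -/
theorem TR_diff_TG : ∃ C : ℝ, ∀ c : ℝ, 0 < c → c ≤ 1 → ∃ H0 : ℕ, ∀ H : ℕ, H0 ≤ H →
    ((TR H \ TG c H).ncard : ℝ) ≤ C * c * (H : ℝ) ^ 15 := by
  refine ⟨5 * 11 * 21 * 21 * 541 * 217, fun c hc hc1 => ⟨⌈1 / c⌉₊, fun H hH => ?_⟩⟩
  have hH' : 1 / c ≤ H := Nat.ceil_le.mp hH
  have hcH : 1 ≤ c * H := by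
    have := hH'
    rw [div_le_iff₀ hc] at this
    linarith
  have hHr : (1 : ℝ) ≤ H := by nlinarith [(Nat.cast_nonneg H : (0 : ℝ) ≤ H)]
  have hH0 : (0 : ℝ) < H := by linarith
  refine le_trans ?_ (card_cov c hc hc1 H hH')
  classical
  have hsub : TR H \ TG c H ⊆ (((cov c H).image (fun q => (![q.1.1.2.1, q.1.1.2.2.1,
      q.1.1.2.2.2, q.1.2, q.2] : Fin 5 → ℤ))) : Finset (Fin 5 → ℤ)) := by
    rintro a ⟨ha, hna⟩
    have hbd := TR_bounds ha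
    obtain ⟨α, hα, hb, hr⟩ := ha
    have hgap : ∃ i j : Fin 5, i < j ∧ α j - α i < c * H := by
      by_contra hcon
      push Not at hcon
      exact hna ⟨α, hcon, hα, hb, hr⟩
    obtain ⟨i, j, hij, hlt⟩ := hgap
    have hpos : 0 < c * H := by linarith
    have hmono : α i < α j := hα hij
    set k : ℤ := ⌊α i / (c * H)⌋ with hk
    set x : ℝ := c * H * k with hx
    have hk1 : x ≤ α i := by
      have := Int.floor_le (α i / (c * H))
      rw [← hk, le_div_iff₀ hpos] at this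
      rw [hx]; linarith
    have hk2 : α i < x + c * H := by
      have := Int.lt_floor_add_one (α i / (c * H))
      rw [← hk, div_lt_iff₀ hpos] at this
      rw [hx]; linarith
    have hbi := abs_le.mp (hb i)
    have hcH' : c * H ≤ H := by nlinarith
    have hA : ∀ l, |x - α l| ≤ 3 * H := by
      intro l
      have := abs_le.mp (hb l)
      rw [abs_le]
      constructor <;> linarith [this.1, this.2, hbi.1, hbi.2]
    have hBi : |x - α i| ≤ 2 * (c * H) := by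
      rw [abs_le]; constructor <;> linarith
    have hBj : |x - α j| ≤ 2 * (c * H) := by
      rw [abs_le]; constructor <;> linarith
    have hP : |x ^ 5 + a 0 * x ^ 4 + a 1 * x ^ 3 + a 2 * x ^ 2 + a 3 * x + a 4| ≤
        108 * c ^ 2 * (H : ℝ) ^ 5 := by
      rw [hr x]
      refine (prod_le hA hij.ne hBi hBj).trans_eq ?_
      ring
    have hP' : |5 * x ^ 4 + 4 * a 0 * x ^ 3 + 3 * a 1 * x ^ 2 + 2 * a 2 * x + a 3| ≤
        270 * c * (H : ℝ) ^ 4 := by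
      rw [deriv_eq hr x]
      refine (Finset.abs_sum_le_sum_abs _ _).trans ?_
      refine (Finset.sum_le_sum (fun k _ => prod_erase_le hA hij.ne hBi hBj k)).trans_eq ?_
      rw [Finset.sum_const, Finset.card_univ, Fintype.card_fin, nsmul_eq_mul]
      push_cast
      ring
    have hkb : |(0 : ℝ) + (k : ℝ)| ≤ 1 / c + 1 := by
      have e1 : |α i / (c * H)| ≤ 1 / c := by
        rw [abs_div, abs_of_pos hpos, div_le_div_iff₀ hpos hc]
        nlinarith [hb i]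
      rw [abs_le] at e1
      have e2 := Int.floor_le (α i / (c * H))
      have e3 := Int.lt_floor_add_one (α i / (c * H))
      rw [← hk] at e2 e3
      rw [abs_le]
      constructor <;> linarith [e1.1, e1.2]
    rw [Finset.mem_coe, Finset.mem_image]
    refine ⟨⟨⟨(k, a 0, a 1, a 2), a 3⟩, a 4⟩, ?_, ?_⟩
    · rw [cov, Finset.mem_sigma, Finset.mem_sigma]
      refine ⟨⟨?_, ?_⟩, ?_⟩
      · rw [bse, Finset.mem_product, Finset.mem_product, Finset.mem_product]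
        refine ⟨mem_int hkb, ?_, ?_, ?_⟩
        · rw [Finset.mem_Icc]
          exact abs_le.mp hbd.1
        · rw [Finset.mem_Icc]
          exact abs_le.mp hbd.2.1
        · rw [Finset.mem_Icc]
          exact abs_le.mp hbd.2.2.1
      · exact mem_int hP'
      · exact mem_int hP
    · funext l
      fin_cases l <;> rfl
  calc ((TR H \ TG c H).ncard : ℝ) ≤ (((((cov c H).image (fun q => (![q.1.1.2.1, q.1.1.2.2.1,
      q.1.1.2.2.2, q.1.2, q.2] : Fin 5 → ℤ))) : Finset (Fin 5 → ℤ)) : Set (Fin 5 → ℤ)).ncard : ℝ) := by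
        exact_mod_cast Set.ncard_le_ncard hsub (Finset.finite_toSet _)
    _ ≤ _ := by
        rw [Set.ncard_coe_finset]
        exact_mod_cast Finset.card_image_le

end Helper6.QS
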