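import Pool.Agent.Helper6.QS.Defs

/-! QS-9: a divisibility gives the decomposition. -/

set_option autoImplicit false
open Polynomial
namespace Helper6.QS

theorem div_decomp_core (a0 a1 a2 a3 a4 t u v : ℤ) (ht : Odd t)
    (h : Dd t u v ∣ t ^ 5 + 2 * a0 * t ^ 4 + 4 * a1 * t ^ 3 + 8 * a2 * t ^ 2 + 16 * a3 * t + 32 * a4) :
    ∃ b2 b1 b0 m1 n1 : ℤ, a0 = b2 + u ∧ a1 = b1 + u * b2 + v ∧ a2 = b0 + u * b1 + v * b2 ∧
      a3 = u * b0 + v * b1 + m1 * (2 * u + t) - 2 * n1 ∧ a4 = v * b0 + 2 * m1 * v + n1 * t := by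
  obtain ⟨b2, hb2⟩ : ∃ b2, b2 = a0 - u := ⟨_, rfl⟩
  obtain ⟨b1, hb1⟩ : ∃ b1, b1 = a1 - v - u * b2 := ⟨_, rfl⟩
  obtain ⟨b0, hb0⟩ : ∃ b0, b0 = a2 - u * b1 - v * b2 := ⟨_, rfl⟩
  obtain ⟨p1, hp1⟩ : ∃ p1, p1 = a3 - u * b0 - v * b1 := ⟨_, rfl⟩
  obtain ⟨p0, hp0⟩ : ∃ p0, p0 = a4 - v * b0 := ⟨_, rfl⟩
  have hD : Dd t u v = t ^ 2 + 2 * u * t + 4 * v := rfl
  have hodd : Odd (Dd t u v) := by
    obtain ⟨s, rfl⟩ := ht
    rw [hD]
    exact ⟨2 * s ^ 2 + 2 * s + u * (2 * s + 1) + 2 * v, by ring⟩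
  have hD0 : Dd t u v ≠ 0 := by
    intro h0
    rw [h0] at hodd
    exact absurd hodd (by decide)
  have hcop2 : IsCoprime (Dd t u v) 2 := by
    obtain ⟨s, hs⟩ := hodd
    exact ⟨1, -s, by rw [hs]; ring⟩
  have hcop16 : IsCoprime (Dd t u v) 16 := by
    have : (16 : ℤ) = 2 ^ 4 := by norm_num
    rw [this]
    exact hcop2.pow_right
  have h1 : Dd t u v ∣ 16 * (p1 * t + 2 * p0) := by
    have h2 : t ^ 5 + 2 * a0 * t ^ 4 + 4 * a1 * t ^ 3 + 8 * a2 * t ^ 2 + 16 * a3 * t + 32 * a4 =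
        Dd t u v * (t ^ 3 + 2 * b2 * t ^ 2 + 4 * b1 * t + 8 * b0) + 16 * (p1 * t + 2 * p0) := by
      rw [hD, hp1, hp0, hb0, hb1, hb2]
      ring
    rw [h2] at h
    exact (dvd_add_right (dvd_mul_right _ _)).1 h
  obtain ⟨m1, hm1⟩ := hcop16.dvd_of_dvd_mul_left h1
  have h3 : Dd t u v ∣ 2 * (p0 * (2 * u + t) - 2 * v * p1) := by
    refine ⟨(2 * u + t) * m1 - p1, ?_⟩
    have : 2 * (p0 * (2 * u + t) - 2 * v * p1) =
        (2 * u + t) * (p1 * t + 2 * p0) - p1 * Dd t u v := by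
      rw [hD]
      ring
    rw [this, hm1]
    ring
  obtain ⟨n1, hn1⟩ := hcop2.dvd_of_dvd_mul_left h3
  have h4 : p1 = m1 * (2 * u + t) - 2 * n1 := by
    apply mul_left_cancel₀ hD0
    have : Dd t u v * (m1 * (2 * u + t) - 2 * n1) =
        (2 * u + t) * (Dd t u v * m1) - 2 * (Dd t u v * n1) := by ring
    rw [this, ← hm1, ← hn1, hD]
    ring
  have h5 : p0 = 2 * m1 * v + n1 * t := by
    apply mul_left_cancel₀ hD0
    have : Dd t u v * (2 * m1 * v + n1 * t) =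
        2 * v * (Dd t u v * m1) + t * (Dd t u v * n1) := by ring
    rw [this, ← hm1, ← hn1, hD]
    ring
  refine ⟨b2, b1, b0, m1, n1, by linarith, by linarith, by linarith, ?_, ?_⟩
  · have h6 : a3 = u * b0 + v * b1 + p1 := by rw [hp1]; ring
    rw [h6, h4]
    ring
  · have h6 : a4 = v * b0 + p0 := by rw [hp0]; ring
    rw [h6, h5]
    ring

theorem div_decomp (a : Fin 5 → ℤ) (t u v : ℤ) (ht : Odd t)
    (h : Dd t u v ∣ t ^ 5 + 2 * a 0 * t ^ 4 + 4 * a 1 * t ^ 3 + 8 * a 2 * t ^ 2 + 16 * a 3 * t + 32 * a 4) :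
    ∃ d m1 n1 m2 n2 : ℤ, quint a = (X - C d) * quad u v * quad (u + 2) (v - t)
      - lin m1 n1 * quad (u + 2) (v - t) - lin m2 n2 * quad u v := by
  obtain ⟨b2, b1, b0, m1, n1, h0, h1, h2, h3, h4⟩ := div_decomp_core _ _ _ _ _ t u v ht h
  refine ⟨u + 2 - b2, m1, n1, (v - t) - (u + 2 - b2) * (u + 2) - (b1 + m1),
    -(u + 2 - b2) * (v - t) - (b0 + 2 * m1 + n1), ?_⟩
  unfold quint quad lin
  rw [h0, h1, h2, h3, h4]
  simp only [map_add, map_sub, map_mul, map_neg, map_ofNat]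
  ring

end Helper6.QS
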