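import Pool.Agent.Helper6.QS.Fam

/-! QS-15: the sum of the correlation factors `gcd(D, D', X - X')`. -/

set_option autoImplicit false
namespace Helper6.QS

namespace ESum

open Finset

/-- Integers of an interval in one residue class. -/
theorem card_le_of_cong (S : Finset ℤ) (a b : ℤ) (q : ℕ) (hq : 0 < q) (hab : a ≤ b)
    (h : ∀ x ∈ S, a ≤ x ∧ x ≤ b) (hc : ∀ x ∈ S, ∀ y ∈ S, (q : ℤ) ∣ x - y) :
    (S.card : ℝ) ≤ ((b : ℝ) - a) / q + 1 := by
  have hq' : (0 : ℤ) < q := by exact_mod_cast hq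
  have h1 : S.card ≤ (Finset.Icc (0 : ℤ) ((b - a) / q)).card := by
    refine Finset.card_le_card_of_injOn (fun x => (x - a) / q) ?_ ?_
    · intro x hx
      obtain ⟨h2, h3⟩ := h x hx
      simp only [Finset.coe_Icc, Set.mem_Icc]
      exact ⟨Int.ediv_nonneg (by omega) hq'.le, Int.ediv_le_ediv hq' (by omega)⟩
    · intro x hx y hy hxy
      simp only at hxy
      obtain ⟨k, hk⟩ := hc x hx y hy
      have h4 : (x - a) / q = (y - a) / q + k := by
        have : x - a = y - a + q * k := by linarith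
        rw [this, Int.add_mul_ediv_left _ _ hq'.ne']
      have h5 : k = 0 := by omega
      rw [h5] at hk
      linarith
  rw [Int.card_Icc] at h1
  have h6 : 0 ≤ (b - a) / q := Int.ediv_nonneg (by omega) hq'.le
  have h8 : (S.card : ℤ) ≤ (b - a) / q + 1 := by omega
  have h8' : (S.card : ℝ) ≤ (((b - a) / q : ℤ) : ℝ) + 1 := by exact_mod_cast h8
  have h9 : (((b - a) / q : ℤ) : ℝ) ≤ ((b : ℝ) - a) / q := by
    rw [le_div_iff₀ (by exact_mod_cast hq)]
    exact_mod_cast Int.ediv_mul_le (b - a) hq'.ne'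
  linarith

theorem isCoprime_of {d W : ℕ} (hd : Nat.Coprime d (2 * W)) :
    IsCoprime (d : ℤ) 2 ∧ IsCoprime (d : ℤ) (W : ℤ) ∧ IsCoprime (d : ℤ) (2 * W : ℤ) := by
  refine ⟨?_, ?_, ?_⟩
  · exact_mod_cast Nat.isCoprime_iff_coprime.2 (Nat.Coprime.coprime_mul_right_right hd)
  · exact_mod_cast Nat.isCoprime_iff_coprime.2 (Nat.Coprime.coprime_mul_left_right hd)
  · exact_mod_cast Nat.isCoprime_iff_coprime.2 hd

theorem count_v {K H W : ℕ} {A2 : ℤ} {d : ℕ} (hd : Nat.Coprime d (2 * W)) (hd0 : 0 < d)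
    (hW0 : 0 < W) (hle : W * d ≤ 50 * K * H) (X u : ℤ) :
    (((Vs K H W A2 u).filter (fun v => (d : ℤ) ∣ Dd X u v)).card : ℝ) ≤
      70 * (K * H : ℝ) / (d * W) := by
  obtain ⟨hc1, hc2, -⟩ := isCoprime_of hd
  have hdW : (0 : ℝ) < (d : ℝ) * W := by positivity
  have h1 := card_le_of_cong ((Vs K H W A2 u).filter (fun v => (d : ℤ) ∣ Dd X u v))
    (30 * K * H - A2 ^ 2 - u * A2) (50 * K * H - A2 ^ 2 - u * A2) (d * W) (by positivity)
    (by
      have : (0 : ℤ) ≤ (K : ℤ) * H := by positivity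
      nlinarith)
    (by
      intro x hx
      simp only [Vs, mem_filter, mem_Icc] at hx
      exact hx.1.1)
    (by
      intro x hx y hy
      simp only [Vs, mem_filter, mem_Icc] at hx hy
      have h2 : (W : ℤ) ∣ x - y := dvd_sub hx.1.2 hy.1.2
      have h3 : (d : ℤ) ∣ x - y := by
        have h4 : (d : ℤ) ∣ 2 * (2 * (x - y)) := by
          have h5 := dvd_sub hx.2 hy.2
          have h6 : Dd X u x - Dd X u y = 2 * (2 * (x - y)) := by
            simp only [Dd]; ring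
          rwa [h6] at h5
        exact hc1.dvd_of_dvd_mul_left (hc1.dvd_of_dvd_mul_left h4)
      have h7 := hc2.mul_dvd h3 h2
      exact_mod_cast h7)
  refine h1.trans ?_
  have h2 : (((50 * K * H - A2 ^ 2 - u * A2 : ℤ) : ℝ) - ((30 * K * H - A2 ^ 2 - u * A2 : ℤ) : ℝ)) =
      20 * (K * H : ℝ) := by
    push_cast; ring
  rw [h2]
  push_cast
  have h3 : (W : ℝ) * d ≤ 50 * K * H := by exact_mod_cast hle
  rw [div_add_one hdW.ne']
  apply div_le_div_of_nonneg_right _ hdW.le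
  nlinarith

theorem count_q {K H W : ℕ} {A2 A4 : ℤ} {d : ℕ} (hd : Nat.Coprime d (2 * W)) (hd0 : 0 < d)
    (hW0 : 0 < W) (hle : W * d ≤ 50 * K * H) (X : ℤ) :
    (((Qs K H W A2 A4).filter (fun p => (d : ℤ) ∣ Dd X p.1 p.2)).card : ℝ) ≤
      ((Us K W A2 A4).card : ℝ) * (70 * (K * H : ℝ) / (d * W)) := by
  rw [card_filter]
  simp only [Qs]
  rw [sum_sigma]
  push_cast
  rw [← nsmul_eq_mul, ← sum_const]
  refine sum_le_sum fun u _ => ?_
  have h1 := count_v (A2 := A2) hd hd0 hW0 hle X u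
  rw [card_filter] at h1
  push_cast at h1
  exact h1

theorem count_t {K H W : ℕ} {A2 A4 : ℤ} {d : ℕ} (hd : Nat.Coprime d (2 * W)) (hd0 : 0 < d)
    (hW0 : 0 < W) (hle : W * d ≤ 50 * K * H) (S : Finset ℤ) :
    (((S ×ˢ Qs K H W A2 A4).filter (fun t => (d : ℤ) ∣ Dt t)).card : ℝ) ≤
      (S.card : ℝ) * (((Us K W A2 A4).card : ℝ) * (70 * (K * H : ℝ) / (d * W))) := by
  rw [card_filter, sum_product]
  push_cast
  rw [← nsmul_eq_mul, ← sum_const]
  refine sum_le_sum fun X _ => ?_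
  have h1 := count_q (A2 := A2) (A4 := A4) hd hd0 hW0 hle X
  rw [card_filter] at h1
  push_cast at h1
  exact h1

theorem dvd_sub_X {K H W : ℕ} {X X' : ℤ} (hX : X ∈ Xs K H W) (hX' : X' ∈ Xs K H W) :
    ((2 * W : ℕ) : ℤ) ∣ X - X' := by
  simp only [Xs, mem_filter] at hX hX'
  push_cast
  exact Int.ModEq.dvd (by
    show X' % (2 * W) = X % (2 * W)
    rw [hX.2, hX'.2])

theorem count_x {K H W : ℕ} {d : ℕ} (hd : Nat.Coprime d (2 * W)) (hd0 : 0 < d)
    (hW0 : 0 < W) {X : ℤ} (hX : X ∈ Xs K H W) :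
    (((Xs K H W).filter (fun X' => X' ≠ X ∧ (d : ℤ) ∣ X - X')).card : ℝ) ≤
      50 * (K * H : ℝ) / (d * W) := by
  obtain ⟨-, -, hc⟩ := isCoprime_of hd
  have hdW : (0 : ℝ) < (d : ℝ) * W := by positivity
  have hX2 := hX
  simp only [Xs, mem_filter, mem_Ico] at hX2
  have h1 := card_le_of_cong (insert X ((Xs K H W).filter (fun X' => X' ≠ X ∧ (d : ℤ) ∣ X - X')))
    (100 * K * H) (200 * K * H) (d * (2 * W)) (by positivity)
    (by linarith [hX2.1.1, hX2.1.2.le])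
    (by
      intro x hx
      rw [mem_insert] at hx
      rcases hx with rfl | hx
      · exact ⟨hX2.1.1, hX2.1.2.le⟩
      · simp only [Xs, mem_filter, mem_Ico] at hx
        exact ⟨hx.1.1.1, hx.1.1.2.le⟩)
    (by
      have hh : ∀ x ∈ insert X ((Xs K H W).filter (fun X' => X' ≠ X ∧ (d : ℤ) ∣ X - X')),
          x ∈ Xs K H W ∧ (d : ℤ) ∣ X - x := by
        intro x hx
        rw [mem_insert] at hx
        rcases hx with rfl | hx
        · exact ⟨hX, by simp⟩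
        · rw [mem_filter] at hx
          exact ⟨hx.1, hx.2.2⟩
      intro x hx y hy
      obtain ⟨hx1, hx2⟩ := hh x hx
      obtain ⟨hy1, hy2⟩ := hh y hy
      have h2 : (d : ℤ) ∣ x - y := by
        have := dvd_sub hy2 hx2
        have e : X - y - (X - x) = x - y := by ring
        rwa [e] at this
      have h3 := dvd_sub_X hx1 hy1
      push_cast at h3
      have h7 := hc.mul_dvd h2 h3
      exact_mod_cast h7)
  rw [card_insert_of_notMem (by simp)] at h1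
  push_cast at h1
  have h2 : (200 * (K : ℝ) * H - 100 * K * H) / (d * (2 * W)) = 50 * (K * H : ℝ) / (d * W) := by
    field_simp
    ring
  rw [h2] at h1
  linarith

/-- The pairs of triples with `d ∣ gcd(D, D', X - X')`. -/
theorem count_pair {K H W : ℕ} {A2 A4 : ℤ} {d : ℕ} (hd : Nat.Coprime d (2 * W)) (hd0 : 0 < d)
    (hW0 : 0 < W) (hle : W * d ≤ 50 * K * H) :
    (∑ t ∈ Ts K H W A2 A4, ∑ t' ∈ (Ts K H W A2 A4).filter (fun t' => t'.1 ≠ t.1),
      (if d ∣ Int.gcd (Dt t) (Int.gcd (Dt t') (t.1 - t'.1)) then (1 : ℝ) else 0)) ≤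
      ((Xs K H W).card : ℝ) * (50 * (K * H : ℝ) / (d * W)) *
        (((Us K W A2 A4).card : ℝ) * (70 * (K * H : ℝ) / (d * W))) ^ 2 := by
  set C : ℝ := ((Us K W A2 A4).card : ℝ) * (70 * (K * H : ℝ) / (d * W)) with hC
  have hC0 : 0 ≤ C := by positivity
  set B : ℝ := 50 * (K * H : ℝ) / (d * W) with hB
  have hB0 : 0 ≤ B := by positivity
  have h1 : ∀ t ∈ Ts K H W A2 A4, (∑ t' ∈ (Ts K H W A2 A4).filter (fun t' => t'.1 ≠ t.1),
      (if d ∣ Int.gcd (Dt t) (Int.gcd (Dt t') (t.1 - t'.1)) then (1 : ℝ) else 0)) ≤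
      if (d : ℤ) ∣ Dt t then B * C else 0 := by
    intro t ht
    have htX : t.1 ∈ Xs K H W := by
      rw [Ts, mem_product] at ht
      exact ht.1
    split_ifs with h
    · have h2 : (∑ t' ∈ (Ts K H W A2 A4).filter (fun t' => t'.1 ≠ t.1),
          (if d ∣ Int.gcd (Dt t) (Int.gcd (Dt t') (t.1 - t'.1)) then (1 : ℝ) else 0)) ≤
          (((((Xs K H W).filter (fun X' => X' ≠ t.1 ∧ (d : ℤ) ∣ t.1 - X')) ×ˢ
            Qs K H W A2 A4).filter (fun t => (d : ℤ) ∣ Dt t)).card : ℝ) := by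
        rw [← sum_filter, sum_const, nsmul_eq_mul, mul_one]
        norm_cast
        refine card_le_card ?_
        intro t' ht'
        simp only [mem_filter, Ts, mem_product] at ht' ⊢
        obtain ⟨⟨⟨h3, h4⟩, h5⟩, h6⟩ := ht'
        have h7 : (d : ℤ) ∣ (Int.gcd (Dt t) (Int.gcd (Dt t') (t.1 - t'.1)) : ℤ) := by
          exact_mod_cast h6
        have h8 : (d : ℤ) ∣ (Int.gcd (Dt t') (t.1 - t'.1) : ℤ) := h7.trans (Int.gcd_dvd_right _ _)
        exact ⟨⟨⟨h3, h5, h8.trans (Int.gcd_dvd_right _ _)⟩, h4⟩, h8.trans (Int.gcd_dvd_left _ _)⟩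
      refine h2.trans ((count_t hd hd0 hW0 hle _).trans ?_)
      exact mul_le_mul_of_nonneg_right (count_x hd hd0 hW0 htX) hC0
    · refine le_of_eq (sum_eq_zero fun t' _ => if_neg fun h6 => h ?_)
      have h7 : (d : ℤ) ∣ (Int.gcd (Dt t) (Int.gcd (Dt t') (t.1 - t'.1)) : ℤ) := by
        exact_mod_cast h6
      exact h7.trans (Int.gcd_dvd_left _ _)
  refine (sum_le_sum h1).trans ?_
  rw [← sum_filter, sum_const, nsmul_eq_mul]
  have h3 := count_t (A2 := A2) (A4 := A4) hd hd0 hW0 hle (Xs K H W)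
  rw [← hC] at h3
  have h4 : (((Ts K H W A2 A4).filter fun t => (d : ℤ) ∣ Dt t).card : ℝ) ≤
      ((Xs K H W).card : ℝ) * C := h3
  calc (((Ts K H W A2 A4).filter fun t => (d : ℤ) ∣ Dt t).card : ℝ) * (B * C)
      ≤ ((Xs K H W).card : ℝ) * C * (B * C) :=
        mul_le_mul_of_nonneg_right h4 (by positivity)
    _ = ((Xs K H W).card : ℝ) * B * C ^ 2 := by ring

/-- The moduli which occur. -/
def Ds (K H W z : ℕ) : Finset ℕ :=
  (Finset.Ioo (z - 1) (50 * K * H + 1)).filter (fun d => Nat.Coprime d (2 * W) ∧ W * d ≤ 50 * K * H)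

theorem gcd_le {K H W z : ℕ} {A2 A4 : ℤ} (hz : 2 ≤ z) (hoW : Odd W)
    (hWz : ∀ p : ℕ, p.Prime → p ≠ 2 → p < z → p ∣ W) {t t' : ℤ × (Σ _ : ℤ, ℤ)}
    (ht : t ∈ Ts K H W A2 A4) (ht' : t' ∈ Ts K H W A2 A4) (hne : t'.1 ≠ t.1) :
    (Int.gcd (Dt t) (Int.gcd (Dt t') (t.1 - t'.1)) : ℝ) ≤
      1 + ∑ d ∈ Ds K H W z, (d : ℝ) *
        (if d ∣ Int.gcd (Dt t) (Int.gcd (Dt t') (t.1 - t'.1)) then (1 : ℝ) else 0) := by
  set e : ℕ := Int.gcd (Dt t) (Int.gcd (Dt t') (t.1 - t'.1)) with he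
  have hW0 : 0 < W := hoW.pos
  have hX : t.1 ∈ Xs K H W := by rw [Ts, mem_product] at ht; exact ht.1
  have hX' : t'.1 ∈ Xs K H W := by rw [Ts, mem_product] at ht'; exact ht'.1
  obtain ⟨hodd, hmod⟩ := Dt_mod hoW ht
  have heD : (e : ℤ) ∣ Dt t := Int.gcd_dvd_left _ _
  have heX : (e : ℤ) ∣ t.1 - t'.1 := (Int.gcd_dvd_right (Dt t) _).trans (Int.gcd_dvd_right _ _)
  have hXne : t.1 - t'.1 ≠ 0 := sub_ne_zero.2 (Ne.symm hne)
  have he0 : e ≠ 0 := by
    intro h0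
    rw [h0] at heX
    exact hXne (zero_dvd_iff.1 (by exact_mod_cast heX))
  have hDs : ∀ d ∈ e.divisors.erase 1, d ∈ Ds K H W z := by
    intro d hd
    rw [mem_erase, Nat.mem_divisors] at hd
    obtain ⟨hd1, hde, -⟩ := hd
    have hd0 : d ≠ 0 := by
      rintro rfl
      exact he0 (zero_dvd_iff.1 hde)
    have hdD : (d : ℤ) ∣ Dt t := (Int.natCast_dvd_natCast.2 hde).trans heD
    have hdX : (d : ℤ) ∣ t.1 - t'.1 := (Int.natCast_dvd_natCast.2 hde).trans heX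
    have hcp : ∀ p : ℕ, p.Prime → p ∣ d → ¬ p ∣ 2 * W := by
      intro p hp hpd hpW
      have hpD : (p : ℤ) ∣ Dt t := (Int.natCast_dvd_natCast.2 hpd).trans hdD
      rcases (Nat.Prime.dvd_mul hp).1 hpW with h | h
      · have h2 : p = 2 := (Nat.prime_dvd_prime_iff_eq hp Nat.prime_two).1 h
        rw [h2] at hpD
        rw [← Int.not_even_iff_odd] at hodd
        exact hodd (even_iff_two_dvd.2 (by exact_mod_cast hpD))
      · have h3 : (p : ℤ) ∣ Dt t - 1 := (Int.natCast_dvd_natCast.2 h).trans hmod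
        have h4 : (p : ℤ) ∣ 1 := by
          have := dvd_sub hpD h3
          simpa using this
        have h5 : p ∣ 1 := by exact_mod_cast h4
        exact hp.one_lt.ne' (Nat.dvd_one.1 h5)
    have hcop : Nat.Coprime d (2 * W) := Nat.coprime_of_dvd fun p hp h1 h2 => hcp p hp h1 h2
    have hzd : z ≤ d := by
      by_contra hlt
      have hp := Nat.minFac_prime hd1
      have hpd := Nat.minFac_dvd d
      have hple : d.minFac ≤ d := Nat.minFac_le (Nat.pos_of_ne_zero hd0)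
      have hp2 : d.minFac ≠ 2 := by
        intro h2
        exact hcp d.minFac hp hpd (by rw [h2]; exact dvd_mul_right 2 W)
      exact hcp d.minFac hp hpd ((hWz _ hp hp2 (by omega)).mul_left 2)
    have hWd : W * d ≤ 50 * K * H := by
      obtain ⟨-, -, hc⟩ := isCoprime_of hcop
      have h1 := dvd_sub_X hX hX'
      push_cast at h1
      have h2 := hc.mul_dvd hdX h1
      have h3 := Int.le_of_dvd (abs_pos.2 hXne) ((dvd_abs _ _).2 h2)
      simp only [Xs, mem_filter, mem_Ico] at hX hX'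
      have h4 : |t.1 - t'.1| < 100 * K * H := by
        rw [abs_lt]
        constructor <;> linarith [hX.1.1, hX.1.2, hX'.1.1, hX'.1.2]
      have h5 : (W : ℤ) * d ≤ 50 * K * H := by nlinarith
      exact_mod_cast h5
    have hdle : d ≤ 50 * K * H := le_trans (Nat.le_mul_of_pos_left d hW0) hWd
    simp only [Ds, mem_filter, mem_Ioo]
    exact ⟨⟨by omega, by omega⟩, hcop, hWd⟩
  have h1 : (e : ℝ) = ∑ d ∈ e.divisors, (d.totient : ℝ) := by
    exact_mod_cast (Nat.sum_totient e).symm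
  have h2 : ∑ d ∈ e.divisors, (d.totient : ℝ) = 1 + ∑ d ∈ e.divisors.erase 1, (d.totient : ℝ) := by
    rw [← add_sum_erase _ _ (Nat.one_mem_divisors.2 he0)]
    simp
  rw [h1, h2]
  have h3 : ∑ d ∈ e.divisors.erase 1, (d.totient : ℝ) ≤
      ∑ d ∈ Ds K H W z, (d : ℝ) * (if d ∣ e then (1 : ℝ) else 0) := by
    calc ∑ d ∈ e.divisors.erase 1, (d.totient : ℝ)
        ≤ ∑ d ∈ e.divisors.erase 1, (d : ℝ) * (if d ∣ e then (1 : ℝ) else 0) := by
          refine sum_le_sum fun d hd => ?_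
          rw [if_pos (Nat.dvd_of_mem_divisors (mem_of_mem_erase hd)), mul_one]
          exact_mod_cast Nat.totient_le d
      _ ≤ _ := sum_le_sum_of_subset_of_nonneg hDs fun d _ _ => by positivity
  linarith

end ESum

open ESum in
theorem esum (K H W z : ℕ) (A2 A4 : ℤ) (hz : 2 ≤ z) (hoW : Odd W) (hW : 10 * W ≤ K) (hKH : K ^ 4 ≤ H)
    (hWz : ∀ p : ℕ, p.Prime → p ≠ 2 → p < z → p ∣ W) :
    (∑ t ∈ Ts K H W A2 A4, ∑ t' ∈ (Ts K H W A2 A4).filter (fun t' => t'.1 ≠ t.1),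
      (Int.gcd (Dt t) (Int.gcd (Dt t') (t.1 - t'.1)) : ℝ))
      ≤ (1 + 40 / z) * ((Ts K H W A2 A4).card : ℝ) ^ 2 := by
  have hW0 : 0 < W := hoW.pos
  have hWr : (0 : ℝ) < W := by exact_mod_cast hW0
  have hz0 : (0 : ℝ) < z := by exact_mod_cast (by omega : 0 < z)
  set T := Ts K H W A2 A4 with hT
  have h1 : (∑ t ∈ T, ∑ t' ∈ T.filter (fun t' => t'.1 ≠ t.1),
      (Int.gcd (Dt t) (Int.gcd (Dt t') (t.1 - t'.1)) : ℝ)) ≤
      ∑ t ∈ T, ∑ t' ∈ T.filter (fun t' => t'.1 ≠ t.1),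
      (1 + ∑ d ∈ Ds K H W z, (d : ℝ) *
        (if d ∣ Int.gcd (Dt t) (Int.gcd (Dt t') (t.1 - t'.1)) then (1 : ℝ) else 0)) := by
    refine Finset.sum_le_sum fun t ht => Finset.sum_le_sum fun t' ht' => ?_
    obtain ⟨h2, h3⟩ := Finset.mem_filter.1 ht'
    exact gcd_le hz hoW hWz ht h2 h3
  refine h1.trans ?_
  have h2 : (∑ t ∈ T, ∑ t' ∈ T.filter (fun t' => t'.1 ≠ t.1),
      (1 + ∑ d ∈ Ds K H W z, (d : ℝ) *
        (if d ∣ Int.gcd (Dt t) (Int.gcd (Dt t') (t.1 - t'.1)) then (1 : ℝ) else 0))) =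
      (∑ t ∈ T, ((T.filter (fun t' => t'.1 ≠ t.1)).card : ℝ)) +
      ∑ d ∈ Ds K H W z, (d : ℝ) * ∑ t ∈ T, ∑ t' ∈ T.filter (fun t' => t'.1 ≠ t.1),
        (if d ∣ Int.gcd (Dt t) (Int.gcd (Dt t') (t.1 - t'.1)) then (1 : ℝ) else 0) := by
    simp only [Finset.sum_add_distrib, Finset.sum_const, nsmul_eq_mul, mul_one]
    congr 1
    rw [Finset.sum_congr rfl fun t _ => Finset.sum_comm]
    rw [Finset.sum_comm]
    refine Finset.sum_congr rfl fun d _ => ?_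
    simp only [Finset.mul_sum]
  rw [h2]
  have h3 : (∑ t ∈ T, ((T.filter (fun t' => t'.1 ≠ t.1)).card : ℝ)) ≤ (T.card : ℝ) ^ 2 := by
    calc (∑ t ∈ T, ((T.filter (fun t' => t'.1 ≠ t.1)).card : ℝ)) ≤ ∑ _t ∈ T, (T.card : ℝ) := by
          refine Finset.sum_le_sum fun t _ => ?_
          exact_mod_cast Finset.card_filter_le _ _
      _ = (T.card : ℝ) ^ 2 := by rw [Finset.sum_const, nsmul_eq_mul, sq]
  set Xc : ℝ := ((Xs K H W).card : ℝ) with hXc
  set Uc : ℝ := ((Us K W A2 A4).card : ℝ) with hUc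
  set Q : ℝ := (K * H : ℝ) / W with hQ
  have hQ0 : 0 ≤ Q := by positivity
  have h4 : ∑ d ∈ Ds K H W z, (d : ℝ) * ∑ t ∈ T, ∑ t' ∈ T.filter (fun t' => t'.1 ≠ t.1),
        (if d ∣ Int.gcd (Dt t) (Int.gcd (Dt t') (t.1 - t'.1)) then (1 : ℝ) else 0) ≤
      ∑ d ∈ Ds K H W z, (245000 * Xc * Uc ^ 2 * Q ^ 3) * ((d : ℝ) ^ 2)⁻¹ := by
    refine Finset.sum_le_sum fun d hd => ?_
    simp only [Ds, Finset.mem_filter, Finset.mem_Ioo] at hd
    obtain ⟨⟨hd1, hd2⟩, hd3, hd4⟩ := hd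
    have hd0 : 0 < d := by omega
    have hdr : (0 : ℝ) < d := by exact_mod_cast hd0
    have h5 := count_pair (A2 := A2) (A4 := A4) hd3 hd0 hW0 hd4
    rw [← hT, ← hXc, ← hUc] at h5
    refine (mul_le_mul_of_nonneg_left h5 hdr.le).trans (le_of_eq ?_)
    rw [hQ]
    field_simp
    ring
  have h5 : ∑ d ∈ Ds K H W z, (245000 * Xc * Uc ^ 2 * Q ^ 3) * ((d : ℝ) ^ 2)⁻¹ ≤
      (245000 * Xc * Uc ^ 2 * Q ^ 3) * (2 / z) := by
    rw [← Finset.mul_sum]
    refine mul_le_mul_of_nonneg_left ?_ (by positivity)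
    calc ∑ d ∈ Ds K H W z, ((d : ℝ) ^ 2)⁻¹
        ≤ ∑ d ∈ Finset.Ioo (z - 1) (50 * K * H + 1), ((d : ℝ) ^ 2)⁻¹ :=
          Finset.sum_le_sum_of_subset_of_nonneg (Finset.filter_subset _ _)
            fun d _ _ => by positivity
      _ ≤ 2 / (((z - 1 : ℕ) : ℝ) + 1) := sum_Ioo_inv_sq_le _ _
      _ = 2 / z := by
          congr 1
          rw [Nat.cast_sub (by omega)]
          push_cast
          ring
  have hTc : (T.card : ℝ) = Xc * ((Qs K H W A2 A4).card : ℝ) := by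
    rw [hT, Ts, Finset.card_product]
    push_cast
    rfl
  have hQc : Uc * (19 * Q) ≤ ((Qs K H W A2 A4).card : ℝ) := by
    rw [Qs, Finset.card_sigma]
    push_cast
    rw [hUc, ← nsmul_eq_mul, ← Finset.sum_const]
    refine Finset.sum_le_sum fun u _ => ?_
    have h6 := (Vs_card (A2 := A2) hW0 hW hKH u).1
    calc 19 * Q = 19 * (K * H : ℝ) / W := by rw [hQ]; ring
      _ ≤ _ := h6
  have hXl : 40 * Q ≤ Xc := by
    have h6 := (Xs_card hW0 hW hKH).1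
    calc 40 * Q = 40 * (K * H : ℝ) / W := by rw [hQ]; ring
      _ ≤ _ := h6
  have hXc0 : 0 ≤ Xc := by positivity
  have hUc0 : 0 ≤ Uc := by positivity
  have h6 : 14440 * Xc * Uc ^ 2 * Q ^ 3 ≤ (T.card : ℝ) ^ 2 := by
    rw [hTc, mul_pow]
    have h7 : (Uc * (19 * Q)) ^ 2 ≤ ((Qs K H W A2 A4).card : ℝ) ^ 2 :=
      pow_le_pow_left₀ (by positivity) hQc 2
    calc 14440 * Xc * Uc ^ 2 * Q ^ 3 = Xc * (40 * Q) * (Uc * (19 * Q)) ^ 2 := by ring
      _ ≤ Xc * Xc * ((Qs K H W A2 A4).card : ℝ) ^ 2 :=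
          mul_le_mul (mul_le_mul_of_nonneg_left hXl hXc0) h7 (by positivity) (by positivity)
      _ = Xc ^ 2 * ((Qs K H W A2 A4).card : ℝ) ^ 2 := by ring
  have h7 : (245000 * Xc * Uc ^ 2 * Q ^ 3) * (2 / z) ≤ 40 / z * (T.card : ℝ) ^ 2 := by
    calc (245000 * Xc * Uc ^ 2 * Q ^ 3) * (2 / z) = 490000 * (Xc * Uc ^ 2 * Q ^ 3) / z := by ring
      _ ≤ 40 * (14440 * Xc * Uc ^ 2 * Q ^ 3) / z := by
          apply div_le_div_of_nonneg_right _ hz0.le
          have : 0 ≤ Xc * Uc ^ 2 * Q ^ 3 := by positivity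
          nlinarith
      _ ≤ 40 * (T.card : ℝ) ^ 2 / z := by
          apply div_le_div_of_nonneg_right _ hz0.le
          linarith
      _ = 40 / z * (T.card : ℝ) ^ 2 := by ring
  linarith

end Helper6.QS
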