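import Pool.Agent.Helper6.QS.Defs
import Pool.Agent.Helper6.QS.Box1

/-! QS-14: elementary facts on the family. -/

set_option autoImplicit false
namespace Helper6.QS

variable {K H W : ℕ} {A2 A4 : ℤ}

namespace FamAux

theorem mem_Ts {t : ℤ × (Σ _ : ℤ, ℤ)} : t ∈ Ts K H W A2 A4 ↔
    t.1 ∈ Xs K H W ∧ t.2.1 ∈ Us K W A2 A4 ∧ t.2.2 ∈ Vs K H W A2 t.2.1 := by
  rw [Ts, Finset.mem_product, Qs, Finset.mem_sigma]

theorem mem_Qs {p : Σ _ : ℤ, ℤ} : p ∈ Qs K H W A2 A4 ↔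
    p.1 ∈ Us K W A2 A4 ∧ p.2 ∈ Vs K H W A2 p.1 := by
  rw [Qs, Finset.mem_sigma]

theorem mem_Xs {X : ℤ} : X ∈ Xs K H W ↔
    (100 * K * H ≤ X ∧ X < 200 * K * H) ∧ X % (2 * W) = 1 := by
  rw [Xs, Finset.mem_filter, Finset.mem_Ico]

theorem mem_Us {u : ℤ} : u ∈ Us K W A2 A4 ↔
    (-A2 - A4 - K ≤ u ∧ u ≤ -A2 - A4 + K) ∧ u % (2 * W) = W := by
  rw [Us, Finset.mem_filter, Finset.mem_Icc]

theorem mem_Vs {u v : ℤ} : v ∈ Vs K H W A2 u ↔
    (30 * K * H - A2 ^ 2 - u * A2 ≤ v ∧ v ≤ 50 * K * H - A2 ^ 2 - u * A2) ∧ (W : ℤ) ∣ v := by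
  rw [Vs, Finset.mem_filter, Finset.mem_Icc]

theorem odd_X {X : ℤ} (h : X % (2 * W) = 1) : Odd X := by
  have h1 := Int.emod_add_mul_ediv X (2 * W)
  rw [h] at h1
  exact ⟨W * (X / (2 * W)), by linarith⟩

theorem odd_u (hW : Odd W) {u : ℤ} (h : u % (2 * W) = W) : Odd u := by
  have h1 := Int.emod_add_mul_ediv u (2 * W)
  rw [h] at h1
  obtain ⟨k, hk⟩ := hW
  refine ⟨k + W * (u / (2 * W)), ?_⟩
  have hk' : (W : ℤ) = 2 * k + 1 := by exact_mod_cast hk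
  linarith

end FamAux

open FamAux

theorem mem_Ts_inFam (hW : Odd W) {t : ℤ × (Σ _ : ℤ, ℤ)} (ht : t ∈ Ts K H W A2 A4) :
    InFam K H A2 A4 t.1 t.2.1 t.2.2 := by
  rw [mem_Ts, mem_Xs, mem_Us, mem_Vs] at ht
  obtain ⟨⟨⟨h1, h2⟩, h3⟩, ⟨⟨h4, h5⟩, h6⟩, ⟨h7, h8⟩, h9⟩ := ht
  refine ⟨odd_X h3, h1, h2, odd_u hW h6, ?_, by linarith, by linarith⟩
  rw [abs_le]
  constructor <;> linarith

/-- size of the modulus -/
theorem Dt_bounds (hK : 2 ≤ K) (hKH : K ^ 4 ≤ H) (h2 : |A2| ≤ H) (h4 : |A4| ≤ H)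
    {t : ℤ × (Σ _ : ℤ, ℤ)} (ht : t ∈ Ts K H W A2 A4) :
    5000 * (K : ℤ) ^ 2 * H ^ 2 ≤ Dt t ∧ Dt t ≤ 50000 * (K : ℤ) ^ 2 * H ^ 2 := by
  rw [mem_Ts, mem_Xs, mem_Us, mem_Vs] at ht
  obtain ⟨⟨⟨hX1, hX2⟩, -⟩, ⟨⟨hu1, hu2⟩, -⟩, ⟨hv1, hv2⟩, -⟩ := ht
  obtain ⟨X, u, v⟩ := t
  simp only [Dt, Dd] at *
  have hKZ : (2 : ℤ) ≤ K := by exact_mod_cast hK
  have hKH' : (K : ℤ) ≤ H := by
    have h1 : K ≤ K ^ 4 := Nat.le_self_pow (by norm_num) K
    exact_mod_cast h1.trans hKH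
  have hH : (2 : ℤ) ≤ H := hKZ.trans hKH'
  rw [abs_le] at h2 h4
  set k : ℤ := (K : ℤ) with hk
  set h : ℤ := (H : ℤ) with hh
  have hu3 : u ≤ 3 * h := by linarith
  have hu4 : -(3 * h) ≤ u := by linarith
  have hkh : 0 ≤ k * h := by positivity
  -- the terms
  have e1 : 2 * u * X ≤ 1200 * (k * h ^ 2) := by
    have h5 : u * X ≤ 3 * h * X := mul_le_mul_of_nonneg_right hu3 (by nlinarith)
    have h6 : 3 * h * X ≤ 3 * h * (200 * k * h) :=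
      mul_le_mul_of_nonneg_left hX2.le (by linarith)
    nlinarith
  have e2 : -(1200 * (k * h ^ 2)) ≤ 2 * u * X := by
    have h5 : -(3 * h) * X ≤ u * X := mul_le_mul_of_nonneg_right hu4 (by nlinarith)
    have h6 : 3 * h * X ≤ 3 * h * (200 * k * h) :=
      mul_le_mul_of_nonneg_left hX2.le (by linarith)
    nlinarith
  have e3 : A2 ^ 2 ≤ h ^ 2 := by nlinarith
  have e4 : -(3 * h ^ 2) ≤ u * A2 ∧ u * A2 ≤ 3 * h ^ 2 := by
    constructor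
    · nlinarith [mul_nonneg (by linarith : 0 ≤ 3 * h - u) (by linarith : 0 ≤ h - A2),
        mul_nonneg (by linarith : 0 ≤ 3 * h + u) (by linarith : 0 ≤ h + A2)]
    · nlinarith [mul_nonneg (by linarith : 0 ≤ 3 * h - u) (by linarith : 0 ≤ h + A2),
        mul_nonneg (by linarith : 0 ≤ 3 * h + u) (by linarith : 0 ≤ h - A2)]
  have e5 : (100 * k * h) ^ 2 ≤ X ^ 2 := by
    apply pow_le_pow_left₀ (by positivity) hX1
  have e6 : X ^ 2 ≤ (200 * k * h) ^ 2 := by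
    apply pow_le_pow_left₀ _ hX2.le
    exact le_trans (by positivity) hX1
  have e7 : 2 * (k * h ^ 2) ≤ k ^ 2 * h ^ 2 := by nlinarith [mul_nonneg hkh (by linarith : 0 ≤ h)]
  have e8 : 4 * h ^ 2 ≤ k ^ 2 * h ^ 2 := by
    have : (4 : ℤ) ≤ k ^ 2 := by nlinarith
    exact mul_le_mul_of_nonneg_right this (by positivity)
  have e9 : 4 * (k * h) ≤ k ^ 2 * h ^ 2 := by
    have : 4 ≤ k * h := by nlinarith
    nlinarith
  have e10 : 0 ≤ k ^ 2 * h ^ 2 := by positivity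
  constructor
  · nlinarith
  · nlinarith [e4.1, e4.2]

/-- the modulus is congruent to 1 modulo `W` and odd -/
theorem Dt_mod (hW : Odd W) {t : ℤ × (Σ _ : ℤ, ℤ)} (ht : t ∈ Ts K H W A2 A4) :
    Odd (Dt t) ∧ (W : ℤ) ∣ Dt t - 1 := by
  rw [mem_Ts, mem_Xs, mem_Us, mem_Vs] at ht
  obtain ⟨⟨-, hX⟩, ⟨-, hu⟩, -, hv⟩ := ht
  obtain ⟨X, u, v⟩ := t
  simp only [Dt, Dd] at *
  have h1 := Int.emod_add_mul_ediv X (2 * W)
  have h2 := Int.emod_add_mul_ediv u (2 * W)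
  rw [hX] at h1
  rw [hu] at h2
  obtain ⟨k, hk⟩ := hv
  set x := X / (2 * W)
  set y := u / (2 * W)
  constructor
  · obtain ⟨c, hc⟩ := odd_X hX
    exact ⟨2 * c ^ 2 + 2 * c + u * X + 2 * v, by rw [hc]; ring⟩
  · refine ⟨(2 * x) * (X + 1) + 2 * (1 + 2 * y) * X + 4 * k, ?_⟩
    have h3 : X - 1 = W * (2 * x) := by linarith
    have h4 : u = W * (1 + 2 * y) := by linarith
    have h5 : X ^ 2 - 1 = W * (2 * x) * (X + 1) := by rw [← h3]; ring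
    linear_combination h5 + 2 * X * h4 + 4 * hk

/-- for given `X` the modulus determines `(u,v)` -/
theorem Dt_inj (hW : Odd W) (hK : 2 ≤ K) (hKH : K ^ 4 ≤ H) (h2 : |A2| ≤ H) {X : ℤ} (hX : X ∈ Xs K H W)
    {p q : Σ _ : ℤ, ℤ} (hp : p ∈ Qs K H W A2 A4) (hq : q ∈ Qs K H W A2 A4)
    (h : Dd X p.1 p.2 = Dd X q.1 q.2) : p = q := by
  rw [mem_Qs, mem_Us, mem_Vs] at hp hq
  rw [mem_Xs] at hX
  obtain ⟨u, v⟩ := p
  obtain ⟨u', v'⟩ := q
  obtain ⟨⟨hX1, hX2⟩, -⟩ := hX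
  obtain ⟨⟨-, hu⟩, ⟨hv1, hv2⟩, -⟩ := hp
  obtain ⟨⟨-, hu'⟩, ⟨hv1', hv2'⟩, -⟩ := hq
  simp only [Dd] at *
  have hKZ : (2 : ℤ) ≤ K := by exact_mod_cast hK
  have hKH' : (K : ℤ) ≤ H := by
    have h1 : K ≤ K ^ 4 := Nat.le_self_pow (by norm_num) K
    exact_mod_cast h1.trans hKH
  have hH : (2 : ℤ) ≤ H := hKZ.trans hKH'
  rw [abs_le] at h2
  have hW1 : (1 : ℤ) ≤ W := by
    obtain ⟨c, hc⟩ := hW
    have : 1 ≤ W := by omega
    exact_mod_cast this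
  have hkh : (0 : ℤ) < K * H := by positivity
  have hkh2 : 2 * (H : ℤ) ≤ K * H := by nlinarith
  have hpos : 198 * ((K : ℤ) * H) ≤ 2 * X - 4 * A2 := by nlinarith
  have key : (2 * X - 4 * A2) * (u - u') +
      4 * ((A2 ^ 2 + u * A2 + v) - (A2 ^ 2 + u' * A2 + v')) = 0 := by
    linear_combination h
  have hl : |(A2 ^ 2 + u * A2 + v) - (A2 ^ 2 + u' * A2 + v')| ≤ 20 * ((K : ℤ) * H) := by
    rw [abs_le]
    constructor <;> nlinarith
  rw [abs_le] at hl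
  have huu : u = u' := by
    by_contra hne
    have h3 : (2 * (W : ℤ)) ∣ u - u' := Int.ModEq.dvd (a := u') (b := u) (by
      rw [Int.ModEq, hu, hu'])
    obtain ⟨c, hc⟩ := h3
    have hc0 : c ≠ 0 := by
      rintro rfl
      apply hne
      linarith
    rcases lt_or_gt_of_ne hc0 with h4 | h4
    · have h5 : u - u' ≤ -2 := by nlinarith
      nlinarith
    · have h5 : 2 ≤ u - u' := by nlinarith
      nlinarith
  subst huu
  have hvv : v = v' := by linarith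
  subst hvv
  rfl

/-- for given `X` the moduli lie in a short interval -/
theorem Dt_window (hK : 2 ≤ K) (hKH : K ^ 4 ≤ H) (h2 : |A2| ≤ H) {X : ℤ} (hX : X ∈ Xs K H W) :
    ∃ M : ℤ, ∀ p ∈ Qs K H W A2 A4, M ≤ Dd X p.1 p.2 ∧ Dd X p.1 p.2 ≤ M + (1000 * K ^ 2 * H : ℕ) := by
  rw [mem_Xs] at hX
  obtain ⟨⟨hX1, hX2⟩, -⟩ := hX
  have hKZ : (2 : ℤ) ≤ K := by exact_mod_cast hK
  have hKH' : (K : ℤ) ≤ H := by
    have h1 : K ≤ K ^ 4 := Nat.le_self_pow (by norm_num) K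
    exact_mod_cast h1.trans hKH
  have hH : (2 : ℤ) ≤ H := hKZ.trans hKH'
  rw [abs_le] at h2
  refine ⟨X ^ 2 - 4 * A2 ^ 2 + (-A2 - A4 - K) * (2 * X - 4 * A2) + 120 * K * H, fun p hp => ?_⟩
  rw [mem_Qs, mem_Us, mem_Vs] at hp
  obtain ⟨u, v⟩ := p
  obtain ⟨⟨⟨hu1, hu2⟩, -⟩, ⟨hv1, hv2⟩, -⟩ := hp
  simp only [Dd] at *
  have hkh : (0 : ℤ) < K * H := by positivity
  have hkh2 : 2 * (H : ℤ) ≤ K * H := by nlinarith
  have hpos : 198 * ((K : ℤ) * H) ≤ 2 * X - 4 * A2 := by nlinarith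
  have hup : 2 * X - 4 * A2 ≤ 402 * ((K : ℤ) * H) := by nlinarith
  have e1 : X ^ 2 + 2 * u * X + 4 * v = X ^ 2 - 4 * A2 ^ 2 + u * (2 * X - 4 * A2) +
      4 * (A2 ^ 2 + u * A2 + v) := by ring
  have e2 : (-A2 - A4 - K) * (2 * X - 4 * A2) ≤ u * (2 * X - 4 * A2) :=
    mul_le_mul_of_nonneg_right hu1 (by linarith)
  have e3 : u * (2 * X - 4 * A2) ≤ (-A2 - A4 - K) * (2 * X - 4 * A2) +
      2 * K * (402 * ((K : ℤ) * H)) := by
    have h5 : u * (2 * X - 4 * A2) ≤ (-A2 - A4 + K) * (2 * X - 4 * A2) :=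
      mul_le_mul_of_nonneg_right hu2 (by linarith)
    have h6 : 2 * (K : ℤ) * (2 * X - 4 * A2) ≤ 2 * K * (402 * ((K : ℤ) * H)) :=
      mul_le_mul_of_nonneg_left hup (by linarith)
    nlinarith
  have e4 : 80 * ((K : ℤ) * H) ≤ 40 * (K ^ 2 * H) := by nlinarith
  have e5 : (0 : ℤ) ≤ K ^ 2 * H := by positivity
  rw [e1]
  push_cast
  constructor
  · nlinarith
  · nlinarith

theorem Xs_card (hW0 : 0 < W) (hW : 10 * W ≤ K) (hKH : K ^ 4 ≤ H) :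
    40 * (K * H : ℝ) / W ≤ ((Xs K H W).card : ℝ) ∧ ((Xs K H W).card : ℝ) ≤ 100 * (K * H : ℝ) := by
  have hKH' : K ≤ H := (Nat.le_self_pow (by norm_num) K).trans hKH
  have hWr : (1 : ℝ) ≤ W := by exact_mod_cast hW0
  have hWK : (10 : ℝ) * W ≤ K := by exact_mod_cast hW
  have hKHr : (K : ℝ) ≤ H := by exact_mod_cast hKH'
  have h0 : (200 * K * H : ℤ) = 100 * K * H + ((100 * K * H : ℕ) : ℤ) := by
    push_cast
    ring
  have h1 : Xs K H W = (Finset.Ico (100 * K * H : ℤ) (100 * K * H + ((100 * K * H : ℕ) : ℤ))).filter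
      (fun X => X ≡ 1 [ZMOD (2 * W)]) := by
    rw [Xs, h0]
    apply Finset.filter_congr
    intro X _
    rw [Int.ModEq, Int.emod_eq_of_lt (by norm_num : (0 : ℤ) ≤ 1)]
    omega
  constructor
  · rw [h1]
    refine le_trans ?_ (BoxAux.cnt_modEq (2 * W : ℤ) (by positivity) 1 (100 * K * H)
      (100 * K * H)).1
    push_cast
    have h2 : 100 * (K : ℝ) * H / (2 * W) = 50 * (K * H) / W := by
      field_simp
      ring
    rw [h2]
    have h3 : 1 ≤ 10 * ((K : ℝ) * H) / W := by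
      rw [le_div_iff₀ (by linarith)]
      nlinarith
    have h4 : 50 * ((K : ℝ) * H) / W = 40 * (K * H) / W + 10 * (K * H) / W := by ring
    linarith
  · have h2 : (Xs K H W).card ≤ (Finset.Ico (100 * K * H : ℤ) (200 * K * H)).card :=
      Finset.card_filter_le _ _
    rw [Int.card_Ico, h0, add_sub_cancel_left, Int.toNat_natCast] at h2
    have h3 : ((Xs K H W).card : ℝ) ≤ ((100 * K * H : ℕ) : ℝ) := by exact_mod_cast h2
    push_cast at h3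
    linarith

theorem Us_card (hW0 : 0 < W) (hoW : Odd W) (hW : 10 * W ≤ K) :
    (K : ℝ) / (2 * W) ≤ ((Us K W A2 A4).card : ℝ) ∧ ((Us K W A2 A4).card : ℝ) ≤ 2 * K := by
  have hWr : (1 : ℝ) ≤ W := by exact_mod_cast hW0
  have hWK : (10 : ℝ) * W ≤ K := by exact_mod_cast hW
  have h1 : Us K W A2 A4 = (Finset.Ico (-A2 - A4 - K : ℤ) (-A2 - A4 - K +
      ((2 * K + 1 : ℕ) : ℤ))).filter (fun u => u ≡ W [ZMOD (2 * W)]) := by
    rw [Us]
    ext u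
    rw [Finset.mem_filter, Finset.mem_filter, Finset.mem_Icc, Finset.mem_Ico, Int.ModEq,
      Int.emod_eq_of_lt (a := (W : ℤ)) (by positivity) (by omega)]
    push_cast
    constructor
    · rintro ⟨⟨h2, h3⟩, h4⟩
      exact ⟨⟨h2, by linarith⟩, h4⟩
    · rintro ⟨⟨h2, h3⟩, h4⟩
      exact ⟨⟨h2, by linarith⟩, h4⟩
  have h2 := BoxAux.cnt_modEq (2 * W : ℤ) (by positivity) W (-A2 - A4 - K) (2 * K + 1)
  rw [← h1] at h2
  push_cast at h2
  constructor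
  · refine le_trans ?_ h2.1
    rw [le_sub_iff_add_le, div_add_one (by positivity)]
    apply div_le_div_of_nonneg_right _ (by positivity)
    linarith
  · refine h2.2.trans ?_
    have h3 : (2 * (K : ℝ) + 1) / (2 * W) ≤ (2 * K + 1) / 2 := by
      apply div_le_div_of_nonneg_left (by positivity) (by norm_num)
      linarith
    linarith

theorem Vs_card (hW0 : 0 < W) (hW : 10 * W ≤ K) (hKH : K ^ 4 ≤ H) (u : ℤ) :
    19 * (K * H : ℝ) / W ≤ ((Vs K H W A2 u).card : ℝ) ∧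
      ((Vs K H W A2 u).card : ℝ) ≤ 21 * (K * H : ℝ) := by
  have hKH' : K ≤ H := (Nat.le_self_pow (by norm_num) K).trans hKH
  have hWr : (1 : ℝ) ≤ W := by exact_mod_cast hW0
  have hWK : (10 : ℝ) * W ≤ K := by exact_mod_cast hW
  have hKHr : (K : ℝ) ≤ H := by exact_mod_cast hKH'
  have h1 : Vs K H W A2 u = (Finset.Ico (30 * K * H - A2 ^ 2 - u * A2) (30 * K * H - A2 ^ 2 - u * A2 +
      ((20 * K * H + 1 : ℕ) : ℤ))).filter (fun v => v ≡ 0 [ZMOD W]) := by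
    rw [Vs]
    ext v
    rw [Finset.mem_filter, Finset.mem_filter, Finset.mem_Icc, Finset.mem_Ico,
      Int.modEq_zero_iff_dvd]
    push_cast
    constructor
    · rintro ⟨⟨h2, h3⟩, h4⟩
      exact ⟨⟨h2, by linarith⟩, h4⟩
    · rintro ⟨⟨h2, h3⟩, h4⟩
      exact ⟨⟨h2, by linarith⟩, h4⟩
  constructor
  · rw [h1]
    refine le_trans ?_ (BoxAux.cnt_modEq (W : ℤ) (by positivity) 0 _ (20 * K * H + 1)).1
    push_cast
    rw [le_sub_iff_add_le, div_add_one (by positivity)]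
    apply div_le_div_of_nonneg_right _ (by positivity)
    nlinarith
  · have h2 : (Vs K H W A2 u).card ≤ ((Finset.Ico (30 * K * H - A2 ^ 2 - u * A2)
        (30 * K * H - A2 ^ 2 - u * A2 + ((20 * K * H + 1 : ℕ) : ℤ)))).card := by
      rw [h1]
      exact Finset.card_filter_le _ _
    rw [Int.card_Ico, add_sub_cancel_left, Int.toNat_natCast] at h2
    have h3 : ((Vs K H W A2 u).card : ℝ) ≤ ((20 * K * H + 1 : ℕ) : ℝ) := by exact_mod_cast h2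
    push_cast at h3
    nlinarith

end Helper6.QS
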