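import Pool.Agent.Helper6.QS.Defs

/-! QS-7: minimal polynomial from the characteristic polynomial. -/

set_option autoImplicit false
open Polynomial
namespace Helper6.QS

private lemma mp_aeval_symm {κ : Type} [Fintype κ] [DecidableEq κ] {M : Matrix κ κ ℚ}
    (hM : M.IsSymm) (p : ℚ[X]) : (aeval M p).IsSymm := by
  induction p using Polynomial.induction_on' with
  | add p q hp hq =>
    rw [map_add]
    exact hp.add hq
  | monomial n a =>
    rw [aeval_monomial, ← Algebra.smul_def]
    unfold Matrix.IsSymm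
    rw [Matrix.transpose_smul, Matrix.transpose_pow, hM.eq]

private lemma mp_sq_zero {κ : Type} [Fintype κ] [DecidableEq κ] {S : Matrix κ κ ℚ}
    (hS : S.IsSymm) (h : S ^ 2 = 0) : S = 0 := by
  have h1 : S.conjTranspose * S = 0 := by
    rw [Matrix.conjTranspose_eq_transpose_of_trivial, hS.eq, ← sq, h]
  exact Matrix.conjTranspose_mul_self_eq_zero.1 h1

private lemma mp_root {κ K : Type} [Fintype κ] [DecidableEq κ] [Field K] (M : Matrix κ κ K) (α : K)
    (h : M.charpoly.eval α = 0) (p : K[X]) (hp : aeval M p = 0) : p.eval α = 0 := by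
  rw [Matrix.eval_charpoly] at h
  obtain ⟨v, hv, hv0⟩ := Matrix.exists_mulVec_eq_zero_iff.2 h
  have hMv : M.toLin' v = α • v := by
    rw [Matrix.toLin'_apply]
    rw [Matrix.sub_mulVec, sub_eq_zero] at hv0
    rw [← hv0]
    ext i
    simp [Matrix.scalar_apply, Matrix.mulVec_diagonal]
  have hev : Module.End.HasEigenvector M.toLin' α v :=
    ⟨Module.End.mem_eigenspace_iff.2 hMv, hv⟩
  have h2 := Module.End.aeval_apply_of_hasEigenvector (p := p) hev
  have h3 : aeval M.toLin' p = 0 := by
    have h4 : aeval (Matrix.toLinAlgEquiv' M) p = Matrix.toLinAlgEquiv' (aeval M p) := by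
      rw [aeval_algHom_apply]
    have h5 : Matrix.toLinAlgEquiv' M = M.toLin' := rfl
    rw [← h5, h4, hp, map_zero]
  rw [h3, LinearMap.zero_apply] at h2
  exact (smul_eq_zero.1 h2.symm).resolve_right hv

theorem minpoly_of_charpoly {ι : Type} [Fintype ι] [DecidableEq ι] (A : Matrix ι ι ℤ) (hA : A.IsSymm)
    (hc : Fintype.card ι = 20) (P : ℤ[X]) (hP : P.Monic) (hs : (P.map (Int.castRingHom ℚ)).Separable)
    (h : A.charpoly = P ^ 4) : IsMP P := by
  obtain ⟨e⟩ : Nonempty (ι ≃ Fin 20) := ⟨Fintype.equivFinOfCardEq hc⟩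
  set A' : Matrix (Fin 20) (Fin 20) ℤ := Matrix.reindex e e A with hA'
  have hA's : A'.IsSymm := hA.submatrix _
  have hA'c : A'.charpoly = P ^ 4 := by
    rw [hA', Matrix.charpoly_reindex, h]
  refine ⟨A', hA's, ?_⟩
  set Pq := P.map (Int.castRingHom ℚ) with hPq
  have hPqm : Pq.Monic := hP.map _
  set M : Matrix (Fin 20) (Fin 20) ℚ := A'.map (Int.castRingHom ℚ) with hM
  have hM' : A'.map (Int.cast : ℤ → ℚ) = M := rfl
  rw [hM']
  have hMs : M.IsSymm := hA's.map _
  have hMc : M.charpoly = Pq ^ 4 := by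
    rw [hM, Matrix.charpoly_map, hA'c, Polynomial.map_pow]
  have hS : aeval M Pq = 0 := by
    have h0 : (aeval M Pq) ^ 4 = 0 := by
      rw [← map_pow, ← hMc]
      exact Matrix.aeval_self_charpoly M
    have h1 : (aeval M Pq) ^ 2 = 0 := by
      apply mp_sq_zero
      · rw [← map_pow]
        exact mp_aeval_symm hMs _
      · rw [← pow_mul, h0]
    exact mp_sq_zero (mp_aeval_symm hMs _) h1
  have hint : IsIntegral ℚ M := Algebra.IsIntegral.isIntegral M
  have hmon := minpoly.monic hint
  obtain ⟨r, hr⟩ := minpoly.dvd ℚ M hS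
  have hsq : Squarefree Pq := hs.squarefree
  have hru : IsUnit r := by
    by_contra hnu
    have hr0 : r ≠ 0 := by
      rintro rfl
      rw [mul_zero] at hr
      exact hPqm.ne_zero hr
    have hdeg : r.degree ≠ 0 := fun hd => hnu (Polynomial.isUnit_iff_degree_eq_zero.2 hd)
    obtain ⟨α, hα⟩ := IsAlgClosed.exists_aeval_eq_zero (AlgebraicClosure ℚ) r hdeg
    have hroot : aeval α (minpoly ℚ M) = 0 := by
      have hPα : aeval α Pq = 0 := by
        rw [hr, map_mul, hα, mul_zero]
      set MK : Matrix (Fin 20) (Fin 20) (AlgebraicClosure ℚ) :=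
        M.map (algebraMap ℚ (AlgebraicClosure ℚ)) with hMK
      have hcK : MK.charpoly.eval α = 0 := by
        rw [hMK, Matrix.charpoly_map, hMc, Polynomial.map_pow, eval_pow, eval_map_algebraMap, hPα]
        norm_num
      have hpK : aeval MK ((minpoly ℚ M).map (algebraMap ℚ (AlgebraicClosure ℚ))) = 0 := by
        rw [aeval_map_algebraMap]
        have h6 : MK = (Algebra.ofId ℚ (AlgebraicClosure ℚ)).mapMatrix M := rfl
        rw [h6, aeval_algHom_apply, minpoly.aeval, map_zero]
      have h7 := mp_root MK α hcK _ hpK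
      rwa [eval_map_algebraMap] at h7
    have hd1 := minpoly.dvd ℚ α hroot
    have hd2 := minpoly.dvd ℚ α hα
    have hd3 : minpoly ℚ α * minpoly ℚ α ∣ Pq := by
      rw [hr]
      exact mul_dvd_mul hd1 hd2
    have hu := hsq _ hd3
    exact minpoly.not_isUnit ℚ α hu
  have hassoc : Associated (minpoly ℚ M) Pq := by
    rw [hr]
    exact associated_mul_unit_right _ _ hru
  exact eq_of_monic_of_associated hmon hPqm hassoc

end Helper6.QS
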