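import Pool.Agent.Helper6.QS.LB
import Pool.Agent.Helper6.QS.Blocks
import Pool.Agent.Helper6.QS.MPoly

/-! QS: the criterion: `Good P` and separable implies that `P` is a minimal polynomial. -/

set_option autoImplicit false
open Polynomial Quaternion
namespace Helper6.QS

theorem quad_monic (u v : ℤ) : (quad u v).Monic := by
  unfold quad
  rw [add_assoc]
  refine monic_X_pow_add ?_
  compute_degree!

theorem quad_natDegree (u v : ℤ) : (quad u v).natDegree = 2 := by
  unfold quad
  compute_degree!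

theorem lin_natDegree (m n : ℤ) : (lin m n).natDegree ≤ 1 := by
  unfold lin
  compute_degree!

theorem form_monic (u1 v1 u2 v2 d m1 n1 m2 n2 : ℤ) :
    ((X - C d) * quad u1 v1 * quad u2 v2 - lin m1 n1 * quad u2 v2 - lin m2 n2 * quad u1 v1).Monic := by
  have h1 : ((X - C d) * quad u1 v1 * quad u2 v2 : ℤ[X]).Monic :=
    ((monic_X_sub_C d).mul (quad_monic _ _)).mul (quad_monic _ _)
  have h2 : ((X - C d) * quad u1 v1 * quad u2 v2 : ℤ[X]).natDegree = 5 := by
    rw [((monic_X_sub_C d).mul (quad_monic _ _)).natDegree_mul (quad_monic _ _),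
      (monic_X_sub_C d).natDegree_mul (quad_monic _ _), quad_natDegree, quad_natDegree, natDegree_X_sub_C]
  have hd : ∀ m n u v : ℤ, (lin m n * quad u v).degree < (5 : ℕ) := by
    intro m n u v
    rcases eq_or_ne (lin m n * quad u v) 0 with h | h
    · rw [h, degree_zero]; exact WithBot.bot_lt_coe _
    · rw [degree_eq_natDegree h]
      have e1 : (lin m n * quad u v).natDegree ≤ (lin m n).natDegree + (quad u v).natDegree :=
        natDegree_mul_le
      rw [quad_natDegree] at e1
      have e2 := lin_natDegree m n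
      exact_mod_cast (by omega : (lin m n * quad u v).natDegree < 5)
  rw [sub_sub]
  apply h1.sub_of_left
  rw [degree_eq_natDegree h1.ne_zero, h2]
  exact lt_of_le_of_lt (degree_add_le _ _) (max_lt (hd _ _ _ _) (hd _ _ _ _))

theorem good_isMP (P : ℤ[X]) (hg : Good P) (hs : (P.map (Int.castRingHom ℚ)).Separable) : IsMP P := by
  obtain ⟨u1, v1, u2, v2, d, m1, n1, m2, n2, hu1, hu2, hm1, hm2, hq1, hq2, hP⟩ := hg
  obtain ⟨a1, b1, z1, c1, e1, h1, h2, h3, h4⟩ := lip_block u1 v1 m1 (n1 - u1 * m1) hu1 hm1 (by nlinarith)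
  obtain ⟨a2, b2, z2, c2, e2, k1, k2, k3, k4⟩ := lip_block u2 v2 m2 (n2 - u2 * m2) hu2 hm2 (by nlinarith)
  obtain ⟨A, hA, hc⟩ := exists_block_matrix u1 v1 u2 v2 d m1 n1 m2 n2 a1 b1 a2 b2 z1 c1 e1 z2 c2 e2
    h1 h2 h3 h4 k1 k2 k3 k4
  have hmon : P.Monic := by rw [hP]; exact form_monic _ _ _ _ _ _ _ _ _
  refine minpoly_of_charpoly A hA (by simp) P hmon hs ?_
  rw [hc, hP]

end Helper6.QS
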