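import Pool.Agent.Helper6.QS.Div

/-! QS-10: real geometry: members of the family interlace all quintics near a given one. -/

set_option autoImplicit false
open Polynomial
namespace Helper6.QS

theorem geo_prod {B m a b c d e : ℝ} (hB : 0 ≤ B) (hm : 0 ≤ m) (ha : B ≤ a) (hb : B ≤ b)
    (hc : B ≤ c) (hd : B ≤ d) (he : m ≤ e) : B ^ 4 * m ≤ a * b * c * d * e := by
  have h1 : B * B ≤ a * b := mul_le_mul ha hb hB (hB.trans ha)
  have h2 : B * B * B ≤ a * b * c := mul_le_mul h1 hc hB (by nlinarith)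
  have h3 : B * B * B * B ≤ a * b * c * d :=
    mul_le_mul h2 hd hB (le_trans (by positivity) h2)
  have h4 : B * B * B * B * m ≤ a * b * c * d * e :=
    mul_le_mul h3 he hm (le_trans (by positivity) h3)
  calc B ^ 4 * m = B * B * B * B * m := by ring
    _ ≤ _ := h4

theorem geo_ivt (p q : ℝ) (u v : ℝ) (hpq : p ≤ q)
    (h : (p ^ 2 + u * p + v ≤ 0 ∧ 0 ≤ q ^ 2 + u * q + v) ∨
      (0 ≤ p ^ 2 + u * p + v ∧ q ^ 2 + u * q + v ≤ 0)) :
    ∃ x, p ≤ x ∧ x ≤ q ∧ x ^ 2 + u * x + v = 0 := by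
  have hcont : ContinuousOn (fun x : ℝ => x ^ 2 + u * x + v) (Set.Icc p q) := by
    fun_prop
  rcases h with h | h
  · have h1 := intermediate_value_Icc hpq hcont
    obtain ⟨x, hx, hx0⟩ := h1 ⟨h.1, h.2⟩
    exact ⟨x, hx.1, hx.2, hx0⟩
  · have h1 := intermediate_value_Icc' hpq hcont
    obtain ⟨x, hx, hx0⟩ := h1 ⟨h.2, h.1⟩
    exact ⟨x, hx.1, hx.2, hx0⟩

theorem geo_core (c κ K H R : ℝ) (hc : 0 < c) (hc1 : c ≤ 1) (hκ : κ ≤ c ^ 4 / 6)
    (hK : 10 ≤ K) (hH : K ^ 4 ≤ H) (hR : c * R = 200 * K) (hR1 : R + 1 ≤ c * H / 2)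
    (α : Fin 5 → ℝ) (hα : ∀ i, |α i| ≤ H) (hg : ∀ i j : Fin 5, i < j → c * H ≤ α j - α i)
    (A2 A4 t u v b4 b5 : ℝ) (hA2 : |A2 - α 1| ≤ 1) (hA4 : |A4 - α 3| ≤ 1)
    (ht1 : 100 * K * H ≤ t) (ht2 : t ≤ 200 * K * H) (hτ : |u + A2 + A4| ≤ K)
    (hl1 : 30 * K * H ≤ A2 ^ 2 + u * A2 + v) (hl2 : A2 ^ 2 + u * A2 + v ≤ 50 * K * H)
    (hb4 : |b4| ≤ κ * K * H ^ 3) (hb5 : |b5| ≤ κ * K * H ^ 4) :
    ∃ ρ1 ρ2 σ1 σ2 : ℝ, ρ1 < ρ2 ∧ σ1 < σ2 ∧
      ρ1 ^ 2 + u * ρ1 + v = 0 ∧ ρ2 ^ 2 + u * ρ2 + v = 0 ∧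
      σ1 ^ 2 + (u + 2) * σ1 + (v - t) = 0 ∧ σ2 ^ 2 + (u + 2) * σ2 + (v - t) = 0 ∧
      2 * ρ1 < t ∧ 2 * ρ2 < t ∧ 2 * σ1 < t ∧ 2 * σ2 < t ∧
      ∏ i, (ρ1 - α i) + b4 * ρ1 + b5 < 0 ∧ 0 < ∏ i, (ρ2 - α i) + b4 * ρ2 + b5 ∧
      0 < ∏ i, (σ1 - α i) + b4 * σ1 + b5 ∧ ∏ i, (σ2 - α i) + b4 * σ2 + b5 < 0 := by
  have hK0 : 0 < K := by linarith
  have hK3 : 1000 ≤ K ^ 3 := by
    have : (10 : ℝ) ^ 3 ≤ K ^ 3 := pow_le_pow_left₀ (by norm_num) hK 3
    linarith
  have hHK : 1000 * K ≤ H := by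
    have h1 : K ^ 4 = K ^ 3 * K := by ring
    have h2 : 1000 * K ≤ K ^ 3 * K := mul_le_mul_of_nonneg_right hK3 hK0.le
    linarith
  have hH0 : 10000 ≤ H := by linarith
  have hRp : 0 < R := by
    have h1 : 0 < c * R := by rw [hR]; linarith
    exact (mul_pos_iff_of_pos_left hc).1 h1
  have hR0 : 200 * K ≤ R := by
    have h1 : c * R ≤ 1 * R := mul_le_mul_of_nonneg_right hc1 hRp.le
    linarith
  have h01 := hg 0 1 (by decide)
  have h12 := hg 1 2 (by decide)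
  have h23 := hg 2 3 (by decide)
  have h34 := hg 3 4 (by decide)
  have hα1 := abs_le.1 (hα 1)
  have hα3 := abs_le.1 (hα 3)
  have hA2' := abs_le.1 hA2
  have hA4' := abs_le.1 hA4
  have hτ' := abs_le.1 hτ
  set τ := u + A2 + A4 with hτd
  set ℓ := A2 ^ 2 + u * A2 + v with hℓd
  set G := A4 - A2 with hG
  have hG1 : 2 * (c * H) - 2 ≤ G := by linarith
  have hG2 : G ≤ 2 * H + 2 := by linarith
  have hA2b : |A2| ≤ H + 1 := by rw [abs_le]; constructor <;> linarith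
  have hA4b : |A4| ≤ H + 1 := by rw [abs_le]; constructor <;> linarith
  have hA2b' := abs_le.1 hA2b
  have hA4b' := abs_le.1 hA4b
  -- the quadratics
  have hq1 : ∀ x, x ^ 2 + u * x + v = (x - A2) * (x - A2 - G) + ℓ + τ * (x - A2) := by
    intro x
    simp only [hℓd, hτd, hG]
    ring
  have hq2 : ∀ x, x ^ 2 + (u + 2) * x + (v - t) =
      (x - A2) * (x - A2 - G) + ℓ + τ * (x - A2) + 2 * x - t := by
    intro x
    simp only [hℓd, hτd, hG]
    ring
  have hcH : c * H ≤ H := by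
    have : c * H ≤ 1 * H := mul_le_mul_of_nonneg_right hc1 (by linarith)
    linarith
  have hRH : R + 1 ≤ H / 2 := by linarith
  have hcRH : c * R * H = 200 * K * H := by rw [hR]
  have P0 : 0 < K * K := mul_pos hK0 hK0
  have P1 : K * (1000 * K) ≤ K * H := mul_le_mul_of_nonneg_left hHK hK0.le
  have P2 : K * 10000 ≤ K * H := mul_le_mul_of_nonneg_left hH0 hK0.le
  have P3 : 10 * H ≤ K * H := mul_le_mul_of_nonneg_right hK (by linarith)
  have P4 : R * (K + 4) ≤ R * R := mul_le_mul_of_nonneg_left (by linarith) hRp.le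
  have Q1 : R / 2 * (R / 2 - G) ≤ R / 2 * (R / 2 - (2 * (c * H) - 2)) :=
    mul_le_mul_of_nonneg_left (by linarith) (by linarith)
  have Q2 : R * (R + (2 * (c * H) - 2)) ≤ R * (R + G) :=
    mul_le_mul_of_nonneg_left (by linarith) (by linarith)
  have Q3 : 10 * K * (10 * K - (2 * H + 2)) ≤ 10 * K * (10 * K - G) :=
    mul_le_mul_of_nonneg_left (by linarith) (by linarith)
  have Q4 : 10 * K * (10 * K + G) ≤ 10 * K * (10 * K + (2 * H + 2)) :=
    mul_le_mul_of_nonneg_left (by linarith) (by linarith)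
  have hT : ∀ y, 0 ≤ y → τ * y ≤ K * y ∧ -(K * y) ≤ τ * y := by
    intro y hy
    refine ⟨mul_le_mul_of_nonneg_right hτ'.2 hy, ?_⟩
    have := mul_le_mul_of_nonneg_right hτ'.1 hy
    linarith
  -- roots
  obtain ⟨ρ1, hρ1a, hρ1b, hρ1⟩ := geo_ivt (A2 + 10 * K) (A2 + R / 2) u v (by linarith) (by
    right
    constructor
    · rw [hq1]
      have e : (A2 + 10 * K - A2) * (A2 + 10 * K - A2 - G) + ℓ + τ * (A2 + 10 * K - A2) =
        10 * K * (10 * K - G) + ℓ + τ * (10 * K) := by ring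
      rw [e]
      have e2 := (hT (10 * K) (by linarith)).2
      linarith
    · rw [hq1]
      have e : (A2 + R / 2 - A2) * (A2 + R / 2 - A2 - G) + ℓ + τ * (A2 + R / 2 - A2) =
        R / 2 * (R / 2 - G) + ℓ + τ * (R / 2) := by ring
      rw [e]
      have e2 := (hT (R / 2) (by linarith)).1
      have e3 : R / 2 * (R / 2 + 2 + K) ≤ R / 2 * (c * H / 4 + c * H / 4 + c * H / 4) :=
        mul_le_mul_of_nonneg_left (by linarith) (by linarith)
      linarith)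
  obtain ⟨ρ2, hρ2a, hρ2b, hρ2⟩ := geo_ivt (A4 - R / 2) (A4 - 10 * K) u v (by linarith) (by
    left
    constructor
    · rw [hq1]
      have e : (A4 - R / 2 - A2) * (A4 - R / 2 - A2 - G) + ℓ + τ * (A4 - R / 2 - A2) =
        R / 2 * (R / 2 - G) + ℓ + τ * (G - R / 2) := by simp only [hG]; ring
      rw [e]
      have e0 : 0 ≤ G - R / 2 := by linarith
      have e2 := (hT (G - R / 2) e0).1
      have e4 : K * (G - R / 2) ≤ K * (2 * H + 2) :=
        mul_le_mul_of_nonneg_left (by linarith) hK0.le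
      have e3 : R / 2 * (R / 2 + 2) ≤ R / 2 * (c * H / 4 + c * H / 4) :=
        mul_le_mul_of_nonneg_left (by linarith) (by linarith)
      linarith
    · rw [hq1]
      have e : (A4 - 10 * K - A2) * (A4 - 10 * K - A2 - G) + ℓ + τ * (A4 - 10 * K - A2) =
        10 * K * (10 * K - G) + ℓ + τ * (G - 10 * K) := by simp only [hG]; ring
      rw [e]
      have e0 : 0 ≤ G - 10 * K := by linarith
      have e2 := (hT (G - 10 * K) e0).2
      have e4 : K * (G - 10 * K) ≤ K * (2 * H + 2) :=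
        mul_le_mul_of_nonneg_left (by linarith) hK0.le
      linarith)
  obtain ⟨σ1, hσ1a, hσ1b, hσ1⟩ := geo_ivt (A2 - R) (A2 - 10 * K) (u + 2) (v - t) (by linarith) (by
    right
    constructor
    · rw [hq2]
      have e : (A2 - R - A2) * (A2 - R - A2 - G) + ℓ + τ * (A2 - R - A2) + 2 * (A2 - R) - t =
        R * (R + G) + ℓ - τ * R + 2 * (A2 - R) - t := by ring
      rw [e]
      have e2 := (hT R hRp.le).1
      linarith
    · rw [hq2]
      have e : (A2 - 10 * K - A2) * (A2 - 10 * K - A2 - G) + ℓ + τ * (A2 - 10 * K - A2) +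
          2 * (A2 - 10 * K) - t =
        10 * K * (10 * K + G) + ℓ - τ * (10 * K) + 2 * (A2 - 10 * K) - t := by ring
      rw [e]
      have e2 := (hT (10 * K) (by linarith)).2
      linarith)
  obtain ⟨σ2, hσ2a, hσ2b, hσ2⟩ := geo_ivt (A4 + 10 * K) (A4 + R) (u + 2) (v - t) (by linarith) (by
    left
    constructor
    · rw [hq2]
      have e : (A4 + 10 * K - A2) * (A4 + 10 * K - A2 - G) + ℓ + τ * (A4 + 10 * K - A2) +
          2 * (A4 + 10 * K) - t =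
        10 * K * (10 * K + G) + ℓ + τ * (G + 10 * K) + 2 * (A4 + 10 * K) - t := by
          simp only [hG]; ring
      rw [e]
      have e0 : 0 ≤ G + 10 * K := by linarith
      have e2 := (hT (G + 10 * K) e0).1
      have e4 : K * (G + 10 * K) ≤ K * (2 * H + 2 + 10 * K) :=
        mul_le_mul_of_nonneg_left (by linarith) hK0.le
      linarith
    · rw [hq2]
      have e : (A4 + R - A2) * (A4 + R - A2 - G) + ℓ + τ * (A4 + R - A2) + 2 * (A4 + R) - t =
        R * (R + G) + ℓ + τ * (G + R) + 2 * (A4 + R) - t := by simp only [hG]; ring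
      rw [e]
      have e0 : 0 ≤ G + R := by linarith
      have e2 := (hT (G + R) e0).2
      have e4 : K * (G + R) ≤ K * (2 * H + 2 + R) :=
        mul_le_mul_of_nonneg_left (by linarith) hK0.le
      linarith)
  -- the perturbation
  have hE : ∀ x : ℝ, |x| ≤ 2 * H → |b4 * x + b5| ≤ c ^ 4 / 2 * (K * H ^ 4) := by
    intro x hx
    have hH1 : 0 ≤ H := by linarith
    have h1 : |b4 * x| ≤ κ * K * H ^ 3 * (2 * H) := by
      rw [abs_mul]
      exact mul_le_mul hb4 hx (abs_nonneg _) ((abs_nonneg _).trans hb4)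
    have h2 : |b4 * x + b5| ≤ κ * K * H ^ 3 * (2 * H) + κ * K * H ^ 4 :=
      (abs_add_le _ _).trans (add_le_add h1 hb5)
    have h3 : κ * K * H ^ 3 * (2 * H) + κ * K * H ^ 4 = 3 * κ * (K * H ^ 4) := by ring
    rw [h3] at h2
    refine h2.trans ?_
    exact mul_le_mul_of_nonneg_right (by linarith) (by positivity)
  set B := c * H / 2 with hB
  have hB0 : 0 < B := by positivity
  have hbig : c ^ 4 / 2 * (K * H ^ 4) < B ^ 4 * (9 * K) := by
    have e : B ^ 4 * (9 * K) = 9 / 16 * c ^ 4 * (K * H ^ 4) := by rw [hB]; ring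
    rw [e]
    have hp : 0 < c ^ 4 * (K * H ^ 4) := by positivity
    linarith
  have hR1' : R + 1 ≤ B := hR1
  have hB2 : c * H = 2 * B := by rw [hB]; ring
  rw [hB2] at h01 h12 h23 h34
  have hmK : (0 : ℝ) ≤ 9 * K := by linarith
  have hρ1x : |ρ1| ≤ 2 * H := by rw [abs_le]; constructor <;> linarith
  have hρ2x : |ρ2| ≤ 2 * H := by rw [abs_le]; constructor <;> linarith
  have hσ1x : |σ1| ≤ 2 * H := by rw [abs_le]; constructor <;> linarith
  have hσ2x : |σ2| ≤ 2 * H := by rw [abs_le]; constructor <;> linarith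
  have htH : 1000 * H ≤ t := by linarith
  refine ⟨ρ1, ρ2, σ1, σ2, by linarith, by linarith, hρ1, hρ2, hσ1, hσ2, ?_, ?_, ?_, ?_, ?_, ?_,
    ?_, ?_⟩
  · have := (abs_le.1 hρ1x).2; linarith
  · have := (abs_le.1 hρ2x).2; linarith
  · have := (abs_le.1 hσ1x).2; linarith
  · have := (abs_le.1 hσ2x).2; linarith
  · have h1 := geo_prod (a := ρ1 - α 0) (b := α 2 - ρ1) (c := α 3 - ρ1) (d := α 4 - ρ1)
      (e := ρ1 - α 1) hB0.le hmK (by linarith) (by linarith) (by linarith) (by linarith)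
      (by linarith)
    have h2 := abs_le.1 (hE ρ1 hρ1x)
    have h3 : ∏ i, (ρ1 - α i) =
        -((ρ1 - α 0) * (α 2 - ρ1) * (α 3 - ρ1) * (α 4 - ρ1) * (ρ1 - α 1)) := by
      rw [Fin.prod_univ_five]; ring
    rw [h3]
    linarith
  · have h1 := geo_prod (a := ρ2 - α 0) (b := ρ2 - α 1) (c := ρ2 - α 2) (d := α 4 - ρ2)
      (e := α 3 - ρ2) hB0.le hmK (by linarith) (by linarith) (by linarith) (by linarith)
      (by linarith)
    have h2 := abs_le.1 (hE ρ2 hρ2x)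
    have h3 : ∏ i, (ρ2 - α i) =
        ((ρ2 - α 0) * (ρ2 - α 1) * (ρ2 - α 2) * (α 4 - ρ2) * (α 3 - ρ2)) := by
      rw [Fin.prod_univ_five]; ring
    rw [h3]
    linarith
  · have h1 := geo_prod (a := σ1 - α 0) (b := α 2 - σ1) (c := α 3 - σ1) (d := α 4 - σ1)
      (e := α 1 - σ1) hB0.le hmK (by linarith) (by linarith) (by linarith) (by linarith)
      (by linarith)
    have h2 := abs_le.1 (hE σ1 hσ1x)
    have h3 : ∏ i, (σ1 - α i) =
        ((σ1 - α 0) * (α 2 - σ1) * (α 3 - σ1) * (α 4 - σ1) * (α 1 - σ1)) := by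
      rw [Fin.prod_univ_five]; ring
    rw [h3]
    linarith
  · have h1 := geo_prod (a := σ2 - α 0) (b := σ2 - α 1) (c := σ2 - α 2) (d := α 4 - σ2)
      (e := σ2 - α 3) hB0.le hmK (by linarith) (by linarith) (by linarith) (by linarith)
      (by linarith)
    have h2 := abs_le.1 (hE σ2 hσ2x)
    have h3 : ∏ i, (σ2 - α i) =
        -((σ2 - α 0) * (σ2 - α 1) * (σ2 - α 2) * (α 4 - σ2) * (σ2 - α 3)) := by
      rw [Fin.prod_univ_five]; ring
    rw [h3]
    linarith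

/-- sign changes of the linear factor between the roots of the quadratic -/
theorem geo_neg (r1 r2 : ℝ) (m n u v : ℤ) (h12 : r1 < r2) (h1 : r1 ^ 2 + u * r1 + v = 0)
    (h2 : r2 ^ 2 + u * r2 + v = 0) (hg1 : m * r1 + n < 0) (hg2 : 0 < m * r2 + n) :
    0 < m ∧ n ^ 2 - u * n * m + v * m ^ 2 < 0 := by
  have hm : (0 : ℝ) < m := by
    by_contra hcon
    push Not at hcon
    nlinarith
  refine ⟨by exact_mod_cast hm, ?_⟩
  have hs : r1 + r2 + u = 0 := by
    have h3 : (r1 - r2) * (r1 + r2 + u) = 0 := by ring_nf; linarith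
    rcases mul_eq_zero.1 h3 with h | h
    · linarith
    · exact h
  have hu : (u : ℝ) = -(r1 + r2) := by linarith
  have hv : (v : ℝ) = r1 * r2 := by
    rw [hu] at h1
    linarith
  have h5 : (m * r1 + n) * (m * r2 + n) < 0 := mul_neg_of_neg_of_pos hg1 hg2
  have h6 : ((n ^ 2 - u * n * m + v * m ^ 2 : ℤ) : ℝ) = (m * r1 + n) * (m * r2 + n) := by
    push_cast
    rw [hu, hv]
    ring
  have h7 : ((n ^ 2 - u * n * m + v * m ^ 2 : ℤ) : ℝ) < 0 := by rw [h6]; exact h5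
  exact_mod_cast h7

/-- `κ` depends only on the gap parameter `c` -/
theorem geo (c : ℝ) (hc : 0 < c) : ∃ κ : ℝ, 0 < κ ∧ κ ≤ 1 ∧ ∃ K1 : ℕ, ∀ K H : ℕ, K1 ≤ K → K ^ 4 ≤ H →
    ∀ α : Fin 5 → ℝ, (∀ i, |α i| ≤ H) → (∀ i j : Fin 5, i < j → c * H ≤ α j - α i) →
    ∀ A2 A4 : ℤ, |(A2 : ℝ) - α 1| ≤ 1 → |(A4 : ℝ) - α 3| ≤ 1 →
    ∀ t u v : ℤ, InFam K H A2 A4 t u v →
    ∀ a : Fin 5 → ℤ, ∀ b4 b5 : ℝ, |b4| ≤ κ * K * H ^ 3 → |b5| ≤ κ * K * H ^ 4 →
    (∀ x : ℝ, x ^ 5 + a 0 * x ^ 4 + a 1 * x ^ 3 + a 2 * x ^ 2 + a 3 * x + a 4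
      = ∏ i, (x - α i) + b4 * x + b5) →
    Dd t u v ∣ t ^ 5 + 2 * a 0 * t ^ 4 + 4 * a 1 * t ^ 3 + 8 * a 2 * t ^ 2 + 16 * a 3 * t + 32 * a 4 →
    Good (quint a) := by
  obtain ⟨N, hN⟩ := exists_nat_ge (2 * (200 / c + 1) / c)
  refine ⟨min 1 (c ^ 4 / 6), by positivity, min_le_left _ _, N + 10, ?_⟩
  intro K H hK hKH α hα hg A2 A4 hA2 hA4 t u v hfam a b4 b5 hb4 hb5 hP hdvd
  obtain ⟨ht, ht1, ht2, hu, hτ, hl1, hl2⟩ := hfam
  have hKr : ((N + 10 : ℕ) : ℝ) ≤ K := by exact_mod_cast hK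
  push_cast at hKr
  have hN0 : (0 : ℝ) ≤ N := Nat.cast_nonneg N
  have hK10 : (10 : ℝ) ≤ K := by linarith
  have hHr : (K : ℝ) ^ 4 ≤ H := by exact_mod_cast hKH
  have hK4 : (1 : ℝ) ≤ (K : ℝ) ^ 4 := one_le_pow₀ (by linarith)
  have hHpos : (0 : ℝ) < H := by linarith
  have hc1 : c ≤ 1 := by
    have h1 := hg 0 1 (by decide)
    have h2 := hg 1 2 (by decide)
    have h3 := (abs_le.1 (hα 0)).1
    have h4 := (abs_le.1 (hα 2)).2
    by_contra hcon
    push Not at hcon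
    have h5 : 1 * (H : ℝ) < c * H := mul_lt_mul_of_pos_right hcon hHpos
    linarith
  have hR1 : 200 * (K : ℝ) / c + 1 ≤ c * H / 2 := by
    have h1 : 2 * (200 / c + 1) / c ≤ K := by linarith
    rw [div_le_iff₀ hc] at h1
    have h2 : 200 * (K : ℝ) / c + 1 ≤ (200 / c + 1) * K := by
      have : 200 * (K : ℝ) / c = 200 / c * K := by ring
      rw [this]
      linarith
    have h3 : (K : ℝ) * K ≤ K ^ 4 := by
      have : (K : ℝ) ^ 4 = K * K * (K * K) := by ring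
      rw [this]
      have h6 : (1 : ℝ) ≤ K * K := by nlinarith only [hK10]
      have h7 : (0 : ℝ) ≤ K * K := by linarith
      calc (K : ℝ) * K = K * K * 1 := by ring
        _ ≤ K * K * (K * K) := mul_le_mul_of_nonneg_left h6 h7
    calc 200 * (K : ℝ) / c + 1 ≤ (200 / c + 1) * K := h2
      _ ≤ (K * c / 2) * K := mul_le_mul_of_nonneg_right (by linarith) (by linarith)
      _ = c * (K * K) / 2 := by ring
      _ ≤ c * H / 2 := by
        have h8 : c * ((K : ℝ) * K) ≤ c * H := mul_le_mul_of_nonneg_left (h3.trans hHr) hc.le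
        linarith
  have e1 : (100 * (K : ℝ) * H) ≤ (t : ℝ) := by exact_mod_cast ht1
  have e2 : (t : ℝ) ≤ 200 * (K : ℝ) * H := by exact_mod_cast ht2.le
  have e3 : |(u : ℝ) + A2 + A4| ≤ K := by exact_mod_cast hτ
  have e4 : 30 * (K : ℝ) * H ≤ (A2 : ℝ) ^ 2 + u * A2 + v := by exact_mod_cast hl1
  have e5 : (A2 : ℝ) ^ 2 + u * A2 + v ≤ 50 * (K : ℝ) * H := by exact_mod_cast hl2
  obtain ⟨ρ1, ρ2, σ1, σ2, hρ, hσ, f1, f2, f3, f4, g1, g2, g3, g4, s1, s2, s3, s4⟩ :=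
    geo_core c (min 1 (c ^ 4 / 6)) K H (200 * K / c) hc hc1 (min_le_right _ _) hK10 hHr
      (by field_simp) hR1 α hα hg A2 A4 t u v b4 b5 hA2 hA4 e1 e2 e3 e4 e5 hb4 hb5
  obtain ⟨d, m1, n1, m2, n2, hdec⟩ := div_decomp a t u v ht hdvd
  have hev : ∀ x : ℝ, ∏ i, (x - α i) + b4 * x + b5 =
      (x - d) * (x ^ 2 + u * x + v) * (x ^ 2 + (u + 2) * x + (v - t)) -
        (m1 * x + n1) * (x ^ 2 + (u + 2) * x + (v - t)) -
        (m2 * x + n2) * (x ^ 2 + u * x + v) := by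
    intro x
    rw [← hP x]
    have h := congrArg (aeval x) hdec
    simp only [quint, quad, lin, map_add, map_sub, map_mul, map_pow, aeval_X, eq_intCast,
      map_intCast, map_ofNat] at h
    exact h
  have k1 : m1 * ρ1 + n1 < 0 := by
    have h := hev ρ1
    rw [f1] at h
    have h' : ρ1 ^ 2 + ((u : ℝ) + 2) * ρ1 + (v - t) = 2 * ρ1 - t := by linarith
    rw [h'] at h
    rw [h] at s1
    by_contra hcon
    push Not at hcon
    have h5 := mul_nonneg hcon (sub_nonneg.2 g1.le)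
    linarith
  have k2 : 0 < m1 * ρ2 + n1 := by
    have h := hev ρ2
    rw [f2] at h
    have h' : ρ2 ^ 2 + ((u : ℝ) + 2) * ρ2 + (v - t) = 2 * ρ2 - t := by linarith
    rw [h'] at h
    rw [h] at s2
    by_contra hcon
    push Not at hcon
    have h5 := mul_nonneg (neg_nonneg.2 hcon) (sub_nonneg.2 g2.le)
    linarith
  have k3 : m2 * σ1 + n2 < 0 := by
    have h := hev σ1
    rw [f3] at h
    have h' : σ1 ^ 2 + (u : ℝ) * σ1 + v = t - 2 * σ1 := by linarith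
    rw [h'] at h
    rw [h] at s3
    by_contra hcon
    push Not at hcon
    have h5 := mul_nonneg hcon (sub_nonneg.2 g3.le)
    linarith
  have k4 : 0 < m2 * σ2 + n2 := by
    have h := hev σ2
    rw [f4] at h
    have h' : σ2 ^ 2 + (u : ℝ) * σ2 + v = t - 2 * σ2 := by linarith
    rw [h'] at h
    rw [h] at s4
    by_contra hcon
    push Not at hcon
    have h5 := mul_nonneg (neg_nonneg.2 hcon) (sub_nonneg.2 g4.le)
    linarith
  obtain ⟨p1, p2⟩ := geo_neg ρ1 ρ2 m1 n1 u v hρ f1 f2 k1 k2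
  obtain ⟨p3, p4⟩ := geo_neg σ1 σ2 m2 n2 (u + 2) (v - t) hσ (by push_cast; exact f3)
    (by push_cast; exact f4) k3 k4
  exact ⟨u, v, u + 2, v - t, d, m1, n1, m2, n2, hu, hu.add_even (by decide), p1, p3, p2, p4, hdec⟩

end Helper6.QS
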