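import Pool.Agent.Helper6.QS.Deg

/-! QS-18: lower bound for the number of members of `TR H`. -/

set_option autoImplicit false
namespace Helper6.QS

open Polynomial

/-- the real function of a coefficient vector -/
private noncomputable def pf (a : Fin 5 → ℤ) (x : ℝ) : ℝ :=
  x ^ 5 + a 0 * x ^ 4 + a 1 * x ^ 3 + a 2 * x ^ 2 + a 3 * x + a 4

private lemma pf_cont (a : Fin 5 → ℤ) : Continuous (pf a) := by
  unfold pf; fun_prop

/-- a monic quintic with five increasing roots is the product of the linear factors -/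
private lemma hasRts_of (a : Fin 5 → ℤ) (α : Fin 5 → ℝ) (hα : StrictMono α) (h0 : ∀ i, pf a (α i) = 0) :
    HasRts a α := by
  classical
  set P : ℝ[X] := X ^ 5 + C (a 0 : ℝ) * X ^ 4 + C (a 1 : ℝ) * X ^ 3 + C (a 2 : ℝ) * X ^ 2 + C (a 3 : ℝ) * X +
    C (a 4 : ℝ) with hP
  set Q : ℝ[X] := ∏ i, (X - C (α i)) with hQ
  have hPe : ∀ x, P.eval x = pf a x := by
    intro x; simp [hP, pf]
  have hPd : P.natDegree = 5 := by rw [hP]; compute_degree!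
  have hPm : P.Monic := by rw [hP]; monicity!
  have hQm : Q.Monic := monic_prod_of_monic _ _ (fun i _ => monic_X_sub_C _)
  have hQd : Q.natDegree = 5 := by
    rw [hQ, natDegree_prod_of_monic _ _ (fun i _ => monic_X_sub_C _)]
    simp
  have hP0 : P ≠ 0 := hPm.ne_zero
  have hQ0 : Q ≠ 0 := hQm.ne_zero
  have hdeg : P.degree = Q.degree := by
    rw [degree_eq_natDegree hP0, degree_eq_natDegree hQ0, hPd, hQd]
  have hlt : (P - Q).degree < P.degree :=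
    degree_sub_lt_left hdeg hP0 (by rw [hPm.leadingCoeff, hQm.leadingCoeff])
  have hPQ : P = Q := by
    refine Polynomial.eq_of_degree_sub_lt_of_eval_finset_eq (Finset.univ.image α) ?_ ?_
    · rw [Finset.card_image_of_injective _ hα.injective]
      rw [degree_eq_natDegree hP0, hPd] at hlt
      simpa using hlt
    · intro x hx
      obtain ⟨i, -, rfl⟩ := Finset.mem_image.1 hx
      rw [hPe, h0 i, hQ, eval_prod]
      symm
      exact Finset.prod_eq_zero (Finset.mem_univ i) (by simp)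
  intro x
  have := congrArg (fun R : ℝ[X] => R.eval x) hPQ
  simp only [hPe] at this
  rw [pf] at this
  rw [this, hQ, eval_prod]
  simp

private lemma ivt_up (a : Fin 5 → ℤ) {x y : ℝ} (hxy : x < y) (hx : pf a x < 0) (hy : 0 < pf a y) :
    ∃ z, x < z ∧ z < y ∧ pf a z = 0 := by
  obtain ⟨z, hz, hz0⟩ := intermediate_value_Ioo hxy.le (pf_cont a).continuousOn (show (0:ℝ) ∈ Set.Ioo _ _ from ⟨hx, hy⟩)
  exact ⟨z, hz.1, hz.2, hz0⟩

private lemma ivt_dn (a : Fin 5 → ℤ) {x y : ℝ} (hxy : x < y) (hx : 0 < pf a x) (hy : pf a y < 0) :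
    ∃ z, x < z ∧ z < y ∧ pf a z = 0 := by
  obtain ⟨z, hz, hz0⟩ := intermediate_value_Ioo' hxy.le (pf_cont a).continuousOn (show (0:ℝ) ∈ Set.Ioo _ _ from ⟨hy, hx⟩)
  exact ⟨z, hz.1, hz.2, hz0⟩

/-- the error of the value at `ξ H` -/
private lemma err (a : Fin 5 → ℤ) (H : ℝ) (hH : 0 < H) (h0 : |(a 0 : ℝ)| ≤ H / 500)
    (h1 : |(a 1 : ℝ) + 13 / 16 * H ^ 2| ≤ H ^ 2 / 500) (h2 : |(a 2 : ℝ)| ≤ H ^ 3 / 500)
    (h3 : |(a 3 : ℝ) - 9 / 64 * H ^ 4| ≤ H ^ 4 / 500) (h4 : |(a 4 : ℝ)| ≤ H ^ 5 / 500) (ξ : ℝ) (hξ : |ξ| ≤ 1) :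
    |pf a (ξ * H) - (ξ ^ 5 - 13 / 16 * ξ ^ 3 + 9 / 64 * ξ) * H ^ 5| ≤ H ^ 5 / 100 := by
  have e : pf a (ξ * H) - (ξ ^ 5 - 13 / 16 * ξ ^ 3 + 9 / 64 * ξ) * H ^ 5 =
      (a 0 : ℝ) * H ^ 4 * ξ ^ 4 + ((a 1 : ℝ) + 13 / 16 * H ^ 2) * H ^ 3 * ξ ^ 3 + (a 2 : ℝ) * H ^ 2 * ξ ^ 2 +
        ((a 3 : ℝ) - 9 / 64 * H ^ 4) * H * ξ + (a 4 : ℝ) := by
    unfold pf; ring
  rw [e]
  have hp : ∀ n : ℕ, |ξ ^ n| ≤ 1 := fun n => by
    rw [abs_pow]; exact pow_le_one₀ (abs_nonneg _) hξ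
  have t0 : |(a 0 : ℝ) * H ^ 4 * ξ ^ 4| ≤ H ^ 5 / 500 := by
    rw [abs_mul, abs_mul, abs_of_pos (pow_pos hH 4)]
    calc |(a 0 : ℝ)| * H ^ 4 * |ξ ^ 4| ≤ H / 500 * H ^ 4 * 1 := by
          gcongr; exact hp 4
      _ = H ^ 5 / 500 := by ring
  have t1 : |((a 1 : ℝ) + 13 / 16 * H ^ 2) * H ^ 3 * ξ ^ 3| ≤ H ^ 5 / 500 := by
    rw [abs_mul, abs_mul, abs_of_pos (pow_pos hH 3)]
    calc |(a 1 : ℝ) + 13 / 16 * H ^ 2| * H ^ 3 * |ξ ^ 3| ≤ H ^ 2 / 500 * H ^ 3 * 1 := by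
          gcongr; exact hp 3
      _ = H ^ 5 / 500 := by ring
  have t2 : |(a 2 : ℝ) * H ^ 2 * ξ ^ 2| ≤ H ^ 5 / 500 := by
    rw [abs_mul, abs_mul, abs_of_pos (pow_pos hH 2)]
    calc |(a 2 : ℝ)| * H ^ 2 * |ξ ^ 2| ≤ H ^ 3 / 500 * H ^ 2 * 1 := by
          gcongr; exact hp 2
      _ = H ^ 5 / 500 := by ring
  have t3 : |((a 3 : ℝ) - 9 / 64 * H ^ 4) * H * ξ| ≤ H ^ 5 / 500 := by
    rw [abs_mul, abs_mul, abs_of_pos hH]
    calc |(a 3 : ℝ) - 9 / 64 * H ^ 4| * H * |ξ| ≤ H ^ 4 / 500 * H * 1 := by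
          gcongr
      _ = H ^ 5 / 500 := by ring
  have := abs_add_le ((a 0 : ℝ) * H ^ 4 * ξ ^ 4 + ((a 1 : ℝ) + 13 / 16 * H ^ 2) * H ^ 3 * ξ ^ 3 +
    (a 2 : ℝ) * H ^ 2 * ξ ^ 2 + ((a 3 : ℝ) - 9 / 64 * H ^ 4) * H * ξ) (a 4 : ℝ)
  have := abs_add_le ((a 0 : ℝ) * H ^ 4 * ξ ^ 4 + ((a 1 : ℝ) + 13 / 16 * H ^ 2) * H ^ 3 * ξ ^ 3 +
    (a 2 : ℝ) * H ^ 2 * ξ ^ 2) (((a 3 : ℝ) - 9 / 64 * H ^ 4) * H * ξ)
  have := abs_add_le ((a 0 : ℝ) * H ^ 4 * ξ ^ 4 + ((a 1 : ℝ) + 13 / 16 * H ^ 2) * H ^ 3 * ξ ^ 3)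
    ((a 2 : ℝ) * H ^ 2 * ξ ^ 2)
  have := abs_add_le ((a 0 : ℝ) * H ^ 4 * ξ ^ 4) (((a 1 : ℝ) + 13 / 16 * H ^ 2) * H ^ 3 * ξ ^ 3)
  linarith

private lemma mem_TR_of (a : Fin 5 → ℤ) (H : ℕ) (hH : (0:ℝ) < H) (h0 : |(a 0 : ℝ)| ≤ (H:ℝ) / 500)
    (h1 : |(a 1 : ℝ) + 13 / 16 * (H:ℝ) ^ 2| ≤ (H:ℝ) ^ 2 / 500) (h2 : |(a 2 : ℝ)| ≤ (H:ℝ) ^ 3 / 500)
    (h3 : |(a 3 : ℝ) - 9 / 64 * (H:ℝ) ^ 4| ≤ (H:ℝ) ^ 4 / 500) (h4 : |(a 4 : ℝ)| ≤ (H:ℝ) ^ 5 / 500) :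
    a ∈ TR H := by
  have hE := err a H hH h0 h1 h2 h3 h4
  have h5 : (0:ℝ) < (H:ℝ) ^ 5 := pow_pos hH 5
  have v1 := abs_le.1 (hE (-1) (by norm_num))
  have v2 := abs_le.1 (hE (-(3/5)) (by rw [abs_neg, abs_of_pos] <;> norm_num))
  have v3 := abs_le.1 (hE (-(1/4)) (by rw [abs_neg, abs_of_pos] <;> norm_num))
  have v4 := abs_le.1 (hE (1/4) (by rw [abs_of_pos] <;> norm_num))
  have v5 := abs_le.1 (hE (3/5) (by rw [abs_of_pos] <;> norm_num))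
  have v6 := abs_le.1 (hE 1 (by norm_num))
  norm_num at v1 v2 v3 v4 v5 v6
  have s1 : pf a (-(H:ℝ)) < 0 := by linarith [v1.2]
  have s2 : 0 < pf a (-(3/5 * (H:ℝ))) := by linarith [v2.1]
  have s3 : pf a (-(1/4 * (H:ℝ))) < 0 := by linarith [v3.2]
  have s4 : 0 < pf a (1/4 * (H:ℝ)) := by linarith [v4.1]
  have s5 : pf a (3/5 * (H:ℝ)) < 0 := by linarith [v5.2]
  have s6 : 0 < pf a (H:ℝ) := by linarith [v6.1]
  obtain ⟨z0, a0, b0, e0⟩ := ivt_up a (by linarith) s1 s2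
  obtain ⟨z1, a1, b1, e1⟩ := ivt_dn a (by linarith) s2 s3
  obtain ⟨z2, a2, b2, e2⟩ := ivt_up a (by linarith) s3 s4
  obtain ⟨z3, a3, b3, e3⟩ := ivt_dn a (by linarith) s4 s5
  obtain ⟨z4, a4, b4, e4⟩ := ivt_up a (by linarith) s5 s6
  have hm : StrictMono ![z0, z1, z2, z3, z4] := by
    rw [Fin.strictMono_iff_lt_succ]
    intro i
    fin_cases i
    · show z0 < z1; linarith
    · show z1 < z2; linarith
    · show z2 < z3; linarith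
    · show z3 < z4; linarith
  refine ⟨![z0, z1, z2, z3, z4], hm, ?_, hasRts_of a _ hm ?_⟩
  · intro i
    fin_cases i
    · show |z0| ≤ H; exact abs_le.2 ⟨by linarith, by linarith⟩
    · show |z1| ≤ H; exact abs_le.2 ⟨by linarith, by linarith⟩
    · show |z2| ≤ H; exact abs_le.2 ⟨by linarith, by linarith⟩
    · show |z3| ≤ H; exact abs_le.2 ⟨by linarith, by linarith⟩
    · show |z4| ≤ H; exact abs_le.2 ⟨by linarith, by linarith⟩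
  · intro i
    fin_cases i
    · exact e0
    · exact e1
    · exact e2
    · exact e3
    · exact e4

/-- the leading coefficients -/
private noncomputable def cc : Fin 5 → ℝ := ![0, -(13/16), 0, 9/64, 0]

theorem TR_lower : ∃ c : ℝ, 0 < c ∧ ∃ H0 : ℕ, ∀ H : ℕ, H0 ≤ H → c * (H : ℝ) ^ 15 ≤ ((TR H).ncard : ℝ) := by
  classical
  refine ⟨1 / 10 ^ 15, by positivity, 1000, fun H hH => ?_⟩
  have hH' : (1000:ℝ) ≤ H := by exact_mod_cast hH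
  have hH0 : (0:ℝ) < H := by linarith
  set N : Fin 5 → ℕ := fun i => H ^ ((i:ℕ) + 1) / 1000 with hN
  set c : Fin 5 → ℤ := fun i => ⌊cc i * (H:ℝ) ^ ((i:ℕ) + 1)⌋ with hc
  set S : Finset (Fin 5 → ℤ) := Fintype.piFinset (fun i => Finset.Icc (c i) (c i + N i)) with hS
  have hpow : ∀ n : ℕ, (1000:ℝ) ≤ (H:ℝ) ^ (n + 1) := by
    intro n
    calc (1000:ℝ) ≤ H := hH'
      _ = (H:ℝ) ^ 1 := (pow_one _).symm
      _ ≤ (H:ℝ) ^ (n + 1) := pow_le_pow_right₀ (by linarith) (by omega)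
  have hNle : ∀ i : Fin 5, (N i : ℝ) ≤ (H:ℝ) ^ ((i:ℕ) + 1) / 1000 := by
    intro i
    have := @Nat.cast_div_le ℝ _ _ _ (H ^ ((i:ℕ) + 1)) 1000
    push_cast at this
    exact this
  have hNge : ∀ i : Fin 5, (H:ℝ) ^ ((i:ℕ) + 1) / 1000 ≤ (N i : ℝ) + 1 := by
    intro i
    have h1 : H ^ ((i:ℕ) + 1) < 1000 * (H ^ ((i:ℕ) + 1) / 1000 + 1) := by
      have := Nat.div_add_mod (H ^ ((i:ℕ) + 1)) 1000
      have := Nat.mod_lt (H ^ ((i:ℕ) + 1)) (show 0 < 1000 by norm_num)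
      omega
    have h2 : ((H ^ ((i:ℕ) + 1) : ℕ) : ℝ) < ((1000 * (H ^ ((i:ℕ) + 1) / 1000 + 1) : ℕ) : ℝ) := by exact_mod_cast h1
    simp only [hN]
    rw [div_le_iff₀ (by norm_num)]
    push_cast at h2 ⊢
    linarith
  have hsub : ((S : Finset (Fin 5 → ℤ)) : Set (Fin 5 → ℤ)) ⊆ TR H := by
    intro a ha
    have ha' : ∀ i, c i ≤ a i ∧ a i ≤ c i + N i := by
      intro i
      have := Fintype.mem_piFinset.1 (Finset.mem_coe.1 ha) i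
      exact Finset.mem_Icc.1 this
    have key : ∀ i, |(a i : ℝ) - cc i * (H:ℝ) ^ ((i:ℕ) + 1)| ≤ (H:ℝ) ^ ((i:ℕ) + 1) / 500 := by
      intro i
      have f1 := Int.floor_le (cc i * (H:ℝ) ^ ((i:ℕ) + 1))
      have f2 := Int.lt_floor_add_one (cc i * (H:ℝ) ^ ((i:ℕ) + 1))
      have g1 : ((c i : ℤ) : ℝ) ≤ (a i : ℝ) := by exact_mod_cast (ha' i).1
      have g2 : (a i : ℝ) ≤ ((c i : ℤ) : ℝ) + (N i : ℝ) := by exact_mod_cast (ha' i).2
      have g3 := hpow i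
      have g4 := hNle i
      simp only [hc] at g1 g2
      rw [abs_le]
      constructor <;> linarith
    have k0 := key 0
    have k1 := key 1
    have k2 := key 2
    have k3 := key 3
    have k4 := key 4
    refine mem_TR_of a H hH0 ?_ ?_ ?_ ?_ ?_
    · have : cc 0 = 0 := rfl
      rw [this] at k0
      simpa using k0
    · have : cc 1 = -(13/16) := rfl
      rw [this] at k1
      have e : (((1 : Fin 5) : ℕ) + 1) = 2 := rfl
      rw [e] at k1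
      convert k1 using 2
      ring
    · have : cc 2 = 0 := rfl
      rw [this] at k2
      have e : (((2 : Fin 5) : ℕ) + 1) = 3 := rfl
      rw [e] at k2
      simpa using k2
    · have : cc 3 = 9/64 := rfl
      rw [this] at k3
      have e : (((3 : Fin 5) : ℕ) + 1) = 4 := rfl
      rw [e] at k3
      exact k3
    · have : cc 4 = 0 := rfl
      rw [this] at k4
      have e : (((4 : Fin 5) : ℕ) + 1) = 5 := rfl
      rw [e] at k4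
      simpa using k4
  have hcard : (S.card : ℝ) = ∏ i, ((N i : ℝ) + 1) := by
    rw [hS, Fintype.card_piFinset]
    push_cast
    refine Finset.prod_congr rfl fun i _ => ?_
    rw [Int.card_Icc]
    have : (c i + (N i : ℤ) + 1 - c i).toNat = N i + 1 := by omega
    rw [this]
    push_cast
    rfl
  have hle : S.card ≤ (TR H).ncard := by
    rw [← Set.ncard_coe_finset]
    exact Set.ncard_le_ncard hsub (TR_finite H)
  have hprod : 1 / 10 ^ 15 * (H:ℝ) ^ 15 ≤ ∏ i : Fin 5, ((N i : ℝ) + 1) := by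
    calc 1 / 10 ^ 15 * (H:ℝ) ^ 15 = ∏ i : Fin 5, ((H:ℝ) ^ ((i:ℕ) + 1) / 1000) := by
          rw [Fin.prod_univ_five]
          simp only [Fin.val_zero, Fin.val_one, Fin.val_two]
          have e3 : ((3 : Fin 5) : ℕ) = 3 := rfl
          have e4 : ((4 : Fin 5) : ℕ) = 4 := rfl
          rw [e3, e4]
          ring
      _ ≤ _ := Finset.prod_le_prod (fun i _ => by positivity) (fun i _ => hNge i)
  calc 1 / 10 ^ 15 * (H:ℝ) ^ 15 ≤ ∏ i : Fin 5, ((N i : ℝ) + 1) := hprod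
    _ = (S.card : ℝ) := hcard.symm
    _ ≤ ((TR H).ncard : ℝ) := by exact_mod_cast hle

end Helper6.QS
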