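import Pool.Agent.Helper6.QS.CN
import Pool.Agent.Helper6.QS.Geo
import Pool.Agent.Helper6.QS.Low

/-! QS: the members of `TG c H` which are not `Good` are few. -/

set_option autoImplicit false
open Polynomial
namespace Helper6.QS

theorem near_int (x h : ℝ) (hx : |x| ≤ h) : ∃ A : ℤ, |(A : ℝ)| ≤ h ∧ |(A : ℝ) - x| ≤ 1 := by
  rcases le_total 0 x with h0 | h0
  · refine ⟨⌊x⌋, ?_, ?_⟩
    · rw [abs_of_nonneg (by exact_mod_cast Int.floor_nonneg.2 h0)]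
      rw [abs_of_nonneg h0] at hx
      exact (Int.floor_le x).trans hx
    · rw [abs_le]
      constructor
      · linarith [Int.lt_floor_add_one x]
      · linarith [Int.floor_le x]
  · refine ⟨⌈x⌉, ?_, ?_⟩
    · have : (⌈x⌉ : ℝ) ≤ 0 := by exact_mod_cast Int.ceil_le.2 (by simpa using h0)
      rw [abs_of_nonpos this]
      rw [abs_of_nonpos h0] at hx
      linarith [Int.le_ceil x]
    · rw [abs_le]
      constructor
      · linarith [Int.le_ceil x]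
      · linarith [Int.ceil_lt_add_one x]

/-- the cell index -/
noncomputable def cell (L4 L5 : ℕ) (a : Fin 5 → ℤ) : ℤ × ℤ × ℤ × ℤ × ℤ :=
  (a 0, a 1, a 2, a 3 / L4, a 4 / L5)

/-- the set of cell indices -/
noncomputable def cells (H L4 L5 : ℕ) : Finset (ℤ × ℤ × ℤ × ℤ × ℤ) :=
  Finset.Icc (-(5 * H : ℤ)) (5 * H) ×ˢ Finset.Icc (-(10 * H ^ 2 : ℤ)) (10 * H ^ 2) ×ˢ
    Finset.Icc (-(10 * H ^ 3 : ℤ)) (10 * H ^ 3) ×ˢ
    Finset.Icc (-(5 * H ^ 4 / L4 + 1 : ℤ)) (5 * H ^ 4 / L4 + 1) ×ˢ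
    Finset.Icc (-(H ^ 5 / L5 + 1 : ℤ)) (H ^ 5 / L5 + 1)

theorem div_mem {a B L : ℤ} (hL : 0 < L) (h : |a| ≤ B) : a / L ∈ Finset.Icc (-(B / L + 1)) (B / L + 1) := by
  rw [abs_le] at h
  rw [Finset.mem_Icc]
  have hB : 0 ≤ B := by linarith [h.1, h.2]
  constructor
  · have h1 : (-B) / L ≤ a / L := Int.ediv_le_ediv hL h.1
    have h2 : -(B / L + 1) ≤ (-B) / L := by
      rw [Int.le_ediv_iff_mul_le hL]
      have := Int.lt_ediv_add_one_mul_self B hL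
      nlinarith
    linarith
  · have h1 : a / L ≤ B / L := Int.ediv_le_ediv hL h.2
    linarith

theorem cell_mem {H L4 L5 : ℕ} (h4 : 0 < L4) (h5 : 0 < L5) {a : Fin 5 → ℤ} (ha : a ∈ TR H) :
    cell L4 L5 a ∈ cells H L4 L5 := by
  obtain ⟨b0, b1, b2, b3, b4⟩ := TR_bounds ha
  unfold cell cells
  simp only [Finset.mem_product]
  refine ⟨?_, ?_, ?_, ?_, ?_⟩
  · rw [Finset.mem_Icc]; rw [abs_le] at b0; exact b0
  · rw [Finset.mem_Icc]; rw [abs_le] at b1; exact b1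
  · rw [Finset.mem_Icc]; rw [abs_le] at b2; exact b2
  · exact div_mem (by exact_mod_cast h4) b3
  · exact div_mem (by exact_mod_cast h5) b4

theorem card_Icc_sym (n : ℤ) (hn : 0 ≤ n) : ((Finset.Icc (-n) n).card : ℝ) = 2 * n + 1 := by
  rw [Int.card_Icc]
  have : ((n + 1 - -n).toNat : ℤ) = 2 * n + 1 := by
    rw [Int.toNat_of_nonneg (by linarith)]; ring
  have h2 : (((n + 1 - -n).toNat : ℤ) : ℝ) = ((2 * n + 1 : ℤ) : ℝ) := by rw [this]
  push_cast at h2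
  exact h2

theorem div_card (B : ℤ) (L : ℕ) (hB : 0 ≤ B) (hL : 0 < L) (hLB : (L : ℝ) ≤ B) :
    ((Finset.Icc (-(B / L + 1)) (B / L + 1)).card : ℝ) ≤ 5 * (B / L) := by
  have hL' : (0 : ℤ) < L := by exact_mod_cast hL
  have hLR : (0 : ℝ) < L := by exact_mod_cast hL
  rw [card_Icc_sym _ (by have := Int.ediv_nonneg hB hL'.le; linarith)]
  push_cast
  have h1 : ((B / (L : ℤ) : ℤ) : ℝ) ≤ (B : ℝ) / L := by
    rw [le_div_iff₀ hLR]
    exact_mod_cast Int.ediv_mul_le B hL'.ne'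
  have h2 : (1 : ℝ) ≤ (B : ℝ) / L := by
    rw [le_div_iff₀ hLR]; linarith
  linarith

theorem cells_card {H L4 L5 : ℕ} (hH : 1 ≤ H) (h4 : 0 < L4) (h5 : 0 < L5) (h4' : (L4 : ℝ) ≤ H ^ 4)
    (h5' : (L5 : ℝ) ≤ H ^ 5) :
    ((cells H L4 L5).card : ℝ) * (L4 * L5) ≤ 606375 * (H : ℝ) ^ 15 := by
  have hHR : (1 : ℝ) ≤ H := by exact_mod_cast hH
  have hL4 : (0 : ℝ) < L4 := by exact_mod_cast h4
  have hL5 : (0 : ℝ) < L5 := by exact_mod_cast h5
  unfold cells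
  simp only [Finset.card_product]
  push_cast
  have c0 : ((Finset.Icc (-(5 * H : ℤ)) (5 * H)).card : ℝ) ≤ 11 * H := by
    rw [card_Icc_sym _ (by positivity)]; push_cast; linarith
  have c1 : ((Finset.Icc (-(10 * H ^ 2 : ℤ)) (10 * H ^ 2)).card : ℝ) ≤ 21 * (H : ℝ) ^ 2 := by
    rw [card_Icc_sym _ (by positivity)]; push_cast
    have := one_le_pow₀ hHR (n := 2)
    linarith
  have c2 : ((Finset.Icc (-(10 * H ^ 3 : ℤ)) (10 * H ^ 3)).card : ℝ) ≤ 21 * (H : ℝ) ^ 3 := by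
    rw [card_Icc_sym _ (by positivity)]; push_cast
    have := one_le_pow₀ hHR (n := 3)
    linarith
  have c3 : ((Finset.Icc (-(5 * H ^ 4 / L4 + 1 : ℤ)) (5 * H ^ 4 / L4 + 1)).card : ℝ) ≤
      25 * (H : ℝ) ^ 4 / L4 := by
    have := div_card (5 * (H : ℤ) ^ 4) L4 (by positivity) h4 (by
      push_cast
      have : (0 : ℝ) ≤ (H : ℝ) ^ 4 := by positivity
      linarith)
    refine this.trans (le_of_eq ?_)
    push_cast
    ring
  have c4 : ((Finset.Icc (-(H ^ 5 / L5 + 1 : ℤ)) (H ^ 5 / L5 + 1)).card : ℝ) ≤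
      5 * (H : ℝ) ^ 5 / L5 := by
    have := div_card ((H : ℤ) ^ 5) L5 (by positivity) h5 (by push_cast; exact h5')
    refine this.trans (le_of_eq ?_)
    push_cast
    ring
  calc _ ≤ (11 * (H : ℝ)) * (21 * (H : ℝ) ^ 2 * (21 * (H : ℝ) ^ 3 *
        ((25 * (H : ℝ) ^ 4 / L4) * (5 * (H : ℝ) ^ 5 / L5)))) * (L4 * L5) := by
        apply mul_le_mul_of_nonneg_right _ (by positivity)
        apply mul_le_mul c0 _ (by positivity) (by positivity)
        apply mul_le_mul c1 _ (by positivity) (by positivity)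
        apply mul_le_mul c2 _ (by positivity) (by positivity)
        exact mul_le_mul c3 c4 (by positivity) (by positivity)
    _ = _ := by field_simp; ring

/-- one cell contains few bad members -/
theorem fibre (c κ ε : ℝ) (hκ : 0 < κ) (K H : ℕ)
    (hgeo : ∀ α : Fin 5 → ℝ, (∀ i, |α i| ≤ H) → (∀ i j : Fin 5, i < j → c * H ≤ α j - α i) →
      ∀ A2 A4 : ℤ, |(A2 : ℝ) - α 1| ≤ 1 → |(A4 : ℝ) - α 3| ≤ 1 →
      ∀ t u v : ℤ, InFam K H A2 A4 t u v →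
      ∀ a : Fin 5 → ℤ, ∀ b4 b5 : ℝ, |b4| ≤ κ * K * H ^ 3 → |b5| ≤ κ * K * H ^ 4 →
      (∀ x : ℝ, x ^ 5 + a 0 * x ^ 4 + a 1 * x ^ 3 + a 2 * x ^ 2 + a 3 * x + a 4
        = ∏ i, (x - α i) + b4 * x + b5) →
      Dd t u v ∣ t ^ 5 + 2 * a 0 * t ^ 4 + 4 * a 1 * t ^ 3 + 8 * a 2 * t ^ 2 + 16 * a 3 * t + 32 * a 4 →
      Good (quint a))
    (hcnt : open scoped Classical in ∀ A2 A4 : ℤ, |A2| ≤ H → |A4| ≤ H → ∀ s : ℤ → ℤ, ∀ B4 B5 : ℤ,
      (((bx B4 B5 ⌊κ * K * H ^ 3⌋₊ ⌊κ * K * H ^ 4⌋₊).filter (fun a : ℤ × ℤ => ∀ X u v : ℤ,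
        InFam K H A2 A4 X u v → ¬ (Dd X u v ∣ 16 * a.1 * X + 32 * a.2 + s X))).card : ℝ)
        ≤ ε * (κ * K * H ^ 3) * (κ * K * H ^ 4)) (hε : 0 < ε)
    (h4 : 0 < ⌊κ * K * (H : ℝ) ^ 3⌋₊) (h5 : 0 < ⌊κ * K * (H : ℝ) ^ 4⌋₊)
    (S : Finset (Fin 5 → ℤ)) (hS : ∀ a ∈ S, a ∈ TG c H ∧ ¬ Good (quint a))
    (b : ℤ × ℤ × ℤ × ℤ × ℤ) (hb : ∀ a ∈ S, cell ⌊κ * K * (H : ℝ) ^ 3⌋₊ ⌊κ * K * (H : ℝ) ^ 4⌋₊ a = b) :
    (S.card : ℝ) ≤ ε * (κ * K * H ^ 3) * (κ * K * H ^ 4) := by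
  classical
  rcases S.eq_empty_or_nonempty with h0 | ⟨a', ha'⟩
  · rw [h0, Finset.card_empty]
    push_cast
    positivity
  set L4 := ⌊κ * K * (H : ℝ) ^ 3⌋₊ with hL4
  set L5 := ⌊κ * K * (H : ℝ) ^ 4⌋₊ with hL5
  have hL4u : (L4 : ℝ) ≤ κ * K * H ^ 3 := Nat.floor_le (by positivity)
  have hL5u : (L5 : ℝ) ≤ κ * K * H ^ 4 := Nat.floor_le (by positivity)
  obtain ⟨⟨α, hgap, _, hbd, hrt⟩, _⟩ := hS a' ha'
  obtain ⟨A2, hA2, hA2'⟩ := near_int (α 1) H (hbd 1)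
  obtain ⟨A4, hA4, hA4'⟩ := near_int (α 3) H (hbd 3)
  have hA2i : |A2| ≤ (H : ℤ) := by exact_mod_cast hA2
  have hA4i : |A4| ≤ (H : ℤ) := by exact_mod_cast hA4
  set s : ℤ → ℤ := fun X => X ^ 5 + 2 * a' 0 * X ^ 4 + 4 * a' 1 * X ^ 3 + 8 * a' 2 * X ^ 2 with hs
  have hc := hcnt A2 A4 hA2i hA4i s (b.2.2.2.1 * L4) (b.2.2.2.2 * L5)
  refine le_trans ?_ hc
  norm_cast
  apply Finset.card_le_card_of_injOn (fun a => (a 3, a 4))
  · intro a ha
    have ha := Finset.mem_coe.1 ha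
    rw [Finset.mem_coe, Finset.mem_filter]
    have e1 := hb a ha
    have e2 := hb a' ha'
    have hL4i : (0 : ℤ) < L4 := by exact_mod_cast h4
    have hL5i : (0 : ℤ) < L5 := by exact_mod_cast h5
    have e : cell L4 L5 a = cell L4 L5 a' := e1.trans e2.symm
    unfold cell at e e1
    have q0 : a 0 = a' 0 := congrArg Prod.fst e
    have q1 : a 1 = a' 1 := congrArg (fun t => t.2.1) e
    have q2 : a 2 = a' 2 := congrArg (fun t => t.2.2.1) e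
    have q3 : a 3 / L4 = a' 3 / L4 := congrArg (fun t => t.2.2.2.1) e
    have q4 : a 4 / L5 = a' 4 / L5 := congrArg (fun t => t.2.2.2.2) e
    have p3 : a 3 / L4 = b.2.2.2.1 := congrArg (fun t => t.2.2.2.1) e1
    have p4 : a 4 / L5 = b.2.2.2.2 := congrArg (fun t => t.2.2.2.2) e1
    have m3 := Int.ediv_mul_le (a 3) hL4i.ne'
    have m4 := Int.ediv_mul_le (a 4) hL5i.ne'
    have m3' := Int.lt_ediv_add_one_mul_self (a 3) hL4i
    have m4' := Int.lt_ediv_add_one_mul_self (a 4) hL5i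
    have n3 := Int.ediv_mul_le (a' 3) hL4i.ne'
    have n4 := Int.ediv_mul_le (a' 4) hL5i.ne'
    have n3' := Int.lt_ediv_add_one_mul_self (a' 3) hL4i
    have n4' := Int.lt_ediv_add_one_mul_self (a' 4) hL5i
    rw [← q3] at n3 n3'
    rw [← q4] at n4 n4'
    constructor
    · unfold bx
      rw [Finset.mem_product, Finset.mem_Ico, Finset.mem_Ico]
      rw [p3] at m3 m3'
      rw [p4] at m4 m4'
      refine ⟨⟨m3, by linarith⟩, ⟨m4, by linarith⟩⟩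
    · intro t u v hf hdv
      apply (hS a ha).2
      refine hgeo α hbd hgap A2 A4 hA2' hA4' t u v hf a ((a 3 : ℝ) - a' 3) ((a 4 : ℝ) - a' 4) ?_ ?_ ?_ ?_
      · refine le_trans ?_ hL4u
        have : |a 3 - a' 3| ≤ (L4 : ℤ) := by
          rw [abs_le]; constructor <;> linarith
        exact_mod_cast this
      · refine le_trans ?_ hL5u
        have : |a 4 - a' 4| ≤ (L5 : ℤ) := by
          rw [abs_le]; constructor <;> linarith
        exact_mod_cast this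
      · intro x
        rw [← hrt x, q0, q1, q2]
        ring
      · have e5 : t ^ 5 + 2 * a 0 * t ^ 4 + 4 * a 1 * t ^ 3 + 8 * a 2 * t ^ 2 + 16 * a 3 * t + 32 * a 4 =
            16 * a 3 * t + 32 * a 4 + s t := by
          rw [hs, q0, q1, q2]; ring
        rw [e5]
        exact hdv
  · intro a ha a2 ha2 h
    have ha := Finset.mem_coe.1 ha
    have ha2 := Finset.mem_coe.1 ha2
    have e : cell L4 L5 a = cell L4 L5 a2 := (hb a ha).trans (hb a2 ha2).symm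
    unfold cell at e
    have q0 : a 0 = a2 0 := congrArg Prod.fst e
    have q1 : a 1 = a2 1 := congrArg (fun t => t.2.1) e
    have q2 : a 2 = a2 2 := congrArg (fun t => t.2.2.1) e
    have q3 : a 3 = a2 3 := congrArg Prod.fst h
    have q4 : a 4 = a2 4 := congrArg Prod.snd h
    funext i
    fin_cases i
    · exact q0
    · exact q1
    · exact q2
    · exact q3
    · exact q4

/-- the fourth root -/
def rt4 (H : ℕ) : ℕ := Nat.sqrt (Nat.sqrt H)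

theorem rt4_pow (H : ℕ) : (rt4 H) ^ 4 ≤ H := by
  unfold rt4
  have h1 : Nat.sqrt (Nat.sqrt H) ^ 2 ≤ Nat.sqrt H := Nat.sqrt_le' _
  have h2 : Nat.sqrt H ^ 2 ≤ H := Nat.sqrt_le' _
  calc Nat.sqrt (Nat.sqrt H) ^ 4 = (Nat.sqrt (Nat.sqrt H) ^ 2) ^ 2 := by ring
    _ ≤ Nat.sqrt H ^ 2 := Nat.pow_le_pow_left h1 2
    _ ≤ H := h2

theorem rt4_ge {K0 H : ℕ} (h : K0 ^ 4 ≤ H) : K0 ≤ rt4 H := by
  unfold rt4
  rw [Nat.le_sqrt', Nat.le_sqrt']
  calc (K0 ^ 2) ^ 2 = K0 ^ 4 := by ring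
    _ ≤ H := h

theorem bad_TG (c ε : ℝ) (hc : 0 < c) (hε : 0 < ε) : ∃ H0 : ℕ, ∀ H : ℕ, H0 ≤ H →
    ({a | a ∈ TG c H ∧ ¬ Good (quint a)}.ncard : ℝ) ≤ ε * (H : ℝ) ^ 15 := by
  classical
  obtain ⟨κ, hκ, hκ1, K1, hgeo⟩ := geo c hc
  set ε' : ℝ := ε / (4 * 606375) with hε'
  have hε'0 : 0 < ε' := by positivity
  obtain ⟨K0, hcnt⟩ := counting κ ε' hκ hκ1 hε'0
  set K2 : ℕ := max (max K0 K1) ⌈2 / κ⌉₊ with hK2
  refine ⟨K2 ^ 4 + 1, ?_⟩
  intro H hH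
  set K := rt4 H with hK
  have hKH : K ^ 4 ≤ H := rt4_pow H
  have hKK : K2 ≤ K := rt4_ge (by omega)
  have hk0 : K0 ≤ K := (le_max_left _ _).trans ((le_max_left _ _).trans hKK)
  have hk1 : K1 ≤ K := (le_max_right _ _).trans ((le_max_left _ _).trans hKK)
  have hk2 : 2 / κ ≤ K := by
    refine (Nat.le_ceil _).trans ?_
    exact_mod_cast (le_max_right _ _).trans hKK
  have hκK : 2 ≤ κ * K := by
    rw [div_le_iff₀ hκ] at hk2
    linarith
  have hH1 : 1 ≤ H := by omega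
  have hHR : (1 : ℝ) ≤ H := by exact_mod_cast hH1
  have hKR : (K : ℝ) ≤ H := by
    have h1 : K ≤ K ^ 4 := Nat.le_self_pow (by norm_num) K
    exact_mod_cast h1.trans hKH
  have hK0 : (0 : ℝ) ≤ K := by positivity
  set L4 := ⌊κ * K * (H : ℝ) ^ 3⌋₊ with hL4
  set L5 := ⌊κ * K * (H : ℝ) ^ 4⌋₊ with hL5
  have hL4u : (L4 : ℝ) ≤ κ * K * H ^ 3 := Nat.floor_le (by positivity)
  have hL5u : (L5 : ℝ) ≤ κ * K * H ^ 4 := Nat.floor_le (by positivity)
  have hL4l : κ * K * H ^ 3 ≤ 2 * L4 := by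
    have e1 := Nat.lt_floor_add_one (κ * K * (H : ℝ) ^ 3)
    rw [← hL4] at e1
    have e2 : 2 ≤ κ * K * (H : ℝ) ^ 3 := by nlinarith [one_le_pow₀ hHR (n := 3)]
    linarith
  have hL5l : κ * K * H ^ 4 ≤ 2 * L5 := by
    have e1 := Nat.lt_floor_add_one (κ * K * (H : ℝ) ^ 4)
    rw [← hL5] at e1
    have e2 : 2 ≤ κ * K * (H : ℝ) ^ 4 := by nlinarith [one_le_pow₀ hHR (n := 4)]
    linarith
  have hL4p : 0 < L4 := by
    have e2 : 2 ≤ κ * K * (H : ℝ) ^ 3 := by nlinarith [one_le_pow₀ hHR (n := 3)]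
    have : (0 : ℝ) < L4 := by linarith
    exact_mod_cast this
  have hL5p : 0 < L5 := by
    have e2 : 2 ≤ κ * K * (H : ℝ) ^ 4 := by nlinarith [one_le_pow₀ hHR (n := 4)]
    have : (0 : ℝ) < L5 := by linarith
    exact_mod_cast this
  have hκKH : κ * K ≤ H := by nlinarith
  have h4' : (L4 : ℝ) ≤ H ^ 4 := by
    refine hL4u.trans ?_
    calc κ * K * (H : ℝ) ^ 3 ≤ H * H ^ 3 := mul_le_mul_of_nonneg_right hκKH (by positivity)
      _ = _ := by ring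
  have h5' : (L5 : ℝ) ≤ H ^ 5 := by
    refine hL5u.trans ?_
    calc κ * K * (H : ℝ) ^ 4 ≤ H * H ^ 4 := mul_le_mul_of_nonneg_right hκKH (by positivity)
      _ = _ := by ring
  have hcc := cells_card hH1 hL4p hL5p h4' h5'
  -- the bad set
  have hTG : ∀ a, a ∈ TG c H → a ∈ TR H := by
    rintro a ⟨α, _, h2, h3, h4⟩
    exact ⟨α, h2, h3, h4⟩
  have hfin : {a | a ∈ TG c H ∧ ¬ Good (quint a)}.Finite :=
    (TR_finite H).subset (fun a ha => hTG a ha.1)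
  rw [Set.ncard_eq_toFinset_card _ hfin]
  set E : ℝ := ε' * (κ * K * H ^ 3) * (κ * K * H ^ 4) with hE
  have hE0 : 0 ≤ E := by positivity
  have hmain : hfin.toFinset.card ≤ ⌊E⌋₊ * (cells H L4 L5).card := by
    apply Finset.card_le_mul_card_image_of_maps_to (f := cell L4 L5)
    · intro a ha
      rw [Set.Finite.mem_toFinset] at ha
      exact cell_mem hL4p hL5p (hTG a ha.1)
    · intro b _
      rw [Nat.le_floor_iff hE0]
      apply fibre c κ ε' hκ K H (hgeo K H hk1 hKH) (hcnt K H hk0 hKH) hε'0 hL4p hL5p _ _ b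
      · intro a ha
        rw [Finset.mem_filter] at ha
        exact ha.2
      · intro a ha
        rw [Finset.mem_filter, Set.Finite.mem_toFinset] at ha
        exact ha.1
  calc ((hfin.toFinset.card : ℕ) : ℝ) ≤ ((⌊E⌋₊ * (cells H L4 L5).card : ℕ) : ℝ) := by exact_mod_cast hmain
    _ = (⌊E⌋₊ : ℝ) * (cells H L4 L5).card := by push_cast; ring
    _ ≤ E * (cells H L4 L5).card := mul_le_mul_of_nonneg_right (Nat.floor_le hE0) (by positivity)
    _ ≤ (ε' * (2 * L4) * (2 * L5)) * (cells H L4 L5).card := by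
        apply mul_le_mul_of_nonneg_right _ (by positivity)
        rw [hE]
        apply mul_le_mul _ hL5l (by positivity) (by positivity)
        exact mul_le_mul_of_nonneg_left hL4l hε'0.le
    _ = 4 * ε' * (((cells H L4 L5).card : ℝ) * (L4 * L5)) := by ring
    _ ≤ 4 * ε' * (606375 * (H : ℝ) ^ 15) := mul_le_mul_of_nonneg_left hcc (by positivity)
    _ = ε * (H : ℝ) ^ 15 := by rw [hε']; ring

end Helper6.QS
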