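import Pool.Agent.Helper6.QS.Fin1
import Pool.Agent.Helper6.QS.Fin2

/-! QS: from coefficient vectors to polynomials; the density theorem. -/

set_option autoImplicit false
open Polynomial
namespace Helper6.QS

/-- the monic integer quintics with five distinct real roots, all of them in `[-H,H]` -/
def TT (H : ℕ) : Set ℤ[X] :=
  {P | P.Monic ∧ P.natDegree = 5 ∧ ∃ α : Fin 5 → ℝ, StrictMono α ∧ (∀ i, |α i| ≤ H) ∧
    ∀ i, aeval (α i) P = 0}

theorem quint_monic (a : Fin 5 → ℤ) : (quint a).Monic := by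
  unfold quint
  monicity!

theorem quint_natDegree (a : Fin 5 → ℤ) : (quint a).natDegree = 5 := by
  unfold quint
  compute_degree!

theorem quint_coeff (a : Fin 5 → ℤ) : (quint a).coeff 4 = a 0 ∧ (quint a).coeff 3 = a 1 ∧
    (quint a).coeff 2 = a 2 ∧ (quint a).coeff 1 = a 3 ∧ (quint a).coeff 0 = a 4 := by
  unfold quint
  refine ⟨?_, ?_, ?_, ?_, ?_⟩ <;>
    simp only [coeff_add, coeff_C_mul, coeff_X_pow, coeff_X, coeff_C] <;> norm_num

theorem quint_inj : Function.Injective quint := by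
  intro a b h
  obtain ⟨a0, a1, a2, a3, a4⟩ := quint_coeff a
  obtain ⟨b0, b1, b2, b3, b4⟩ := quint_coeff b
  rw [h] at a0 a1 a2 a3 a4
  funext i
  fin_cases i
  · exact a0.symm.trans b0
  · exact a1.symm.trans b1
  · exact a2.symm.trans b2
  · exact a3.symm.trans b3
  · exact a4.symm.trans b4

theorem quint_surj {P : ℤ[X]} (hP : P.Monic) (hd : P.natDegree = 5) : ∃ a, quint a = P := by
  refine ⟨![P.coeff 4, P.coeff 3, P.coeff 2, P.coeff 1, P.coeff 0], ?_⟩
  have h5 : P.coeff 5 = 1 := by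
    have := hP.coeff_natDegree
    rwa [hd] at this
  conv_rhs => rw [P.as_sum_range_C_mul_X_pow, hd]
  unfold quint
  simp only [Finset.sum_range_succ, Finset.sum_range_zero, h5]
  simp
  ring

theorem quint_aeval (a : Fin 5 → ℤ) (x : ℝ) :
    aeval x (quint a) = x ^ 5 + a 0 * x ^ 4 + a 1 * x ^ 3 + a 2 * x ^ 2 + a 3 * x + a 4 := by
  unfold quint
  simp

/-- the polynomial over the reals is the product of its linear factors -/
theorem real_prod {P : ℤ[X]} (hP : P.Monic) (hd : P.natDegree = 5) {α : Fin 5 → ℝ}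
    (hα : Function.Injective α) (h : ∀ i, aeval (α i) P = 0) :
    P.map (Int.castRingHom ℝ) = ∏ i, (X - C (α i)) := by
  classical
  have hm : (P.map (Int.castRingHom ℝ)).Monic := hP.map _
  have hd' : (P.map (Int.castRingHom ℝ)).natDegree = 5 := by rw [hP.natDegree_map, hd]
  have hm2 : (∏ i, (X - C (α i)) : ℝ[X]).Monic := monic_prod_of_monic _ _ (fun i _ => monic_X_sub_C _)
  have hd2 : (∏ i, (X - C (α i)) : ℝ[X]).natDegree = 5 := by
    rw [natDegree_prod_of_monic _ _ (fun i _ => monic_X_sub_C _)]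
    simp
  refine eq_of_degree_sub_lt_of_eval_finset_eq (Finset.univ.image α) ?_ ?_
  · rw [Finset.card_image_of_injective _ hα, Finset.card_univ, Fintype.card_fin]
    have : (P.map (Int.castRingHom ℝ) - ∏ i, (X - C (α i))).degree < (P.map (Int.castRingHom ℝ)).degree := by
      apply degree_sub_lt_left
      · rw [degree_eq_natDegree hm.ne_zero, degree_eq_natDegree hm2.ne_zero, hd', hd2]
      · exact hm.ne_zero
      · rw [hm.leadingCoeff, hm2.leadingCoeff]
    rw [degree_eq_natDegree hm.ne_zero, hd'] at this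
    exact this
  · intro x hx
    rw [Finset.mem_image] at hx
    obtain ⟨i, _, rfl⟩ := hx
    have h1 := h i
    rw [aeval_def, eval₂_eq_eval_map] at h1
    have h2 : eval (α i) (∏ j, (X - C (α j)) : ℝ[X]) = 0 := by
      rw [eval_prod]
      apply Finset.prod_eq_zero (Finset.mem_univ i)
      simp
    rw [h2]
    exact h1

theorem TT_eq (H : ℕ) : TT H = quint '' TR H := by
  ext P
  constructor
  · rintro ⟨hP, hd, α, hα, hb, hr⟩
    obtain ⟨a, rfl⟩ := quint_surj hP hd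
    refine ⟨a, ⟨α, hα, hb, ?_⟩, rfl⟩
    intro x
    have h1 := real_prod hP hd hα.injective hr
    have h2 : eval x ((quint a).map (Int.castRingHom ℝ)) = aeval x (quint a) := by
      rw [aeval_def, eval₂_eq_eval_map]
      rfl
    rw [← quint_aeval, ← h2, h1, eval_prod]
    simp
  · rintro ⟨a, ⟨α, hα, hb, hr⟩, rfl⟩
    refine ⟨quint_monic a, quint_natDegree a, α, hα, hb, ?_⟩
    intro i
    rw [quint_aeval, hr (α i)]
    exact Finset.prod_eq_zero (Finset.mem_univ i) (sub_self _)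

theorem TT_separable {H : ℕ} {P : ℤ[X]} (h : P ∈ TT H) : (P.map (Int.castRingHom ℚ)).Separable := by
  obtain ⟨hP, hd, α, hα, hb, hr⟩ := h
  have h1 := real_prod hP hd hα.injective hr
  have h2 : (P.map (Int.castRingHom ℚ)).map (algebraMap ℚ ℝ) = P.map (Int.castRingHom ℝ) := by
    rw [map_map]
    congr 1
  rw [← separable_map (algebraMap ℚ ℝ), h2, h1]
  exact separable_prod_X_sub_C_iff.2 hα.injective

theorem bad_TR (ε : ℝ) (hε : 0 < ε) : ∃ H0 : ℕ, ∀ H : ℕ, H0 ≤ H →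
    ({P | P ∈ TT H ∧ ¬ IsMP P}.ncard : ℝ) ≤ ε * (H : ℝ) ^ 15 := by
  obtain ⟨C, hC⟩ := TR_diff_TG
  set c : ℝ := min 1 (ε / (2 * (|C| + 1))) with hc
  have hCp : 0 < |C| + 1 := by positivity
  have hc0 : 0 < c := lt_min one_pos (by positivity)
  obtain ⟨H1, h1⟩ := hC c hc0 (min_le_left _ _)
  obtain ⟨H2, h2⟩ := bad_TG c (ε / 2) hc0 (by positivity)
  refine ⟨max H1 H2, ?_⟩
  intro H hH
  have k1 := h1 H ((le_max_left _ _).trans hH)
  have k2 := h2 H ((le_max_right _ _).trans hH)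
  have hsub : {P | P ∈ TT H ∧ ¬ IsMP P} ⊆
      quint '' ((TR H \ TG c H) ∪ {a | a ∈ TG c H ∧ ¬ Good (quint a)}) := by
    rintro P ⟨hP, hn⟩
    have hP' := hP
    rw [TT_eq] at hP'
    obtain ⟨a, ha, rfl⟩ := hP'
    refine ⟨a, ?_, rfl⟩
    by_cases hg : a ∈ TG c H
    · right
      refine ⟨hg, ?_⟩
      intro hgood
      exact hn (good_isMP _ hgood (TT_separable hP))
    · left
      exact ⟨ha, hg⟩
  have hfin : ((TR H \ TG c H) ∪ {a | a ∈ TG c H ∧ ¬ Good (quint a)}).Finite := by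
    apply (TR_finite H).subset
    rintro a (ha | ha)
    · exact ha.1
    · obtain ⟨⟨α, _, h2, h3, h4⟩, _⟩ := ha
      exact ⟨α, h2, h3, h4⟩
  have e1 : ({P | P ∈ TT H ∧ ¬ IsMP P}.ncard : ℝ) ≤
      ((TR H \ TG c H).ncard : ℝ) + ({a | a ∈ TG c H ∧ ¬ Good (quint a)}.ncard : ℝ) := by
    have a1 := Set.ncard_le_ncard hsub (hfin.image _)
    have a2 : (quint '' ((TR H \ TG c H) ∪ {a | a ∈ TG c H ∧ ¬ Good (quint a)})).ncard ≤
      ((TR H \ TG c H) ∪ {a | a ∈ TG c H ∧ ¬ Good (quint a)}).ncard := Set.ncard_image_le hfin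
    have a3 := Set.ncard_union_le (TR H \ TG c H) {a | a ∈ TG c H ∧ ¬ Good (quint a)}
    exact_mod_cast a1.trans (a2.trans a3)
  have e2 : C * c ≤ ε / 2 := by
    have b1 : C * c ≤ |C| * c := mul_le_mul_of_nonneg_right (le_abs_self C) hc0.le
    have b2 : |C| * c ≤ |C| * (ε / (2 * (|C| + 1))) :=
      mul_le_mul_of_nonneg_left (min_le_right _ _) (abs_nonneg _)
    have b3 : |C| * (ε / (2 * (|C| + 1))) ≤ ε / 2 := by
      rw [← mul_div_assoc, div_le_div_iff₀ (by positivity) (by positivity)]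
      nlinarith [abs_nonneg C]
    linarith
  have hH15 : (0 : ℝ) ≤ (H : ℝ) ^ 15 := by positivity
  calc _ ≤ _ := e1
    _ ≤ C * c * (H : ℝ) ^ 15 + ε / 2 * (H : ℝ) ^ 15 := add_le_add k1 k2
    _ ≤ ε / 2 * (H : ℝ) ^ 15 + ε / 2 * (H : ℝ) ^ 15 := by
        have := mul_le_mul_of_nonneg_right e2 hH15
        linarith
    _ = ε * (H : ℝ) ^ 15 := by ring

theorem TT_finite (H : ℕ) : (TT H).Finite := by
  rw [TT_eq]
  exact (TR_finite H).image _

theorem TT_lower : ∃ c : ℝ, 0 < c ∧ ∃ H0 : ℕ, ∀ H : ℕ, H0 ≤ H → c * (H : ℝ) ^ 15 ≤ ((TT H).ncard : ℝ) := by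
  obtain ⟨c, hc, H0, h⟩ := TR_lower
  refine ⟨c, hc, H0, ?_⟩
  intro H hH
  rw [TT_eq, Set.ncard_image_of_injective _ quint_inj]
  exact h H hH

theorem density : Filter.Tendsto (fun H : ℕ => ({P | P ∈ TT H ∧ IsMP P}.ncard : ℝ) / ((TT H).ncard : ℝ))
    Filter.atTop (nhds 1) := by
  obtain ⟨c, hc, H1, hlow⟩ := TT_lower
  rw [Metric.tendsto_atTop]
  intro ε hε
  obtain ⟨H2, hbad⟩ := bad_TR (c * (ε / 2)) (by positivity)
  refine ⟨max (max H1 H2) 1, ?_⟩
  intro H hH
  have k1 := hlow H (((le_max_left _ _).trans (le_max_left _ _)).trans hH)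
  have k2 := hbad H (((le_max_right _ _).trans (le_max_left _ _)).trans hH)
  have hH1 : (1 : ℝ) ≤ H := by exact_mod_cast (le_max_right _ _).trans hH
  have hH15 : (0 : ℝ) < (H : ℝ) ^ 15 := by positivity
  have htot : ({P | P ∈ TT H ∧ IsMP P}.ncard : ℝ) + ({P | P ∈ TT H ∧ ¬ IsMP P}.ncard : ℝ) =
      ((TT H).ncard : ℝ) := by
    have hu : {P | P ∈ TT H ∧ IsMP P} ∪ {P | P ∈ TT H ∧ ¬ IsMP P} = TT H := by
      ext P
      constructor
      · rintro (h | h)
        · exact h.1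
        · exact h.1
      · intro h
        by_cases hp : IsMP P
        · exact Or.inl ⟨h, hp⟩
        · exact Or.inr ⟨h, hp⟩
    have hdj : Disjoint {P | P ∈ TT H ∧ IsMP P} {P | P ∈ TT H ∧ ¬ IsMP P} := by
      rw [Set.disjoint_left]
      rintro P ⟨_, h1⟩ ⟨_, h2⟩
      exact h2 h1
    have := Set.ncard_union_eq hdj ((TT_finite H).subset (fun P h => h.1))
      ((TT_finite H).subset (fun P h => h.1))
    rw [hu] at this
    rw [this]
    push_cast
    ring
  have hTp : (0 : ℝ) < ((TT H).ncard : ℝ) := lt_of_lt_of_le (by positivity) k1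
  rw [Real.dist_eq, abs_sub_comm]
  have e1 : 1 - ({P | P ∈ TT H ∧ IsMP P}.ncard : ℝ) / ((TT H).ncard : ℝ) =
      ({P | P ∈ TT H ∧ ¬ IsMP P}.ncard : ℝ) / ((TT H).ncard : ℝ) := by
    rw [eq_div_iff hTp.ne', sub_mul, div_mul_cancel₀ _ hTp.ne']
    linarith
  rw [e1, abs_of_nonneg (by positivity), div_lt_iff₀ hTp]
  calc _ ≤ _ := k2
    _ = ε / 2 * (c * (H : ℝ) ^ 15) := by ring
    _ ≤ ε / 2 * ((TT H).ncard : ℝ) := mul_le_mul_of_nonneg_left k1 (by positivity)
    _ < ε * ((TT H).ncard : ℝ) := by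
        apply mul_lt_mul_of_pos_right _ hTp
        linarith

end Helper6.QS
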