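import Pool.Agent.Helper6.QS.MainPN
import Pool.Agent.Helper74.PQ.Fin24
import Pool.Agent.Helper10.PN.CoverN

/-!
# QS-FINP: complements of generic hypersurfaces of degree `2 N`
-/

set_option autoImplicit false

namespace Pool.Agent.Helper6.QS

universe u v

/-- plane quartics -/
theorem finP_two : FinP.{u, v} 2 4 := fun _ _ _ _ _ _ hfg F hF hcoef A hA =>
  Pool.Agent.Helper74.PQ.fin24 hfg rfl F hF hcoef A hA

/-- degree `2 N` in `P^N`, `N ≥ 2` -/
theorem finP_all (N q : ℕ) (hq : q = 2 * N) (hN : 2 ≤ N) : FinP.{u, v} N q := by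
  rcases Nat.eq_or_lt_of_le hN with h | h
  · subst h
    subst hq
    exact finP_two
  · exact fun _ _ _ _ _ _ hfg F hF hcoef A hA =>
      Pool.Agent.Helper10.PN.finN h hq hfg F hF hcoef A hA

end Pool.Agent.Helper6.QS
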