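import Pool.Agent.Helper6.QS.FinP
import Pool.Agent.Helper91.EL.FinPGt

/-!
# QS-FINPALL: complements of generic hypersurfaces of degree at least `2 N`
-/

set_option autoImplicit false

namespace Pool.Agent.Helper6.QS

universe u v

/-- degree at least `2 N` in `P^N`, `N ≥ 2` -/
theorem finP_ge (N q : ℕ) (hN : 2 ≤ N) (hq : 2 * N ≤ q) : FinP.{u, v} N q := by
  rcases Nat.eq_or_lt_of_le hq with h | h
  · exact finP_all N q h.symm hN
  · exact Pool.Agent.Helper91.EL.finP_gt (by omega) (by omega)

end Pool.Agent.Helper6.QS
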