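import Pool.Agent.Helper49.LN.KeyAbs

/-!
# QS: the determinant of a point with general single columns, and the numerics at one valuation ring
-/

set_option autoImplicit false

namespace Pool.Agent.Helper6.QS

open scoped BigOperators
open MvPolynomial
open Pool.Agent.Helper8.LG (Bdd)
open Pool.Agent.Helper49.LN

section

variable {E : Type*} [Field E] {σ : Type*} {κ : Type*} {n : ℕ}
  {O : ValuationSubring E} {Δ : E} {D : Sym σ (n + 1) → Derivation ℤ E E}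
  {x y : σ → E} {m j : σ} {g g' : Sym σ (n + 1) → κ → E} {ε : κ → E}
  [Fintype σ] [DecidableEq σ] [Fintype κ] [DecidableEq κ]

/-- **The determinant of a point at one valuation ring**, single columns
`X^I (x_j X_l - x_l X_j)` with arbitrary `j` (copy of `g1_det`). -/
theorem g1_sj (hG : LocG O Δ D x m g g' ε) (hm : x m ≠ 0) (hxm : ∀ l, xt x m l ∈ O) {i₀ : σ}
    (hx : x i₀ = 1) {i t p u : ℕ} (β : Fin i → (Sym σ n × Sym σ n) × (σ × σ))
    (fa : Fin t → σ) (f : Fin t → Sym σ n × σ) (e : Fin p → σ) (f' : Fin u → σ ⊕ κ)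
    (rr : TT (Fin 1) (Fin i) (Fin t) (Fin 0) (Fin 1 ⊕ Fin p) (Fin u) ≃ σ ⊕ κ)
    (hJ : ∀ p ∈ Ipt x, cP (pv D x g) p ∈ Submodule.span E
        ((Set.range fun _ : Fin 1 => pe x ε) ∪
        (Set.range fun p : Fin i × Fin 2 => bl (pv D x g) x i₀ (β p.1) p.2) ∪
        Set.range fun s => sg (pv D x g) x (fa s) (f s))) :
    ∃ N ∈ O, Δ ^ Fintype.card (σ ⊕ κ) * dt rr (vv (fun _ => pe x ε)
      (fun p => bl (pv D x g) x i₀ (β p.1) p.2) (fun s => sg (pv D x g) x (fa s) (f s)) Fin.elim0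
      (Sum.elim (fun _ => la (E := E) (pv D x g) i₀) fun s => uv (Sum.inl (e s)))
      fun s => uv (f' s)) * x m ^ (n + 1 + p) =
      x m ^ (Fintype.card σ + i + t) * N := by
  classical
  have hxi : (x m)⁻¹ ∈ O := by
    have h1 := hxm i₀
    unfold xt at h1
    rw [hx, one_div] at h1
    exact h1
  obtain ⟨N, hN, eq⟩ := det_left (T2 := Fin 0) (U2 := Fin 0) O Δ rr (gp (x m))
    (fun _ => pe x ε) (fun _ => pe (xt x m) ε) (fun _ => 1) (fun _ => 0) (fun _ => by omega)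
    (fun _ => by
      rw [one_smul, ← pe_trans x m hm ε, sub_self]
      exact Submodule.zero_mem _)
    (fun p => bl (pv D x g) x i₀ (β p.1) p.2)
    (fun p => wb (pv D (xt x m) g') i₀ (β p.1) p.2)
    (fun k s => x (if s = 0 then (β k).2.1 else (β k).2.2))
    (fun k s => bl_trans hG hm hx (β k) s) (x m) hm hxi
    (fun k s => by
      have h1 := hxm (if s = 0 then (β k).2.1 else (β k).2.2)
      unfold xt at h1
      rwa [div_eq_inv_mul] at h1)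
    (fun s => sg (pv D x g) x (fa s) (f s))
    (fun s => sg (pv D (xt x m) g') (xt x m) (fa s) (f s)) (fun _ => x m)
    (fun s => sg_trans hG hm (fa s) (f s))
    Fin.elim0 Fin.elim0 (fun _ s => s.elim0) 1
    (by
      intro g _
      refine ⟨1, one_mem O, ?_⟩
      simp) (fun s => s.elim0)
    (Sum.elim (fun _ => la (E := E) (pv D x g) i₀) fun s => uv (Sum.inl (e s)))
    (Sum.elim (fun _ => la (E := E) (pv D (xt x m) g') m) fun s => uv (Sum.inl (e s)))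
    (Sum.elim (fun _ => (x m ^ (n + 1))⁻¹) fun _ => (x m)⁻¹)
    (by
      rintro (s | s)
      · exact la_trans hG hm hx _ _
          (Submodule.span_mono (fun v hv => Or.inl (Or.inl (Or.inl hv)))) hJ
          (Submodule.span_mono (by
            rintro v ((hv | hv) | hv)
            · exact Or.inl (Or.inl (Or.inl hv))
            · exact Or.inl (Or.inl (Or.inr hv))
            · exact Or.inl (Or.inr hv)))
      · show uv (Sum.inl (e s)) - (x m)⁻¹ • gp (x m) (uv (Sum.inl (e s))) ∈ _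
        have h1 := uv_trans (κ := κ) (x m) hm (Sum.inl (e s))
        have h2 : au (κ := κ) (x m) (Sum.inl (e s)) = (x m)⁻¹ := rfl
        rw [h2] at h1
        rw [← h1, sub_self]
        exact Submodule.zero_mem _)
    (fun s => uv (f' s)) (fun s => uv (f' s)) (fun s => au (x m) (f' s))
    (fun s => au_mem hxm hx (f' s)) (fun s => uv_trans (x m) hm (f' s))
    (fun _ l => pe_bdd hG hxm l) (fun p l => wb_bdd hG hxm i₀ (β p.1) p.2 l)
    (fun s l => sg_bdd hG hxm (fa s) (f s) l) (fun s => s.elim0)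
    (by
      rintro (s | s) l
      · exact cPp_bdd hG hxm _ ((IntP.X O m).pow _) l
      · exact uv_bdd hG.bdd.1 _ l)
    (fun s l => uv_bdd hG.bdd.1 (f' s) l)
  refine ⟨N, hN, ?_⟩
  rw [eq, det_gp]
  simp only [Finset.prod_const, Finset.card_univ, Fintype.card_fin, one_pow, one_mul, pow_one,
    Fintype.prod_sum_type, Sum.elim_inl, Sum.elim_inr]
  have h3 : x m ^ (n + 1) ≠ 0 := pow_ne_zero _ hm
  have h4 : x m ^ p ≠ 0 := pow_ne_zero _ hm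
  rw [inv_pow, pow_add (x m) (n + 1) p, pow_add, pow_add]
  generalize hA1 : x m ^ (n + 1) = A1 at *
  generalize hA2 : x m ^ p = A2 at *
  field_simp
  ring

end

/-- the numbers -/
theorem kd_num (K kw q i t b r : ℕ) (h : (K = 4 ∧ q = 5 ∧ kw = 4 ∧ i = 0 ∧ t = 2 ∧ r ≤ 2) ∨
      (K = 5 ∧ q = 7 ∧ kw = 5 ∧ i = 0 ∧ t = 3 ∧ r ≤ 4) ∨
      (K = 6 ∧ q = 8 ∧ ((kw = 6 ∧ i = 0 ∧ t = 4) ∨ (kw = 6 ∧ i = 1 ∧ t = 2) ∨
        (kw = 5 ∧ i = 0 ∧ t = 3)) ∧ r ≤ 5) ∨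
      (K = 7 ∧ q = 10 ∧ ((kw = 7 ∧ i = 1 ∧ t = 3) ∨ (kw = 7 ∧ i = 0 ∧ t = 5) ∨
        (kw = 6 ∧ i = 0 ∧ t = 4)) ∧ r ≤ 7)) (hb : b + r + 4 ≤ kw + K) :
    ∃ B C m s : ℕ, C + m = C * (K + b) ∧
      m + s = B * (t * (t + 1) / 2) + C * (r * (r + 1) / 2) ∧
      B * (kw + i + t) + C * (2 + r) + 1 ≤ q * (B + C) := by
  by_cases hB : K + b ≤ 1 + r * (r + 1) / 2
  · refine ⟨0, 1, K + b - 1, r * (r + 1) / 2 - (K + b - 1), by omega, by omega, ?_⟩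
    rcases h with ⟨rfl, rfl, rfl, rfl, rfl, h⟩ | ⟨rfl, rfl, rfl, rfl, rfl, h⟩ |
      ⟨rfl, rfl, ⟨rfl, rfl, rfl⟩ | ⟨rfl, rfl, rfl⟩ | ⟨rfl, rfl, rfl⟩, h⟩ |
      ⟨rfl, rfl, ⟨rfl, rfl, rfl⟩ | ⟨rfl, rfl, rfl⟩ | ⟨rfl, rfl, rfl⟩, h⟩ <;> omega
  · obtain ⟨v, hv⟩ : ∃ v, v = r * (r + 1) / 2 := ⟨_, rfl⟩
    obtain ⟨u, hu⟩ : ∃ u, u = t * (t + 1) / 2 := ⟨_, rfl⟩
    rw [← hv, ← hu]
    rw [← hv] at hB
    refine ⟨K + b - 1 - v, u, (K + b - 1 - v) * u + u * v, 0, ?_, by ring, ?_⟩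
    · have h1 : K + b = 1 + v + (K + b - 1 - v) := by omega
      conv_rhs => rw [h1]
      ring
    · rcases h with ⟨rfl, rfl, rfl, rfl, rfl, h⟩ | ⟨rfl, rfl, rfl, rfl, rfl, h⟩ |
        ⟨rfl, rfl, ⟨rfl, rfl, rfl⟩ | ⟨rfl, rfl, rfl⟩ | ⟨rfl, rfl, rfl⟩, h⟩ |
        ⟨rfl, rfl, ⟨rfl, rfl, rfl⟩ | ⟨rfl, rfl, rfl⟩ | ⟨rfl, rfl, rfl⟩, h⟩ <;>
        norm_num at hu <;> subst hu <;> interval_cases r <;> norm_num at hv <;> subst hv <;> omega

/-- The end of the dichotomy at one valuation ring (copy of `choice_pt_w` with given exponents). -/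
theorem kd_pt {E : Type*} [Field E] (k kw q i t b r B C m s : ℕ)
    (e1 : C + m = C * (k + b)) (e2 : m + s = B * (t * (t + 1) / 2) + C * (r * (r + 1) / 2))
    (e3 : B * (kw + i + t) + C * (2 + r) + 1 ≤ q * (B + C))
    (O : ValuationSubring E) (G₁ G₂ lam rho Δ P : E) (k₁ k₂ : ℕ) (hlam : lam ≠ 0)
    (hrho : rho ≠ 0) (hP : P ≠ 0) (hy : P / rho ∈ O) (hl : lam⁻¹ ∈ O)
    (h1 : ∃ w ∈ O, Δ ^ k₁ * G₁ * lam ^ q =
          lam ^ (kw + i + t) * (P / rho) ^ (t * (t + 1) / 2) * w)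
    (h2 : ∃ w ∈ O, Δ ^ k₂ * G₂ * lam ^ q * rho =
          lam ^ (2 + r) * rho ^ (k + b) * (P / rho) ^ (r * (r + 1) / 2) * w) :
    Δ ^ (B * k₁ + C * k₂) * (G₁ ^ B * G₂ ^ C / P ^ m) * lam ∈ O := by
  obtain ⟨w₁, hw₁, h₁⟩ := h1
  obtain ⟨w₂, hw₂, h₂⟩ := h2
  obtain ⟨y, hy'⟩ : ∃ y : E, y = P / rho := ⟨_, rfl⟩
  have hPy : P = y * rho := by rw [hy', div_mul_cancel₀ _ hrho]
  have hy0 : y ≠ 0 := by
    rw [hy']
    exact div_ne_zero hP hrho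
  rw [← hy'] at h₁ h₂ hy
  obtain ⟨M, hM⟩ : ∃ M : ℕ, q * (B + C) = M + (B * (kw + i + t) + C * (2 + r) + 1) :=
    ⟨q * (B + C) - (B * (kw + i + t) + C * (2 + r) + 1), by omega⟩
  have key : Δ ^ (B * k₁ + C * k₂) * (G₁ ^ B * G₂ ^ C / P ^ m) * lam =
      (lam⁻¹) ^ M * y ^ s * (w₁ ^ B * w₂ ^ C) := by
    have hne : lam ^ (q * (B + C)) * rho ^ C * P ^ m ≠ 0 :=
      mul_ne_zero (mul_ne_zero (pow_ne_zero _ hlam) (pow_ne_zero _ hrho)) (pow_ne_zero _ hP)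
    refine mul_right_cancel₀ hne ?_
    have hL : Δ ^ (B * k₁ + C * k₂) * (G₁ ^ B * G₂ ^ C / P ^ m) * lam *
        (lam ^ (q * (B + C)) * rho ^ C * P ^ m) =
        (Δ ^ k₁ * G₁ * lam ^ q) ^ B * (Δ ^ k₂ * G₂ * lam ^ q * rho) ^ C * lam := by
      rw [div_eq_mul_inv]
      have : (P ^ m)⁻¹ * P ^ m = 1 := inv_mul_cancel₀ (pow_ne_zero _ hP)
      calc Δ ^ (B * k₁ + C * k₂) * (G₁ ^ B * G₂ ^ C * (P ^ m)⁻¹) * lam *
            (lam ^ (q * (B + C)) * rho ^ C * P ^ m) =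
            Δ ^ (B * k₁ + C * k₂) * (G₁ ^ B * G₂ ^ C) * lam *
            (lam ^ (q * (B + C)) * rho ^ C) * ((P ^ m)⁻¹ * P ^ m) := by ring
        _ = _ := by
          rw [this, mul_one]
          ring
    have hR : (lam⁻¹) ^ M * y ^ s * (w₁ ^ B * w₂ ^ C) *
        (lam ^ (q * (B + C)) * rho ^ C * P ^ m) =
        lam ^ (B * (kw + i + t) + C * (2 + r) + 1) * rho ^ (C + m) * y ^ (m + s) *
          (w₁ ^ B * w₂ ^ C) := by
      have h3 : (lam⁻¹) ^ M * lam ^ M = 1 := by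
        rw [← mul_pow, inv_mul_cancel₀ hlam, one_pow]
      rw [hM, hPy]
      calc (lam⁻¹) ^ M * y ^ s * (w₁ ^ B * w₂ ^ C) *
            (lam ^ (M + (B * (kw + i + t) + C * (2 + r) + 1)) * rho ^ C * (y * rho) ^ m) =
            ((lam⁻¹) ^ M * lam ^ M) * (lam ^ (B * (kw + i + t) + C * (2 + r) + 1) *
              rho ^ (C + m) * y ^ (m + s) * (w₁ ^ B * w₂ ^ C)) := by ring
        _ = _ := by rw [h3, one_mul]
    rw [hL, hR, h₁, h₂, e1, e2]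
    ring
  rw [key]
  exact mul_mem (mul_mem (pow_mem hl M) (pow_mem hy s))
    (mul_mem (pow_mem hw₁ B) (pow_mem hw₂ C))

/-- the special case of the quintic surfaces: the line is bounded -/
theorem kd_ln {E : Type*} [Field E] (b : ℕ) (hb : b ≤ 1)
    (O : ValuationSubring E) (G₂ lam rho Δ P z : E) (k₂ : ℕ) (hlam : lam ≠ 0)
    (hrho : rho ≠ 0) (hP : P ≠ 0) (hy : P / rho ∈ O) (hz : z / rho ∈ O)
    (h2 : ∃ w ∈ O, Δ ^ k₂ * G₂ * lam ^ 5 * rho =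
          lam ^ (2 + 3) * rho ^ (4 + b) * (P / rho) ^ 6 * w) :
    Δ ^ k₂ * (G₂ / P ^ (4 + b) * z) ∈ O := by
  obtain ⟨w, hw, h⟩ := h2
  have h5 : lam ^ 5 ≠ 0 := pow_ne_zero _ hlam
  have h3 : Δ ^ k₂ * G₂ * rho = rho ^ (4 + b) * (P / rho) ^ 6 * w := by
    refine mul_right_cancel₀ h5 ?_
    calc Δ ^ k₂ * G₂ * rho * lam ^ 5 = Δ ^ k₂ * G₂ * lam ^ 5 * rho := by ring
      _ = _ := by rw [h]; ring
  have h4 : Δ ^ k₂ * (G₂ / P ^ (4 + b) * z) = (P / rho) ^ (2 - b) * (z / rho) * w := by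
    have h6 : P ^ (4 + b) = (P / rho) ^ (4 + b) * rho ^ (4 + b) := by
      rw [← mul_pow, div_mul_cancel₀ _ hrho]
    have h7 : (P / rho) ^ 6 = (P / rho) ^ (2 - b) * (P / rho) ^ (4 + b) := by
      rw [← pow_add]
      congr 1
      omega
    have h8 : (P / rho) ^ (4 + b) ≠ 0 := pow_ne_zero _ (div_ne_zero hP hrho)
    have h9 : rho ^ (4 + b) ≠ 0 := pow_ne_zero _ hrho
    have h10 : Δ ^ k₂ * (G₂ / P ^ (4 + b) * z) =
        (Δ ^ k₂ * G₂ * rho) * (z / rho) / P ^ (4 + b) := by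
      field_simp
    rw [h10, h3, h6, h7]
    field_simp
  rw [h4]
  exact mul_mem (mul_mem (pow_mem hy _) hz) hw

end Pool.Agent.Helper6.QS
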