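import Pool.Agent.Helper6.QS.Bas

/-!
# QS-GAM: the polarised blocks of a quintic surface have exponent 0

Write `v_i = D_(f_i) x`. `gam_last`: for `f1`, `f2` vanishing at `x` the vectors `x, v_1, v_2` lie in
`n^⊥`, so `det(x, v_1, v_2, w)` only depends on `n . w` and
`Gm(f1, f2, f0) = f0(x) Gm(f1, f2, X_0^5)`.

`hv_mem`: let `H(j, b, c) = Ã_bc x_j + Ã_cj x_b + Ã_jb x_c`, where `Ã_bc = Ab(rr 0 b, rr 0 c)`
(`Ã_0b = 0`); then `Ab(rr j b, rr j c) = x_j H(j, b, c)`, `H` is alternating, and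
`x_m H(j,b,c) = x_j H(m,b,c) - x_b H(m,j,c) + x_c H(m,j,b)`; the coordinates of `hv` are
`H(1,2,3), -H(0,2,3), H(0,1,3), -H(0,1,2)` up to order. At a valuation ring with maximal coordinate
`m`, `x' = x / x_m`: `Gm_x(f1,f2,f0) = x_m^4 Gm_(x')(f1,f2,f0)` (`dv_scale`), the forms
`P x_m rr' m b`, so `H(m,b,c) = Ab(rr m b, rr m c) / x_m` and with `gam_last` for `f0 = X_m^5`
`Ab(rr m b, rr m c) = x_m^(-5) x_m^4 x_m^2 (Gm'(P rr' m b, P' rr' m c, X_m^5) - ...)`: so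
`H(m,b,c) = Gm'(P rr' m b, P' rr' m c, X_m^5) - Gm'(P rr' m c, P' rr' m b, X_m^5)` is bounded by
`Δ^(-5)` or so (`dv_bdd`; `Δ` also bounds the coefficients of `P`, `P'`), hence all `H(j,b,c)`.
-/

set_option autoImplicit false

namespace Pool.Agent.Helper6.QS

open scoped BigOperators
open MvPolynomial
open Pool.Agent.Helper8.LG (Bdd form mon)
open Pool.Agent.Helper49.LN (cP mo hf pl)

section

variable {Ω : Type*} [Field Ω]

/-! ### auxiliary lemmas -/

theorem gam_det4 (a b c d : Fin 4 → Ω) : Matrix.det (Matrix.of ![a, b, c, d]) =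
    a 0 * (b 1 * (c 2 * d 3 - c 3 * d 2) - b 2 * (c 1 * d 3 - c 3 * d 1) +
      b 3 * (c 1 * d 2 - c 2 * d 1)) -
    a 1 * (b 0 * (c 2 * d 3 - c 3 * d 2) - b 2 * (c 0 * d 3 - c 3 * d 0) +
      b 3 * (c 0 * d 2 - c 2 * d 0)) +
    a 2 * (b 0 * (c 1 * d 3 - c 3 * d 1) - b 1 * (c 0 * d 3 - c 3 * d 0) +
      b 3 * (c 0 * d 1 - c 1 * d 0)) -
    a 3 * (b 0 * (c 1 * d 2 - c 2 * d 1) - b 1 * (c 0 * d 2 - c 2 * d 0) +
      b 2 * (c 0 * d 1 - c 1 * d 0)) := by
  rw [Matrix.det_succ_row_zero]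
  simp only [Fin.sum_univ_four, Matrix.det_fin_three, Matrix.submatrix_apply, Matrix.of_apply,
    Fin.succAbove, Fin.succ_zero_eq_one, Fin.succ_one_eq_two]
  simp
  ring

theorem gam_dv_zero_gen {σ : Type*} [Fintype σ] [DecidableEq σ] {q : ℕ}
    (D : Sym σ q → Derivation ℤ Ω Ω) (x : σ → Ω) (i : σ) (hx : x i = 1)
    (f : MvPolynomial σ Ω) : dv D x f i = 0 := by
  unfold dv
  rw [Pool.Agent.Helper49.LN.cP_apply, Finset.sum_apply]
  refine Finset.sum_eq_zero fun J _ => ?_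
  rw [Pi.smul_apply, hx, Derivation.map_one_eq_zero, smul_zero]

theorem gam_dv_zero (D : Sym (Fin 4) 5 → Derivation ℤ Ω Ω) (x : Fin 4 → Ω) (hx : x 0 = 1)
    (f : MvPolynomial (Fin 4) Ω) : dv D x f 0 = 0 := gam_dv_zero_gen D x 0 hx f

theorem gam_det_vol (x u v w : Fin 4 → Ω) (hx : x 0 = 1) (hu : u 0 = 0) (hv : v 0 = 0)
    (hw : w 0 = 0) : Matrix.det (Matrix.of ![x, u, v, w]) = vol3 u v w := by
  unfold vol3
  rw [gam_det4, hx, hu, hv, hw]
  ring

theorem gam_vol (D : Sym (Fin 4) 5 → Derivation ℤ Ω Ω) (x : Fin 4 → Ω) (hx : x 0 = 1)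
    (f1 f2 f0 : MvPolynomial (Fin 4) Ω) :
    Gm D x f1 f2 f0 = vol3 (dv D x f1) (dv D x f2) (dv D x f0) :=
  gam_det_vol x _ _ _ hx (gam_dv_zero D x hx f1) (gam_dv_zero D x hx f2) (gam_dv_zero D x hx f0)

theorem gam_dv_lin (D : Sym (Fin 4) 5 → Derivation ℤ Ω Ω) (x : Fin 4 → Ω)
    (P : MvPolynomial (Fin 4) Ω) (α β : Ω) (u w : Fin 4 → Ω) :
    dv D x (P * lf (α • u + β • w)) = α • dv D x (P * lf u) + β • dv D x (P * lf w) := by
  rw [lf_add, lf_smul, lf_smul, mul_add, mul_smul_comm, mul_smul_comm, map_add, map_smul, map_smul]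

theorem gam_Ab_left (D : Sym (Fin 4) 5 → Derivation ℤ Ω Ω) (x : Fin 4 → Ω) (hx : x 0 = 1)
    (P P' : MvPolynomial (Fin 4) Ω) (α β : Ω) (u w l : Fin 4 → Ω) :
    Ab D x P P' (α • u + β • w) l = α * Ab D x P P' u l + β * Ab D x P P' w l := by
  unfold Ab
  rw [gam_vol D x hx, gam_vol D x hx, gam_vol D x hx, gam_vol D x hx, gam_vol D x hx,
    gam_vol D x hx, gam_dv_lin, gam_dv_lin]
  unfold vol3
  simp only [Pi.add_apply, Pi.smul_apply, smul_eq_mul]
  ring

theorem gam_Ab_anti (D : Sym (Fin 4) 5 → Derivation ℤ Ω Ω) (x : Fin 4 → Ω) (hx : x 0 = 1)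
    (P P' : MvPolynomial (Fin 4) Ω) (l l' : Fin 4 → Ω) :
    Ab D x P P' l l' = - Ab D x P P' l' l := by
  unfold Ab
  ring

theorem gam_Ab_self (D : Sym (Fin 4) 5 → Derivation ℤ Ω Ω) (x : Fin 4 → Ω)
    (P P' : MvPolynomial (Fin 4) Ω) (l : Fin 4 → Ω) : Ab D x P P' l l = 0 := by
  unfold Ab
  ring

theorem gam_Ab_right (D : Sym (Fin 4) 5 → Derivation ℤ Ω Ω) (x : Fin 4 → Ω) (hx : x 0 = 1)
    (P P' : MvPolynomial (Fin 4) Ω) (α β : Ω) (u w l : Fin 4 → Ω) :
    Ab D x P P' l (α • u + β • w) = α * Ab D x P P' l u + β * Ab D x P P' l w := by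
  rw [gam_Ab_anti D x hx, gam_Ab_left D x hx, gam_Ab_anti D x hx P P' u l,
    gam_Ab_anti D x hx P P' w l]
  ring

theorem gam_rr (x : Fin 4 → Ω) (hx : x 0 = 1) (j b : Fin 4) :
    rr x j b = x j • rr x 0 b + (- x b) • rr x 0 j := by
  funext i
  simp only [rr, Pi.add_apply, Pi.smul_apply, smul_eq_mul, hx]
  ring

theorem gam_rr_zero (x : Fin 4 → Ω) (j : Fin 4) : rr x j j = 0 := by
  funext i
  simp only [rr, Pi.zero_apply, sub_self]

theorem gam_Ab_zero (D : Sym (Fin 4) 5 → Derivation ℤ Ω Ω) (x : Fin 4 → Ω) (hx : x 0 = 1)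
    (P P' : MvPolynomial (Fin 4) Ω) (l : Fin 4 → Ω) : Ab D x P P' 0 l = 0 := by
  have h := gam_Ab_left D x hx P P' 0 0 0 0 l
  rw [zero_smul, add_zero, zero_mul, add_zero] at h
  exact h

theorem gam_rr_dt (x : Fin 4 → Ω) (j b : Fin 4) : dt (rr x j b) x = 0 := by
  classical
  unfold dt rr
  simp only [sub_mul, mul_ite, mul_one, mul_zero, ite_mul, zero_mul, Finset.sum_sub_distrib,
    Finset.sum_ite_eq', Finset.mem_univ, if_true]
  ring

/-- the alternating function `H` -/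
noncomputable def gam_H (D : Sym (Fin 4) 5 → Derivation ℤ Ω Ω) (x : Fin 4 → Ω)
    (P P' : MvPolynomial (Fin 4) Ω) (j b c : Fin 4) : Ω :=
  Ab D x P P' (rr x 0 b) (rr x 0 c) * x j + Ab D x P P' (rr x 0 c) (rr x 0 j) * x b +
    Ab D x P P' (rr x 0 j) (rr x 0 b) * x c

theorem gam_H_rr (D : Sym (Fin 4) 5 → Derivation ℤ Ω Ω) (x : Fin 4 → Ω) (hx : x 0 = 1)
    (P P' : MvPolynomial (Fin 4) Ω) (j b c : Fin 4) :
    Ab D x P P' (rr x j b) (rr x j c) = x j * gam_H D x P P' j b c := by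
  rw [gam_rr x hx j b, gam_rr x hx j c, gam_Ab_left D x hx, gam_Ab_right D x hx,
    gam_Ab_right D x hx, gam_Ab_self D x P P' (rr x 0 j), gam_H,
    gam_Ab_anti D x hx P P' (rr x 0 b) (rr x 0 j), gam_Ab_anti D x hx P P' (rr x 0 c) (rr x 0 j)]
  ring

theorem gam_H_rel (D : Sym (Fin 4) 5 → Derivation ℤ Ω Ω) (x : Fin 4 → Ω) (hx : x 0 = 1)
    (P P' : MvPolynomial (Fin 4) Ω) (m j b c : Fin 4) :
    x m * gam_H D x P P' j b c = x j * gam_H D x P P' m b c - x b * gam_H D x P P' m j c +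
      x c * gam_H D x P P' m j b := by
  unfold gam_H
  rw [gam_Ab_anti D x hx P P' (rr x 0 c) (rr x 0 m), gam_Ab_anti D x hx P P' (rr x 0 j) (rr x 0 c),
    gam_Ab_anti D x hx P P' (rr x 0 b) (rr x 0 m)]
  ring

/-- the derivative of the product with a scaled linear form -/
theorem gam_dv_rr (D : Sym (Fin 4) 5 → Derivation ℤ Ω Ω) (x x' : Fin 4 → Ω) (m : Fin 4)
    (hm : x m ≠ 0) (hx' : x' = fun l => x l / x m) (P : MvPolynomial (Fin 4) Ω) (b : Fin 4) :
    ∃ c : Ω, dv D x (P * lf (rr x m b)) =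
      (x m * x m) • dv D x' (P * lf (rr x' m b)) + c • x := by
  have h1 : rr x m b = x m • rr x' m b := by
    rw [hx']
    funext i
    simp only [rr, Pi.smul_apply, smul_eq_mul, div_self hm, one_mul]
    rw [mul_sub, ← mul_assoc, mul_div_cancel₀ _ hm]
  obtain ⟨c, hc⟩ := dv_scale D x m hm (P * lf (rr x' m b))
  rw [← hx'] at hc
  refine ⟨x m * c, ?_⟩
  rw [h1, lf_smul, mul_smul_comm, map_smul, hc, smul_add, smul_smul, smul_smul]

theorem gam_dv_pow (D : Sym (Fin 4) 5 → Derivation ℤ Ω Ω) (x x' : Fin 4 → Ω) (m : Fin 4)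
    (hm : x m ≠ 0) (hx' : x' = fun l => x l / x m) (P : MvPolynomial (Fin 4) Ω) :
    ∃ c : Ω, dv D x P = x m • dv D x' P + c • x := by
  obtain ⟨c, hc⟩ := dv_scale D x m hm P
  rw [← hx'] at hc
  exact ⟨c, hc⟩

theorem gam_det_mem (O : ValuationSubring Ω) (M : Matrix (Fin 4) (Fin 4) Ω)
    (h : ∀ i j, M i j ∈ O) : M.det ∈ O := by
  rw [Matrix.det_apply']
  exact sum_mem fun σ _ => mul_mem (intCast_mem O _) (prod_mem fun i _ => h _ _)

theorem gam_det_scale (x x' u v w u' v' w' : Fin 4 → Ω) (t c1 c2 c0 : Ω)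
    (hx : ∀ l, x l = t * x' l) (hu : u = (t * t) • u' + c1 • x) (hv : v = (t * t) • v' + c2 • x)
    (hw : w = t • w' + c0 • x) : Matrix.det (Matrix.of ![x, u, v, w]) =
      t ^ 6 * Matrix.det (Matrix.of ![x', u', v', w']) := by
  rw [gam_det4, gam_det4, hu, hv, hw]
  simp only [Pi.add_apply, Pi.smul_apply, smul_eq_mul]
  rw [hx 0, hx 1, hx 2, hx 3]
  ring

theorem gam_det_bdd (O : ValuationSubring Ω) (Δ : Ω) (x u v w : Fin 4 → Ω)
    (hx : ∀ l, x l ∈ O) (hu : ∀ l, Δ ^ (1 + 1) * u l ∈ O) (hv : ∀ l, Δ ^ (1 + 1) * v l ∈ O)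
    (hw : ∀ l, Δ ^ (0 + 1) * w l ∈ O) : Δ ^ 5 * Matrix.det (Matrix.of ![x, u, v, w]) ∈ O := by
  have e : Δ ^ 5 * Matrix.det (Matrix.of ![x, u, v, w]) =
      Matrix.det (Matrix.of ![x, Δ ^ (1 + 1) • u, Δ ^ (1 + 1) • v, Δ ^ (0 + 1) • w]) := by
    rw [gam_det4, gam_det4]
    simp only [Pi.smul_apply, smul_eq_mul]
    ring
  rw [e]
  refine gam_det_mem O _ fun i k => ?_
  fin_cases i
  · exact hx k
  · exact hu k
  · exact hv k
  · exact hw k

theorem gam_coeff_lf (O : ValuationSubring Ω) (l : Fin 4 → Ω) (hl : ∀ i, l i ∈ O)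
    (mm : Fin 4 →₀ ℕ) : coeff mm (lf l) ∈ O := by
  classical
  unfold lf
  rw [coeff_sum]
  refine sum_mem fun i _ => ?_
  rw [coeff_smul, smul_eq_mul, coeff_X]
  refine mul_mem (hl i) ?_
  split_ifs
  · exact one_mem O
  · exact zero_mem O

theorem gam_coeff_mul (O : ValuationSubring Ω) (Δ : Ω) (P : MvPolynomial (Fin 4) Ω)
    (hP : ∀ m, Δ * coeff m P ∈ O) (l : Fin 4 → Ω) (hl : ∀ i, l i ∈ O)
    (mm : Fin 4 →₀ ℕ) : Δ ^ 1 * coeff mm (P * lf l) ∈ O := by
  classical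
  rw [pow_one, coeff_mul, Finset.mul_sum]
  refine sum_mem fun p _ => ?_
  rw [← mul_assoc]
  exact mul_mem (hP p.1) (gam_coeff_lf O l hl p.2)

theorem gam_last_aux (n x u v w w' : Fin 4 → Ω) (e : Ω) (hx : dt n x = 0) (hu : dt n u = 0)
    (hv : dt n v = 0) (hw : dt n w = - e) (hw' : dt n w' = - 1) :
    Matrix.det (Matrix.of ![x, u, v, w]) = e * Matrix.det (Matrix.of ![x, u, v, w']) := by
  classical
  have hn0 : n ≠ 0 := by
    intro h
    rw [h] at hw'
    simp only [dt, Pi.zero_apply, zero_mul, Finset.sum_const_zero] at hw'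
    exact one_ne_zero (neg_eq_zero.1 hw'.symm)
  have hnw : dt n (w - e • w') = 0 := by
    have h3 : dt n (w - e • w') = dt n w - e * dt n w' := by
      simp only [dt, Pi.sub_apply, Pi.smul_apply, smul_eq_mul, Finset.mul_sum,
        ← Finset.sum_sub_distrib]
      exact Finset.sum_congr rfl fun i _ => by ring
    rw [h3, hw, hw']
    ring
  have hdet : Matrix.det (Matrix.of ![x, u, v, w - e • w']) = 0 := by
    rw [← Matrix.exists_mulVec_eq_zero_iff]
    refine ⟨n, hn0, ?_⟩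
    have h4 : ∀ u : Fin 4 → Ω, dt n u = 0 → u ⬝ᵥ n = 0 := by
      intro u hu
      rw [← hu]
      simp only [dotProduct, dt]
      exact Finset.sum_congr rfl fun i _ => mul_comm _ _
    have g3 : ∀ i : Fin 4, dt n ((![x, u, v, w - e • w'] : Fin 4 → Fin 4 → Ω) i) = 0 := by
      intro i
      fin_cases i
      · exact hx
      · exact hu
      · exact hv
      · exact hnw
    funext i
    exact h4 _ (g3 i)
  have h5 : Matrix.det (Matrix.of ![x, u, v, w - e • w']) =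
      Matrix.det (Matrix.of ![x, u, v, w]) - e * Matrix.det (Matrix.of ![x, u, v, w']) := by
    rw [gam_det4, gam_det4, gam_det4]
    simp only [Pi.sub_apply, Pi.smul_apply, smul_eq_mul]
    ring
  rw [h5] at hdet
  exact sub_eq_zero.1 hdet

theorem gam_last (D : Sym (Fin 4) 5 → Derivation ℤ Ω Ω) (a : Sym (Fin 4) 5 → Ω)
    (hD : ∀ I J, D J (a I) = if I = J then 1 else 0) (x : Fin 4 → Ω) (hx : x 0 = 1)
    (hF : form a x = 0) (f1 f2 f0 : MvPolynomial (Fin 4) Ω) (h1 : ev 5 x f1 = 0)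
    (h2 : ev 5 x f2 = 0) : Gm D x f1 f2 f0 = ev 5 x f0 * Gm D x f1 f2 (X 0 ^ 5) := by
  obtain ⟨n, hn, hnf⟩ := dv_normal D a hD (by norm_num) x hF
  have hev : ev 5 x (X 0 ^ 5 : MvPolynomial (Fin 4) Ω) = 1 :=
    (ev_hom 5 x _ (isHomogeneous_X_pow 0 5)).trans (by rw [map_pow, eval_X, hx, one_pow])
  exact gam_last_aux n x _ _ _ _ _ hn ((hnf f1).trans (by rw [h1, neg_zero]))
    ((hnf f2).trans (by rw [h2, neg_zero])) (hnf f0) ((hnf _).trans (by rw [hev]))

theorem hv_dt (D : Sym (Fin 4) 5 → Derivation ℤ Ω Ω) (x : Fin 4 → Ω) (hx : x 0 = 1)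
    (P P' : MvPolynomial (Fin 4) Ω) : dt (hv D x P P') x = 0 := by
  simp only [dt, Fin.sum_univ_four, hv, Matrix.cons_val_zero, Matrix.cons_val_one,
    Matrix.cons_val, hx]
  ring

/-- the block in terms of `hv` -/
theorem Ab_eq (D : Sym (Fin 4) 5 → Derivation ℤ Ω Ω) (x : Fin 4 → Ω) (hx : x 0 = 1)
    (P P' : MvPolynomial (Fin 4) Ω) (l l' : Fin 4 → Ω) (hl : dt l x = 0) (hl' : dt l' x = 0) :
    Ab D x P P' l l' = - vol3 (hv D x P P') l l' := by
  have key : ∀ l : Fin 4 → Ω, dt l x = 0 →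
      l = l 1 • rr x 0 1 + (1 : Ω) • (l 2 • rr x 0 2 + l 3 • rr x 0 3) := by
    intro l hl
    simp only [dt, Fin.sum_univ_four, hx, mul_one] at hl
    funext i
    fin_cases i
    · simp [rr, hx]
      linear_combination hl
    · simp [rr, hx]
    · simp [rr, hx]
    · simp [rr, hx]
  rw [key l hl, key l' hl']
  rw [gam_Ab_left D x hx, gam_Ab_left D x hx, gam_Ab_right D x hx, gam_Ab_right D x hx,
    gam_Ab_right D x hx, gam_Ab_right D x hx, gam_Ab_right D x hx, gam_Ab_right D x hx,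
    gam_Ab_self, gam_Ab_self, gam_Ab_self, gam_Ab_anti D x hx P P' (rr x 0 2) (rr x 0 1),
    gam_Ab_anti D x hx P P' (rr x 0 3) (rr x 0 1), gam_Ab_anti D x hx P P' (rr x 0 3) (rr x 0 2)]
  simp [vol3, hv, rr, hx]
  ring

theorem gam_ev_pow_gen {σ : Type*} [Fintype σ] [DecidableEq σ] (n : ℕ) (x : σ → Ω) (m : σ) :
    ev n x (X m ^ n : MvPolynomial σ Ω) = x m ^ n := by
  rw [ev_hom n x _ (isHomogeneous_X_pow m n), map_pow, eval_X]

theorem gam_ev_pow (x : Fin 4 → Ω) (m : Fin 4) :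
    ev 5 x (X m ^ 5 : MvPolynomial (Fin 4) Ω) = x m ^ 5 := gam_ev_pow_gen 5 x m

theorem gam_ev_rr_gen {σ : Type*} [Fintype σ] [DecidableEq σ] (n k : ℕ) (hk : n + 1 = k)
    (x l : σ → Ω) (Q : MvPolynomial σ Ω) (hl : dt l x = 0) : ev k x (Q * lf l) = 0 := by
  subst hk
  rw [ev_lf, hl, mul_zero]

theorem gam_ev_rr (x : Fin 4 → Ω) (m b : Fin 4) (Q : MvPolynomial (Fin 4) Ω) :
    ev 5 x (Q * lf (rr x m b)) = 0 :=
  gam_ev_rr_gen 4 5 rfl x (rr x m b) Q (gam_rr_dt x m b)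

/-- change of scale in the block -/
theorem gam_sc {D : Sym (Fin 4) 5 → Derivation ℤ Ω Ω} {a : Sym (Fin 4) 5 → Ω}
    (hD : ∀ I J, D J (a I) = if I = J then 1 else 0) (x x' : Fin 4 → Ω) (hx : x 0 = 1)
    (hF : form a x = 0) (m : Fin 4) (hm : x m ≠ 0) (hx' : x' = fun l => x l / x m)
    (Q Q' : MvPolynomial (Fin 4) Ω) (b c : Fin 4) :
    Gm D x (Q * lf (rr x m b)) (Q' * lf (rr x m c)) (X 0 ^ 5) =
      x m * Gm D x' (Q * lf (rr x' m b)) (Q' * lf (rr x' m c)) (X m ^ 5) := by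
  have e1 : Gm D x (Q * lf (rr x m b)) (Q' * lf (rr x m c)) (X m ^ 5) =
      x m ^ 5 * Gm D x (Q * lf (rr x m b)) (Q' * lf (rr x m c)) (X 0 ^ 5) := by
    rw [gam_last D a hD x hx hF (Q * lf (rr x m b)) (Q' * lf (rr x m c)) (X m ^ 5)
      (gam_ev_rr x m b Q) (gam_ev_rr x m c Q'), gam_ev_pow x m]
  obtain ⟨c1, h1⟩ := gam_dv_rr D x x' m hm hx' Q b
  obtain ⟨c2, h2⟩ := gam_dv_rr D x x' m hm hx' Q' c
  obtain ⟨c0, h0⟩ := gam_dv_pow D x x' m hm hx' (X m ^ 5)
  have hxx : ∀ l, x l = x m * x' l := fun l => by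
    rw [hx']
    simp only
    rw [mul_div_cancel₀ _ hm]
  have e2 : Gm D x (Q * lf (rr x m b)) (Q' * lf (rr x m c)) (X m ^ 5) =
      x m ^ 6 * Gm D x' (Q * lf (rr x' m b)) (Q' * lf (rr x' m c)) (X m ^ 5) :=
    gam_det_scale x x' (dv D x (Q * lf (rr x m b))) (dv D x (Q' * lf (rr x m c)))
      (dv D x (X m ^ 5)) (dv D x' (Q * lf (rr x' m b))) (dv D x' (Q' * lf (rr x' m c)))
      (dv D x' (X m ^ 5)) (x m) c1 c2 c0 hxx h1 h2 h0
  refine mul_left_cancel₀ (pow_ne_zero 5 hm) ?_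
  rw [← e1, e2]
  generalize Gm D x' (Q * lf (rr x' m b)) (Q' * lf (rr x' m c)) (X m ^ 5) = z
  ring

theorem hv_mem [CharZero Ω] {D : Sym (Fin 4) 5 → Derivation ℤ Ω Ω} {a : Sym (Fin 4) 5 → Ω}
    {B : Subfield Ω} (hB : Frame D a B) (x : Fin 4 → Ω) (hx : x 0 = 1) (hF : form a x = 0)
    (P P' : MvPolynomial (Fin 4) Ω) (hP : RatP B P) (hP' : RatP B P') :
    ∀ i, hv D x P P' i ∈ B := by
  classical
  have hA0 : ∀ b, Ab D x P P' (rr x 0 0) (rr x 0 b) = 0 := fun b => by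
    rw [gam_rr_zero, gam_Ab_zero D x hx]
  have hA0' : ∀ b, Ab D x P P' (rr x 0 b) (rr x 0 0) = 0 := fun b => by
    rw [gam_Ab_anti D x hx, hA0, neg_zero]
  have hH : ∀ j b c, gam_H D x P P' j b c ∈ B := by
    intro j b c
    refine rat_max hB x 0 hx (P.support.image (fun m => coeff m P) ∪
      P'.support.image (fun m => coeff m P')) ?_ _ 5 ?_
    · intro y hy
      rcases Finset.mem_union.1 hy with hy | hy
      · obtain ⟨m, -, rfl⟩ := Finset.mem_image.1 hy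
        exact hP m
      · obtain ⟨m, -, rfl⟩ := Finset.mem_image.1 hy
        exact hP' m
    · intro O Δ hΔ hs m hm hxm
      have hcP : ∀ mm, Δ * coeff mm P ∈ O := by
        intro mm
        by_cases h : coeff mm P = 0
        · rw [h, mul_zero]
          exact zero_mem O
        · exact hs _ (Finset.mem_union_left _ (Finset.mem_image.2
            ⟨mm, mem_support_iff.2 h, rfl⟩))
      have hcP' : ∀ mm, Δ * coeff mm P' ∈ O := by
        intro mm
        by_cases h : coeff mm P' = 0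
        · rw [h, mul_zero]
          exact zero_mem O
        · exact hs _ (Finset.mem_union_right _ (Finset.mem_image.2
            ⟨mm, mem_support_iff.2 h, rfl⟩))
      obtain ⟨x', hx'⟩ : ∃ x' : Fin 4 → Ω, x' = fun l => x l / x m := ⟨_, rfl⟩
      have hxm' : ∀ l, x' l ∈ O := fun l => by
        rw [hx']
        exact hxm l
      have hrr : ∀ b i, rr x' m b i ∈ O := by
        intro b i
        simp only [rr]
        refine sub_mem (mul_mem (hxm' m) ?_) (mul_mem (hxm' b) ?_)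
        · split_ifs
          · exact one_mem O
          · exact zero_mem O
        · split_ifs
          · exact one_mem O
          · exact zero_mem O
      have hpow : ∀ mm : Fin 4 →₀ ℕ, Δ ^ 0 * coeff mm (X m ^ 5 : MvPolynomial (Fin 4) Ω) ∈ O := by
        intro mm
        rw [pow_zero, one_mul, coeff_X_pow]
        split_ifs
        · exact one_mem O
        · exact zero_mem O
      -- the bounded determinants
      have hbd : ∀ (b c : Fin 4) (Q Q' : MvPolynomial (Fin 4) Ω), (∀ mm, Δ * coeff mm Q ∈ O) →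
          (∀ mm, Δ * coeff mm Q' ∈ O) →
          Δ ^ 5 * Gm D x' (Q * lf (rr x' m b)) (Q' * lf (rr x' m c)) (X m ^ 5) ∈ O := by
        intro b c Q Q' hQ hQ'
        exact gam_det_bdd O Δ x' _ _ _ hxm'
          (dv_bdd D x' O Δ hΔ hxm' _ 1 (gam_coeff_mul O Δ Q hQ _ (hrr b)))
          (dv_bdd D x' O Δ hΔ hxm' _ 1 (gam_coeff_mul O Δ Q' hQ' _ (hrr c)))
          (dv_bdd D x' O Δ hΔ hxm' (X m ^ 5) 0 hpow)
      -- change of scale
      have hsc := gam_sc hB.dual x x' hx hF m hm hx'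
      have hHm : ∀ b c, Δ ^ 5 * gam_H D x P P' m b c ∈ O := by
        intro b c
        have e3 := gam_H_rr D x hx P P' m b c
        unfold Ab at e3
        rw [hsc P P' b c, hsc P P' c b] at e3
        have e4 : gam_H D x P P' m b c =
            Gm D x' (P * lf (rr x' m b)) (P' * lf (rr x' m c)) (X m ^ 5) -
              Gm D x' (P * lf (rr x' m c)) (P' * lf (rr x' m b)) (X m ^ 5) := by
          refine mul_left_cancel₀ hm ?_
          rw [← e3]
          ring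
        rw [e4, mul_sub]
        exact sub_mem (hbd b c P P' hcP hcP') (hbd c b P P' hcP hcP')
      have e5 := gam_H_rel D x hx P P' m j b c
      have e6 : Δ ^ 5 * gam_H D x P P' j b c = x j / x m * (Δ ^ 5 * gam_H D x P P' m b c) -
          x b / x m * (Δ ^ 5 * gam_H D x P P' m j c) +
          x c / x m * (Δ ^ 5 * gam_H D x P P' m j b) := by
        refine mul_left_cancel₀ hm ?_
        field_simp
        linear_combination Δ ^ 5 * e5
      rw [e6]
      exact add_mem (sub_mem (mul_mem (hxm j) (hHm b c)) (mul_mem (hxm b) (hHm j c)))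
        (mul_mem (hxm c) (hHm j b))
  intro i
  fin_cases i
  · have h := hH 1 2 3
    unfold gam_H at h
    rw [gam_Ab_anti D x hx P P' (rr x 0 3) (rr x 0 1)] at h
    have e : hv D x P P' 0 = Ab D x P P' (rr x 0 2) (rr x 0 3) * x 1 +
        -Ab D x P P' (rr x 0 1) (rr x 0 3) * x 2 + Ab D x P P' (rr x 0 1) (rr x 0 2) * x 3 := by
      simp only [hv, Matrix.cons_val_zero]
      ring
    change hv D x P P' 0 ∈ B
    rw [e]
    exact h
  · have h := hH 0 2 3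
    unfold gam_H at h
    rw [hA0, hA0', hx, zero_mul, zero_mul, add_zero, add_zero, mul_one] at h
    exact neg_mem h
  · have h := hH 0 1 3
    unfold gam_H at h
    rw [hA0, hA0', hx, zero_mul, zero_mul, add_zero, add_zero, mul_one] at h
    exact h
  · have h := hH 0 1 2
    unfold gam_H at h
    rw [hA0, hA0', hx, zero_mul, zero_mul, add_zero, add_zero, mul_one] at h
    exact neg_mem h

end

end Pool.Agent.Helper6.QS
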