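import Pool.Agent.Helper6.QS.Lat1

/-! QS-4: a self-dual lattice of rank two has an orthonormal basis. -/

set_option autoImplicit false
open Quaternion
namespace Helper6.QS

/-- right multiplication -/
def onbR (x : ℍ[ℚ] × ℍ[ℚ]) (l : ℍ[ℚ]) : ℍ[ℚ] × ℍ[ℚ] := (x.1 * l, x.2 * l)

section

variable (m m' M : ℤ)

theorem onb_add_right (x y z : ℍ[ℚ] × ℍ[ℚ]) :
    hf m m' M x (y + z) = hf m m' M x y + hf m m' M x z := by
  simp only [hf, Prod.fst_add, Prod.snd_add, mul_add]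
  abel

theorem onb_sub_right (x y z : ℍ[ℚ] × ℍ[ℚ]) :
    hf m m' M x (y - z) = hf m m' M x y - hf m m' M x z := by
  simp only [hf, Prod.fst_sub, Prod.snd_sub, mul_sub, mul_add]
  abel

theorem onb_R_right (x y : ℍ[ℚ] × ℍ[ℚ]) (l : ℍ[ℚ]) :
    hf m m' M x (onbR y l) = hf m m' M x y * l := by
  simp only [hf, onbR, add_mul, mul_assoc]

theorem onb_star (x y : ℍ[ℚ] × ℍ[ℚ]) : star (hf m m' M x y) = hf m m' M y x := by
  simp only [hf, star_add, star_mul, star_star, star_intCast]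
  rw [Int.cast_comm m, Int.cast_comm m', Int.cast_comm M, add_comm (star y.2 * x.1)]

theorem onb_add_left (x y z : ℍ[ℚ] × ℍ[ℚ]) :
    hf m m' M (x + y) z = hf m m' M x z + hf m m' M y z := by
  rw [← onb_star, onb_add_right, star_add, onb_star, onb_star]

theorem onb_sub_left (x y z : ℍ[ℚ] × ℍ[ℚ]) :
    hf m m' M (x - y) z = hf m m' M x z - hf m m' M y z := by
  rw [← onb_star, onb_sub_right, star_sub, onb_star, onb_star]

theorem onb_R_left (x y : ℍ[ℚ] × ℍ[ℚ]) (l : ℍ[ℚ]) :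
    hf m m' M (onbR x l) y = star l * hf m m' M x y := by
  rw [← onb_star, onb_R_right, star_mul, onb_star]

/-- the norm -/
def onbN (x : ℍ[ℚ] × ℍ[ℚ]) : ℚ := (hf m m' M x x).re

theorem onb_cast (r : ℚ) : (Rat.cast r : ℍ[ℚ]) = Quaternion.coe r := rfl

theorem onb_self (x : ℍ[ℚ] × ℍ[ℚ]) : hf m m' M x x = Quaternion.coe (onbN m m' M x) :=
  Quaternion.star_eq_self.1 (onb_star m m' M x x)

theorem onb_R_N (x : ℍ[ℚ] × ℍ[ℚ]) (l : ℍ[ℚ]) :
    onbN m m' M (onbR x l) = normSq l * onbN m m' M x := by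
  have h : hf m m' M (onbR x l) (onbR x l) = Quaternion.coe (normSq l * onbN m m' M x) := by
    rw [onb_R_left, onb_R_right, onb_self, Quaternion.coe_commutes, ← mul_assoc,
      Quaternion.star_mul_self, Quaternion.coe_mul]
  unfold onbN at h ⊢
  rw [h]
  rfl

theorem onb_pos_id (x : ℍ[ℚ] × ℍ[ℚ]) : (m : ℚ) * onbN m m' M x =
    normSq ((m : ℍ[ℚ]) * x.1 + (m' : ℍ[ℚ]) * x.2) + ((m : ℚ) * M - m' ^ 2) * normSq x.2 := by
  simp only [onbN, hf, Quaternion.normSq_def', Quaternion.re_add, Quaternion.imI_add,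
    Quaternion.imJ_add, Quaternion.imK_add, Quaternion.re_mul, Quaternion.imI_mul,
    Quaternion.imJ_mul, Quaternion.imK_mul, Quaternion.re_star, Quaternion.imI_star,
    Quaternion.imJ_star, Quaternion.imK_star, Quaternion.re_intCast, Quaternion.imI_intCast,
    Quaternion.imJ_intCast, Quaternion.imK_intCast]
  ring

variable {m m' M}

theorem onb_normSq_pos {x : ℍ[ℚ]} (h : x ≠ 0) : 0 < normSq x :=
  lt_of_le_of_ne Quaternion.normSq_nonneg (Ne.symm (Quaternion.normSq_ne_zero.2 h))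

theorem onb_pos (hm : 0 < m) (hD : 0 < m * M - m' ^ 2) {x : ℍ[ℚ] × ℍ[ℚ]} (hx : x ≠ 0) :
    0 < onbN m m' M x := by
  have h := onb_pos_id m m' M x
  have hm' : (0 : ℚ) < m := by exact_mod_cast hm
  have hD' : (0 : ℚ) < (m : ℚ) * M - m' ^ 2 := by exact_mod_cast hD
  have h1 : 0 < (m : ℚ) * onbN m m' M x := by
    rw [h]
    by_cases h2 : x.2 = 0
    · have h3 : x.1 ≠ 0 := fun h4 => hx (Prod.ext h4 h2)
      rw [h2, mul_zero, add_zero, map_zero, mul_zero, add_zero, map_mul]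
      have h5 : (normSq (m : ℍ[ℚ]) : ℚ) = (m : ℚ) ^ 2 := by
        rw [Quaternion.normSq_intCast]
      rw [h5]
      have h6 := onb_normSq_pos h3
      positivity
    · have h6 := onb_normSq_pos h2
      have h7 : 0 ≤ normSq ((m : ℍ[ℚ]) * x.1 + (m' : ℍ[ℚ]) * x.2) := Quaternion.normSq_nonneg
      have h8 := mul_pos hD' h6
      linarith
  by_contra h9
  have := mul_nonpos_of_nonneg_of_nonpos hm'.le (not_lt.1 h9)
  linarith

theorem onb_nonneg (hm : 0 < m) (hD : 0 < m * M - m' ^ 2) (x : ℍ[ℚ] × ℍ[ℚ]) :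
    0 ≤ onbN m m' M x := by
  by_cases hx : x = 0
  · subst hx
    have h : onbN m m' M 0 = 0 := by simp [onbN, hf]
    rw [h]
  · exact (onb_pos hm hD hx).le

/-- Two vectors orthogonal to the same vector are dependent. -/
theorem onb_dep (hm : 0 < m) (hD : 0 < m * M - m' ^ 2) {a b r : ℍ[ℚ] × ℍ[ℚ]} (ha : a ≠ 0)
    (hb : b ≠ 0) (h1 : hf m m' M a b = 0) (h2 : hf m m' M a r = 0) : ∃ l, r = onbR b l := by
  have key : ∀ x, hf m m' M a x = ((m : ℍ[ℚ]) * star a.1 + (m' : ℍ[ℚ]) * star a.2) * x.1 +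
      ((m' : ℍ[ℚ]) * star a.1 + (M : ℍ[ℚ]) * star a.2) * x.2 := by
    intro x
    simp only [hf, add_mul, mul_add, mul_assoc]
    abel
  rw [key] at h1 h2
  set α := (m : ℍ[ℚ]) * star a.1 + (m' : ℍ[ℚ]) * star a.2 with hα
  set β := (m' : ℍ[ℚ]) * star a.1 + (M : ℍ[ℚ]) * star a.2 with hβ
  by_cases hα0 : α = 0
  · have hβ0 : β ≠ 0 := by
      intro hβ0
      have h3 := onb_pos hm hD ha
      have h4 := key a
      rw [hα0, hβ0, zero_mul, zero_mul, add_zero, onb_self] at h4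
      have h5 : onbN m m' M a = 0 := by
        have := congrArg QuaternionAlgebra.re h4
        exact this
      linarith
    rw [hα0, zero_mul, zero_add] at h1 h2
    have hb2 : b.2 = 0 := (mul_eq_zero.1 h1).resolve_left hβ0
    have hr2 : r.2 = 0 := (mul_eq_zero.1 h2).resolve_left hβ0
    have hb1 : b.1 ≠ 0 := fun h => hb (Prod.ext h hb2)
    refine ⟨b.1⁻¹ * r.1, Prod.ext ?_ ?_⟩
    · show r.1 = b.1 * (b.1⁻¹ * r.1)
      rw [mul_inv_cancel_left₀ hb1]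
    · show r.2 = b.2 * _
      rw [hr2, hb2, zero_mul]
  · have hb1 : b.1 = -(α⁻¹ * (β * b.2)) := by
      have h3 : α * b.1 = -(β * b.2) := eq_neg_of_add_eq_zero_left h1
      rw [← mul_neg, ← h3, inv_mul_cancel_left₀ hα0]
    have hr1 : r.1 = -(α⁻¹ * (β * r.2)) := by
      have h3 : α * r.1 = -(β * r.2) := eq_neg_of_add_eq_zero_left h2
      rw [← mul_neg, ← h3, inv_mul_cancel_left₀ hα0]
    have hb2 : b.2 ≠ 0 := by
      intro h
      rw [h, mul_zero, mul_zero, neg_zero] at hb1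
      exact hb (Prod.ext hb1 h)
    refine ⟨b.2⁻¹ * r.2, Prod.ext ?_ ?_⟩
    · show r.1 = b.1 * (b.2⁻¹ * r.2)
      rw [hb1, hr1, neg_mul, mul_assoc, mul_assoc, mul_inv_cancel_left₀ hb2]
    · show r.2 = b.2 * (b.2⁻¹ * r.2)
      rw [mul_inv_cancel_left₀ hb2]

theorem onb_nat {q : ℚ} (h : ∃ n : ℤ, q = n) (h0 : 0 ≤ q) : ∃ n : ℕ, q = n := by
  obtain ⟨n, rfl⟩ := h
  have h1 : 0 ≤ n := by exact_mod_cast h0
  obtain ⟨k, rfl⟩ := Int.eq_ofNat_of_zero_le h1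
  exact ⟨k, by norm_cast⟩

theorem onb_min {A : Type} {P : A → Prop} {f : A → ℚ} (hP : ∃ x, P x)
    (hf : ∀ x, P x → ∃ n : ℕ, f x = n) : ∃ x, P x ∧ ∀ y, P y → f x ≤ f y := by
  classical
  have hex : ∃ n : ℕ, ∃ x, P x ∧ f x = n := by
    obtain ⟨x, hx⟩ := hP
    obtain ⟨n, hn⟩ := hf x hx
    exact ⟨n, x, hx, hn⟩
  obtain ⟨x, hx, hn⟩ := Nat.find_spec hex
  refine ⟨x, hx, fun y hy => ?_⟩
  obtain ⟨k, hk⟩ := hf y hy
  have h1 : Nat.find hex ≤ k := Nat.find_min' hex ⟨y, hy, hk⟩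
  rw [hn, hk]
  exact_mod_cast h1

theorem onb_R_add (x : ℍ[ℚ] × ℍ[ℚ]) (k l : ℍ[ℚ]) : onbR x (k + l) = onbR x k + onbR x l :=
  Prod.ext (mul_add _ _ _) (mul_add _ _ _)

theorem onb_R_sub (x : ℍ[ℚ] × ℍ[ℚ]) (k l : ℍ[ℚ]) : onbR x (k - l) = onbR x k - onbR x l :=
  Prod.ext (mul_sub _ _ _) (mul_sub _ _ _)

theorem onb_R_mul (x : ℍ[ℚ] × ℍ[ℚ]) (k l : ℍ[ℚ]) : onbR (onbR x k) l = onbR x (k * l) :=
  Prod.ext (mul_assoc _ _ _) (mul_assoc _ _ _)

theorem onb_sub_R (x y : ℍ[ℚ] × ℍ[ℚ]) (l : ℍ[ℚ]) : onbR (x - y) l = onbR x l - onbR y l :=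
  Prod.ext (sub_mul _ _ _) (sub_mul _ _ _)

theorem onb_R_zero (x : ℍ[ℚ] × ℍ[ℚ]) : onbR x 0 = 0 := Prod.ext (mul_zero _) (mul_zero _)

theorem onb_R_one (x : ℍ[ℚ] × ℍ[ℚ]) : onbR x 1 = x := Prod.ext (mul_one _) (mul_one _)

theorem onb_pyth {a b : ℍ[ℚ] × ℍ[ℚ]} (h : hf m m' M a b = 0) :
    onbN m m' M (a + b) = onbN m m' M a + onbN m m' M b := by
  have h' : hf m m' M b a = 0 := by rw [← onb_star, h, star_zero]
  unfold onbN
  rw [onb_add_left, onb_add_right, onb_add_right, h, h', add_zero, zero_add, Quaternion.re_add]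

theorem onb_coe_mul_inv {r : ℚ} (h : r ≠ 0) (q : ℍ[ℚ]) :
    Quaternion.coe r * (Quaternion.coe r⁻¹ * q) = q := by
  rw [← mul_assoc, ← Quaternion.coe_mul, mul_inv_cancel₀ h, Quaternion.coe_one, one_mul]

theorem onb_normSq_coe (r : ℚ) : normSq (Quaternion.coe r : ℍ[ℚ]) = r ^ 2 :=
  Quaternion.normSq_coe r

theorem onb_main (hm : 0 < m) (hD : 0 < m * M - m' ^ 2)
    {L : AddSubgroup (ℍ[ℚ] × ℍ[ℚ])} (he1 : ((1 : ℍ[ℚ]), (0 : ℍ[ℚ])) ∈ L)
    (he2 : ((0 : ℍ[ℚ]), (1 : ℍ[ℚ])) ∈ L)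
    (hmul : ∀ x ∈ L, ∀ y : ℍ[ℚ], IsHur y → onbR x y ∈ L)
    (hint : ∀ x ∈ L, ∀ y ∈ L, IsHur (hf m m' M x y))
    (hself : ∀ y, (∀ x ∈ L, IsHur (hf m m' M x y)) → y ∈ L) :
    ∃ f1 f2 : ℍ[ℚ] × ℍ[ℚ], f1 ∈ L ∧ f2 ∈ L ∧ hf m m' M f1 f1 = 1 ∧ hf m m' M f2 f2 = 1 ∧
      hf m m' M f1 f2 = 0 ∧
      ∀ x ∈ L, x = onbR f1 (hf m m' M f1 x) + onbR f2 (hf m m' M f2 x) := by
  have hNint : ∀ x ∈ L, ∃ n : ℤ, onbN m m' M x = n := fun x hx => by
    have h := hint x hx x hx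
    rw [onb_self] at h
    exact IsHur.of_coe h
  have hne1 : ((1 : ℍ[ℚ]), (0 : ℍ[ℚ])) ≠ 0 := fun h => one_ne_zero (congrArg Prod.fst h)
  obtain ⟨x0, ⟨hx0L, hx0⟩, hmin⟩ := onb_min (P := fun x => x ∈ L ∧ x ≠ 0) (f := onbN m m' M)
    ⟨_, he1, hne1⟩ (fun x hx => onb_nat (hNint x hx.1) (onb_nonneg hm hD x))
  have hμ0 : 0 < onbN m m' M x0 := onb_pos hm hD hx0
  obtain ⟨μ, hμ⟩ : ∃ μ, μ = onbN m m' M x0 := ⟨_, rfl⟩
  rw [← hμ] at hμ0
  have hμne : μ ≠ 0 := hμ0.ne'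
  have hself0 : hf m m' M x0 x0 = Quaternion.coe μ := by rw [onb_self, hμ]
  obtain ⟨μn, hμn⟩ := hNint x0 hx0L
  rw [← hμ] at hμn
  -- the projection
  obtain ⟨D, hDd⟩ : ∃ D : ℍ[ℚ] × ℍ[ℚ] → ℍ[ℚ], ∀ z, D z = Quaternion.coe μ⁻¹ * hf m m' M x0 z :=
    ⟨_, fun _ => rfl⟩
  obtain ⟨P, hPd⟩ : ∃ P : ℍ[ℚ] × ℍ[ℚ] → ℍ[ℚ] × ℍ[ℚ], ∀ z, P z = z - onbR x0 (D z) :=
    ⟨_, fun _ => rfl⟩
  have hP0 : ∀ z, hf m m' M x0 (P z) = 0 := by
    intro z
    rw [hPd, onb_sub_right, onb_R_right, hself0, hDd, onb_coe_mul_inv hμne, sub_self]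
  have hPz : ∀ z, z = onbR x0 (D z) + P z := by
    intro z
    rw [hPd]
    abel
  have hPN : ∀ z, onbN m m' M z = normSq (D z) * μ + onbN m m' M (P z) := by
    intro z
    have h1 : hf m m' M (onbR x0 (D z)) (P z) = 0 := by rw [onb_R_left, hP0, mul_zero]
    have h2 := onb_pyth h1
    rw [← hPz, onb_R_N, ← hμ] at h2
    exact h2
  have hDsub : ∀ z w, D (z - w) = D z - D w := by
    intro z w
    rw [hDd, hDd, hDd, onb_sub_right, mul_sub]
  have hDR : ∀ z l, D (onbR z l) = D z * l := by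
    intro z l
    rw [hDd, hDd, onb_R_right, mul_assoc]
  have hPsub : ∀ z w, P (z - w) = P z - P w := by
    intro z w
    rw [hPd, hPd, hPd, hDsub, onb_R_sub]
    abel
  have hPR : ∀ z l, P (onbR z l) = onbR (P z) l := by
    intro z l
    rw [hPd, hPd, hDR, onb_sub_R, onb_R_mul]
  have hDx0 : D x0 = 1 := by
    rw [hDd, hself0, ← Quaternion.coe_mul, inv_mul_cancel₀ hμne, Quaternion.coe_one]
  have hPx0 : P x0 = 0 := by
    rw [hPd, hDx0, onb_R_one, sub_self]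
  have hint2 : ∀ z ∈ L, ∃ n : ℕ, μ * onbN m m' M (P z) = n := by
    intro z hz
    refine onb_nat ?_ (mul_nonneg hμ0.le (onb_nonneg hm hD _))
    obtain ⟨a, ha⟩ := hNint z hz
    obtain ⟨b, hb⟩ := (hint x0 hx0L z hz).normSq_int
    have h1 := hPN z
    have h2 : normSq (D z) * μ * μ = normSq (hf m m' M x0 z) := by
      rw [hDd, map_mul, onb_normSq_coe]
      field_simp
    refine ⟨μn * a - b, ?_⟩
    push_cast
    rw [← hμn, ← ha, ← hb, ← h2, h1]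
    ring
  -- the second vector
  have hexy : ∃ y, y ∈ L ∧ P y ≠ 0 := by
    by_contra hno
    push Not at hno
    have h1 := hno _ he1
    have h2 := hno _ he2
    have h3 := hPz ((1 : ℍ[ℚ]), (0 : ℍ[ℚ]))
    have h4 := hPz ((0 : ℍ[ℚ]), (1 : ℍ[ℚ]))
    rw [h1, add_zero] at h3
    rw [h2, add_zero] at h4
    have a1 : 1 = x0.1 * D ((1 : ℍ[ℚ]), (0 : ℍ[ℚ])) := congrArg Prod.fst h3
    have a2 : 0 = x0.2 * D ((1 : ℍ[ℚ]), (0 : ℍ[ℚ])) := congrArg Prod.snd h3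
    have a3 : 1 = x0.2 * D ((0 : ℍ[ℚ]), (1 : ℍ[ℚ])) := congrArg Prod.snd h4
    rcases mul_eq_zero.1 a2.symm with h5 | h5
    · rw [h5, zero_mul] at a3
      exact one_ne_zero a3
    · rw [h5, mul_zero] at a1
      exact one_ne_zero a1
  obtain ⟨y', ⟨hy'L, hPy'⟩, hmin'⟩ := onb_min (P := fun y => y ∈ L ∧ P y ≠ 0)
    (f := fun y => μ * onbN m m' M (P y)) hexy (fun x hx => hint2 x hx.1)
  obtain ⟨lam, hlam, hlam2⟩ := hur_euclid (D y')
  obtain ⟨y, hy⟩ : ∃ y, y = y' - onbR x0 lam := ⟨_, rfl⟩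
  have hyL : y ∈ L := by
    rw [hy]
    exact L.sub_mem hy'L (hmul _ hx0L _ hlam)
  have hPy : P y = P y' := by
    rw [hy, hPsub, hPR, hPx0]
    have : onbR (0 : ℍ[ℚ] × ℍ[ℚ]) lam = 0 := Prod.ext (zero_mul _) (zero_mul _)
    rw [this, sub_zero]
  have hDy : D y = D y' - lam := by
    rw [hy, hDsub, hDR, hDx0, one_mul]
  have hDy2 : normSq (D y) ≤ 1 / 2 := by
    rw [hDy]
    exact hlam2
  rw [← hPy] at hPy'
  have hyne : y ≠ 0 := by
    intro h
    apply hPy'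
    rw [h]
    have h1 := hPR x0 0
    rw [onb_R_zero, onb_R_zero] at h1
    exact h1
  have hν0 : 0 < onbN m m' M (P y) := onb_pos hm hD hPy'
  obtain ⟨ν, hν⟩ : ∃ ν, ν = onbN m m' M (P y) := ⟨_, rfl⟩
  rw [← hν] at hν0
  have hνne : ν ≠ 0 := hν0.ne'
  have hB : μ / 2 ≤ ν := by
    have h1 := hmin y ⟨hyL, hyne⟩
    rw [hPN y, ← hμ, ← hν] at h1
    nlinarith
  -- (C)
  have hC : ∀ z ∈ L, ∃ σ τ : ℍ[ℚ], IsHur σ ∧ IsHur τ ∧ z = onbR x0 σ + onbR y τ := by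
    intro z hz
    obtain ⟨t, ht⟩ := onb_dep hm hD hx0 hPy' (hP0 y) (hP0 z)
    obtain ⟨τ, hτ, hτ2⟩ := hur_euclid t
    have hz'L : z - onbR y τ ∈ L := L.sub_mem hz (hmul _ hyL _ hτ)
    have hz'P : P (z - onbR y τ) = onbR (P y) (t - τ) := by
      rw [hPsub, hPR, ht, onb_R_sub]
    have hz'0 : P (z - onbR y τ) = 0 := by
      by_contra hne
      have h1 := hmin' (z - onbR y τ) ⟨hz'L, hne⟩
      rw [hz'P, ← hPy, onb_R_N, ← hν] at h1
      have h2 : μ * ν ≤ μ * (1 / 2 * ν) :=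
        h1.trans (mul_le_mul_of_nonneg_left (mul_le_mul_of_nonneg_right hτ2 hν0.le) hμ0.le)
      have h3 : 0 < μ * ν := mul_pos hμ0 hν0
      linarith
    have h1 := hPz (z - onbR y τ)
    rw [hz'0, add_zero] at h1
    obtain ⟨σ, hσ, hσ2⟩ := hur_euclid (D (z - onbR y τ))
    have h2 : z - onbR y τ - onbR x0 σ = onbR x0 (D (z - onbR y τ) - σ) := by
      rw [onb_R_sub, ← h1]
    have h3 : z - onbR y τ - onbR x0 σ = 0 := by
      by_contra hne
      have h4 := hmin _ ⟨L.sub_mem hz'L (hmul _ hx0L _ hσ), hne⟩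
      rw [h2, onb_R_N, ← hμ] at h4
      have h5 := mul_le_mul_of_nonneg_right hσ2 hμ0.le
      linarith
    refine ⟨σ, τ, hσ, hτ, ?_⟩
    have h4 := sub_eq_zero.1 h3
    rw [← h4]
    abel
  -- (D)
  have hyP : hf m m' M y (P y) = Quaternion.coe ν := by
    have h1 : hf m m' M y (P y) = hf m m' M (onbR x0 (D y) + P y) (P y) := by rw [← hPz]
    rw [h1, onb_add_left, onb_R_left, hP0, mul_zero, zero_add, onb_self, hν]
  have hysL : onbR (P y) (Quaternion.coe ν⁻¹) ∈ L := by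
    apply hself
    intro l hl
    obtain ⟨σ, τ, hσ, hτ, rfl⟩ := hC l hl
    rw [onb_add_left, onb_R_left, onb_R_left, onb_R_right, onb_R_right, hP0, zero_mul, mul_zero,
      zero_add, hyP, ← Quaternion.coe_mul, mul_inv_cancel₀ hνne, Quaternion.coe_one, mul_one]
    exact hτ.conj
  obtain ⟨α, β, hα, hβ, hαβ⟩ := hC _ hysL
  have h1 : Quaternion.coe μ * (α + D y * β) = 0 := by
    have h2 := congrArg (hf m m' M x0) hαβ
    rw [onb_R_right, hP0, zero_mul, onb_add_right, onb_R_right, onb_R_right, hself0] at h2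
    have h3 : hf m m' M x0 y = Quaternion.coe μ * D y := by rw [hDd, onb_coe_mul_inv hμne]
    rw [h3, mul_assoc, ← mul_add] at h2
    exact h2.symm
  have hcoeμ : (Quaternion.coe μ : ℍ[ℚ]) ≠ 0 := by
    intro h
    apply hμne
    exact congrArg QuaternionAlgebra.re h
  have hα2 : α = -(D y * β) := eq_neg_of_add_eq_zero_left ((mul_eq_zero.1 h1).resolve_left hcoeμ)
  have hβ2 : β = Quaternion.coe ν⁻¹ := by
    have h2 := congrArg (hf m m' M (P y)) hαβ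
    have h3 : hf m m' M (P y) x0 = 0 := by rw [← onb_star, hP0, star_zero]
    have h4 : hf m m' M (P y) y = Quaternion.coe ν := by
      rw [← onb_star, hyP, Quaternion.star_coe]
    rw [onb_R_right, onb_self, ← hν, onb_add_right, onb_R_right, onb_R_right, h3, h4, zero_mul,
      zero_add, ← Quaternion.coe_mul, mul_inv_cancel₀ hνne, Quaternion.coe_one] at h2
    have h5 : Quaternion.coe ν⁻¹ * (Quaternion.coe ν * β) = β := by
      rw [← mul_assoc, ← Quaternion.coe_mul, inv_mul_cancel₀ hνne, Quaternion.coe_one, one_mul]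
    rw [← h5, ← h2, mul_one]
  obtain ⟨k, hk⟩ : ∃ k : ℤ, ν⁻¹ = k := by
    apply IsHur.of_coe
    rw [onb_cast, ← hβ2]
    exact hβ
  have hkpos : 0 < k := by
    have : (0 : ℚ) < k := by
      rw [← hk]
      exact inv_pos.2 hν0
    exact_mod_cast this
  have hk1 : (1 : ℚ) ≤ k := by exact_mod_cast hkpos
  have hνk : ν * k = 1 := by rw [← hk, mul_inv_cancel₀ hνne]
  have hμk : μ * k ≤ 2 := by nlinarith
  have hμ1' : (1 : ℚ) ≤ μ := by
    rw [hμn] at hμ0 ⊢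
    have : 0 < μn := by exact_mod_cast hμ0
    exact_mod_cast this
  have hδ0 : IsHur (D y) → D y = 0 := by
    intro h
    obtain ⟨n, hn⟩ := h.normSq_int
    have h2 : (n : ℚ) ≤ 1 / 2 := by
      rw [← hn]
      exact hDy2
    have h3 : (0 : ℚ) ≤ n := by
      rw [← hn]
      exact Quaternion.normSq_nonneg
    have h4 : n ≤ 0 := by
      by_contra h5
      have h6 : (1 : ℚ) ≤ n := by
        have : 1 ≤ n := by omega
        exact_mod_cast this
      linarith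
    have h5 : 0 ≤ n := by exact_mod_cast h3
    have h6 : n = 0 := le_antisymm h4 h5
    rw [h6, Int.cast_zero] at hn
    exact Quaternion.normSq_eq_zero.1 hn
  have hNy : onbN m m' M y = normSq (D y) * μ + ν := by rw [hν]; exact hPN y
  have hμ1 : μ = 1 := by
    have hcases : μn = 1 ∨ μn = 2 := by
      have h2 : μ ≤ 2 := by nlinarith
      rw [hμn] at h2 hμ1'
      have h3 : μn ≤ 2 := by exact_mod_cast h2
      have h4 : 1 ≤ μn := by exact_mod_cast hμ1'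
      omega
    rcases hcases with h2 | h2
    · rw [hμn, h2, Int.cast_one]
    · exfalso
      have hμ2 : μ = 2 := by rw [hμn, h2]; norm_num
      have hk1' : (k : ℚ) ≤ 1 := by
        rw [hμ2] at hμk
        linarith
      have hkk : (k : ℚ) = 1 := le_antisymm hk1' hk1
      have hν1 : ν = 1 := by rw [hkk, mul_one] at hνk; exact hνk
      have hβ1 : β = 1 := by rw [hβ2, hν1, inv_one, Quaternion.coe_one]
      rw [hβ1, mul_one] at hα2
      have hD1 : IsHur (D y) := by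
        have h3 : D y = -α := by rw [hα2, neg_neg]
        rw [h3]
        exact hα.neg
      have h3 := hδ0 hD1
      rw [h3, map_zero, zero_mul, zero_add, hν1] at hNy
      have h4 := hmin y ⟨hyL, hyne⟩
      rw [← hμ, hNy, hμ2] at h4
      norm_num at h4
  have hDyH : IsHur (D y) := by
    rw [hDd, hμ1, inv_one, Quaternion.coe_one, one_mul]
    exact hint _ hx0L _ hyL
  have hDy0 := hδ0 hDyH
  have hPyy : P y = y := by
    rw [hPd, hDy0, onb_R_zero, sub_zero]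
  have hfy : hf m m' M x0 y = 0 := by
    rw [← hPyy]
    exact hP0 y
  have hν1 : ν = 1 := by
    obtain ⟨n, hn⟩ := hNint y hyL
    rw [hPyy] at hν
    rw [← hν] at hn
    have h2 : (0 : ℚ) < n := by
      rw [← hn]
      exact hν0
    have h3 : (1 : ℚ) ≤ n := by
      have : 0 < n := by exact_mod_cast h2
      exact_mod_cast this
    rw [← hn] at h3
    nlinarith
  have hself1 : hf m m' M x0 x0 = 1 := by rw [hself0, hμ1, Quaternion.coe_one]
  have hself2 : hf m m' M y y = 1 := by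
    rw [onb_self]
    rw [hPyy] at hν
    rw [← hν, hν1, Quaternion.coe_one]
  have hfy' : hf m m' M y x0 = 0 := by rw [← onb_star, hfy, star_zero]
  refine ⟨x0, y, hx0L, hyL, hself1, hself2, hfy, fun z hz => ?_⟩
  obtain ⟨σ, τ, -, -, rfl⟩ := hC z hz
  rw [onb_add_right, onb_add_right, onb_R_right, onb_R_right, onb_R_right, onb_R_right, hself1,
    hself2, hfy, hfy', zero_mul, zero_mul, one_mul, one_mul, add_zero, zero_add]

end

theorem exists_onb {u v m m' : ℤ} {L : AddSubgroup (ℍ[ℚ] × ℍ[ℚ])} (hm : 0 < m)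
    (hD : m' ^ 2 + u * m * m' + v * m ^ 2 < 0) (hL : IsLat u v m m' L) (hs : SelfDual u v m m' L) :
    ∃ f1 f2 : ℍ[ℚ] × ℍ[ℚ], f1 ∈ L ∧ f2 ∈ L ∧
      hf m m' (-u * m' - v * m) f1 f1 = 1 ∧ hf m m' (-u * m' - v * m) f2 f2 = 1 ∧
      hf m m' (-u * m' - v * m) f1 f2 = 0 ∧
      ∀ x ∈ L, x = (f1.1 * hf m m' (-u * m' - v * m) f1 x + f2.1 * hf m m' (-u * m' - v * m) f2 x,
        f1.2 * hf m m' (-u * m' - v * m) f1 x + f2.2 * hf m m' (-u * m' - v * m) f2 x) := by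
  have hD' : 0 < m * (-u * m' - v * m) - m' ^ 2 := by
    have h : m * (-u * m' - v * m) - m' ^ 2 = -(m' ^ 2 + u * m * m' + v * m ^ 2) := by ring
    rw [h]
    linarith
  exact onb_main hm hD' hL.e1 (hL.std _ hur_zero hur_one) hL.mul hL.int hs

end Helper6.QS
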