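import Pool.Agent.Helper6.QS.Lat2
import Pool.Agent.Helper6.QS.Onb

/-! QS-5: the Hurwitz block theorem. -/

set_option autoImplicit false
open Quaternion
namespace Helper6.QS

section

variable {u v m m' m'' : ℤ}

theorem hb_star (x y : ℍ[ℚ] × ℍ[ℚ]) : star (hf m m' m'' x y) = hf m m' m'' y x := by
  unfold hf
  ext <;> simp <;> ring

theorem hb_K (x y : ℍ[ℚ] × ℍ[ℚ]) :
    hf m m' (-u * m' - v * m) (Km u v x) y = hf m m' (-u * m' - v * m) x (Km u v y) := by
  unfold hf Km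
  ext <;> simp <;> ring

theorem hb_KK (x y : ℍ[ℚ] × ℍ[ℚ]) :
    hf m m' m'' x (Km u v (Km u v y)) =
      -(hf m m' m'' x (Km u v y) * (u : ℍ[ℚ])) - hf m m' m'' x y * (v : ℍ[ℚ]) := by
  unfold hf Km
  ext <;> simp <;> ring

theorem hb_left (f1 f2 y : ℍ[ℚ] × ℍ[ℚ]) (s t : ℍ[ℚ]) :
    hf m m' m'' (f1.1 * s + f2.1 * t, f1.2 * s + f2.2 * t) y =
      star s * hf m m' m'' f1 y + star t * hf m m' m'' f2 y := by
  unfold hf
  ext <;> simp <;> ring

end

theorem hur_block (u v m m' : ℤ) (hm : 0 < m) (hD : m' ^ 2 + u * m * m' + v * m ^ 2 < 0) :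
    ∃ (a b : ℤ) (z c1 c2 : ℍ[ℚ]), IsHur z ∧ IsHur c1 ∧ IsHur c2 ∧ a + b = -u ∧
      (a * b : ℚ) - normSq z = v ∧ normSq c1 + normSq c2 = m ∧
      a * normSq c1 + b * normSq c2 + 2 * (star c1 * z * c2).re = m' := by
  obtain ⟨L, hL⟩ := exists_maxLat u v m m'
  have hs := hL.selfDual hm hD
  obtain ⟨f1, f2, hf1, hf2, h11, h22, h12, hexp⟩ := exists_onb hm hD hL.1 hs
  have hlat := hL.1
  set h : ℍ[ℚ] × ℍ[ℚ] → ℍ[ℚ] × ℍ[ℚ] → ℍ[ℚ] := hf m m' (-u * m' - v * m) with hh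
  have hstar : ∀ x y, star (h x y) = h y x := fun x y => hb_star x y
  have hK : ∀ x y, h (Km u v x) y = h x (Km u v y) := fun x y => hb_K x y
  have hKK : ∀ x y, h x (Km u v (Km u v y)) = -(h x (Km u v y) * (u : ℍ[ℚ])) - h x y * (v : ℍ[ℚ]) :=
    fun x y => hb_KK x y
  have hP : ∀ x ∈ L, ∀ y, h x y = star (h f1 x) * h f1 y + star (h f2 x) * h f2 y := by
    intro x hx y
    conv_lhs => rw [hexp x hx]
    exact hb_left f1 f2 y _ _
  have hint : ∀ x ∈ L, ∀ y ∈ L, IsHur (h x y) := hlat.int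
  have hKm : ∀ x ∈ L, Km u v x ∈ L := hlat.K
  -- the elements
  set A := h f1 (Km u v f1) with hA
  set B := h f2 (Km u v f2) with hB
  set z := h f1 (Km u v f2) with hz
  have hz' : h f2 (Km u v f1) = star z := by
    rw [hz, hstar, hK]
  have hAs : star A = A := by rw [hA, hstar, hK]
  have hBs : star B = B := by rw [hB, hstar, hK]
  obtain ⟨a, ha⟩ : ∃ a : ℤ, A = (a : ℍ[ℚ]) := by
    obtain ⟨r, hr⟩ : ∃ r : ℚ, A = (r : ℍ[ℚ]) := ⟨_, Quaternion.star_eq_self.1 hAs⟩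
    have h1 : IsHur (r : ℍ[ℚ]) := by
      rw [← hr]
      exact hint _ hf1 _ (hKm _ hf1)
    obtain ⟨a, ha⟩ := h1.of_coe
    refine ⟨a, ?_⟩
    rw [hr, ha]
    rfl
  obtain ⟨b, hb⟩ : ∃ b : ℤ, B = (b : ℍ[ℚ]) := by
    obtain ⟨r, hr⟩ : ∃ r : ℚ, B = (r : ℍ[ℚ]) := ⟨_, Quaternion.star_eq_self.1 hBs⟩
    have h1 : IsHur (r : ℍ[ℚ]) := by
      rw [← hr]
      exact hint _ hf2 _ (hKm _ hf2)
    obtain ⟨b, hb⟩ := h1.of_coe
    refine ⟨b, ?_⟩
    rw [hr, hb]
    rfl
  set e1 : ℍ[ℚ] × ℍ[ℚ] := ((1 : ℍ[ℚ]), (0 : ℍ[ℚ])) with he1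
  have he1L : e1 ∈ L := hlat.e1
  set c1 := h f1 e1 with hc1
  set c2 := h f2 e1 with hc2
  -- the relations
  have r1 : (a : ℍ[ℚ]) * a + z * star z = -((a : ℍ[ℚ]) * u) - v := by
    have h1 := hP (Km u v f1) (hKm _ hf1) (Km u v f1)
    rw [hK, hKK, ← hA, hz', h11, ha] at h1
    simp only [star_star, star_intCast] at h1
    rw [← h1, one_mul]
  have r2 : star z * z + (b : ℍ[ℚ]) * b = -((b : ℍ[ℚ]) * u) - v := by
    have h1 := hP (Km u v f2) (hKm _ hf2) (Km u v f2)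
    rw [hK, hKK, ← hB, ← hz, h22, hb] at h1
    simp only [star_intCast] at h1
    rw [← h1, one_mul]
  have r3 : star z * (a : ℍ[ℚ]) + (b : ℍ[ℚ]) * star z = -(star z * u) := by
    have h1 := hP (Km u v f2) (hKm _ hf2) (Km u v f1)
    have h21 : h f2 f1 = 0 := by rw [← hstar, h12, star_zero]
    rw [hK, hKK, ← hA, ← hB, ← hz, hz', ha, hb, h21, zero_mul, sub_zero] at h1
    simp only [star_intCast] at h1
    exact h1.symm
  have r4 : star c1 * c1 + star c2 * c2 = (m : ℍ[ℚ]) := by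
    have h1 := hP e1 he1L e1
    rw [← hc1, ← hc2] at h1
    rw [← h1, hh, he1]
    unfold hf
    simp
  have hKe1 : Km u v e1 = ((0 : ℍ[ℚ]), (1 : ℍ[ℚ])) := by
    rw [he1]
    unfold Km
    simp
  have g1 : h f1 (Km u v e1) = (a : ℍ[ℚ]) * c1 + z * c2 := by
    rw [← hK, hP _ (hKm _ hf1) e1, ← hA, hz', star_star, ha, star_intCast]
  have g2 : h f2 (Km u v e1) = star z * c1 + (b : ℍ[ℚ]) * c2 := by
    rw [← hK, hP _ (hKm _ hf2) e1, ← hz, ← hB, hb, star_intCast]
  have r5 : star c1 * ((a : ℍ[ℚ]) * c1 + z * c2) + star c2 * (star z * c1 + (b : ℍ[ℚ]) * c2) =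
      (m' : ℍ[ℚ]) := by
    have h1 := hP e1 he1L (Km u v e1)
    rw [← hc1, ← hc2, g1, g2] at h1
    rw [← h1, hh, hKe1, he1]
    unfold hf
    simp
  -- real parts
  have q1 : (a : ℚ) * a + normSq z = -(a * u) - v := by
    have h1 := congrArg (fun x : ℍ[ℚ] => x.re) r1
    rw [self_mul_star] at h1
    simpa using h1
  have q2 : normSq z + (b : ℚ) * b = -(b * u) - v := by
    have h1 := congrArg (fun x : ℍ[ℚ] => x.re) r2
    rw [star_mul_self] at h1
    simpa using h1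
  have q4 : normSq c1 + normSq c2 = (m : ℚ) := by
    have h1 := congrArg (fun x : ℍ[ℚ] => x.re) r4
    rw [star_mul_self, star_mul_self] at h1
    simpa using h1
  have q5 : a * normSq c1 + b * normSq c2 + 2 * (star c1 * z * c2).re = (m' : ℚ) := by
    have h1 := congrArg (fun x : ℍ[ℚ] => x.re) r5
    simp only [normSq_def'] at h1 ⊢
    simp at h1 ⊢
    linarith
  have hsum : a + b = -u := by
    by_cases hz0 : z = 0
    · rw [hz0, map_zero] at q1 q2
      have h1 : ((a : ℚ) - b) * (a + b + u) = 0 := by linarith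
      rcases mul_eq_zero.1 h1 with h2 | h2
      · exfalso
        have hab : a = b := by
          have : (a : ℚ) = b := by linarith
          exact_mod_cast this
        have h4 : (Km u v e1).2 = f1.2 * h f1 (Km u v e1) + f2.2 * h f2 (Km u v e1) :=
          congrArg Prod.snd (hexp _ (hKm _ he1L))
        have h5 : (0 : ℍ[ℚ]) = f1.2 * c1 + f2.2 * c2 :=
          congrArg Prod.snd (hexp _ he1L)
        rw [g1, g2, hz0, hKe1, ← hab] at h4
        have h6 : (1 : ℍ[ℚ]) = (a : ℍ[ℚ]) * (f1.2 * c1 + f2.2 * c2) := by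
          refine h4.trans ?_
          simp only [star_zero, zero_mul, add_zero, zero_add]
          rw [mul_add, ← mul_assoc, ← mul_assoc, ← mul_assoc, ← mul_assoc,
            (Int.cast_commute a f1.2).eq, (Int.cast_commute a f2.2).eq]
        rw [← h5, mul_zero] at h6
        exact one_ne_zero h6
      · have : (a : ℚ) + b = -u := by linarith
        exact_mod_cast this
    · have h1 : ((a + b + u : ℤ) : ℍ[ℚ]) * star z = 0 := by
        push_cast
        rw [add_mul, add_mul, (Int.cast_commute a (star z)).eq, (Int.cast_commute u (star z)).eq,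
          r3]
        abel
      rcases mul_eq_zero.1 h1 with h2 | h2
      · have h3 : a + b + u = 0 := by
          have h4 := congrArg (fun x : ℍ[ℚ] => x.re) h2
          have h5 : ((a + b + u : ℤ) : ℚ) = 0 := by simpa using h4
          exact_mod_cast h5
        omega
      · exact absurd (star_eq_zero.1 h2) hz0
  refine ⟨a, b, z, c1, c2, ?_, ?_, ?_, hsum, ?_, q4, q5⟩
  · exact hint _ hf1 _ (hKm _ hf2)
  · exact hint _ hf1 _ he1L
  · exact hint _ hf2 _ he1L
  · have h1 : (a : ℚ) + b = -u := by exact_mod_cast hsum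
    have h2 : (u : ℚ) = -(a + b) := by linarith
    rw [h2] at q1
    linarith

end Helper6.QS
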