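import Pool.Agent.Helper6.QS.Bas

/-!
# QS-HPAR: consequences of the plane case

`pln_par`: `D_(P h) x` is proportional to `x`. From `rel` with `l = h`, `P' = P` (`vol3 h h l' = 0`):
`θ(Ph) θ'(P l') = θ'(Ph) θ(P l')` for all `l'`, `θ`, `θ'`; if `g(P, P) ≠ 0`, take a basis
`h, l1, l2` and `θ1, θ2, n`: the matrix `θ_j(P l_i)` is invertible, so `θ_j(P h) = 0`, and
`n . D_(Ph) x = 0`; `bas_par`. In general apply this to `P0` and `P0 + t P` for a `t ∈ ℕ`, `t ≠ 0`,
with `g(P0 + t P, P0 + t P) ≠ 0`.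
`pln_nondeg`: if `g(P, Q) = 0` for all `P`, then `D_(Q l) x` is proportional to `x` for all
`l ∈ R`: let `w = u(Q)` (2 x 2 matrix, `w_ij = θ_j(Q l_i)`), `rel` says
`u11(P) w22 + w11 u22(P) - u12(P) w21 - w12 u21(P) = 0` for all `P`; `P = Q`: `det w = 0`; if
`w ≠ 0` write the rank one matrix `(w22, -w21; -w12, w11)` as `c_i d_j`: `l = ∑ c_i l_i`,
`θ = ∑ d_j θ_j` satisfy `θ(D_(P l) x) = 0` for all `P`, against `NoPure`. So `θ_j(Q l_i) = 0`, and
`D_(Q h) x` is proportional to `x` by `pln_par`.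
-/

set_option autoImplicit false

namespace Pool.Agent.Helper6.QS

open scoped BigOperators
open MvPolynomial
open Pool.Agent.Helper8.LG (Bdd form mon)
open Pool.Agent.Helper49.LN (cP mo hf pl)

section

variable {Ω : Type*} [Field Ω] [CharZero Ω] {D : Sym (Fin 4) 5 → Derivation ℤ Ω Ω}
  {a : Sym (Fin 4) 5 → Ω} {B : Subfield Ω} {x h n : Fin 4 → Ω}
  {g : MvPolynomial (Fin 4) Ω →ₗ[Ω] MvPolynomial (Fin 4) Ω →ₗ[Ω] Ω}

theorem hpar_cyc (u v w : Fin 4 → Ω) : vol3 u v w = vol3 w u v := by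
  unfold vol3
  ring

theorem hpar_rep (u v : Fin 4 → Ω) : vol3 u u v = 0 := by
  unfold vol3
  ring

theorem hpar_par_add (x v w : Fin 4 → Ω) (hv : Par x v) (hw : Par x w) : Par x (v + w) := by
  obtain ⟨c, rfl⟩ := hv
  obtain ⟨d, rfl⟩ := hw
  exact ⟨c + d, (add_smul c d x).symm⟩

theorem hpar_par_smul (x v : Fin 4 → Ω) (c : Ω) (hv : Par x v) : Par x (c • v) := by
  obtain ⟨d, rfl⟩ := hv
  exact ⟨c * d, (mul_smul c d x).symm⟩

theorem hpar_dv_smul (D : Sym (Fin 4) 5 → Derivation ℤ Ω Ω) (x : Fin 4 → Ω)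
    (P : MvPolynomial (Fin 4) Ω) (c : Ω) (l : Fin 4 → Ω) :
    dv D x (P * lf (c • l)) = c • dv D x (P * lf l) := by
  rw [lf_smul, mul_smul_comm, map_smul]

theorem hpar_dv_add (D : Sym (Fin 4) 5 → Derivation ℤ Ω Ω) (x : Fin 4 → Ω)
    (P : MvPolynomial (Fin 4) Ω) (l l' : Fin 4 → Ω) :
    dv D x (P * lf (l + l')) = dv D x (P * lf l) + dv D x (P * lf l') := by
  rw [lf_add, mul_add, map_add]

theorem hpar_ev_lf {σ : Type*} [Fintype σ] [DecidableEq σ] (k m : ℕ) (hm : m = k + 1)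
    (x l : σ → Ω) (P : MvPolynomial σ Ω) : ev m x (P * lf l) = ev k x P * dt l x := by
  subst hm
  exact ev_lf k x l P

theorem hpar_ev_pow {σ : Type*} [Fintype σ] [DecidableEq σ] (m : ℕ) (x : σ → Ω) (i : σ)
    (hx : x i = 1) : ev m x (X i ^ m) = 1 := by
  rw [ev_hom m x (X i ^ m) (by simpa using (isHomogeneous_X Ω i).pow m), map_pow, eval_X, hx,
    one_pow]

theorem pln_n0 (hp : Pln D a B x h n g) : n ≠ 0 := by
  intro h0
  have h1 := hp.nf (X 0 ^ 5)
  rw [hpar_ev_pow 5 x 0 hp.one, h0] at h1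
  have h2 : ∀ w : Fin 4 → Ω, dt 0 w = 0 := fun w => by simp [dt]
  rw [h2] at h1
  exact one_ne_zero (neg_eq_zero.1 h1.symm)

/-- derivatives in directions vanishing at `x` are orthogonal to `n` -/
theorem pln_tan (hp : Pln D a B x h n g) (P : MvPolynomial (Fin 4) Ω) (l : Fin 4 → Ω)
    (hl : dt l x = 0) : dt n (dv D x (P * lf l)) = 0 := by
  rw [hp.nf, hpar_ev_lf 4 5 rfl x l P, hl, mul_zero, neg_zero]

theorem hpar_one (hp : Pln D a B x h n g) (P : MvPolynomial (Fin 4) Ω) (hP : g P P ≠ 0) :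
    Par x (dv D x (P * lf h)) := by
  obtain ⟨l1, l2, hl1, hl2, hv⟩ := bas_ex x h hp.one hp.hx hp.h0
  obtain ⟨t1, t2, ht1, ht2, hw⟩ := bas_ex x n hp.one hp.nx (pln_n0 hp)
  have e0 := hp.rel P P l1 l2 t1 t2 hl1 hl2 ht1 ht2
  have e1 := hp.rel P P h l1 t1 t2 hp.hx hl1 ht1 ht2
  have e2 := hp.rel P P h l2 t1 t2 hp.hx hl2 ht1 ht2
  rw [hpar_rep, mul_zero, zero_mul] at e1 e2
  rw [hpar_cyc t1 t2 n] at e0
  have hne : vol3 n t1 t2 * vol3 h l1 l2 * g P P ≠ 0 := mul_ne_zero (mul_ne_zero hw hv) hP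
  rw [← e0] at hne
  generalize dt t1 (dv D x (P * lf l1)) = u11 at *
  generalize dt t2 (dv D x (P * lf l1)) = u12 at *
  generalize dt t1 (dv D x (P * lf l2)) = u21 at *
  generalize dt t2 (dv D x (P * lf l2)) = u22 at *
  have two : (2 : Ω) ≠ 0 := two_ne_zero
  refine bas_par x n t1 t2 hp.one hp.nx ht1 ht2 hw _ (pln_tan hp P h hp.hx) ?_ ?_
  · generalize dt t1 (dv D x (P * lf h)) = a1 at *
    generalize dt t2 (dv D x (P * lf h)) = a2 at *
    have : a1 * (u11 * u22 - u12 * u21 - (u21 * u12 - u22 * u11)) = 0 := by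
      linear_combination u11 * e2 - u21 * e1
    exact (mul_eq_zero.mp this).resolve_right hne
  · generalize dt t1 (dv D x (P * lf h)) = a1 at *
    generalize dt t2 (dv D x (P * lf h)) = a2 at *
    have : a2 * (u11 * u22 - u12 * u21 - (u21 * u12 - u22 * u11)) = 0 := by
      linear_combination u12 * e2 - u22 * e1
    exact (mul_eq_zero.mp this).resolve_right hne

theorem pln_par (hp : Pln D a B x h n g) (P : MvPolynomial (Fin 4) Ω) :
    Par x (dv D x (P * lf h)) := by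
  obtain ⟨P0, -, hP0⟩ := hp.g0
  have hex : ∃ t : Ω, t ≠ 0 ∧ g (P0 + t • P) (P0 + t • P) ≠ 0 := by
    by_contra hcon
    push Not at hcon
    have k1 := hcon 1 one_ne_zero
    have k2 := hcon 2 two_ne_zero
    have k3 := hcon 3 three_ne_zero
    simp only [map_add, map_smul, LinearMap.add_apply, LinearMap.smul_apply, smul_eq_mul] at k1 k2 k3
    exact hP0 (by linear_combination 3 * k1 - 3 * k2 + k3)
  obtain ⟨t, ht, hg⟩ := hex
  obtain ⟨c, hc⟩ := hpar_one hp P0 hP0
  obtain ⟨d, hd⟩ := hpar_one hp _ hg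
  rw [add_mul, map_add, smul_mul_assoc, map_smul, hc] at hd
  refine ⟨t⁻¹ * (d - c), ?_⟩
  rw [mul_smul, sub_smul, ← hd, add_sub_cancel_left, smul_smul, inv_mul_cancel₀ ht, one_smul]

theorem pln_nondeg (hp : Pln D a B x h n g) (hA : NoPure D x h n) (Q : MvPolynomial (Fin 4) Ω)
    (hQ : ∀ P, g P Q = 0) (l : Fin 4 → Ω) (hl : dt l x = 0) : Par x (dv D x (Q * lf l)) := by
  obtain ⟨l1, l2, hl1, hl2, hv⟩ := bas_ex x h hp.one hp.hx hp.h0
  obtain ⟨t1, t2, ht1, ht2, hw⟩ := bas_ex x n hp.one hp.nx (pln_n0 hp)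
  have hrel : ∀ P, dt t1 (dv D x (P * lf l1)) * dt t2 (dv D x (Q * lf l2)) -
      dt t2 (dv D x (P * lf l1)) * dt t1 (dv D x (Q * lf l2)) -
      (dt t1 (dv D x (P * lf l2)) * dt t2 (dv D x (Q * lf l1)) -
        dt t2 (dv D x (P * lf l2)) * dt t1 (dv D x (Q * lf l1))) = 0 := by
    intro P
    rw [hp.rel P Q l1 l2 t1 t2 hl1 hl2 ht1 ht2, hQ P, mul_zero]
  have hsimp : ∀ (c1 c2 d1 d2 : Ω),
      (∀ P, c1 * d1 * dt t1 (dv D x (P * lf l1)) + c1 * d2 * dt t2 (dv D x (P * lf l1)) +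
        c2 * d1 * dt t1 (dv D x (P * lf l2)) + c2 * d2 * dt t2 (dv D x (P * lf l2)) = 0) →
      (c1 = 0 ∧ c2 = 0) ∨ (d1 = 0 ∧ d2 = 0) := by
    intro c1 c2 d1 d2 hall
    have key := hA (c1 • l1 + c2 • l2) (d1 • t1 + d2 • t2)
      (by rw [dt_comm, dt_add, dt_smul, dt_smul, dt_comm x l1, dt_comm x l2, hl1, hl2]; ring)
      (by rw [dt_comm, dt_add, dt_smul, dt_smul, dt_comm x t1, dt_comm x t2, ht1, ht2]; ring)
      (by
        intro P
        rw [hpar_dv_add, hpar_dv_smul, hpar_dv_smul, dt_add, dt_smul, dt_smul,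
          dt_comm (d1 • t1 + d2 • t2) (dv D x (P * lf l1)),
          dt_comm (d1 • t1 + d2 • t2) (dv D x (P * lf l2)), dt_add, dt_add, dt_smul, dt_smul,
          dt_smul, dt_smul, dt_comm _ t1, dt_comm _ t1, dt_comm _ t2, dt_comm _ t2]
        linear_combination hall P)
    rcases key with ⟨c, hc⟩ | ⟨c, hc⟩
    · left
      have c0 := congrFun hc 0
      have k1 := congrFun hc 1
      have k2 := congrFun hc 2
      have k3 := congrFun hc 3
      simp only [Pi.add_apply, Pi.smul_apply, smul_eq_mul] at c0 k1 k2 k3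
      constructor
      · have : c1 * vol3 h l1 l2 = 0 := by
          unfold vol3
          linear_combination (- (h 2 * l2 3 - h 3 * l2 2)) * k1 + (h 1 * l2 3 - h 3 * l2 1) * k2 -
            (h 1 * l2 2 - h 2 * l2 1) * k3
        exact (mul_eq_zero.mp this).resolve_right hv
      · have : c2 * vol3 h l1 l2 = 0 := by
          unfold vol3
          linear_combination (h 2 * l1 3 - h 3 * l1 2) * k1 - (h 1 * l1 3 - h 3 * l1 1) * k2 +
            (h 1 * l1 2 - h 2 * l1 1) * k3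
        exact (mul_eq_zero.mp this).resolve_right hv
    · right
      have k1 := congrFun hc 1
      have k2 := congrFun hc 2
      have k3 := congrFun hc 3
      simp only [Pi.add_apply, Pi.smul_apply, smul_eq_mul] at k1 k2 k3
      constructor
      · have : d1 * vol3 n t1 t2 = 0 := by
          unfold vol3
          linear_combination (- (n 2 * t2 3 - n 3 * t2 2)) * k1 + (n 1 * t2 3 - n 3 * t2 1) * k2 -
            (n 1 * t2 2 - n 2 * t2 1) * k3
        exact (mul_eq_zero.mp this).resolve_right hw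
      · have : d2 * vol3 n t1 t2 = 0 := by
          unfold vol3
          linear_combination (n 2 * t1 3 - n 3 * t1 2) * k1 - (n 1 * t1 3 - n 3 * t1 1) * k2 +
            (n 1 * t1 2 - n 2 * t1 1) * k3
        exact (mul_eq_zero.mp this).resolve_right hw
  have hdet := hrel Q
  have hzero : (dt t1 (dv D x (Q * lf l1)) = 0 ∧ dt t2 (dv D x (Q * lf l1)) = 0) ∧
      (dt t1 (dv D x (Q * lf l2)) = 0 ∧ dt t2 (dv D x (Q * lf l2)) = 0) := by
    generalize dt t1 (dv D x (Q * lf l1)) = w11 at *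
    generalize dt t2 (dv D x (Q * lf l1)) = w12 at *
    generalize dt t1 (dv D x (Q * lf l2)) = w21 at *
    generalize dt t2 (dv D x (Q * lf l2)) = w22 at *
    have two : (2 : Ω) ≠ 0 := two_ne_zero
    have hd : w11 * w22 - w12 * w21 = 0 := by
      have : (2 : Ω) * (w11 * w22 - w12 * w21) = 0 := by linear_combination hdet
      exact (mul_eq_zero.mp this).resolve_left two
    -- coefficients: `u11: w22, u12: -w21, u21: -w12, u22: w11`
    by_cases h22 : w22 = 0
    · subst h22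
      by_cases h11 : w11 = 0
      · subst h11
        have hpr : w12 * w21 = 0 := by linear_combination - hd
        rcases mul_eq_zero.mp hpr with h12 | h21
        · subst h12
          -- only `w21`
          have := hsimp 1 0 0 (- w21) (by
            intro P
            linear_combination hrel P)
          rcases this with ⟨h1, -⟩ | ⟨-, h2⟩
          · exact absurd h1 one_ne_zero
          · exact ⟨⟨rfl, rfl⟩, neg_eq_zero.mp h2, rfl⟩
        · subst h21
          have := hsimp 0 1 (- w12) 0 (by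
            intro P
            linear_combination hrel P)
          rcases this with ⟨-, h1⟩ | ⟨h2, -⟩
          · exact absurd h1 one_ne_zero
          · exact ⟨⟨rfl, neg_eq_zero.mp h2⟩, rfl, rfl⟩
      · exfalso
        -- `c = (- w21, w11)`, `d = (- w12, w11)`
        have := hsimp (- w21) w11 (- w12) w11 (by
          intro P
          linear_combination w11 * hrel P - dt t1 (dv D x (P * lf l1)) * hd)
        rcases this with ⟨-, h1⟩ | ⟨-, h2⟩
        · exact h11 h1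
        · exact h11 h2
    · exfalso
      -- `c = (w22, - w12)`, `d = (w22, - w21)`
      have := hsimp w22 (- w12) w22 (- w21) (by
        intro P
        linear_combination w22 * hrel P - dt t2 (dv D x (P * lf l2)) * hd)
      rcases this with ⟨h1, -⟩ | ⟨h2, -⟩
      · exact h22 h1
      · exact h22 h2
  obtain ⟨⟨z11, z12⟩, z21, z22⟩ := hzero
  have p1 := bas_par x n t1 t2 hp.one hp.nx ht1 ht2 hw _ (pln_tan hp Q l1 hl1) z11 z12
  have p2 := bas_par x n t1 t2 hp.one hp.nx ht1 ht2 hw _ (pln_tan hp Q l2 hl2) z21 z22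
  obtain ⟨α, β, γ, rfl⟩ := bas_coord x h l1 l2 hp.one hp.hx hl1 hl2 hv l hl
  rw [hpar_dv_add, hpar_dv_add, hpar_dv_smul, hpar_dv_smul, hpar_dv_smul]
  exact hpar_par_add _ _ _ (hpar_par_add _ _ _ (hpar_par_smul _ _ _ (pln_par hp Q))
    (hpar_par_smul _ _ _ p1)) (hpar_par_smul _ _ _ p2)

/-- `g` is symmetric and vanishes on the directions in which the point does not move -/
theorem pln_g (hp : Pln D a B x h n g) (P Q : MvPolynomial (Fin 4) Ω)
    (hQ : ∀ l, dt l x = 0 → Par x (dv D x (Q * lf l))) : g P Q = 0 := by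
  obtain ⟨l1, l2, hl1, hl2, hv⟩ := bas_ex x h hp.one hp.hx hp.h0
  obtain ⟨t1, t2, ht1, ht2, hw⟩ := bas_ex x n hp.one hp.nx (pln_n0 hp)
  have e0 := hp.rel P Q l1 l2 t1 t2 hl1 hl2 ht1 ht2
  obtain ⟨c, hc⟩ := hQ l1 hl1
  obtain ⟨d, hd⟩ := hQ l2 hl2
  rw [hc, hd, dt_smul, dt_smul, dt_smul, dt_smul, ht1, ht2, hpar_cyc t1 t2 n] at e0
  have e1 : vol3 n t1 t2 * vol3 h l1 l2 * g P Q = 0 := by linear_combination - e0
  exact (mul_eq_zero.mp e1).resolve_left (mul_ne_zero hw hv)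

end

end Pool.Agent.Helper6.QS
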