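import Pool.Agent.Helper6.QS.Defs

/-! QS-1: basic facts on Hurwitz quaternions. -/

set_option autoImplicit false
open Quaternion
namespace Helper6.QS

/-- the quaternion with given coordinates -/
def h87H (a b c d : ℚ) : ℍ[ℚ] := ⟨a, b, c, d⟩

theorem h87H_re (a b c d : ℚ) : (h87H a b c d).re = a := rfl
theorem h87H_imI (a b c d : ℚ) : (h87H a b c d).imI = b := rfl
theorem h87H_imJ (a b c d : ℚ) : (h87H a b c d).imJ = c := rfl
theorem h87H_imK (a b c d : ℚ) : (h87H a b c d).imK = d := rfl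

theorem h87_iff {x : ℍ[ℚ]} : IsHur x ↔ ∃ a b c d : ℤ, Even (a + b) ∧ Even (a + c) ∧
    Even (a + d) ∧ x.re = (a : ℚ) / 2 ∧ x.imI = (b : ℚ) / 2 ∧ x.imJ = (c : ℚ) / 2 ∧
    x.imK = (d : ℚ) / 2 := by
  constructor
  · rintro ⟨a, b, c, d, h1, h2, h3, rfl⟩
    exact ⟨a, b, c, d, h1, h2, h3, rfl, rfl, rfl, rfl⟩
  · rintro ⟨a, b, c, d, h1, h2, h3, h4, h5, h6, h7⟩
    exact ⟨a, b, c, d, h1, h2, h3, Quaternion.ext _ _ h4 h5 h6 h7⟩

/-- the other coordinates in terms of the first -/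
theorem h87_iff' {x : ℍ[ℚ]} : IsHur x ↔ ∃ a b c d : ℤ, x.re = (a : ℚ) / 2 ∧
    x.imI = ((a : ℚ) + 2 * b) / 2 ∧ x.imJ = ((a : ℚ) + 2 * c) / 2 ∧
    x.imK = ((a : ℚ) + 2 * d) / 2 := by
  rw [h87_iff]
  constructor
  · rintro ⟨a, b, c, d, ⟨r, hr⟩, ⟨s, hs⟩, ⟨t, ht⟩, h4, h5, h6, h7⟩
    refine ⟨a, r - a, s - a, t - a, h4, ?_, ?_, ?_⟩
    · rw [h5]
      have h : (b : ℚ) = (a : ℚ) + 2 * ((r - a : ℤ) : ℚ) := by
        have : b = a + 2 * (r - a) := by omega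
        exact_mod_cast this
      rw [h]
    · rw [h6]
      have h : (c : ℚ) = (a : ℚ) + 2 * ((s - a : ℤ) : ℚ) := by
        have : c = a + 2 * (s - a) := by omega
        exact_mod_cast this
      rw [h]
    · rw [h7]
      have h : (d : ℚ) = (a : ℚ) + 2 * ((t - a : ℤ) : ℚ) := by
        have : d = a + 2 * (t - a) := by omega
        exact_mod_cast this
      rw [h]
  · rintro ⟨a, b, c, d, h4, h5, h6, h7⟩
    refine ⟨a, a + 2 * b, a + 2 * c, a + 2 * d, ⟨a + b, by ring⟩, ⟨a + c, by ring⟩,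
      ⟨a + d, by ring⟩, h4, ?_, ?_, ?_⟩
    · rw [h5]; push_cast; ring
    · rw [h6]; push_cast; ring
    · rw [h7]; push_cast; ring

theorem h87_ints (a b c d : ℤ) : IsHur (h87H a b c d) := by
  rw [h87_iff]
  refine ⟨2 * a, 2 * b, 2 * c, 2 * d, ⟨a + b, by ring⟩, ⟨a + c, by ring⟩, ⟨a + d, by ring⟩,
    ?_, ?_, ?_, ?_⟩
  · rw [h87H_re]; push_cast; ring
  · rw [h87H_imI]; push_cast; ring
  · rw [h87H_imJ]; push_cast; ring
  · rw [h87H_imK]; push_cast; ring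

theorem hur_int (n : ℤ) : IsHur (n : ℍ[ℚ]) := by
  have h := h87_ints n 0 0 0
  have h2 : (n : ℍ[ℚ]) = h87H (n : ℚ) ((0 : ℤ) : ℚ) ((0 : ℤ) : ℚ) ((0 : ℤ) : ℚ) := by
    refine Quaternion.ext _ _ ?_ ?_ ?_ ?_
    · rw [h87H_re]; simp
    · rw [h87H_imI]; simp
    · rw [h87H_imJ]; simp
    · rw [h87H_imK]; simp
  rw [h2]
  exact h

theorem hur_zero : IsHur 0 := by
  have h := hur_int 0
  rwa [Int.cast_zero] at h

theorem hur_one : IsHur 1 := by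
  have h := hur_int 1
  rwa [Int.cast_one] at h

theorem IsHur.add {x y : ℍ[ℚ]} (hx : IsHur x) (hy : IsHur y) : IsHur (x + y) := by
  rw [h87_iff'] at hx hy ⊢
  obtain ⟨a, b, c, d, h1, h2, h3, h4⟩ := hx
  obtain ⟨a', b', c', d', h1', h2', h3', h4'⟩ := hy
  refine ⟨a + a', b + b', c + c', d + d', ?_, ?_, ?_, ?_⟩
  · rw [Quaternion.re_add, h1, h1']; push_cast; ring
  · rw [Quaternion.imI_add, h2, h2']; push_cast; ring
  · rw [Quaternion.imJ_add, h3, h3']; push_cast; ring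
  · rw [Quaternion.imK_add, h4, h4']; push_cast; ring

theorem IsHur.neg {x : ℍ[ℚ]} (hx : IsHur x) : IsHur (-x) := by
  rw [h87_iff'] at hx ⊢
  obtain ⟨a, b, c, d, h1, h2, h3, h4⟩ := hx
  refine ⟨-a, -b, -c, -d, ?_, ?_, ?_, ?_⟩
  · rw [Quaternion.re_neg, h1]; push_cast; ring
  · rw [Quaternion.imI_neg, h2]; push_cast; ring
  · rw [Quaternion.imJ_neg, h3]; push_cast; ring
  · rw [Quaternion.imK_neg, h4]; push_cast; ring

theorem IsHur.sub {x y : ℍ[ℚ]} (hx : IsHur x) (hy : IsHur y) : IsHur (x - y) := by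
  rw [sub_eq_add_neg]
  exact hx.add hy.neg

theorem IsHur.mul {x y : ℍ[ℚ]} (hx : IsHur x) (hy : IsHur y) : IsHur (x * y) := by
  rw [h87_iff'] at hx hy
  rw [h87_iff]
  obtain ⟨a, b, c, d, h1, h2, h3, h4⟩ := hx
  obtain ⟨a', b', c', d', h1', h2', h3', h4'⟩ := hy
  refine ⟨-(a * a') - a * (b' + c' + d') - a' * (b + c + d) - 2 * (b * b' + c * c' + d * d'),
    a * a' + a * b' + b * a' + a * d' + c * a' - a * c' - d * a' + 2 * (c * d' - d * c'),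
    a * a' + a * c' - a * d' - b * a' + c * a' + a * b' + d * a' + 2 * (d * b' - b * d'),
    a * a' + a * d' + a * c' + b * a' - a * b' - c * a' + d * a' + 2 * (b * c' - c * b'),
    ⟨-(a * c') - a' * d - (b * b' + c * c' + d * d') + (c * d' - d * c'), by ring⟩,
    ⟨-(a * d') - a' * b - (b * b' + c * c' + d * d') + (d * b' - b * d'), by ring⟩,
    ⟨-(a * b') - a' * c - (b * b' + c * c' + d * d') + (b * c' - c * b'), by ring⟩,
    ?_, ?_, ?_, ?_⟩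
  · rw [Quaternion.re_mul, h1, h2, h3, h4, h1', h2', h3', h4']; push_cast; ring
  · rw [Quaternion.imI_mul, h1, h2, h3, h4, h1', h2', h3', h4']; push_cast; ring
  · rw [Quaternion.imJ_mul, h1, h2, h3, h4, h1', h2', h3', h4']; push_cast; ring
  · rw [Quaternion.imK_mul, h1, h2, h3, h4, h1', h2', h3', h4']; push_cast; ring

theorem IsHur.conj {x : ℍ[ℚ]} (hx : IsHur x) : IsHur (star x) := by
  rw [h87_iff'] at hx ⊢
  obtain ⟨a, b, c, d, h1, h2, h3, h4⟩ := hx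
  refine ⟨a, -a - b, -a - c, -a - d, ?_, ?_, ?_, ?_⟩
  · rw [Quaternion.re_star, h1]
  · rw [Quaternion.imI_star, h2]; push_cast; ring
  · rw [Quaternion.imJ_star, h3]; push_cast; ring
  · rw [Quaternion.imK_star, h4]; push_cast; ring

theorem IsHur.normSq_int {x : ℍ[ℚ]} (hx : IsHur x) : ∃ n : ℤ, Quaternion.normSq x = n := by
  rw [h87_iff'] at hx
  obtain ⟨a, b, c, d, h1, h2, h3, h4⟩ := hx
  refine ⟨a ^ 2 + a * (b + c + d) + b ^ 2 + c ^ 2 + d ^ 2, ?_⟩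
  rw [Quaternion.normSq_def', h1, h2, h3, h4]
  push_cast
  ring

theorem IsHur.two_re {x : ℍ[ℚ]} (hx : IsHur x) : ∃ n : ℤ, 2 * x.re = n := by
  rw [h87_iff'] at hx
  obtain ⟨a, b, c, d, h1, h2, h3, h4⟩ := hx
  exact ⟨a, by rw [h1]; ring⟩

/-- a rational Hurwitz quaternion is an integer -/
theorem IsHur.of_coe {r : ℚ} (h : IsHur (r : ℍ[ℚ])) : ∃ n : ℤ, r = n := by
  rw [h87_iff'] at h
  obtain ⟨a, b, c, d, h1, h2, h3, h4⟩ := h
  refine ⟨-b, ?_⟩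
  have h5 : ((r : ℍ[ℚ])).re = r := rfl
  have h6 : ((r : ℍ[ℚ])).imI = 0 := rfl
  rw [h5] at h1
  rw [h6] at h2
  push_cast
  linarith

theorem h87_oneI_eq : oneI = h87H 1 1 0 0 := rfl

theorem hur_oneI : IsHur oneI := by
  have h := h87_ints 1 1 0 0
  rw [h87_oneI_eq]
  simpa using h

theorem IsHur.of_star_oneI {r : ℚ} (h : IsHur (star oneI * (r : ℍ[ℚ]))) : ∃ n : ℤ, r = n := by
  rw [h87_iff'] at h
  obtain ⟨a, b, c, d, h1, h2, h3, h4⟩ := h
  refine ⟨-c, ?_⟩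
  have h5 : (star oneI * (r : ℍ[ℚ])).re = r := by
    rw [Quaternion.re_mul, Quaternion.re_star, Quaternion.imI_star, Quaternion.imJ_star,
      Quaternion.imK_star, h87_oneI_eq, h87H_re, h87H_imI, h87H_imJ, h87H_imK]
    simp
  have h6 : (star oneI * (r : ℍ[ℚ])).imJ = 0 := by
    rw [Quaternion.imJ_mul, Quaternion.re_star, Quaternion.imI_star, Quaternion.imJ_star,
      Quaternion.imK_star, h87_oneI_eq, h87H_re, h87H_imI, h87H_imJ, h87H_imK]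
    simp
  rw [h5] at h1
  rw [h6] at h3
  push_cast
  linarith

/-- nearest integer and nearest half integer -/
theorem h87_near (x : ℚ) : ∃ n s : ℤ, ∃ e : ℚ, 0 ≤ e ∧ e ≤ 1 / 2 ∧ (s = 1 ∨ s = -1) ∧
    (x - n) ^ 2 = e ^ 2 ∧ (x - ((n : ℚ) + s / 2)) ^ 2 = e ^ 2 - e + 1 / 4 := by
  refine ⟨round x, if 0 ≤ x - round x then 1 else -1, |x - round x|, abs_nonneg _,
    abs_sub_round x, ?_, by rw [sq_abs], ?_⟩
  · split_ifs
    · exact Or.inl rfl
    · exact Or.inr rfl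
  · split_ifs with h
    · rw [abs_of_nonneg h]
      push_cast
      ring
    · rw [abs_of_neg (not_le.1 h)]
      push_cast
      ring

/-- Euclidean division: nearest Hurwitz quaternion -/
theorem hur_euclid (x : ℍ[ℚ]) : ∃ y, IsHur y ∧ Quaternion.normSq (x - y) ≤ 1 / 2 := by
  obtain ⟨n1, s1, e1, p1, q1, t1, u1, v1⟩ := h87_near x.re
  obtain ⟨n2, s2, e2, p2, q2, t2, u2, v2⟩ := h87_near x.imI
  obtain ⟨n3, s3, e3, p3, q3, t3, u3, v3⟩ := h87_near x.imJ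
  obtain ⟨n4, s4, e4, p4, q4, t4, u4, v4⟩ := h87_near x.imK
  have w1 : e1 ^ 2 ≤ 1 / 2 * e1 := by nlinarith
  have w2 : e2 ^ 2 ≤ 1 / 2 * e2 := by nlinarith
  have w3 : e3 ^ 2 ≤ 1 / 2 * e3 := by nlinarith
  have w4 : e4 ^ 2 ≤ 1 / 2 * e4 := by nlinarith
  by_cases h : e1 + e2 + e3 + e4 ≤ 1
  · refine ⟨h87H n1 n2 n3 n4, h87_ints n1 n2 n3 n4, ?_⟩
    rw [Quaternion.normSq_def', Quaternion.re_sub, Quaternion.imI_sub, Quaternion.imJ_sub,
      Quaternion.imK_sub, h87H_re, h87H_imI, h87H_imJ, h87H_imK]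
    rw [u1, u2, u3, u4]
    linarith
  · refine ⟨h87H ((n1 : ℚ) + s1 / 2) ((n2 : ℚ) + s2 / 2) ((n3 : ℚ) + s3 / 2)
      ((n4 : ℚ) + s4 / 2), ?_, ?_⟩
    · rw [h87_iff]
      refine ⟨2 * n1 + s1, 2 * n2 + s2, 2 * n3 + s3, 2 * n4 + s4, ?_, ?_, ?_, ?_, ?_, ?_, ?_⟩
      · rcases t1 with rfl | rfl <;> rcases t2 with rfl | rfl
        · exact ⟨n1 + n2 + 1, by ring⟩
        · exact ⟨n1 + n2, by ring⟩
        · exact ⟨n1 + n2, by ring⟩
        · exact ⟨n1 + n2 - 1, by ring⟩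
      · rcases t1 with rfl | rfl <;> rcases t3 with rfl | rfl
        · exact ⟨n1 + n3 + 1, by ring⟩
        · exact ⟨n1 + n3, by ring⟩
        · exact ⟨n1 + n3, by ring⟩
        · exact ⟨n1 + n3 - 1, by ring⟩
      · rcases t1 with rfl | rfl <;> rcases t4 with rfl | rfl
        · exact ⟨n1 + n4 + 1, by ring⟩
        · exact ⟨n1 + n4, by ring⟩
        · exact ⟨n1 + n4, by ring⟩
        · exact ⟨n1 + n4 - 1, by ring⟩
      · rw [h87H_re]; push_cast; ring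
      · rw [h87H_imI]; push_cast; ring
      · rw [h87H_imJ]; push_cast; ring
      · rw [h87H_imK]; push_cast; ring
    · rw [Quaternion.normSq_def', Quaternion.re_sub, Quaternion.imI_sub, Quaternion.imJ_sub,
        Quaternion.imK_sub, h87H_re, h87H_imI, h87H_imJ, h87H_imK]
      rw [v1, v2, v3, v4]
      linarith [not_le.1 h]

/-- for an odd prime `p` there is `ν = 1 + a i + b j` with norm divisible by `p` -/
theorem hur_nu (p : ℕ) (hp : p.Prime) (h2 : p ≠ 2) :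
    ∃ ν : ℍ[ℚ], IsHur ν ∧ ν + star ν = 2 ∧ ∃ k : ℤ, Quaternion.normSq ν = p * k := by
  have _ := h2
  have : Fact p.Prime := ⟨hp⟩
  obtain ⟨a, b, hab⟩ := ZMod.sq_add_sq p (-1)
  obtain ⟨a, rfl⟩ := ZMod.intCast_surjective a
  obtain ⟨b, rfl⟩ := ZMod.intCast_surjective b
  have h3 : ((1 + a ^ 2 + b ^ 2 : ℤ) : ZMod p) = 0 := by
    push_cast
    rw [add_assoc, hab]
    ring
  obtain ⟨k, hk⟩ := (ZMod.intCast_zmod_eq_zero_iff_dvd _ p).1 h3
  refine ⟨h87H ((1 : ℤ) : ℚ) (a : ℚ) (b : ℚ) ((0 : ℤ) : ℚ), h87_ints 1 a b 0, ?_, k, ?_⟩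
  · have h2q : (2 : ℍ[ℚ]) = h87H 2 0 0 0 := by
      have h : (2 : ℍ[ℚ]) = ((2 : ℚ) : ℍ[ℚ]) := by norm_num
      rw [h]
      rfl
    rw [h2q]
    refine Quaternion.ext _ _ ?_ ?_ ?_ ?_
    · rw [Quaternion.re_add, Quaternion.re_star, h87H_re, h87H_re]
      norm_num
    · rw [Quaternion.imI_add, Quaternion.imI_star, h87H_imI, h87H_imI]
      ring
    · rw [Quaternion.imJ_add, Quaternion.imJ_star, h87H_imJ, h87H_imJ]
      ring
    · rw [Quaternion.imK_add, Quaternion.imK_star, h87H_imK, h87H_imK]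
      push_cast
      ring
  · rw [Quaternion.normSq_def', h87H_re, h87H_imI, h87H_imJ, h87H_imK]
    have h4 : ((1 + a ^ 2 + b ^ 2 : ℤ) : ℚ) = ((p * k : ℤ) : ℚ) := by rw [hk]
    push_cast at h4 ⊢
    linarith

end Helper6.QS
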