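import Pool.Agent.Helper6.QS.KeyAll
import Pool.Agent.Helper74.Q8.KeyBlk8

/-!
# QS: the key statement for `(5, 8)`, and all four cases
-/

set_option autoImplicit false

namespace Pool.Agent.Helper6.QS

open scoped BigOperators
open MvPolynomial
open Pool.Agent.Helper8.LG (Bdd form mon)
open Pool.Agent.Helper49.LN (cP mo hf pl)

theorem key58 {Ω : Type*} [Field Ω] [CharZero Ω] {n : ℕ} (hn : n + 1 = 8)
    {D : Sym (Fin 6) (n + 1) → Derivation ℤ Ω Ω} {a : Sym (Fin 6) (n + 1) → Ω} {B : Subfield Ω}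
    (hB : Frame D a B) (x : Fin 6 → Ω) (hx : x 0 = 1) (hF : form a x = 0) : ∀ l, x l ∈ B := by
  have h0 := key_dich hB x 0 hx hF (Or.inr (Or.inr (Or.inl ⟨Fintype.card_fin _, hn⟩)))
  rcases h0 with h | h | ⟨_, I, I', J, J', j, l, j', l', hlin⟩
  · exact h
  · exact absurd h.1 (by rw [Fintype.card_fin]; norm_num)
  · rw [hf_lf, hf_lf, hf_lf, hf_lf] at hlin
    exact Pool.Agent.Helper74.Q8.key_blk8 hn hB x hx hF _ _
      (fun m => by
        rw [coeff_add]
        exact add_mem (ratP_mo B _ m) (ratP_mo B _ m))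
      (fun m => by
        rw [coeff_add]
        exact add_mem (ratP_mo B _ m) (ratP_mo B _ m)) _ _ _ _ (dt_hf x 0 j) (dt_hf x 0 l)
      (dt_hf x 0 j') (dt_hf x 0 l') hlin

universe u

theorem keyQ5 (q : ℕ) (hq : q = 8) : KeyQ.{u} 5 q := by
  obtain ⟨n, rfl⟩ : ∃ n, q = n + 1 := ⟨7, by omega⟩
  intro Ω _ _ D a B hB x hx hF
  exact key58 hq hB x hx hF

/-- **The key statement in the four cases.** -/
theorem keyQ_all4 (N q : ℕ) (h : (N = 3 ∧ q = 5) ∨ (N = 4 ∧ q = 7) ∨ (N = 5 ∧ q = 8) ∨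
    (N = 6 ∧ q = 10)) : KeyQ.{u} N q := by
  rcases h with h | h | ⟨rfl, h⟩ | h
  · exact keyQ_all N q (Or.inl h)
  · exact keyQ_all N q (Or.inr (Or.inl h))
  · exact keyQ5 q h
  · exact keyQ_all N q (Or.inr (Or.inr h))

end Pool.Agent.Helper6.QS
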