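import Pool.Agent.Helper6.QS.HB

/-! QS-6: the block theorem over the integer (Lipschitz) quaternions, `u` odd. -/

set_option autoImplicit false
open Quaternion
namespace Helper6.QS

/-- integer coordinates -/
private def IsLip (x : ℍ[ℚ]) : Prop := ∃ a b c d : ℤ, x = ⟨(a : ℚ), (b : ℚ), (c : ℚ), (d : ℚ)⟩

/-- all coordinates are halves of odd integers -/
private def IsHalf (x : ℍ[ℚ]) : Prop :=
  ∃ a b c d : ℤ, x = ⟨(a : ℚ) + 1 / 2, (b : ℚ) + 1 / 2, (c : ℚ) + 1 / 2, (d : ℚ) + 1 / 2⟩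

private theorem lip_or_half {x : ℍ[ℚ]} (hx : IsHur x) : IsLip x ∨ IsHalf x := by
  obtain ⟨a, b, c, d, hb, hc, hd, rfl⟩ := hx
  rcases Int.even_or_odd' a with ⟨k, hk | hk⟩
  · left
    have hb' : Even b := by
      have : Even (2 * k) := even_two_mul k
      rw [hk] at hb
      exact (Int.even_add.mp hb).mp this
    have hc' : Even c := by
      have : Even (2 * k) := even_two_mul k
      rw [hk] at hc
      exact (Int.even_add.mp hc).mp this
    have hd' : Even d := by
      have : Even (2 * k) := even_two_mul k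
      rw [hk] at hd
      exact (Int.even_add.mp hd).mp this
    obtain ⟨b', rfl⟩ := hb'
    obtain ⟨c', rfl⟩ := hc'
    obtain ⟨d', rfl⟩ := hd'
    refine ⟨k, b', c', d', ?_⟩
    subst hk
    ext <;> (push_cast; ring)
  · right
    obtain ⟨b', hb'⟩ := hb
    obtain ⟨c', hc'⟩ := hc
    obtain ⟨d', hd'⟩ := hd
    refine ⟨k, b' - k - 1, c' - k - 1, d' - k - 1, ?_⟩
    have h1 : b = 2 * (b' - k - 1) + 1 := by omega
    have h2 : c = 2 * (c' - k - 1) + 1 := by omega
    have h3 : d = 2 * (d' - k - 1) + 1 := by omega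
    rw [h1, h2, h3, hk]
    ext <;> (push_cast; ring)

private theorem half_norm {x : ℍ[ℚ]} (hx : IsHalf x) : ∃ k : ℤ, normSq x = 2 * k + 1 := by
  obtain ⟨a, b, c, d, rfl⟩ := hx
  obtain ⟨a', ha⟩ := Int.even_mul_succ_self a
  obtain ⟨b', hb⟩ := Int.even_mul_succ_self b
  obtain ⟨c', hc⟩ := Int.even_mul_succ_self c
  obtain ⟨d', hd⟩ := Int.even_mul_succ_self d
  refine ⟨a' + b' + c' + d', ?_⟩
  rw [Quaternion.normSq_def']
  have e1 : ((a : ℚ) * (a + 1)) = a' + a' := by exact_mod_cast ha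
  have e2 : ((b : ℚ) * (b + 1)) = b' + b' := by exact_mod_cast hb
  have e3 : ((c : ℚ) * (c + 1)) = c' + c' := by exact_mod_cast hc
  have e4 : ((d : ℚ) * (d + 1)) = d' + d' := by exact_mod_cast hd
  push_cast
  linear_combination e1 + e2 + e3 + e4

private theorem lip_of_even {x : ℍ[ℚ]} (hx : IsHur x) {k : ℤ} (hk : normSq x = 2 * k) : IsLip x := by
  rcases lip_or_half hx with h | h
  · exact h
  · obtain ⟨j, hj⟩ := half_norm h
    rw [hk] at hj
    exfalso
    have : (2 * k : ℤ) = 2 * j + 1 := by exact_mod_cast hj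
    omega

private theorem lip_of_re {x : ℍ[ℚ]} (hx : IsHur x) {k : ℤ} (hk : x.re = k) : IsLip x := by
  rcases lip_or_half hx with h | h
  · exact h
  · obtain ⟨a, b, c, d, rfl⟩ := h
    exfalso
    have h1 : (a : ℚ) + 1 / 2 = k := hk
    have : (2 * a + 1 : ℤ) = 2 * k := by
      have : (2 * a + 1 : ℚ) = 2 * k := by rw [← h1]; ring
      exact_mod_cast this
    omega

private theorem IsLip.conj {x : ℍ[ℚ]} (hx : IsLip x) : IsLip (star x) := by
  obtain ⟨a, b, c, d, rfl⟩ := hx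
  refine ⟨a, -b, -c, -d, ?_⟩
  ext <;> simp

/-- a half quaternion times a Lipschitz quaternion of odd norm is a half quaternion -/
private theorem half_mul_lip {x y : ℍ[ℚ]} (hx : IsHalf x) (hy : IsLip y) {k : ℤ}
    (hk : normSq y = 2 * k + 1) (hl : IsLip (x * y)) : False := by
  obtain ⟨a, b, c, d, rfl⟩ := hx
  obtain ⟨p, q, r, s, rfl⟩ := hy
  obtain ⟨e, _, _, _, he⟩ := hl
  have h1 := congrArg (fun t : ℍ[ℚ] => t.re) he
  simp only [Quaternion.re_mul] at h1
  rw [Quaternion.normSq_def'] at hk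
  have h2 : (p : ℤ) ^ 2 + q ^ 2 + r ^ 2 + s ^ 2 = 2 * k + 1 := by
    have hk' : (p : ℚ) ^ 2 + q ^ 2 + r ^ 2 + s ^ 2 = 2 * k + 1 := hk
    exact_mod_cast hk'
  have h3 : (2 * a + 1) * p - (2 * b + 1) * q - (2 * c + 1) * r - (2 * d + 1) * s = 2 * e := by
    have : (2 * a + 1 : ℚ) * p - (2 * b + 1) * q - (2 * c + 1) * r - (2 * d + 1) * s = 2 * e := by
      rw [← h1]; ring
    exact_mod_cast this
  obtain ⟨p', hp⟩ := Int.even_mul_succ_self p
  obtain ⟨q', hq⟩ := Int.even_mul_succ_self q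
  obtain ⟨r', hr⟩ := Int.even_mul_succ_self r
  obtain ⟨s', hs⟩ := Int.even_mul_succ_self s
  have h4 : 2 * (p' + q' + r' + s' - k - e + a * p - b * q - c * r - d * s - q - r - s) = 1 := by
    linear_combination h2 - hp - hq - hr - hs + h3
  omega

/-- the unit of order three -/
private def om : ℍ[ℚ] := ⟨-1 / 2, 1 / 2, 1 / 2, 1 / 2⟩

private def IsU (e : ℍ[ℚ]) : Prop := IsHur e ∧ star e * e = 1 ∧ normSq e = 1

private theorem isU_one : IsU 1 := ⟨hur_one, by simp, by simp⟩

private theorem hur_om : IsHur om := ⟨-1, 1, 1, 1, by decide, by decide, by decide, by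
  ext <;> simp [om]⟩

private theorem isU_om : IsU om := ⟨hur_om, by
    ext <;> simp [om, Quaternion.re_mul, Quaternion.imI_mul, Quaternion.imJ_mul,
      Quaternion.imK_mul] <;> norm_num, by
    rw [Quaternion.normSq_def']; norm_num [om]⟩

private theorem isU_om' : IsU (star om) := ⟨hur_om.conj, by
    ext <;> simp [om, Quaternion.re_mul, Quaternion.imI_mul, Quaternion.imJ_mul,
      Quaternion.imK_mul] <;> norm_num, by
    rw [Quaternion.normSq_def']; norm_num [om]⟩

private theorem exists_unit {x : ℍ[ℚ]} (hx : IsHur x) : ∃ e, IsU e ∧ IsLip (e * x) := by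
  rcases lip_or_half hx with h | h
  · exact ⟨1, isU_one, by simpa using h⟩
  · obtain ⟨a, b, c, d, rfl⟩ := h
    rcases Int.even_or_odd' (a + b + c + d) with ⟨k, hk | hk⟩
    · -- 4 | 2a+1 + ... iff a+b+c+d even
      refine ⟨om, isU_om, -(k + 1), k - b - c, k - c - d, k - b - d, ?_⟩
      have h1 : (a : ℚ) + b + c + d = 2 * k := by exact_mod_cast hk
      ext
      · simp only [om, Quaternion.re_mul]; push_cast; linarith
      · simp only [om, Quaternion.imI_mul]; push_cast; linarith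
      · simp only [om, Quaternion.imJ_mul]; push_cast; linarith
      · simp only [om, Quaternion.imK_mul]; push_cast; linarith
    · refine ⟨star om, isU_om', k + 1 - a, c - k - 1, d - k - 1, b - k - 1, ?_⟩
      have h1 : (a : ℚ) + b + c + d = 2 * k + 1 := by exact_mod_cast hk
      ext
      · simp only [om, Quaternion.re_mul, Quaternion.re_star, Quaternion.imI_star, Quaternion.imJ_star, Quaternion.imK_star]; push_cast; linarith
      · simp only [om, Quaternion.imI_mul, Quaternion.re_star, Quaternion.imI_star, Quaternion.imJ_star, Quaternion.imK_star]; push_cast; linarith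
      · simp only [om, Quaternion.imJ_mul, Quaternion.re_star, Quaternion.imI_star, Quaternion.imJ_star, Quaternion.imK_star]; push_cast; linarith
      · simp only [om, Quaternion.imK_mul, Quaternion.re_star, Quaternion.imI_star, Quaternion.imJ_star, Quaternion.imK_star]; push_cast; linarith

private theorem IsU.mul {e x : ℍ[ℚ]} (he : IsU e) (hx : IsHur x) :
    IsHur (e * x) ∧ normSq (e * x) = normSq x := by
  refine ⟨he.1.mul hx, ?_⟩
  rw [map_mul, he.2.2, one_mul]

/-- simultaneous passage to Lipschitz quaternions -/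
private theorem exists_lip {z c1 c2 : ℍ[ℚ]} (hz : IsHur z) (h1 : IsHur c1) (h2 : IsHur c2)
    (hw : IsLip (star c1 * z * c2)) :
    ∃ z' c1' c2' : ℍ[ℚ], IsLip z' ∧ IsLip c1' ∧ IsLip c2' ∧ normSq z' = normSq z ∧
      normSq c1' = normSq c1 ∧ normSq c2' = normSq c2 ∧
      star c1' * z' * c2' = star c1 * z * c2 := by
  obtain ⟨n1, hn1⟩ := h1.normSq_int
  obtain ⟨n2, hn2⟩ := h2.normSq_int
  obtain ⟨n3, hn3⟩ := hz.normSq_int
  -- it is enough to find the units
  suffices H : ∃ e1 e2 : ℍ[ℚ], IsU e1 ∧ IsU e2 ∧ IsLip (e1 * c1) ∧ IsLip (e2 * c2) ∧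
      IsLip (e1 * z * star e2) by
    obtain ⟨e1, e2, u1, u2, l1, l2, l3⟩ := H
    refine ⟨e1 * z * star e2, e1 * c1, e2 * c2, l3, l1, l2, ?_, ?_, ?_, ?_⟩
    · rw [map_mul, map_mul, Quaternion.normSq_star, u1.2.2, u2.2.2]; ring
    · rw [map_mul, u1.2.2, one_mul]
    · rw [map_mul, u2.2.2, one_mul]
    · have : star (e1 * c1) * (e1 * z * star e2) * (e2 * c2) =
          star c1 * (star e1 * e1) * z * (star e2 * e2) * c2 := by
        rw [star_mul]; noncomm_ring
      rw [this, u1.2.1, u2.2.1, mul_one, mul_one]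
  rcases Int.even_or_odd' n1 with ⟨k1, hk1 | hk1⟩
  · obtain ⟨e2, u2, l2⟩ := exists_unit h2
    obtain ⟨e1, u1, l1⟩ := exists_unit (hz.mul u2.1.conj)
    refine ⟨e1, e2, u1, u2, ?_, l2, by rw [mul_assoc]; exact l1⟩
    apply lip_of_even (u1.mul h1).1 (k := k1)
    rw [(u1.mul h1).2, hn1, hk1]; push_cast; ring
  rcases Int.even_or_odd' n2 with ⟨k2, hk2 | hk2⟩
  · obtain ⟨e1, u1, l1⟩ := exists_unit h1
    obtain ⟨e2, u2, l2⟩ := exists_unit (u1.1.mul hz).conj
    refine ⟨e1, e2, u1, u2, l1, ?_, ?_⟩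
    · apply lip_of_even (u2.mul h2).1 (k := k2)
      rw [(u2.mul h2).2, hn2, hk2]; push_cast; ring
    · have := l2.conj
      rwa [star_mul, star_star] at this
  obtain ⟨e1, u1, l1⟩ := exists_unit h1
  obtain ⟨e2, u2, l2⟩ := exists_unit h2
  have hz' : IsHur (e1 * z * star e2) := (u1.1.mul hz).mul u2.1.conj
  refine ⟨e1, e2, u1, u2, l1, l2, ?_⟩
  rcases lip_or_half hz' with h | h
  · exact h
  exfalso
  have hww : star (e1 * c1) * (e1 * z * star e2) * (e2 * c2) = star c1 * z * c2 := by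
    have : star (e1 * c1) * (e1 * z * star e2) * (e2 * c2) =
        star c1 * (star e1 * e1) * z * (star e2 * e2) * c2 := by
      rw [star_mul]; noncomm_ring
    rw [this, u1.2.1, u2.2.1, mul_one, mul_one]
  rw [← hww] at hw
  have hc1 : normSq (e1 * c1) = 2 * (k1 : ℚ) + 1 := by
    rw [map_mul, u1.2.2, one_mul, hn1, hk1]; push_cast; ring
  have hc2 : normSq (e2 * c2) = 2 * (k2 : ℚ) + 1 := by
    rw [map_mul, u2.2.2, one_mul, hn2, hk2]; push_cast; ring
  -- star c1' z' is half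
  have h4 : IsHur (star (e1 * c1) * (e1 * z * star e2)) := (u1.1.mul h1).conj.mul hz'
  rcases lip_or_half h4 with h5 | h5
  · -- star of it : star z' * c1' Lipschitz
    have h6 := h5.conj
    rw [star_mul, star_star] at h6
    have h7 : IsHalf (star (e1 * z * star e2)) := by
      rcases lip_or_half hz'.conj with h8 | h8
      · exfalso
        obtain ⟨a, b, c, d, h⟩ := h
        have h9 := h8.conj
        rw [star_star] at h9
        obtain ⟨a', b', c', d', h9⟩ := h9
        rw [h] at h9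
        have h10 := congrArg (fun t : ℍ[ℚ] => t.re) h9
        have h11 : (a : ℚ) + 1 / 2 = a' := h10
        have : (2 * a + 1 : ℤ) = 2 * a' := by
          have : (2 * a + 1 : ℚ) = 2 * a' := by rw [← h11]; ring
          exact_mod_cast this
        omega
      · exact h8
    exact half_mul_lip h7 l1 hc1 h6
  · exact half_mul_lip h5 l2 hc2 hw

private theorem step (u v m m' : ℤ) (hu : Odd u) (hm : 0 < m)
    (hD : m' ^ 2 + u * m * m' + v * m ^ 2 < 0) (hpar : ¬ (Even m ∧ Even m')) :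
    ∃ (a b : ℤ) (z c1 c2 : ℍ[ℤ]), a + b = -u ∧ a * b - normSq z = v ∧
      normSq c1 + normSq c2 = m ∧
      a * normSq c1 + b * normSq c2 + 2 * (star c1 * z * c2).re = m' := by
  obtain ⟨a, b, z, c1, c2, hz, h1, h2, hab, hv, hmm, hmm'⟩ := hur_block u v m m' hm hD
  obtain ⟨n1, hn1⟩ := h1.normSq_int
  obtain ⟨n2, hn2⟩ := h2.normSq_int
  obtain ⟨n3, hn3⟩ := hz.normSq_int
  have hwH : IsHur (star c1 * z * c2) := (h1.conj.mul hz).mul h2
  have hwn : normSq (star c1 * z * c2) = n1 * n3 * n2 := by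
    rw [map_mul, map_mul, Quaternion.normSq_star, hn1, hn2, hn3]
  rw [hn1, hn2] at hmm hmm'
  have hmmZ : n1 + n2 = m := by exact_mod_cast hmm
  have hw : IsLip (star c1 * z * c2) := by
    by_cases hodd : Odd (n1 * n3 * n2)
    · have o2 : Odd n2 := (Int.odd_mul.mp hodd).2
      have o1 : Odd n1 := (Int.odd_mul.mp (Int.odd_mul.mp hodd).1).1
      have hme : Even m := by rw [← hmmZ]; exact o1.add_odd o2
      have hmo : Odd m' := by
        rw [← Int.not_even_iff_odd]; intro h; exact hpar ⟨hme, h⟩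
      obtain ⟨t, ht⟩ := hwH.two_re
      obtain ⟨k1, hk1⟩ := o1
      obtain ⟨k2, hk2⟩ := o2
      obtain ⟨k', hk'⟩ := hmo
      obtain ⟨ku, hku⟩ := hu
      have htZ : a * n1 + b * n2 + t = m' := by
        have : (a * n1 + b * n2 + t : ℚ) = m' := by rw [← ht]; exact hmm'
        exact_mod_cast this
      have ht2 : t = 2 * (k' + ku + 1 - a * k1 - b * k2) := by
        rw [hk1, hk2, hk'] at htZ
        have hab' : a + b = -(2 * ku + 1) := by rw [hab, hku]
        linear_combination htZ - hab'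
      apply lip_of_re hwH (k := k' + ku + 1 - a * k1 - b * k2)
      have : (2 * (star c1 * z * c2).re : ℚ) = 2 * ((k' + ku + 1 - a * k1 - b * k2 : ℤ) : ℚ) := by
        rw [ht, ht2]; push_cast; ring
      linarith
    · rw [Int.not_odd_iff_even] at hodd
      obtain ⟨k, hk⟩ := hodd
      apply lip_of_even hwH (k := k)
      rw [hwn]
      have : ((n1 * n3 * n2 : ℤ) : ℚ) = ((k + k : ℤ) : ℚ) := by rw [hk]
      push_cast at this
      rw [this]; ring
  obtain ⟨z', c1', c2', lz, l1, l2, ez, e1, e2, ew⟩ := exists_lip hz h1 h2 hw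
  obtain ⟨z0, z1, z2, z3, rfl⟩ := lz
  obtain ⟨p0, p1, p2, p3, rfl⟩ := l1
  obtain ⟨q0, q1, q2, q3, rfl⟩ := l2
  refine ⟨a, b, ⟨z0, z1, z2, z3⟩, ⟨p0, p1, p2, p3⟩, ⟨q0, q1, q2, q3⟩, hab, ?_, ?_, ?_⟩
  · rw [← ez, Quaternion.normSq_def'] at hv
    rw [Quaternion.normSq_def']
    have hv' : (a * b : ℚ) - ((z0 : ℚ) ^ 2 + z1 ^ 2 + z2 ^ 2 + z3 ^ 2) = v := hv
    have : a * b - (z0 ^ 2 + z1 ^ 2 + z2 ^ 2 + z3 ^ 2) = v := by exact_mod_cast hv'
    exact this
  · rw [← hn1, ← hn2, ← e1, ← e2, Quaternion.normSq_def', Quaternion.normSq_def'] at hmm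
    rw [Quaternion.normSq_def', Quaternion.normSq_def']
    have h' : ((p0 : ℚ) ^ 2 + p1 ^ 2 + p2 ^ 2 + p3 ^ 2) + ((q0 : ℚ) ^ 2 + q1 ^ 2 + q2 ^ 2 + q3 ^ 2) = m :=
      hmm
    have : (p0 ^ 2 + p1 ^ 2 + p2 ^ 2 + p3 ^ 2) + (q0 ^ 2 + q1 ^ 2 + q2 ^ 2 + q3 ^ 2) = m := by
      exact_mod_cast h'
    exact this
  · rw [← hn1, ← hn2, ← e1, ← e2, ← ew, Quaternion.normSq_def', Quaternion.normSq_def'] at hmm'
    rw [Quaternion.normSq_def', Quaternion.normSq_def']
    simp only [Quaternion.re_mul, Quaternion.imI_mul, Quaternion.imJ_mul, Quaternion.imK_mul,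
      Quaternion.re_star, Quaternion.imI_star, Quaternion.imJ_star, Quaternion.imK_star] at hmm' ⊢
    exact_mod_cast hmm'

private def ti : ℍ[ℤ] := ⟨1, 1, 0, 0⟩

theorem lip_block (u v m m' : ℤ) (hu : Odd u) (hm : 0 < m) (hD : m' ^ 2 + u * m * m' + v * m ^ 2 < 0) :
    ∃ (a b : ℤ) (z c1 c2 : ℍ[ℤ]), a + b = -u ∧ a * b - normSq z = v ∧
      normSq c1 + normSq c2 = m ∧
      a * normSq c1 + b * normSq c2 + 2 * (star c1 * z * c2).re = m' := by
  obtain ⟨n, hn⟩ : ∃ n : ℕ, m.toNat = n := ⟨_, rfl⟩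
  induction n using Nat.strong_induction_on generalizing m m' with
  | _ n ih =>
    by_cases hpar : Even m ∧ Even m'
    · obtain ⟨⟨k, hk⟩, ⟨k', hk'⟩⟩ := hpar
      have hk0 : 0 < k := by omega
      have hD' : k' ^ 2 + u * k * k' + v * k ^ 2 < 0 := by
        rw [hk, hk'] at hD
        nlinarith
      obtain ⟨a, b, z, c1, c2, h1, h2, h3, h4⟩ := ih k.toNat (by omega) k k' hk0 hD' rfl
      refine ⟨a, b, z, c1 * ti, c2 * ti, h1, h2, ?_, ?_⟩
      · have ht : normSq ti = 2 := by rw [Quaternion.normSq_def']; norm_num [ti]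
        rw [map_mul, map_mul, ht, hk, ← h3]; ring
      · have ht : normSq ti = 2 := by rw [Quaternion.normSq_def']; norm_num [ti]
        have hre : (star (c1 * ti) * z * (c2 * ti)).re = 2 * (star c1 * z * c2).re := by
          simp only [ti, Quaternion.re_mul, Quaternion.imI_mul, Quaternion.imJ_mul,
            Quaternion.imK_mul, Quaternion.re_star, Quaternion.imI_star, Quaternion.imJ_star,
            Quaternion.imK_star]
          ring
        rw [hre, map_mul, map_mul, ht, hk', ← h4]; ring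
    · exact step u v m m' hu hm hD hpar

end Helper6.QS
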