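import Pool.Agent.Helper6.QS.Hur

/-! QS-2: existence of maximal lattices (Zorn). -/

set_option autoImplicit false
open Quaternion
namespace Helper6.QS

/-- every lattice of our kind contains `(0,1)` and all pairs of Hurwitz quaternions -/
theorem IsLat.std {u v m m' : ℤ} {L : AddSubgroup (ℍ[ℚ] × ℍ[ℚ])} (hL : IsLat u v m m' L)
    (x : ℍ[ℚ] × ℍ[ℚ]) (h1 : IsHur x.1) (h2 : IsHur x.2) : x ∈ L := by
  have e2 : ((0 : ℍ[ℚ]), (1 : ℍ[ℚ])) ∈ L := by
    have h := hL.K _ hL.e1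
    simpa [Km] using h
  have a1 := hL.mul _ hL.e1 x.1 h1
  have a2 := hL.mul _ e2 x.2 h2
  have h := L.add_mem a1 a2
  simpa using h

/-- the standard lattice -/
def stdLat : AddSubgroup (ℍ[ℚ] × ℍ[ℚ]) where
  carrier := {x | IsHur x.1 ∧ IsHur x.2}
  zero_mem' := ⟨hur_zero, hur_zero⟩
  add_mem' := fun ha hb => ⟨ha.1.add hb.1, ha.2.add hb.2⟩
  neg_mem' := fun ha => ⟨ha.1.neg, ha.2.neg⟩

theorem mem_stdLat (x : ℍ[ℚ] × ℍ[ℚ]) : x ∈ stdLat ↔ IsHur x.1 ∧ IsHur x.2 := Iff.rfl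

theorem isLat_stdLat (u v m m' : ℤ) : IsLat u v m m' stdLat where
  e1 := ⟨hur_one, hur_zero⟩
  mul := fun x hx y hy => ⟨hx.1.mul hy, hx.2.mul hy⟩
  K := fun x hx => ⟨((hur_int v).mul hx.2).neg, hx.1.sub ((hur_int u).mul hx.2)⟩
  int := fun x hx y hy => by
    unfold hf
    exact (((hur_int m).mul (hx.1.conj.mul hy.1)).add
      ((hur_int m').mul ((hx.1.conj.mul hy.2).add (hx.2.conj.mul hy.1)))).add
      ((hur_int _).mul (hx.2.conj.mul hy.2))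

theorem exists_maxLat (u v m m' : ℤ) : ∃ L, IsMaxLat u v m m' L := by
  obtain ⟨L, hL0, hL⟩ := zorn_le_nonempty₀ {L : AddSubgroup (ℍ[ℚ] × ℍ[ℚ]) | IsLat u v m m' L}
    (fun c hc hch y hy => by
      have hdir : DirectedOn (· ≤ ·) c := hch.directedOn
      have hne : c.Nonempty := ⟨y, hy⟩
      have hmem : ∀ x, x ∈ sSup c ↔ ∃ s ∈ c, x ∈ s := fun x =>
        AddSubgroup.mem_sSup_of_directedOn hne hdir
      refine ⟨sSup c, ⟨?_, ?_, ?_, ?_⟩, fun z hz => le_sSup hz⟩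
      · exact (hmem _).2 ⟨y, hy, (hc hy).e1⟩
      · intro x hx z hz
        obtain ⟨s, hs, hxs⟩ := (hmem x).1 hx
        exact (hmem _).2 ⟨s, hs, (hc hs).mul x hxs z hz⟩
      · intro x hx
        obtain ⟨s, hs, hxs⟩ := (hmem x).1 hx
        exact (hmem _).2 ⟨s, hs, (hc hs).K x hxs⟩
      · intro x hx z hz
        obtain ⟨s, hs, hxs⟩ := (hmem x).1 hx
        obtain ⟨t, ht, hzt⟩ := (hmem z).1 hz
        obtain ⟨r, hr, hsr, htr⟩ := hdir s hs t ht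
        exact (hc hr).int x (hsr hxs) z (htr hzt))
    stdLat (isLat_stdLat u v m m')
  refine ⟨L, hL.prop, fun L' hL' hle => ?_⟩
  exact le_antisymm (hL.2 hL' hle) hle

end Helper6.QS
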