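import Pool.Agent.Helper6.QS.Lat1

/-! QS-3: maximal lattices are self-dual. -/

set_option autoImplicit false
open Quaternion
namespace Helper6.QS

namespace H82

/-- right multiplication -/
def act (x : ℍ[ℚ] × ℍ[ℚ]) (c : ℍ[ℚ]) : ℍ[ℚ] × ℍ[ℚ] := (x.1 * c, x.2 * c)

theorem hf_add_right (m m' m'' : ℤ) (x y z : ℍ[ℚ] × ℍ[ℚ]) :
    hf m m' m'' x (y + z) = hf m m' m'' x y + hf m m' m'' x z := by
  simp only [hf, Prod.fst_add, Prod.snd_add]
  noncomm_ring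

theorem hf_add_left (m m' m'' : ℤ) (x y z : ℍ[ℚ] × ℍ[ℚ]) :
    hf m m' m'' (x + y) z = hf m m' m'' x z + hf m m' m'' y z := by
  simp only [hf, Prod.fst_add, Prod.snd_add, star_add]
  noncomm_ring

theorem hf_act_right (m m' m'' : ℤ) (x y : ℍ[ℚ] × ℍ[ℚ]) (c : ℍ[ℚ]) :
    hf m m' m'' x (act y c) = hf m m' m'' x y * c := by
  simp only [hf, act]
  noncomm_ring

theorem star_hf (m m' m'' : ℤ) (x y : ℍ[ℚ] × ℍ[ℚ]) :
    star (hf m m' m'' x y) = hf m m' m'' y x := by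
  have h : ∀ (n : ℤ) (a : ℍ[ℚ]), a * (n : ℍ[ℚ]) = n * a := fun n a => (Int.cast_commute n a).symm
  simp only [hf, star_add, star_mul, star_star, star_intCast, h]
  rw [add_comm (star y.2 * x.1)]

theorem hf_act_left (m m' m'' : ℤ) (x y : ℍ[ℚ] × ℍ[ℚ]) (c : ℍ[ℚ]) :
    hf m m' m'' (act x c) y = star c * hf m m' m'' x y := by
  rw [← star_hf, hf_act_right, star_mul, star_hf]

theorem hf_K (u v m m' : ℤ) (x y : ℍ[ℚ] × ℍ[ℚ]) :
    hf m m' (-u * m' - v * m) (Km u v x) y = hf m m' (-u * m' - v * m) x (Km u v y) := by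
  ext <;> simp [hf, Km] <;> ring

theorem K_add (u v : ℤ) (x y : ℍ[ℚ] × ℍ[ℚ]) : Km u v (x + y) = Km u v x + Km u v y := by
  ext <;> simp [Km] <;> ring

theorem K_act (u v : ℤ) (x : ℍ[ℚ] × ℍ[ℚ]) (c : ℍ[ℚ]) :
    Km u v (act x c) = act (Km u v x) c := by
  simp only [Km, act, Prod.mk.injEq]
  constructor <;> noncomm_ring

theorem K_K (u v : ℤ) (x : ℍ[ℚ] × ℍ[ℚ]) :
    Km u v (Km u v x) = act (Km u v x) (-(u : ℍ[ℚ])) + act x (-(v : ℍ[ℚ])) := by
  ext <;> simp [Km, act] <;> ring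

theorem nsmul_eq_act (n : ℕ) (x : ℍ[ℚ] × ℍ[ℚ]) : n • x = act x (n : ℍ[ℚ]) := by
  have h : ∀ a : ℍ[ℚ], n • a = a * (n : ℍ[ℚ]) := fun a => by
    rw [nsmul_eq_mul, (Nat.cast_commute n a).eq]
  exact Prod.ext (h x.1) (h x.2)

theorem act_add (x : ℍ[ℚ] × ℍ[ℚ]) (c d : ℍ[ℚ]) : act x (c + d) = act x c + act x d :=
  Prod.ext (mul_add _ _ _) (mul_add _ _ _)

theorem add_act (x y : ℍ[ℚ] × ℍ[ℚ]) (c : ℍ[ℚ]) : act (x + y) c = act x c + act y c :=
  Prod.ext (add_mul _ _ _) (add_mul _ _ _)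

theorem act_act (x : ℍ[ℚ] × ℍ[ℚ]) (c d : ℍ[ℚ]) : act (act x c) d = act x (c * d) :=
  Prod.ext (mul_assoc _ _ _) (mul_assoc _ _ _)

theorem act_zero (x : ℍ[ℚ] × ℍ[ℚ]) : act x 0 = 0 := Prod.ext (mul_zero _) (mul_zero _)

theorem act_one (x : ℍ[ℚ] × ℍ[ℚ]) : act x 1 = x := Prod.ext (mul_one _) (mul_one _)

theorem act_neg (x : ℍ[ℚ] × ℍ[ℚ]) (c : ℍ[ℚ]) : act x (-c) = -act x c :=
  Prod.ext (mul_neg _ _) (mul_neg _ _)

theorem coe_eq (r : ℚ) : (Quaternion.coe r : ℍ[ℚ]) = (r : ℍ[ℚ]) := by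
  rw [← Quaternion.coe_ratCast (R := ℚ) r, Rat.cast_id]

theorem cast_mul' (a b : ℚ) : ((a * b : ℚ) : ℍ[ℚ]) = (a : ℍ[ℚ]) * (b : ℍ[ℚ]) := by
  rw [← coe_eq, ← coe_eq, ← coe_eq, Quaternion.coe_mul]

theorem hur_coe_int {r : ℚ} (h : ∃ n : ℤ, r = n) : IsHur (r : ℍ[ℚ]) := by
  obtain ⟨n, rfl⟩ := h
  have : (((n : ℚ)) : ℍ[ℚ]) = (n : ℍ[ℚ]) := by simp
  rw [this]
  exact hur_int n

/-- The lattice enlarged by a dual vector with integral norm. -/
theorem enlarge {u v m m' : ℤ} {L : AddSubgroup (ℍ[ℚ] × ℍ[ℚ])} (hL : IsLat u v m m' L)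
    (w : ℍ[ℚ] × ℍ[ℚ]) (hw : ∀ x ∈ L, IsHur (hf m m' (-u * m' - v * m) x w))
    (h0 : IsHur (hf m m' (-u * m' - v * m) w w))
    (h1 : IsHur (hf m m' (-u * m' - v * m) w (Km u v w))) :
    ∃ L' : AddSubgroup (ℍ[ℚ] × ℍ[ℚ]), IsLat u v m m' L' ∧ L ≤ L' ∧ w ∈ L' := by
  have hwK : ∀ x ∈ L, IsHur (hf m m' (-u * m' - v * m) x (Km u v w)) := fun x hx => by
    rw [← hf_K]
    exact hw _ (hL.K x hx)
  have h2 : IsHur (hf m m' (-u * m' - v * m) (Km u v w) (Km u v w)) := by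
    rw [hf_K, K_K, hf_add_right, hf_act_right, hf_act_right]
    exact (h1.mul (hur_int u).neg).add (h0.mul (hur_int v).neg)
  have h1' : IsHur (hf m m' (-u * m' - v * m) (Km u v w) w) := by
    rw [hf_K]
    exact h1
  let L' : AddSubgroup (ℍ[ℚ] × ℍ[ℚ]) :=
    { carrier := {z | ∃ l ∈ L, ∃ a b : ℍ[ℚ], IsHur a ∧ IsHur b ∧
        z = l + act w a + act (Km u v w) b}
      zero_mem' := ⟨0, L.zero_mem, 0, 0, hur_zero, hur_zero, by simp [act_zero]⟩
      add_mem' := by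
        rintro x y ⟨l, hl, a, b, ha, hb, rfl⟩ ⟨l', hl', a', b', ha', hb', rfl⟩
        refine ⟨l + l', L.add_mem hl hl', a + a', b + b', ha.add ha', hb.add hb', ?_⟩
        rw [act_add, act_add]
        abel
      neg_mem' := by
        rintro x ⟨l, hl, a, b, ha, hb, rfl⟩
        refine ⟨-l, L.neg_mem hl, -a, -b, ha.neg, hb.neg, ?_⟩
        rw [act_neg, act_neg]
        abel }
  have hmem : ∀ z, z ∈ L' ↔ ∃ l ∈ L, ∃ a b : ℍ[ℚ], IsHur a ∧ IsHur b ∧
        z = l + act w a + act (Km u v w) b := fun z => Iff.rfl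
  have hle : L ≤ L' := fun l hl => ⟨l, hl, 0, 0, hur_zero, hur_zero, by simp [act_zero]⟩
  refine ⟨L', ⟨hle hL.e1, ?_, ?_, ?_⟩, hle, ⟨0, L.zero_mem, 1, 0, hur_one, hur_zero, ?_⟩⟩
  · rintro x ⟨l, hl, a, b, ha, hb, rfl⟩ c hc
    refine ⟨act l c, hL.mul l hl c hc, a * c, b * c, ha.mul hc, hb.mul hc, ?_⟩
    change act _ c = _
    rw [add_act, add_act, act_act, act_act]
  · rintro x ⟨l, hl, a, b, ha, hb, rfl⟩
    refine ⟨Km u v l, hL.K l hl, -(v : ℍ[ℚ]) * b, a + -(u : ℍ[ℚ]) * b,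
      (hur_int v).neg.mul hb, ha.add ((hur_int u).neg.mul hb), ?_⟩
    rw [K_add, K_add, K_act, K_act, K_K, add_act, act_act, act_act, act_add]
    abel
  · rintro x ⟨l, hl, a, b, ha, hb, rfl⟩ y ⟨l', hl', a', b', ha', hb', rfl⟩
    have hst : ∀ z, IsHur (hf m m' (-u * m' - v * m) l' z) →
        IsHur (hf m m' (-u * m' - v * m) z l') := fun z hz => by
      rw [← star_hf]
      exact hz.conj
    have key : ∀ z, IsHur (hf m m' (-u * m' - v * m) l z) →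
        IsHur (hf m m' (-u * m' - v * m) w z) →
        IsHur (hf m m' (-u * m' - v * m) (Km u v w) z) →
        IsHur (hf m m' (-u * m' - v * m) (l + act w a + act (Km u v w) b) z) := by
      intro z hz1 hz2 hz3
      rw [hf_add_left, hf_add_left, hf_act_left, hf_act_left]
      exact (hz1.add (ha.conj.mul hz2)).add (hb.conj.mul hz3)
    rw [hf_add_right, hf_add_right, hf_act_right, hf_act_right]
    exact ((key l' (hL.int l hl l' hl') (hst _ (hw l' hl')) (hst _ (hwK l' hl'))).add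
      ((key w (hw l hl) h0 h1').mul ha')).add ((key _ (hwK l hl) h1 h2).mul hb')
  · rw [act_one, act_zero, zero_add, add_zero]

end H82

open H82

theorem IsMaxLat.selfDual {u v m m' : ℤ} {L : AddSubgroup (ℍ[ℚ] × ℍ[ℚ])} (hm : 0 < m)
    (hD : m' ^ 2 + u * m * m' + v * m ^ 2 < 0) (hL : IsMaxLat u v m m' L) : SelfDual u v m m' L := by
  classical
  intro y hy
  by_contra hyL
  obtain ⟨hL, hmax⟩ := hL
  -- a multiple of `y` belongs to `L`
  obtain ⟨N, hN0, hN⟩ : ∃ n : ℕ, 0 < n ∧ n • y ∈ L := by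
    obtain ⟨D0, hD0⟩ : ∃ D0 : ℤ, D0 = m * (-u * m' - v * m) - m' * m' := ⟨_, rfl⟩
    have hpos : 0 < D0 := by rw [hD0]; nlinarith
    obtain ⟨d, hd⟩ := Int.eq_ofNat_of_zero_le hpos.le
    refine ⟨d, by omega, ?_⟩
    have h1 : IsHur ((m : ℍ[ℚ]) * y.1 + (m' : ℍ[ℚ]) * y.2) := by
      have := hy (1, 0) hL.e1
      simpa [hf] using this
    have h2 : IsHur ((m' : ℍ[ℚ]) * y.1 + ((-u * m' - v * m : ℤ) : ℍ[ℚ]) * y.2) := by
      have := hy (0, 1) (hL.std _ hur_zero hur_one)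
      simpa [hf] using this
    have h3 : d • y = act y (D0 : ℍ[ℚ]) := by
      rw [nsmul_eq_act, hd, Int.cast_natCast]
    rw [h3]
    apply hL.std
    · have h4 : y.1 * (D0 : ℍ[ℚ]) = ((-u * m' - v * m : ℤ) : ℍ[ℚ]) * ((m : ℍ[ℚ]) * y.1 + (m' : ℍ[ℚ]) * y.2)
          - (m' : ℍ[ℚ]) * ((m' : ℍ[ℚ]) * y.1 + ((-u * m' - v * m : ℤ) : ℍ[ℚ]) * y.2) := by
        rw [hD0]
        ext <;> simp <;> ring
      change IsHur (y.1 * (D0 : ℍ[ℚ]))
      rw [h4]
      exact ((hur_int _).mul h1).sub ((hur_int _).mul h2)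
    · have h4 : y.2 * (D0 : ℍ[ℚ]) = (m : ℍ[ℚ]) * ((m' : ℍ[ℚ]) * y.1 + ((-u * m' - v * m : ℤ) : ℍ[ℚ]) * y.2)
          - (m' : ℍ[ℚ]) * ((m : ℍ[ℚ]) * y.1 + (m' : ℍ[ℚ]) * y.2) := by
        rw [hD0]
        ext <;> simp <;> ring
      change IsHur (y.2 * (D0 : ℍ[ℚ]))
      rw [h4]
      exact ((hur_int _).mul h2).sub ((hur_int _).mul h1)
  -- reduction to a prime
  obtain ⟨p, y', hp, hy'L, hpy', hy'⟩ : ∃ (p : ℕ) (y' : ℍ[ℚ] × ℍ[ℚ]), p.Prime ∧ y' ∉ L ∧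
      p • y' ∈ L ∧ ∀ x ∈ L, IsHur (hf m m' (-u * m' - v * m) x y') := by
    have hex : ∃ n : ℕ, 0 < n ∧ n • y ∈ L := ⟨N, hN0, hN⟩
    have hn := Nat.find_spec hex
    have hmin := fun k => Nat.find_min (H := hex) (m := k)
    set n := Nat.find hex
    have hn1 : n ≠ 1 := by
      intro h
      apply hyL
      have := hn.2
      rwa [h, one_nsmul] at this
    obtain ⟨p, hp, k, hk⟩ := Nat.exists_prime_and_dvd hn1
    have hk0 : 0 < k := by
      rcases Nat.eq_zero_or_pos k with h | h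
      · rw [h, mul_zero] at hk
        omega
      · exact h
    have hkn : k < n := by
      rw [hk]
      have := hp.two_le
      nlinarith
    refine ⟨p, k • y, hp, fun h => hmin k hkn ⟨hk0, h⟩, ?_, ?_⟩
    · rw [← mul_nsmul', ← hk]
      exact hn.2
    · intro x hx
      rw [nsmul_eq_act, hf_act_right]
      have h5 : ((k : ℤ) : ℍ[ℚ]) = (k : ℍ[ℚ]) := by simp
      rw [← h5]
      exact (hy x hx).mul (hur_int k)
  -- duality of `K y'`
  have hyK : ∀ x ∈ L, IsHur (hf m m' (-u * m' - v * m) x (Km u v y')) := fun x hx => by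
    rw [← hf_K]
    exact hy' _ (hL.K x hx)
  -- rational values
  have hreal : ∀ z, star (hf m m' (-u * m' - v * m) y' z) = hf m m' (-u * m' - v * m) y' z →
      IsHur (hf m m' (-u * m' - v * m) (act y' (p : ℍ[ℚ])) z) →
      ∃ r : ℚ, hf m m' (-u * m' - v * m) y' z = (r : ℍ[ℚ]) ∧ ∃ n : ℤ, (p : ℚ) * r = n := by
    intro z hz hz'
    have h5 := Quaternion.star_eq_self.1 hz
    rw [coe_eq] at h5
    refine ⟨(hf m m' (-u * m' - v * m) y' z).re, h5, ?_⟩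
    rw [hf_act_left, h5] at hz'
    apply IsHur.of_coe
    have h6 : star (p : ℍ[ℚ]) = (p : ℍ[ℚ]) := by simp
    rw [h6] at hz'
    rw [cast_mul', Rat.cast_natCast]
    exact hz'
  rw [nsmul_eq_act] at hpy'
  obtain ⟨r0, hr0, hp0⟩ := hreal y' (star_hf _ _ _ _ _) (hy' _ hpy')
  obtain ⟨r1, hr1, hp1⟩ := hreal (Km u v y') (by rw [star_hf, hf_K]) (hyK _ hpy')
  -- the new vector
  obtain ⟨w, hwL, hw, h0, h1⟩ : ∃ w : ℍ[ℚ] × ℍ[ℚ], w ∉ L ∧
      (∀ x ∈ L, IsHur (hf m m' (-u * m' - v * m) x w)) ∧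
      IsHur (hf m m' (-u * m' - v * m) w w) ∧
      IsHur (hf m m' (-u * m' - v * m) w (Km u v w)) := by
    have hact : ∀ c, IsHur c → ∀ x ∈ L, IsHur (hf m m' (-u * m' - v * m) x (act y' c)) :=
      fun c hc x hx => by
        rw [hf_act_right]
        exact (hy' x hx).mul hc
    have hval : ∀ c : ℍ[ℚ], (∃ k : ℤ, Quaternion.normSq c = p * k) →
        IsHur (hf m m' (-u * m' - v * m) (act y' c) (act y' c)) ∧
        IsHur (hf m m' (-u * m' - v * m) (act y' c) (Km u v (act y' c))) := by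
      rintro c ⟨k, hk⟩
      have hc : ∀ r : ℚ, (∃ n : ℤ, (p : ℚ) * r = n) → IsHur (star c * ((r : ℍ[ℚ]) * c)) := by
        rintro r ⟨n, hn⟩
        have h7 : star c * ((r : ℍ[ℚ]) * c) = ((r * Quaternion.normSq c : ℚ) : ℍ[ℚ]) := by
          rw [← mul_assoc, ← (Rat.cast_commute r (star c)).eq, mul_assoc,
            Quaternion.star_mul_self, coe_eq, cast_mul']
        rw [h7]
        apply hur_coe_int
        refine ⟨n * k, ?_⟩
        rw [hk]
        push_cast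
        rw [← hn]
        ring
      rw [K_act, hf_act_left, hf_act_left, hf_act_right, hf_act_right, hr0, hr1]
      exact ⟨hc r0 hp0, hc r1 hp1⟩
    by_cases h2 : p = 2
    · by_cases hin : act y' oneI ∈ L
      · refine ⟨y', hy'L, hy', ?_, ?_⟩
        · have h8 := hy' _ hin
          rw [hf_act_left, hr0] at h8
          rw [hr0]
          exact hur_coe_int h8.of_star_oneI
        · have h8 := hyK _ hin
          rw [hf_act_left, hr1] at h8
          rw [hr1]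
          exact hur_coe_int h8.of_star_oneI
      · have h9 : Quaternion.normSq oneI = p * (1 : ℤ) := by
          rw [h2, Quaternion.normSq_def']
          simp [oneI]
          norm_num
        obtain ⟨ha, hb⟩ := hval oneI ⟨1, h9⟩
        exact ⟨act y' oneI, hin, hact _ hur_oneI, ha, hb⟩
    · obtain ⟨ν, hν, hsum, k, hk⟩ := hur_nu p hp h2
      have hor : act y' ν ∉ L ∨ act y' (star ν) ∉ L := by
        by_contra hcon
        push Not at hcon
        apply hy'L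
        have h10 : act y' (2 : ℍ[ℚ]) ∈ L := by
          rw [← hsum, act_add]
          exact L.add_mem hcon.1 hcon.2
        obtain ⟨q, hq⟩ := (hp.odd_of_ne_two h2)
        have h11 : y' = act y' (p : ℍ[ℚ]) - q • act y' (2 : ℍ[ℚ]) := by
          rw [nsmul_eq_act, act_act, hq]
          ext <;> simp [act] <;> ring
        rw [h11]
        exact L.sub_mem hpy' (L.nsmul_mem h10 q)
      rcases hor with hor | hor
      · obtain ⟨ha, hb⟩ := hval ν ⟨k, hk⟩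
        exact ⟨_, hor, hact _ hν, ha, hb⟩
      · obtain ⟨ha, hb⟩ := hval (star ν) ⟨k, by rw [Quaternion.normSq_star]; exact hk⟩
        exact ⟨_, hor, hact _ hν.conj, ha, hb⟩
  obtain ⟨L', hL', hle, hwL'⟩ := enlarge hL w hw h0 h1
  rw [hmax L' hL' hle] at hwL'
  exact hwL hwL'

end Helper6.QS
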