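import Pool.Agent.Helper6.QS.MainPN

/-!
# QS-MAINC: generic hypersurfaces of degree `q` in `P^N`, with lines, over schemes, from `FinC N q`
-/

set_option autoImplicit false

open AlgebraicGeometry CategoryTheory CategoryTheory.Limits MvPolynomial

namespace Pool.Agent.Helper6.QS

open Pool.Agent.Helper10.LN

open scoped BigOperators LinearAlgebra.Projectivization
open Pool.Agent.Helper8.LG hiding coeffField
open Pool.Agent.Helper10.LB

universe u v

/-- zeros of a form of degree `q` with independent coefficients: finitely many lines, and a finite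
set -/
def FinC (N q : ℕ) : Prop :=
  ∀ (k₀ : Type v) (M : Type u) [Field k₀] [Field M] [CharZero M] [Algebra k₀ M]
    (_ : (⊤ : IntermediateField k₀ M).FG) (F : MvPolynomial (Fin (N + 1)) M)
    (_ : F.IsHomogeneous q) (_ : ((N + q).choose N : Cardinal) ≤
      Algebra.trdeg k₀ (IntermediateField.adjoin k₀ {z | ∃ J, z = coeff J F})),
    ∃ Λ' : Set (Submodule M (Fin (N + 1) → M)), Λ'.Finite ∧
      (∀ W' ∈ Λ', Module.finrank M W' ≤ 2 ∧ (∀ y ∈ W', eval y F = 0) ∧ q + 2 < 2 * N) ∧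
      ∀ i₀ : Fin (N + 1), {y : Fin (N + 1) → M | y i₀ = 1 ∧ eval y F = 0 ∧
        ∀ W' ∈ Λ', y ∉ W'}.Finite

/-- no lines -/
theorem FinC.of_fin {N q : ℕ} (h : ∀ (k₀ : Type v) (M : Type u) [Field k₀] [Field M] [CharZero M]
    [Algebra k₀ M] (_ : (⊤ : IntermediateField k₀ M).FG) (F : MvPolynomial (Fin (N + 1)) M)
    (_ : F.IsHomogeneous q) (_ : ((N + q).choose N : Cardinal) ≤
      Algebra.trdeg k₀ (IntermediateField.adjoin k₀ {z | ∃ J, z = coeff J F}))
    (i₀ : Fin (N + 1)), {y : Fin (N + 1) → M | y i₀ = 1 ∧ eval y F = 0}.Finite) :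
    FinC.{u, v} N q := by
  intro k₀ M _ _ _ _ hfg F hF hcoef
  exact ⟨∅, Set.finite_empty, fun W h => absurd h (Set.notMem_empty _), fun i₀ =>
    (h k₀ M hfg F hF hcoef i₀).subset fun y hy => ⟨hy.1, hy.2.1⟩⟩

/-- the engine -/
theorem eng_cN {k₀ : Type u} {L : Type v} [Field k₀] [Field L] [CharZero L] [Algebra k₀ L]
    (hfg : (⊤ : IntermediateField k₀ L).FG) {N n : ℕ} (hn : n = 1) (w d q c : ℕ) (b : Fin n → ℕ)
    (hbq : ∀ j, b j + q ≤ d) (hdq : d = q) (hc : c = 0) (hFC : FinC.{v, u} N q)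
    (F : MvPolynomial (Fin (N + 1)) L)
    (hF : F.IsHomogeneous d) (A : MvPolynomial (Fin (N + 1)) k₀)
    (P : Fin n → MvPolynomial (Fin (N + 1)) k₀) (hP : ∀ j, (P j).IsHomogeneous (b j))
    (H : Fin n → MvPolynomial (Fin (N + 1)) L)
    (hFA : F = map (algebraMap k₀ L) A + ∑ j, map (algebraMap k₀ L) (P j) * H j)
    (hcoef : ((∑ j, (N + (d - b j)).choose N : ℕ) : Cardinal) ≤
      Algebra.trdeg k₀ (IntermediateField.adjoin k₀ {z | ∃ j J, z = coeff J (H j)}))
    (Cl : Prop) (hCl : Cl) :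
    ∃ Λ' : Set (Submodule L (Fin (N + 1) → L)), Λ'.Finite ∧
      (∀ W' ∈ Λ', Module.finrank L W' ≤ 2 ∧ (∀ y ∈ W', eval y F = 0) ∧ q + 2 < 2 * N + c) ∧
      ∀ i₀ : Fin (N + 1), {y : Fin (N + 1) → L | y i₀ = 1 ∧ CondN' Cl F P w y ∧
        (∀ W' ∈ Λ', y ∉ W')}.Finite := by
  classical
  rcases one_termN hn d q b hbq hdq F A P hP H hFA hcoef with h1 | h1
  · refine ⟨∅, Set.finite_empty, fun W h => absurd h (Set.notMem_empty _), fun i₀ =>
      Set.Finite.subset Set.finite_empty ?_⟩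
    rintro y ⟨-, ⟨⟨j, hj⟩, -⟩, -⟩
    refine absurd ?_ hj
    rw [h1 j, map_zero]
  · subst hdq
    obtain ⟨Λ', h2, h3, h4⟩ := hFC k₀ L hfg F hF h1
    refine ⟨Λ', h2, fun W' hW' => ⟨(h3 W' hW').1, (h3 W' hW').2.1, ?_⟩, fun i₀ =>
      (h4 i₀).subset ?_⟩
    · have := (h3 W' hW').2.2
      omega
    · rintro y ⟨h5, h6, h7⟩
      exact ⟨h5, h6.2.2 hCl, h7⟩

set_option maxHeartbeats 400000 in
/-- **Generic hypersurfaces, with lines**, over schemes. -/
theorem main_cN (R : CommRingCat.{u}) (B : Scheme.{u}) [IsIntegral B] (s : B ⟶ Spec R)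
    [LocallyOfFiniteType s] [CharZero B.functionField]
    (U : Scheme.{u}) (π : U ⟶ B) [IsSeparated π] [LocallyOfFiniteType π] [QuasiCompact π]
    {N n : ℕ} (d q : ℕ) (b : Fin n → ℕ) (hb : ∀ j, b j + q ≤ d)
    (F : MvPolynomial (Fin (N + 1)) B.functionField) (hF : F.IsHomogeneous d)
    (f : genFib π ⟶ PN N B.functionField) (hf : f ≫ PN.toSpec N _ = pullback.snd _ _)
    [LocallyQuasiFinite f] (Cl : Prop) (hCl : Cl)
    (k₀ : Subfield B.functionField)
    (hk₀ : ∀ r : R, (Spec.preimage (B.fromSpecStalk (genericPoint B) ≫ s)).hom r ∈ k₀)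
    (M : Type v) [Field M] [Algebra B.functionField M]
    (hM : (⊤ : IntermediateField B.functionField M).FG) (g : GL (Fin (N + 1)) M)
    (A : MvPolynomial (Fin (N + 1)) k₀)
    (P : Fin n → MvPolynomial (Fin (N + 1)) k₀) (hP : ∀ j, (P j).IsHomogeneous (b j))
    (H : Fin n → MvPolynomial (Fin (N + 1)) M)
    (hFA : subst (g : Matrix _ _ M) F =
      map (algebraMap k₀ M) A + ∑ j, map (algebraMap k₀ M) (P j) * H j) (w c : ℕ)
    (hcoef : ((∑ j, (N + (d - b j)).choose N : ℕ) : Cardinal) ≤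
      Algebra.trdeg k₀ (IntermediateField.adjoin k₀ {z | ∃ j J, z = coeff J (H j)}) + c)
    (hn : n = 1) (hdq : d = q) (hc : c = 0) (hFC : FinC.{v, u} N q) :
    ∃ Λ : Set (Submodule B.functionField (Fin (N + 1) → B.functionField)), Λ.Finite ∧
      (∀ W ∈ Λ, Module.finrank B.functionField W = 2 ∧ (∀ x ∈ W, eval x F = 0) ∧
        q + 2 < 2 * N + c) ∧
      {σ : B ⟶ U | ∃ hσ : σ ≫ π = 𝟙 B, ∀ (t : Spec B.functionField)
        (x : Fin (N + 1) → B.functionField), IsCoord (f (genPt π σ hσ t)) x →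
          CondN Cl F g P w x ∧ ∀ W ∈ Λ, x ∉ W}.Finite := by
  classical
  have : CharZero M :=
    charZero_of_injective_algebraMap (algebraMap B.functionField M).injective
  obtain ⟨F', hFF'⟩ : ∃ F' : MvPolynomial (Fin (N + 1)) M, F' = subst (g : Matrix _ _ M) F :=
    ⟨_, rfl⟩
  have hF' : F'.IsHomogeneous d := by
    rw [hFF']
    exact subst_hom _ _ hF
  rw [← hFF'] at hFA
  have hcoef' := hcoef
  rw [hc, Nat.cast_zero, add_zero] at hcoef'
  exact main_closed R B s U π d b F hF f hf k₀ hk₀ M hM g F' hFF' P hP w Cl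
      (q + 2 < 2 * N + c) (fun hfg => eng_cN hfg hn w d q c b hb hdq hc hFC F' hF' A P hP H hFA
        hcoef' Cl hCl)

end Pool.Agent.Helper6.QS
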