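import Pool.Agent.Helper6.QS.MainQ
import Pool.Agent.Helper10.Q46.KeyAllE

/-!
# QS-MAINE: generic sextic threefolds, points which are not algebraic over the field of the
coefficients, over schemes
-/

set_option autoImplicit false

open AlgebraicGeometry CategoryTheory CategoryTheory.Limits MvPolynomial

namespace Pool.Agent.Helper6.QS

open Pool.Agent.Helper10.LN

open scoped BigOperators LinearAlgebra.Projectivization
open Pool.Agent.Helper8.LG hiding coeffField
open Pool.Agent.Helper8.LV (pull)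
open Pool.Agent.Helper10.LB

universe u v

/-- the engine in the fourth case -/
theorem eng_e {k₀ : Type u} {L : Type v} [Field k₀] [Field L] [CharZero L] [Algebra k₀ L]
    (hfg : (⊤ : IntermediateField k₀ L).FG) {N n : ℕ} (hn : n = 1) (w d q : ℕ) (b : Fin n → ℕ)
    (hbq : ∀ j, b j + q ≤ d) (hdq : d = q) (hN : N = 4) (hq6 : q = 6)
    (F : MvPolynomial (Fin (N + 1)) L)
    (hF : F.IsHomogeneous d) (A : MvPolynomial (Fin (N + 1)) k₀)
    (P : Fin n → MvPolynomial (Fin (N + 1)) k₀) (hP : ∀ j, (P j).IsHomogeneous (b j))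
    (H : Fin n → MvPolynomial (Fin (N + 1)) L)
    (hFA : F = map (algebraMap k₀ L) A + ∑ j, map (algebraMap k₀ L) (P j) * H j)
    (hcoef : ((∑ j, (N + (d - b j)).choose N : ℕ) : Cardinal) ≤
      Algebra.trdeg k₀ (IntermediateField.adjoin k₀ {z | ∃ j J, z = coeff J (H j)}))
    (Cl : Prop) (hCl : Cl) (i₀ : Fin (N + 1)) :
    {y : Fin (N + 1) → L | y i₀ = 1 ∧ CondN' Cl F P w y ∧
      ¬ ∀ l, IsAlgebraic (IntermediateField.adjoin k₀ {z | ∃ j J, z = coeff J (H j)})
        (y l)}.Finite := by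
  classical
  subst hn
  subst hdq
  subst hN
  have hb : b 0 = 0 := by
    have := hbq 0
    omega
  have hP0 := hP 0
  rw [hb] at hP0
  obtain ⟨p, hp⟩ : ∃ p : k₀, P 0 = C p := ⟨coeff 0 (P 0), by
    have h1 := totalDegree_eq_zero_iff_eq_C.1
      (Nat.le_zero.1 (hP0.totalDegree_le))
    exact h1⟩
  by_cases hp0 : p = 0
  · refine Set.Finite.subset Set.finite_empty ?_
    rintro y ⟨-, ⟨⟨j, hj⟩, -⟩, -⟩
    refine absurd ?_ hj
    rw [Subsingleton.elim j 0, hp, hp0]
    simp
  have hFH : F = map (algebraMap k₀ L) A + C (algebraMap k₀ L p) * H 0 := by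
    rw [hFA, Fin.sum_univ_one, hp, map_C]
  have hp1 : algebraMap k₀ L p ≠ 0 := by
    rw [Ne, map_eq_zero]
    exact hp0
  have hE : IntermediateField.adjoin k₀ {z | ∃ j J, z = coeff J (H j)} =
      IntermediateField.adjoin k₀ {z | ∃ J, z = coeff J F} := by
    refine le_antisymm ?_ ?_
    · rw [IntermediateField.adjoin_le_iff]
      rintro _ ⟨j, J, rfl⟩
      have h1 : coeff J (H j) = (coeff J F - algebraMap k₀ L (coeff J A)) /
          algebraMap k₀ L p := by
        rw [Subsingleton.elim j 0, hFH, coeff_add, coeff_C_mul, coeff_map, add_sub_cancel_left,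
          mul_div_cancel_left₀ _ hp1]
      rw [h1]
      exact div_mem (sub_mem (IntermediateField.subset_adjoin _ _ ⟨J, rfl⟩)
        (IntermediateField.algebraMap_mem _ _)) (IntermediateField.algebraMap_mem _ _)
    · rw [IntermediateField.adjoin_le_iff]
      rintro _ ⟨J, rfl⟩
      rw [hFH, coeff_add, coeff_C_mul, coeff_map]
      exact add_mem (IntermediateField.algebraMap_mem _ _)
        (mul_mem (IntermediateField.algebraMap_mem _ _)
          (IntermediateField.subset_adjoin _ _ ⟨0, J, rfl⟩))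
  rw [hE] at hcoef
  rw [hE]
  rw [Fin.sum_univ_one, hb, Nat.sub_zero, hq6] at hcoef
  rw [hq6] at hF
  refine (Pool.Agent.Helper10.Q46.fin46 hfg F hF hcoef i₀).subset ?_
  rintro y ⟨h3, ⟨-, -, h4⟩, h5⟩
  exact ⟨h3, h4 hCl, h5⟩

set_option maxHeartbeats 400000 in
/-- **The fourth case**, over schemes. -/
theorem main_e (R : CommRingCat.{u}) (B : Scheme.{u}) [IsIntegral B] (s : B ⟶ Spec R)
    [LocallyOfFiniteType s] [CharZero B.functionField]
    (U : Scheme.{u}) (π : U ⟶ B) [IsSeparated π] [LocallyOfFiniteType π] [QuasiCompact π]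
    {N n : ℕ} (d q : ℕ) (b : Fin n → ℕ) (hb : ∀ j, b j + q ≤ d)
    (F : MvPolynomial (Fin (N + 1)) B.functionField) (hF : F.IsHomogeneous d)
    (f : genFib π ⟶ PN N B.functionField) (hf : f ≫ PN.toSpec N _ = pullback.snd _ _)
    [LocallyQuasiFinite f] (Cl : Prop)
    (k₀ : Subfield B.functionField)
    (hk₀ : ∀ r : R, (Spec.preimage (B.fromSpecStalk (genericPoint B) ≫ s)).hom r ∈ k₀)
    (M : Type v) [Field M] [Algebra B.functionField M]
    (hM : (⊤ : IntermediateField B.functionField M).FG) (g : GL (Fin (N + 1)) M)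
    (A : MvPolynomial (Fin (N + 1)) k₀)
    (P : Fin n → MvPolynomial (Fin (N + 1)) k₀) (hP : ∀ j, (P j).IsHomogeneous (b j))
    (H : Fin n → MvPolynomial (Fin (N + 1)) M)
    (hFA : subst (g : Matrix _ _ M) F =
      map (algebraMap k₀ M) A + ∑ j, map (algebraMap k₀ M) (P j) * H j) (w c : ℕ)
    (hcoef : ((∑ j, (N + (d - b j)).choose N : ℕ) : Cardinal) ≤
      Algebra.trdeg k₀ (IntermediateField.adjoin k₀ {z | ∃ j J, z = coeff J (H j)}) + c)
    (hCl : Cl) (hn : n = 1) (hdq : d = q) (hc : c = 0) (hN : N = 4) (hq6 : q = 6) :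
    {σ : B ⟶ U | ∃ hσ : σ ≫ π = 𝟙 B, ∀ (t : Spec B.functionField)
        (x : Fin (N + 1) → B.functionField), IsCoord (f (genPt π σ hσ t)) x →
          CondN Cl F g P w x ∧ ∃ i j, ¬ IsAlgebraic
            (IntermediateField.adjoin k₀ {z | ∃ j J, z = coeff J (H j)})
            (pull g x i / pull g x j)}.Finite := by
  classical
  have : CharZero M :=
    charZero_of_injective_algebraMap (algebraMap B.functionField M).injective
  obtain ⟨F', hFF'⟩ : ∃ F' : MvPolynomial (Fin (N + 1)) M, F' = subst (g : Matrix _ _ M) F :=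
    ⟨_, rfl⟩
  have hF' : F'.IsHomogeneous d := by
    rw [hFF']
    exact subst_hom _ _ hF
  rw [← hFF'] at hFA
  rw [hc, Nat.cast_zero, add_zero] at hcoef
  obtain ⟨V, hVne, hV, ⟨A₀, hA₀, hVA⟩, hKfg⟩ := exists_affine_ft R s k₀ hk₀
  haveI := hVne
  have hfg : (⊤ : IntermediateField k₀ M).FG := wrap_fg_trans hKfg hM
  have hQ : ∀ x, (CondN Cl F g P w x ∧ ∃ i j, ¬ IsAlgebraic
      (IntermediateField.adjoin k₀ {z | ∃ j J, z = coeff J (H j)})
      (pull g x i / pull g x j)) → ∀ i₀,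
      (g⁻¹ : GL (Fin (N + 1)) M).1.mulVec (fun l => algebraMap B.functionField M (x l)) i₀ ≠ 0 →
      (fun y : Fin (N + 1) → M => CondN' Cl F' P w y ∧
        ¬ ∀ l, IsAlgebraic (IntermediateField.adjoin k₀ {z | ∃ j J, z = coeff J (H j)}) (y l))
        fun i => (g⁻¹ : GL (Fin (N + 1)) M).1.mulVec
        (fun l => algebraMap B.functionField M (x l)) i /
          (g⁻¹ : GL (Fin (N + 1)) M).1.mulVec
            (fun l => algebraMap B.functionField M (x l)) i₀ := by
    rintro x ⟨hx, i, j, hij⟩ i₀ h0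
    refine ⟨?_, fun hall => hij ?_⟩
    · rw [hFF']
      exact condN Cl d b F hF g P hP w x hx i₀ h0
    · have h1 : pull g x i / pull g x j = (pull g x i / pull g x i₀) / (pull g x j / pull g x i₀) :=
        (div_div_div_cancel_right₀ h0 _ _).symm
      rw [h1, div_eq_mul_inv]
      exact (hall i).mul (hall j).inv
  obtain ⟨Λ, h1, h2, h3⟩ := lines_closed (κ := k₀) V hV A₀ hA₀ hVA π F f hf M g F' hFF'
    (fun y : Fin (N + 1) → M => CondN' Cl F' P w y ∧
        ¬ ∀ l, IsAlgebraic (IntermediateField.adjoin k₀ {z | ∃ j J, z = coeff J (H j)}) (y l))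
    False ⟨∅, Set.finite_empty, fun W h => absurd h (Set.notMem_empty _),
        fun i₀ => (eng_e hfg hn w d q b hb hdq hN hq6 F' hF' A P hP H hFA hcoef Cl hCl i₀).subset
          fun y hy => ⟨hy.1, hy.2.1.1, hy.2.1.2⟩⟩
    (fun x => CondN Cl F g P w x ∧ ∃ i j, ¬ IsAlgebraic
      (IntermediateField.adjoin k₀ {z | ∃ j J, z = coeff J (H j)})
      (pull g x i / pull g x j)) hQ
  refine h3.subset ?_
  rintro σ ⟨hσ, h4⟩
  exact ⟨hσ, fun t x hx => ⟨h4 t x hx, fun W hW => (h2 W hW).2.2.elim⟩⟩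

end Pool.Agent.Helper6.QS
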