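import Pool.Agent.Helper6.QS.MainQ
import Pool.Agent.Helper74.PQ.Fin24

/-!
# QS-MAINP: complements of generic plane quartics, over schemes
-/

set_option autoImplicit false

open AlgebraicGeometry CategoryTheory CategoryTheory.Limits MvPolynomial

namespace Pool.Agent.Helper6.QS

open Pool.Agent.Helper10.LN

open scoped BigOperators LinearAlgebra.Projectivization
open Pool.Agent.Helper8.LG hiding coeffField
open Pool.Agent.Helper10.LB

attribute [local instance] MvPolynomial.gradedAlgebra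

universe u v

/-- one term, of degree zero: the coefficients of `F` are independent -/
theorem one_term {k₀ : Type u} {L : Type v} [Field k₀] [Field L] [Algebra k₀ L]
    {N n : ℕ} (hn : n = 1) (d q : ℕ) (b : Fin n → ℕ)
    (hbq : ∀ j, b j + q ≤ d) (hdq : d = q) (F : MvPolynomial (Fin (N + 1)) L)
    (A : MvPolynomial (Fin (N + 1)) k₀)
    (P : Fin n → MvPolynomial (Fin (N + 1)) k₀) (hP : ∀ j, (P j).IsHomogeneous (b j))
    (H : Fin n → MvPolynomial (Fin (N + 1)) L)
    (hFA : F = map (algebraMap k₀ L) A + ∑ j, map (algebraMap k₀ L) (P j) * H j)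
    (hcoef : ((∑ j, (N + (d - b j)).choose N : ℕ) : Cardinal) ≤
      Algebra.trdeg k₀ (IntermediateField.adjoin k₀ {z | ∃ j J, z = coeff J (H j)})) :
    (∀ j, P j = 0) ∨ ((N + d).choose N : Cardinal) ≤
      Algebra.trdeg k₀ (IntermediateField.adjoin k₀ {z | ∃ J, z = coeff J F}) := by
  classical
  subst hn
  subst hdq
  have hb : b 0 = 0 := by
    have := hbq 0
    omega
  have hP0 := hP 0
  rw [hb] at hP0
  obtain ⟨p, hp⟩ : ∃ p : k₀, P 0 = C p := ⟨coeff 0 (P 0), by
    have h1 := totalDegree_eq_zero_iff_eq_C.1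
      (Nat.le_zero.1 (hP0.totalDegree_le))
    exact h1⟩
  by_cases hp0 : p = 0
  · refine Or.inl fun j => ?_
    rw [Subsingleton.elim j 0, hp, hp0, map_zero]
  have hFH : F = map (algebraMap k₀ L) A + C (algebraMap k₀ L p) * H 0 := by
    rw [hFA, Fin.sum_univ_one, hp, map_C]
  have hp1 : algebraMap k₀ L p ≠ 0 := by
    rw [Ne, map_eq_zero]
    exact hp0
  have hle : IntermediateField.adjoin k₀ {z | ∃ j J, z = coeff J (H j)} ≤
      IntermediateField.adjoin k₀ {z | ∃ J, z = coeff J F} := by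
    rw [IntermediateField.adjoin_le_iff]
    rintro _ ⟨j, J, rfl⟩
    have h1 : coeff J (H j) = (coeff J F - algebraMap k₀ L (coeff J A)) /
        algebraMap k₀ L p := by
      rw [Subsingleton.elim j 0, hFH, coeff_add, coeff_C_mul, coeff_map, add_sub_cancel_left,
        mul_div_cancel_left₀ _ hp1]
    rw [h1]
    exact div_mem (sub_mem (IntermediateField.subset_adjoin _ _ ⟨J, rfl⟩)
      (IntermediateField.algebraMap_mem _ _)) (IntermediateField.algebraMap_mem _ _)
  refine Or.inr ?_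
  rw [Fin.sum_univ_one, hb, Nat.sub_zero] at hcoef
  exact hcoef.trans (trdeg_le_of_injective (IntermediateField.inclusion hle)
    (IntermediateField.inclusion_injective _))

/-- the engine in the fifth case -/
theorem eng_p {k₀ : Type u} {L : Type v} [Field k₀] [Field L] [CharZero L] [Algebra k₀ L]
    (hfg : (⊤ : IntermediateField k₀ L).FG) {N n : ℕ} (hn : n = 1) (w d q : ℕ) (b : Fin n → ℕ)
    (hbq : ∀ j, b j + q ≤ d) (hdq : d = q) (hN : N = 2) (hq4 : q = 4)
    (F : MvPolynomial (Fin (N + 1)) L)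
    (hF : F.IsHomogeneous d) (A : MvPolynomial (Fin (N + 1)) k₀)
    (P : Fin n → MvPolynomial (Fin (N + 1)) k₀) (hP : ∀ j, (P j).IsHomogeneous (b j))
    (H : Fin n → MvPolynomial (Fin (N + 1)) L)
    (hFA : F = map (algebraMap k₀ L) A + ∑ j, map (algebraMap k₀ L) (P j) * H j)
    (hcoef : ((∑ j, (N + (d - b j)).choose N : ℕ) : Cardinal) ≤
      Algebra.trdeg k₀ (IntermediateField.adjoin k₀ {z | ∃ j J, z = coeff J (H j)}))
    (Cl : Prop) (A' : Subalgebra ℤ L) (hA' : A'.FG) :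
    ∃ Λ' : Set (Submodule L (Fin (N + 1) → L)), Λ'.Finite ∧
      (∀ W' ∈ Λ', Module.finrank L W' ≤ 2 ∧ TwoZeros (fun _ : Fin 1 => F) Finset.univ W') ∧
      ∀ i₀ : Fin (N + 1), {y : Fin (N + 1) → L | y i₀ = 1 ∧ CondN' Cl F P w y ∧
        (∀ W' ∈ Λ', y ∉ W') ∧ eval y F ≠ 0 ∧
        ∀ J : Sym (Fin (N + 1)) d, mon y J / eval y F ∈ A'}.Finite := by
  classical
  subst hN
  rcases one_term hn d q b hbq hdq F A P hP H hFA hcoef with h1 | h1
  · refine ⟨∅, Set.finite_empty, fun W h => absurd h (Set.notMem_empty _), fun i₀ =>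
      Set.Finite.subset Set.finite_empty ?_⟩
    rintro y ⟨-, ⟨⟨j, hj⟩, -⟩, -⟩
    refine absurd ?_ hj
    rw [h1 j, map_zero]
  · obtain ⟨Λ', h2, h3, h4⟩ := Pool.Agent.Helper74.PQ.fin24 hfg (hdq.trans hq4) F hF h1 A' hA'
    refine ⟨Λ', h2, h3, fun i₀ => (h4 i₀).subset ?_⟩
    rintro y ⟨h5, -, h6⟩
    exact ⟨h5, h6⟩

set_option maxHeartbeats 400000 in
/-- **The fifth case**, over schemes. -/
theorem main_p (R : CommRingCat.{u}) (B : Scheme.{u}) [IsIntegral B] (s : B ⟶ Spec R)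
    [LocallyOfFiniteType s] [CharZero B.functionField]
    (U : Scheme.{u}) (π : U ⟶ B) [IsSeparated π] [LocallyOfFiniteType π] [QuasiCompact π]
    {N n : ℕ} (d q : ℕ) (b : Fin n → ℕ) (hb : ∀ j, b j + q ≤ d)
    (F : MvPolynomial (Fin (N + 1)) B.functionField) (hF : F.IsHomogeneous d)
    (f : genFib π ⟶ PN N B.functionField) (hf : f ≫ PN.toSpec N _ = pullback.snd _ _)
    [LocallyQuasiFinite f] (Cl : Prop) (hCl : ¬Cl)
    (hU : ¬Cl → ∀ z : genFib π, NonVanishing (f z) F)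
    (k₀ : Subfield B.functionField)
    (hk₀ : ∀ r : R, (Spec.preimage (B.fromSpecStalk (genericPoint B) ≫ s)).hom r ∈ k₀)
    (M : Type v) [Field M] [Algebra B.functionField M]
    (hM : (⊤ : IntermediateField B.functionField M).FG) (g : GL (Fin (N + 1)) M)
    (A : MvPolynomial (Fin (N + 1)) k₀)
    (P : Fin n → MvPolynomial (Fin (N + 1)) k₀) (hP : ∀ j, (P j).IsHomogeneous (b j))
    (H : Fin n → MvPolynomial (Fin (N + 1)) M)
    (hFA : subst (g : Matrix _ _ M) F =
      map (algebraMap k₀ M) A + ∑ j, map (algebraMap k₀ M) (P j) * H j) (w c : ℕ)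
    (hcoef : ((∑ j, (N + (d - b j)).choose N : ℕ) : Cardinal) ≤
      Algebra.trdeg k₀ (IntermediateField.adjoin k₀ {z | ∃ j J, z = coeff J (H j)}) + c)
    (hR : Algebra.FiniteType ℤ R)
    (hn : n = 1) (hdq : d = q) (hc : c = 0) (hN : N = 2) (hq4 : q = 4) :
    ∃ Λ : Set (Submodule B.functionField (Fin (N + 1) → B.functionField)), Λ.Finite ∧
      (∀ W ∈ Λ, Module.finrank B.functionField W = 2 ∧ MeetsTwice F W) ∧
      {σ : B ⟶ U | ∃ hσ : σ ≫ π = 𝟙 B, ∀ (t : Spec B.functionField)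
        (x : Fin (N + 1) → B.functionField), IsCoord (f (genPt π σ hσ t)) x →
          CondN Cl F g P w x ∧ ∀ W ∈ Λ, x ∉ W}.Finite := by
  classical
  have : CharZero M :=
    charZero_of_injective_algebraMap (algebraMap B.functionField M).injective
  obtain ⟨F', hFF'⟩ : ∃ F' : MvPolynomial (Fin (N + 1)) M, F' = subst (g : Matrix _ _ M) F :=
    ⟨_, rfl⟩
  have hF' : F'.IsHomogeneous d := by
    rw [hFF']
    exact subst_hom _ _ hF
  rw [← hFF'] at hFA
  rw [hc, Nat.cast_zero, add_zero] at hcoef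
  obtain ⟨-, -, -, -, hKfg⟩ := exists_affine_ft R s k₀ hk₀
  have hfg : (⊤ : IntermediateField k₀ M).FG := wrap_fg_trans hKfg hM
  have hQ : ∀ x, CondN Cl F g P w x → ∀ i₀,
      (g⁻¹ : GL (Fin (N + 1)) M).1.mulVec (fun l => algebraMap B.functionField M (x l)) i₀ ≠ 0 →
      CondN' Cl F' P w fun i => (g⁻¹ : GL (Fin (N + 1)) M).1.mulVec
        (fun l => algebraMap B.functionField M (x l)) i /
          (g⁻¹ : GL (Fin (N + 1)) M).1.mulVec
            (fun l => algebraMap B.functionField M (x l)) i₀ := by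
    intro x hx i₀ h0
    rw [hFF']
    exact condN Cl d b F hF g P hP w x hx i₀ h0
  have hd : 0 < d := by omega
  have := hR
  obtain ⟨V, hVne, hV, ⟨A₀, hA₀, hVA⟩, -⟩ := exists_affine_ftZ R s
  have := hVne
  have h21 := lines_open_aux (κ := ℤ) V hV A₀ hA₀ hVA π hd F hF f hf (hU hCl) M g F' hFF'
    (CondN' Cl F' P w) (fun W' => TwoZeros (fun _ : Fin 1 => F') Finset.univ W')
    (fun A' hA' => eng_p hfg hn w d q b hb hdq hN hq4 F' hF' A P hP H hFA hcoef Cl A' hA')
    (CondN Cl F g P w) hQ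
  obtain ⟨Λ, h1, h2, h3⟩ := h21
  refine ⟨Λ, h1, fun W hW => ?_, h3⟩
  obtain ⟨h4, W', h5, -, rfl⟩ := h2 W hW
  refine ⟨h4, MeetsTwice.of_twoZeros (twoZeros_desc (fun _ : Fin 1 => F)
    Finset.univ W' ?_)⟩
  rw [← hFF']
  exact h5

end Pool.Agent.Helper6.QS
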