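import Pool.Agent.Helper74.LN.Final
import Pool.Agent.Helper6.QS.FinKey

/-!
# QS-MAIN: generic hypersurfaces of degree `q` in `P^N`, from `KeyQ N q`

`main_n` of `Helper74/LN/Final.lean` with the third case: one term `P_1 H_1`, `P_1` of degree 0, all
coefficients of `H_1` independent; no line is needed.
-/

set_option autoImplicit false

open AlgebraicGeometry CategoryTheory CategoryTheory.Limits MvPolynomial

namespace Pool.Agent.Helper6.QS

open Pool.Agent.Helper10.LN

open scoped BigOperators LinearAlgebra.Projectivization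
open Pool.Agent.Helper8.LG hiding coeffField
open Pool.Agent.Helper10.LB

universe u v

/-- the engine in the third case -/
theorem eng_q {k₀ : Type u} {L : Type v} [Field k₀] [Field L] [CharZero L] [Algebra k₀ L]
    (hfg : (⊤ : IntermediateField k₀ L).FG) {N n : ℕ} (hn : n = 1) (w d q : ℕ) (b : Fin n → ℕ)
    (hbq : ∀ j, b j + q ≤ d) (hdq : d = q) (F : MvPolynomial (Fin (N + 1)) L)
    (hF : F.IsHomogeneous d) (A : MvPolynomial (Fin (N + 1)) k₀)
    (P : Fin n → MvPolynomial (Fin (N + 1)) k₀) (hP : ∀ j, (P j).IsHomogeneous (b j))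
    (H : Fin n → MvPolynomial (Fin (N + 1)) L)
    (hFA : F = map (algebraMap k₀ L) A + ∑ j, map (algebraMap k₀ L) (P j) * H j)
    (hcoef : ((∑ j, (N + (d - b j)).choose N : ℕ) : Cardinal) ≤
      Algebra.trdeg k₀ (IntermediateField.adjoin k₀ {z | ∃ j J, z = coeff J (H j)}))
    (hq0 : 0 < q) (hKQ : KeyQ.{v} N q) (Cl : Prop) (hCl : Cl) (i₀ : Fin (N + 1)) :
    {y : Fin (N + 1) → L | y i₀ = 1 ∧ CondN' Cl F P w y}.Finite := by
  classical
  subst hn
  subst hdq
  have hb : b 0 = 0 := by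
    have := hbq 0
    omega
  have hP0 := hP 0
  rw [hb] at hP0
  obtain ⟨p, hp⟩ : ∃ p : k₀, P 0 = C p := ⟨coeff 0 (P 0), by
    have h1 := totalDegree_eq_zero_iff_eq_C.1
      (Nat.le_zero.1 (hP0.totalDegree_le))
    exact h1⟩
  by_cases hp0 : p = 0
  · refine Set.Finite.subset Set.finite_empty ?_
    rintro y ⟨-, ⟨j, hj⟩, -⟩
    refine absurd ?_ hj
    rw [Subsingleton.elim j 0, hp, hp0]
    simp
  have hFH : F = map (algebraMap k₀ L) A + C (algebraMap k₀ L p) * H 0 := by
    rw [hFA, Fin.sum_univ_one, hp, map_C]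
  have hp1 : algebraMap k₀ L p ≠ 0 := by
    rw [Ne, map_eq_zero]
    exact hp0
  have hle : IntermediateField.adjoin k₀ {z | ∃ j J, z = coeff J (H j)} ≤
      IntermediateField.adjoin k₀ {z | ∃ J, z = coeff J F} := by
    rw [IntermediateField.adjoin_le_iff]
    rintro _ ⟨j, J, rfl⟩
    have h1 : coeff J (H j) = (coeff J F - algebraMap k₀ L (coeff J A)) /
        algebraMap k₀ L p := by
      rw [Subsingleton.elim j 0, hFH, coeff_add, coeff_C_mul, coeff_map, add_sub_cancel_left,
        mul_div_cancel_left₀ _ hp1]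
    rw [h1]
    exact div_mem (sub_mem (IntermediateField.subset_adjoin _ _ ⟨J, rfl⟩)
      (IntermediateField.algebraMap_mem _ _)) (IntermediateField.algebraMap_mem _ _)
  have h2 : ((N + d).choose N : Cardinal) ≤
      Algebra.trdeg k₀ (IntermediateField.adjoin k₀ {z | ∃ J, z = coeff J F}) := by
    rw [Fin.sum_univ_one, hb, Nat.sub_zero] at hcoef
    exact hcoef.trans (trdeg_le_of_injective (IntermediateField.inclusion hle)
      (IntermediateField.inclusion_injective _))
  refine (fin_key hq0 hKQ hfg F hF h2 i₀).subset ?_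
  rintro y ⟨h3, -, -, h4⟩
  exact ⟨h3, h4 hCl⟩

set_option maxHeartbeats 400000 in
/-- **The third case**, over schemes. -/
theorem main_q (R : CommRingCat.{u}) (B : Scheme.{u}) [IsIntegral B] (s : B ⟶ Spec R)
    [LocallyOfFiniteType s] [CharZero B.functionField]
    (U : Scheme.{u}) (π : U ⟶ B) [IsSeparated π] [LocallyOfFiniteType π] [QuasiCompact π]
    {N n : ℕ} (d q : ℕ) (b : Fin n → ℕ) (hb : ∀ j, b j + q ≤ d)
    (F : MvPolynomial (Fin (N + 1)) B.functionField) (hF : F.IsHomogeneous d)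
    (f : genFib π ⟶ PN N B.functionField) (hf : f ≫ PN.toSpec N _ = pullback.snd _ _)
    [LocallyQuasiFinite f] (Cl : Prop)
    (k₀ : Subfield B.functionField)
    (hk₀ : ∀ r : R, (Spec.preimage (B.fromSpecStalk (genericPoint B) ≫ s)).hom r ∈ k₀)
    (M : Type v) [Field M] [Algebra B.functionField M]
    (hM : (⊤ : IntermediateField B.functionField M).FG) (g : GL (Fin (N + 1)) M)
    (A : MvPolynomial (Fin (N + 1)) k₀)
    (P : Fin n → MvPolynomial (Fin (N + 1)) k₀) (hP : ∀ j, (P j).IsHomogeneous (b j))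
    (H : Fin n → MvPolynomial (Fin (N + 1)) M)
    (hFA : subst (g : Matrix _ _ M) F =
      map (algebraMap k₀ M) A + ∑ j, map (algebraMap k₀ M) (P j) * H j) (w c : ℕ)
    (hcoef : ((∑ j, (N + (d - b j)).choose N : ℕ) : Cardinal) ≤
      Algebra.trdeg k₀ (IntermediateField.adjoin k₀ {z | ∃ j J, z = coeff J (H j)}) + c)
    (hCl : Cl) (hn : n = 1) (hdq : d = q) (hc : c = 0) (hq0 : 0 < q) (hKQ : KeyQ.{v} N q) :
    {σ : B ⟶ U | ∃ hσ : σ ≫ π = 𝟙 B, ∀ (t : Spec B.functionField)
        (x : Fin (N + 1) → B.functionField), IsCoord (f (genPt π σ hσ t)) x →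
          CondN Cl F g P w x}.Finite := by
  classical
  have : CharZero M :=
    charZero_of_injective_algebraMap (algebraMap B.functionField M).injective
  obtain ⟨F', hFF'⟩ : ∃ F' : MvPolynomial (Fin (N + 1)) M, F' = subst (g : Matrix _ _ M) F :=
    ⟨_, rfl⟩
  have hF' : F'.IsHomogeneous d := by
    rw [hFF']
    exact subst_hom _ _ hF
  rw [← hFF'] at hFA
  rw [hc, Nat.cast_zero, add_zero] at hcoef
  obtain ⟨Λ, h1, h2, h3⟩ := main_closed R B s U π d b F hF f hf k₀ hk₀ M hM g F' hFF' P hP w Cl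
      False (fun hfg => ⟨∅, Set.finite_empty, fun W h => absurd h (Set.notMem_empty _),
        fun i₀ => (eng_q hfg hn w d q b hb hdq F' hF' A P hP H hFA hcoef hq0 hKQ Cl hCl i₀).subset
          fun y hy => ⟨hy.1, hy.2.1⟩⟩)
  refine h3.subset ?_
  rintro σ ⟨hσ, h4⟩
  exact ⟨hσ, fun t x hx => ⟨h4 t x hx, fun W hW => (h2 W hW).2.2.elim⟩⟩

end Pool.Agent.Helper6.QS
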