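import Pool.Agent.Helper6.QS.Ev
import Pool.Agent.Helper6.QS.Line

/-!
# QS-PLANE: quintic surfaces, definitions for the case of a rational plane through the point

`vol3 u v w` is the determinant of the coordinates `1, 2, 3`; on the space `R` of the vectors `l`
with `l . x = 0` (linear forms vanishing at the point `x`, `x_0 = 1`) it is a volume form.
-/

set_option autoImplicit false

namespace Pool.Agent.Helper6.QS

open scoped BigOperators
open MvPolynomial
open Pool.Agent.Helper8.LG (Bdd form mon)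
open Pool.Agent.Helper49.LN (cP mo hf pl)

section

variable {Ω : Type*} [Field Ω]

/-- the determinant of the coordinates `1, 2, 3` -/
def vol3 (u v w : Fin 4 → Ω) : Ω :=
  u 1 * (v 2 * w 3 - v 3 * w 2) - u 2 * (v 1 * w 3 - v 3 * w 1) + u 3 * (v 1 * w 2 - v 2 * w 1)

/-- the coefficients of the linear form `x_j X_b - x_b X_j` -/
def rr (x : Fin 4 → Ω) (j b : Fin 4) (i : Fin 4) : Ω :=
  x j * (if i = b then 1 else 0) - x b * (if i = j then 1 else 0)

/-- the determinant with rows `x`, `D_(f1) x`, `D_(f2) x`, `D_(f0) x` -/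
noncomputable def Gm (D : Sym (Fin 4) 5 → Derivation ℤ Ω Ω) (x : Fin 4 → Ω)
    (f1 f2 f0 : MvPolynomial (Fin 4) Ω) : Ω :=
  Matrix.det (Matrix.of ![x, dv D x f1, dv D x f2, dv D x f0])

/-- the polarised block: alternating in `l`, `l'` -/
noncomputable def Ab (D : Sym (Fin 4) 5 → Derivation ℤ Ω Ω) (x : Fin 4 → Ω)
    (P P' : MvPolynomial (Fin 4) Ω) (l l' : Fin 4 → Ω) : Ω :=
  Gm D x (P * lf l) (P' * lf l') (X 0 ^ 5) - Gm D x (P * lf l') (P' * lf l) (X 0 ^ 5)

/-- the linear form vanishing at `x` which is dual to the polarised block -/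
noncomputable def hv (D : Sym (Fin 4) 5 → Derivation ℤ Ω Ω) (x : Fin 4 → Ω)
    (P P' : MvPolynomial (Fin 4) Ω) : Fin 4 → Ω :=
  ![x 1 * Ab D x P P' (rr x 0 2) (rr x 0 3) - x 2 * Ab D x P P' (rr x 0 1) (rr x 0 3) +
      x 3 * Ab D x P P' (rr x 0 1) (rr x 0 2),
    - Ab D x P P' (rr x 0 2) (rr x 0 3), Ab D x P P' (rr x 0 1) (rr x 0 3),
    - Ab D x P P' (rr x 0 1) (rr x 0 2)]

/-- **The plane case.** `h` is a rational linear form vanishing at `x`, `n` the normal vector, `g`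
the rational symmetric bilinear form on quartic forms with
`det (θ_j D_(P l_i) x) = vol3(θ, θ', n) vol3(h, l, l') g(P, P) / 2`. -/
structure Pln (D : Sym (Fin 4) 5 → Derivation ℤ Ω Ω) (a : Sym (Fin 4) 5 → Ω) (B : Subfield Ω)
    (x h n : Fin 4 → Ω)
    (g : MvPolynomial (Fin 4) Ω →ₗ[Ω] MvPolynomial (Fin 4) Ω →ₗ[Ω] Ω) : Prop where
  frame : Frame D a B
  one : x 0 = 1
  zero : form a x = 0
  hB : ∀ l, h l ∈ B
  h0 : h ≠ 0
  hx : dt h x = 0
  nx : dt n x = 0
  nf : ∀ f, dt n (dv D x f) = - ev 5 x f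
  gB : ∀ P P', RatP B P → RatP B P' → g P P' ∈ B
  g0 : ∃ P, RatP B P ∧ g P P ≠ 0
  rel : ∀ (P P' : MvPolynomial (Fin 4) Ω) (l l' θ θ' : Fin 4 → Ω), dt l x = 0 → dt l' x = 0 →
    dt θ x = 0 → dt θ' x = 0 →
    dt θ (dv D x (P * lf l)) * dt θ' (dv D x (P' * lf l')) -
      dt θ' (dv D x (P * lf l)) * dt θ (dv D x (P' * lf l')) -
      (dt θ (dv D x (P * lf l')) * dt θ' (dv D x (P' * lf l)) -
        dt θ' (dv D x (P * lf l')) * dt θ (dv D x (P' * lf l))) =
      vol3 θ θ' n * vol3 h l l' * g P P'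

/-- There is no pair `l`, `θ` with `θ(D_(P l) x) = 0` for all `P`, except the trivial ones. -/
def NoPure (D : Sym (Fin 4) 5 → Derivation ℤ Ω Ω) (x h n : Fin 4 → Ω) : Prop :=
  ∀ l θ : Fin 4 → Ω, dt l x = 0 → dt θ x = 0 → (∀ P, dt θ (dv D x (P * lf l)) = 0) →
    (∃ c : Ω, l = c • h) ∨ ∃ c : Ω, θ = c • n

/-- the functionals `P ↦ θ_j(D_(P l_i) x)` as a matrix -/
noncomputable def uM (D : Sym (Fin 4) 5 → Derivation ℤ Ω Ω) (x : Fin 4 → Ω)
    (l θ : Fin 2 → Fin 4 → Ω) : MvPolynomial (Fin 4) Ω →ₗ[Ω] Matrix (Fin 2) (Fin 2) Ω where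
  toFun P := Matrix.of fun i j => dt (θ j) (dv D x (P * lf (l i)))
  map_add' P P' := by
    ext i j
    simp only [add_mul, map_add, dt, Matrix.of_apply, Matrix.add_apply, Pi.add_apply, mul_add,
      Finset.sum_add_distrib]
  map_smul' c P := by
    ext i j
    simp only [smul_mul_assoc, map_smul, dt, Matrix.of_apply, Matrix.smul_apply, Pi.smul_apply,
      smul_eq_mul, RingHom.id_apply, Finset.mul_sum]
    exact Finset.sum_congr rfl fun k _ => by ring

/-- the polarised determinant of `2 x 2` matrices -/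
def pol (A A' : Matrix (Fin 2) (Fin 2) Ω) : Ω :=
  A 0 0 * A' 1 1 + A' 0 0 * A 1 1 - A 0 1 * A' 1 0 - A' 0 1 * A 1 0

/-- the derivative of a linear map on polynomials with values in matrices: the linear map `U'` with
`U'(X^m) = δ (U(X^m))` -/
noncomputable def dfun (δ : Derivation ℤ Ω Ω)
    (U : MvPolynomial (Fin 4) Ω →ₗ[Ω] Matrix (Fin 2) (Fin 2) Ω) :
    MvPolynomial (Fin 4) Ω →ₗ[Ω] Matrix (Fin 2) (Fin 2) Ω :=
  (MvPolynomial.basisMonomials (Fin 4) Ω).constr Ω fun m =>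
    (U (monomial m 1)).map δ

end

end Pool.Agent.Helper6.QS
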