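import Pool.Agent.Helper6.QS.Gam

/-!
# QS-PLNMK: a block gives a rational line or the plane case

`h = hv P0 P0`, where `P0` is a rational (even integral) quartic form with an independent block.
If for some monomials `hv X^m X^m'` is not proportional to `h`, then `x` lies on a rational line
(`line_mem_two`). Otherwise `hv P P' = g(P, P') h` with `g` bilinear (define `g` as the quotient of
the `i`-th coordinates, `h_i ≠ 0`; `hv` is bilinear). `rel`: for `v1, v2` orthogonal to `n` and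
`θ, θ'` orthogonal to `x`, multiply the matrix with rows `e_0, θ, θ', n` by the one with columns
`x, v1, v2, w = D_(X_0^5) x`: `vol3(θ, θ', n) Gm(f1, f2, X_0^5) =
- (θ.v1 θ'.v2 - θ'.v1 θ.v2)` (`n . w = - 1`), then `Ab_eq`.
-/

set_option autoImplicit false

namespace Pool.Agent.Helper6.QS

open scoped BigOperators
open MvPolynomial
open Pool.Agent.Helper8.LG (Bdd form mon)
open Pool.Agent.Helper49.LN (cP mo hf pl)

section PlnMk

variable {Ω : Type*} [Field Ω]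

private theorem plnmk_det (x u v w : Fin 4 → Ω) (hx : x 0 = 1) (hu : u 0 = 0) (hv : v 0 = 0)
    (hw : w 0 = 0) : Matrix.det (Matrix.of ![x, u, v, w]) = vol3 u v w := by
  rw [Matrix.det_succ_row_zero]
  simp [Fin.sum_univ_succ, Matrix.det_fin_three, Fin.succAbove, vol3, hx, hu, hv, hw]
  ring

private theorem plnmk_dv0 {σ : Type*} [Fintype σ] [DecidableEq σ] {q : ℕ}
    (D : Sym σ q → Derivation ℤ Ω Ω) (x : σ → Ω) (i : σ) (hx : x i = 1)
    (f : MvPolynomial σ Ω) : dv D x f i = 0 := by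
  unfold dv
  rw [Pool.Agent.Helper49.LN.cP_apply, Finset.sum_apply]
  refine Finset.sum_eq_zero fun J _ => ?_
  rw [Pi.smul_apply, hx, Derivation.map_one_eq_zero, smul_zero]

private theorem plnmk_Gm (D : Sym (Fin 4) 5 → Derivation ℤ Ω Ω) (x : Fin 4 → Ω) (hx : x 0 = 1)
    (f1 f2 f0 : MvPolynomial (Fin 4) Ω) :
    Gm D x f1 f2 f0 = vol3 (dv D x f1) (dv D x f2) (dv D x f0) :=
  plnmk_det x (dv D x f1) (dv D x f2) (dv D x f0) hx (plnmk_dv0 D x 0 hx f1)
    (plnmk_dv0 D x 0 hx f2) (plnmk_dv0 D x 0 hx f0)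

private theorem plnmk_ev (x : Fin 4 → Ω) (i : Fin 4) (hx : x i = 1) :
    ev 5 x (X i ^ 5 : MvPolynomial (Fin 4) Ω) = 1 := by
  rw [ev_hom 5 x _ (isHomogeneous_X_pow i 5), map_pow, eval_X, hx, one_pow]

private theorem plnmk_lf (k m : ℕ) (hm : k + 1 = m) (x l : Fin 4 → Ω)
    (P : MvPolynomial (Fin 4) Ω) (hl : dt l x = 0) : ev m x (P * lf l) = 0 := by
  subst hm
  rw [ev_lf k x l P, hl, mul_zero]

private theorem plnmk_Ab (D : Sym (Fin 4) 5 → Derivation ℤ Ω Ω) (x n : Fin 4 → Ω) (hx : x 0 = 1)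
    (hn : ∀ f, dt n (dv D x f) = - ev 5 x f) :
    ∃ w : Fin 4 → Ω, w 0 = 0 ∧ dt n w = -1 ∧ ∀ P P' l l', Ab D x P P' l l' =
      vol3 (dv D x (P * lf l)) (dv D x (P' * lf l')) w -
        vol3 (dv D x (P * lf l')) (dv D x (P' * lf l)) w := by
  refine ⟨_, ?_, ?_, fun P P' l l' =>
    congrArg₂ (· - ·) (plnmk_Gm D x hx _ _ _) (plnmk_Gm D x hx _ _ _)⟩
  · exact plnmk_dv0 D x 0 hx _
  · rw [hn]
    refine congrArg Neg.neg ?_
    apply plnmk_ev
    exact hx

private theorem plnmk_gram (θ θ' n u v w : Fin 4 → Ω) (hu : u 0 = 0) (hv : v 0 = 0)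
    (hw : w 0 = 0) :
    vol3 θ θ' n * vol3 u v w =
      dt θ u * (dt θ' v * dt n w - dt θ' w * dt n v) -
        dt θ v * (dt θ' u * dt n w - dt θ' w * dt n u) +
        dt θ w * (dt θ' u * dt n v - dt θ' v * dt n u) := by
  unfold vol3 dt
  simp only [Fin.sum_univ_four, hu, hv, hw, mul_zero, zero_add]
  ring

private theorem plnmk_add1 (u u' v w : Fin 4 → Ω) :
    vol3 (u + u') v w = vol3 u v w + vol3 u' v w := by
  unfold vol3
  simp only [Pi.add_apply]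
  ring

private theorem plnmk_add2 (u v v' w : Fin 4 → Ω) :
    vol3 u (v + v') w = vol3 u v w + vol3 u v' w := by
  unfold vol3
  simp only [Pi.add_apply]
  ring

private theorem plnmk_smul1 (c : Ω) (u v w : Fin 4 → Ω) :
    vol3 (c • u) v w = c * vol3 u v w := by
  unfold vol3
  simp only [Pi.smul_apply, smul_eq_mul]
  ring

private theorem plnmk_smul2 (c : Ω) (u v w : Fin 4 → Ω) :
    vol3 u (c • v) w = c * vol3 u v w := by
  unfold vol3
  simp only [Pi.smul_apply, smul_eq_mul]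
  ring

/-- the data in terms of the linear map `V = dv D x` -/
private structure PlnV (V : MvPolynomial (Fin 4) Ω →ₗ[Ω] (Fin 4 → Ω)) (x n w : Fin 4 → Ω)
    (A : MvPolynomial (Fin 4) Ω → MvPolynomial (Fin 4) Ω → (Fin 4 → Ω) → (Fin 4 → Ω) → Ω)
    (H : MvPolynomial (Fin 4) Ω → MvPolynomial (Fin 4) Ω → (Fin 4 → Ω)) : Prop where
  V0 : ∀ f, V f 0 = 0
  w0 : w 0 = 0
  nw : dt n w = -1
  nV : ∀ P l, dt l x = 0 → dt n (V (P * lf l)) = 0
  eqA : ∀ P P' l l', A P P' l l' =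
    vol3 (V (P * lf l)) (V (P' * lf l')) w - vol3 (V (P * lf l')) (V (P' * lf l)) w
  eqH : ∃ (c1 c2 c3 : Ω) (r1 r2 r3 : Fin 4 → Ω), ∀ P P', H P P' =
    ![c1 * A P P' r2 r3 - c2 * A P P' r1 r3 + c3 * A P P' r1 r2,
      - A P P' r2 r3, A P P' r1 r3, - A P P' r1 r2]
  AH : ∀ P P' l l', dt l x = 0 → dt l' x = 0 → A P P' l l' = - vol3 (H P P') l l'

section

variable {V : MvPolynomial (Fin 4) Ω →ₗ[Ω] (Fin 4 → Ω)} {x n w : Fin 4 → Ω}
  {A : MvPolynomial (Fin 4) Ω → MvPolynomial (Fin 4) Ω → (Fin 4 → Ω) → (Fin 4 → Ω) → Ω}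
  {H : MvPolynomial (Fin 4) Ω → MvPolynomial (Fin 4) Ω → (Fin 4 → Ω)}
  (hP : PlnV V x n w A H)
include hP

private theorem PlnV.A_add1 (P Q P' : MvPolynomial (Fin 4) Ω) (l l' : Fin 4 → Ω) :
    A (P + Q) P' l l' = A P P' l l' + A Q P' l l' := by
  simp only [hP.eqA, add_mul, map_add, plnmk_add1]
  ring

private theorem PlnV.A_add2 (P P' Q : MvPolynomial (Fin 4) Ω) (l l' : Fin 4 → Ω) :
    A P (P' + Q) l l' = A P P' l l' + A P Q l l' := by
  simp only [hP.eqA, add_mul, map_add, plnmk_add2]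
  ring

private theorem PlnV.A_smul1 (c : Ω) (P P' : MvPolynomial (Fin 4) Ω) (l l' : Fin 4 → Ω) :
    A (c • P) P' l l' = c * A P P' l l' := by
  simp only [hP.eqA, smul_mul_assoc, map_smul, plnmk_smul1]
  ring

private theorem PlnV.A_smul2 (c : Ω) (P P' : MvPolynomial (Fin 4) Ω) (l l' : Fin 4 → Ω) :
    A P (c • P') l l' = c * A P P' l l' := by
  simp only [hP.eqA, smul_mul_assoc, map_smul, plnmk_smul2]
  ring

private theorem PlnV.H_add1 (P Q P' : MvPolynomial (Fin 4) Ω) :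
    H (P + Q) P' = H P P' + H Q P' := by
  obtain ⟨c1, c2, c3, r1, r2, r3, hH⟩ := hP.eqH
  funext i
  rw [hH, hH, hH]
  fin_cases i <;> simp [hP.A_add1] <;> ring

private theorem PlnV.H_add2 (P P' Q : MvPolynomial (Fin 4) Ω) :
    H P (P' + Q) = H P P' + H P Q := by
  obtain ⟨c1, c2, c3, r1, r2, r3, hH⟩ := hP.eqH
  funext i
  rw [hH, hH, hH]
  fin_cases i <;> simp [hP.A_add2] <;> ring

private theorem PlnV.H_smul1 (c : Ω) (P P' : MvPolynomial (Fin 4) Ω) :
    H (c • P) P' = c • H P P' := by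
  obtain ⟨c1, c2, c3, r1, r2, r3, hH⟩ := hP.eqH
  funext i
  rw [hH, hH]
  fin_cases i <;> simp [hP.A_smul1] <;> ring

private theorem PlnV.H_smul2 (c : Ω) (P P' : MvPolynomial (Fin 4) Ω) :
    H P (c • P') = c • H P P' := by
  obtain ⟨c1, c2, c3, r1, r2, r3, hH⟩ := hP.eqH
  funext i
  rw [hH, hH]
  fin_cases i <;> simp [hP.A_smul2] <;> ring

/-- proportionality on monomials is enough -/
private theorem PlnV.prop (h : Fin 4 → Ω)
    (hm : ∀ m m' : Fin 4 →₀ ℕ, ∃ c : Ω, H (monomial m 1) (monomial m' 1) = c • h)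
    (P P' : MvPolynomial (Fin 4) Ω) : ∃ c : Ω, H P P' = c • h := by
  have h1 : ∀ (m : Fin 4 →₀ ℕ) (P' : MvPolynomial (Fin 4) Ω),
      ∃ c : Ω, H (monomial m 1) P' = c • h := by
    intro m P'
    induction P' using MvPolynomial.induction_on' with
    | monomial m' a =>
      obtain ⟨c, hc⟩ := hm m m'
      refine ⟨a * c, ?_⟩
      have h2 : (monomial m' a : MvPolynomial (Fin 4) Ω) = a • monomial m' 1 := by
        rw [smul_monomial, smul_eq_mul, mul_one]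
      rw [h2, hP.H_smul2, hc, smul_smul]
    | add p q hp hq =>
      obtain ⟨c, hc⟩ := hp
      obtain ⟨c', hc'⟩ := hq
      exact ⟨c + c', by rw [hP.H_add2, hc, hc', add_smul]⟩
  induction P using MvPolynomial.induction_on' with
  | monomial m a =>
    obtain ⟨c, hc⟩ := h1 m P'
    refine ⟨a * c, ?_⟩
    have h2 : (monomial m a : MvPolynomial (Fin 4) Ω) = a • monomial m 1 := by
      rw [smul_monomial, smul_eq_mul, mul_one]
    rw [h2, hP.H_smul1, hc, smul_smul]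
  | add p q hp hq =>
    obtain ⟨c, hc⟩ := hp
    obtain ⟨c', hc'⟩ := hq
    exact ⟨c + c', by rw [hP.H_add1, hc, hc', add_smul]⟩

private theorem PlnV.gram (P P' : MvPolynomial (Fin 4) Ω) (l l' θ θ' : Fin 4 → Ω)
    (hl : dt l x = 0) (hl' : dt l' x = 0) :
    vol3 θ θ' n * vol3 (V (P * lf l)) (V (P' * lf l')) w =
      -(dt θ (V (P * lf l)) * dt θ' (V (P' * lf l')) -
        dt θ' (V (P * lf l)) * dt θ (V (P' * lf l'))) := by
  rw [plnmk_gram θ θ' n _ _ _ (hP.V0 _) (hP.V0 _) hP.w0, hP.nV P l hl, hP.nV P' l' hl', hP.nw]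
  ring

private theorem PlnV.ne_zero [CharZero Ω] (P0 : MvPolynomial (Fin 4) Ω) (l l' : Fin 4 → Ω)
    (hl : dt l x = 0) (hl' : dt l' x = 0)
    (hlin : LinearIndependent Ω ![x, V (P0 * lf l), V (P0 * lf l')]) : H P0 P0 ≠ 0 := by
  intro h0
  have h1 := hP.AH P0 P0 l l' hl hl'
  rw [h0] at h1
  have h2 : vol3 (0 : Fin 4 → Ω) l l' = 0 := by simp [vol3]
  rw [h2, neg_zero, hP.eqA] at h1
  have h3 : vol3 (V (P0 * lf l)) (V (P0 * lf l')) w = 0 := by
    have h4 : vol3 (V (P0 * lf l')) (V (P0 * lf l)) w =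
        - vol3 (V (P0 * lf l)) (V (P0 * lf l')) w := by
      unfold vol3
      ring
    rw [h4] at h1
    have h5 : (2 : Ω) * vol3 (V (P0 * lf l)) (V (P0 * lf l')) w = 0 := by
      rw [← h1]
      ring
    exact (mul_eq_zero.1 h5).resolve_left two_ne_zero
  have h6 : ∀ θ θ' : Fin 4 → Ω, dt θ (V (P0 * lf l)) * dt θ' (V (P0 * lf l')) -
      dt θ' (V (P0 * lf l)) * dt θ (V (P0 * lf l')) = 0 := by
    intro θ θ'
    have h7 := hP.gram P0 P0 l l' θ θ' hl hl'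
    rw [h3, mul_zero] at h7
    exact neg_eq_zero.1 h7.symm
  obtain ⟨v1, hv1⟩ : ∃ v, v = V (P0 * lf l) := ⟨_, rfl⟩
  obtain ⟨v2, hv2⟩ : ∃ v, v = V (P0 * lf l') := ⟨_, rfl⟩
  rw [← hv1, ← hv2] at hlin h6
  have h7 : ∀ i j, v1 i * v2 j - v1 j * v2 i = 0 := by
    intro i j
    have h8 := h6 (Pi.single i 1) (Pi.single j 1)
    have h9 : ∀ (k : Fin 4) (v : Fin 4 → Ω), dt (Pi.single k 1) v = v k := by
      intro k v
      unfold dt
      rw [Finset.sum_eq_single k]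
      · rw [Pi.single_eq_same, one_mul]
      · intro b _ hb
        rw [Pi.single_eq_of_ne hb, zero_mul]
      · intro hk
        exact absurd (Finset.mem_univ k) hk
    rwa [h9, h9, h9, h9] at h8
  have h8 : ∀ c1 c2 : Ω, c1 • v1 + c2 • v2 = 0 → c1 = 0 ∧ c2 = 0 := by
    intro c1 c2 hc
    have h9 := (Fintype.linearIndependent_iff.1 hlin) ![0, c1, c2] (by
      simp only [Fin.sum_univ_three, Matrix.cons_val_zero, Matrix.cons_val_one,
        Matrix.cons_val_two, Matrix.head_cons, Matrix.tail_cons, zero_smul, zero_add]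
      exact hc)
    exact ⟨by simpa using h9 1, by simpa using h9 2⟩
  have h9 : v1 = 0 := by
    funext i
    have h10 := h8 (v2 i) (-(v1 i)) (by
      funext j
      have h11 := h7 i j
      simp only [Pi.add_apply, Pi.smul_apply, smul_eq_mul, Pi.zero_apply]
      linear_combination -h11)
    exact neg_eq_zero.1 h10.2
  have h10 := h8 1 0 (by rw [h9, smul_zero, zero_smul, add_zero])
  exact one_ne_zero h10.1

/-- the bilinear form -/
private theorem PlnV.form (h : Fin 4 → Ω) (i0 : Fin 4) (hi0 : h i0 ≠ 0)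
    (hm : ∀ m m' : Fin 4 →₀ ℕ, ∃ c : Ω, H (monomial m 1) (monomial m' 1) = c • h) :
    ∃ g : MvPolynomial (Fin 4) Ω →ₗ[Ω] MvPolynomial (Fin 4) Ω →ₗ[Ω] Ω,
      (∀ P P', g P P' = H P P' i0 / h i0) ∧
      ∀ (P P' : MvPolynomial (Fin 4) Ω) (l l' θ θ' : Fin 4 → Ω), dt l x = 0 → dt l' x = 0 →
        dt θ x = 0 → dt θ' x = 0 →
        dt θ (V (P * lf l)) * dt θ' (V (P' * lf l')) -
          dt θ' (V (P * lf l)) * dt θ (V (P' * lf l')) -
          (dt θ (V (P * lf l')) * dt θ' (V (P' * lf l)) -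
            dt θ' (V (P * lf l')) * dt θ (V (P' * lf l))) =
          vol3 θ θ' n * vol3 h l l' * g P P' := by
  have hall := hP.prop h hm
  have hval : ∀ P P', H P P' = (H P P' i0 / h i0) • h := by
    intro P P'
    obtain ⟨c, hc⟩ := hall P P'
    have h1 : H P P' i0 / h i0 = c := by
      rw [hc, Pi.smul_apply, smul_eq_mul, mul_div_assoc, div_self hi0, mul_one]
    rw [h1, hc]
  obtain ⟨g, hg⟩ : ∃ g : MvPolynomial (Fin 4) Ω →ₗ[Ω] MvPolynomial (Fin 4) Ω →ₗ[Ω] Ω,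
      ∀ P P', g P P' = H P P' i0 / h i0 := by
    refine ⟨LinearMap.mk₂ Ω (fun P P' => H P P' i0 / h i0) ?_ ?_ ?_ ?_, fun P P' => rfl⟩
    · intro P Q P'
      rw [hP.H_add1, Pi.add_apply, add_div]
    · intro c P P'
      rw [hP.H_smul1, Pi.smul_apply, smul_eq_mul, smul_eq_mul, mul_div_assoc]
    · intro P P' Q
      rw [hP.H_add2, Pi.add_apply, add_div]
    · intro c P P'
      rw [hP.H_smul2, Pi.smul_apply, smul_eq_mul, smul_eq_mul, mul_div_assoc]
  refine ⟨g, hg, ?_⟩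
  intro P P' l l' θ θ' hl hl' _ _
  have h1 := hP.gram P P' l l' θ θ' hl hl'
  have h2 := hP.gram P P' l' l θ θ' hl' hl
  have h3 := hP.AH P P' l l' hl hl'
  rw [hP.eqA, hval P P', plnmk_smul1, ← hg] at h3
  linear_combination h1 - h2 - vol3 θ θ' n * h3

end

private theorem plnmk_monB (B : Subfield Ω) (m : Fin 4 →₀ ℕ) :
    RatP B (monomial m 1 : MvPolynomial (Fin 4) Ω) := by
  intro m'
  rw [coeff_monomial]
  split_ifs
  · exact one_mem B
  · exact zero_mem B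

end PlnMk

theorem pln_mk {Ω : Type*} [Field Ω] [CharZero Ω] {D : Sym (Fin 4) 5 → Derivation ℤ Ω Ω}
    {a : Sym (Fin 4) 5 → Ω} {B : Subfield Ω} (hB : Frame D a B) (x : Fin 4 → Ω) (hx : x 0 = 1)
    (hF : form a x = 0) (P0 : MvPolynomial (Fin 4) Ω) (hP0 : RatP B P0) (l l' : Fin 4 → Ω)
    (hl : dt l x = 0) (hl' : dt l' x = 0)
    (hlin : LinearIndependent Ω ![x, dv D x (P0 * lf l), dv D x (P0 * lf l')]) :
    (∀ i, x i ∈ B) ∨ ∃ (h n : Fin 4 → Ω)
      (g : MvPolynomial (Fin 4) Ω →ₗ[Ω] MvPolynomial (Fin 4) Ω →ₗ[Ω] Ω),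
      Pln D a B x h n g := by
  obtain ⟨n, hnx, hnf⟩ := dv_normal D a hB.dual (by norm_num) x hF
  obtain ⟨w, hw0, hnw, hA⟩ := plnmk_Ab D x n hx hnf
  have hnP : ∀ (P : MvPolynomial (Fin 4) Ω) (l : Fin 4 → Ω), dt l x = 0 →
      dt n (dv D x (P * lf l)) = 0 := by
    intro P l hl
    exact (hnf _).trans (neg_eq_zero.2 (plnmk_lf 4 5 (by norm_num) x l P hl))
  have hP : PlnV (dv D x) x n w (Ab D x) (hv D x) :=
    ⟨fun f => plnmk_dv0 D x 0 hx f, hw0, hnw, hnP, hA, ⟨_, _, _, _, _, _, fun P P' => rfl⟩,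
      fun P P' l l' hl hl' => Ab_eq D x hx P P' l l' hl hl'⟩
  have h0 : hv D x P0 P0 ≠ 0 := hP.ne_zero P0 l l' hl hl' hlin
  have hhB : ∀ i, hv D x P0 P0 i ∈ B := hv_mem hB x hx hF P0 P0 hP0 hP0
  have hhx : dt (hv D x P0 P0) x = 0 := hv_dt D x hx P0 P0
  by_cases hprop : ∀ m m' : Fin 4 →₀ ℕ, ∃ c : Ω,
      hv D x (monomial m 1) (monomial m' 1) = c • hv D x P0 P0
  swap
  · left
    push Not at hprop
    obtain ⟨m, m', hmm⟩ := hprop
    exact line_mem_two hB (by norm_num) x hx hF (hv D x P0 P0)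
      (hv D x (monomial m 1) (monomial m' 1)) hhB
      (hv_mem hB x hx hF _ _ (plnmk_monB B m) (plnmk_monB B m'))
      ((LinearIndependent.pair_iff' h0).2 fun c hc => hmm c hc.symm) hhx (hv_dt D x hx _ _)
  right
  obtain ⟨i0, hi0⟩ : ∃ i, hv D x P0 P0 i ≠ 0 := by
    by_contra hcon
    push Not at hcon
    exact h0 (funext hcon)
  obtain ⟨g, hg, hrel⟩ := hP.form (hv D x P0 P0) i0 hi0 hprop
  refine ⟨hv D x P0 P0, n, g, hB, hx, hF, hhB, h0, hhx, hnx, hnf, ?_, ?_, hrel⟩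
  · intro P P' hP hP'
    rw [hg]
    exact div_mem (hv_mem hB x hx hF P P' hP hP' i0) (hhB i0)
  · refine ⟨P0, hP0, ?_⟩
    rw [hg, div_self hi0]
    exact one_ne_zero

end Pool.Agent.Helper6.QS
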