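import Pool.Agent.Helper6.QS.MainE
import Pool.Agent.Helper6.QS.FinP
import Pool.Agent.Helper6.QS.KeyAll8

/-!
MP_26d9ad_nt: rational points on moving hypersurfaces and integral points on their complements, in
degrees at least `3N/2`: all but finitely many lie on finitely many lines. Third case: generic
hypersurfaces of degree 5 in `P^3`, 7 in `P^4`, 8 in `P^5`, 10 in `P^6`. Fourth case: degree 6 in
`P^4`, points which are not algebraic over the field of the coefficients. Fifth case: complements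
of generic hypersurfaces of degree `2 N`.
-/

open AlgebraicGeometry CategoryTheory CategoryTheory.Limits MvPolynomial
open Pool.Agent.Helper8.LG
open Pool.Agent.Helper8.LV (pull)
open Pool.Agent.Helper10.LN (MeetsTwice)

namespace Pool.Agent.Results.MP_26d9ad_nt.ExceptionalLines

universe u v

/-- Some ratio `x_i / x_j` is not algebraic over `E`. -/
def MovesOver {k M : Type*} [Field k] [Field M] [Algebra k M] (E : IntermediateField k M) {N : ℕ}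
    (x : Fin (N + 1) → M) : Prop :=
  ∃ i j, ¬ IsAlgebraic E (x i / x j)

theorem result (R : CommRingCat.{u}) (B : Scheme.{u}) [IsIntegral B] (s : B ⟶ Spec R)
    [LocallyOfFiniteType s] [CharZero B.functionField]
    (U : Scheme.{u}) (π : U ⟶ B) [IsSeparated π] [LocallyOfFiniteType π] [QuasiCompact π]
    {N n : ℕ} (d q : ℕ) (b : Fin n → ℕ) (hb : ∀ j, b j + q ≤ d)
    (F : MvPolynomial (Fin (N + 1)) B.functionField) (hF : F.IsHomogeneous d)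
    (f : genFib π ⟶ PN N B.functionField) (hf : f ≫ PN.toSpec N _ = pullback.snd _ _)
    [LocallyQuasiFinite f]
    (Z S : Prop) (hU : ¬Z → ∀ z : genFib π, NonVanishing (f z) F)
    (k₀ : Subfield B.functionField)
    (hk₀ : ∀ r : R, (Spec.preimage (B.fromSpecStalk (genericPoint B) ≫ s)).hom r ∈ k₀)
    (M : Type v) [Field M] [Algebra B.functionField M]
    (hM : (⊤ : IntermediateField B.functionField M).FG) (g : GL (Fin (N + 1)) M)
    (A : MvPolynomial (Fin (N + 1)) k₀) (hA : A.IsHomogeneous d)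
    (P : Fin n → MvPolynomial (Fin (N + 1)) k₀) (hP : ∀ j, (P j).IsHomogeneous (b j))
    (H : Fin n → MvPolynomial (Fin (N + 1)) M) (hH : ∀ j, (H j).IsHomogeneous (d - b j))
    (hFA : subst (g : Matrix _ _ M) F =
      map (algebraMap k₀ M) A + ∑ j, map (algebraMap k₀ M) (P j) * H j)
    (w c : ℕ)
    (hcoef : ((∑ j, (N + (d - b j)).choose N : ℕ) : Cardinal) ≤
      Algebra.trdeg k₀ (coeffField k₀ H) + c)
    (hw : w = N ∨ 2 * N + w + c + 56 ≤ 10 * q)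
    (hnum : (Z ∧ 3 * w + 3 + c ≤ 2 * q ∧ 6 * N + 2 * c ≤ (q - 1) * (q - 2)) ∨
      (¬Z ∧ 3 * w + 4 + c ≤ 2 * q ∧ 6 * N + 2 * c ≤ (q - 2) * (q - 3) ∧ 3 ≤ q) ∨
      (n = 1 ∧ d = q ∧ c = 0 ∧
        ((Z ∧ (N = 3 ∧ q = 5 ∨ N = 4 ∧ q = 7 ∨ N = 5 ∧ q = 8 ∨ N = 6 ∧ q = 10 ∨
          S ∧ N = 4 ∧ q = 6)) ∨
        (¬Z ∧ Algebra.FiniteType ℤ R ∧ q = 2 * N ∧ 2 ≤ N)))) :
    ∃ Λ : Set (Submodule B.functionField (Fin (N + 1) → B.functionField)), Λ.Finite ∧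
      (∀ W ∈ Λ, Module.finrank B.functionField W = 2 ∧
        (Z → (∀ x ∈ W, MvPolynomial.eval x F = 0) ∧ q + 2 < 2 * N + c) ∧
        (¬Z → Algebra.FiniteType ℤ R → MeetsTwice F W)) ∧
      {σ : B ⟶ U | ∃ hσ : σ ≫ π = 𝟙 B, ∀ (t : Spec B.functionField)
        (x : Fin (N + 1) → B.functionField), IsCoord (f (genPt π σ hσ t)) x →
        (∃ j, aeval (pull g x) (P j) ≠ 0) ∧
        Algebra.trdeg k₀ (ratioField k₀ (pull g x)) ≤ w ∧
        (Z → MvPolynomial.eval x F = 0) ∧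
        (S → MovesOver (coeffField k₀ H) (pull g x)) ∧ ∀ W ∈ Λ, x ∉ W}.Finite := by
  by_cases h3 : Z ∧ n = 1 ∧ d = q ∧ c = 0 ∧
      ((N = 3 ∧ q = 5) ∨ (N = 4 ∧ q = 7) ∨ (N = 5 ∧ q = 8) ∨ (N = 6 ∧ q = 10))
  · obtain ⟨hZ, hn, hdq, hc, hNq⟩ := h3
    refine ⟨∅, Set.finite_empty, fun W h => absurd h (Set.notMem_empty _),
      (Pool.Agent.Helper6.QS.main_q R B s U π d q b hb F hF f hf Z k₀ hk₀ M hM g A P hP H hFA w c
        hcoef hZ hn hdq hc (by omega) (Pool.Agent.Helper6.QS.keyQ_all4 N q hNq)).subset ?_⟩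
    rintro σ ⟨hσ, h7⟩
    refine ⟨hσ, fun t x hx => ?_⟩
    obtain ⟨h8, h9, h10, -⟩ := h7 t x hx
    exact ⟨h8, h9, h10⟩
  by_cases h3' : Z ∧ S ∧ n = 1 ∧ d = q ∧ c = 0 ∧ N = 4 ∧ q = 6
  · obtain ⟨hZ, hS, hn, hdq, hc, hN, hq6⟩ := h3'
    refine ⟨∅, Set.finite_empty, fun W h => absurd h (Set.notMem_empty _),
      (Pool.Agent.Helper6.QS.main_e R B s U π d q b hb F hF f hf Z k₀ hk₀ M hM g A P hP H hFA w c
        hcoef hZ hn hdq hc hN hq6).subset ?_⟩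
    rintro σ ⟨hσ, h7⟩
    refine ⟨hσ, fun t x hx => ?_⟩
    obtain ⟨h8, h9, h10, h11, -⟩ := h7 t x hx
    exact ⟨⟨h8, h9, h10⟩, h11 hS⟩
  by_cases h3'' : ¬Z ∧ Algebra.FiniteType ℤ R ∧ n = 1 ∧ d = q ∧ c = 0 ∧ q = 2 * N ∧ 2 ≤ N
  · obtain ⟨hZ, hR, hn, hdq, hc, hqN, hN⟩ := h3''
    obtain ⟨Λ, h4, h5, h6⟩ := Pool.Agent.Helper6.QS.main_pN R B s U π d q b hb F hF f hf Z hZ hU
      k₀ hk₀ M hM g A P hP H hFA w c hcoef hR hn hdq hc (by omega)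
      (Pool.Agent.Helper6.QS.finP_all N q hqN hN)
    refine ⟨Λ, h4, fun W hW => ⟨(h5 W hW).1, fun h => absurd h hZ, fun _ _ => (h5 W hW).2⟩,
      h6.subset ?_⟩
    rintro σ ⟨hσ, h7⟩
    refine ⟨hσ, fun t x hx => ?_⟩
    obtain ⟨h8, h9, h10, -, h11⟩ := h7 t x hx
    exact ⟨⟨h8, h9, h10⟩, h11⟩
  obtain ⟨Λ, h4, h5, h6⟩ := Pool.Agent.Helper74.LN.main_n R B s U π d q b hb F hF f hf Z hU
    k₀ hk₀ M hM g A hA P hP H hH hFA w c hcoef (by
      rcases hnum with ⟨h, h1, h2⟩ | ⟨h, h1, h2, h3⟩ | ⟨h, h0, h1, h2 | h2⟩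
      · exact Or.inl ⟨h, by omega, h1, by rwa [mul_comm (q - 1)] at h2⟩
      · exact Or.inr ⟨h, by omega, h1, h3, by rwa [mul_comm (q - 2)] at h2⟩
      · rcases h2 with ⟨h2, h4 | h4 | h4 | h4 | ⟨h5, h4⟩⟩
        · exact absurd ⟨h2, h, h0, h1, Or.inl h4⟩ h3
        · exact absurd ⟨h2, h, h0, h1, Or.inr (Or.inl h4)⟩ h3
        · exact absurd ⟨h2, h, h0, h1, Or.inr (Or.inr (Or.inl h4))⟩ h3
        · exact absurd ⟨h2, h, h0, h1, Or.inr (Or.inr (Or.inr h4))⟩ h3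
        · exact absurd ⟨h2, h5, h, h0, h1, h4⟩ h3'
      · exact absurd ⟨h2.1, h2.2.1, h, h0, h1, h2.2.2⟩ h3'')
  refine ⟨Λ, h4, h5, h6.subset ?_⟩
  rintro σ ⟨hσ, h7⟩
  refine ⟨hσ, fun t x hx => ?_⟩
  obtain ⟨h8, h9, h10, -, h11⟩ := h7 t x hx
  exact ⟨⟨h8, h9, h10⟩, h11⟩

end Pool.Agent.Results.MP_26d9ad_nt.ExceptionalLines
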