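import Pool.Agent.Helper74.BP.MainK
import Pool.Agent.Helper74.BP.FinC
import Pool.Agent.Helper6.QS.FinPAll
import Pool.Agent.Helper6.QS.MainPN

/-!
MP_26d9ad_nt: rational points on moving hypersurfaces and integral points on their complements, in
degrees at least `3N/2`: all but finitely many lie on finitely many lines. Generic hypersurfaces
(last alternative): degree `q` with `2 q ≥ 3 N + 1`; degree 6 in `P^4`, points which are not
algebraic over the field of the coefficients; complements in degree at least `2 N`.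
-/

open AlgebraicGeometry CategoryTheory CategoryTheory.Limits MvPolynomial
open Pool.Agent.Helper8.LG
open Pool.Agent.Helper8.LV (pull)
open Pool.Agent.Helper10.LN (MeetsTwice)

namespace Pool.Agent.Helper6.QS.ResH

universe u v

/-- Some ratio `x_i / x_j` is not algebraic over `E`. -/
def MovesOver {k M : Type*} [Field k] [Field M] [Algebra k M] (E : IntermediateField k M) {N : ℕ}
    (x : Fin (N + 1) → M) : Prop :=
  ∃ i j, ¬ IsAlgebraic E (x i / x j)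

theorem result (R : CommRingCat.{u}) (B : Scheme.{u}) [IsIntegral B] (s : B ⟶ Spec R)
    [CharZero B.functionField]
    (U : Scheme.{u}) (π : U ⟶ B) [IsSeparated π] [LocallyOfFiniteType π] [QuasiCompact π]
    {N n : ℕ} (d q : ℕ) (b : Fin n → ℕ) (hb : ∀ j, b j + q ≤ d)
    (F : MvPolynomial (Fin (N + 1)) B.functionField) (hF : F.IsHomogeneous d)
    (f : genFib π ⟶ PN N B.functionField) (hf : f ≫ PN.toSpec N _ = pullback.snd _ _)
    [LocallyQuasiFinite f]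
    (Z S : Prop) (hU : ¬Z → ∀ z : genFib π, NonVanishing (f z) F)
    (k₀ : Subfield B.functionField) [Algebra.EssFiniteType k₀ B.functionField]
    (hk₀ : ¬Z → LocallyOfFiniteType s ∧
      ∀ r : R, (Spec.preimage (B.fromSpecStalk (genericPoint B) ≫ s)).hom r ∈ k₀)
    (M : Type v) [Field M] [Algebra B.functionField M] [Algebra.EssFiniteType B.functionField M]
    (g : GL (Fin (N + 1)) M)
    (A : MvPolynomial (Fin (N + 1)) k₀) (hA : A.IsHomogeneous d)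
    (P : Fin n → MvPolynomial (Fin (N + 1)) k₀) (hP : ∀ j, (P j).IsHomogeneous (b j))
    (H : Fin n → MvPolynomial (Fin (N + 1)) M) (hH : ∀ j, (H j).IsHomogeneous (d - b j))
    (hFA : subst (g : Matrix _ _ M) F =
      map (algebraMap k₀ M) A + ∑ j, map (algebraMap k₀ M) (P j) * H j)
    (w c : ℕ)
    (hcoef : ((∑ j, (N + (d - b j)).choose N : ℕ) : Cardinal) ≤
      Algebra.trdeg k₀ (coeffField k₀ H) + c)
    (hw : w = N ∨ 2 * N + w + c + 56 ≤ 10 * q)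
    (hnum : (Z ∧ 3 * w + 3 + c ≤ 2 * q ∧ 6 * N + 2 * c ≤ (q - 1) * (q - 2)) ∨
      (¬Z ∧ 3 * w + 4 + c ≤ 2 * q ∧ 6 * N + 2 * c ≤ (q - 2) * (q - 3) ∧ 3 ≤ q) ∨
      (n = 1 ∧ d = q ∧ c = 0 ∧
        (Z ∧ (3 ≤ N ∧ 3 * N + 1 ≤ 2 * q ∨ S ∧ N = 4 ∧ q = 6) ∨
        ¬Z ∧ Algebra.FiniteType ℤ R ∧ 2 ≤ N ∧ 2 * N ≤ q))) :
    ∃ Λ : Set (Submodule B.functionField (Fin (N + 1) → B.functionField)), Λ.Finite ∧
      (∀ W ∈ Λ, Module.finrank B.functionField W = 2 ∧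
        (Z → (∀ x ∈ W, MvPolynomial.eval x F = 0) ∧ q + 2 < 2 * N + c) ∧
        (¬Z → Algebra.FiniteType ℤ R → MeetsTwice F W)) ∧
      {σ : B ⟶ U | ∃ hσ : σ ≫ π = 𝟙 B, ∀ (t : Spec B.functionField)
        (x : Fin (N + 1) → B.functionField), IsCoord (f (genPt π σ hσ t)) x →
        (∃ j, aeval (pull g x) (P j) ≠ 0) ∧
        Algebra.trdeg k₀ (ratioField k₀ (pull g x)) ≤ w ∧
        (Z → MvPolynomial.eval x F = 0) ∧
        (S → MovesOver (coeffField k₀ H) (pull g x)) ∧ ∀ W ∈ Λ, x ∉ W}.Finite := by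
  have hK : (⊤ : IntermediateField k₀ B.functionField).FG := IntermediateField.fg_top _ _
  have hM : (⊤ : IntermediateField B.functionField M).FG := IntermediateField.fg_top _ _
  by_cases hZ : Z
  · obtain ⟨Λ, h4, h5, h6⟩ := Pool.Agent.Helper74.BP.main_z B U π d q b hb F hF f hf Z S hZ k₀ hK
      M hM g A hA P hP H hH hFA w c hcoef (by
        rcases hnum with ⟨h, h1, h2⟩ | ⟨h, h1, h2, h3⟩ | ⟨h, h0, h1, ⟨h2, h3 | h3⟩ | h2⟩
        · exact Or.inl ⟨by omega, h1, by rwa [mul_comm (q - 1)] at h2⟩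
        · exact absurd hZ h
        · exact Or.inr (Or.inl ⟨h, h0, h1, Pool.Agent.Helper74.BP.finC h3.1 h3.2⟩)
        · exact Or.inr (Or.inr ⟨h, h0, h1, h3⟩)
        · exact absurd hZ h2.1)
    refine ⟨Λ, h4, fun W hW => ⟨(h5 W hW).1, fun _ => (h5 W hW).2, fun h => absurd hZ h⟩,
      h6.subset ?_⟩
    rintro σ ⟨hσ, h7⟩
    refine ⟨hσ, fun t x hx => ?_⟩
    obtain ⟨h8, h9, h10, h11, h12⟩ := h7 t x hx
    exact ⟨⟨⟨h8, h9, h10⟩, h11⟩, h12⟩
  obtain ⟨hs, hk⟩ := hk₀ hZ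
  by_cases h3'' : Algebra.FiniteType ℤ R ∧ n = 1 ∧ d = q ∧ c = 0 ∧ 2 ≤ N ∧ 2 * N ≤ q
  · obtain ⟨hR, hn, hdq, hc, hN, hqN⟩ := h3''
    obtain ⟨Λ, h4, h5, h6⟩ := Pool.Agent.Helper6.QS.main_pN R B s U π d q b hb F hF f hf Z hZ hU
      k₀ hk M hM g A P hP H hFA w c hcoef hR hn hdq hc (by omega)
      (Pool.Agent.Helper6.QS.finP_ge N q hN hqN)
    refine ⟨Λ, h4, fun W hW => ⟨(h5 W hW).1, fun h => absurd h hZ, fun _ _ => (h5 W hW).2⟩,
      h6.subset ?_⟩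
    rintro σ ⟨hσ, h7⟩
    refine ⟨hσ, fun t x hx => ?_⟩
    obtain ⟨h8, h9, h10, -, h11⟩ := h7 t x hx
    exact ⟨⟨h8, h9, h10⟩, h11⟩
  obtain ⟨Λ, h4, h5, h6⟩ := Pool.Agent.Helper74.LN.main_n R B s U π d q b hb F hF f hf Z hU
    k₀ hk M hM g A hA P hP H hH hFA w c hcoef (by
      rcases hnum with ⟨h, h1, h2⟩ | ⟨h, h1, h2, h3⟩ | ⟨h, h0, h1, ⟨h2, h3⟩ | h2⟩
      · exact absurd h hZ
      · exact Or.inr ⟨h, by omega, h1, h3, by rwa [mul_comm (q - 2)] at h2⟩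
      · exact absurd h2 hZ
      · exact absurd ⟨h2.2.1, h, h0, h1, h2.2.2⟩ h3'')
  refine ⟨Λ, h4, h5, h6.subset ?_⟩
  rintro σ ⟨hσ, h7⟩
  refine ⟨hσ, fun t x hx => ?_⟩
  obtain ⟨h8, h9, h10, -, h11⟩ := h7 t x hx
  exact ⟨⟨h8, h9, h10⟩, h11⟩

end Pool.Agent.Helper6.QS.ResH
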